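import Pool.Agent.NH38.Fork.Q2

/-!
Thick slits, task FK-E1 (helper80): exchange, permutations and inversion for the three leg
amplitude.
-/

set_option autoImplicit false

namespace Pool.Agent.NH38.Fork

open Pool.Agent.H988R2.Perc hiding X
open Pool.Agent.H492C (comb2 pairG up1)
open Pool.Agent.NH38.Step (om prs EE zs prF Gen on cardy pom bev)
open Polynomial Filter Topology

namespace E1

open Q2

/-- the operator `act a - 1` -/
noncomputable def Dl (a : ℕ) : (St →₀ ℂ) →ₗ[ℂ] (St →₀ ℂ) :=
  Finsupp.lmapDomain ℂ ℂ (St.act a) - LinearMap.id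

theorem Dl_apply (a : ℕ) (f : St →₀ ℂ) : Dl a f = Finsupp.mapDomain (St.act a) f - f := rfl

theorem Dl_act (a : ℕ) (f : St →₀ ℂ) : Dl a (Finsupp.mapDomain (St.act a) f) = 0 := by
  rw [Dl_apply, t17_mapDomain_act_act, sub_self]

theorem com_Dl (a : ℕ) : Com (Dl a) a (a + 3) := by
  intro i f h
  have hc : St.act a ∘ St.act i = St.act i ∘ St.act a := by
    funext R
    rcases h with h | h
    · exact (H988C.act_comm h R).symm
    · exact H988C.act_comm (by omega) R
  rw [Dl_apply, Dl_apply, ← Finsupp.lmapDomain_apply ℂ ℂ (St.act i) (_ - _), map_sub,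
    Finsupp.lmapDomain_apply, Finsupp.lmapDomain_apply, ← Finsupp.mapDomain_comp, hc,
    Finsupp.mapDomain_comp]

theorem D_eq (A : List ℂ) (w z y : ℂ) (B : List ℂ) :
    D A w z y B = GT (Dl A.length) A [w, z, y] B := by
  unfold D GT
  rw [Dl_apply]
  simp only [List.length_cons, List.length_nil, List.cons_append, List.nil_append, Nat.zero_add]

theorem odd3 (w z y : ℂ) : Odd [w, z, y].length := ⟨1, rfl⟩

/-- the exchange relation for the strands `w`, `z` -/
theorem D_exch (A : List ℂ) (w z y : ℂ) (B : List ℂ) (hA : Odd A.length) (hB : Odd B.length) :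
    (z - q*w) * D A w z y B = (w - q*z) * D A z w y B := by
  have hev : Even (A.length + (y :: (B ++ [0])).length) := by
    simp only [List.length_append, List.length_cons, List.length_nil]
    obtain ⟨n, hn⟩ := hA
    obtain ⟨m, hm⟩ := hB
    exact ⟨n + m + 2, by omega⟩
  have e1 := congrArg (Dl A.length) (Psi_exch A (y :: (B ++ [0])) z w hev)
  rw [map_add, map_smul, map_smul, map_smul, Dl_act, smul_zero, add_zero] at e1
  have e2 := congrArg (fun f => pairG A.length (A.length + 3 + B.length) f (U A 1 B)) e1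
  simp only [H492C.G1w.pairG_smul_left] at e2
  have e3 : (q * z - q^2 * w) * D A w z y B = (q * w - q^2 * z) * D A z w y B := e2
  apply mul_left_cancel₀ q_ne_zero
  linear_combination e3

end E1

open Q2 E1

theorem t_Dexch : S_Dexch := by
  intro A B w z hA hB _ _ _ _
  unfold Dh
  have h1 : cst3 A B z w = cst3 A B w z := by
    unfold cst3
    rw [mul_comm z w]
  rw [h1, ← mul_div_assoc, ← mul_div_assoc, D_exch A w z 0 B hA hB]

theorem t_Dperm : S_Dperm := by
  intro A A' B B' hA hB hA0 hB0 hpA hpB w z _ _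
  unfold Dh
  have h1 : D A w z 0 B = D A' w z 0 B' := by
    rw [D_eq, D_eq, ← hpA.length_eq, permA (Dl A.length) [w, z, 0] B (com_Dl _) hA (odd3 _ _ _) hB
      hA0 hpA]
    refine permB (Dl A.length) A' [w, z, 0] (a := A.length) ?_ (by rw [← hpA.length_eq]; exact hA)
      (odd3 _ _ _) hB hB0 hpB
    rw [← hpA.length_eq]
    exact com_Dl _
  have h2 : cst3 A B w z = cst3 A' B' w z := by
    unfold cst3 na
    rw [hpA.length_eq, hpB.length_eq, hpA.prod_eq, hpB.prod_eq]
  rw [h1, h2]

theorem t_DinvB : S_DinvB := by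
  intro A B v hA hB hA0 hB0 hv w z _ _
  unfold Dh
  have h1 := invB (Dl A.length) A [w, z, 0] B v (a := A.length) (com_Dl _) hA (odd3 _ _ _) hB hB0
    hv
  rw [← D_eq, ← D_eq] at h1
  have e : A.length + [w, z, 0].length = ((A.length + 1) / 2 + 1) + ((A.length + 1) / 2 + 1) := by
    simp only [List.length_cons, List.length_nil]
    obtain ⟨n, hn⟩ := hA
    omega
  rw [e] at h1
  have hvn : v^((A.length + 1) / 2 + 1) ≠ 0 := pow_ne_zero _ hv
  have h2 : cst3 A (v :: B) w z =
      (v^((A.length + 1) / 2 + 1) * v^((A.length + 1) / 2 + 1)) *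
        cst3 A (v⁻¹ :: B) w z := by
    unfold cst3 na
    simp only [List.length_cons, List.prod_cons, mul_pow, inv_pow]
    field_simp
  rw [h1, h2, ← pow_add, mul_div_mul_left _ _ (by rw [pow_add]; exact mul_ne_zero hvn hvn)]

end Pool.Agent.NH38.Fork
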