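import Pool.Agent.NH38.Fork.Q4

/-!
Thick slits, task E3 (helper49): cup relation for `A`, three leg amplitude.
-/

namespace Pool.Agent.NH38.Fork

open Pool.Agent.H988R2.Perc hiding X
open Pool.Agent.H492C (comb2 pairG up1)
open Pool.Agent.NH38.Step (om prs EE zs prF Gen on cardy pom bev)

namespace E3

/-- the cup functional on the `A` side -/
noncomputable def ED (A : List ℂ) (z y : ℂ) (B : List ℂ) (u : ℂ) : ℂ :=
  pairG (A.length + 1) (A.length + 1 + 3 + B.length)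
    (Finsupp.mapDomain (St.act (A.length + 1))
        (Finsupp.mapDomain (St.ins A.length) (Psi (A ++ z :: y :: (B ++ [0])))) -
      Finsupp.mapDomain (St.ins A.length) (Psi (A ++ z :: y :: (B ++ [0]))))
    (U (A ++ [u]) 1 B)

theorem D_cup (A B : List ℂ) (u z y : ℂ) (hA : Even A.length) (hB : Odd B.length) :
    D (A ++ [u]) (q^2 * u) z y B = fac u (A ++ z :: y :: (B ++ [0])) * ED A z y B u := by
  have hpar : Even (A.length + (z :: y :: (B ++ [0])).length) := by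
    simp only [List.length_cons, List.length_append, List.length_nil]
    obtain ⟨a, ha⟩ := hA
    obtain ⟨b, hb⟩ := hB
    exact ⟨a + b + 2, by omega⟩
  have h1 := Psi_rec A (z :: y :: (B ++ [0])) u hpar
  unfold D ED
  have hl : (A ++ [u]).length = A.length + 1 := by simp
  rw [hl, List.append_assoc, List.singleton_append, h1, Finsupp.mapDomain_smul, ← smul_sub,
    Pool.Agent.H492C.pairG_smul_left]

theorem ED_inv (A B : List ℂ) (u z y : ℂ) (hA : Even A.length) (hu : u ≠ 0) :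
    ED A z y B u = (u⁻¹)^A.length * ED A z y B u⁻¹ := by
  unfold ED U
  have hl : ∀ z : ℂ, (A ++ [z]).length = A.length + 1 := by intro z; simp
  rw [hl, hl, Pool.Agent.H492C.C1.up1A A u hA hu, Pool.Agent.H492C.comb2_smul_left,
    Pool.Agent.H492C.pairG_smul_right]

theorem D_inv (A B : List ℂ) (u w z y : ℂ) (hA : Even A.length) (hB : Odd B.length) (hu : u ≠ 0) :
    D (u :: A) w z y B = u^(3 + B.length) * D (u⁻¹ :: A) w z y B := by
  have h1 := Psi_inv1 u (A ++ w :: z :: y :: (B ++ [0])) hu (by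
    simp only [List.length_cons, List.length_append, List.length_nil]
    obtain ⟨a, ha⟩ := hA
    obtain ⟨b, hb⟩ := hB
    exact ⟨a + b + 2, by omega⟩)
  have e1 : (A ++ w :: z :: y :: (B ++ [0])).length - 1 = A.length + (3 + B.length) := by
    simp only [List.length_cons, List.length_append, List.length_nil]
    omega
  rw [e1] at h1
  unfold D U
  rw [Pool.Agent.H492C.C1.up1B A u hA hu, Pool.Agent.H492C.comb2_smul_left,
    Pool.Agent.H492C.pairG_smul_right, List.cons_append, h1, Finsupp.mapDomain_smul, ← smul_sub,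
    Pool.Agent.H492C.pairG_smul_left]
  have h2 : u ^ (A.length + (3 + B.length)) * (u⁻¹) ^ A.length = u ^ (3 + B.length) := by
    rw [pow_add, mul_right_comm, ← mul_pow, mul_inv_cancel₀ hu, one_pow, one_mul]
  rw [← h2, List.cons_append, List.length_cons, List.length_cons]
  ring

theorem cst3_ne (A B : List ℂ) (w z : ℂ) (hA : NZ A) (hB : NZ B) (hw : w ≠ 0) (hz : z ≠ 0) :
    cst3 A B w z ≠ 0 := by
  unfold cst3
  have h1 : A.prod ≠ 0 := List.prod_ne_zero (fun h => hA 0 h rfl)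
  have h2 : B.prod ≠ 0 := List.prod_ne_zero (fun h => hB 0 h rfl)
  exact mul_ne_zero (mul_ne_zero (mul_ne_zero (pow_ne_zero _ (mul_ne_zero hw hz))
    (pow_ne_zero _ h1)) (pow_ne_zero _ h2)) (pow_ne_zero _ q_ne_zero)

/-- inversion of the first element of `A` -/
theorem Dh_invA (A B : List ℂ) (u w z : ℂ) (hA : Even A.length) (hB : Odd B.length) (hA0 : NZ A)
    (hB0 : NZ B) (hu : u ≠ 0) (hw : w ≠ 0) (hz : z ≠ 0) :
    Dh (u :: A) w z B = Dh (u⁻¹ :: A) w z B := by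
  have hui : u⁻¹ ≠ 0 := inv_ne_zero hu
  have h1 := D_inv A B u w z 0 hA hB hu
  unfold Dh
  rw [div_eq_div_iff (cst3_ne _ _ _ _ (Q4.cons_NZ hu hA0) hB0 hw hz)
    (cst3_ne _ _ _ _ (Q4.cons_NZ hui hA0) hB0 hw hz), h1]
  unfold cst3 na
  simp only [List.length_cons, List.prod_cons]
  obtain ⟨b, hb⟩ := hB
  have e1 : (B.length + 1) / 2 + 1 = b + 2 := by omega
  have e2 : 3 + B.length = (b + 2) + (b + 2) := by omega
  rw [e1, e2, mul_pow u, mul_pow u⁻¹, inv_pow, pow_add u]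
  have h2 : u ^ (b + 2) * (u ^ (b + 2))⁻¹ = 1 := mul_inv_cancel₀ (pow_ne_zero _ hu)
  generalize u ^ (b + 2) = V at *
  generalize D (u⁻¹ :: A) w z 0 B = g
  linear_combination (g * V * (w * z) ^ ((A.length + 1 + B.length) / 2 + 1) *
    A.prod ^ (b + 2) * B.prod ^ ((A.length + 1 + 1) / 2 + 1) *
    q ^ (((A.length + 1 + B.length) / 2 + 2) * ((A.length + 1 + B.length) / 2 + 1) +
      ((A.length + 1 + 1) / 2 * ((A.length + 1 - 1) / 2) +
        (B.length + 1) / 2 * ((B.length - 1) / 2)))) * h2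

end E3

open Q4 E3 in
/-- E3 -/
theorem t_DstarA : S_Dperm → S_DstarA := by
  intro hperm A B u z hA hB hA0 hB0 hu hz
  have hui : u⁻¹ ≠ 0 := inv_ne_zero hu
  have hq2 : q^2 ≠ 0 := pow_ne_zero 2 q_ne_zero
  have hw1 : q^2 * u ≠ 0 := mul_ne_zero hq2 hu
  have hw2 : q^2 * u⁻¹ ≠ 0 := mul_ne_zero hq2 hui
  have hodd : ∀ z : ℂ, Odd (z :: A).length := fun z => by rw [List.length_cons]; exact hA.add_one
  have hp : ∀ z : ℂ, (z :: A).Perm (A ++ [z]) := fun z => (List.perm_append_singleton z A).symm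
  have g1 := hperm (u :: A) (A ++ [u]) B B (hodd u) hB (cons_NZ hu hA0) hB0 (hp u)
    (List.Perm.refl B) (q^2 * u) z hw1 hz
  have g2 := hperm (u⁻¹ :: A) (A ++ [u⁻¹]) B B (hodd _) hB (cons_NZ hui hA0) hB0 (hp _)
    (List.Perm.refl B) (q^2 * u⁻¹) z hw2 hz
  have g3 := Dh_invA A B u (q^2 * u⁻¹) z hA hB hA0 hB0 hu hw2 hz
  rw [g1, g3, g2]
  have c1 := D_cup A B u z 0 hA hB
  have c2 := D_cup A B u⁻¹ z 0 hA hB
  have c3 := ED_inv A B u z 0 hA hu
  unfold Dh
  rw [c1, c2, c3]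
  have hne : ∀ z ∈ (A ++ B), z ≠ 0 := by
    intro z hz
    rcases List.mem_append.1 hz with h | h
    · exact hA0 z h
    · exact hB0 z h
  have eL : (A ++ z :: 0 :: (B ++ [0])).Perm ((A ++ B) ++ [z, 0, 0]) := by
    have : (z :: 0 :: (B ++ [0])).Perm (B ++ [z, 0, 0]) := by
      have h1 : (B ++ [z, 0, 0]).Perm ([z, 0, 0] ++ B) := List.perm_append_comm
      have h2 : ([z, 0] ++ (B ++ [0])).Perm ([z, 0] ++ ([0] ++ B)) :=
        List.Perm.append_left _ List.perm_append_comm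
      exact h2.trans h1.symm
    rw [List.append_assoc]
    exact List.Perm.append_left _ this
  have hf0 : ∀ x : ℂ, fac x [z, 0, 0] = ((x - q^2 * z) * (x * z - q^2)) * ((-q^2 * x) * (-q^2 * x)) := by
    intro x
    rw [Step.fac_cons', Step.fac_cons', Step.fac_zero_right]
    ring
  have f1 : fac u (A ++ z :: 0 :: (B ++ [0])) = (q^2 * u)^(A ++ B).length *
      (A ++ B).prod * pom (om (q * u)) (A ++ B) *
      (((u - q^2 * z) * (u * z - q^2)) * ((-q^2 * u) * (-q^2 * u))) := by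
    rw [Step.fac_perm' _ eL, Step.fac_app, hf0, Step.fac_eq_pom u hu _ hne]
  have f2 : fac u⁻¹ (A ++ z :: 0 :: (B ++ [0])) = (q^2 * u⁻¹)^(A ++ B).length *
      (A ++ B).prod * pom (om (q^2 * u)) (A ++ B) *
      (((u⁻¹ - q^2 * z) * (u⁻¹ * z - q^2)) * ((-q^2 * u⁻¹) * (-q^2 * u⁻¹))) := by
    rw [Step.fac_perm' _ eL, Step.fac_app, hf0, Step.fac_eq_pom _ hui _ hne, Step.om_q_inv]
  rw [f1, f2]
  have hU : u * u⁻¹ = 1 := mul_inv_cancel₀ hu
  -- the factors of `z`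
  have z1 : ((u - q^2 * z) * (u * z - q^2)) * ((q^2 * u - z) * (q^2 * u⁻¹ - q * z)) =
      -u * q^2 * ((u - q^2 * z) * (u⁻¹ - q^2 * z) * (q^2 * u - z) * (q^2 * u⁻¹ - z)) := by
    have h1 : u * z - q^2 = -u * (q^2 * u⁻¹ - z) := by
      linear_combination (q^2) * hU
    have h2 : q^2 * u⁻¹ - q * z = q^2 * (u⁻¹ - q^2 * z) := by
      have := q_cube
      linear_combination (q * z) * this
    rw [h1, h2]
    ring
  have z2 : ((u⁻¹ - q^2 * z) * (u⁻¹ * z - q^2)) * ((q^2 * u⁻¹ - z) * (q^2 * u - q * z)) =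
      -u⁻¹ * q^2 * ((u - q^2 * z) * (u⁻¹ - q^2 * z) * (q^2 * u - z) * (q^2 * u⁻¹ - z)) := by
    have h1 : u⁻¹ * z - q^2 = -u⁻¹ * (q^2 * u - z) := by
      linear_combination (q^2) * hU
    have h2 : q^2 * u - q * z = q^2 * (u - q^2 * z) := by
      have := q_cube
      linear_combination (q * z) * this
    rw [h1, h2]
    ring
  generalize (u - q^2 * z) * (u⁻¹ - q^2 * z) * (q^2 * u - z) * (q^2 * u⁻¹ - z) = F at z1 z2
  generalize pom (om (q * u)) (A ++ B) = P1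
  generalize pom (om (q^2 * u)) (A ++ B) = P2
  generalize ED A z 0 B u⁻¹ = E
  generalize (A ++ B).prod = M
  obtain ⟨a, ha⟩ := hA
  obtain ⟨b, hb⟩ := hB
  have hN : (A ++ B).length = 2 * (a + b) + 1 := by
    rw [List.length_append]; omega
  have hal : A.length = 2 * a := by omega
  simp only [mul_assoc]
  rw [div_mul_eq_mul_div, div_mul_eq_mul_div,
    div_eq_div_iff (cst3_ne _ _ _ _ (app_NZ hu hA0) hB0 hw1 hz)
      (cst3_ne _ _ _ _ (app_NZ hui hA0) hB0 hw2 hz), hN]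
  unfold cst3 na
  simp only [List.length_append, List.length_cons, List.length_nil, List.prod_append,
    List.prod_cons, List.prod_nil, mul_one, zero_add]
  have e1 : (B.length + 1) / 2 + 1 = b + 2 := by omega
  have e2 : (A.length + 1 + B.length) / 2 + 1 = a + b + 2 := by omega
  rw [e1, e2, hal]
  generalize q ^ (((2 * a + 1 + B.length) / 2 + 2) * (a + b + 2) +
      ((2 * a + 1 + 1) / 2 * ((2 * a + 1 - 1) / 2) + (B.length + 1) / 2 * ((B.length - 1) / 2))) = Q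
  generalize B.prod ^ ((2 * a + 1 + 1) / 2 + 1) = Bp
  have k1 : (q^2 * u)^(2 * (a + b) + 1) * (u * (u * u)) * (u⁻¹)^(2 * a) *
      ((q^2 * u⁻¹ * z)^(a + b + 2) * (A.prod * u⁻¹)^(b + 2)) =
      (q^2 * u⁻¹)^(2 * (a + b) + 1) * (u⁻¹ * (u⁻¹ * u⁻¹)) *
      ((q^2 * u * z)^(a + b + 2) * (A.prod * u)^(b + 2)) := by
    have t1 : (u⁻¹)^(2 * a) * ((u⁻¹)^(a + b + 2) * (u⁻¹)^(b + 2)) =
        (u⁻¹)^(2 * (a + b) + 4) * (u⁻¹)^a := by
      rw [← pow_add, ← pow_add, ← pow_add]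
      congr 1
      ring
    have t2 : (u⁻¹)^(2 * (a + b) + 4) = (u⁻¹)^(a + b + 2 + (b + 2)) * (u⁻¹)^a := by
      rw [← pow_add]
      congr 1
      ring
    have a1 : (q^2 * u)^(2 * (a + b) + 1) * (u * (u * u)) * (u⁻¹)^(2 * a) *
        ((q^2 * u⁻¹ * z)^(a + b + 2) * (A.prod * u⁻¹)^(b + 2)) =
        (q^2)^(2 * (a + b) + 1) * (q^2)^(a + b + 2) * z^(a + b + 2) * A.prod^(b + 2) *
          (u * u⁻¹)^(2 * (a + b) + 4) * (u⁻¹)^a := by
      calc _ = (q^2)^(2 * (a + b) + 1) * (q^2)^(a + b + 2) * z^(a + b + 2) * A.prod^(b + 2) *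
          u^(2 * (a + b) + 4) * ((u⁻¹)^(2 * a) * ((u⁻¹)^(a + b + 2) * (u⁻¹)^(b + 2))) := by
            ring
        _ = _ := by rw [t1]; ring
    have a2 : (q^2 * u⁻¹)^(2 * (a + b) + 1) * (u⁻¹ * (u⁻¹ * u⁻¹)) *
        ((q^2 * u * z)^(a + b + 2) * (A.prod * u)^(b + 2)) =
        (q^2)^(2 * (a + b) + 1) * (q^2)^(a + b + 2) * z^(a + b + 2) * A.prod^(b + 2) *
          (u * u⁻¹)^(a + b + 2 + (b + 2)) * (u⁻¹)^a := by
      calc _ = (q^2)^(2 * (a + b) + 1) * (q^2)^(a + b + 2) * z^(a + b + 2) * A.prod^(b + 2) *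
          (u⁻¹)^(2 * (a + b) + 4) * u^(a + b + 2 + (b + 2)) := by
            ring
        _ = _ := by rw [t2]; ring
    rw [a1, a2, hU, one_pow, one_pow]
  set c1' := (q^2 * u)^(2 * (a + b) + 1) with hc1
  set c2' := (q^2 * u⁻¹)^(2 * (a + b) + 1) with hc2
  set d1 := (q^2 * u * z)^(a + b + 2) with hd1
  set d2 := (q^2 * u⁻¹ * z)^(a + b + 2) with hd2
  set s1 := (A.prod * u)^(b + 2) with hs1
  set s2 := (A.prod * u⁻¹)^(b + 2) with hs2
  set v := (u⁻¹)^(2 * a) with hv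
  linear_combination (c1' * M * P1 * (q^2 * u * (q^2 * u)) * v * E * P2 * d2 * s2 * Bp * Q) * z1 -
    (c2' * M * P2 * (q^2 * u⁻¹ * (q^2 * u⁻¹)) * E * P1 * d1 * s1 * Bp * Q) * z2 -
    (q^2 * q^2 * q^2 * M * P1 * P2 * E * Bp * Q * F) * k1

end Pool.Agent.NH38.Fork
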