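import Pool.Agent.NH38.Fork.E46

/-!
Thick slits (helper38), task E4: cup relation of the three leg amplitude for `B`.
-/

set_option autoImplicit false

namespace Pool.Agent.NH38.Fork

open Pool.Agent.H988R2.Perc hiding X
open Pool.Agent.NH38.Step (om prs pom)
open E46

/-- E4 -/
theorem t_DstarB : S_DinvB → S_DstarB := by
  intro hinv A B v z hA hB hAn hBn hv hz
  obtain ⟨c, hc⟩ := E46.norm A B z hA hB hAn hBn hz
  have hq := q_ne_zero
  have hv' : v⁻¹ ≠ 0 := inv_ne_zero hv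
  have h1 := hc v hv
  have h2 := hc v⁻¹ hv'
  have h3 := hinv A B v hA hB hAn hBn hv (q * v⁻¹) z (mul_ne_zero hq hv') hz
  rw [← h3] at h2
  have hK := R3 A B z v hB hv
  set X := Dh A (q * v) z (v :: B) with hX
  set Y := Dh A (q * v⁻¹) z (v :: B) with hY
  have e1 : om (q^2 * v⁻¹) = om (q * v) := Pool.Agent.NH38.Step.om_q2_inv v
  rw [e1] at h2
  set P1 := pom (om (q * v)) (A ++ B) with hP1
  set P2 := pom (om (q^2 * v)) (A ++ B) with hP2
  obtain ⟨β, hβ⟩ := hB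
  have hβ' : B.length = 2 * β := by omega
  have e2 : B.length / 2 + 1 = β + 1 := by omega
  rw [e2, hβ'] at h1 h2
  rw [hβ'] at hK
  set k := K A z B v⁻¹ with hk
  have e3 : v^(2 * β) * K A z B v = k := by
    rw [hK, ← mul_assoc, ← mul_pow, mul_inv_cancel₀ hv, one_pow, one_mul]
  rw [e3] at h1
  have hvv : v * v⁻¹ = 1 := mul_inv_cancel₀ hv
  -- multiply by `v^(β+1)`
  have hp : v^(β + 1) ≠ 0 := pow_ne_zero _ hv
  have hY2 : Y = v^(β + 1) * (c * (P1 * ((v⁻¹ - z) * (z * v⁻¹ - q))) * (v⁻¹^(2 * β) * k)) := by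
    rw [← h2]
    have : v^(β + 1) * (Y * v⁻¹^(β + 1)) = Y * (v * v⁻¹)^(β + 1) := by
      rw [mul_pow]; ring
    rw [this, hvv, one_pow, mul_one]
  apply mul_left_cancel₀ hp
  have e4 : v^(β + 1) * v^(β + 1) * v⁻¹^(2 * β) = v^2 := by
    have : v^(β + 1) * v^(β + 1) = v^2 * v^(2 * β) := by ring
    rw [this, mul_assoc, ← mul_pow, hvv, one_pow, mul_one]
  have e5 : v^2 * ((v⁻¹ - z) * (z * v⁻¹ - q)) * ((q * v⁻¹ - z) * (q * v - q * z)) =
      ((v - z) * (z * v - q)) * ((q * v - z) * (q * v⁻¹ - q * z)) := by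
    field_simp
    ring
  calc v^(β + 1) * (X * (q * v - z) * (q * v⁻¹ - q * z) * P1)
      = (X * v^(β + 1)) * ((q * v - z) * (q * v⁻¹ - q * z) * P1) := by ring
    _ = c * (P2 * P1) * k * (((v - z) * (z * v - q)) * ((q * v - z) * (q * v⁻¹ - q * z))) := by
        rw [h1]; ring
    _ = c * (P2 * P1) * k * (v^2 * ((v⁻¹ - z) * (z * v⁻¹ - q)) *
          ((q * v⁻¹ - z) * (q * v - q * z))) := by rw [e5]
    _ = c * (P2 * P1) * k * ((v^(β + 1) * v^(β + 1) * v⁻¹^(2 * β)) *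
          ((v⁻¹ - z) * (z * v⁻¹ - q)) * ((q * v⁻¹ - z) * (q * v - q * z))) := by rw [e4]
    _ = v^(β + 1) * ((v^(β + 1) * (c * (P1 * ((v⁻¹ - z) * (z * v⁻¹ - q))) * (v⁻¹^(2 * β) * k))) *
          (q * v⁻¹ - z) * (q * v - q * z) * P2) := by ring
    _ = v^(β + 1) * (Y * (q * v⁻¹ - z) * (q * v - q * z) * P2) := by rw [← hY2]

end Pool.Agent.NH38.Fork
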