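import Pool.Agent.NH38.Fork.Q7

/-!
Thick slits, job FK-E5: fusion in `B` for the three leg amplitude.
-/

namespace Pool.Agent.NH38.Fork

open Pool.Agent.H988R2.Perc hiding X
open Pool.Agent.H492C (comb comb2 pairG up1 pairG_act pairG_ins pairG_smul_left pairG_smul_right)
open Pool.Agent.NH38.Step

namespace E5

open Q7

/-- the raw fusion relation -/
theorem D_fus (A B : List ℂ) (w z y v : ℂ) (hA : Odd A.length) (hB : Odd B.length)
    (hv : v ≠ 0) :
    D A w z y (v :: (q^2 * v) :: B) = fac v (A ++ w :: z :: y :: (B ++ [0])) *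
      (fac (q * v⁻¹) (B.map (fun x => x⁻¹) ++ [0]) * D A w z y B) := by
  have hpar : Even ((A ++ [w, z, y]).length + (B ++ [(0:ℂ)]).length) := by
    rw [List.length_append, List.length_append, List.length_singleton]
    obtain ⟨n, hn⟩ := hB
    obtain ⟨k, hk⟩ := hA
    have : ([w, z, y] : List ℂ).length = 3 := rfl
    exact ⟨k + n + 3, by omega⟩
  have h1 := Psi_rec (A ++ [w, z, y]) (B ++ [(0:ℂ)]) v hpar
  have e1 : A ++ w :: z :: y :: ((v :: (q^2 * v) :: B) ++ [0]) =
      (A ++ [w, z, y]) ++ v :: (q^2 * v) :: (B ++ [0]) := by simp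
  have e2 : A ++ w :: z :: y :: (B ++ [0]) = (A ++ [w, z, y]) ++ (B ++ [0]) := by simp
  have e3 : (A ++ [w, z, y]).length = A.length + 1 + 2*1 := by
    rw [List.length_append]; rfl
  have u1 : St.up (A.length + 1 + 2*1) A.length = A.length := by
    unfold St.up
    rw [if_pos (by omega)]
  have u2 : St.up (A.length + 1 + 2*1) (A.length + 3 + B.length) =
      A.length + 3 + (v :: (q^2 * v) :: B).length := by
    unfold St.up
    obtain ⟨n, hn⟩ := hB
    rw [if_neg (by omega), List.length_cons, List.length_cons]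
    omega
  unfold D
  rw [e1, h1, e2, e3]
  obtain ⟨F, hF⟩ : ∃ F, F = Psi (A ++ [w, z, y] ++ (B ++ [0])) := ⟨_, rfl⟩
  rw [← hF]
  have h3 : Finsupp.mapDomain (St.act A.length)
      (fac v (A ++ [w, z, y] ++ (B ++ [0])) •
        Finsupp.mapDomain (St.ins (A.length + 1 + 2*1)) F) -
      fac v (A ++ [w, z, y] ++ (B ++ [0])) •
        Finsupp.mapDomain (St.ins (A.length + 1 + 2*1)) F =
      fac v (A ++ [w, z, y] ++ (B ++ [0])) • Finsupp.mapDomain (St.ins (A.length + 1 + 2*1))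
        (Finsupp.mapDomain (St.act A.length) F - F) := by
    have h4 : Finsupp.mapDomain (St.ins (A.length + 1 + 2*1))
        (Finsupp.mapDomain (St.act A.length) F - F) =
        Finsupp.mapDomain (St.ins (A.length + 1 + 2*1)) (Finsupp.mapDomain (St.act A.length) F) -
        Finsupp.mapDomain (St.ins (A.length + 1 + 2*1)) F :=
      map_sub (Finsupp.mapDomain.addMonoidHom (M := ℂ) (St.ins (A.length + 1 + 2*1)))
        (Finsupp.mapDomain (St.act A.length) F) F
    rw [h4, smul_sub, Finsupp.mapDomain_smul, ← Finsupp.mapDomain_comp, ← Finsupp.mapDomain_comp]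
    congr 3
    funext R
    exact St.act_ins_right (by omega) R
  rw [h3, pairG_smul_left]
  congr 1
  obtain ⟨k, hk⟩ := hA
  have h2 := pair_ins (p := A.length) (r := A.length + 3 + B.length)
    (i := A.length + 1 + 2*1) ⟨k + 2, by omega⟩
    (Finsupp.mapDomain (St.act A.length) F - F)
    (U A 1 (v :: (q^2 * v) :: B)) (U A 1 B) _ (U_fus A B 1 v ⟨k, hk⟩ hB hv)
  rw [u1, u2] at h2
  exact h2

end E5

open Q7 E5 in
theorem t_Dfus : S_Dfus := by
  intro A B v w z hA hB hA0 hB0 hv hw hz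
  have h1 := D_fus A B w z 0 v hA hB hv
  have hne : ∀ y ∈ A ++ (w :: z :: B), y ≠ 0 := by
    intro y hy
    rw [List.mem_append, List.mem_cons, List.mem_cons] at hy
    rcases hy with hy | rfl | rfl | hy
    · exact hA0 y hy
    · exact hw
    · exact hz
    · exact hB0 y hy
  have e1 : fac v (A ++ w :: z :: 0 :: (B ++ [0])) =
      fac v (A ++ (w :: z :: B)) * ((-q^2 * v) * (-q^2 * v)) := by
    have hp : (A ++ w :: z :: (0:ℂ) :: (B ++ [0])).Perm ((A ++ (w :: z :: B)) ++ ([0] ++ [0])) := by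
      have h2 : ((0:ℂ) :: (B ++ [0])).Perm (B ++ ([0] ++ [0])) := by
        have h3 : ((0:ℂ) :: (B ++ [0])) = [0] ++ (B ++ [0]) := rfl
        rw [h3, ← List.append_assoc, ← List.append_assoc]
        exact List.Perm.append_right _ List.perm_append_comm
      have h4 : (A ++ (w :: z :: B)) ++ ([(0:ℂ)] ++ [0]) =
          A ++ w :: z :: (B ++ ([0] ++ [0])) := by simp
      rw [h4]
      exact List.Perm.append_left _ ((h2.cons z).cons w)
    rw [fac_perm' v hp, fac_app, fac_app v [0] [0], fac_zero_right]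
  rw [e1, fac_eq_pom v hv _ hne, fac_up B v hv hB0] at h1
  unfold Dh
  rw [h1]
  obtain ⟨α, hα⟩ := hA
  obtain ⟨β, hβ⟩ := hB
  have hAp : A.prod ≠ 0 := List.prod_ne_zero (fun h => hA0 0 h rfl)
  have hBp : B.prod ≠ 0 := List.prod_ne_zero (fun h => hB0 0 h rfl)
  have hq := q_ne_zero
  have hlen : (A ++ (w :: z :: B)).length = 2*α + 2*β + 4 := by
    rw [List.length_append, List.length_cons, List.length_cons]
    omega
  have hprod : (A ++ (w :: z :: B)).prod = A.prod * (w * (z * B.prod)) := by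
    rw [List.prod_append, List.prod_cons, List.prod_cons]
  have hpom : pom (om (q * v)) (A ++ (w :: z :: B)) =
      (om (q * v) - om w) * (om (q * v) - om z) * pom (om (q * v)) (A ++ B) := by
    rw [pom_app, pom_app, pom_cons, pom_cons]
    ring
  rw [hlen, hprod, hpom]
  unfold cst3 na
  simp only [List.length_cons, List.prod_cons]
  have d1 : (A.length + (B.length + 1 + 1)) / 2 = α + β + 2 := by omega
  have d2 : (A.length + B.length) / 2 = α + β + 1 := by omega
  have d3 : (B.length + 1 + 1 + 1) / 2 = β + 2 := by omega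
  have d4 : (B.length + 1) / 2 = β + 1 := by omega
  have d5 : (A.length + 1) / 2 = α + 1 := by omega
  have d6 : (A.length - 1) / 2 = α := by omega
  have d7 : (B.length + 1 + 1 - 1) / 2 = β + 1 := by omega
  have d8 : (B.length - 1) / 2 = β := by omega
  rw [d1, d2, d3, d4, d5, d6, d7, d8, hβ]
  obtain ⟨c, hc⟩ : ∃ c : ℂ, c = (w*z)^(α+β+1+1) * A.prod^(β+1+1) * B.prod^(α+1+1) *
      q^((α+β+1+2)*(α+β+1+1) + ((α+1)*α + (β+1)*β)) := ⟨_, rfl⟩
  have hc0 : c ≠ 0 := by
    rw [hc]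
    exact mul_ne_zero (mul_ne_zero (mul_ne_zero (pow_ne_zero _ (mul_ne_zero hw hz))
      (pow_ne_zero _ hAp)) (pow_ne_zero _ hBp)) (pow_ne_zero _ hq)
  have hr0 : w * z * A.prod * (q^(4*α+4*β+12) * v^(2*α+4)) ≠ 0 :=
    mul_ne_zero (mul_ne_zero (mul_ne_zero hw hz) hAp)
      (mul_ne_zero (pow_ne_zero _ hq) (pow_ne_zero _ hv))
  have hcc : (w*z)^(α+β+2+1) * A.prod^(β+2+1) * (v * (q^2 * v * B.prod))^(α+1+1) *
      q^((α+β+2+2)*(α+β+2+1) + ((α+1)*α + (β+2)*(β+1))) =
      c * (w * z * A.prod * (q^(4*α+4*β+12) * v^(2*α+4))) := by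
    rw [hc]
    ring
  have hF : (q^2 * v)^(2*α+2*β+4) * (A.prod * (w * (z * B.prod))) * ((-q^2 * v) * (-q^2 * v)) *
      ((v⁻¹)^(2*β+1+1) * (B.prod)⁻¹) =
      w * z * A.prod * (q^(4*α+4*β+12) * v^(2*α+4)) := by
    have g1 : v^(2*β+1+1) * (v⁻¹)^(2*β+1+1) = 1 := by
      rw [← mul_pow, mul_inv_cancel₀ hv, one_pow]
    have g2 : B.prod * (B.prod)⁻¹ = 1 := mul_inv_cancel₀ hBp
    generalize (v⁻¹)^(2*β+1+1) = v' at *
    generalize (B.prod)⁻¹ = b' at *
    calc (q^2 * v)^(2*α+2*β+4) * (A.prod * (w * (z * B.prod))) * ((-q^2 * v) * (-q^2 * v)) *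
          (v' * b')
        = w * z * A.prod * (q^(4*α+4*β+12) * v^(2*α+4)) * (v^(2*β+1+1) * v') *
          (B.prod * b') := by ring
      _ = _ := by rw [g1, g2, mul_one, mul_one]
  rw [hcc, ← hc]
  generalize pom (om (q * v)) (A ++ B) = P1 at *
  generalize pom (om (q * v)) B = P3 at *
  generalize D A w z 0 B = g at *
  generalize w * z * A.prod * (q^(4*α+4*β+12) * v^(2*α+4)) = r at *
  rw [div_eq_iff (mul_ne_zero hc0 hr0)]
  have g3 : g / c * c = g := div_mul_cancel₀ _ hc0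
  calc _ = -(((q^2 * v)^(2*α+2*β+4) * (A.prod * (w * (z * B.prod))) *
      ((-q^2 * v) * (-q^2 * v)) *
      ((v⁻¹)^(2*β+1+1) * (B.prod)⁻¹)) * ((om (q * v) - om w) * (om (q * v) - om z) * P1 * P3 *
        g)) := by ring
    _ = -(r * ((om (q * v) - om w) * (om (q * v) - om z) * P1 * P3 * (g / c * c))) := by
        rw [hF, g3]
    _ = _ := by ring

end Pool.Agent.NH38.Fork
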