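import Pool.Agent.NH38.Fork.E46

/-!
Thick slits (helper38), task E6: the three leg amplitude at `w = q ζ`.
-/

set_option autoImplicit false

namespace Pool.Agent.NH38.Fork

open Pool.Agent.H988R2.Perc hiding X
open Pool.Agent.NH38.Step (om prs pom)
open Polynomial
open E46

/-- E6 -/
theorem t_Dnode : S_Dnode := by
  intro A B z hA hB hAn hBn hz
  obtain ⟨c, hc⟩ := E46.norm A B z hA hB hAn hBn hz
  obtain ⟨P, hP1, hP2⟩ := K_polyz A B z hB
  refine ⟨C c * P, (natDegree_C_mul_le _ _).trans hP1, fun ζ hζ => ?_⟩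
  rw [hc ζ hζ, hP2 ζ hζ, eval_mul, eval_C]
  ring

end Pool.Agent.NH38.Fork
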