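import Pool.Agent.NH38.Fork.Stubs
import Pool.Agent.H988C.BotTop
import Pool.Agent.H492C.P1
import Pool.Agent.H492C.P2
import Pool.Agent.H492C.S1
import Pool.Agent.H492C.G4

/-!
Thick slits (helper38), task E7: width of `Dh` in `w` and its bottom coefficient.
-/

namespace Pool.Agent.NH38.Fork

open Pool.Agent.H988R2.Perc hiding X
open Pool.Agent.H988C
open Pool.Agent.H492C (comb2 pairG up1 comb jn)
open Pool.Agent.NH38.Step (om prs EE zs prF Gen on cardy pom bev)
open Polynomial

namespace E7

/-! ### states -/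

theorem comb_eq_glue {a k : ℕ} (ha : Odd a) (hk : 2*k = a+1) (R R' : St) :
    comb k R R' = glue a ha R R' := by
  apply St.ext'
  intro x y
  show (x = y ∨ (x < 2*k ∧ y < 2*k ∧ R.rel x y) ∨
    (2*k ≤ x ∧ 2*k ≤ y ∧ R'.rel (x - 2*k) (y - 2*k))) ↔
    (x = y ∨ (x ≤ a ∧ y ≤ a ∧ R.rel x y) ∨
    (a < x ∧ a < y ∧ R'.rel (x - (a+1)) (y - (a+1))))
  rw [hk]
  constructor
  · rintro (h | ⟨h1, h2, h3⟩ | ⟨h1, h2, h3⟩)
    · exact Or.inl h
    · exact Or.inr (Or.inl ⟨by omega, by omega, h3⟩)
    · exact Or.inr (Or.inr ⟨by omega, by omega, h3⟩)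
  · rintro (h | ⟨h1, h2, h3⟩ | ⟨h1, h2, h3⟩)
    · exact Or.inl h
    · exact Or.inr (Or.inl ⟨by omega, by omega, h3⟩)
    · exact Or.inr (Or.inr ⟨by omega, by omega, h3⟩)

theorem pair_tri {a b k : ℕ} (ha : Odd a) (hk : 2*k = a+1) (f g h : St →₀ ℂ) :
    pairG a (a+1+b) f (comb2 k g h) = tri a b ha f g h := by
  classical
  rw [H492C.g4_tri a (a+1+b) k f g h (S := f.support) (S1 := g.support) (S2 := h.support)
    (Finset.Subset.refl _) (Finset.Subset.refl _) (Finset.Subset.refl _), tri_def]
  unfold Finsupp.sum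
  refine Finset.sum_congr rfl fun R _ => Finset.sum_congr rfl fun R1 _ =>
    Finset.sum_congr rfl fun R2 _ => ?_
  unfold H492C.g4c
  rw [comb_eq_glue ha hk, show a+1+b = a+b+1 by omega]
  show _ = f R * g R1 * h R2 * (if gconn a (a+b+1) R (glue a ha R1 R2) then 1 else 0)
  by_cases hc : gconn a (a+b+1) R (glue a ha R1 R2)
  · rw [if_pos hc, if_pos (show jn a (a+b+1) R (glue a ha R1 R2) from hc)]
  · rw [if_neg hc, if_neg (show ¬ jn a (a+b+1) R (glue a ha R1 R2) from hc)]

theorem pair_ins (p r i : ℕ) (f g : St →₀ ℂ) :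
    pairG (St.up i p) (St.up i r) f (Finsupp.mapDomain (St.ins i) g) =
      pairG p r (Finsupp.mapDomain (St.cap i) f) g := by
  classical
  rw [H492C.P1_map_left, H492C.P1_map_right]
  refine Finsupp.sum_congr fun R _ => Finsupp.sum_congr fun R' _ => ?_
  have h : jn (St.up i p) (St.up i r) R (St.ins i R') ↔ jn p r (St.cap i R) R' :=
    gconn_ins_right p r i R R'
  by_cases hc : jn p r (St.cap i R) R'
  · rw [if_pos hc, if_pos (h.2 hc)]
  · rw [if_neg hc, if_neg (fun h' => hc (h.1 h'))]

theorem comb_zero_bot (R : St) : comb 0 St.bot R = R := by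
  apply St.ext'
  intro x y
  show (x = y ∨ (x < 2*0 ∧ y < 2*0 ∧ St.bot.rel x y) ∨
    (2*0 ≤ x ∧ 2*0 ≤ y ∧ R.rel (x - 2*0) (y - 2*0))) ↔ R.rel x y
  constructor
  · rintro (h | ⟨h1, _, _⟩ | ⟨_, _, h3⟩)
    · subst h; exact R.eqv.1 _
    · omega
    · simpa using h3
  · intro h
    exact Or.inr (Or.inr ⟨by omega, by omega, by simpa using h⟩)

theorem comb2_single (k : ℕ) (R : St) (f : St →₀ ℂ) :
    comb2 k (Finsupp.single R 1) f = Finsupp.mapDomain (comb k R) f := by
  unfold H492C.comb2 Finsupp.mapDomain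
  rw [Finsupp.sum_single_index]
  · simp
  · simp

theorem comb2_zero (f : St →₀ ℂ) : comb2 0 (Finsupp.single St.bot 1) f = f := by
  rw [comb2_single]
  have : comb 0 St.bot = id := funext comb_zero_bot
  rw [this, Finsupp.mapDomain_id]

theorem comb2_one (f : St →₀ ℂ) :
    comb2 1 (Finsupp.single St.bot 1) f = Finsupp.mapDomain (St.ins 0) f := by
  rw [comb2_single]
  congr 1
  funext R
  have h := H492C.P2_comb_ins_left 0 St.bot R
  rw [ins_zero_bot, comb_zero_bot] at h
  exact h

theorem U_zero (A B : List ℂ) : U A 0 B = comb2 ((A.length + 1)/2) (up1 A) (up1 B) := by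
  unfold U
  rw [comb2_zero]

theorem U_one (A B : List ℂ) (hA : Odd A.length) : U A 1 B =
    Finsupp.mapDomain (St.ins (A.length + 1)) (comb2 ((A.length + 1)/2) (up1 A) (up1 B)) := by
  unfold U
  rw [comb2_one, H492C.comb2_ins_right]
  congr 2
  obtain ⟨c, hc⟩ := hA
  omega

/-! ### the operators as linear maps -/

noncomputable def CopL (c : ℂ) (j : ℕ) : (St →₀ ℂ) →ₗ[ℂ] (St →₀ ℂ) :=
  (-c) • LinearMap.id + (-c^2) • Finsupp.lmapDomain ℂ ℂ (St.act j)

theorem CopL_apply (c : ℂ) (j : ℕ) (f : St →₀ ℂ) : CopL c j f = Cop c j f := rfl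

noncomputable def CsL (c : ℂ) : ℕ → ℕ → (St →₀ ℂ) →ₗ[ℂ] (St →₀ ℂ)
  | _, 0 => LinearMap.id
  | a, n+1 => (CopL c a).comp (CsL c (a+1) n)

theorem CsL_apply (c : ℂ) (a n : ℕ) (f : St →₀ ℂ) : CsL c a n f = Cs c a n f := by
  induction n generalizing a with
  | zero => rfl
  | succ n ih =>
    rw [CsL, LinearMap.comp_apply, ih, CopL_apply]
    rfl

noncomputable def PL (p r : ℕ) (g : St →₀ ℂ) : (St →₀ ℂ) →ₗ[ℂ] ℂ where
  toFun f := pairG p r f g
  map_add' f f' := H492C.pairG_add_left p r f f' g
  map_smul' c f := H492C.pairG_smul_left p r c f g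

theorem PL_apply (p r : ℕ) (f g : St →₀ ℂ) : PL p r g f = pairG p r f g := rfl

/-! ### Reidemeister moves -/

theorem cap_ins_succ' (i : ℕ) (R : St) : St.cap i (St.ins (i+1) R) = R := by
  apply St.ins_inj i
  rw [← St.act_eq, St.act_ins_succ]

theorem cap_Cop_Cop' {c : ℂ} (hc : c^2 + c + 1 = 0) (j : ℕ) (f : St →₀ ℂ) :
    Finsupp.mapDomain (St.cap j) (Cop c (j+1) (Cop c j f)) =
      Finsupp.mapDomain (St.cap (j+1)) f := by
  have hc3 : c^3 = 1 := by linear_combination (c - 1) * hc
  unfold Cop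
  simp only [Finsupp.mapDomain_add, Finsupp.mapDomain_smul, ← Finsupp.mapDomain_comp, smul_add,
    smul_smul]
  have e1 : St.cap j ∘ St.act j = St.cap j := funext (cap_self_act j)
  have e2 : St.cap j ∘ St.act (j+1) = St.cap (j+1) := funext (cap_act_succ j)
  have e3 : St.cap j ∘ (St.act (j+1) ∘ St.act j) = St.cap j := by
    funext R
    simp only [Function.comp]
    rw [cap_act_succ, cap_succ_act]
  rw [e1, e2, e3]
  have h4 : c^4 = c := by linear_combination c * hc3
  have r1 : -c * -c + (-c * -c^2 + -c^2 * -c^2) = 0 := by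
    linear_combination hc + hc3 + h4
  have r2 : -c^2 * -c = 1 := by linear_combination hc3
  rw [r2, one_smul]
  have : ∀ x y : St →₀ ℂ, (-c * -c) • x + (-c * -c^2) • x + (y + (-c^2 * -c^2) • x) =
      y + (-c * -c + (-c * -c^2 + -c^2 * -c^2)) • x := by
    intro x y
    rw [add_smul, add_smul]; abel
  rw [this, r1, zero_smul, add_zero]

/-- `Cop a` commutes with `Cs (a+2+j) n` -/
theorem Cs_Cop_comm (c : ℂ) (a : ℕ) (n : ℕ) : ∀ (j : ℕ), a + 2 ≤ j → ∀ f : St →₀ ℂ,
    Cs c j n (Cop c a f) = Cop c a (Cs c j n f) := by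
  induction n with
  | zero => intro j _ f; rfl
  | succ n ih =>
    intro j hj f
    rw [Cs, Cs, ih (j+1) (by omega)]
    unfold Cop
    rw [Finsupp.mapDomain_add, Finsupp.mapDomain_add, Finsupp.mapDomain_smul,
      Finsupp.mapDomain_smul, Finsupp.mapDomain_smul, Finsupp.mapDomain_smul,
      ← Finsupp.mapDomain_comp, ← Finsupp.mapDomain_comp]
    have : St.act a ∘ St.act j = St.act j ∘ St.act a := funext (act_comm hj)
    rw [this]
    module

theorem ins_Cop (c : ℂ) {a j : ℕ} (h : a + 2 ≤ j) (f : St →₀ ℂ) :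
    Finsupp.mapDomain (St.ins j) (Cop c a f) = Cop c a (Finsupp.mapDomain (St.ins j) f) :=
  mapDomain_Cop_comm (fun R => (St.act_ins_right h R).symm) f

/-- the double strand can be pulled back -/
theorem pull {c : ℂ} (hc : c^2 + c + 1 = 0) (n : ℕ) : ∀ (a : ℕ) (f : St →₀ ℂ),
    Finsupp.mapDomain (St.cap a) (Cs c (a+1) n (Finsupp.mapDomain (St.ins (a+1+n))
      (Cs c a n f))) = f := by
  induction n with
  | zero =>
    intro a f
    show Finsupp.mapDomain (St.cap a) (Finsupp.mapDomain (St.ins (a+1)) f) = f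
    rw [← Finsupp.mapDomain_comp]
    have : St.cap a ∘ St.ins (a+1) = id := funext (cap_ins_succ' a)
    rw [this, Finsupp.mapDomain_id]
  | succ n ih =>
    intro a f
    rw [Cs, Cs, ins_Cop c (by omega), Cs_Cop_comm c a n (a+1+1) (by omega), cap_Cop_Cop' hc]
    have := ih (a+1) f
    rw [show a+1+1+n = a+1+(n+1) by ring] at this
    exact this

/-! ### the functional -/

section

variable (A B : List ℂ)

/-- the upper vector without the small arc -/
noncomputable def VV : St →₀ ℂ := comb2 ((A.length + 1)/2) (up1 A) (up1 B)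

/-- `f ↦` the three leg functional of the vector `f` with two zero strands added -/
noncomputable def LL : (St →₀ ℂ) →ₗ[ℂ] ℂ :=
  (PL A.length (A.length + 3 + B.length) (U A 1 B)).comp
    ((Finsupp.lmapDomain ℂ ℂ (St.act A.length) - LinearMap.id).comp
      ((CsL q (A.length + 2) B.length).comp
        (Finsupp.lmapDomain ℂ ℂ (St.ins (A.length + 2 + B.length)))))

theorem LL_apply (f : St →₀ ℂ) : LL A B f = pairG A.length (A.length + 3 + B.length)
    (Finsupp.mapDomain (St.act A.length) (Cs q (A.length + 2) B.length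
      (Finsupp.mapDomain (St.ins (A.length + 2 + B.length)) f)) -
      Cs q (A.length + 2) B.length
      (Finsupp.mapDomain (St.ins (A.length + 2 + B.length)) f)) (U A 1 B) := by
  unfold LL
  rw [LinearMap.comp_apply, LinearMap.comp_apply, LinearMap.comp_apply, CsL_apply, PL_apply,
    LinearMap.sub_apply]
  rfl

theorem fac_zero (l : List ℂ) : fac 0 l = q^l.length * l.prod := by
  induction l with
  | nil => simp [fac]
  | cons y l ih =>
    rw [Step.fac_cons', ih, List.length_cons, List.prod_cons]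
    have h := q_cube
    linear_combination (q * y * (q^l.length * l.prod)) * h

theorem D_eq (hA : Odd A.length) (hB : Odd B.length) (zB : NZ B) (w z : ℂ) :
    D A w z 0 B = q^(A.length + 2 + B.length) * (A.prod * (w * z) * B.prod) *
      LL A B (Psi (A ++ w :: z :: B)) := by
  have e1 : A ++ w :: z :: (0:ℂ) :: (B ++ [0]) = (A ++ [w, z]) ++ 0 :: (B ++ [0]) := by simp
  have hE : Even ((A ++ [w, z]).length + B.length) := by
    rw [List.length_append]
    obtain ⟨a, ha⟩ := hA
    obtain ⟨b, hb⟩ := hB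
    exact ⟨a + b + 2, by simp; omega⟩
  have e2 := exch0_all B zB (A ++ [w, z]) hE
  have e3 := Psi_zero_zero (A ++ [w, z] ++ B) (by rw [List.length_append]; exact hE)
  rw [e3, Cs_smul] at e2
  have l1 : (A ++ [w, z]).length = A.length + 2 := by simp
  have l2 : (A ++ [w, z] ++ B).length = A.length + 2 + B.length := by
    rw [List.length_append, l1]
  have e4 : A ++ [w, z] ++ B = A ++ w :: z :: B := by simp
  rw [fac_zero, l1, l2, e4] at e2
  unfold D
  rw [e1, e2, LL_apply, Finsupp.mapDomain_smul, ← smul_sub, H492C.pairG_smul_left]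
  congr 1
  rw [List.prod_append, List.prod_cons, List.prod_cons]
  ring

theorem up_a (a : ℕ) : St.up (a+1) a = a := by
  unfold St.up; rw [if_pos (by omega)]

theorem up_r (a b : ℕ) (hb : 1 ≤ b) : St.up (a+1) (a+1+b) = a+3+b := by
  unfold St.up; rw [if_neg (by omega)]; omega

/-- the part of the functional without `act` -/
noncomputable def MM (f : St →₀ ℂ) : ℂ := pairG A.length (A.length + 1 + B.length)
  (Finsupp.mapDomain (St.cap (A.length + 1)) (Cs q (A.length + 2) B.length
    (Finsupp.mapDomain (St.ins (A.length + 2 + B.length)) f))) (VV A B)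

theorem up1_mass : mass (up1 A) = Z (A.map (fun x => x⁻¹) ++ [0]) := rfl

/-- the part with `act` is the total mass -/
theorem cap_part (hA : Odd A.length) (hB : Odd B.length) (f : St →₀ ℂ) :
    pairG A.length (A.length + 1 + B.length)
      (Finsupp.mapDomain (St.cap A.length) (Cs q (A.length + 2) B.length
        (Finsupp.mapDomain (St.ins (A.length + 2 + B.length)) f))) (VV A B) =
      -q^2 * mass f * mass (up1 A) * mass (up1 B) := by
  have hk : 2 * ((A.length + 1)/2) = A.length + 1 := by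
    obtain ⟨a, ha⟩ := hA
    omega
  rw [cap_Cs_right A.length A.length B.length le_rfl, ← Finsupp.mapDomain_comp]
  have e : St.cap A.length ∘ St.ins (A.length + 2 + B.length) =
      St.ins (A.length + B.length) ∘ St.cap A.length := by
    funext R
    show St.cap A.length (St.ins (A.length + 2 + B.length) R) =
      St.ins (A.length + B.length) (St.cap A.length R)
    rw [H988C.cap_ins_right (by omega)]
    congr 1
    omega
  rw [e, Finsupp.mapDomain_comp]
  unfold VV
  rw [pair_tri hA hk]
  unfold H492C.up1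
  rw [slide_Psi q_spec B.length hB (B.map (fun x => x⁻¹) ++ [0]) (by simp), mass_mapDomain]

theorem LL_eq (hA : Odd A.length) (hB : Odd B.length) (f : St →₀ ℂ) :
    LL A B f = -q^2 * mass f * mass (up1 A) * mass (up1 B) - MM A B f := by
  obtain ⟨b, hb⟩ := id hB
  have e1 : pairG A.length (A.length + 3 + B.length)
      = pairG (St.up (A.length + 1) A.length) (St.up (A.length + 1) (A.length + 1 + B.length)) := by
    rw [up_a, up_r _ _ (by omega)]
  rw [LL_apply, e1, U_one A B hA, pair_ins, ← cap_part A B hA hB f]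
  set g := Cs q (A.length + 2) B.length
    (Finsupp.mapDomain (St.ins (A.length + 2 + B.length)) f) with hg
  have e2 : Finsupp.mapDomain (St.cap (A.length + 1))
      (Finsupp.mapDomain (St.act A.length) g - g) =
      Finsupp.mapDomain (St.cap A.length) g + (-1 : ℂ) • Finsupp.mapDomain (St.cap (A.length + 1)) g := by
    have h1 : Finsupp.mapDomain (St.act A.length) g - g =
        Finsupp.mapDomain (St.act A.length) g + (-1 : ℂ) • g := by
      rw [neg_one_smul, sub_eq_add_neg]
    rw [h1, Finsupp.mapDomain_add, Finsupp.mapDomain_smul, ← Finsupp.mapDomain_comp]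
    have : St.cap (A.length + 1) ∘ St.act A.length = St.cap A.length :=
      funext (cap_succ_act A.length)
    rw [this]
  rw [e2, H492C.pairG_add_left, H492C.pairG_smul_left]
  unfold MM VV
  rw [← hg]
  ring

theorem MM_Cop (hA : Odd A.length) (hB : Odd B.length) (f : St →₀ ℂ) :
    MM A B (Cop q A.length f) = -q * MM A B f +
      q * (mass f * mass (up1 A) * mass (up1 B)) := by
  unfold MM
  rw [ins_Cop q (by omega), Cs_Cop_comm q A.length B.length (A.length + 2) le_rfl]
  set g := Cs q (A.length + 2) B.length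
    (Finsupp.mapDomain (St.ins (A.length + 2 + B.length)) f) with hg
  have e2 : Finsupp.mapDomain (St.cap (A.length + 1)) (Cop q A.length g) =
      (-q) • Finsupp.mapDomain (St.cap (A.length + 1)) g +
      (-q^2) • Finsupp.mapDomain (St.cap A.length) g := by
    unfold Cop
    rw [Finsupp.mapDomain_add, Finsupp.mapDomain_smul, Finsupp.mapDomain_smul,
      ← Finsupp.mapDomain_comp]
    have : St.cap (A.length + 1) ∘ St.act A.length = St.cap A.length :=
      funext (cap_succ_act A.length)
    rw [this]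
  rw [e2, H492C.pairG_add_left, H492C.pairG_smul_left, H492C.pairG_smul_left,
    cap_part A B hA hB f]
  have h3 := q_cube
  linear_combination (q * (mass f * mass (up1 A) * mass (up1 B))) * h3

theorem exch0_end (C : List ℂ) (hC : NZ C) : ∀ (A : List ℂ), Odd (A.length + C.length) →
    Psi (A ++ 0 :: C) = Cs q A.length C.length (Psi (A ++ C ++ [0])) := by
  induction C with
  | nil => intro A _; simp [Cs]
  | cons y C ih =>
    intro A hE
    have hE' : Even (A.length + C.length) := by
      rw [List.length_cons] at hE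
      obtain ⟨c, hc⟩ := hE
      exact ⟨c, by omega⟩
    have h1 := exch0 A C y (hC y (by simp)) hE'
    have h2 := ih (fun z hz => hC z (by simp [hz])) (A ++ [y]) (by
      rw [List.length_append, List.length_singleton]
      rw [List.length_cons] at hE
      obtain ⟨c, hc⟩ := hE
      exact ⟨c, by omega⟩)
    have e1 : A ++ y :: 0 :: C = A ++ [y] ++ 0 :: C := by simp
    rw [h1, e1, h2]
    have e2 : A ++ [y] ++ C ++ [0] = A ++ y :: C ++ [0] := by simp
    rw [e2]
    simp [Cs]

/-- the value at `w = 0` -/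
theorem LL_zero (hA : Odd A.length) (hB : Odd B.length) (zB : NZ B) (z : ℂ) (hz : z ≠ 0) :
    LL A B (Psi (A ++ 0 :: z :: B)) = T A [z] B + q * G A [z] B := by
  have hO : Odd (A.length + (z :: B).length) := by
    rw [List.length_cons]
    obtain ⟨a, ha⟩ := hA
    obtain ⟨b, hb⟩ := hB
    exact ⟨a + b + 1, by omega⟩
  have zzB : NZ (z :: B) := by
    intro y hy
    rcases List.mem_cons.1 hy with rfl | hy
    · exact hz
    · exact zB y hy
  have e1 := exch0_end (z :: B) zzB A hO
  have e2 : A ++ z :: B ++ [0] = A ++ ([z] ++ (B ++ [0])) := by simp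
  rw [e2, List.length_cons] at e1
  have e3 : Psi (A ++ 0 :: z :: B) = Cop q A.length (Cs q (A.length + 1) B.length
      (Psi (A ++ ([z] ++ (B ++ [0]))))) := e1
  rw [e3, LL_eq A B hA hB, mass_Cop q_spec, MM_Cop A B hA hB, mass_Cs q_spec]
  have e4 : MM A B (Cs q (A.length + 1) B.length (Psi (A ++ ([z] ++ (B ++ [0]))))) =
      G A [z] B := by
    unfold MM
    have := pull q_spec B.length (A.length + 1) (Psi (A ++ ([z] ++ (B ++ [0]))))
    rw [show A.length + 1 + 1 + B.length = A.length + 2 + B.length by ring,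
      show A.length + 1 + 1 = A.length + 2 by ring] at this
    rw [this]
    unfold G VV
    rw [List.length_singleton, Nat.sub_self, Nat.zero_div, ← U_zero]
  rw [e4]
  unfold T
  have e5 : mass (Psi (A ++ ([z] ++ (B ++ [0])))) = Z (A ++ ([z] ++ (B ++ [0]))) := rfl
  have e6 : mass (up1 A) = Z (A.map (fun x => x⁻¹) ++ [0]) := rfl
  have e7 : mass (up1 B) = Z (B.map (fun x => x⁻¹) ++ [0]) := rfl
  rw [e5, e6, e7]
  have h := q_spec
  linear_combination (-(Z (A ++ ([z] ++ (B ++ [0]))) * (Z (A.map (fun x => x⁻¹) ++ [0]) *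
    Z (B.map (fun x => x⁻¹) ++ [0])))) * h

/-- polynomiality in `w` -/
theorem LL_poly (L : (St →₀ ℂ) →ₗ[ℂ] ℂ) (u v : List ℂ) (h : Even (u.length + v.length + 1)) :
    ∃ P : ℂ[X], P.natDegree ≤ u.length + v.length - 1 ∧ ∀ w, L (Psi (u ++ w :: v)) = P.eval w := by
  classical
  obtain ⟨S, hS⟩ := t17_supp (u.length + v.length + 1)
  choose P hP1 hP2 using fun R => H492C.g4_pd u v h R
  refine ⟨∑ R ∈ S, P R * C (L (Finsupp.single R 1)), ?_, fun w => ?_⟩
  · refine Polynomial.natDegree_sum_le_of_forall_le _ _ fun R _ => ?_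
    exact (Polynomial.natDegree_mul_C_le _ _).trans (hP1 R)
  · have hs := hS (u ++ w :: v) (by simp; omega)
    have e : Psi (u ++ w :: v) = ∑ R ∈ S, (Psi (u ++ w :: v) R) • Finsupp.single R (1:ℂ) := by
      conv_lhs => rw [← Finsupp.sum_single (Psi (u ++ w :: v))]
      rw [Finsupp.sum_of_support_subset _ hs _ (by simp)]
      refine Finset.sum_congr rfl fun R _ => ?_
      rw [Finsupp.smul_single, smul_eq_mul, mul_one]
    rw [e, map_sum, Polynomial.eval_finsetSum]
    refine Finset.sum_congr rfl fun R _ => ?_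
    rw [map_smul, smul_eq_mul, eval_mul, eval_C, hP2]

end

end E7

/-- E7 -/
theorem t_Dwid (hT : S_Teq) : S_Dwid := by
  intro A B z hA hB zA zB hz
  obtain ⟨P, hP, hPe⟩ := E7.LL_poly (E7.LL A B) A (z :: B) (by
    rw [List.length_cons]
    obtain ⟨a, ha⟩ := hA
    obtain ⟨b, hb⟩ := hB
    exact ⟨a + b + 2, by omega⟩)
  have hdeg : P.natDegree ≤ A.length + B.length := by
    rw [List.length_cons] at hP
    omega
  obtain ⟨a, ha⟩ := id hA
  obtain ⟨b, hb⟩ := id hB
  have hq := q_ne_zero
  have pA : A.prod ≠ 0 := List.prod_ne_zero (fun h => zA 0 h rfl)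
  have pB : B.prod ≠ 0 := List.prod_ne_zero (fun h => zB 0 h rfl)
  have hc : cst A B 0 z ≠ 0 := by
    unfold cst
    exact mul_ne_zero (mul_ne_zero (mul_ne_zero (pow_ne_zero _ hz) (pow_ne_zero _ pA))
      (pow_ne_zero _ pB)) (pow_ne_zero _ hq)
  have hh : (A.length + B.length)/2 = a + b + 1 := by omega
  -- the relation of the constants
  have hcc : ∀ w : ℂ, cst3 A B w z = (q^(A.length + 2 + B.length) * (A.prod * (w * z) * B.prod)) *
      w^((A.length + B.length)/2) * cst A B 0 z := by
    intro w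
    unfold cst3 cst
    rw [hh]
    have l1 : A.length + 2 + B.length = 2 * (a + b + 1 + 1) := by omega
    rw [l1]
    have e1 : (a + b + 1 + 2) * (a + b + 1 + 1) + (na A + na B) =
      2 * (a + b + 1 + 1) + ((a + b + 1 + 0 + 1) * (a + b + 1 + 0) + (na A + na B)) := by ring
    rw [e1, pow_add q (2 * (a + b + 1 + 1))]
    rw [mul_pow, pow_succ A.prod, pow_succ B.prod, pow_succ w, pow_succ z]
    simp only [add_zero]
    ring
  refine ⟨((cst A B 0 z)⁻¹) * P.coeff (A.length + B.length), C ((cst A B 0 z)⁻¹) * P,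
    (natDegree_C_mul_le _ _).trans hdeg, ?_, ?_, ?_⟩
  · rw [coeff_C_mul, coeff_zero_eq_eval_zero, ← hPe, E7.LL_zero A B hA hB zB z hz]
    have h1 := hT A [] B z hA hB zA (fun y hy => by simp at hy) zB hz
    have e1 : prs [] = [] := rfl
    rw [e1, List.length_nil] at h1
    unfold gh
    rw [e1, List.length_nil, h1]
    field_simp
    ring
  · rw [coeff_C_mul]
  · intro w hw
    rw [eval_mul, eval_C, ← hPe]
    show Dh A w z B * w^((A.length + B.length)/2) = _
    unfold Dh
    rw [E7.D_eq A B hA hB zB w z, hcc w]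
    have h1 : q^(A.length + 2 + B.length) * (A.prod * (w * z) * B.prod) ≠ 0 :=
      mul_ne_zero (pow_ne_zero _ hq) (mul_ne_zero (mul_ne_zero pA (mul_ne_zero hw hz)) pB)
    have h2 : w^((A.length + B.length)/2) ≠ 0 := pow_ne_zero _ hw
    field_simp

end Pool.Agent.NH38.Fork
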