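import Pool.Agent.NH38.Fork.Stubs
import Pool.Agent.NH38.Step.C7

/-!
Thick slits (helper38): closure properties of `LR`.
-/

namespace Pool.Agent.NH38.Fork

open Pool.Agent.H988R2.Perc hiding X
open Pool.Agent.NH38.Step (bev bev_mul bev_add bev_C bev_CC bev_X bev_pow bev_one)
open Polynomial

namespace LR

variable {P : ℂ[X]} {φ ψ : ℂ → ℂ → ℂ}

theorem congr (h : LR P φ) (he : ∀ t w, P.eval t ≠ 0 → w ≠ 0 → φ t w = ψ t w) : LR P ψ := by
  obtain ⟨F, j, hF⟩ := h
  exact ⟨F, j, fun t w ht hw => by rw [← he t w ht hw]; exact hF t w ht hw⟩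

/-- raise the exponent -/
theorem raise (h : LR P φ) : ∃ (F : ℂ[X][X]) (j₀ : ℕ), ∀ i : ℕ, ∀ t w : ℂ, P.eval t ≠ 0 → w ≠ 0 →
    φ t w * (P.eval t * w)^(j₀ + i) = bev (F * (C P * X)^i) t w := by
  obtain ⟨F, j, hF⟩ := h
  refine ⟨F, j, fun i t w ht hw => ?_⟩
  rw [pow_add, ← mul_assoc, hF t w ht hw, bev_mul, bev_pow, bev_mul, bev_C, bev_X]

theorem const (c : ℂ) : LR P (fun _ _ => c) := ⟨C (C c), 0, fun t w _ _ => by simp [bev_CC]⟩

theorem add (h1 : LR P φ) (h2 : LR P ψ) : LR P (fun t w => φ t w + ψ t w) := by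
  obtain ⟨F, j, hF⟩ := h1.raise
  obtain ⟨G, k, hG⟩ := h2.raise
  refine ⟨F * (C P * X)^k + G * (C P * X)^j, j + k, fun t w ht hw => ?_⟩
  rw [bev_add, ← hF k t w ht hw, ← hG j t w ht hw, add_comm k j]
  ring

theorem mul (h1 : LR P φ) (h2 : LR P ψ) : LR P (fun t w => φ t w * ψ t w) := by
  obtain ⟨F, j, hF⟩ := h1
  obtain ⟨G, k, hG⟩ := h2
  refine ⟨F * G, j + k, fun t w ht hw => ?_⟩
  rw [bev_mul, ← hF t w ht hw, ← hG t w ht hw]
  ring

theorem smul (c : ℂ) (h : LR P φ) : LR P (fun t w => c * φ t w) := (const c).mul h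

theorem neg (h : LR P φ) : LR P (fun t w => - φ t w) :=
  (h.smul (-1)).congr fun t w _ _ => by ring

theorem sub (h1 : LR P φ) (h2 : LR P ψ) : LR P (fun t w => φ t w - ψ t w) :=
  (h1.add h2.neg).congr fun t w _ _ => by ring

theorem pow (h : LR P φ) (n : ℕ) : LR P (fun t w => (φ t w)^n) := by
  induction n with
  | zero => exact (const 1).congr fun t w _ _ => by simp
  | succ n ih => exact (ih.mul h).congr fun t w _ _ => by rw [pow_succ]

/-- the variable `w` -/
theorem var : LR P (fun _ w => w) := ⟨X, 0, fun t w _ _ => by simp [bev_X]⟩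

theorem var_inv : LR P (fun _ w => w⁻¹) :=
  ⟨C P, 1, fun t w _ hw => by rw [bev_C, pow_one]; field_simp⟩

/-- a polynomial in `t` -/
theorem poly (p : ℂ[X]) : LR P (fun t _ => p.eval t) := ⟨C p, 0, fun t w _ _ => by simp [bev_C]⟩

/-- a bivariate polynomial -/
theorem biv (F : ℂ[X][X]) : LR P (fun t w => bev F t w) := ⟨F, 0, fun t w _ _ => by simp⟩

theorem poly_inv {p : ℂ[X]} (h : p ∣ P) : LR P (fun t _ => (p.eval t)⁻¹) := by
  obtain ⟨r, rfl⟩ := h
  refine ⟨C r * X, 1, fun t w ht hw => ?_⟩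
  rw [eval_mul] at ht
  have h1 : p.eval t ≠ 0 := left_ne_zero_of_mul ht
  rw [bev_mul, bev_C, bev_X, pow_one, eval_mul]
  field_simp

theorem sum {κ : Type} (s : Finset κ) (f : κ → ℂ → ℂ → ℂ) (h : ∀ i ∈ s, LR P (f i)) :
    LR P (fun t w => ∑ i ∈ s, f i t w) := by
  classical
  induction s using Finset.induction_on with
  | empty => exact (const 0).congr fun t w _ _ => by simp
  | insert i s hi ih =>
    refine ((h i (Finset.mem_insert_self i s)).add
      (ih fun j hj => h j (Finset.mem_insert_of_mem hj))).congr fun t w _ _ => ?_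
    rw [Finset.sum_insert hi]

theorem prod {κ : Type} (s : Finset κ) (f : κ → ℂ → ℂ → ℂ) (h : ∀ i ∈ s, LR P (f i)) :
    LR P (fun t w => ∏ i ∈ s, f i t w) := by
  classical
  induction s using Finset.induction_on with
  | empty => exact (const 1).congr fun t w _ _ => by simp
  | insert i s hi ih =>
    refine ((h i (Finset.mem_insert_self i s)).mul
      (ih fun j hj => h j (Finset.mem_insert_of_mem hj))).congr fun t w _ _ => ?_
    rw [Finset.prod_insert hi]

/-- product over a list -/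
theorem list_prod {κ : Type} (l : List κ) (f : κ → ℂ → ℂ → ℂ) (h : ∀ i ∈ l, LR P (f i)) :
    LR P (fun t w => (l.map (fun i => f i t w)).prod) := by
  induction l with
  | nil => exact (const 1).congr fun t w _ _ => by simp
  | cons a l ih =>
    refine ((h a (List.mem_cons_self)).mul
      (ih fun j hj => h j (List.mem_cons_of_mem a hj))).congr fun t w _ _ => ?_
    rw [List.map_cons, List.prod_cons]

/-- a polynomial function of a list of functions -/
theorem of_PD {N d : ℕ} {F : List ℂ → ℂ} (hF : PD N d F) (L : List (ℂ → ℂ → ℂ))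
    (hL : L.length = N) (h : ∀ f ∈ L, LR P f) : LR P (fun t w => F (L.map (fun f => f t w))) := by
  obtain ⟨p, _, hp⟩ := hF
  have hget : ∀ i : Fin N, LR P (fun t w => (L.map (fun f => f t w)).getD i 0) := by
    intro i
    have hi : (i : ℕ) < L.length := by rw [hL]; exact i.2
    refine (h (L[(i:ℕ)]) (List.getElem_mem hi)).congr fun t w _ _ => ?_
    simp [List.getD_eq_getElem?_getD, List.getElem?_map, hi]
  have key : ∀ p : MvPolynomial (Fin N) ℂ, LR P (fun t w =>
      MvPolynomial.eval (fun i : Fin N => (L.map (fun f => f t w)).getD i 0) p) := by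
    intro p
    induction p using MvPolynomial.induction_on with
    | C a => exact (const a).congr fun t w _ _ => by simp
    | add p r hp hr => exact (hp.add hr).congr fun t w _ _ => by simp
    | mul_X p i hp => exact (hp.mul (hget i)).congr fun t w _ _ => by simp
  refine (key p).congr fun t w _ _ => ?_
  rw [hp _ (by rw [List.length_map, hL])]

end LR

/-! ### units -/

namespace UL

variable {P : ℂ[X]} {f g : ℂ → ℂ → ℂ}

theorem mul (h1 : UL P f) (h2 : UL P g) : UL P (fun t w => f t w * g t w) :=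
  ⟨h1.1.mul h2.1, (h1.2.mul h2.2).congr fun t w _ _ => by rw [mul_inv]⟩

theorem inv (h : UL P f) : UL P (fun t w => (f t w)⁻¹) :=
  ⟨h.2, h.1.congr fun t w _ _ => by rw [inv_inv]⟩

theorem pow (h : UL P f) (n : ℕ) : UL P (fun t w => (f t w)^n) :=
  ⟨h.1.pow n, (h.2.pow n).congr fun t w _ _ => by rw [inv_pow]⟩

theorem const (c : ℂ) : UL P (fun _ _ => c) := ⟨LR.const c, LR.const c⁻¹⟩

theorem var : UL P (fun _ w => w) := ⟨LR.var, LR.var_inv⟩

theorem poly {p : ℂ[X]} (h : p ∣ P) : UL P (fun t _ => p.eval t) := ⟨LR.poly p, LR.poly_inv h⟩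

theorem list_prod {κ : Type} (l : List κ) (f : κ → ℂ → ℂ → ℂ) (h : ∀ i ∈ l, UL P (f i)) :
    UL P (fun t w => (l.map (fun i => f i t w)).prod) := by
  induction l with
  | nil => exact ⟨(LR.const 1).congr fun t w _ _ => by simp, (LR.const 1).congr fun t w _ _ => by simp⟩
  | cons a l ih =>
    have h1 := (h a (List.mem_cons_self)).mul (ih fun j hj => h j (List.mem_cons_of_mem a hj))
    exact ⟨h1.1.congr fun t w _ _ => by rw [List.map_cons, List.prod_cons],
      h1.2.congr fun t w _ _ => by simp only [List.map_cons, List.prod_cons]⟩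

/-- `om` of a unit -/
theorem om (h : UL P f) : LR P (fun t w => Pool.Agent.NH38.Step.om (f t w)) :=
  (h.1.add h.2).congr fun t w _ _ => rfl

end UL

/-! ### families -/

/-- the entries of a family as functions of `(t,w)` -/
noncomputable def fn (A : List ℂ[X]) : List (ℂ → ℂ → ℂ) := A.map (fun p => fun t _ => p.eval t)

theorem fn_ev (A : List ℂ[X]) (t w : ℂ) : (fn A).map (fun f => f t w) = ev A t := by
  unfold fn ev
  rw [List.map_map]
  rfl

theorem fn_length (A : List ℂ[X]) : (fn A).length = A.length := by simp [fn]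

theorem ev_length (A : List ℂ[X]) (t : ℂ) : (ev A t).length = A.length := by simp [ev]

theorem fn_UL {A : List ℂ[X]} {P : ℂ[X]} (h : A.prod ∣ P) : ∀ f ∈ fn A, UL P f := by
  intro f hf
  unfold fn at hf
  rw [List.mem_map] at hf
  obtain ⟨p, hp, rfl⟩ := hf
  exact UL.poly ((List.dvd_prod hp).trans h)

theorem left_dvd (A B : List ℂ[X]) : A.prod ∣ (A ++ B).prod := by
  rw [List.prod_append]; exact dvd_mul_right _ _

theorem right_dvd (A B : List ℂ[X]) : B.prod ∣ (A ++ B).prod := by
  rw [List.prod_append]; exact dvd_mul_left _ _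

/-- the good values of `t` -/
theorem good_iff (A : List ℂ[X]) (t : ℂ) : A.prod.eval t ≠ 0 ↔ NZ (ev A t) := by
  unfold NZ ev
  rw [← Polynomial.coe_evalRingHom, map_list_prod]
  constructor
  · intro h z hz hz0
    apply h
    apply List.prod_eq_zero
    rw [List.mem_map] at hz ⊢
    obtain ⟨p, hp, rfl⟩ := hz
    exact ⟨p, hp, hz0⟩
  · intro h
    apply List.prod_ne_zero
    intro h0
    rw [List.mem_map] at h0
    obtain ⟨p, hp, hp0⟩ := h0
    exact h (p.eval t) (List.mem_map.mpr ⟨p, hp, rfl⟩) hp0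

theorem good_append (A B : List ℂ[X]) (t : ℂ) :
    (A ++ B).prod.eval t ≠ 0 ↔ NZ (ev A t) ∧ NZ (ev B t) := by
  rw [List.prod_append, eval_mul, mul_ne_zero_iff, good_iff, good_iff]

/-- `pom (φ) (L)` for families -/
theorem LR_pom {P : ℂ[X]} {φ : ℂ → ℂ → ℂ} (hφ : LR P φ) (L : List (ℂ → ℂ → ℂ))
    (h : ∀ f ∈ L, UL P f) :
    LR P (fun t w => Pool.Agent.NH38.Step.pom (φ t w) (L.map (fun f => f t w))) := by
  refine (LR.list_prod L (fun f t w => φ t w - Pool.Agent.NH38.Step.om (f t w))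
    fun f hf => hφ.sub (h f hf).om).congr fun t w _ _ => ?_
  unfold Pool.Agent.NH38.Step.pom
  rw [List.map_map]
  rfl

end Pool.Agent.NH38.Fork
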