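import Pool.Agent.NH38.Fork.Stubs2
import Pool.Agent.NH38.Fork.LR
import Pool.Agent.NH38.Step.C2

/-!
Thick slits (helper38): `gF` satisfies the properties `MF` (task M1), and the formula for the total mass
(task M3). helper87.
-/

namespace Pool.Agent.NH38.Fork

open Pool.Agent.H988R2.Perc hiding X
open Pool.Agent.NH38.Step (om prs EE zs prF Gen on cardy pom bev om_eq_iff prs_cons)
open Polynomial

namespace M1

variable {ι : Type} (x : ι → ℂ)

theorem toList_erase [DecidableEq ι] {s : Finset ι} {i : ι} (hi : i ∈ s) :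
    (s.toList.map x).Perm (x i :: ((s.erase i).toList.map x)) := by
  have h1 : s.toList.Perm (i :: (s.erase i).toList) := by
    conv_lhs => rw [← Finset.insert_erase hi]
    exact Finset.toList_insert (Finset.notMem_erase i s)
  exact h1.map x

theorem nz_map (hx : ∀ i, x i ≠ 0) (s : Finset ι) : NZ (s.toList.map x) := by
  intro z hz
  rw [List.mem_map] at hz
  obtain ⟨i, _, rfl⟩ := hz
  exact hx i

theorem nz_cons {y : ℂ} {l : List ℂ} (hy : y ≠ 0) (hl : NZ l) : NZ (y :: l) := by
  intro z hz
  rcases List.mem_cons.1 hz with rfl | h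
  · exact hy
  · exact hl z h

open Classical in
theorem FP_tF (s : Finset ι) {A B A' B' : List ℂ} (h : A ++ B = A' ++ B') (w : ℂ) :
    FP x (tF x) s A B w = FP x (tF x) s A' B' w := by
  have h1 : ∀ P : List ℂ, A ++ (B ++ P) = A' ++ (B' ++ P) := by
    intro P
    rw [← List.append_assoc, h, List.append_assoc]
  have h2 : ∀ r : Finset ι, tF x r A B = tF x r A' B' := by
    intro r
    funext v
    unfold tF tt
    rw [h1]
  unfold FP
  rw [h, h2 s, h2 ∅, h1]
  congr 1
  refine Finset.sum_congr rfl fun i _ => ?_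
  rw [h1]

end M1

theorem t_MFg : S_regG → S_perm → S_permX → S_invX → S_wid → S_starA → S_node → S_MFg := by
  intro hreg hperm hpermX hinvX hwid hstar hnode ι x hx b hb
  have hx0 : ∀ i, x i ≠ 0 := fun i => (hx.1 i).1
  refine ⟨?_, ?_, ?_, ?_, ?_⟩
  · intro a s ha A B hA hB
    have h1 := hreg (A ++ B).prod (fn A) (s.toList.map fun i => fun _ _ => x i) (fn B)
      (fun _ w => w) (by rw [fn_length, hA]; exact ha) (by rw [fn_length, hB]; exact hb)
      (fn_UL (left_dvd A B)) ?_ (fn_UL (right_dvd A B)) UL.var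
    · refine h1.congr fun t w _ _ => ?_
      rw [fn_ev, fn_ev, List.map_map]
      rfl
    · intro g hg
      rw [List.mem_map] at hg
      obtain ⟨i, _, rfl⟩ := hg
      exact UL.const (x i)
  · intro a s ha A A' B B' hA hB hAn hBn hAA hBB w hw
    exact hperm A A' (s.toList.map x) B B' (by rw [hA]; exact ha) (by rw [hB]; exact hb) hAn
      (M1.nz_map x hx0 s) hBn hAA hBB w hw
  · intro A B s hA hB hAn hBn
    have h1 := hwid A (s.toList.map x) B hA (by rw [hB]; exact hb) hAn (M1.nz_map x hx0 s) hBn
    rw [List.length_map, Finset.length_toList, hB] at h1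
    exact h1
  · intro A B u s hA hB hAn hBn hu
    exact hstar A (s.toList.map x) B u hA (by rw [hB]; exact hb) hAn (M1.nz_map x hx0 s) hBn hu
  · intro _ A B s i y hA hB hAn hBn hi hy hom
    have hBo : Odd B.length := by rw [hB]; exact hb
    have hn := M1.nz_map x hx0 (s.erase i)
    have hqy : q * y ≠ 0 := mul_ne_zero q_ne_zero hy
    have h1 : gh A (s.toList.map x) B (q * y) =
        gh A (x i :: ((s.erase i).toList.map x)) B (q * y) :=
      hpermX A _ _ B hA hBo hAn (M1.nz_map x hx0 s) hBn (M1.toList_erase x hi) _ hqy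
    have h2 : gh A (x i :: ((s.erase i).toList.map x)) B (q * y) =
        gh A (y :: ((s.erase i).toList.map x)) B (q * y) := by
      rcases (om_eq_iff (hx0 i) hy).1 hom with h3 | h3
      · rw [h3]
      · have h4 : y = (x i)⁻¹ := eq_inv_of_mul_eq_one_right h3
        rw [hinvX A _ B (x i) hA hBo hAn hn hBn (hx0 i) _ hqy, ← h4]
    have h3 := hnode A ((s.erase i).toList.map x) B y hA hBo hAn hn hBn hy
    show gh A (s.toList.map x) B (q * y) = _
    rw [h1, h2, h3]
    rfl

theorem t_ZI : S_II → S_MFt → S_ZI := by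
  classical
  intro hII hMF ι x hx
  have h1 : ∀ (n : ℕ) (s : Finset ι), s.card = n → ∀ A B : List ℂ, Odd A.length →
      B.length = 1 → NZ A → NZ B → ∀ w, w ≠ 0 → FP x (tF x) s A B w = 0 := by
    intro n
    induction n with
    | zero =>
      intro s hs
      refine hII x hx 1 odd_one (tF x) (fun _ _ => 1) 1 1 (hMF x hx 1 odd_one) s ?_ (Or.inl rfl)
      intro i hi
      rw [Finset.card_eq_zero.1 hs] at hi
      exact absurd hi (Finset.notMem_empty i)
    | succ n ih =>
      intro s hs
      refine hII x hx 1 odd_one (tF x) (fun _ _ => 1) 1 1 (hMF x hx 1 odd_one) s ?_ (Or.inl rfl)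
      intro i hi A B hA hB hAn hBn w hw
      exact ih (s.erase i) (by rw [Finset.card_erase_of_mem hi, hs]; rfl) A B hA hB hAn hBn w hw
  intro s A B hA hB hAn hBn w hw
  have hBne : B ≠ [] := by
    rintro rfl
    simp at hB
  have hB2 : B.dropLast ++ [B.getLast hBne] = B := List.dropLast_append_getLast hBne
  have hAB : A ++ B = (A ++ B.dropLast) ++ [B.getLast hBne] := by
    rw [List.append_assoc, hB2]
  rw [M1.FP_tF x s hAB w]
  refine h1 s.card s rfl _ _ ?_ rfl ?_ ?_ w hw
  · rw [List.length_append, List.length_dropLast]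
    obtain ⟨k, hk⟩ := hA
    obtain ⟨l, hl⟩ := hB
    exact ⟨k + l, by omega⟩
  · intro z hz
    rcases List.mem_append.1 hz with h | h
    · exact hAn z h
    · exact hBn z (List.mem_of_mem_dropLast h)
  · intro z hz
    rw [List.mem_singleton] at hz
    rw [hz]
    exact hBn _ (List.getLast_mem hBne)

end Pool.Agent.NH38.Fork
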