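import Pool.Agent.NH38.Fork.Stubs2
import Pool.Agent.NH38.Step.C3
import Pool.Agent.NH38.Step.C8

/-!
Thick slits (project of helper38), task M2a (helper14): recursion at the nodes, zeros and star
relation of `FP`.
-/

namespace Pool.Agent.NH38.Fork

open Pool.Agent.H988R2.Perc hiding X
open Pool.Agent.H492C (comb2 pairG up1)
open Pool.Agent.NH38.Step (om prs EE zs prF Gen on cardy pom bev)
open Polynomial

namespace M2a

open Pool.Agent.NH38.Step

/-! ### the coefficient `cc` -/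

theorem cc_inv (g0 : ℂ → ℂ) (w x : ℂ) : cc g0 w x⁻¹ = cc g0 w x := by
  unfold cc
  rw [inv_inv]
  have e1 : (w * x⁻¹)⁻¹ = w⁻¹ * x := by rw [mul_inv, inv_inv]
  have e2 : w⁻¹ * x⁻¹ = (w * x)⁻¹ := (mul_inv _ _).symm
  rw [e1, e2]
  have e3 : x⁻¹ - x = -(x - x⁻¹) := by ring
  rw [e3, div_neg, ← neg_div]
  congr 1
  ring

theorem cc_om (g0 : ℂ → ℂ) (w : ℂ) {x y : ℂ} (hx : x ≠ 0) (hy : y ≠ 0) (h : om x = om y) :
    cc g0 w x = cc g0 w y := by
  rcases (om_eq_iff hx hy).mp h with h1 | h1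
  · rw [h1]
  · have : x = y⁻¹ := eq_inv_of_mul_eq_one_left h1
    rw [this, cc_inv]

theorem sub_inv_ne {x : ℂ} (hx : x ≠ 0) (h6 : x^6 ≠ 1) : x - x⁻¹ ≠ 0 := by
  intro h
  apply h6
  have h1 : x^2 = 1 := by
    have : x * (x - x⁻¹) = 0 := by rw [h, mul_zero]
    rw [mul_sub, mul_inv_cancel₀ hx] at this
    linear_combination this
  calc x^6 = (x^2)^3 := by ring
    _ = 1 := by rw [h1, one_pow]

theorem cc_self (g0 : ℂ → ℂ) {x : ℂ} (hx : x ≠ 0) (h : x - x⁻¹ ≠ 0) : cc g0 x x = g0 x := by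
  unfold cc
  rw [inv_mul_cancel₀ hx, sub_self, mul_zero, zero_mul, sub_zero, div_eq_iff h]
  have h1 : x * (1 - (x*x)⁻¹) = x - x⁻¹ := by field_simp
  have h2 := q_spec
  have h3 := q_cube
  have e1 : (x - q*x) * (1 - (x*x)⁻¹) = (1 - q) * (x - x⁻¹) := by
    rw [← h1]; ring
  rw [e1]
  have e2 : (1 - q^2) * (1 - q) = 3 := by linear_combination h3 - h2
  linear_combination (g0 x * (x - x⁻¹) / 3) * e2

theorem cc_q (g0 : ℂ → ℂ) {y : ℂ} (hy : y ≠ 0) (h : y - y⁻¹ ≠ 0) :
    cc g0 (q * y) y = g0 y⁻¹ := by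
  unfold cc
  rw [sub_self, zero_mul, zero_mul, zero_sub, div_eq_iff h]
  have h2 := q_spec
  have h3 := q_cube
  have e1 : (q*y)⁻¹ * y = q^2 := by
    rw [mul_inv, qinv, mul_assoc, inv_mul_cancel₀ hy, mul_one]
  rw [e1]
  have e : (1 - q^2)^2 * q = -3 := by linear_combination h2 + (q^2 - 2) * h3
  linear_combination (-(y - y⁻¹) * g0 y⁻¹ / 3) * e

theorem cc_node (g0 : ℂ → ℂ) {x y : ℂ} (hx : x ≠ 0) (hy : y ≠ 0) :
    cc g0 (q * y) x = cc g0 y⁻¹ x := by
  unfold cc
  have h3 := q_cube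
  have e : ∀ z : ℂ, z ≠ 0 →
      (q * y - q * z) * (1 - ((q * y) * z)⁻¹) = (y⁻¹ - q * z) * (1 - (y⁻¹ * z)⁻¹) := by
    intro z hz
    rw [mul_inv, mul_inv, mul_inv, qinv, inv_inv]
    have hzz : z * z⁻¹ = 1 := mul_inv_cancel₀ hz
    have hyy : y * y⁻¹ = 1 := mul_inv_cancel₀ hy
    linear_combination (q^3 * y⁻¹ - q * y) * hzz + (z⁻¹ - z⁻¹ * q^3) * hyy + (y⁻¹ - z⁻¹) * h3
  have e1 := e x hx
  have e2 := e x⁻¹ (inv_ne_zero hx)
  have f1 : ((q * y) * x⁻¹)⁻¹ = (q*y)⁻¹ * x := by rw [mul_inv, inv_inv]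
  have f2 : (y⁻¹ * x⁻¹)⁻¹ = y⁻¹⁻¹ * x := by rw [mul_inv, inv_inv x]
  rw [f1, f2] at e2
  rw [e1, e2]

theorem cc_star (g0 : ℂ → ℂ) {x u : ℂ} (hx : x ≠ 0) (hu : u ≠ 0) :
    cc g0 (q^2 * u) x = cc g0 (q^2 * u⁻¹) x := by
  unfold cc
  have h3 := q_cube
  have e : ∀ z : ℂ, z ≠ 0 →
      (q^2 * u - q * z) * (1 - ((q^2 * u) * z)⁻¹) =
        (q^2 * u⁻¹ - q * z) * (1 - ((q^2 * u⁻¹) * z)⁻¹) := by
    intro z hz
    rw [mul_inv, mul_inv, mul_inv, mul_inv, q2inv, inv_inv]
    have hzz : z * z⁻¹ = 1 := mul_inv_cancel₀ hz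
    have huu : u * u⁻¹ = 1 := mul_inv_cancel₀ hu
    linear_combination (q^2 * u⁻¹ - q^2 * u) * hzz
  have e1 := e x hx
  have e2 := e x⁻¹ (inv_ne_zero hx)
  have f1 : ((q^2 * u) * x⁻¹)⁻¹ = (q^2*u)⁻¹ * x := by rw [mul_inv, inv_inv]
  have f2 : ((q^2 * u⁻¹) * x⁻¹)⁻¹ = (q^2*u⁻¹)⁻¹ * x := by rw [mul_inv, inv_inv]
  rw [f1, f2] at e2
  rw [e1, e2]

/-! ### lists -/

theorem len_even {A B : List ℂ} (hA : Odd A.length) (hB : Odd B.length) {ι : Type} (x : ι → ℂ)
    (s : Finset ι) : Even (A ++ (B ++ prF x s)).length := by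
  obtain ⟨a, ha⟩ := hA
  obtain ⟨b, hb⟩ := hB
  rw [List.length_append, List.length_append, prF_length, ha, hb]
  exact ⟨a + b + 1 + s.card, by ring⟩

theorem ne_all {A B : List ℂ} (hA : NZ A) (hB : NZ B) {ι : Type} (x : ι → ℂ) (hx : ∀ i, x i ≠ 0)
    (s : Finset ι) : ∀ z ∈ A ++ (B ++ prF x s), z ≠ 0 := by
  intro z hz
  rw [List.mem_append, List.mem_append] at hz
  rcases hz with hz | hz | hz
  · exact hA z hz
  · exact hB z hz
  · exact prF_ne x hx s z hz

theorem perm_pull (A B : List ℂ) (y z : ℂ) (L : List ℂ) :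
    (A ++ (B ++ (y :: z :: L))).Perm (y :: z :: (A ++ (B ++ L))) := by
  have h1 : (B ++ (y :: z :: L)).Perm (y :: z :: (B ++ L)) :=
    List.perm_middle.trans (List.Perm.cons _ List.perm_middle)
  refine (List.Perm.append_left A h1).trans ?_
  exact List.perm_middle.trans (List.Perm.cons _ List.perm_middle)

open Classical in
theorem perm_erase {ι : Type} (x : ι → ℂ) (hx : ∀ i, x i ≠ 0) {s : Finset ι} {i : ι} (hi : i ∈ s)
    (y : ℂ) (hy : y ≠ 0) (h : om (x i) = om y) (A B : List ℂ) :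
    (A ++ (B ++ prF x s)).Perm (y :: y⁻¹ :: (A ++ (B ++ prF x (s.erase i)))) :=
  (List.Perm.append_left A (List.Perm.append_left B (prF_erase' x hx hi y hy h.symm))).trans
    (perm_pull A B _ _ _)

open Classical in
theorem gm_mul {ι : Type} (x : ι → ℂ) (s : Finset ι) (i : ι)
    (h : ∀ j ∈ s.erase i, om (x i) - om (x j) ≠ 0) :
    gm x s i * ∏ j ∈ s.erase i, (om (x i) - om (x j)) =
      EE (om (x i)) (om (x i)) * ∏ j ∈ s.erase i, EE (om (x i)) (om (x j)) := by
  unfold gm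
  rw [mul_assoc, ← Finset.prod_mul_distrib]
  congr 1
  exact Finset.prod_congr rfl fun j hj => div_mul_cancel₀ _ (h j hj)

theorem om_sub_ne {ι : Type} {x : ι → ℂ} (hg : Gen x) {i j : ι} (hij : i ≠ j) :
    om (x i) - om (x j) ≠ 0 := by
  have h := Gen.om_ne hg hij (x i) 1 (one_pow _) one_ne_zero (hg.1 i).1 rfl
  rw [one_mul] at h
  exact sub_ne_zero.mpr h

end M2a

open M2a Pool.Agent.NH38.Step in
open Classical in
theorem t_FPzero : S_FPzero := by
  intro ι x hg g s i y hi hy hom A B hA hB hA0 hB0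
  have hx : ∀ i, x i ≠ 0 := fun i => (hg.1 i).1
  have hxi := sub_inv_ne (hx i) (hg.1 i).2
  have hyi : y - y⁻¹ ≠ 0 := by
    rcases (om_eq_iff (hx i) hy).mp hom with h1 | h1
    · rw [← h1]; exact hxi
    · have : y = (x i)⁻¹ := eq_inv_of_mul_eq_one_right h1
      rw [this, inv_inv]
      intro h
      apply hxi
      linear_combination -h
  unfold FP
  have h0 : (∏ j ∈ s, (om y - om (x j))) = 0 :=
    Finset.prod_eq_zero hi (by rw [hom, sub_self])
  rw [h0, zero_mul, zero_mul, zero_sub]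
  have hsum : (∑ l ∈ s, gm x s l * (∏ j ∈ s.erase l, (om y - om (x j))) *
      cc (g ∅ A B) y (x l) * zs (y :: x l :: (A ++ (B ++ prF x (s.erase l))))) =
      gm x s i * (∏ j ∈ s.erase i, (om y - om (x j))) *
      cc (g ∅ A B) y (x i) * zs (y :: x i :: (A ++ (B ++ prF x (s.erase i)))) := by
    refine Finset.sum_eq_single_of_mem i hi ?_
    intro l hl hli
    have : (∏ j ∈ s.erase l, (om y - om (x j))) = 0 :=
      Finset.prod_eq_zero (Finset.mem_erase.mpr ⟨hli.symm, hi⟩) (by rw [hom, sub_self])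
    rw [this, mul_zero, zero_mul, zero_mul]
  rw [hsum, cc_om _ _ (hx i) hy hom, cc_self _ hy hyi]
  have e1 : zs (y :: x i :: (A ++ (B ++ prF x (s.erase i)))) = zs (A ++ (B ++ prF x s)) := by
    rw [zs_perm (len_even hA hB x s) (perm_erase x hx hi y hy hom A B)]
    have ho : Odd (y :: (A ++ (B ++ prF x (s.erase i)))).length := by
      rw [List.length_cons]; exact (len_even hA hB x _).add_one
    have hev : ∀ a b : ℂ, Even (a :: b :: (A ++ (B ++ prF x (s.erase i)))).length := by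
      intro a b
      rw [List.length_cons, List.length_cons]; exact (len_even hA hB x _).add_one.add_one
    rw [zs_perm (hev _ _) (List.Perm.swap _ _ _), zs_perm (hev _ _) (List.Perm.swap y⁻¹ y _)]
    refine zs_om _ _ _ (hx i) (inv_ne_zero hy) ?_ ho
    rw [om_inv, hom]
  rw [e1]
  have e2 := gm_mul x s i (fun j hj => om_sub_ne hg (Finset.ne_of_mem_erase hj).symm)
  rw [← Finset.mul_prod_erase s _ hi, ← hom]
  linear_combination (g ∅ A B y * zs (A ++ (B ++ prF x s))) * e2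

open M2a Pool.Agent.NH38.Step in
open Classical in
theorem t_FPnode : S_FPnode := by
  intro ι x hg b hb g μ c0 c1 hM s i y hi hy hom A B hA hB hA0 hB0
  have hBo : Odd B.length := by rw [hB]; exact hb
  have hx : ∀ i, x i ≠ 0 := fun i => (hg.1 i).1
  have hxi := sub_inv_ne (hx i) (hg.1 i).2
  have hyi : y - y⁻¹ ≠ 0 := by
    rcases (om_eq_iff (hx i) hy).mp hom with h1 | h1
    · rw [← h1]; exact hxi
    · have : y = (x i)⁻¹ := eq_inv_of_mul_eq_one_right h1
      rw [this, inv_inv]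
      intro h
      apply hxi
      linear_combination -h
  have hyy : y⁻¹ ≠ 0 := inv_ne_zero hy
  have hnode := hM.node A B s i y hA hB hA0 hB0 hi hy hom
  unfold FP
  rw [om_inv]
  have z0 : (∏ j ∈ s, EE (om (q * y)) (om (x j))) = 0 := by
    apply Finset.prod_eq_zero hi
    rw [hom, EE_fac _ y hy, sub_self, zero_mul]
  rw [z0, zero_mul, zero_mul, sub_zero, hnode]
  rw [← Finset.add_sum_erase s _ hi]
  have hpos : ∀ j ∈ s.erase i, om (x i) - om (x j) ≠ 0 :=
    fun j hj => om_sub_ne hg (Finset.ne_of_mem_erase hj).symm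
  have hpL : pom (om (q^2 * y)) (A ++ (B ++ prF x (s.erase i))) =
      pom (om (q^2 * y)) (A ++ B) * pom (om (q^2 * y)) (prF x (s.erase i)) := by
    rw [pom_app, pom_app, pom_app]; ring
  -- the term `i`
  have t1 : gm x s i * (∏ j ∈ s.erase i, (om (q * y) - om (x j))) *
      cc (g ∅ A B) (q * y) (x i) * zs ((q * y) :: x i :: (A ++ (B ++ prF x (s.erase i)))) *
        (∏ j ∈ s.erase i, (om (x i) - om (x j))) =
      -((∏ j ∈ s, (om (q * y) - om (x j))) * pom (om (q^2 * y)) (A ++ B) *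
        (om y - om (q^2 * y)) * pom (om (q^2 * y)) (prF x (s.erase i)) *
        ((∏ j ∈ s.erase i, EE (om y) (om (x j))) * zs (A ++ (B ++ prF x (s.erase i))) *
          g ∅ A B y⁻¹)) := by
    have hev := len_even hA hBo x (s.erase i)
    have e1 : zs ((q * y) :: x i :: (A ++ (B ++ prF x (s.erase i)))) =
        pom (om (q^2 * y)) (A ++ B) * pom (om (q^2 * y)) (prF x (s.erase i)) *
          zs (A ++ (B ++ prF x (s.erase i))) := by
      rw [← hpL, ← zs_rec1 y _ hy (ne_all hA0 hB0 x hx _) hev]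
      have hev2 : ∀ a b : ℂ, Even (a :: b :: (A ++ (B ++ prF x (s.erase i)))).length := by
        intro a b
        rw [List.length_cons, List.length_cons]; exact hev.add_one.add_one
      rw [zs_perm (hev2 _ _) (List.Perm.swap _ _ _), zs_perm (hev2 _ _) (List.Perm.swap y _ _)]
      refine zs_om _ _ _ (hx i) hy hom ?_
      rw [List.length_cons]; exact hev.add_one
    have e2 := gm_mul x s i hpos
    rw [e1, cc_om _ _ (hx i) hy hom, cc_q _ hy hyi, ← Finset.mul_prod_erase s _ hi]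
    rw [hom] at e2 ⊢
    rw [EE_fac (om y) y hy] at e2
    linear_combination ((∏ j ∈ s.erase i, (om (q * y) - om (x j))) * g ∅ A B y⁻¹ *
      (pom (om (q^2 * y)) (A ++ B) * pom (om (q^2 * y)) (prF x (s.erase i)) *
          zs (A ++ (B ++ prF x (s.erase i))))) * e2
  have t2 : (∑ l ∈ s.erase i, gm x s l * (∏ j ∈ s.erase l, (om (q * y) - om (x j))) *
      cc (g ∅ A B) (q * y) (x l) * zs ((q * y) :: x l :: (A ++ (B ++ prF x (s.erase l))))) *
        (∏ j ∈ s.erase i, (om (x i) - om (x j))) =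
      (∏ j ∈ s, (om (q * y) - om (x j))) * pom (om (q^2 * y)) (A ++ B) *
        (om y - om (q^2 * y)) * pom (om (q^2 * y)) (prF x (s.erase i)) *
        ∑ l ∈ s.erase i, gm x (s.erase i) l * (∏ j ∈ (s.erase i).erase l, (om y - om (x j))) *
          cc (g ∅ A B) y⁻¹ (x l) *
            zs (y⁻¹ :: x l :: (A ++ (B ++ prF x ((s.erase i).erase l)))) := by
    rw [Finset.sum_mul, Finset.mul_sum]
    refine Finset.sum_congr rfl fun l hl => ?_
    have hli : l ≠ i := Finset.ne_of_mem_erase hl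
    have hls : l ∈ s := Finset.mem_of_mem_erase hl
    have hil : i ∈ s.erase l := Finset.mem_erase.mpr ⟨hli.symm, hi⟩
    have hg1 : gm x s l = gm x (s.erase i) l * (EE (om (x l)) (om (x i)) /
        (om (x l) - om (x i))) := by
      unfold gm
      rw [← Finset.mul_prod_erase (s.erase l) _ hil, Finset.erase_right_comm]
      ring
    have p1 : (∏ j ∈ s.erase l, (om (q * y) - om (x j))) =
        (om (q * y) - om (x i)) * ∏ j ∈ (s.erase i).erase l, (om (q * y) - om (x j)) := by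
      rw [← Finset.mul_prod_erase (s.erase l) _ hil, Finset.erase_right_comm]
    have p2 : (∏ j ∈ s, (om (q * y) - om (x j))) = (om (q * y) - om (x i)) *
        ((om (q * y) - om (x l)) * ∏ j ∈ (s.erase i).erase l, (om (q * y) - om (x j))) := by
      rw [← Finset.mul_prod_erase s _ hi, ← Finset.mul_prod_erase (s.erase i) _ hl]
    have p3 : (∏ j ∈ s.erase i, (om (x i) - om (x j))) = (om (x i) - om (x l)) *
        ∏ j ∈ (s.erase i).erase l, (om (x i) - om (x j)) := by
      rw [← Finset.mul_prod_erase (s.erase i) _ hl]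
    have p4 : pom (om (q^2 * y)) (prF x (s.erase i)) = (om (q^2 * y) - om (x l))^2 *
        pom (om (q^2 * y)) (prF x ((s.erase i).erase l)) := by
      rw [pom_prF, pom_prF, ← Finset.mul_prod_erase (s.erase i) _ hl]
    have hev := len_even hA hBo x ((s.erase i).erase l)
    have e1 : zs ((q * y) :: x l :: (A ++ (B ++ prF x (s.erase l)))) =
        (om (q^2 * y) - om y) * ((om (q^2 * y) - om (x l)) * (pom (om (q^2 * y)) (A ++ B) *
          pom (om (q^2 * y)) (prF x ((s.erase i).erase l)))) *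
          zs (y⁻¹ :: x l :: (A ++ (B ++ prF x ((s.erase i).erase l)))) := by
      have hq : (om (q^2 * y) - om y) * ((om (q^2 * y) - om (x l)) *
          (pom (om (q^2 * y)) (A ++ B) * pom (om (q^2 * y)) (prF x ((s.erase i).erase l)))) =
          pom (om (q^2 * y)) (y⁻¹ :: x l :: (A ++ (B ++ prF x ((s.erase i).erase l)))) := by
        rw [pom_cons, pom_cons, om_inv, pom_app, pom_app, pom_app]; ring
      rw [hq, ← zs_rec1 y (y⁻¹ :: x l :: (A ++ (B ++ prF x ((s.erase i).erase l)))) hy]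
      · refine zs_perm ?_ ?_
        · rw [List.length_cons, List.length_cons]
          exact (len_even hA hBo x _).add_one.add_one
        · refine List.Perm.cons _ ?_
          have q1 := perm_erase x hx hil y hy hom A B
          rw [Finset.erase_right_comm] at q1
          refine (q1.cons _).trans ?_
          refine (List.Perm.swap _ _ _).trans (List.Perm.cons _ ?_)
          exact List.Perm.swap _ _ _
      · intro z hz
        rw [List.mem_cons, List.mem_cons] at hz
        rcases hz with rfl | rfl | hz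
        · exact hyy
        · exact hx l
        · exact ne_all hA0 hB0 x hx _ z hz
      · rw [List.length_cons, List.length_cons]; exact hev.add_one.add_one
    rw [hg1, p1, p2, p3, p4, e1, cc_node _ (hx l) hy, EE_comm, hom]
    rw [EE_comm, EE_fac (om (x l)) y hy]
    have hd : om (x l) - om y ≠ 0 := by rw [← hom]; exact om_sub_ne hg hli
    have hd2 : (om (x l) - om y) * (om (x l) - om y)⁻¹ = 1 := mul_inv_cancel₀ hd
    rw [div_eq_mul_inv]
    generalize (om (x l) - om y)⁻¹ = D at *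
    generalize gm x (s.erase i) l = c1
    generalize (∏ j ∈ (s.erase i).erase l, (om (q * y) - om (x j))) = c2
    generalize (∏ j ∈ (s.erase i).erase l, (om y - om (x j))) = c3
    generalize pom (om (q^2 * y)) (prF x ((s.erase i).erase l)) = c4
    generalize zs (y⁻¹ :: x l :: (A ++ (B ++ prF x ((s.erase i).erase l)))) = c5
    generalize cc (g ∅ A B) y⁻¹ (x l) = c6
    generalize pom (om (q^2 * y)) (A ++ B) = c7
    linear_combination (c1 * c2 * c3 * c4 * c5 * c6 * c7 * (om (x l) - om (q * y)) *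
      (om (x l) - om (q^2 * y)) * (om (q * y) - om y) * (om (q^2 * y) - om y) *
      (om (x l) - om (q^2 * y))) * hd2
  rw [add_mul, add_mul, t1, t2]
  rw [hom]
  ring

open M2a Pool.Agent.NH38.Step in
open Classical in
theorem t_FPstar : S_FPstar := by
  intro ι x hg b hb g μ c0 c1 hM s A B u hA hB hA0 hB0 hu
  have hx : ∀ i, x i ≠ 0 := fun i => (hg.1 i).1
  have hBo : Odd B.length := by rw [hB]; exact hb
  have st := hM.star A B u s hA hB hA0 hB0 hu
  have st0 := hM.star A B u ∅ hA hB hA0 hB0 hu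
  have hui : u⁻¹ ≠ 0 := inv_ne_zero hu
  have hq2u : q^2 * u ≠ 0 := mul_ne_zero (pow_ne_zero 2 q_ne_zero) hu
  have hqu : q * u ≠ 0 := mul_ne_zero q_ne_zero hu
  have hemp : prF x (∅ : Finset ι) = [] := by
    unfold prF; simp [prs]
  rw [hemp, List.append_nil] at st0
  have hP : ∀ a, pom a (A ++ (B ++ prF x s)) = pom a (A ++ B) * ∏ j ∈ s, (a - om (x j))^2 := by
    intro a
    rw [pom_app, pom_app, pom_prF, pom_app]; ring
  unfold FP
  rw [om_q2_inv]
  simp only [add_mul, sub_mul]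
  refine congrArg₂ (fun a b : ℂ => a + b) (congrArg₂ (fun a b : ℂ => a - b) ?_ ?_) ?_
  · linear_combination ((∏ j ∈ s, (om (q^2 * u) - om (x j))) * zs (u :: A ++ B) *
      (∏ j ∈ s, (om (q * u) - om (x j)))) * st
  · rw [hP, hP]
    have e : (∏ j ∈ s, EE (om (q^2 * u)) (om (x j))) * (∏ j ∈ s, (om (q * u) - om (x j))) *
        (∏ j ∈ s, (om (q^2 * u) - om (x j))^2) =
        (∏ j ∈ s, EE (om (q * u)) (om (x j))) * (∏ j ∈ s, (om (q^2 * u) - om (x j))) *
        (∏ j ∈ s, (om (q * u) - om (x j))^2) := by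
      rw [← Finset.prod_mul_distrib, ← Finset.prod_mul_distrib, ← Finset.prod_mul_distrib,
        ← Finset.prod_mul_distrib]
      refine Finset.prod_congr rfl fun j hj => ?_
      rw [EE_comm (om (q^2 * u)), EE_comm (om (q * u)), EE_fac _ (q^2 * u) hq2u,
        EE_fac _ (q * u) hqu, om_qq2, om_q2q2, om_qq, om_q2q]
      ring
    linear_combination (zs (u :: A ++ (B ++ prF x s)) * g ∅ (u :: A) B (q^2 * u) *
      pom (om (q^2 * u)) (A ++ B)) * e +
      ((∏ j ∈ s, EE (om (q * u)) (om (x j))) * (∏ j ∈ s, (om (q^2 * u) - om (x j))) *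
        (∏ j ∈ s, (om (q * u) - om (x j))^2) * zs (u :: A ++ (B ++ prF x s))) * st0
  · rw [Finset.sum_mul, Finset.sum_mul, Finset.sum_mul, Finset.sum_mul]
    refine Finset.sum_congr rfl fun i hi => ?_
    rw [hP, hP]
    set r := s.erase i with hr
    have hne : ∀ z ∈ (x i :: (A ++ (B ++ prF x r))), z ≠ 0 := by
      intro z hz
      rw [List.mem_cons] at hz
      rcases hz with rfl | hz
      · exact hx i
      · exact ne_all hA0 hB0 x hx _ z hz
    have hev : Even (x i :: (A ++ (B ++ prF x r))).length := by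
      obtain ⟨a, ha⟩ := hA
      obtain ⟨b', hb'⟩ := hBo
      rw [List.length_cons, List.length_append, List.length_append, prF_length, ha, hb']
      exact ⟨a + b' + 1 + r.card, by ring⟩
    have pL : (x i :: (u :: A ++ (B ++ prF x r))).Perm (u :: x i :: (A ++ (B ++ prF x r))) :=
      List.Perm.swap _ _ _
    rw [zs_star1 u _ _ hu hne hev pL, zs_star2 u _ _ hu hne hev pL, cc_star _ (hx i) hu]
    have hQ : ∀ a, pom a (x i :: (A ++ (B ++ prF x r))) = (a - om (x i)) *
        (pom a (A ++ B) * ∏ j ∈ r, (a - om (x j))^2) := by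
      intro a
      rw [pom_cons, pom_app, pom_app, pom_prF, pom_app]; ring
    rw [hQ, hQ]
    have m1 : ∀ f : ι → ℂ, (∏ j ∈ s, f j) = f i * ∏ j ∈ r, f j := by
      intro f
      rw [hr, ← Finset.mul_prod_erase s f hi]
    rw [m1, m1, m1, m1]
    ring

end Pool.Agent.NH38.Fork
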