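import Pool.Agent.NH38.Fork.Stubs

/-!
Thick slits (helper38): statements of the tasks, part 2 (nothing is proved here).
-/

namespace Pool.Agent.NH38.Fork

open Pool.Agent.H988R2.Perc hiding X
open Pool.Agent.H492C (comb2 pairG up1)
open Pool.Agent.NH38.Step (om prs EE zs prF Gen on cardy pom bev)
open Polynomial

/-! ## parts of `S_II` -/

open Classical in
/-- recursion of `FP` at `w = q y`, `om y = om x_i` -/
def S_FPnode : Prop := ∀ {ι : Type} (x : ι → ℂ), Gen x → ∀ (b : ℕ), Odd b →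
  ∀ (g : Finset ι → List ℂ → List ℂ → ℂ → ℂ) (μ : List ℂ → List ℂ → ℂ) (c0 c1 : ℂ),
  MF x b g μ c0 c1 → ∀ (s : Finset ι) (i : ι) (y : ℂ), i ∈ s → y ≠ 0 → om (x i) = om y →
  ∀ A B, Odd A.length → B.length = b → NZ A → NZ B →
  FP x g s A B (q * y) * ∏ j ∈ s.erase i, (om (x i) - om (x j)) =
    (∏ j ∈ s, (om (q * y) - om (x j))) * pom (om (q^2 * y)) (A ++ B) * (om y - om (q^2 * y)) *
      pom (om (q^2 * y)) (prF x (s.erase i)) * FP x g (s.erase i) A B y⁻¹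

/-- zeros of `FP` at `om w = om x_i` -/
def S_FPzero : Prop := ∀ {ι : Type} (x : ι → ℂ), Gen x →
  ∀ (g : Finset ι → List ℂ → List ℂ → ℂ → ℂ) (s : Finset ι) (i : ι) (y : ℂ), i ∈ s → y ≠ 0 →
  om (x i) = om y → ∀ A B, Odd A.length → Odd B.length → NZ A → NZ B → FP x g s A B y = 0

/-- star relation of `FP` -/
def S_FPstar : Prop := ∀ {ι : Type} (x : ι → ℂ), Gen x → ∀ (b : ℕ), Odd b →
  ∀ (g : Finset ι → List ℂ → List ℂ → ℂ → ℂ) (μ : List ℂ → List ℂ → ℂ) (c0 c1 : ℂ),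
  MF x b g μ c0 c1 → ∀ (s : Finset ι) (A B : List ℂ) (u : ℂ), Even A.length → B.length = b →
  NZ A → NZ B → u ≠ 0 →
  FP x g s (u :: A) B (q^2 * u) * (∏ j ∈ s, (om (q^2 * u⁻¹) - om (x j))) *
      pom (om (q^2 * u)) (A ++ (B ++ prF x s)) =
    FP x g s (u :: A) B (q^2 * u⁻¹) * (∏ j ∈ s, (om (q^2 * u) - om (x j))) *
      pom (om (q * u)) (A ++ (B ++ prF x s))

/-- width of `FP`, vanishing extreme coefficients -/
def S_FPwid : Prop := ∀ {ι : Type} (x : ι → ℂ), Gen x → ∀ (b : ℕ), Odd b →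
  ∀ (g : Finset ι → List ℂ → List ℂ → ℂ → ℂ) (μ : List ℂ → List ℂ → ℂ) (c0 c1 : ℂ),
  MF x b g μ c0 c1 → ∀ (s : Finset ι) (A B : List ℂ), Odd A.length → B.length = b →
  NZ A → NZ B → ∃ F : ℂ[X], F.natDegree ≤ A.length + b + 4 * s.card - 1 ∧ F.coeff 0 = 0 ∧
    ∀ w, w ≠ 0 → FP x g s A B w * w^((A.length + b)/2 + 2 * s.card) = F.eval w

/-- regularity and symmetry of `FP` -/
def S_FPreg : Prop := ∀ {ι : Type} (x : ι → ℂ), Gen x → ∀ (b : ℕ), Odd b →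
  ∀ (g : Finset ι → List ℂ → List ℂ → ℂ → ℂ) (μ : List ℂ → List ℂ → ℂ) (c0 c1 : ℂ),
  MF x b g μ c0 c1 → ∀ (s : Finset ι) (a : ℕ), Odd a → Reg a b (FP x g s) ∧ PermInv a b (FP x g s)

end Pool.Agent.NH38.Fork
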