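import Pool.Agent.NH38.Fork.LR
import Pool.Agent.NH38.Fork.Stubs2
import Pool.Agent.NH38.Step.C6

/-!
Thick slits (helper38), task M2b: widths, regularity and symmetry of `FP`.
-/

set_option autoImplicit false

namespace Pool.Agent.NH38.Fork

open Pool.Agent.H988R2.Perc hiding X
open Pool.Agent.H492C (comb2 pairG up1)
open Pool.Agent.NH38.Step (om prs EE zs prF Gen on cardy pom bev bev_mul bev_C bev_X bev_pow bev_CC)
open Polynomial

namespace M2b

/-! ### Laurent polynomials of half width `m` -/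

theorem lau_congr {n m : ℕ} {f f' : ℂ → ℂ} {c0 c1 : ℂ} (h : Lau n m f c0 c1)
    (he : ∀ w, w ≠ 0 → f w = f' w) : Lau n m f' c0 c1 := by
  obtain ⟨F, h1, h2, h3, h4⟩ := h
  exact ⟨F, h1, h2, h3, fun w hw => by rw [← he w hw]; exact h4 w hw⟩

theorem lau_const (c : ℂ) : Lau 0 0 (fun _ => c) c c :=
  ⟨C c, (natDegree_C c).le, coeff_C_zero, coeff_C_zero, fun w _ => by simp⟩

theorem lau_mul {n n' m m' : ℕ} {f f' : ℂ → ℂ} {c0 c1 c0' c1' : ℂ} (h : Lau n m f c0 c1)
    (h' : Lau n' m' f' c0' c1') : Lau (n + n') (m + m') (fun w => f w * f' w) (c0 * c0')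
      (c1 * c1') := by
  obtain ⟨F, h1, h2, h3, h4⟩ := h
  obtain ⟨F', h1', h2', h3', h4'⟩ := h'
  refine ⟨F * F', natDegree_mul_le_of_le h1 h1', ?_, ?_, fun w hw => ?_⟩
  · rw [mul_coeff_zero, h2, h2']
  · rw [coeff_mul_add_eq_of_natDegree_le h1 h1', h3, h3']
  · rw [eval_mul, ← h4 w hw, ← h4' w hw, pow_add]
    ring

theorem lau_smul {n m : ℕ} {f : ℂ → ℂ} {c0 c1 : ℂ} (c : ℂ) (h : Lau n m f c0 c1) :
    Lau n m (fun w => c * f w) (c * c0) (c * c1) := by
  have := lau_mul (lau_const c) h
  rwa [zero_add, zero_add] at this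

theorem lau_add {n m : ℕ} {f f' : ℂ → ℂ} {c0 c1 c0' c1' : ℂ} (h : Lau n m f c0 c1)
    (h' : Lau n m f' c0' c1') : Lau n m (fun w => f w + f' w) (c0 + c0') (c1 + c1') := by
  obtain ⟨F, h1, h2, h3, h4⟩ := h
  obtain ⟨F', h1', h2', h3', h4'⟩ := h'
  refine ⟨F + F', natDegree_add_le_of_degree_le h1 h1', ?_, ?_, fun w hw => ?_⟩
  · rw [coeff_add, h2, h2']
  · rw [coeff_add, h3, h3']
  · rw [eval_add, ← h4 w hw, ← h4' w hw]
    ring

theorem lau_sub {n m : ℕ} {f f' : ℂ → ℂ} {c0 c1 c0' c1' : ℂ} (h : Lau n m f c0 c1)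
    (h' : Lau n m f' c0' c1') : Lau n m (fun w => f w - f' w) (c0 - c0') (c1 - c1') := by
  have h2 := lau_add h (lau_smul (-1) h')
  have e0 : c0 + -1 * c0' = c0 - c0' := by ring
  have e1 : c1 + -1 * c1' = c1 - c1' := by ring
  rw [e0, e1] at h2
  exact lau_congr h2 fun w _ => by ring

theorem lau_widen {m : ℕ} {f : ℂ → ℂ} {c0 c1 : ℂ} (h : Lau (2 * m) m f c0 c1) (i : ℕ)
    (hi : 1 ≤ i) : Lau (2 * (m + i)) (m + i) f 0 0 := by
  obtain ⟨F, h1, -, -, h4⟩ := h
  have hd : (F * X^i).natDegree ≤ 2 * m + i := natDegree_mul_le_of_le h1 (natDegree_X_pow_le i)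
  refine ⟨F * X^i, hd.trans (by omega), ?_, ?_, fun w hw => ?_⟩
  · rw [mul_coeff_zero, coeff_X_pow, if_neg (by omega), mul_zero]
  · exact coeff_eq_zero_of_natDegree_lt (by omega)
  · rw [eval_mul, eval_pow, eval_X, ← h4 w hw, pow_add]
    ring

theorem lau_prod {κ : Type} [DecidableEq κ] (s : Finset κ) (f : κ → ℂ → ℂ) (r : ℕ)
    (h : ∀ i ∈ s, Lau (2 * r) r (f i) 1 1) :
    Lau (2 * (r * s.card)) (r * s.card) (fun w => ∏ i ∈ s, f i w) 1 1 := by
  induction s using Finset.induction_on with
  | empty =>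
    have := lau_const 1
    refine lau_congr (f := fun _ => 1) ?_ fun w _ => by simp
    simpa using this
  | insert i s hi ih =>
    have h1 := lau_mul (h i (Finset.mem_insert_self i s))
      (ih fun j hj => h j (Finset.mem_insert_of_mem hj))
    rw [one_mul] at h1
    have e1 : 2 * r + 2 * (r * s.card) = 2 * (r * (insert i s).card) := by
      rw [Finset.card_insert_of_notMem hi]; ring
    have e2 : r + r * s.card = r * (insert i s).card := by
      rw [Finset.card_insert_of_notMem hi]; ring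
    rw [e1, e2] at h1
    exact lau_congr h1 fun w _ => by rw [Finset.prod_insert hi]

theorem lau_sum {κ : Type} [DecidableEq κ] (s : Finset κ) (f : κ → ℂ → ℂ) (n m : ℕ)
    (h : ∀ i ∈ s, Lau n m (f i) 0 0) :
    Lau n m (fun w => ∑ i ∈ s, f i w) 0 0 := by
  induction s using Finset.induction_on with
  | empty => exact ⟨0, by simp, by simp, by simp, fun w _ => by simp⟩
  | insert i s hi ih =>
    have h1 := lau_add (h i (Finset.mem_insert_self i s))
      (ih fun j hj => h j (Finset.mem_insert_of_mem hj))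
    rw [add_zero] at h1
    exact lau_congr h1 fun w _ => by rw [Finset.sum_insert hi]

theorem lau_om (κ : ℂ) : Lau (2 * 1) 1 (fun w => om w - κ) 1 1 := by
  refine ⟨X^2 - C κ * X + 1, ?_, ?_, ?_, fun w hw => ?_⟩
  · compute_degree
  · simp
  · have : (X^2 - C κ * X + 1 : ℂ[X]).coeff (2 * 1) = 1 := by
      simp [coeff_one]
    exact this
  · unfold Step.om
    simp only [eval_add, eval_sub, eval_mul, eval_pow, eval_X, eval_C, eval_one, pow_one]
    field_simp
    ring

theorem lau_EE (κ : ℂ) : Lau (2 * 2) 2 (fun w => EE (om w) κ) 1 1 := by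
  refine ⟨X^4 + C κ * X^3 + C (κ^2 - 1) * X^2 + C κ * X + 1, ?_, ?_, ?_, fun w hw => ?_⟩
  · compute_degree
  · simp
  · have : (X^4 + C κ * X^3 + C (κ^2 - 1) * X^2 + C κ * X + 1 : ℂ[X]).coeff (2 * 2) = 1 := by
      simp only [coeff_add, coeff_C_mul, coeff_X_pow, coeff_X, coeff_one]
      norm_num
    exact this
  · unfold Step.EE Step.om
    simp only [eval_add, eval_mul, eval_pow, eval_X, eval_C, eval_one]
    field_simp
    ring

theorem lau_cc (g0 : ℂ → ℂ) (x : ℂ) (hx : x ≠ 0) : ∃ c0 c1, Lau (2 * 1) 1 (fun w => cc g0 w x)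
    c0 c1 := by
  set α : ℂ := (1 - q^2) / 3 * g0 x / (x - x⁻¹) with hα
  set β : ℂ := (1 - q^2) / 3 * g0 x⁻¹ / (x - x⁻¹) with hβ
  refine ⟨_, _, C α * (X^2 - C (q * x + x⁻¹) * X + C q) -
    C β * (X^2 - C (q * x⁻¹ + x) * X + C q), ?_, rfl, rfl, fun w hw => ?_⟩
  · compute_degree
  · unfold cc
    simp only [eval_add, eval_sub, eval_mul, eval_pow, eval_X, eval_C, pow_one]
    have e : (1 - q^2) / 3 * ((w - q*x) * (1 - (w*x)⁻¹) * g0 x -
        (w - q*x⁻¹) * (1 - w⁻¹*x) * g0 x⁻¹) / (x - x⁻¹) * w =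
        α * ((w - q*x) * (1 - (w*x)⁻¹) * w) - β * ((w - q*x⁻¹) * (1 - w⁻¹*x) * w) := by
      rw [hα, hβ]; ring
    rw [e]
    have e1 : (w - q*x) * (1 - (w*x)⁻¹) * w = w^2 - (q * x + x⁻¹) * w + q := by
      field_simp
      ring
    have e2 : (w - q*x⁻¹) * (1 - w⁻¹*x) * w = w^2 - (q * x⁻¹ + x) * w + q := by
      field_simp
      ring
    rw [e1, e2]

theorem lau_zs (S : List ℂ) (r : ℕ) (hS : S.length = 2 * r + 1) :
    ∃ c0 c1, Lau (2 * r) r (fun w => zs (w :: S)) c0 c1 := by
  obtain ⟨p, pd, hp⟩ := (Z_pd (2 * r + 2) ⟨r + 1, by ring⟩).univ [] S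
    (by simp only [List.length_nil]; rw [hS]; ring)
  have pd' : p.natDegree ≤ 2 * r := by simpa using pd
  refine ⟨_, _, C ((S.prod^r * q^((r+1)*r))⁻¹) * p, ?_, rfl, rfl, fun w hw => ?_⟩
  · exact (natDegree_C_mul_le _ _).trans pd'
  · rw [eval_mul, eval_C]
    have h2 := hp w
    simp only [List.nil_append] at h2
    rw [← h2]
    beta_reduce
    unfold Step.zs
    have h1 : (w :: S).length / 2 = r + 1 := by rw [List.length_cons, hS]; omega
    rw [h1, Nat.add_sub_cancel, List.prod_cons, mul_pow, div_eq_mul_inv, mul_assoc, mul_inv,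
      mul_inv, mul_inv]
    have h3 : w^r ≠ 0 := pow_ne_zero _ hw
    field_simp

end M2b

open Classical in
theorem t_FPwid : S_FPwid := by
  intro ι x hx b hb g μ c0 c1 hg s A B hA hB nA nB
  set a := A.length with ha
  set k := s.card with hk
  obtain ⟨h, hh⟩ : ∃ h, a + b = 2 * h := by
    obtain ⟨m, hm⟩ := hA
    obtain ⟨m', hm'⟩ := hb
    exact ⟨m + m' + 1, by omega⟩
  have hx0 : ∀ i, x i ≠ 0 := fun i => (hx.1 i).1
  -- the first two terms
  have w1 := hg.wid A B s hA hB nA nB
  have w0 := hg.wid A B ∅ hA hB nA nB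
  rw [← ha, ← hk, hh, Nat.mul_div_cancel_left h (by norm_num)] at w1
  rw [← ha, hh, Nat.mul_div_cancel_left h (by norm_num), Finset.card_empty] at w0
  have hp0 : prF x ∅ = [] := by simp [Step.prF, Step.prs]
  rw [hp0, List.append_nil] at w0
  have p1 := M2b.lau_prod s (fun j w => om w - om (x j)) 1 (fun j _ => M2b.lau_om (om (x j)))
  have p2 := M2b.lau_prod s (fun j w => EE (om w) (om (x j))) 2 (fun j _ => M2b.lau_EE (om (x j)))
  rw [← hk] at p1 p2
  have t1 := M2b.lau_mul (M2b.lau_mul p1 (M2b.lau_const (zs (A ++ B)))) w1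
  have t2 := M2b.lau_mul (M2b.lau_mul p2 (M2b.lau_const (zs (A ++ (B ++ prF x s))))) w0
  have d1 : 2 * (1 * k) + 0 + (2 * h + 2 * k) = 2 * (h + 2 * k) := by ring
  have d2 : 1 * k + 0 + (h + k) = h + 2 * k := by ring
  have d3 : 2 * (2 * k) + 0 + (2 * h + 2 * 0) = 2 * (h + 2 * k) := by ring
  have d4 : 2 * k + 0 + (h + 0) = h + 2 * k := by ring
  rw [d1, d2] at t1
  rw [d3, d4] at t2
  have t12 := M2b.lau_sub t1 t2
  have e0 : 1 * zs (A ++ B) * (c0 * (μ A B * zs (A ++ (B ++ prF x s)))) -
      1 * zs (A ++ (B ++ prF x s)) * (c0 * (μ A B * zs (A ++ B))) = 0 := by ring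
  have e1 : 1 * zs (A ++ B) * (c1 * (μ A B * zs (A ++ (B ++ prF x s)))) -
      1 * zs (A ++ (B ++ prF x s)) * (c1 * (μ A B * zs (A ++ B))) = 0 := by ring
  rw [e0, e1] at t12
  -- the sum
  have t3 := M2b.lau_sum s (fun i w => gm x s i * (∏ j ∈ s.erase i, (om w - om (x j))) *
    cc (g ∅ A B) w (x i) * zs (w :: x i :: (A ++ (B ++ prF x (s.erase i)))))
    (2 * (h + 2 * k)) (h + 2 * k) (by
      intro i hi
      have hc := Finset.card_erase_add_one hi
      obtain ⟨k', hk'⟩ : ∃ k', k = k' + 1 := ⟨(s.erase i).card, by omega⟩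
      have hk2 : (s.erase i).card = k' := by omega
      have q1 := M2b.lau_prod (s.erase i) (fun j w => om w - om (x j)) 1
        (fun j _ => M2b.lau_om (om (x j)))
      obtain ⟨u0, u1, q2⟩ := M2b.lau_cc (g ∅ A B) (x i) (hx0 i)
      obtain ⟨v0, v1, q3⟩ := M2b.lau_zs (x i :: (A ++ (B ++ prF x (s.erase i)))) (h + k') (by
        simp only [List.length_cons, List.length_append, Step.prF_length, hB, ← ha, hk2]
        omega)
      have q4 := M2b.lau_smul (gm x s i) (M2b.lau_mul (M2b.lau_mul q1 q2) q3)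
      rw [hk2] at q4
      have f1 : 2 * (1 * k') + 2 * 1 + 2 * (h + k') = 2 * (h + 2 * k' + 1) := by ring
      have f2 : 1 * k' + 1 + (h + k') = h + 2 * k' + 1 := by ring
      rw [f1, f2] at q4
      have q5 := M2b.lau_widen q4 1 le_rfl
      have f3 : h + 2 * k' + 1 + 1 = h + 2 * k := by rw [hk']; ring
      rw [f3] at q5
      exact M2b.lau_congr q5 fun w _ => by ring)
  have t := M2b.lau_add t12 t3
  rw [add_zero] at t
  obtain ⟨F, hF1, hF2, hF3, hF4⟩ := t
  refine ⟨F, ?_, hF2, fun w hw => ?_⟩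
  · have hne : 0 < 2 * (h + 2 * k) := by
      obtain ⟨m, hm⟩ := hb
      omega
    have hlt : F.natDegree < 2 * (h + 2 * k) := by
      rcases lt_or_eq_of_le hF1 with h1 | h1
      · exact h1
      · exfalso
        rw [← h1] at hF3
        have h2 : F = 0 := leadingCoeff_eq_zero.mp hF3
        rw [h2, natDegree_zero] at h1
        omega
    omega
  · have hm : (a + b) / 2 + 2 * k = h + 2 * k := by rw [hh, Nat.mul_div_cancel_left h (by norm_num)]
    rw [hm, ← hF4 w hw]
    rfl

namespace M2b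

/-- fixing the second variable -/
theorem LR_at {P : ℂ[X]} {φ : ℂ → ℂ → ℂ} (h : LR P φ) {c : ℂ} (hc : c ≠ 0) :
    LR P (fun t _ => φ t c) := by
  obtain ⟨F, j, hF⟩ := h
  refine ⟨C (F.eval (C c)) * C (C ((c^j)⁻¹)) * X^j, j, fun t w ht _ => ?_⟩
  have h1 := hF t c ht hc
  have h2 : (F.eval (C c)).eval t = bev F t c := by
    unfold Step.bev
    rw [eval_map]
    have := eval₂_at_apply (p := F) (evalRingHom t) (C c)
    rw [coe_evalRingHom, eval_C] at this
    rw [this]
  rw [bev_mul, bev_mul, bev_pow, bev_C, bev_CC, bev_X, h2, ← h1, mul_pow, mul_pow]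
  have h3 : c^j ≠ 0 := pow_ne_zero _ hc
  field_simp

end M2b

open Classical in
theorem t_FPreg : S_regz → S_FPreg := by
  intro hz ι x hx b hb g μ c0 c1 hg s a ha
  have hx0 : ∀ i, x i ≠ 0 := fun i => (hx.1 i).1
  constructor
  · intro A B hA hB
    set P := (A ++ B).prod with hP
    have uA : ∀ f ∈ fn A, UL P f := fn_UL (left_dvd A B)
    have uB : ∀ f ∈ fn B, UL P f := fn_UL (right_dvd A B)
    have hev : Even (a + b) := ha.add_odd hb
    have hzs : ∀ (L : List ℂ), Even L.length →
        LR P (fun t _ => zs (ev A t ++ (ev B t ++ L))) := by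
      intro L hL
      have h1 := (hz P (fn A ++ (fn B ++ L.map (fun c => fun _ _ => c))) (by
        intro f hf
        rcases List.mem_append.mp hf with h | h
        · exact uA f h
        · rcases List.mem_append.mp h with h | h
          · exact uB f h
          · rw [List.mem_map] at h
            obtain ⟨c, _, rfl⟩ := h
            exact UL.const c)).1 (by
        simp only [List.length_append, fn_length, List.length_map, hA, hB]
        rw [← add_assoc]
        exact hev.add hL)
      refine h1.congr fun t w _ _ => ?_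
      rw [List.map_append, List.map_append, fn_ev, fn_ev, List.map_map]
      congr 3
      exact List.map_id' L
    have hzs0 : LR P (fun t _ => zs (ev A t ++ ev B t)) :=
      (hzs [] (by simp)).congr fun t w _ _ => by rw [List.append_nil]
    have hzs2 : ∀ (c : ℂ) (L : List ℂ), Even L.length →
        LR P (fun t w => zs (w :: c :: (ev A t ++ (ev B t ++ L)))) := by
      intro c L hL
      have h1 := (hz P ((fun _ w => w) :: (fun _ _ => c) :: (fn A ++ (fn B ++
          L.map (fun c => fun _ _ => c)))) (by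
        intro f hf
        rcases List.mem_cons.mp hf with rfl | hf
        · exact UL.var
        rcases List.mem_cons.mp hf with rfl | hf
        · exact UL.const c
        rcases List.mem_append.mp hf with h | h
        · exact uA f h
        · rcases List.mem_append.mp h with h | h
          · exact uB f h
          · rw [List.mem_map] at h
            obtain ⟨c, _, rfl⟩ := h
            exact UL.const c)).1 (by
        simp only [List.length_cons, List.length_append, fn_length, List.length_map, hA, hB]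
        have : a + (b + L.length) + 1 + 1 = a + b + L.length + 2 := by ring
        rw [this]
        exact (hev.add hL).add (by decide))
      refine h1.congr fun t w _ _ => ?_
      rw [List.map_cons, List.map_cons, List.map_append, List.map_append, fn_ev, fn_ev,
        List.map_map]
      congr 5
      exact List.map_id' L
    have hom : LR P (fun _ w => om w) := UL.om UL.var
    have hgs : ∀ s, LR P (fun t w => g s (ev A t) (ev B t) w) := fun s => hg.reg a s ha A B hA hB
    have T1 := ((LR.prod s (fun j _ w => om w - om (x j)) fun j _ =>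
      hom.sub (LR.const (om (x j)))).mul hzs0).mul (hgs s)
    have T2 := ((LR.prod s (fun j _ w => EE (om w) (om (x j))) fun j _ =>
      (((hom.pow 2).add (hom.mul (LR.const (om (x j))))).add
        ((LR.const (om (x j))).pow 2)).sub (LR.const 3)).mul
        (hzs (prF x s) (Step.prF_even x s))).mul (hgs ∅)
    have T3 := LR.sum s (fun i t w => gm x s i * (∏ j ∈ s.erase i, (om w - om (x j))) *
      cc (g ∅ (ev A t) (ev B t)) w (x i) *
        zs (w :: x i :: (ev A t ++ (ev B t ++ prF x (s.erase i))))) (by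
        intro i hi
        have k1 := LR.prod (P := P) (s.erase i) (fun j _ w => om w - om (x j)) fun j _ =>
          hom.sub (LR.const (om (x j)))
        have k2 : LR P (fun t w => cc (g ∅ (ev A t) (ev B t)) w (x i)) := by
          have m1 : LR P (fun t _ => g ∅ (ev A t) (ev B t) (x i)) := M2b.LR_at (hgs ∅) (hx0 i)
          have m2 : LR P (fun t _ => g ∅ (ev A t) (ev B t) (x i)⁻¹) :=
            M2b.LR_at (hgs ∅) (inv_ne_zero (hx0 i))
          have m3 : LR P (fun _ w => (w - q * x i) * (1 - w⁻¹ * (x i)⁻¹)) :=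
            (LR.var.sub (LR.const _)).mul ((LR.const 1).sub (LR.var_inv.mul (LR.const _)))
          have m4 : LR P (fun _ w => (w - q * (x i)⁻¹) * (1 - w⁻¹ * x i)) :=
            (LR.var.sub (LR.const _)).mul ((LR.const 1).sub (LR.var_inv.mul (LR.const _)))
          have m5 := (((m3.mul m1).sub (m4.mul m2)).smul ((1 - q^2) / 3)).mul
            (LR.const (x i - (x i)⁻¹)⁻¹)
          refine m5.congr fun t w _ _ => ?_
          unfold cc
          rw [mul_inv]
          ring
        exact (((LR.const (gm x s i)).mul k1).mul k2).mul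
          (hzs2 (x i) (prF x (s.erase i)) (Step.prF_even x _)))
    exact (T1.sub T2).add T3
  · intro A A' B B' hA hB nA nB pA pB w hw
    have hev : Even (a + b) := ha.add_odd hb
    have hAB : ∀ (L : List ℂ), Even L.length → zs (A ++ (B ++ L)) = zs (A' ++ (B' ++ L)) := by
      intro L hL
      refine Step.zs_perm ?_ (pA.append (pB.append (List.Perm.refl L)))
      simp only [List.length_append, hA, hB]
      rw [← add_assoc]
      exact hev.add hL
    have hAB0 : zs (A ++ B) = zs (A' ++ B') := by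
      have := hAB [] (by simp)
      simpa using this
    have hAB2 : ∀ (c : ℂ) (L : List ℂ), Even L.length →
        zs (w :: c :: (A ++ (B ++ L))) = zs (w :: c :: (A' ++ (B' ++ L))) := by
      intro c L hL
      refine Step.zs_perm ?_ (((pA.append (pB.append (List.Perm.refl L))).cons c).cons w)
      simp only [List.length_cons, List.length_append, hA, hB]
      have : a + (b + L.length) + 1 + 1 = a + b + L.length + 2 := by ring
      rw [this]
      exact (hev.add hL).add (by decide)
    have hg1 : ∀ s, ∀ w, w ≠ 0 → g s A B w = g s A' B' w := fun s w hw =>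
      hg.perm a s ha A A' B B' hA hB nA nB pA pB w hw
    unfold FP
    rw [hAB0, hAB _ (Step.prF_even x s), hg1 s w hw, hg1 ∅ w hw]
    congr 1
    refine Finset.sum_congr rfl fun i _ => ?_
    rw [hAB2 (x i) _ (Step.prF_even x _)]
    congr 2
    unfold cc
    rw [hg1 ∅ (x i) (hx0 i), hg1 ∅ (x i)⁻¹ (inv_ne_zero (hx0 i))]

end Pool.Agent.NH38.Fork
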