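import Pool.Agent.NH38.Fork.Stubs2
import Pool.Agent.NH38.Fork.LR
import Pool.Agent.NH38.Step.C9

/-!
Thick slits (helper38), task M2c: `S_II` from the uniqueness lemma `S_G2`.
-/

set_option autoImplicit false

namespace Pool.Agent.NH38.Fork

open Pool.Agent.H988R2.Perc hiding X
open Pool.Agent.H492C (comb2 pairG up1)
open Pool.Agent.NH38.Step (om prs EE zs prF Gen on cardy pom bev)
open Polynomial

namespace M2c

variable {ι : Type} {x : ι → ℂ}

theorem FP_empty (x : ι → ℂ) (g : Finset ι → List ℂ → List ℂ → ℂ → ℂ) (A B : List ℂ) (w : ℂ) :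
    FP x g ∅ A B w = 0 := by
  have h : prF x (∅ : Finset ι) = [] := by
    unfold prF
    rw [Finset.toList_empty, List.map_nil]
    rfl
  unfold FP
  rw [h, List.append_nil]
  simp

/-- the polynomial `∏ (w² + 1 - w om x_j)` -/
noncomputable def ee (x : ι → ℂ) (s : Finset ι) : ℂ[X] :=
  ∏ j ∈ s, (X^2 + 1 - C (om (x j)) * X)

theorem ee_zero (x : ι → ℂ) (s : Finset ι) : (ee x s).eval 0 = 1 := by
  unfold ee
  rw [eval_prod]
  refine Finset.prod_eq_one fun j _ => ?_
  simp

theorem ee_eval (x : ι → ℂ) (s : Finset ι) {w : ℂ} (hw : w ≠ 0) :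
    (ee x s).eval w = w^s.card * ∏ j ∈ s, (om w - om (x j)) := by
  unfold ee
  rw [eval_prod, ← Finset.prod_const, ← Finset.prod_mul_distrib]
  refine Finset.prod_congr rfl fun j _ => ?_
  simp only [eval_sub, eval_add, eval_pow, eval_X, eval_one, eval_mul, eval_C]
  unfold om
  field_simp

open Classical in
/-- the zeros -/
noncomputable def YY (x : ι → ℂ) (r : ℝ) (s : Finset ι) : Finset ℂ :=
  (Finset.univ : Finset (s × Bool × Bool)).image
    (fun p => Pool.Agent.NH38.Step.zz x r 0 s (Sum.inl p))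

theorem YY_card (hg : Gen x) {r : ℝ} {s : Finset ι} (hR : Pool.Agent.NH38.Step.Rad x r s) :
    (YY x r s).card = 4 * s.card := by
  classical
  unfold YY
  rw [Finset.card_image_of_injective]
  · simp [Finset.card_univ, Fintype.card_prod]
    ring
  · intro p p' h
    have := Pool.Agent.NH38.Step.zz_inj hg hR 0 h
    exact Sum.inl_injective this

theorem mem_YY {r : ℝ} {s : Finset ι} {y : ℂ} (hy : y ∈ YY x r s) :
    ∃ j ∈ s, ∃ z : ℂ, (z = x j ∨ z = (x j)⁻¹) ∧ (y = z ∨ y = q * z) := by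
  classical
  unfold YY at hy
  rw [Finset.mem_image] at hy
  obtain ⟨⟨j, b, c⟩, _, rfl⟩ := hy
  refine ⟨j, j.2, (if b then (x j)⁻¹ else x j), ?_, ?_⟩
  · cases b <;> simp
  · cases c
    · left
      simp [Pool.Agent.NH38.Step.zz]
    · right
      simp [Pool.Agent.NH38.Step.zz]

end M2c

open M2c in
theorem t_II : S_G2 → S_FPnode → S_FPzero → S_FPstar → S_FPwid → S_FPreg → S_II := by
  intro hG2 hnode hzero hstar hwid hreg ι x hg b hb g μ c0 c1 hMF s hind hB A B hA hBl hAn hBn w hw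
  classical
  rcases s.eq_empty_or_nonempty with rfl | hs
  · exact FP_empty x g A B w
  have hx : ∀ i, x i ≠ 0 := fun i => (hg.1 i).1
  have hk : 1 ≤ s.card := Finset.card_pos.mpr hs
  obtain ⟨r, hR⟩ := Pool.Agent.NH38.Step.rad_exists (x := x) s
  -- the function `FP * w^k`
  have hq2 : q^2 ≠ 0 := pow_ne_zero 2 q_ne_zero
  have hY0 : (0:ℂ) ∉ YY x r s := by
    intro h
    obtain ⟨j, _, z, hz, h⟩ := mem_YY h
    have hz0 : z ≠ 0 := by
      rcases hz with rfl | rfl
      · exact hx j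
      · exact inv_ne_zero (hx j)
    rcases h with h | h
    · exact hz0 h.symm
    · exact mul_ne_zero q_ne_zero hz0 h.symm
  have hzer : ∀ (A' B' : List ℂ), Odd A'.length → B'.length = b → NZ A' → NZ B' →
      ∀ y ∈ YY x r s, FP x g s A' B' y = 0 := by
    intro A' B' hA' hB' hAn' hBn' y hy
    obtain ⟨j, hj, z, hz, h⟩ := mem_YY hy
    have hz0 : z ≠ 0 := by
      rcases hz with rfl | rfl
      · exact hx j
      · exact inv_ne_zero (hx j)
    have hom : om (x j) = om z := by
      rcases hz with rfl | rfl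
      · rfl
      · rw [Pool.Agent.NH38.Step.om_inv]
    rcases h with rfl | rfl
    · exact hzero x hg g s j y hj hz0 hom A' B' hA' (by rw [hB']; exact hb) hAn' hBn'
    · have h1 := hnode x hg b hb g μ c0 c1 hMF s j z hj hz0 hom A' B' hA' hB' hAn' hBn'
      rw [hind j hj A' B' hA' hB' hAn' hBn' z⁻¹ (inv_ne_zero hz0), mul_zero] at h1
      refine (mul_eq_zero.mp h1).resolve_right ?_
      refine Finset.prod_ne_zero_iff.mpr ?_
      intro j' hj'
      rw [Finset.mem_erase] at hj'
      have h2 := Pool.Agent.NH38.Step.Gen.om_ne hg (Ne.symm hj'.1) (x j) 1 (by norm_num)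
        one_ne_zero (hx j) rfl
      rw [one_mul] at h2
      exact sub_ne_zero.mpr h2
  set cB : ℕ := if b = 1 then 0 else b with hcB
  have hcB2 : cB = 0 ∨ cB = b := by
    rw [hcB]; split_ifs
    · left; rfl
    · right; rfl
  have key := hG2 A.length b (A.length + b + 4 * s.card - 1) ((A.length + b)/2 + s.card) cB hA hb
    (ee x s) (by rw [ee_zero]; exact one_ne_zero) (YY x r s) hY0 (prF x s)
    (fun A B w => FP x g s A B w * w^s.card) ?_ hcB2 ?_ ?_ ?_ ?_ ?_ ?_ A B rfl hBl hAn hBn w hw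
  · exact (mul_eq_zero.mp key).resolve_right (pow_ne_zero _ hw)
  · -- degrees
    rw [YY_card hg hR, hcB]
    split_ifs with h1
    · omega
    · omega
  · -- regularity
    intro A' B' hA' hB'
    have h1 := (hreg x hg b hb g μ c0 c1 hMF s A.length hA).1 A' B' hA' hB'
    exact h1.mul (LR.var.pow s.card)
  · -- symmetry
    intro A₁ A₂ B₁ B₂ h1 h2 h3 h4 h5 h6 w' hw'
    have := (hreg x hg b hb g μ c0 c1 hMF s A.length hA).2 A₁ A₂ B₁ B₂ h1 h2 h3 h4 h5 h6 w' hw'
    simp only [this]
  · -- width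
    intro A' B' hA' hB' hAn' hBn'
    obtain ⟨F, hF1, hF2, hF3⟩ := hwid x hg b hb g μ c0 c1 hMF s A' B' (by rw [hA']; exact hA) hB'
      hAn' hBn'
    rw [hA'] at hF1 hF3
    refine ⟨F, hF1, hF2, fun w' hw' => ?_⟩
    rw [← hF3 w' hw', mul_assoc, ← pow_add]
    congr 2
    ring
  · -- star relation
    intro A' B' u hA' hB' hAn' hBn' hu
    have hE : Even A'.length := by
      rw [← hA'] at hA
      rcases Nat.even_or_odd A'.length with h | h
      · exact h
      · exfalso
        rw [Nat.odd_add_one] at hA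
        exact hA h
    have h1 := hstar x hg b hb g μ c0 c1 hMF s A' B' u hE hB' hAn' hBn' hu
    have hu1 : q^2 * u ≠ 0 := mul_ne_zero hq2 hu
    have hu2 : q^2 * u⁻¹ ≠ 0 := mul_ne_zero hq2 (inv_ne_zero hu)
    simp only [ee_eval x s hu1, ee_eval x s hu2]
    linear_combination ((q^2 * u)^s.card * (q^2 * u⁻¹)^s.card) * h1
  · -- zeros at `w = q v`
    intro hcb A' B' v hA' hB' hAn' hBn' hv
    rcases hB with h1 | h1
    · exfalso
      rw [hcB, if_pos h1] at hcb
      omega
    · simp only [h1 A' B' v (by rw [hA']; exact hA) hB' hAn' hBn' hv, zero_mul]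
  · intro A' B' hA' hB' hAn' hBn' y hy
    simp only [hzer A' B' (by rw [hA']; exact hA) hB' hAn' hBn' y hy, zero_mul]

end Pool.Agent.NH38.Fork
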