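import Pool.Agent.NH38.Fork.Stubs
import Pool.Agent.NH38.Step.C2

/-!
Thick slits, task M4 (helper90): the determinant formula and the duality for the thin slit, from the
uniqueness lemma.
-/

namespace Pool.Agent.NH38.Fork

open Pool.Agent.H988R2.Perc hiding X
open Pool.Agent.H492C (comb2 pairG up1)
open Pool.Agent.NH38.Step
open Polynomial

namespace M4

/-! ### `zo` -/

theorem zo_perm {l l' : List ℂ} (h : Odd l.length) (hp : l.Perm l') : zo l = zo l' := by
  unfold zo
  rw [Z_perm (by rw [List.length_append]; exact h.add_one) (hp.append_right [0]), hp.prod_eq,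
    hp.length_eq]

theorem zo_inv (x : ℂ) (l : List ℂ) (hx : x ≠ 0) (h : Even l.length) :
    zo (x :: l) = zo (x⁻¹ :: l) := by
  obtain ⟨m, hm⟩ := h
  unfold zo
  have h1 := Z_inv x (l ++ [0]) hx ⟨m, by simp [hm]; omega⟩
  rw [List.cons_append, h1, List.cons_append]
  simp only [List.prod_cons, List.length_cons, List.length_append, List.length_nil]
  have e1 : (l.length + 1 - 1) / 2 = m := by omega
  have e2 : l.length + (0 + 1) - 1 = m + m := by omega
  rw [e1, e2, mul_pow, mul_pow, inv_pow, pow_add]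
  have hxm : x^m ≠ 0 := pow_ne_zero _ hx
  field_simp

theorem zo_rec (x : ℂ) (l : List ℂ) (hx : x ≠ 0) (hl : ∀ z ∈ l, z ≠ 0) (h : Odd l.length) :
    zo (x :: (q^2 * x) :: l) = -(pom (om (q * x)) l * zo l) := by
  obtain ⟨m, hm⟩ := h
  have hq := q_ne_zero
  have hp : l.prod ≠ 0 := List.prod_ne_zero (fun h => hl 0 h rfl)
  have h1 := Z_rec [] (l ++ [0]) x (by simp [hm]; exact ⟨m + 1, by ring⟩)
  simp only [List.nil_append] at h1
  have h3 := fac_eq_pom x hx l hl
  unfold zo
  rw [List.cons_append, List.cons_append, h1, fac_app, fac_zero_right, h3]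
  simp only [List.prod_cons, List.length_cons]
  have e1 : (l.length + 1 + 1 - 1) / 2 = m + 1 := by omega
  have e2 : (l.length + 1 + 1 + 1) / 2 = m + 2 := by omega
  have e3 : (l.length - 1) / 2 = m := by omega
  have e4 : (l.length + 1) / 2 = m + 1 := by omega
  rw [e1, e2, e3, e4, hm]
  have hqx : q^2 * x ≠ 0 := mul_ne_zero (pow_ne_zero 2 hq) hx
  have hden : (x * (q^2 * x * l.prod))^(m+1) * q^((m+2) * (m+1)) ≠ 0 :=
    mul_ne_zero (pow_ne_zero _ (mul_ne_zero hx (mul_ne_zero hqx hp))) (pow_ne_zero _ hq)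
  rw [div_eq_iff hden]
  have hd2 : l.prod^m * q^((m+1)*m) ≠ 0 := mul_ne_zero (pow_ne_zero _ hp) (pow_ne_zero _ hq)
  rw [mul_div_assoc']
  rw [← neg_div, div_mul_eq_mul_div, eq_div_iff hd2]
  ring

/-! ### the cup relations of the total mass -/

theorem zo_starA (u : ℂ) (l : List ℂ) (hu : u ≠ 0) (hl : ∀ z ∈ l, z ≠ 0) (h : Odd l.length) :
    zo ((q^2 * u) :: u :: l) * pom (om (q^2 * u)) l =
      zo ((q^2 * u⁻¹) :: u :: l) * pom (om (q * u)) l := by
  have hui : u⁻¹ ≠ 0 := inv_ne_zero hu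
  have hlen : Odd (l.length + 1 + 1) := (h.add_one).add_one
  have h1 : zo ((q^2 * u) :: u :: l) = -(pom (om (q * u)) l * zo l) := by
    rw [← zo_rec u l hu hl h]
    exact zo_perm (by simpa using hlen) (List.Perm.swap _ _ _)
  have h2 : zo ((q^2 * u⁻¹) :: u :: l) = -(pom (om (q^2 * u)) l * zo l) := by
    have h3 := zo_rec u⁻¹ l hui hl h
    rw [om_q_inv] at h3
    rw [← h3, zo_perm (by simpa using hlen) (List.Perm.swap u (q^2 * u⁻¹) l)]
    exact zo_inv _ _ hu (by simpa using h.add_one)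
  rw [h1, h2]
  ring

theorem zo_starB (v : ℂ) (l : List ℂ) (hv : v ≠ 0) (hl : ∀ z ∈ l, z ≠ 0) (h : Odd l.length) :
    zo ((q * v) :: v :: l) * pom (om (q * v)) l =
      zo ((q * v⁻¹) :: v :: l) * pom (om (q^2 * v)) l := by
  have hvi : v⁻¹ ≠ 0 := inv_ne_zero hv
  have hlen : Odd (l.length + 1 + 1) := (h.add_one).add_one
  have key : ∀ y : ℂ, y ≠ 0 → zo ((q * y) :: y :: l) = -(pom (om (q^2 * y)) l * zo l) := by
    intro y hy
    have h1 := zo_rec (q * y) l (mul_ne_zero q_ne_zero hy) hl h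
    have e : q^2 * (q * y) = y := by rw [← mul_assoc, ← pow_succ, q_cube, one_mul]
    rw [e, om_qq] at h1
    exact h1
  have h2 : zo ((q * v⁻¹) :: v :: l) = -(pom (om (q * v)) l * zo l) := by
    have h3 := key v⁻¹ hvi
    rw [om_q2_inv] at h3
    rw [← h3, zo_perm (by simpa using hlen) (List.Perm.swap v (q * v⁻¹) l),
      zo_perm (by simpa using hlen) (List.Perm.swap v⁻¹ (q * v⁻¹) l)]
    exact zo_inv _ _ hv (by simpa using h.add_one)
  rw [key v hv, h2]
  ring

/-! ### regular functions -/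

theorem bev_add (F G : ℂ[X][X]) (t w : ℂ) : bev (F + G) t w = bev F t w + bev G t w := by
  simp [bev, Polynomial.map_add]

theorem bev_X (t w : ℂ) : bev X t w = w := by simp [bev]

theorem bev_pow (F : ℂ[X][X]) (n : ℕ) (t w : ℂ) : bev (F^n) t w = (bev F t w)^n := by
  simp [bev, Polynomial.map_pow]

variable {P : ℂ[X]}

theorem lr_fst (p : ℂ[X]) : LR P (fun t _ => p.eval t) :=
  ⟨C p, 0, fun t w _ _ => by rw [bev_C]; simp⟩

theorem lr_const (c : ℂ) : LR P (fun _ _ => c) := by
  have h := lr_fst (P := P) (C c)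
  simpa using h

theorem lr_snd : LR P (fun _ w => w) := ⟨X, 0, fun t w _ _ => by rw [bev_X]; simp⟩

theorem lr_inv : LR P (fun _ w => w⁻¹) :=
  ⟨C P, 1, fun t w _ hw => by rw [bev_C]; field_simp⟩

theorem _root_.Pool.Agent.NH38.Fork.LR.m4mul {φ ψ : ℂ → ℂ → ℂ} (h1 : LR P φ) (h2 : LR P ψ) :
    LR P (fun t w => φ t w * ψ t w) := by
  obtain ⟨F, j, hF⟩ := h1
  obtain ⟨G, k, hG⟩ := h2
  refine ⟨F * G, j + k, fun t w ht hw => ?_⟩
  rw [bev_mul, ← hF t w ht hw, ← hG t w ht hw]
  ring

theorem _root_.Pool.Agent.NH38.Fork.LR.m4add {φ ψ : ℂ → ℂ → ℂ} (h1 : LR P φ) (h2 : LR P ψ) :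
    LR P (fun t w => φ t w + ψ t w) := by
  obtain ⟨F, j, hF⟩ := h1
  obtain ⟨G, k, hG⟩ := h2
  refine ⟨F * (C P * X)^k + G * (C P * X)^j, j + k, fun t w ht hw => ?_⟩
  rw [bev_add, bev_mul, bev_mul, bev_pow, bev_pow, bev_mul, bev_C, bev_X, ← hF t w ht hw,
    ← hG t w ht hw]
  ring

theorem _root_.Pool.Agent.NH38.Fork.LR.m4sub {φ ψ : ℂ → ℂ → ℂ} (h1 : LR P φ) (h2 : LR P ψ) :
    LR P (fun t w => φ t w - ψ t w) := by
  have h3 := h1.m4add ((lr_const (-1)).m4mul h2)
  have e : (fun t w => φ t w - ψ t w) = (fun t w => φ t w + (-1) * ψ t w) := by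
    funext t w; ring
  rw [e]; exact h3

/-- a polynomial in `t` as a function -/
noncomputable def fn (p : ℂ[X]) : ℂ → ℂ → ℂ := fun t _ => p.eval t

theorem map_fn (A : List ℂ[X]) (t w : ℂ) : (A.map fn).map (fun f => f t w) = ev A t := by
  rw [List.map_map]; rfl

theorem ul_fn {L : List ℂ[X]} {p : ℂ[X]} (hp : p ∈ L) : UL L.prod (fn p) := by
  refine ⟨lr_fst p, ?_⟩
  obtain ⟨r, hr⟩ := List.dvd_prod hp
  refine ⟨C r * X, 1, fun t w ht hw => ?_⟩
  have h1 : L.prod.eval t = p.eval t * r.eval t := by rw [hr, eval_mul]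
  have h2 : p.eval t ≠ 0 := by
    intro h
    rw [h1, h, zero_mul] at ht
    exact ht rfl
  rw [bev_mul, bev_C, bev_X, h1]
  unfold fn
  field_simp

theorem ul_fnA (A B : List ℂ[X]) : ∀ g ∈ A.map fn, UL (A ++ B).prod g := by
  intro g hg
  rw [List.mem_map] at hg
  obtain ⟨p, hp, rfl⟩ := hg
  exact ul_fn (List.mem_append_left _ hp)

theorem ul_fnB (A B : List ℂ[X]) : ∀ g ∈ B.map fn, UL (A ++ B).prod g := by
  intro g hg
  rw [List.mem_map] at hg
  obtain ⟨p, hp, rfl⟩ := hg
  exact ul_fn (List.mem_append_right _ hp)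

theorem ul_snd : UL P (fun _ w => w) := ⟨lr_snd, lr_inv⟩

theorem ul_inv : UL P (fun _ w => w⁻¹) := ⟨lr_inv, by simpa using lr_snd⟩

theorem ul_const (c : ℂ) : UL P (fun _ _ => c) := ⟨lr_const c, lr_const c⁻¹⟩

theorem reg_zs (hz : S_regz) (A B : List ℂ[X]) (h : Even (A.length + B.length)) :
    LR (A ++ B).prod (fun t _ => zs (ev A t ++ ev B t)) := by
  have h1 := (hz (A ++ B).prod (A.map fn ++ B.map fn) (by
    intro f hf
    rcases List.mem_append.mp hf with hf | hf
    · exact ul_fnA A B f hf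
    · exact ul_fnB A B f hf)).1 (by simpa using h)
  refine (iff_of_eq (congrArg (LR (A ++ B).prod) ?_)).mp h1
  funext t w
  rw [List.map_append, map_fn, map_fn]

theorem reg_zoA (hz : S_regz) (A B : List ℂ[X]) (h : Odd A.length) :
    LR (A ++ B).prod (fun t _ => zo (ev A t)) := by
  have h1 := (hz (A ++ B).prod (A.map fn) (ul_fnA A B)).2 (by simpa using h)
  refine (iff_of_eq (congrArg (LR (A ++ B).prod) ?_)).mp h1
  funext t w
  rw [map_fn]

theorem reg_zoB (hz : S_regz) (A B : List ℂ[X]) (h : Odd B.length) :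
    LR (A ++ B).prod (fun t _ => zo (ev B t)) := by
  have h1 := (hz (A ++ B).prod (B.map fn) (ul_fnB A B)).2 (by simpa using h)
  refine (iff_of_eq (congrArg (LR (A ++ B).prod) ?_)).mp h1
  funext t w
  rw [map_fn]

theorem reg_tt (hz : S_regz) (A B : List ℂ[X]) (h : Even (A.length + B.length))
    (f : ℂ → ℂ → ℂ) (hf : UL (A ++ B).prod f) :
    LR (A ++ B).prod (fun t w => tt (ev A t) [] (ev B t) (f t w)) := by
  have h1 := (hz (A ++ B).prod (f :: (A.map fn ++ (B.map fn ++ []))) (by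
    intro g hg
    rw [List.append_nil] at hg
    rcases List.mem_cons.mp hg with rfl | hg
    · exact hf
    · rcases List.mem_append.mp hg with hg | hg
      · exact ul_fnA A B g hg
      · exact ul_fnB A B g hg)).2 (by simpa using h.add_one)
  refine (iff_of_eq (congrArg (LR (A ++ B).prod) ?_)).mp h1
  funext t w
  rw [List.map_cons, List.map_append, List.map_append, map_fn, map_fn]
  rfl

theorem reg_gh (hG : S_regG) (A B : List ℂ[X]) (ha : Odd A.length) (hb : Odd B.length)
    (f : ℂ → ℂ → ℂ) (hf : UL (A ++ B).prod f) :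
    LR (A ++ B).prod (fun t w => gh (ev A t) [] (ev B t) (f t w)) := by
  have h1 := hG (A ++ B).prod (A.map fn) [] (B.map fn) f (by simpa using ha) (by simpa using hb)
    (ul_fnA A B) (by simp) (ul_fnB A B) hf
  refine (iff_of_eq (congrArg (LR (A ++ B).prod) ?_)).mp h1
  funext t w
  rw [map_fn, map_fn, List.map_nil]

theorem reg_gh' (hG : S_regG) (A B : List ℂ[X]) (ha : Odd A.length) (hb : Odd B.length)
    (f : ℂ → ℂ → ℂ) (hf : UL (A ++ B).prod f) :
    LR (A ++ B).prod (fun t w => gh (ev B t) [] (ev A t) (f t w)) := by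
  have h1 := hG (A ++ B).prod (B.map fn) [] (A.map fn) f (by simpa using hb) (by simpa using ha)
    (ul_fnB A B) (by simp) (ul_fnA A B) hf
  refine (iff_of_eq (congrArg (LR (A ++ B).prod) ?_)).mp h1
  funext t w
  rw [map_fn, map_fn, List.map_nil]

theorem reg_Dh (hD : S_regD) (A B : List ℂ[X]) (ha : Odd A.length) (hb : Odd B.length)
    (f g : ℂ → ℂ → ℂ) (hf : UL (A ++ B).prod f) (hg : UL (A ++ B).prod g) :
    LR (A ++ B).prod (fun t w => Dh (ev A t) (f t w) (g t w) (ev B t)) := by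
  have h1 := hD (A ++ B).prod (A.map fn) (B.map fn) f g (by simpa using ha) (by simpa using hb)
    (ul_fnA A B) (ul_fnB A B) hf hg
  refine (iff_of_eq (congrArg (LR (A ++ B).prod) ?_)).mp h1
  funext t w
  rw [map_fn, map_fn]

/-! ### the total mass -/

theorem tt_def (A B : List ℂ) (w : ℂ) : tt A [] B w = zo (w :: (A ++ B)) := by
  unfold tt
  rw [prs_nil, List.append_nil]

theorem tt_perm {A A' B B' : List ℂ} (ha : Odd A.length) (hb : Odd B.length) (hA : A.Perm A')
    (hB : B.Perm B') (w : ℂ) : tt A [] B w = tt A' [] B' w := by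
  rw [tt_def, tt_def]
  refine zo_perm ?_ ((hA.append hB).cons _)
  rw [List.length_cons, List.length_append]
  exact (ha.add_odd hb).add_one

theorem tt_starA (A B : List ℂ) (u : ℂ) (ha : Even A.length) (hb : Odd B.length)
    (hA0 : NZ A) (hB0 : NZ B) (hu : u ≠ 0) :
    tt (u :: A) [] B (q^2 * u) * pom (om (q^2 * u)) (A ++ B) =
      tt (u :: A) [] B (q^2 * u⁻¹) * pom (om (q * u)) (A ++ B) := by
  rw [tt_def, tt_def, List.cons_append]
  refine zo_starA u (A ++ B) hu ?_ ?_
  · intro z hz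
    rcases List.mem_append.mp hz with hz | hz
    · exact hA0 z hz
    · exact hB0 z hz
  · rw [List.length_append]
    exact ha.add_odd hb

theorem tt_starB (A B : List ℂ) (v : ℂ) (ha : Odd A.length) (hb : Even B.length)
    (hA0 : NZ A) (hB0 : NZ B) (hv : v ≠ 0) :
    tt A [] (v :: B) (q * v) * pom (om (q * v)) (A ++ B) =
      tt A [] (v :: B) (q * v⁻¹) * pom (om (q^2 * v)) (A ++ B) := by
  have hl : Odd (A ++ B).length := by
    rw [List.length_append]
    exact ha.add_even hb
  have hp : ∀ w : ℂ, zo (w :: (A ++ v :: B)) = zo (w :: v :: (A ++ B)) := by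
    intro w
    refine zo_perm ?_ (List.perm_middle.cons _)
    rw [List.length_cons, List.perm_middle.length_eq, List.length_cons]
    exact (hl.add_one).add_one
  rw [tt_def, tt_def, hp, hp]
  refine zo_starB v (A ++ B) hv ?_ hl
  intro z hz
  rcases List.mem_append.mp hz with hz | hz
  · exact hA0 z hz
  · exact hB0 z hz

theorem app_nil (A B : List ℂ) : A ++ (B ++ prs []) = A ++ B := by
  rw [prs_nil, List.append_nil]

theorem nz_cons {u : ℂ} {A : List ℂ} (hu : u ≠ 0) (hA : NZ A) : NZ (u :: A) := by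
  intro z hz
  rcases List.mem_cons.mp hz with rfl | hz
  · exact hu
  · exact hA z hz

theorem q2_ne_one : q^2 ≠ 1 := by
  intro h
  have h1 := q_cube
  rw [pow_succ, h, one_mul] at h1
  exact q_ne_one h1

/-- the difference of the two sides of the determinant formula -/
noncomputable def PDet (z : ℂ) (A B : List ℂ) (w : ℂ) : ℂ :=
  zs (A ++ B) * ((w - z) * Dh A w z B) -
    (w - q*z) * (gh A [] B z * tt A [] B w - gh A [] B w * tt A [] B z)

theorem PDet_reg (hz : S_regz) (hG : S_regG) (hD : S_regD) (z : ℂ) (a b : ℕ) (ha : Odd a)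
    (hb : Odd b) : Reg a b (PDet z) := by
  rintro A B rfl rfl
  have he : Even (A.length + B.length) := ha.add_odd hb
  refine LR.m4sub ((reg_zs hz A B he).m4mul ((lr_snd.m4sub (lr_const z)).m4mul
    (reg_Dh hD A B ha hb _ _ ul_snd (ul_const z)))) ((lr_snd.m4sub (lr_const (q*z))).m4mul
    (LR.m4sub ((reg_gh hG A B ha hb _ (ul_const z)).m4mul (reg_tt hz A B he _ ul_snd))
      ((reg_gh hG A B ha hb _ ul_snd).m4mul (reg_tt hz A B he _ (ul_const z)))))

theorem PDet_perm (hp : S_perm) (hDp : S_Dperm) (z : ℂ) (hz : z ≠ 0) (a b : ℕ) (ha : Odd a)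
    (hb : Odd b) : PermInv a b (PDet z) := by
  rintro A A' B B' rfl rfl hA hB hAA hBB w hw
  unfold PDet
  rw [zs_perm (by rw [List.length_append]; exact ha.add_odd hb) (hAA.append hBB),
    hDp A A' B B' ha hb hA hB hAA hBB w z hw hz,
    hp A A' [] B B' ha hb hA (by simp [NZ]) hB hAA hBB w hw,
    hp A A' [] B B' ha hb hA (by simp [NZ]) hB hAA hBB z hz,
    tt_perm ha hb hAA hBB w, tt_perm ha hb hAA hBB z]

theorem PDet_wid (hwid : S_wid) (httwid : S_ttwid) (hDwid : S_Dwid) (z : ℂ) (hz : z ≠ 0)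
    (A B : List ℂ) (ha : Odd A.length) (hb : Odd B.length) (hA : NZ A) (hB : NZ B) :
    ∃ F : ℂ[X], F.natDegree ≤ A.length + B.length + 1 ∧ F.coeff 0 = 0 ∧
      ∀ w, w ≠ 0 → PDet z A B w * w^((A.length + B.length)/2) = F.eval w := by
  obtain ⟨cn, D, hD1, hD2, -, hD3⟩ := hDwid A B z ha hb hA hB hz
  obtain ⟨G, hG1, hG2, -, hG3⟩ := hwid A [] B ha hb hA (by simp [NZ]) hB
  obtain ⟨T, hT1, hT2, -, hT3⟩ := httwid A [] B ha hb hA (by simp [NZ]) hB
  rw [app_nil] at hG2 hT2
  simp only [List.length_nil, mul_zero, add_zero] at hG1 hG3 hT1 hT3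
  refine ⟨C (zs (A ++ B)) * ((X - C z) * D) -
    (X - C (q*z)) * (C (gh A [] B z) * T - C (tt A [] B z) * G), ?_, ?_, ?_⟩
  · refine (natDegree_sub_le _ _).trans (max_le ?_ ?_)
    · refine (natDegree_C_mul_le _ _).trans (natDegree_mul_le.trans ?_)
      have := natDegree_X_sub_C z
      omega
    · refine natDegree_mul_le.trans ?_
      have h1 := natDegree_X_sub_C (q*z)
      have h2 : (C (gh A [] B z) * T - C (tt A [] B z) * G).natDegree ≤ A.length + B.length :=
        (natDegree_sub_le _ _).trans (max_le ((natDegree_C_mul_le _ _).trans hT1)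
          ((natDegree_C_mul_le _ _).trans hG1))
      omega
  · simp only [coeff_sub, mul_coeff_zero, coeff_C_zero, coeff_X_zero, hD2, hG2, hT2]
    have h3 := q_cube
    linear_combination (z * zs (A ++ B) * mm A B * tt A [] B z) * h3
  · intro w hw
    have h1 := hD3 w hw
    have h2 := hG3 w hw
    have h3 := hT3 w hw
    simp only [eval_sub, eval_mul, eval_C, eval_X]
    rw [← h1, ← h2, ← h3]
    unfold PDet
    ring

end M4

open M4

theorem t_DET (hG1 : S_G1) (hwid : S_wid) (httwid : S_ttwid) (hperm : S_perm)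
    (hstarA : S_starA) (hstarB : S_starB) (hDexch : S_Dexch) (hDperm : S_Dperm)
    (hDstarA : S_DstarA) (hDstarB : S_DstarB) (hDwid : S_Dwid) (hregz : S_regz)
    (hregG : S_regG) (hregD : S_regD) : S_DET := by
  intro A B w z ha hb hA hB hw hz
  classical
  have hq := q_ne_zero
  have hqz : q * z ≠ 0 := mul_ne_zero hq hz
  have hne : z ≠ q * z := by
    intro h
    have h1 : (q - 1) * z = 0 := by linear_combination -h
    rcases mul_eq_zero.mp h1 with h2 | h2
    · exact q_ne_one (sub_eq_zero.mp h2)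
    · exact hz h2
  have h0 := hG1 A.length B.length (A.length + B.length + 1) ((A.length + B.length)/2) ha hb
    (X - C (q * z)) (by simpa using hqz) {z, q * z} (by
      rw [Finset.mem_insert, Finset.mem_singleton]
      push Not
      exact ⟨hz.symm, hqz.symm⟩) (PDet z) (by rw [Finset.card_pair hne])
    (PDet_reg hregz hregG hregD z _ _ ha hb) (PDet_perm hperm hDperm z hz _ _ ha hb)
    (fun A' B' hA' hB' hA0 hB0 => by
      have h := PDet_wid hwid httwid hDwid z hz A' B' (by rw [hA']; exact ha)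
        (by rw [hB']; exact hb) hA0 hB0
      rw [hA', hB'] at h
      exact h)
    ?_ ?_ ?_ A B rfl rfl hA hB w hw
  · unfold PDet at h0
    linear_combination h0
  · intro A' B' u hA' hB' hA0 hB0 hu
    have ha' : Even A'.length := by
      rw [← hA'] at ha
      exact (Nat.not_odd_iff_even).mp fun h => (Nat.not_odd_iff_even.mpr (h.add_one)) ha
    have hb' : Odd B'.length := by rw [hB']; exact hb
    have s1 := hDstarA A' B' u z ha' hb' hA0 hB0 hu hz
    have s2 := hstarA A' [] B' u ha' hb' hA0 (by simp [NZ]) hB0 hu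
    rw [app_nil] at s2
    have s3 := tt_starA A' B' u ha' hb' hA0 hB0 hu
    unfold PDet
    simp only [eval_sub, eval_X, eval_C]
    linear_combination zs ((u :: A') ++ B') * s1 -
      (q^2 * u - q * z) * (q^2 * u⁻¹ - q * z) * (gh (u :: A') [] B' z * s3 -
        tt (u :: A') [] B' z * s2)
  · intro A' B' v hA' hB' hA0 hB0 hv
    have ha' : Odd A'.length := by rw [hA']; exact ha
    have hb' : Even B'.length := by
      rw [← hB'] at hb
      exact (Nat.not_odd_iff_even).mp fun h => (Nat.not_odd_iff_even.mpr (h.add_one)) hb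
    have s1 := hDstarB A' B' v z ha' hb' hA0 hB0 hv hz
    have s2 := hstarB A' B' v ha' hb' hA0 hB0 hv
    have s3 := tt_starB A' B' v ha' hb' hA0 hB0 hv
    unfold PDet
    simp only [eval_sub, eval_X, eval_C]
    linear_combination zs (A' ++ v :: B') * s1 -
      (q * v - q * z) * (q * v⁻¹ - q * z) * (gh A' [] (v :: B') z * s3 -
        tt A' [] (v :: B') z * s2)
  · intro A' B' hA' hB' hA0 hB0 y hy
    have ha' : Odd A'.length := by rw [hA']; exact ha
    have hb' : Odd B'.length := by rw [hB']; exact hb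
    rw [Finset.mem_insert, Finset.mem_singleton] at hy
    unfold PDet
    rcases hy with rfl | rfl
    · ring
    · have h1 := hDexch A' B' (q * z) z ha' hb' hA0 hB0 hqz hz
      have h2 : (1 - q^2) * z * Dh A' (q * z) z B' = 0 := by linear_combination h1
      have h3 : Dh A' (q * z) z B' = 0 := by
        rcases mul_eq_zero.mp h2 with h4 | h4
        · rcases mul_eq_zero.mp h4 with h5 | h5
          · exact absurd (sub_eq_zero.mp h5).symm q2_ne_one
          · exact absurd h5 hz
        · exact h4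
      rw [h3]
      ring

namespace M4

/-- the difference of the two sides of the duality -/
noncomputable def PU (A B : List ℂ) (w : ℂ) : ℂ :=
  gh A [] B w + gh B [] A w⁻¹ - (zo A * zo B) * tt A [] B w

theorem PU_reg (hz : S_regz) (hG : S_regG) (a b : ℕ) (ha : Odd a) (hb : Odd b) :
    Reg a b PU := by
  rintro A B rfl rfl
  have he : Even (A.length + B.length) := ha.add_odd hb
  refine LR.m4sub ((reg_gh hG A B ha hb _ ul_snd).m4add (reg_gh' hG A B ha hb _ ul_inv))
    (((reg_zoA hz A B ha).m4mul (reg_zoB hz A B hb)).m4mul (reg_tt hz A B he _ ul_snd))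

theorem PU_perm (hp : S_perm) (a b : ℕ) (ha : Odd a) (hb : Odd b) : PermInv a b PU := by
  rintro A A' B B' rfl rfl hA hB hAA hBB w hw
  unfold PU
  rw [hp A A' [] B B' ha hb hA (by simp [NZ]) hB hAA hBB w hw,
    hp B B' [] A A' hb ha hB (by simp [NZ]) hA hBB hAA w⁻¹ (inv_ne_zero hw),
    zo_perm ha hAA, zo_perm hb hBB, tt_perm ha hb hAA hBB w]

theorem PU_wid (hwid : S_wid) (httwid : S_ttwid) (A B : List ℂ) (ha : Odd A.length)
    (hb : Odd B.length) (hA : NZ A) (hB : NZ B) :
    ∃ F : ℂ[X], F.natDegree ≤ A.length + B.length - 1 ∧ F.coeff 0 = 0 ∧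
      ∀ w, w ≠ 0 → PU A B w * w^((A.length + B.length)/2) = F.eval w := by
  obtain ⟨G, hG1, hG2, hG2', hG3⟩ := hwid A [] B ha hb hA (by simp [NZ]) hB
  obtain ⟨H, hH1, hH2, hH2', hH3⟩ := hwid B [] A hb ha hB (by simp [NZ]) hA
  obtain ⟨T, hT1, hT2, hT2', hT3⟩ := httwid A [] B ha hb hA (by simp [NZ]) hB
  rw [app_nil] at hG2 hT2 hG2' hT2' hH2 hH2'
  have hev : Even (A.length + B.length) := ha.add_odd hb
  obtain ⟨m, hm⟩ := hev
  have hpos : 0 < A.length := ha.pos
  have hm2 : (A.length + B.length)/2 = m := by omega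
  have hm3 : (B.length + A.length)/2 = m := by omega
  simp only [List.length_nil, mul_zero, add_zero, hm2, hm3] at hG1 hG2' hG3 hT1 hT2' hT3 hH1 hH2' hH3
  have hzz : zs (B ++ A) = zs (A ++ B) :=
    zs_perm (by rw [List.length_append]; exact hb.add_odd ha) List.perm_append_comm
  rw [hzz] at hH2 hH2'
  have hmm : mm B A = mm A B := by unfold mm; ring
  rw [hmm] at hH2 hH2'
  have hq := q_spec
  rw [add_comm B.length A.length] at hH1 hH2'
  set F : ℂ[X] := G + reflect (A.length + B.length) H - C (mm A B) * T with hF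
  have hcoef0 : F.coeff 0 = 0 := by
    rw [hF, coeff_sub, coeff_add, coeff_reflect, coeff_C_mul, revAt_le (Nat.zero_le _),
      Nat.sub_zero, hG2, hH2', hT2]
    linear_combination (-(mm A B * zs (A ++ B))) * hq
  have hcoefn : F.coeff (A.length + B.length) = 0 := by
    rw [hF, coeff_sub, coeff_add, coeff_reflect, coeff_C_mul, revAt_le le_rfl,
      Nat.sub_self, hG2', hH2, hT2']
    linear_combination (-(mm A B * zs (A ++ B))) * hq
  have hdeg : F.natDegree ≤ A.length + B.length := by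
    rw [hF]
    refine (natDegree_sub_le _ _).trans (max_le ((natDegree_add_le _ _).trans (max_le hG1 ?_))
      ((natDegree_C_mul_le _ _).trans hT1))
    exact natDegree_reflect_le.trans (max_le le_rfl hH1)
  refine ⟨F, ?_, hcoef0, ?_⟩
  · rw [natDegree_le_iff_coeff_eq_zero]
    intro N hN
    rcases Nat.lt_or_ge (A.length + B.length) N with h | h
    · exact coeff_eq_zero_of_natDegree_lt (lt_of_le_of_lt hdeg h)
    · have : N = A.length + B.length := by omega
      rw [this]; exact hcoefn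
  · intro w hw
    have h1 := hG3 w hw
    have h2 := hH3 w⁻¹ (inv_ne_zero hw)
    have h3 := hT3 w hw
    have h4 : (reflect (A.length + B.length) H).eval w = gh B [] A w⁻¹ * w^m := by
      let _ := invertibleOfNonzero (inv_ne_zero hw)
      have h5 := eval₂_reflect_mul_pow (RingHom.id ℂ) w⁻¹ (A.length + B.length) H hH1
      rw [invOf_eq_inv, inv_inv, eval₂_id, eval₂_id, ← h2, hm, pow_add] at h5
      have hwm : w⁻¹^m ≠ 0 := pow_ne_zero _ (inv_ne_zero hw)
      have h6 : (reflect (m + m) H).eval w * w⁻¹^m = gh B [] A w⁻¹ :=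
        mul_right_cancel₀ hwm (by rw [mul_assoc]; exact h5)
      rw [hm, ← h6, mul_assoc, ← mul_pow, inv_mul_cancel₀ hw, one_pow, mul_one]
    rw [hF, eval_sub, eval_add, eval_mul, eval_C, ← h1, ← h3, h4, hm2]
    unfold PU mm
    ring

theorem pom_comm (a : ℂ) (A B : List ℂ) : pom a (A ++ B) = pom a (B ++ A) := by
  rw [pom_app, pom_app, mul_comm]

end M4

theorem t_DUAL (hG1 : S_G1) (hwid : S_wid) (httwid : S_ttwid) (hperm : S_perm)
    (hstarA : S_starA) (hstarB : S_starB) (hregz : S_regz) (hregG : S_regG) : S_DUAL := by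
  intro A B w ha hb hA hB hw
  have hq := q_ne_zero
  have hpos : 0 < A.length := ha.pos
  have h0 := hG1 A.length B.length (A.length + B.length - 1) ((A.length + B.length)/2) ha hb
    1 (by simp) ∅ (Finset.notMem_empty _) PU (by rw [Finset.card_empty]; omega)
    (PU_reg hregz hregG _ _ ha hb) (PU_perm hperm _ _ ha hb)
    (fun A' B' hA' hB' hA0 hB0 => by
      have h := PU_wid hwid httwid A' B' (by rw [hA']; exact ha)
        (by rw [hB']; exact hb) hA0 hB0
      rw [hA', hB'] at h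
      exact h)
    ?_ ?_ (fun _ _ _ _ _ _ y hy => absurd hy (Finset.notMem_empty y)) A B rfl rfl hA hB w hw
  · unfold PU at h0
    unfold mm
    linear_combination h0
  · intro A' B' u hA' hB' hA0 hB0 hu
    have ha' : Even A'.length := by
      rw [← hA'] at ha
      exact (Nat.not_odd_iff_even).mp fun h => (Nat.not_odd_iff_even.mpr (h.add_one)) ha
    have hb' : Odd B'.length := by rw [hB']; exact hb
    have s1 := hstarB B' A' u hb' ha' hB0 hA0 hu
    have s2 := hstarA A' [] B' u ha' hb' hA0 (by simp [NZ]) hB0 hu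
    rw [app_nil] at s2
    have s3 := tt_starA A' B' u ha' hb' hA0 hB0 hu
    rw [pom_comm _ B' A', pom_comm _ B' A'] at s1
    have e1 : (q^2 * u)⁻¹ = q * u⁻¹ := by rw [mul_inv, q2inv]
    have e2 : (q^2 * u⁻¹)⁻¹ = q * u := by rw [mul_inv, q2inv, inv_inv]
    unfold PU
    simp only [eval_one, mul_one]
    rw [e1, e2]
    linear_combination s2 - s1 - (zo (u :: A') * zo B') * s3
  · intro A' B' v hA' hB' hA0 hB0 hv
    have ha' : Odd A'.length := by rw [hA']; exact ha
    have hb' : Even B'.length := by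
      rw [← hB'] at hb
      exact (Nat.not_odd_iff_even).mp fun h => (Nat.not_odd_iff_even.mpr (h.add_one)) hb
    have s1 := hstarA B' [] A' v hb' ha' hB0 (by simp [NZ]) hA0 hv
    rw [app_nil] at s1
    have s2 := hstarB A' B' v ha' hb' hA0 hB0 hv
    have s3 := tt_starB A' B' v ha' hb' hA0 hB0 hv
    rw [pom_comm _ B' A', pom_comm _ B' A'] at s1
    have e1 : (q * v)⁻¹ = q^2 * v⁻¹ := by rw [mul_inv, qinv]
    have e2 : (q * v⁻¹)⁻¹ = q^2 * v := by rw [mul_inv, qinv, inv_inv]
    unfold PU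
    simp only [eval_one, mul_one]
    rw [e1, e2]
    linear_combination s2 - s1 - (zo A' * zo (v :: B')) * s3

end Pool.Agent.NH38.Fork
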