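import Pool.Agent.NH38.Fork.Stubs

/-!
Thick slits (helper38), task M6: the two forms of the formula.
-/

set_option autoImplicit false

namespace Pool.Agent.NH38.Fork

open Pool.Agent.H988R2.Perc hiding X
open Pool.Agent.NH38.Step (om prs EE zs prF Gen)

namespace M6

theorem gF_empty {ι : Type} (x : ι → ℂ) (A B : List ℂ) (w : ℂ) :
    gF x ∅ A B w = gh A [] B w := by
  simp [gF]

theorem tF_empty {ι : Type} (x : ι → ℂ) (A B : List ℂ) (w : ℂ) :
    tF x ∅ A B w = tt A [] B w := by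
  simp [tF]

theorem key (hDET : S_DET) (A B : List ℂ) (hA : Odd A.length) (hB : Odd B.length)
    (hAn : NZ A) (hBn : NZ B) (w : ℂ) (hw : w ≠ 0) (y : ℂ) (hy : y ≠ 0) (g0 t0 : ℂ → ℂ)
    (hg : ∀ z, g0 z = gh A [] B z) (ht : ∀ z, t0 z = tt A [] B z) :
    cc g0 w y * t0 w - cc t0 w y * g0 w =
      (om w - om y) * zs (A ++ B) *
        ((1 - q^2) / 3 * ((Dh A w y B - Dh A w y⁻¹ B) / (y - y⁻¹))) := by
  have h1 := hDET A B w y hA hB hAn hBn hw hy
  have h2 := hDET A B w y⁻¹ hA hB hAn hBn hw (inv_ne_zero hy)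
  rw [← hg, ← hg, ← ht, ← ht] at h1 h2
  have e1 : om w - om y = (w - y) * (1 - (w * y)⁻¹) := by
    unfold om
    field_simp
    ring
  have e2 : om w - om y = (w - y⁻¹) * (1 - w⁻¹ * y) := by
    unfold om
    field_simp
    ring
  have e3 : (w - q*y) * (1 - (w*y)⁻¹) * (g0 y * t0 w - g0 w * t0 y) =
      (om w - om y) * (zs (A ++ B) * Dh A w y B) := by
    rw [e1]
    linear_combination (-(1 - (w * y)⁻¹)) * h1
  have e4 : (w - q*y⁻¹) * (1 - w⁻¹*y) * (g0 y⁻¹ * t0 w - g0 w * t0 y⁻¹) =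
      (om w - om y) * (zs (A ++ B) * Dh A w y⁻¹ B) := by
    rw [e2]
    linear_combination (-(1 - w⁻¹ * y)) * h2
  unfold cc
  simp only [div_eq_mul_inv]
  linear_combination ((1 - q^2) * 3⁻¹ * (y - y⁻¹)⁻¹) * e3 -
    ((1 - q^2) * 3⁻¹ * (y - y⁻¹)⁻¹) * e4

end M6

open M6

open Classical in
theorem t_FQ : S_DET → S_ZI → S_FQ := by
  intro hDET hZI ι x hx s A B hA hB hAn hBn w hw
  have hzi := hZI x hx s A B hA hB hAn hBn w hw
  unfold FP at hzi ⊢
  unfold FQ
  have hk : ∀ i, cc (gF x ∅ A B) w (x i) * tF x ∅ A B w - cc (tF x ∅ A B) w (x i) * gF x ∅ A B w =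
      (om w - om (x i)) * zs (A ++ B) *
        ((1 - q^2) / 3 * ((Dh A w (x i) B - Dh A w (x i)⁻¹ B) / (x i - (x i)⁻¹))) := fun i =>
    key hDET A B hA hB hAn hBn w hw (x i) (hx.1 i).1 _ _ (gF_empty x A B) (tF_empty x A B)
  have hsum : (∑ i ∈ s, gm x s i * (∏ j ∈ s.erase i, (om w - om (x j))) *
        cc (gF x ∅ A B) w (x i) * zs (w :: x i :: (A ++ (B ++ prF x (s.erase i))))) *
        tF x ∅ A B w -
      (∑ i ∈ s, gm x s i * (∏ j ∈ s.erase i, (om w - om (x j))) *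
        cc (tF x ∅ A B) w (x i) * zs (w :: x i :: (A ++ (B ++ prF x (s.erase i))))) *
        gF x ∅ A B w =
      (∏ j ∈ s, (om w - om (x j))) * zs (A ++ B) *
        ((1 - q^2) / 3 * ∑ i ∈ s, gm x s i *
          ((Dh A w (x i) B - Dh A w (x i)⁻¹ B) / (x i - (x i)⁻¹)) *
          zs (w :: x i :: (A ++ (B ++ prF x (s.erase i))))) := by
    rw [Finset.sum_mul, Finset.sum_mul, ← Finset.sum_sub_distrib, Finset.mul_sum, Finset.mul_sum]
    refine Finset.sum_congr rfl ?_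
    intro i hi
    have hp : (∏ j ∈ s, (om w - om (x j))) =
        (om w - om (x i)) * ∏ j ∈ s.erase i, (om w - om (x j)) :=
      (Finset.mul_prod_erase s _ hi).symm
    rw [hp]
    linear_combination (gm x s i * (∏ j ∈ s.erase i, (om w - om (x j))) *
      zs (w :: x i :: (A ++ (B ++ prF x (s.erase i))))) * hk i
  linear_combination (gF x ∅ A B w) * hzi + hsum

end Pool.Agent.NH38.Fork
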