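import Pool.Agent.NH38.Fork.Stubs

/-!
Thick slits (helper38), task M7: zeros at `w = q ζ`, `ζ ∈ B` (induction step in `b`).
-/

namespace Pool.Agent.NH38.Fork

open Pool.Agent.H988R2.Perc hiding X
open Pool.Agent.H492C (comb2 pairG up1)
open Pool.Agent.NH38.Step (om prs EE zs prF Gen on cardy pom bev)
open Polynomial

namespace M7

/-! ### closure properties of `LR` -/

theorem bev_add' (F G : ℂ[X][X]) (t w : ℂ) : bev (F + G) t w = bev F t w + bev G t w := by
  simp [Step.bev, Polynomial.map_add]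

theorem bev_Q (P : ℂ[X]) (j : ℕ) (t w : ℂ) : bev ((C P * X)^j) t w = (P.eval t * w)^j := by
  simp [Step.bev, Polynomial.map_pow, Polynomial.map_mul]

theorem LR_add {P : ℂ[X]} {f g : ℂ → ℂ → ℂ} (hf : LR P f) (hg : LR P g) :
    LR P (fun t w => f t w + g t w) := by
  obtain ⟨F, i, hF⟩ := hf
  obtain ⟨G, j, hG⟩ := hg
  refine ⟨F * (C P * X)^j + G * (C P * X)^i, i + j, fun t w ht hw => ?_⟩
  rw [bev_add', Step.bev_mul, Step.bev_mul, bev_Q, bev_Q, ← hF t w ht hw, ← hG t w ht hw]
  ring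

theorem LR_mul {P : ℂ[X]} {f g : ℂ → ℂ → ℂ} (hf : LR P f) (hg : LR P g) :
    LR P (fun t w => f t w * g t w) := by
  obtain ⟨F, i, hF⟩ := hf
  obtain ⟨G, j, hG⟩ := hg
  refine ⟨F * G, i + j, fun t w ht hw => ?_⟩
  rw [Step.bev_mul, ← hF t w ht hw, ← hG t w ht hw]
  ring

theorem LR_const (P : ℂ[X]) (c : ℂ) : LR P (fun _ _ => c) :=
  ⟨C (C c), 0, fun t w _ _ => by simp [Step.bev_C]⟩

theorem LR_sub {P : ℂ[X]} {f g : ℂ → ℂ → ℂ} (hf : LR P f) (hg : LR P g) :
    LR P (fun t w => f t w - g t w) := by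
  have := LR_add hf (LR_mul (LR_const P (-1)) hg)
  refine (congrArg (LR P) ?_).mp this
  funext t w
  ring

theorem LR_sum {ι : Type} {P : ℂ[X]} (s : Finset ι) (f : ι → ℂ → ℂ → ℂ)
    (hf : ∀ i ∈ s, LR P (f i)) : LR P (fun t w => ∑ i ∈ s, f i t w) := by
  classical
  induction s using Finset.induction_on with
  | empty =>
    have := LR_const P 0
    simpa using this
  | insert a s ha ih =>
    have h1 := LR_add (hf a (Finset.mem_insert_self _ _))
      (ih fun i hi => hf i (Finset.mem_insert_of_mem hi))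
    refine (congrArg (LR P) ?_).mp h1
    funext t w
    rw [Finset.sum_insert ha]

theorem UL_const (P : ℂ[X]) {c : ℂ} (_ : c ≠ 0) : UL P (fun _ _ => c) :=
  ⟨LR_const P c, LR_const P c⁻¹⟩

theorem UL_w (P : ℂ[X]) : UL P (fun _ w => w) := by
  refine ⟨⟨X, 0, fun t w _ _ => by simp [Step.bev]⟩, ⟨C P, 1, fun t w _ hw => ?_⟩⟩
  rw [Step.bev_C]
  field_simp

theorem UL_mul {P : ℂ[X]} {f g : ℂ → ℂ → ℂ} (hf : UL P f) (hg : UL P g) :
    UL P (fun t w => f t w * g t w) := by
  refine ⟨LR_mul hf.1 hg.1, ?_⟩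
  have := LR_mul hf.2 hg.2
  refine (congrArg (LR P) ?_).mp this
  funext t w
  rw [mul_inv]

theorem UL_p {P p : ℂ[X]} (hp : p ∣ P) : UL P (fun t _ => p.eval t) := by
  obtain ⟨r, rfl⟩ := hp
  refine ⟨⟨C p, 0, fun t w _ _ => by simp [Step.bev_C]⟩, ⟨C r * X, 1, fun t w ht hw => ?_⟩⟩
  rw [Polynomial.eval_mul] at ht
  have h1 : p.eval t ≠ 0 := left_ne_zero_of_mul ht
  have h2 := bev_Q r 1 t w
  rw [pow_one, pow_one] at h2
  rw [h2, Polynomial.eval_mul]
  field_simp

/-- the functions given by a list of polynomials in `t` -/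
noncomputable def pl (A : List ℂ[X]) : List (ℂ → ℂ → ℂ) := A.map (fun p t _ => p.eval t)

/-- constant functions -/
def ct (l : List ℂ) : List (ℂ → ℂ → ℂ) := l.map (fun c _ _ => c)

theorem pl_map (A : List ℂ[X]) (t w : ℂ) : (pl A).map (fun f => f t w) = ev A t := by
  simp [pl, ev, List.map_map, Function.comp_def]

theorem ct_map (l : List ℂ) (t w : ℂ) : (ct l).map (fun f => f t w) = l := by
  simp [ct, List.map_map, Function.comp_def]

theorem pl_length (A : List ℂ[X]) : (pl A).length = A.length := by simp [pl]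

theorem ct_length (l : List ℂ) : (ct l).length = l.length := by simp [ct]

theorem pl_UL {P : ℂ[X]} {A : List ℂ[X]} (h : ∀ p ∈ A, p ∣ P) : ∀ f ∈ pl A, UL P f := by
  intro f hf
  simp only [pl, List.mem_map] at hf
  obtain ⟨p, hp, rfl⟩ := hf
  exact UL_p (h p hp)

theorem ct_UL {P : ℂ[X]} {l : List ℂ} (h : NZ l) : ∀ f ∈ ct l, UL P f := by
  intro f hf
  simp only [ct, List.mem_map] at hf
  obtain ⟨c, hc, rfl⟩ := hf
  exact UL_const P (h c hc)

/-! ### lists of nonzero numbers -/

theorem NZ_app {l l' : List ℂ} (h : NZ l) (h' : NZ l') : NZ (l ++ l') := by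
  intro z hz
  rcases List.mem_append.1 hz with hz | hz
  · exact h z hz
  · exact h' z hz

theorem NZ_cons {v : ℂ} {l : List ℂ} (hv : v ≠ 0) (h : NZ l) : NZ (v :: l) := by
  intro z hz
  rcases List.mem_cons.1 hz with rfl | hz
  · exact hv
  · exact h z hz

theorem NZ_nil : NZ [] := fun z hz => by simp at hz

theorem NZ_prod {l : List ℂ} (h : NZ l) : l.prod ≠ 0 := List.prod_ne_zero (fun h0 => h 0 h0 rfl)

theorem NZ_prs {l : List ℂ} (h : NZ l) : NZ (prs l) := by
  intro z hz
  simp only [prs, List.mem_flatMap] at hz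
  obtain ⟨y, hy, hz⟩ := hz
  rcases List.mem_cons.1 hz with rfl | hz
  · exact h _ hy
  · rcases List.mem_cons.1 hz with rfl | hz
    · exact inv_ne_zero (h _ hy)
    · simp at hz

theorem NZ_map {ι : Type} {x : ι → ℂ} (hx : ∀ i, x i ≠ 0) (s : Finset ι) :
    NZ (s.toList.map x) := by
  intro z hz
  rw [List.mem_map] at hz
  obtain ⟨i, -, rfl⟩ := hz
  exact hx i

theorem NZ_prF {ι : Type} {x : ι → ℂ} (hx : ∀ i, x i ≠ 0) (s : Finset ι) : NZ (prF x s) :=
  NZ_prs (NZ_map hx s)

theorem NZ_perm {l l' : List ℂ} (h : NZ l) (hp : l.Perm l') : NZ l' :=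
  fun z hz => h z (hp.mem_iff.2 hz)

theorem prF_length {ι : Type} (x : ι → ℂ) (s : Finset ι) : (prF x s).length = 2 * s.card := by
  unfold Step.prF
  rw [Step.prs_length, List.length_map, Finset.length_toList]

/-! ### `zo` -/

theorem zo_perm {l l' : List ℂ} (h : Odd l.length) (hp : l.Perm l') : zo l = zo l' := by
  unfold zo
  have h1 : Even (l ++ [0]).length := by simpa using h.add_one
  rw [Z_perm h1 (hp.append_right [0]), hp.prod_eq, hp.length_eq]

theorem zo_inv (x : ℂ) (l : List ℂ) (hx : x ≠ 0) (h : Even l.length) :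
    zo (x :: l) = zo (x⁻¹ :: l) := by
  obtain ⟨m, hm⟩ := h
  unfold zo
  have h1 := Z_inv x (l ++ [0]) hx (by rw [List.length_append]; exact ⟨m, by simp [hm]; ring⟩)
  rw [List.cons_append, List.cons_append, h1]
  simp only [List.prod_cons, List.length_cons, List.length_append, List.length_nil]
  have e1 : (l.length + 1 - 1) / 2 = m := by omega
  have e2 : l.length + (0 + 1) - 1 = m + m := by omega
  rw [e1, e2, mul_pow, mul_pow, inv_pow, pow_add]
  have hxm : x^m ≠ 0 := pow_ne_zero _ hx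
  field_simp

theorem zo_rec (x : ℂ) (l : List ℂ) (hx : x ≠ 0) (hl : NZ l) (h : Odd l.length) :
    zo (x :: (q^2 * x) :: l) = -(pom (om (q * x)) l * zo l) := by
  obtain ⟨m, hm⟩ := h
  have hq := q_ne_zero
  have hp : l.prod ≠ 0 := NZ_prod hl
  have h1 := Z_rec [] (l ++ [0]) x (by simp [hm]; exact ⟨m + 1, by ring⟩)
  simp only [List.nil_append] at h1
  rw [Step.fac_app, Step.fac_zero_right, Step.fac_eq_pom x hx l hl] at h1
  unfold zo
  rw [List.cons_append, List.cons_append, h1]
  simp only [List.prod_cons, List.length_cons]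
  have e1 : (l.length + 1 + 1 - 1) / 2 = m + 1 := by omega
  have e2 : (l.length + 1 + 1 + 1) / 2 = m + 2 := by omega
  have e3 : (l.length - 1) / 2 = m := by omega
  have e4 : (l.length + 1) / 2 = m + 1 := by omega
  rw [e1, e2, e3, e4, hm]
  have hqx : q^2 * x ≠ 0 := mul_ne_zero (pow_ne_zero 2 hq) hx
  have hd1 : (x * (q^2 * x * l.prod))^(m+1) * q^((m+2) * (m+1)) ≠ 0 :=
    mul_ne_zero (pow_ne_zero _ (mul_ne_zero hx (mul_ne_zero hqx hp))) (pow_ne_zero _ hq)
  have hd2 : l.prod^m * q^((m+1)*m) ≠ 0 := mul_ne_zero (pow_ne_zero _ hp) (pow_ne_zero _ hq)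
  rw [div_eq_iff hd1]
  have e5 : -(pom (om (q * x)) l * (Z (l ++ [0]) / (l.prod^m * q^((m+1)*m)))) *
      ((x * (q^2 * x * l.prod))^(m+1) * q^((m+2) * (m+1))) =
      -(pom (om (q * x)) l * Z (l ++ [0])) * ((x * (q^2 * x * l.prod))^(m+1) *
        q^((m+2) * (m+1))) / (l.prod^m * q^((m+1)*m)) := by ring
  rw [e5, eq_div_iff hd2]
  have e6 : (m+2)*(m+1) = (m+1)*m + 2 * (m+1) := by ring
  rw [e6]
  ring

/-! ### `pom` -/

theorem pom_prs (a : ℂ) (l : List ℂ) : pom a (prs l) = (pom a l)^2 := by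
  induction l with
  | nil => simp [Step.prs, Step.pom]
  | cons y l ih =>
    have e : prs (y :: l) = y :: y⁻¹ :: prs l := rfl
    rw [e, Step.pom_cons, Step.pom_cons, Step.pom_cons, Step.om_inv, ih]
    ring

theorem pom_toList {ι : Type} (a : ℂ) (x : ι → ℂ) (s : Finset ι) :
    pom a (s.toList.map x) = ∏ j ∈ s, (a - om (x j)) := by
  unfold Step.pom
  rw [List.map_map, ← Finset.prod_map_toList]
  rfl

theorem pom_prF {ι : Type} (a : ℂ) (x : ι → ℂ) (s : Finset ι) :
    pom a (prF x s) = (∏ j ∈ s, (a - om (x j)))^2 := by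
  unfold Step.prF
  rw [pom_prs, pom_toList]

/-! ### `FQ` -/

section

variable {ι : Type} {x : ι → ℂ}

theorem FQ_perm (h1 : S_perm) (h2 : S_Dperm) (hx : ∀ i, x i ≠ 0) (s : Finset ι)
    {A A' B B' : List ℂ} (hA : Odd A.length) (hB : Odd B.length) (zA : NZ A) (zB : NZ B)
    (pA : A.Perm A') (pB : B.Perm B') {w : ℂ} (hw : w ≠ 0) :
    FQ x s A B w = FQ x s A' B' w := by
  classical
  have eg : ∀ r : Finset ι, gF x r A B w = gF x r A' B' w := fun r =>
    h1 A A' (r.toList.map x) B B' hA hB zA (NZ_map hx r) zB pA pB w hw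
  have et : ∀ r : Finset ι, tF x r A B w = tF x r A' B' w := fun r => by
    unfold tF tt
    apply zo_perm
    · have := prF_length x r
      unfold Step.prF at this
      rw [List.length_cons, List.length_append, List.length_append, this]
      obtain ⟨a, ha⟩ := hA
      obtain ⟨b, hb⟩ := hB
      exact ⟨a + b + 1 + r.card, by omega⟩
    · exact (pA.append (pB.append_right _)).cons _
  unfold FQ
  rw [eg, et, eg, et]
  refine congrArg₂ (· + ·) rfl (congrArg ((1 - q^2) / 3 * ·) (Finset.sum_congr rfl fun i hi => ?_))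
  rw [h2 A A' B B' hA hB zA zB pA pB w (x i) hw (hx i),
    h2 A A' B B' hA hB zA zB pA pB w (x i)⁻¹ hw (inv_ne_zero (hx i))]
  congr 1
  apply Step.zs_perm
  · rw [List.length_cons, List.length_cons, List.length_append, List.length_append, prF_length]
    obtain ⟨a, ha⟩ := hA
    obtain ⟨b, hb⟩ := hB
    exact ⟨a + b + 2 + (s.erase i).card, by omega⟩
  · exact ((pA.append (pB.append_right _)).cons _).cons _

theorem FQ_invB (h1 : S_invB) (h2 : S_DinvB) (hx : ∀ i, x i ≠ 0) (s : Finset ι)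
    {A B : List ℂ} (hA : Odd A.length) (hB : Even B.length) (zA : NZ A) (zB : NZ B)
    {v w : ℂ} (hv : v ≠ 0) (hw : w ≠ 0) :
    FQ x s A (v :: B) w = FQ x s A (v⁻¹ :: B) w := by
  classical
  have eg : ∀ r : Finset ι, gF x r A (v :: B) w = gF x r A (v⁻¹ :: B) w := fun r =>
    h1 A (r.toList.map x) B v hA hB zA (NZ_map hx r) zB hv w hw
  have mid : ∀ (u : ℂ) (l : List ℂ), (A ++ (u :: B ++ l)).Perm (u :: (A ++ (B ++ l))) := by
    intro u l
    rw [List.cons_append]
    exact List.perm_middle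
  have et : ∀ r : Finset ι, tF x r A (v :: B) w = tF x r A (v⁻¹ :: B) w := fun r => by
    unfold tF tt
    have hl : ∀ u : ℂ, zo (w :: (A ++ (u :: B ++ prs (r.toList.map x)))) =
        zo (u :: (w :: (A ++ (B ++ prs (r.toList.map x))))) := by
      intro u
      apply zo_perm
      · have := prF_length x r
        unfold Step.prF at this
        rw [List.length_cons, List.length_append, List.length_append, this, List.length_cons]
        obtain ⟨a, ha⟩ := hA
        obtain ⟨b, hb⟩ := hB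
        exact ⟨a + b + 1 + r.card, by omega⟩
      · exact ((mid u _).cons w).trans (List.Perm.swap _ _ _)
    rw [hl, hl]
    apply zo_inv v _ hv
    have := prF_length x r
    unfold Step.prF at this
    rw [List.length_cons, List.length_append, List.length_append, this]
    obtain ⟨a, ha⟩ := hA
    obtain ⟨b, hb⟩ := hB
    exact ⟨a + b + 1 + r.card, by omega⟩
  unfold FQ
  rw [eg, et, eg, et]
  refine congrArg₂ (· + ·) rfl (congrArg ((1 - q^2) / 3 * ·) (Finset.sum_congr rfl fun i hi => ?_))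
  rw [h2 A B v hA hB zA zB hv w (x i) hw (hx i),
    h2 A B v hA hB zA zB hv w (x i)⁻¹ hw (inv_ne_zero (hx i))]
  congr 1
  have hl : ∀ u : ℂ, zs (w :: x i :: (A ++ (u :: B ++ prF x (s.erase i)))) =
      zs (u :: (w :: x i :: (A ++ (B ++ prF x (s.erase i))))) := by
    intro u
    apply Step.zs_perm
    · rw [List.length_cons, List.length_cons, List.length_append, List.length_append, prF_length,
        List.length_cons]
      obtain ⟨a, ha⟩ := hA
      obtain ⟨b, hb⟩ := hB
      exact ⟨a + b + 2 + (s.erase i).card, by omega⟩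
    · exact (((mid u _).cons (x i)).cons w).trans
        (((List.Perm.swap _ _ _).cons w).trans (List.Perm.swap _ _ _))
  rw [hl, hl]
  apply Step.zs_inv v _ hv
  rw [List.length_cons, List.length_cons, List.length_append, List.length_append, prF_length]
  obtain ⟨a, ha⟩ := hA
  obtain ⟨b, hb⟩ := hB
  exact ⟨a + b + 1 + (s.erase i).card, by omega⟩

theorem tt_pair (A X B : List ℂ) (hA : Odd A.length) (hB : Odd B.length) (zA : NZ A) (zX : NZ X)
    (zB : NZ B) {v w : ℂ} (hv : v ≠ 0) (hw : w ≠ 0) :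
    tt A X (v :: (q^2 * v) :: B) w = -((om (q * v) - om w) * pom (om (q * v)) (A ++ B) *
      (pom (om (q * v)) X)^2 * tt A X B w) := by
  unfold tt
  have hp : (w :: (A ++ (v :: (q^2 * v) :: B ++ prs X))).Perm
      (v :: (q^2 * v) :: (w :: (A ++ (B ++ prs X)))) := by
    have h1 : (A ++ (v :: (q^2 * v) :: B ++ prs X)).Perm
        (v :: (q^2 * v) :: (A ++ (B ++ prs X))) := by
      rw [List.cons_append, List.cons_append]
      exact List.perm_middle.trans (List.perm_middle.cons v)
    exact (h1.cons w).trans ((List.Perm.swap _ _ _).trans ((List.Perm.swap _ _ _).cons v))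
  have ho : Odd (w :: (A ++ (B ++ prs X))).length := by
    rw [List.length_cons, List.length_append, List.length_append, Step.prs_length]
    obtain ⟨a, ha⟩ := hA
    obtain ⟨b, hb⟩ := hB
    exact ⟨a + b + 1 + X.length, by omega⟩
  have ho2 : Odd (w :: (A ++ (v :: (q^2 * v) :: B ++ prs X))).length := by
    rw [hp.length_eq, List.length_cons, List.length_cons]
    obtain ⟨c, hc⟩ := ho
    exact ⟨c + 1, by omega⟩
  rw [zo_perm ho2 hp, zo_rec v _ hv (NZ_cons hw (NZ_app zA (NZ_app zB (NZ_prs zX)))) ho,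
    Step.pom_cons, Step.pom_app, Step.pom_app, Step.pom_app, pom_prs]
  ring

theorem zs_pair (A B l : List ℂ) (hA : Odd A.length) (hB : Odd B.length) (hl : Even l.length)
    (zA : NZ A) (zB : NZ B) (zl : NZ l) {v w z : ℂ} (hv : v ≠ 0) (hw : w ≠ 0) (hz : z ≠ 0) :
    zs (w :: z :: (A ++ (v :: (q^2 * v) :: B ++ l))) = (om (q * v) - om w) * (om (q * v) - om z) *
      pom (om (q * v)) (A ++ B) * pom (om (q * v)) l * zs (w :: z :: (A ++ (B ++ l))) := by
  have hp : (w :: z :: (A ++ (v :: (q^2 * v) :: B ++ l))).Perm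
      (v :: (q^2 * v) :: (w :: z :: (A ++ (B ++ l)))) := by
    have h1 : (A ++ (v :: (q^2 * v) :: B ++ l)).Perm
        (v :: (q^2 * v) :: (A ++ (B ++ l))) := by
      rw [List.cons_append, List.cons_append]
      exact List.perm_middle.trans (List.perm_middle.cons v)
    have h2 : ∀ (u : ℂ) {l1 : List ℂ} {l2 : List ℂ},
        l1.Perm (v :: (q^2 * v) :: l2) → (u :: l1).Perm (v :: (q^2 * v) :: (u :: l2)) :=
      fun u l1 l2 h => (h.cons u).trans ((List.Perm.swap _ _ _).trans
        ((List.Perm.swap _ _ _).cons v))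
    exact h2 w (h2 z h1)
  have he : Even (w :: z :: (A ++ (B ++ l))).length := by
    rw [List.length_cons, List.length_cons, List.length_append, List.length_append]
    obtain ⟨a, ha⟩ := hA
    obtain ⟨b, hb⟩ := hB
    obtain ⟨c, hc⟩ := hl
    exact ⟨a + b + 2 + c, by omega⟩
  have he2 : Even (w :: z :: (A ++ (v :: (q^2 * v) :: B ++ l))).length := by
    rw [hp.length_eq, List.length_cons, List.length_cons]
    obtain ⟨c, hc⟩ := he
    exact ⟨c + 1, by omega⟩
  rw [Step.zs_perm he2 hp, Step.zs_rec v _ hv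
    (NZ_cons hw (NZ_cons hz (NZ_app zA (NZ_app zB zl)))) he,
    Step.pom_cons, Step.pom_cons, Step.pom_app, Step.pom_app, Step.pom_app]
  ring

theorem FQ_fus (h1 : S_fus) (h2 : S_Dfus) (hx : ∀ i, x i ≠ 0) (s : Finset ι)
    {A B : List ℂ} (hA : Odd A.length) (hB : Odd B.length) (zA : NZ A) (zB : NZ B)
    {v w : ℂ} (hv : v ≠ 0) (hw : w ≠ 0) :
    FQ x s A (v :: (q^2 * v) :: B) w = -((om (q * v) - om w)^2 * (pom (om (q * v)) (A ++ B))^2 *
      (∏ j ∈ s, (om (q * v) - om (x j)))^2 * pom (om (q * v)) B) * FQ x s A B w := by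
  classical
  have eg : ∀ r : Finset ι, gF x r A (v :: (q^2 * v) :: B) w =
      (om (q * v) - om w) * pom (om (q * v)) (A ++ B) *
        (∏ j ∈ r, (om (q * v) - om (x j)))^2 * pom (om (q * v)) B * gF x r A B w := fun r => by
    have h := h1 A (r.toList.map x) B v w hA hB zA (NZ_map hx r) zB hv hw
    rw [pom_prs, pom_toList] at h
    exact h
  have et : ∀ r : Finset ι, tF x r A (v :: (q^2 * v) :: B) w =
      -((om (q * v) - om w) * pom (om (q * v)) (A ++ B) *
        (∏ j ∈ r, (om (q * v) - om (x j)))^2 * tF x r A B w) := fun r => by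
    have h := tt_pair A (r.toList.map x) B hA hB zA (NZ_map hx r) zB hv hw
    rw [pom_toList] at h
    exact h
  unfold FQ
  rw [eg, et, eg, et, mul_add, mul_sub]
  congr 1
  · rw [Finset.prod_empty]
    ring
  · rw [Finset.mul_sum, Finset.mul_sum, Finset.mul_sum]
    apply Finset.sum_congr rfl
    intro i hi
    rw [h2 A B v w (x i) hA hB zA zB hv hw (hx i),
      h2 A B v w (x i)⁻¹ hA hB zA zB hv hw (inv_ne_zero (hx i)),
      zs_pair A B (prF x (s.erase i)) hA hB ⟨(s.erase i).card, by rw [prF_length]; ring⟩ zA zB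
        (NZ_prF hx _) hv hw (hx i), pom_prF, Step.om_inv, ← Finset.mul_prod_erase s _ hi]
    ring

/-! ### regularity -/

theorem FQ_reg (h1 : S_regz) (h2 : S_regG) (h3 : S_regD) (hx : ∀ i, x i ≠ 0) (s : Finset ι)
    {a β : ℕ} (ha : Odd a) (hβ : Even β) :
    Reg a β (fun A B ζ => FQ x s A (ζ :: B) (q * ζ)) := by
  classical
  intro A B hA hB
  set P : ℂ[X] := (A ++ B).prod with hP
  have uA : ∀ f ∈ pl A, UL P f := pl_UL fun p hp => by
    rw [hP, List.prod_append]
    exact (List.dvd_prod hp).mul_right _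
  have uB0 : ∀ f ∈ pl B, UL P f := pl_UL fun p hp => by
    rw [hP, List.prod_append]
    exact (List.dvd_prod hp).mul_left _
  have uB : ∀ f ∈ (fun (_ w : ℂ) => w) :: pl B, UL P f := by
    intro f hf
    rcases List.mem_cons.1 hf with rfl | hf
    · exact UL_w P
    · exact uB0 f hf
  have uq : UL P (fun _ w => q * w) := UL_mul (UL_const P q_ne_zero) (UL_w P)
  have oA : Odd (pl A).length := by rw [pl_length, hA]; exact ha
  have oB : Odd ((fun (_ w : ℂ) => w) :: pl B).length := by
    rw [List.length_cons, pl_length, hB]; exact hβ.add_one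
  have rg : ∀ r : Finset ι, LR P (fun t w => gF x r (ev A t) (w :: ev B t) (q * w)) := by
    intro r
    have h := h2 P (pl A) (ct (r.toList.map x)) ((fun (_ w : ℂ) => w) :: pl B) (fun _ w => q * w)
      oA oB uA (ct_UL (NZ_map hx r)) uB uq
    refine (congrArg (LR P) ?_).mp h
    funext t w
    rw [List.map_cons, pl_map, pl_map, ct_map]
    rfl
  have rt : ∀ r : Finset ι, LR P (fun t w => tF x r (ev A t) (w :: ev B t) (q * w)) := by
    intro r
    have h := (h1 P ((fun (_ w : ℂ) => q * w) :: (pl A ++ (((fun (_ w : ℂ) => w) :: pl B) ++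
      ct (prs (r.toList.map x))))) (by
        intro f hf
        rcases List.mem_cons.1 hf with rfl | hf
        · exact uq
        rcases List.mem_append.1 hf with hf | hf
        · exact uA f hf
        rcases List.mem_append.1 hf with hf | hf
        · exact uB f hf
        · exact ct_UL (NZ_prs (NZ_map hx r)) f hf)).2 (by
        have := prF_length x r
        unfold Step.prF at this
        rw [List.length_cons, List.length_append, List.length_append, ct_length, this]
        obtain ⟨c, hc⟩ := oA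
        obtain ⟨d, hd⟩ := oB
        exact ⟨c + d + 1 + r.card, by omega⟩)
    refine (congrArg (LR P) ?_).mp h
    funext t w
    rw [List.map_cons, List.map_append, List.map_append, List.map_cons, pl_map, pl_map, ct_map]
    rfl
  have rd : ∀ z : ℂ, z ≠ 0 → LR P (fun t w => Dh (ev A t) (q * w) z (w :: ev B t)) := by
    intro z hz
    have h := h3 P (pl A) ((fun (_ w : ℂ) => w) :: pl B) (fun _ w => q * w) (fun _ _ => z)
      oA oB uA uB uq (UL_const P hz)
    refine (congrArg (LR P) ?_).mp h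
    funext t w
    rw [List.map_cons, pl_map, pl_map]
  have rz : ∀ i, LR P (fun t w => zs (q * w :: x i :: (ev A t ++ (w :: ev B t ++
      prF x (s.erase i))))) := by
    intro i
    have h := (h1 P ((fun (_ w : ℂ) => q * w) :: (fun _ _ => x i) ::
      (pl A ++ (((fun (_ w : ℂ) => w) :: pl B) ++ ct (prF x (s.erase i))))) (by
        intro f hf
        rcases List.mem_cons.1 hf with rfl | hf
        · exact uq
        rcases List.mem_cons.1 hf with rfl | hf
        · exact UL_const P (hx i)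
        rcases List.mem_append.1 hf with hf | hf
        · exact uA f hf
        rcases List.mem_append.1 hf with hf | hf
        · exact uB f hf
        · exact ct_UL (NZ_prF hx _) f hf)).1 (by
        rw [List.length_cons, List.length_cons, List.length_append, List.length_append, ct_length,
          prF_length]
        obtain ⟨c, hc⟩ := oA
        obtain ⟨d, hd⟩ := oB
        exact ⟨c + d + 2 + (s.erase i).card, by omega⟩)
    refine (congrArg (LR P) ?_).mp h
    funext t w
    rw [List.map_cons, List.map_cons, List.map_append, List.map_append, List.map_cons, pl_map,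
      pl_map, ct_map]
  have key := LR_add (LR_sub (LR_mul (rg s) (rt ∅)) (LR_mul (rg ∅) (rt s)))
    (LR_mul (LR_const P ((1 - q^2) / 3)) (LR_sum s
      (fun i t w => gm x s i * ((Dh (ev A t) (q * w) (x i) (w :: ev B t) -
        Dh (ev A t) (q * w) (x i)⁻¹ (w :: ev B t)) / (x i - (x i)⁻¹)) *
        zs (q * w :: x i :: (ev A t ++ (w :: ev B t ++ prF x (s.erase i)))))
      (fun i _ => by
        have := LR_mul (LR_mul (LR_const P (gm x s i / (x i - (x i)⁻¹)))
          (LR_sub (rd (x i) (hx i)) (rd (x i)⁻¹ (inv_ne_zero (hx i))))) (rz i)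
        refine (congrArg (LR P) ?_).mp this
        funext t w
        ring)))
  exact key

end

/-! ### the factorisation at `w = q ζ` -/

noncomputable def pz (o : ℂ) : ℂ[X] := C (q^2) * X^2 - C o * X + C q

theorem pz_eval (o : ℂ) {ζ : ℂ} (hζ : ζ ≠ 0) : (pz o).eval ζ = ζ * (om (q^2 * ζ) - o) := by
  unfold pz
  rw [Step.om_q2]
  simp only [eval_add, eval_sub, eval_mul, eval_C, eval_pow, eval_X]
  field_simp
  ring

theorem sub_deg {p r : ℂ[X]} {n : ℕ} (hp : p.natDegree ≤ n) (hr : r.natDegree ≤ n) :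
    (p - r).natDegree ≤ n :=
  (natDegree_sub_le_of_le hp hr).trans (max_le le_rfl le_rfl)

theorem pz_deg (o : ℂ) : (pz o).natDegree ≤ 2 := by
  unfold pz
  compute_degree

noncomputable def pzF {ι : Type} (x : ι → ℂ) (s : Finset ι) : ℂ[X] := ∏ j ∈ s, pz (om (x j))

theorem pzF_eval {ι : Type} (x : ι → ℂ) (s : Finset ι) {ζ : ℂ} (hζ : ζ ≠ 0) :
    (pzF x s).eval ζ = ζ^s.card * ∏ j ∈ s, (om (q^2 * ζ) - om (x j)) := by
  unfold pzF
  rw [Polynomial.eval_prod, Finset.prod_congr rfl fun j _ => pz_eval (om (x j)) hζ,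
    Finset.prod_mul_distrib, Finset.prod_const]

theorem pzF_deg {ι : Type} (x : ι → ℂ) (s : Finset ι) : (pzF x s).natDegree ≤ 2 * s.card := by
  unfold pzF
  refine (Polynomial.natDegree_prod_le _ _).trans ?_
  refine (Finset.sum_le_sum fun j _ => pz_deg (om (x j))).trans ?_
  simp [mul_comm]

section

variable {ι : Type} {x : ι → ℂ}

theorem tt_node (A X B : List ℂ) (hA : Odd A.length) (hB : Even B.length) (zA : NZ A) (zX : NZ X)
    (zB : NZ B) {ζ : ℂ} (hζ : ζ ≠ 0) :
    tt A X (ζ :: B) (q * ζ) = -(pom (om (q^2 * ζ)) (A ++ B) * (pom (om (q^2 * ζ)) X)^2 *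
      zo (A ++ (B ++ prs X))) := by
  unfold tt
  have e0 : q^2 * (q * ζ) = ζ := by
    rw [← mul_assoc, ← pow_succ, q_cube, one_mul]
  have hp : (q * ζ :: (A ++ (ζ :: B ++ prs X))).Perm
      (q * ζ :: (q^2 * (q * ζ)) :: (A ++ (B ++ prs X))) := by
    rw [e0, List.cons_append]
    exact List.perm_middle.cons _
  have ho : Odd (A ++ (B ++ prs X)).length := by
    rw [List.length_append, List.length_append, Step.prs_length]
    obtain ⟨a, ha⟩ := hA
    obtain ⟨b, hb⟩ := hB
    exact ⟨a + b + X.length, by omega⟩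
  have ho2 : Odd (q * ζ :: (A ++ (ζ :: B ++ prs X))).length := by
    rw [hp.length_eq, List.length_cons, List.length_cons]
    obtain ⟨c, hc⟩ := ho
    exact ⟨c + 1, by omega⟩
  rw [zo_perm ho2 hp, zo_rec (q * ζ) _ (mul_ne_zero q_ne_zero hζ)
    (NZ_app zA (NZ_app zB (NZ_prs zX))) ho, Step.om_qq, Step.pom_app, Step.pom_app, Step.pom_app,
    pom_prs]
  ring

theorem zs_node (A B l : List ℂ) (hA : Odd A.length) (hB : Even B.length) (hl : Even l.length)
    (zA : NZ A) (zB : NZ B) (zl : NZ l) {ζ z : ℂ} (hζ : ζ ≠ 0) (hz : z ≠ 0) :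
    zs (q * ζ :: z :: (A ++ (ζ :: B ++ l))) = (om (q^2 * ζ) - om z) *
      pom (om (q^2 * ζ)) (A ++ B) * pom (om (q^2 * ζ)) l * zs (z :: (A ++ (B ++ l))) := by
  have e0 : q^2 * (q * ζ) = ζ := by
    rw [← mul_assoc, ← pow_succ, q_cube, one_mul]
  have hp : (q * ζ :: z :: (A ++ (ζ :: B ++ l))).Perm
      (q * ζ :: (q^2 * (q * ζ)) :: (z :: (A ++ (B ++ l)))) := by
    rw [e0, List.cons_append]
    exact ((List.perm_middle.cons z).trans (List.Perm.swap _ _ _)).cons _
  have he : Even (z :: (A ++ (B ++ l))).length := by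
    rw [List.length_cons, List.length_append, List.length_append]
    obtain ⟨a, ha⟩ := hA
    obtain ⟨b, hb⟩ := hB
    obtain ⟨c, hc⟩ := hl
    exact ⟨a + b + 1 + c, by omega⟩
  have he2 : Even (q * ζ :: z :: (A ++ (ζ :: B ++ l))).length := by
    rw [hp.length_eq, List.length_cons, List.length_cons]
    obtain ⟨c, hc⟩ := he
    exact ⟨c + 1, by omega⟩
  rw [Step.zs_perm he2 hp, Step.zs_rec (q * ζ) _ (mul_ne_zero q_ne_zero hζ)
    (NZ_cons hz (NZ_app zA (NZ_app zB zl))) he, Step.om_qq,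
    Step.pom_cons, Step.pom_app, Step.pom_app, Step.pom_app]
  ring

theorem FQ_fac (h1 : S_bnode) (h2 : S_Dnode) (hx : ∀ i, x i ≠ 0) (s : Finset ι)
    {A B : List ℂ} (hA : Odd A.length) (hB : Even B.length) (zA : NZ A) (zB : NZ B) :
    ∃ R : ℂ[X], R.natDegree ≤ B.length + 2 * s.card ∧ ∀ ζ, ζ ≠ 0 →
      FQ x s A (ζ :: B) (q * ζ) * ζ^(B.length/2 + s.card) =
        (pom (om (q^2 * ζ)) (A ++ B))^2 * (pom (om (q^2 * ζ)) (s.toList.map x))^1 * R.eval ζ := by
  classical
  obtain ⟨R1, hR1, e1⟩ := h1 A (s.toList.map x) B hA hB zA (NZ_map hx s) zB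
  obtain ⟨R2, hR2, e2⟩ := h1 A [] B hA hB zA NZ_nil zB
  choose Ra hRa ea using fun i => h2 A B (x i) hA hB zA zB (hx i)
  choose Rb hRb eb using fun i => h2 A B (x i)⁻¹ hA hB zA zB (inv_ne_zero (hx i))
  rw [List.length_map, Finset.length_toList] at hR1
  simp only [List.length_map, Finset.length_toList] at e1
  simp only [List.length_nil, mul_zero, add_zero, Step.pom_nil, mul_one] at hR2 e2
  set t0 : ℂ := zo (A ++ (B ++ prs [])) with ht0
  set ts : ℂ := zo (A ++ (B ++ prs (s.toList.map x))) with hts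
  set zl : ι → ℂ := fun i => zs (x i :: (A ++ (B ++ prF x (s.erase i)))) with hzl
  set Q : ι → ℂ[X] := fun i => C (gm x s i / (x i - (x i)⁻¹) * zl i) * (pzF x (s.erase i) *
    ((X - C (x i)) * (C (x i) * X - C q) * Ra i -
      (X - C (x i)⁻¹) * (C (x i)⁻¹ * X - C q) * Rb i)) with hQ
  refine ⟨C (-t0) * R1 - C (-ts) * (pzF x s * R2) + C ((1 - q^2) / 3) * ∑ i ∈ s, Q i, ?_, ?_⟩
  · apply natDegree_add_le_of_degree_le
    · apply sub_deg
      · exact (natDegree_C_mul_le _ _).trans hR1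
      · refine (natDegree_C_mul_le _ _).trans ((natDegree_mul_le_of_le (pzF_deg x s) hR2).trans ?_)
        omega
    · refine (natDegree_C_mul_le _ _).trans ?_
      apply natDegree_sum_le_of_forall_le
      intro i hi
      have hc : (s.erase i).card + 1 = s.card := Finset.card_erase_add_one hi
      refine (natDegree_C_mul_le _ _).trans ?_
      have hd : ∀ (z : ℂ) (R : ℂ[X]), R.natDegree ≤ B.length →
          ((X - C z) * (C z * X - C q) * R).natDegree ≤ 2 + B.length := by
        intro z R hR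
        apply natDegree_mul_le_of_le _ hR
        have g1 : (X - C z : ℂ[X]).natDegree ≤ 1 := by compute_degree
        have g2 : (C z * X - C q : ℂ[X]).natDegree ≤ 1 := by compute_degree
        exact natDegree_mul_le_of_le g1 g2
      refine (natDegree_mul_le_of_le (pzF_deg x (s.erase i))
        (sub_deg (hd _ _ (hRa i)) (hd _ _ (hRb i)))).trans ?_
      omega
  · intro ζ hζ
    have eg := e1 ζ hζ
    have eg0 := e2 ζ hζ
    have et := tt_node A (s.toList.map x) B hA hB zA (NZ_map hx s) zB hζ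
    have et0 := tt_node A [] B hA hB zA NZ_nil zB hζ
    rw [Step.pom_nil, one_pow, mul_one] at et0
    rw [pom_toList] at eg et ⊢
    set pC : ℂ := pom (om (q^2 * ζ)) (A ++ B) with hpC
    set pE : ℂ := ∏ j ∈ s, (om (q^2 * ζ) - om (x j)) with hpE
    have hsum : (∑ i ∈ s, gm x s i * ((Dh A (q * ζ) (x i) (ζ :: B) -
        Dh A (q * ζ) (x i)⁻¹ (ζ :: B)) / (x i - (x i)⁻¹)) *
        zs (q * ζ :: x i :: (A ++ (ζ :: B ++ prF x (s.erase i))))) * ζ^(B.length/2 + s.card) =
        pC^2 * pE * ∑ i ∈ s, (Q i).eval ζ := by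
      rw [Finset.sum_mul, Finset.mul_sum]
      apply Finset.sum_congr rfl
      intro i hi
      have hc : s.card = (s.erase i).card + 1 := (Finset.card_erase_add_one hi).symm
      have da := ea i ζ hζ
      have db := eb i ζ hζ
      rw [zs_node A B (prF x (s.erase i)) hA hB ⟨(s.erase i).card, by rw [prF_length]; ring⟩ zA zB
        (NZ_prF hx _) hζ (hx i), pom_prF, hpE, ← Finset.mul_prod_erase s _ hi, ← hpC]
      rw [← hpC] at da db
      simp only [hQ, hzl, eval_mul, eval_sub, eval_C, eval_X, pzF_eval x (s.erase i) hζ]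
      set Pe : ℂ := ∏ j ∈ s.erase i, (om (q^2 * ζ) - om (x j)) with hPe
      set D1 : ℂ := Dh A (q * ζ) (x i) (ζ :: B) with hD1
      set D2 : ℂ := Dh A (q * ζ) (x i)⁻¹ (ζ :: B) with hD2
      rw [hc, show B.length/2 + ((s.erase i).card + 1) = (B.length/2 + 1) + (s.erase i).card by ring,
        pow_add]
      have e5 : gm x s i * ((D1 - D2) / (x i - (x i)⁻¹)) * ((om (q^2 * ζ) - om (x i)) * pC * Pe^2 *
          zs (x i :: (A ++ (B ++ prF x (s.erase i))))) *
          (ζ^(B.length/2 + 1) * ζ^(s.erase i).card) =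
          gm x s i / (x i - (x i)⁻¹) * (D1 * ζ^(B.length/2 + 1) - D2 * ζ^(B.length/2 + 1)) *
          ((om (q^2 * ζ) - om (x i)) * pC * Pe^2 *
          zs (x i :: (A ++ (B ++ prF x (s.erase i))))) * ζ^(s.erase i).card := by ring
      rw [e5, da, db]
      ring
    unfold FQ
    have r1 : gF x s A (ζ :: B) (q * ζ) = gh A (s.toList.map x) (ζ :: B) (q * ζ) := rfl
    have r2 : gF x ∅ A (ζ :: B) (q * ζ) = gh A [] (ζ :: B) (q * ζ) := by
      unfold gF; rw [Finset.toList_empty, List.map_nil]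
    have r3 : tF x s A (ζ :: B) (q * ζ) = tt A (s.toList.map x) (ζ :: B) (q * ζ) := rfl
    have r4 : tF x ∅ A (ζ :: B) (q * ζ) = tt A [] (ζ :: B) (q * ζ) := by
      unfold tF; rw [Finset.toList_empty, List.map_nil]
    rw [r1, r2, r3, r4, et, et0]
    rw [add_mul, mul_assoc ((1 - q^2) / 3), hsum]
    simp only [eval_add, eval_sub, eval_mul, eval_C, eval_finset_sum, pzF_eval x s hζ]
    rw [← hpE]
    have e6 : (gh A (s.toList.map x) (ζ :: B) (q * ζ) * -(pC * t0) -
        gh A [] (ζ :: B) (q * ζ) * -(pC * pE^2 * ts)) * ζ^(B.length/2 + s.card) =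
        (gh A (s.toList.map x) (ζ :: B) (q * ζ) * ζ^(B.length/2 + s.card)) * -(pC * t0) -
        (gh A [] (ζ :: B) (q * ζ) * ζ^(B.length/2)) * -(pC * pE^2 * ts) * ζ^s.card := by
      rw [pow_add]; ring
    rw [e6, eg, eg0]
    ring

theorem gen_Y (hg : Gen x) (s : Finset ι) : ∃ Y : Finset ℂ, (0:ℂ) ∉ Y ∧ Y.card = 2 * s.card ∧
    ∀ y ∈ Y, ∃ i ∈ s, y = x i ∨ y = (x i)⁻¹ := by
  classical
  have inj : Function.Injective x := by
    intro i j hij
    by_contra hne
    exact (hg.2 i j hne).1 (by rw [hij])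
  refine ⟨s.image x ∪ s.image (fun i => (x i)⁻¹), ?_, ?_, ?_⟩
  · intro h
    rcases Finset.mem_union.1 h with h | h
    · obtain ⟨i, -, hi⟩ := Finset.mem_image.1 h
      exact (hg.1 i).1 hi
    · obtain ⟨i, -, hi⟩ := Finset.mem_image.1 h
      exact inv_ne_zero (hg.1 i).1 hi
  · rw [Finset.card_union_of_disjoint, Finset.card_image_of_injective _ inj,
      Finset.card_image_of_injective _ (fun i j hij => inj (inv_injective hij)), two_mul]
    rw [Finset.disjoint_left]
    intro y hy hy'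
    obtain ⟨i, -, hi⟩ := Finset.mem_image.1 hy
    obtain ⟨j, -, hj⟩ := Finset.mem_image.1 hy'
    have hj' : (x j)⁻¹ = x i := by rw [hi]; exact hj
    have h1 : x i * x j = 1 := by
      rw [← hj']; exact inv_mul_cancel₀ (hg.1 j).1
    by_cases hne : i = j
    · subst hne
      apply (hg.1 i).2
      calc (x i)^6 = (x i * x i)^3 := by ring
        _ = 1 := by rw [h1, one_pow]
    · exact (hg.2 i j hne).2 (by rw [h1, one_pow])
  · intro y hy
    rcases Finset.mem_union.1 hy with h | h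
    · obtain ⟨i, his, hi⟩ := Finset.mem_image.1 h
      exact ⟨i, his, Or.inl hi.symm⟩
    · obtain ⟨i, his, hi⟩ := Finset.mem_image.1 h
      exact ⟨i, his, Or.inr hi.symm⟩

theorem gen_pom (hg : Gen x) (s : Finset ι) {i : ι} (y : ℂ) (hy : y = x i ∨ y = (x i)⁻¹) :
    pom (om (q^2 * y)) (s.toList.map x) ≠ 0 := by
  have hxi := (hg.1 i).1
  have hy0 : y ≠ 0 := by
    rcases hy with rfl | rfl
    · exact hxi
    · exact inv_ne_zero hxi
  have q6 : (q^2)^6 = 1 := by
    calc (q^2)^6 = (q^3)^4 := by ring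
      _ = 1 := by rw [q_cube, one_pow]
  rw [pom_toList, Finset.prod_ne_zero_iff]
  intro j _ h0
  have h1 : om (q^2 * y) = om (x j) := sub_eq_zero.1 h0
  rw [Step.om_eq_iff (mul_ne_zero (pow_ne_zero 2 q_ne_zero) hy0) (hg.1 j).1] at h1
  -- sixth powers
  have q2ne : q^2 ≠ 1 := by
    intro h
    have h3 := q_cube
    have hs := q_spec
    have hq1 : q = 1 := by
      calc q = q * q^2 := by rw [h, mul_one]
        _ = q^3 := by ring
        _ = 1 := h3
    rw [hq1] at hs
    norm_num at hs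
  by_cases hij : i = j
  · subst hij
    rcases hy with rfl | rfl
    · rcases h1 with h1 | h1
      · have : (q^2 - 1) * x i = 0 := by linear_combination h1
        rcases mul_eq_zero.1 this with h | h
        · exact q2ne (sub_eq_zero.1 h)
        · exact hxi h
      · apply (hg.1 i).2
        calc (x i)^6 = (q^2)^6 * (x i)^6 := by rw [q6, one_mul]
          _ = (q^2 * x i * x i)^3 * (q^2)^3 := by ring
          _ = 1 := by rw [h1, one_pow, one_mul]; calc (q^2)^3 = (q^3)^2 := by ring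
                _ = 1 := by rw [q_cube, one_pow]
    · rcases h1 with h1 | h1
      · apply (hg.1 i).2
        have h2 : x i * x i = q^2 := by
          calc x i * x i = q^2 * (x i)⁻¹ * x i := by rw [h1]
            _ = q^2 := by rw [mul_assoc, inv_mul_cancel₀ hxi, mul_one]
        calc (x i)^6 = (x i * x i)^3 := by ring
          _ = (q^3)^2 := by rw [h2]; ring
          _ = 1 := by rw [q_cube, one_pow]
      · rw [mul_assoc, inv_mul_cancel₀ hxi, mul_one] at h1
        exact q2ne h1
  · have hg2 := hg.2 i j hij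
    rcases hy with rfl | rfl
    · rcases h1 with h1 | h1
      · apply hg2.1
        rw [← h1, mul_pow, q6, one_mul]
      · apply hg2.2
        calc (x i * x j)^6 = (q^2)^6 * (x i * x j)^6 := by rw [q6, one_mul]
          _ = (q^2 * x i * x j)^6 := by ring
          _ = 1 := by rw [h1, one_pow]
    · rcases h1 with h1 | h1
      · apply hg2.2
        have h2 : x i * x j = q^2 := by
          rw [← h1]
          field_simp
        rw [h2, q6]
      · apply hg2.1
        have h2 : q^2 * x j = x i := by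
          have : q^2 * (x i)⁻¹ * x j * x i = q^2 * x j := by field_simp
          rw [← this, h1, one_mul]
        rw [← h2, mul_pow, q6, one_mul]

end

end M7

theorem t_BN (hNL : S_NL) (h1 : S_perm) (h2 : S_invB) (h3 : S_Dperm) (h4 : S_DinvB) (h5 : S_fus)
    (h6 : S_Dfus) (h7 : S_bnode) (h8 : S_Dnode) (h9 : S_regz) (h10 : S_regG) (h11 : S_regD) :
    S_BN := by
  intro ι x hg b hb hb3 s hyp1 hyp2 A B ζ hA hB zA zB hζ
  have hx : ∀ i, x i ≠ 0 := fun i => (hg.1 i).1
  have hβ : Even B.length := by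
    obtain ⟨c, hc⟩ := hb
    exact ⟨c, by omega⟩
  obtain ⟨Y, hY0, hYc, hY⟩ := M7.gen_Y hg s
  have parB : ∀ B' : List ℂ, B'.length = B.length → Even B'.length := fun B' h => by rw [h]; exact hβ
  refine hNL A.length B.length (B.length + 2 * s.card) (B.length/2 + s.card) 2 1
    (s.toList.map x) Y hY0 (fun A B ζ => FQ x s A (ζ :: B) (q * ζ)) (by omega)
    (M7.FQ_reg h9 h10 h11 hx s hA hβ) ?_ ?_ ?_ ?_ A B rfl rfl zA zB ζ hζ
  · -- permutations
    intro A1 A2 B1 B2 lA lB zA1 zB1 pA pB w hw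
    exact M7.FQ_perm h1 h3 hx s (by rw [lA]; exact hA)
      (by rw [List.length_cons]; exact (parB B1 lB).add_one) zA1 (M7.NZ_cons hw zB1) pA (pB.cons w)
      (mul_ne_zero q_ne_zero hw)
  · intro A1 B1 lA lB zA1 zB1
    have h := M7.FQ_fac h7 h8 hx s (by rw [lA]; exact hA) (parB B1 lB) zA1 zB1
    rw [lB] at h
    exact h
  · intro A1 B1 v lA lB zA1 zB1 hv
    have oB1 : Odd B1.length := by
      obtain ⟨c, hc⟩ := hβ
      exact ⟨c - 1, by omega⟩
    have oA1 : Odd A1.length := by rw [lA]; exact hA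
    have key : ∀ u : ℂ, u ≠ 0 → FQ x s A1 (q^2 * u :: u :: B1) u = 0 := by
      intro u hu
      have hqu : q^2 * u ≠ 0 := mul_ne_zero (pow_ne_zero 2 q_ne_zero) hu
      rw [M7.FQ_perm h1 h3 hx s oA1 (by
          rw [List.length_cons, List.length_cons]; exact oB1.add_one.add_one) zA1
          (M7.NZ_cons hqu (M7.NZ_cons hu zB1)) (List.Perm.refl A1) (List.Perm.swap u (q^2 * u) B1) hu,
        M7.FQ_fus h5 h6 hx s oA1 oB1 zA1 zB1 hu hu,
        hyp1 A1 B1 oA1 (by omega) zA1 zB1 u hu, mul_zero]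
    have e3 : ∀ u : ℂ, q * (q^2 * u) = u := fun u => by
      rw [← mul_assoc, ← pow_succ', q_cube, one_mul]
    refine ⟨?_, ?_⟩
    · show FQ x s A1 (q^2 * v :: v :: B1) (q * (q^2 * v)) = 0
      rw [e3]
      exact key v hv
    · show FQ x s A1 (q^2 * v⁻¹ :: v :: B1) (q * (q^2 * v⁻¹)) = 0
      have hv' := inv_ne_zero hv
      have hqv : q^2 * v⁻¹ ≠ 0 := mul_ne_zero (pow_ne_zero 2 q_ne_zero) hv'
      rw [e3, M7.FQ_perm h1 h3 hx s oA1 (by
          rw [List.length_cons, List.length_cons]; exact oB1.add_one.add_one) zA1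
          (M7.NZ_cons hqv (M7.NZ_cons hv zB1)) (List.Perm.refl A1)
          (List.Perm.swap v (q^2 * v⁻¹) B1) hv',
        M7.FQ_invB h2 h4 hx s oA1 (by rw [List.length_cons]; exact oB1.add_one) zA1
          (M7.NZ_cons hqv zB1) hv hv',
        M7.FQ_perm h1 h3 hx s oA1 (by
          rw [List.length_cons, List.length_cons]; exact oB1.add_one.add_one) zA1
          (M7.NZ_cons hv' (M7.NZ_cons hqv zB1)) (List.Perm.refl A1)
          (List.Perm.swap (q^2 * v⁻¹) v⁻¹ B1) hv']
      exact key v⁻¹ hv'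
  · intro y hy
    obtain ⟨i, his, hiy⟩ := hY y hy
    refine ⟨M7.gen_pom hg s y hiy, fun A1 B1 lA lB zA1 zB1 => ?_⟩
    have hy0 : y ≠ 0 := fun h => hY0 (h ▸ hy)
    apply hyp2 i his y hy0 _ A1 (y :: B1) (by rw [lA]; exact hA)
      (by rw [List.length_cons, lB, hB]) zA1 (M7.NZ_cons hy0 zB1)
    rcases hiy with rfl | rfl
    · rfl
    · rw [Step.om_inv]

end Pool.Agent.NH38.Fork
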