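import Pool.Agent.NH38.Fork.Stubs
import Pool.Agent.NH38.Step.DA
import Pool.Agent.NH38.Step.C2
import Pool.Agent.H492C.P2

/-!
Thick slits: width and extreme coefficients of `gh` (helper96).
-/

namespace Pool.Agent.NH38.Fork

open Pool.Agent.H988R2.Perc hiding X
open Pool.Agent.H492C (comb2 pairG up1 comb jn)
open Pool.Agent.NH38.Step (om prs EE zs prF Gen on cardy pom bev)
open Pool.Agent.H988C
open Polynomial

namespace Q1

/-! ### the bridge to `tri` -/

theorem glue_eq (a : ℕ) (ha : Odd a) (R1 R2 : St) : glue a ha R1 R2 = comb ((a+1)/2) R1 R2 := by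
  obtain ⟨k, hk⟩ := ha
  have e : 2 * ((a+1)/2) = a + 1 := by omega
  apply St.ext'
  intro x y
  constructor
  · rintro (h | ⟨h1, h2, h3⟩ | ⟨h1, h2, h3⟩)
    · exact Or.inl h
    · exact Or.inr (Or.inl ⟨by omega, by omega, h3⟩)
    · refine Or.inr (Or.inr ⟨by omega, by omega, ?_⟩)
      rw [e]; exact h3
  · rintro (h | ⟨h1, h2, h3⟩ | ⟨h1, h2, h3⟩)
    · exact Or.inl h
    · exact Or.inr (Or.inl ⟨by omega, by omega, h3⟩)
    · refine Or.inr (Or.inr ⟨by omega, by omega, ?_⟩)
      rw [e] at h3; exact h3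

theorem pairG_tri (a b : ℕ) (ha : Odd a) (f g h : St →₀ ℂ) :
    pairG a (a+b+1) f (comb2 ((a+1)/2) g h) = tri a b ha f g h := by
  classical
  unfold pairG comb2
  rw [tri_def]
  refine Finsupp.sum_congr fun R _ => ?_
  let Φ : St → ℂ → ℂ := fun R' b' => f R * b' * (if jn a (a+b+1) R R' then 1 else 0)
  have h0 : ∀ R', Φ R' 0 = 0 := by intro R'; simp [Φ]
  have hadd : ∀ R' b c, Φ R' (b + c) = Φ R' b + Φ R' c := by intro R' b c; simp only [Φ]; ring
  show (g.sum fun R1 y => h.sum fun R2 z =>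
    Finsupp.single (comb ((a+1)/2) R1 R2) (y * z)).sum Φ = _
  rw [Finsupp.sum_sum_index h0 hadd]
  refine Finsupp.sum_congr fun R1 _ => ?_
  rw [Finsupp.sum_sum_index h0 hadd]
  refine Finsupp.sum_congr fun R2 _ => ?_
  rw [Finsupp.sum_single_index (h0 _)]
  simp only [Φ]
  rw [← glue_eq a ha R1 R2]
  have : jn a (a+b+1) R (glue a ha R1 R2) ↔ gconn a (a+b+1) R (glue a ha R1 R2) := Iff.rfl
  by_cases hc : gconn a (a+b+1) R (glue a ha R1 R2)
  · rw [if_pos hc, if_pos (this.2 hc)]; ring
  · rw [if_neg hc, if_neg (fun h => hc (this.1 h))]; ring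

/-! ### small arcs followed by a word -/

theorem comb_bot_ins (m i : ℕ) (R : St) :
    comb m St.bot (St.ins i R) = St.ins (i + 2*m) (comb m St.bot R) := by
  have hb : ∀ a b : ℕ, St.bot.rel a b ↔ a = b := fun _ _ => Iff.rfl
  apply St.ext'
  intro x y
  constructor
  · rintro (h | ⟨h1, h2, h3⟩ | ⟨h1, h2, h3 | ⟨o1, o2, n1, n2, h3⟩⟩)
    · exact Or.inl h
    · exact Or.inl ((hb _ _).1 h3)
    · left; omega
    · refine Or.inr ⟨by omega, by omega, by omega, by omega, ?_⟩
      refine Or.inr (Or.inr ?_)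
      have e : ∀ z, 2*m ≤ z → z - 2*m ≠ i + 1 → 2*m ≤ St.low (i + 2*m) z ∧
          St.low (i + 2*m) z - 2*m = St.low i (z - 2*m) := by
        intro z hz hz2
        unfold St.low
        split_ifs <;> omega
      obtain ⟨e1, e2⟩ := e x h1 n1
      obtain ⟨e3, e4⟩ := e y h2 n2
      exact ⟨e1, e3, by rw [e2, e4]; exact h3⟩
  · rintro (h | ⟨o1, o2, n1, n2, h⟩)
    · exact Or.inl h
    · have low_cases : ∀ z, St.low (i + 2*m) z = z ∧ z ≤ i + 2*m ∨
          St.low (i + 2*m) z = z - 2 ∧ i + 2*m < z := by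
        intro z; unfold St.low; split_ifs <;> omega
      have key : ∀ z, z % 2 = 1 → z ≠ i + 2*m + 1 → 2*m ≤ St.low (i + 2*m) z →
          2*m ≤ z ∧ (z - 2*m) % 2 = 1 ∧ z - 2*m ≠ i + 1 ∧
          St.low i (z - 2*m) = St.low (i + 2*m) z - 2*m := by
        intro z hz hz2 hz3
        unfold St.low at hz3 ⊢
        split_ifs at hz3 ⊢ <;> omega
      rcases h with h | ⟨h1, h2, h3⟩ | ⟨h1, h2, h3⟩
      · by_cases hm : 2*m ≤ St.low (i + 2*m) x
        · obtain ⟨k1, k2, k3, k4⟩ := key x o1 n1 hm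
          obtain ⟨l1, l2, l3, l4⟩ := key y o2 n2 (by rw [← h]; exact hm)
          refine Or.inr (Or.inr ⟨k1, l1, Or.inr ⟨k2, l2, k3, l3, ?_⟩⟩)
          rw [k4, l4, h]
          exact R.eqv.1 _
        · left
          rcases low_cases x with ⟨e1, e2⟩ | ⟨e1, e2⟩ <;> rcases low_cases y with ⟨f1, f2⟩ | ⟨f1, f2⟩ <;>
            omega
      · have h3' := (hb _ _).1 h3
        left
        rcases low_cases x with ⟨e1, e2⟩ | ⟨e1, e2⟩ <;> rcases low_cases y with ⟨f1, f2⟩ | ⟨f1, f2⟩ <;>
          omega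
      · obtain ⟨k1, k2, k3, k4⟩ := key x o1 n1 h1
        obtain ⟨l1, l2, l3, l4⟩ := key y o2 n2 h2
        refine Or.inr (Or.inr ⟨k1, l1, Or.inr ⟨k2, l2, k3, l3, ?_⟩⟩)
        rw [k4, l4]
        exact h3

theorem comb_bot_bot (m : ℕ) : comb m St.bot St.bot = St.bot := by
  have hb : ∀ a b : ℕ, St.bot.rel a b ↔ a = b := fun _ _ => Iff.rfl
  apply St.ext'
  intro x y
  constructor
  · rintro (h | ⟨h1, h2, h3⟩ | ⟨h1, h2, h3⟩)
    · exact h
    · exact h3
    · have : x - 2*m = y - 2*m := h3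
      show x = y
      omega
  · intro h; exact Or.inl h

theorem word_exists (m : ℕ) {w : Word} (hw : Dyck w) : ∀ n, w.length = 2*n →
    ∃ w', Dyck w' ∧ w'.length = 2*(m+n) ∧ Phi (m+n) w' = comb m St.bot (Phi n w) := by
  induction hw with
  | nil =>
    intro n hn
    have hn0 : n = 0 := by simpa using hn.symm
    subst hn0
    obtain ⟨w', h1, h2, h3⟩ := Step.TD.exists_bot m
    refine ⟨w', h1, by rw [h2]; ring, ?_⟩
    have : Phi 0 [] = St.bot := rfl
    rw [this, comb_bot_bot, add_zero, h3]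
  | ins i w hi hw ih =>
    intro n hn
    rw [length_ins] at hn
    obtain ⟨n, rfl⟩ : ∃ n', n = n' + 1 := ⟨n - 1, by omega⟩
    obtain ⟨w', h1, h2, h3⟩ := ih n (by omega)
    refine ⟨ins (i + 2*m) w', Dyck.ins _ _ (by omega) h1, by rw [length_ins]; omega, ?_⟩
    rw [← add_assoc, Phi_ins h1 h2 (by omega), h3, Phi_ins hw (by omega) (by omega),
      comb_bot_ins]

/-- the sliding lemma for the forked upper state -/
theorem slide_fork {a : ℕ} {ha : Odd a} {c : ℂ} (hc : c^2 + c + 1 = 0) (m b : ℕ) (hb : Odd b)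
    (l : List ℂ) (hl : l.length = b + 1) (f g : St →₀ ℂ) :
    tri a (2*m+b) ha (Cs c a (2*m+b) (Finsupp.mapDomain (St.ins (a+(2*m+b))) f)) g
      (comb2 m (Finsupp.single St.bot 1) (Psi l)) = -c^2 * mass f * mass g * mass (Psi l) := by
  obtain ⟨n, rfl⟩ := hb
  have hsingle : ∀ (R : St) (x : ℂ), comb2 m (Finsupp.single St.bot 1) (Finsupp.single R x) =
      x • Finsupp.single (comb m St.bot R) (1:ℂ) := by
    intro R x
    unfold comb2
    rw [Finsupp.sum_single_index, Finsupp.sum_single_index]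
    · rw [Finsupp.smul_single, smul_eq_mul, mul_one, one_mul]
    · simp
    · simp
  have hsum : comb2 m (Finsupp.single St.bot 1) (Psi l) = ∑ w ∈ LP (2*(n+1)),
      (Fw w l) • Finsupp.single (comb m St.bot (Phi (n+1) w)) (1:ℂ) := by
    rw [Psi_eq (n := n+1) (by omega)]
    have : ∀ s : Finset Word, comb2 m (Finsupp.single St.bot 1)
        (∑ w ∈ s, Finsupp.single (Phi (n+1) w) (Fw w l)) = ∑ w ∈ s,
        (Fw w l) • Finsupp.single (comb m St.bot (Phi (n+1) w)) (1:ℂ) := by
      classical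
      intro s
      induction s using Finset.induction_on with
      | empty => simp [comb2]
      | insert w s hw ih =>
        rw [Finset.sum_insert hw, Finset.sum_insert hw, Pool.Agent.H492C.comb2_add_right, ih,
          hsingle]
    exact this _
  rw [hsum, tri_sum_right, Psi_eq (n := n+1) (by omega), mass_sum, Finset.mul_sum]
  refine Finset.sum_congr rfl (fun w hw => ?_)
  rw [mem_LP] at hw
  obtain ⟨w', h1, h2, h3⟩ := word_exists m hw.2 (n+1) hw.1
  have h4 := slide_main (a := a) (ha := ha) hc (m+n) w' h1 (by omega) f g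
  rw [show m + n + 1 = m + (n+1) by ring, h3] at h4
  rw [tri_smul_right, show 2*m + (2*n+1) = 2*(m+n)+1 by ring, h4, mass_single]
  ring

/-! ### the glued amplitude as a linear functional -/

/-- the upper right vector -/
noncomputable def hR (m : ℕ) (B : List ℂ) : St →₀ ℂ := comb2 m (Finsupp.single St.bot 1) (up1 B)

theorem G_eq (A Y B : List ℂ) (ha : Odd A.length) (m : ℕ) (hY : Y.length = 2*m) (w : ℂ) :
    G A (w :: Y) B = tri A.length (2*m + B.length) ha (Psi (A ++ w :: ((Y ++ B) ++ [0]))) (up1 A)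
      (hR m B) := by
  unfold G U
  have e1 : ((w :: Y).length - 1) / 2 = m := by rw [List.length_cons, hY]; omega
  have e2 : A.length + (w :: Y).length + B.length = A.length + (2*m + B.length) + 1 := by
    rw [List.length_cons, hY]; ring
  have e3 : A ++ (w :: Y ++ (B ++ [0])) = A ++ w :: ((Y ++ B) ++ [0]) := by simp
  rw [e1, e2, e3, pairG_tri _ _ ha]
  rfl

theorem T_eq (A Y B : List ℂ) (w : ℂ) : T A (w :: Y) B =
    mass (Psi (A ++ w :: ((Y ++ B) ++ [0]))) * (mass (up1 A) * mass (up1 B)) := by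
  unfold T Z up1
  have e3 : A ++ (w :: Y ++ (B ++ [0])) = A ++ w :: ((Y ++ B) ++ [0]) := by simp
  rw [e3]

theorem up1_len (B : List ℂ) : (B.map (fun x => x⁻¹) ++ [0]).length = B.length + 1 := by simp

/-- polynomiality, bottom and top -/
theorem raw (A Y B : List ℂ) (ha : Odd A.length) (hb : Odd B.length) (hY : Even Y.length)
    (hYn : NZ Y) (hBn : NZ B) :
    ∃ P t : ℂ[X], P.natDegree ≤ A.length + Y.length + B.length ∧
      t.natDegree ≤ A.length + Y.length + B.length ∧
      (∀ w, G A (w :: Y) B = P.eval w) ∧ (∀ w, T A (w :: Y) B = t.eval w) ∧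
      P.coeff 0 = -q^2 * t.coeff 0 ∧
      P.coeff (A.length + Y.length + B.length) = -q * t.coeff (A.length + Y.length + B.length) := by
  obtain ⟨m, hm⟩ := hY
  have hm2 : Y.length = 2*m := by omega
  have hE : Even (A.length + (Y ++ B).length) := by
    rw [List.length_append, hm2, ← add_assoc, add_comm A.length, add_assoc]
    exact (even_two_mul m).add (ha.add_odd hb)
  have hlen : A.length + (Y ++ B).length = A.length + Y.length + B.length := by
    rw [List.length_append]; ring
  have hYB : ∀ y ∈ Y ++ B, y ≠ 0 := by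
    intro y hy
    rcases List.mem_append.mp hy with h | h
    · exact hYn y h
    · exact hBn y h
  have hYBl : (Y ++ B).length = 2*m + B.length := by rw [List.length_append, hm2]
  obtain ⟨P, hP, hP'⟩ := Step.TD.lin_poly (triL A.length (2*m + B.length) ha (up1 A) (hR m B)) A
    ((Y ++ B) ++ [0])
  obtain ⟨t, ht, ht'⟩ := Step.TD.lin_poly ((mass (up1 A) * mass (up1 B)) • massL) A
    ((Y ++ B) ++ [0])
  have hd : A.length + (Y ++ B ++ [0]).length - 1 = A.length + Y.length + B.length := by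
    rw [List.length_append, List.length_singleton, ← hlen]; omega
  rw [hd] at hP ht
  have hPe : ∀ w, G A (w :: Y) B = P.eval w := by
    intro w
    rw [G_eq A Y B ha m hm2 w, ← hP' w, triL_apply]
  have hte : ∀ w, T A (w :: Y) B = t.eval w := by
    intro w
    rw [T_eq, ← ht' w, LinearMap.smul_apply, massL_apply, smul_eq_mul]
    ring
  have hPsiT : Psi (A ++ (Y ++ B) ++ [0, 0]) = fac 0 (A ++ (Y ++ B)) • Finsupp.mapDomain
      (St.ins (A.length + (2*m + B.length))) (Psi (A ++ (Y ++ B))) := by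
    rw [Psi_zero_zero (A ++ (Y ++ B)) (by rw [List.length_append]; exact hE),
      List.length_append (as := A) (bs := Y ++ B), hYBl]
  refine ⟨P, t, hP, ht, hPe, hte, ?_, ?_⟩
  · rw [Polynomial.coeff_zero_eq_eval_zero, Polynomial.coeff_zero_eq_eval_zero, ← hPe, ← hte,
      G_eq A Y B ha m hm2 0, T_eq, exch0_all (Y ++ B) hYB A hE, hPsiT, hYBl, Cs_smul,
      tri_smul_left, mass_smul, mass_Cs q_spec, mass_mapDomain]
    unfold hR up1
    rw [slide_fork q_spec m B.length hb _ (up1_len B)]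
    ring
  · have h1 := top_gen (triL A.length (2*m + B.length) ha (up1 A) (hR m B)) A (Y ++ B) hE P
      (by rw [hlen]; exact hP) hP'
    have h2 := top_gen ((mass (up1 A) * mass (up1 B)) • massL) A (Y ++ B) hE t
      (by rw [hlen]; exact ht) ht'
    rw [hlen] at h1 h2
    rw [h1, h2, triL_apply, LinearMap.smul_apply, massL_apply, smul_eq_mul, hPsiT, hYBl, Cs_smul,
      tri_smul_left, mass_smul, mass_Cs q_sq_spec, mass_mapDomain]
    unfold hR up1
    rw [slide_fork q_sq_spec m B.length hb _ (up1_len B)]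
    have h3 := q_cube
    linear_combination (-(fac 0 (A ++ (Y ++ B))) * mass (Psi (A ++ (Y ++ B))) *
      mass (Psi (List.map (fun x => x⁻¹) A ++ [0])) *
      mass (Psi (List.map (fun x => x⁻¹) B ++ [0])) * q) * h3

end Q1

open Q1

theorem t_wid (hT : S_Teq) (hW : S_ttwid) : S_wid := by
  intro A X B ha hb hAn hXn hBn
  have hl : (prs X).length = 2 * X.length := Step.prs_length X
  have hYn : NZ (prs X) := Step.prs_ne hXn
  obtain ⟨P, t, hP, ht, hPe, hte, hbot, htop⟩ := raw A (prs X) B ha hb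
    (by rw [hl]; exact even_two_mul _) hYn hBn
  obtain ⟨F, hF, hF0, hFn, hFe⟩ := hW A X B ha hb hAn hXn hBn
  have hN : A.length + (prs X).length + B.length = A.length + B.length + 2 * X.length := by
    rw [hl]; ring
  rw [hN] at hP ht htop
  set N := A.length + B.length + 2 * X.length with hNdef
  set e := (A.length + B.length)/2 + X.length with he
  set K : ℂ := A.prod^((B.length+1)/2 + X.length) * B.prod^((A.length+1)/2 + X.length) *
    q^((e + 1) * e + (na A + na B)) with hK
  have hA0 : A.prod ≠ 0 := List.prod_ne_zero (fun h => hAn 0 h rfl)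
  have hB0 : B.prod ≠ 0 := List.prod_ne_zero (fun h => hBn 0 h rfl)
  have hK0 : K ≠ 0 := mul_ne_zero (mul_ne_zero (pow_ne_zero _ hA0) (pow_ne_zero _ hB0))
    (pow_ne_zero _ q_ne_zero)
  have hcst : ∀ w, cst A B X.length w = w^e * K := by
    intro w; unfold cst; rw [hK, he]; ring
  -- the polynomial of the total mass
  have htF : t = C (K * mm A B) * F := by
    apply Polynomial.eq_of_infinite_eval_eq
    have hinf : ({0}ᶜ : Set ℂ).Infinite := (Set.finite_singleton (0:ℂ)).infinite_compl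
    refine hinf.mono ?_
    intro w hw
    have hw0 : w ≠ 0 := by simpa using hw
    have h1 := hT A X B w ha hb hAn hXn hBn hw0
    have h2 := hFe w hw0
    simp only [Set.mem_ofPred_eq]
    rw [Polynomial.eval_mul, Polynomial.eval_C, ← h2, ← hte w, h1, hcst]
    ring
  refine ⟨C K⁻¹ * P, ?_, ?_, ?_, ?_⟩
  · exact (Polynomial.natDegree_C_mul_le _ _).trans hP
  · rw [Polynomial.coeff_C_mul, hbot, htF, Polynomial.coeff_C_mul, hF0]
    field_simp
  · rw [Polynomial.coeff_C_mul, htop, htF, Polynomial.coeff_C_mul, hFn]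
    field_simp
  · intro w hw
    rw [Polynomial.eval_mul, Polynomial.eval_C, ← hPe w]
    unfold gh
    rw [hcst]
    have hwe : w^e ≠ 0 := pow_ne_zero _ hw
    field_simp

end Pool.Agent.NH38.Fork
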