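import Pool.Agent.NH38.Fork.Stubs
import Pool.Agent.NH38.Step.DB
import Pool.Agent.H492C.G1

/-!
Thick slits, task FK-Q2 (helper80): permutations of `A` and `B`, inversion of an element of `B`.
-/

set_option autoImplicit false

namespace Pool.Agent.NH38.Fork

open Pool.Agent.H988R2.Perc hiding X
open Pool.Agent.H492C (comb2 pairG up1)
open Pool.Agent.NH38.Step (om prs EE zs prF Gen on cardy pom bev)
open Polynomial Filter Topology

namespace Q2

open Pool.Agent.NH38.Step.TD (CL eq_of_cont fw_cont bad_spec bad_finite)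

/-! ### bilinear maps -/

/-- `comb2` as a bilinear map -/
noncomputable def combL (k : ℕ) : (St →₀ ℂ) →ₗ[ℂ] (St →₀ ℂ) →ₗ[ℂ] (St →₀ ℂ) :=
  LinearMap.mk₂ ℂ (comb2 k) (fun f g h => H492C.comb2_add_left k f g h)
    (fun c f g => H492C.comb2_smul_left k c f g) (fun f g h => H492C.comb2_add_right k f g h)
    (fun c f g => H492C.comb2_smul_right k c f g)

theorem combL_apply (k : ℕ) (f g : St →₀ ℂ) : combL k f g = comb2 k f g := rfl

/-- `pairG` as a bilinear map -/
noncomputable def pairL (p r : ℕ) : (St →₀ ℂ) →ₗ[ℂ] (St →₀ ℂ) →ₗ[ℂ] ℂ :=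
  LinearMap.mk₂ ℂ (pairG p r) (fun f g h => H492C.G1w.pairG_add_left p r f g h)
    (fun c f g => H492C.G1w.pairG_smul_left p r c f g)
    (fun f g h => H492C.G1w.pairG_add_right p r f g h)
    (fun c f g => H492C.G1w.pairG_smul_right p r c f g)

theorem pairL_apply (p r : ℕ) (f g : St →₀ ℂ) : pairL p r f g = pairG p r f g := rfl

/-! ### continuous families of vectors -/

/-- a finite sum of vectors with continuous coefficients -/
def CV {E : Type} [AddCommMonoid E] [Module ℂ E] (f : ℂ → E) (t₀ : ℂ) : Prop :=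
  ∃ (ι : Type) (S : Finset ι) (v : ι → E) (c : ι → ℂ → ℂ),
    (∀ i ∈ S, ContinuousAt (c i) t₀) ∧ ∀ t, f t = ∑ i ∈ S, c i t • v i

theorem CV.const {E : Type} [AddCommMonoid E] [Module ℂ E] (v : E) (t₀ : ℂ) :
    CV (fun _ => v) t₀ :=
  ⟨Unit, {()}, fun _ => v, fun _ _ => 1, fun _ _ => continuousAt_const, fun t => by simp⟩

theorem CV.map {E F : Type} [AddCommMonoid E] [Module ℂ E] [AddCommMonoid F] [Module ℂ F]
    (T : E →ₗ[ℂ] F) {f : ℂ → E} {t₀ : ℂ} (h : CV f t₀) : CV (fun t => T (f t)) t₀ := by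
  obtain ⟨ι, S, v, c, h1, h2⟩ := h
  refine ⟨ι, S, fun i => T (v i), c, h1, fun t => ?_⟩
  show T (f t) = _
  rw [h2, map_sum]
  exact Finset.sum_congr rfl fun i _ => map_smul T _ _

theorem CV.map₂ {E F H : Type} [AddCommMonoid E] [Module ℂ E] [AddCommMonoid F] [Module ℂ F]
    [AddCommMonoid H] [Module ℂ H] (T : E →ₗ[ℂ] F →ₗ[ℂ] H) {f : ℂ → E} {g : ℂ → F} {t₀ : ℂ}
    (hf : CV f t₀) (hg : CV g t₀) : CV (fun t => T (f t) (g t)) t₀ := by
  obtain ⟨ι, S, v, c, h1, h2⟩ := hf
  obtain ⟨κ, S', v', c', h1', h2'⟩ := hg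
  refine ⟨ι × κ, S ×ˢ S', fun p => T (v p.1) (v' p.2), fun p t => c p.1 t * c' p.2 t,
    fun p hp => ?_, fun t => ?_⟩
  · rw [Finset.mem_product] at hp
    exact (h1 p.1 hp.1).mul (h1' p.2 hp.2)
  · show T (f t) (g t) = _
    rw [h2, h2', map_sum T, LinearMap.sum_apply, Finset.sum_product]
    refine Finset.sum_congr rfl fun i _ => ?_
    rw [map_sum]
    refine Finset.sum_congr rfl fun j _ => ?_
    rw [map_smul, map_smul, LinearMap.smul_apply, smul_smul, mul_comm]

theorem CV.cont {f : ℂ → ℂ} {t₀ : ℂ} (h : CV f t₀) : ContinuousAt f t₀ := by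
  obtain ⟨ι, S, v, c, h1, h2⟩ := h
  have e : f = fun t => ∑ i ∈ S, c i t • v i := funext h2
  rw [e]
  exact tendsto_finsetSum _ fun i hi => (h1 i hi).smul continuousAt_const

theorem CV.psi {N : ℕ} {l : ℂ → List ℂ} {t₀ : ℂ} (hl : CL N l t₀) :
    CV (fun t => Psi (l t)) t₀ := by
  refine ⟨Word, LP N, fun w => Finsupp.single (Phi (N / 2) w) 1, fun w t => Fw w (l t),
    fun w hw => fw_cont hw hl, fun t => ?_⟩
  show Psi (l t) = _
  unfold Psi
  rw [hl.1 t]
  refine Finset.sum_congr rfl fun w _ => ?_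
  rw [Finsupp.smul_single, smul_eq_mul, mul_one]

/-! ### the functional -/

/-- the glued amplitude with an operator on the lower vector -/
noncomputable def GT (T : (St →₀ ℂ) →ₗ[ℂ] (St →₀ ℂ)) (A l B : List ℂ) : ℂ :=
  pairG A.length (A.length + l.length + B.length) (T (Psi (A ++ (l ++ (B ++ [0])))))
    (U A ((l.length - 1) / 2) B)

/-- `T` commutes with the generators at the positions outside of `[a-1, b)` -/
def Com (T : (St →₀ ℂ) →ₗ[ℂ] (St →₀ ℂ)) (a b : ℕ) : Prop :=
  ∀ (i : ℕ) (f : St →₀ ℂ), i + 2 ≤ a ∨ b ≤ i →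
    T (Finsupp.mapDomain (St.act i) f) = Finsupp.mapDomain (St.act i) (T f)

theorem len2 (u v : List ℂ) (a b : ℂ) : (u ++ a :: b :: v).length = u.length + v.length + 2 := by
  simp only [List.length_append, List.length_cons]; ring

theorem swapA_gen (T : (St →₀ ℂ) →ₗ[ℂ] (St →₀ ℂ)) (u v l B : List ℂ) (x y : ℂ) {b : ℕ}
    (hT : Com T (u.length + v.length + 2) b)
    (hA : Odd (u.length + v.length)) (hl : Odd l.length) (hB : Odd B.length)
    (hx : x ≠ 0) (hy : y ≠ 0)
    (hxy : q * x - q^2 * y ≠ 0) (hyx : q * y - q^2 * x ≠ 0) :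
    GT T (u ++ y :: x :: v) l B = GT T (u ++ x :: y :: v) l B := by
  obtain ⟨n, hn⟩ := hA
  obtain ⟨m, hm⟩ := hB
  obtain ⟨j, hj⟩ := hl
  have hev : Even (u.length + (v ++ (l ++ (B ++ [0]))).length) := by
    simp only [List.length_append, List.length_cons, List.length_nil]
    exact ⟨n + m + j + 2, by omega⟩
  have e1 := congrArg T (Psi_exch u (v ++ (l ++ (B ++ [0]))) x y hev)
  rw [map_add, map_smul, map_smul, map_smul, hT _ _ (Or.inl (by omega))] at e1
  have e2 := H492C.g1_inv_exch u v x y ⟨n, hn⟩ hx hy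
  have hps : ∀ a b : ℂ, Psi ((u ++ a :: b :: v) ++ (l ++ (B ++ [0]))) =
      Psi (u ++ a :: b :: (v ++ (l ++ (B ++ [0])))) := by
    intro a b; congr 1; simp
  unfold GT U
  rw [len2, len2, hps, hps]
  refine H492C.g1_core _ _ u.length (by omega) (by omega) x y _ _ _ _ e1 ?_ hxy hyx
  rw [← H492C.comb2_smul_left, e2, H492C.comb2_add_left, H492C.comb2_smul_left,
    H492C.comb2_smul_left, H492C.comb2_act_left (by omega)]

theorem swapB_gen (T : (St →₀ ℂ) →ₗ[ℂ] (St →₀ ℂ)) (A l u v : List ℂ) (x y : ℂ) {a : ℕ}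
    (hT : Com T a (A.length + l.length))
    (hA : Odd A.length) (hl : Odd l.length) (hB : Odd (u.length + v.length))
    (hx : x ≠ 0) (hy : y ≠ 0)
    (hxy : q * x - q^2 * y ≠ 0) (hyx : q * y - q^2 * x ≠ 0) :
    GT T A l (u ++ y :: x :: v) = GT T A l (u ++ x :: y :: v) := by
  obtain ⟨n, hn⟩ := hA
  obtain ⟨m, hm⟩ := hB
  obtain ⟨j, hj⟩ := hl
  have hev : Even ((A ++ (l ++ u)).length + (v ++ [0]).length) := by
    simp only [List.length_append, List.length_cons, List.length_nil]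
    exact ⟨n + m + j + 2, by omega⟩
  have e1 := congrArg T (Psi_exch (A ++ (l ++ u)) (v ++ [0]) x y hev)
  rw [map_add, map_smul, map_smul, map_smul,
    hT _ _ (Or.inr (by simp only [List.length_append]; omega))] at e1
  have e2 := H492C.g1_inv_exch u v x y ⟨m, hm⟩ hx hy
  have hps : ∀ a b : ℂ, Psi (A ++ (l ++ ((u ++ a :: b :: v) ++ [0]))) =
      Psi ((A ++ (l ++ u)) ++ a :: b :: (v ++ [0])) := by
    intro a b; congr 1; simp
  have hk : (A ++ (l ++ u)).length = u.length + 2 * ((l.length - 1) / 2) +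
      2 * ((A.length + 1) / 2) := by
    simp only [List.length_append]; omega
  rw [hk] at e1
  unfold GT U
  rw [len2, len2, hps, hps]
  refine H492C.g1_core _ _ (u.length + 2 * ((l.length - 1) / 2) + 2 * ((A.length + 1) / 2))
    (by omega) (by omega) x y _ _ _ _ e1 ?_ hxy hyx
  rw [← H492C.comb2_smul_right, ← H492C.comb2_smul_right, e2, H492C.comb2_add_right,
    H492C.comb2_smul_right, H492C.comb2_smul_right, H492C.comb2_act_right,
    H492C.comb2_add_right, H492C.comb2_smul_right, H492C.comb2_smul_right,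
    H492C.comb2_act_right]

theorem up1_len2 (u v : List ℂ) (a b : ℂ) : up1 (u ++ a :: b :: v) =
    Psi (u.map (fun x => x⁻¹) ++ a⁻¹ :: b⁻¹ :: (v.map (fun x => x⁻¹) ++ [0])) := by
  unfold up1
  congr 1
  simp

theorem CV.up2 (u v : List ℂ) {f g : ℂ → ℂ} {t₀ : ℂ} (hf : ContinuousAt f t₀)
    (hg : ContinuousAt g t₀) (hf0 : f t₀ ≠ 0) (hg0 : g t₀ ≠ 0) :
    CV (fun t => up1 (u ++ f t :: g t :: v)) t₀ := by
  have e : (fun t => up1 (u ++ f t :: g t :: v)) = fun t =>
      Psi (u.map (fun x => x⁻¹) ++ (f t)⁻¹ :: (g t)⁻¹ :: (v.map (fun x => x⁻¹) ++ [0])) :=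
    funext fun t => up1_len2 u v _ _
  rw [e]
  exact CV.psi ((CL.const (u.map (fun x => x⁻¹)) t₀).append
    (((CL.const (v.map (fun x => x⁻¹) ++ [0]) t₀).cons (hg.inv₀ hg0)).cons (hf.inv₀ hf0)))

theorem GT_contA (T : (St →₀ ℂ) →ₗ[ℂ] (St →₀ ℂ)) (u v l B : List ℂ) {f g : ℂ → ℂ} {t₀ : ℂ}
    (hf : ContinuousAt f t₀) (hg : ContinuousAt g t₀) (hf0 : f t₀ ≠ 0) (hg0 : g t₀ ≠ 0) :
    ContinuousAt (fun t => GT T (u ++ f t :: g t :: v) l B) t₀ := by
  have e : (fun t => GT T (u ++ f t :: g t :: v) l B) = fun t =>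
      pairL (u.length + v.length + 2) (u.length + v.length + 2 + l.length + B.length)
        (T (Psi (u ++ f t :: g t :: (v ++ (l ++ (B ++ [0]))))))
        (combL ((u.length + v.length + 2 + 1) / 2) (up1 (u ++ f t :: g t :: v))
          (comb2 ((l.length - 1) / 2) (Finsupp.single St.bot 1) (up1 B))) := by
    funext t
    unfold GT U
    rw [len2, pairL_apply, combL_apply]
    congr 3
    simp
  rw [e]
  refine CV.cont (CV.map₂ _ (CV.map T (CV.psi (((CL.const u t₀).append
    (((CL.const (v ++ (l ++ (B ++ [0]))) t₀).cons hg).cons hf))))) ?_)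
  exact CV.map₂ _ (CV.up2 u v hf hg hf0 hg0) (CV.const _ t₀)

theorem GT_contB (T : (St →₀ ℂ) →ₗ[ℂ] (St →₀ ℂ)) (A l u v : List ℂ) {f g : ℂ → ℂ} {t₀ : ℂ}
    (hf : ContinuousAt f t₀) (hg : ContinuousAt g t₀) (hf0 : f t₀ ≠ 0) (hg0 : g t₀ ≠ 0) :
    ContinuousAt (fun t => GT T A l (u ++ f t :: g t :: v)) t₀ := by
  have e : (fun t => GT T A l (u ++ f t :: g t :: v)) = fun t =>
      pairL A.length (A.length + l.length + (u.length + v.length + 2))
        (T (Psi ((A ++ (l ++ u)) ++ f t :: g t :: (v ++ [0]))))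
        (combL ((A.length + 1) / 2) (up1 A)
          (combL ((l.length - 1) / 2) (Finsupp.single St.bot 1) (up1 (u ++ f t :: g t :: v)))) := by
    funext t
    unfold GT U
    rw [len2, pairL_apply, combL_apply, combL_apply]
    congr 3
    simp
  rw [e]
  refine CV.cont (CV.map₂ _ (CV.map T (CV.psi (((CL.const (A ++ (l ++ u)) t₀).append
    (((CL.const (v ++ [0]) t₀).cons hg).cons hf))))) ?_)
  exact CV.map₂ _ (CV.const _ t₀) (CV.map₂ _ (CV.const _ t₀) (CV.up2 u v hf hg hf0 hg0))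

theorem swapA (T : (St →₀ ℂ) →ₗ[ℂ] (St →₀ ℂ)) (u v l B : List ℂ) (x y : ℂ) {b : ℕ}
    (hT : Com T (u.length + v.length + 2) b)
    (hA : Odd (u.length + v.length)) (hl : Odd l.length) (hB : Odd B.length)
    (hx : x ≠ 0) (hy : y ≠ 0) :
    GT T (u ++ y :: x :: v) l B = GT T (u ++ x :: y :: v) l B := by
  have h1 := GT_contA T u v l B (f := fun t => t) (g := fun _ => x) (t₀ := y) continuousAt_id
    continuousAt_const hy hx
  have h2 := GT_contA T u v l B (f := fun _ => x) (g := fun t => t) (t₀ := y) continuousAt_const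
    continuousAt_id hx hy
  exact eq_of_cont h1 h2 _ (bad_finite x) (fun z hz => by
    obtain ⟨hz0, h3, h4⟩ := bad_spec x z hz
    exact swapA_gen T u v l B x z hT hA hl hB hx hz0 h3 h4)

theorem swapB (T : (St →₀ ℂ) →ₗ[ℂ] (St →₀ ℂ)) (A l u v : List ℂ) (x y : ℂ) {a : ℕ}
    (hT : Com T a (A.length + l.length))
    (hA : Odd A.length) (hl : Odd l.length) (hB : Odd (u.length + v.length))
    (hx : x ≠ 0) (hy : y ≠ 0) :
    GT T A l (u ++ y :: x :: v) = GT T A l (u ++ x :: y :: v) := by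
  have h1 := GT_contB T A l u v (f := fun t => t) (g := fun _ => x) (t₀ := y) continuousAt_id
    continuousAt_const hy hx
  have h2 := GT_contB T A l u v (f := fun _ => x) (g := fun t => t) (t₀ := y) continuousAt_const
    continuousAt_id hx hy
  exact eq_of_cont h1 h2 _ (bad_finite x) (fun z hz => by
    obtain ⟨hz0, h3, h4⟩ := bad_spec x z hz
    exact swapB_gen T A l u v x z hT hA hl hB hx hz0 h3 h4)

/-- invariance under neighbouring transpositions gives invariance under permutations -/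
theorem perm_of_swap (n : ℕ) (F : List ℂ → ℂ) (h : ∀ (u v : List ℂ) (x y : ℂ),
    u.length + v.length + 2 = n → x ≠ 0 → y ≠ 0 → F (u ++ y :: x :: v) = F (u ++ x :: y :: v))
    {l l' : List ℂ} (hp : l.Perm l') :
    ∀ u : List ℂ, (u ++ l).length = n → (∀ z ∈ u ++ l, z ≠ 0) → F (u ++ l) = F (u ++ l') := by
  induction hp with
  | nil => intro u _ _; rfl
  | @cons x l1 l2 _ ih =>
    intro u h1 h0
    have e1 : u ++ x :: l1 = (u ++ [x]) ++ l1 := by simp
    have e2 : u ++ x :: l2 = (u ++ [x]) ++ l2 := by simp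
    rw [e1] at h0 h1 ⊢
    rw [e2]
    exact ih (u ++ [x]) h1 h0
  | swap x y l =>
    intro u h1 h0
    exact h u l x y (by rw [← h1, len2]) (h0 x (by simp)) (h0 y (by simp))
  | @trans l1 l2 l3 p1 p2 ih1 ih2 =>
    intro u h1 h0
    rw [ih1 u h1 h0]
    refine ih2 u ?_ (fun z hz => h0 z ?_)
    · rw [← h1, List.length_append, List.length_append, p1.length_eq]
    · rw [List.mem_append] at hz ⊢
      rcases hz with h | h
      · exact Or.inl h
      · exact Or.inr (p1.mem_iff.mpr h)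

theorem permA (T : (St →₀ ℂ) →ₗ[ℂ] (St →₀ ℂ)) {A A' : List ℂ} (l B : List ℂ) {b : ℕ}
    (hT : Com T A.length b) (hA : Odd A.length) (hl : Odd l.length) (hB : Odd B.length)
    (h0 : NZ A) (hp : A.Perm A') : GT T A l B = GT T A' l B := by
  refine perm_of_swap A.length (fun A => GT T A l B) (fun u v x y h hx hy => ?_) hp [] rfl h0
  refine swapA T u v l B x y (by rw [h]; exact hT) ?_ hl hB hx hy
  obtain ⟨n, hn⟩ := hA
  exact ⟨n - 1, by omega⟩

theorem permB (T : (St →₀ ℂ) →ₗ[ℂ] (St →₀ ℂ)) (A l : List ℂ) {B B' : List ℂ} {a : ℕ}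
    (hT : Com T a (A.length + l.length)) (hA : Odd A.length) (hl : Odd l.length)
    (hB : Odd B.length) (h0 : NZ B) (hp : B.Perm B') : GT T A l B = GT T A l B' := by
  refine perm_of_swap B.length (fun B => GT T A l B) (fun u v x y h hx hy => ?_) hp [] rfl h0
  refine swapB T A l u v x y hT hA hl ?_ hx hy
  obtain ⟨n, hn⟩ := hB
  exact ⟨n - 1, by omega⟩

/-- inversion of the last element of `B` -/
theorem inv_last (T : (St →₀ ℂ) →ₗ[ℂ] (St →₀ ℂ)) (A l B : List ℂ) (v : ℂ)
    (hA : Odd A.length) (hl : Odd l.length) (hB : Even B.length) (hv : v ≠ 0) :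
    GT T A l (B ++ [v]) = v^(A.length + l.length) * GT T A l (B ++ [v⁻¹]) := by
  have h1 : Psi (A ++ (l ++ ((B ++ [v]) ++ [0]))) =
      v^(A.length + l.length + B.length) • Psi (A ++ (l ++ ((B ++ [v⁻¹]) ++ [0]))) := by
    have hev : Even (A ++ (l ++ B)).length := by
      obtain ⟨a, ha⟩ := hA; obtain ⟨b, hb⟩ := hB; obtain ⟨c, hc⟩ := hl
      exact ⟨a + b + c + 1, by simp only [List.length_append]; omega⟩
    have := Psi_inv0 v (A ++ (l ++ B)) hv hev
    have e : ∀ y : ℂ, A ++ (l ++ ((B ++ [y]) ++ [0])) = (A ++ (l ++ B)) ++ [y, 0] := by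
      intro y; simp
    rw [e, e, this]
    congr 2
    simp only [List.length_append]; ring
  have h2 : up1 (B ++ [v]) = (v⁻¹)^(B.length) • up1 (B ++ [v⁻¹]) := by
    have hev : Even (B.map (fun x => x⁻¹)).length := by simpa using hB
    have := Psi_inv0 v⁻¹ (B.map (fun x => x⁻¹)) (inv_ne_zero hv) hev
    have e : ∀ y : ℂ, up1 (B ++ [y]) = Psi (B.map (fun x => x⁻¹) ++ [y⁻¹, 0]) := by
      intro y; unfold up1; congr 1; simp
    rw [e, e, this, List.length_map]
  have hlen : ∀ y : ℂ, (B ++ [y]).length = B.length + 1 := by intro y; simp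
  unfold GT U
  rw [hlen, hlen, h1, h2, map_smul, H492C.G1w.pairG_smul_left, H492C.comb2_smul_right,
    H492C.comb2_smul_right, H492C.G1w.pairG_smul_right, ← mul_assoc]
  congr 1
  rw [inv_pow, pow_add v (A.length + l.length)]
  have : v^B.length ≠ 0 := pow_ne_zero _ hv
  field_simp

theorem invB (T : (St →₀ ℂ) →ₗ[ℂ] (St →₀ ℂ)) (A l B : List ℂ) (v : ℂ) {a : ℕ}
    (hT : Com T a (A.length + l.length)) (hA : Odd A.length) (hl : Odd l.length)
    (hB : Even B.length) (h0 : NZ B) (hv : v ≠ 0) :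
    GT T A l (v :: B) = v^(A.length + l.length) * GT T A l (v⁻¹ :: B) := by
  have hp : ∀ y : ℂ, y ≠ 0 → GT T A l (y :: B) = GT T A l (B ++ [y]) := by
    intro y hy
    refine permB T A l hT hA hl (by rw [List.length_cons]; exact hB.add_one) ?_
      (List.perm_append_singleton y B).symm
    intro z hz
    rcases List.mem_cons.1 hz with h | h
    · rw [h]; exact hy
    · exact h0 z h
  rw [hp v hv, hp v⁻¹ (inv_ne_zero hv), inv_last T A l B v hA hl hB hv]

theorem com_id (a b : ℕ) : Com LinearMap.id a b := fun _ _ _ => rfl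

theorem G_eq (A l B : List ℂ) : G A l B = GT LinearMap.id A l B := rfl

theorem odd_len (w : ℂ) (X : List ℂ) : Odd (w :: prs X).length := by
  rw [List.length_cons, Pool.Agent.NH38.Step.prs_length]
  exact ⟨X.length, rfl⟩

end Q2

open Q2

theorem t_perm : S_perm := by
  intro A A' X B B' hA hB hA0 _ hB0 hpA hpB w _
  unfold gh
  have h1 : G A (w :: prs X) B = G A' (w :: prs X) B' := by
    rw [G_eq, G_eq, permA LinearMap.id (w :: prs X) B (b := 0) (com_id _ _) hA (odd_len w X) hB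
      hA0 hpA]
    exact permB LinearMap.id A' (w :: prs X) (a := 0) (com_id _ _) (by rw [← hpA.length_eq]; exact hA)
      (odd_len w X) hB hB0 hpB
  have h2 : cst A B X.length w = cst A' B' X.length w := by
    unfold cst na
    rw [hpA.length_eq, hpB.length_eq, hpA.prod_eq, hpB.prod_eq]
  rw [h1, h2]

theorem t_invB : S_invB := by
  intro A X B v hA hB hA0 _ hB0 hv w _
  unfold gh
  have h1 := invB LinearMap.id A (w :: prs X) B v (a := 0) (com_id _ _) hA (odd_len w X) hB hB0 hv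
  rw [← G_eq, ← G_eq] at h1
  have e : A.length + (w :: prs X).length = ((A.length + 1) / 2 + X.length) +
      ((A.length + 1) / 2 + X.length) := by
    rw [List.length_cons, Pool.Agent.NH38.Step.prs_length]
    obtain ⟨n, hn⟩ := hA
    omega
  rw [e] at h1
  have hvn : v^((A.length + 1) / 2 + X.length) ≠ 0 := pow_ne_zero _ hv
  have h2 : cst A (v :: B) X.length w =
      (v^((A.length + 1) / 2 + X.length) * v^((A.length + 1) / 2 + X.length)) *
        cst A (v⁻¹ :: B) X.length w := by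
    unfold cst na
    simp only [List.length_cons, List.prod_cons, mul_pow, inv_pow]
    field_simp
  rw [h1, h2, ← pow_add, mul_div_mul_left _ _ (by rw [pow_add]; exact mul_ne_zero hvn hvn)]

end Pool.Agent.NH38.Fork
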