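import Pool.Agent.NH38.Fork.Stubs
import Pool.Agent.NH38.Step.DB
import Pool.Agent.H492C.P1
import Pool.Agent.H492C.P2

/-!
Thick slits, task Q3 (helper19): `gh` depends only on the multiset of the reflected pairs.
-/

namespace Pool.Agent.NH38.Fork

open Pool.Agent.H988R2.Perc hiding X
open Pool.Agent.H492C (comb2 pairG up1 comb)
open Pool.Agent.NH38.Step (om prs EE zs prF Gen on cardy pom bev)
open Polynomial Filter Topology

namespace Q3

open Pool.Agent.NH38.Step.TD (CL lin_cont eq_of_cont pair_core prs_cons prs_append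
  badP_spec)

/-- `pairG` as a linear map in the first argument -/
noncomputable def pL (p r : ℕ) (g : St →₀ ℂ) : (St →₀ ℂ) →ₗ[ℂ] ℂ where
  toFun f := pairG p r f g
  map_add' f f' := Pool.Agent.H492C.pairG_add_left p r f f' g
  map_smul' c f := by simpa using Pool.Agent.H492C.pairG_smul_left p r c f g

theorem pL_apply (p r : ℕ) (f g : St →₀ ℂ) : pL p r g f = pairG p r f g := rfl

/-- small arcs are not changed -/
theorem act_comb_bot {m i : ℕ} (hi : Even i) (h : i + 1 < 2 * m) (R' : St) :
    St.act i (comb m St.bot R') = comb m St.bot R' := by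
  have hi' := Nat.even_iff.mp hi
  have hb : ∀ a b : ℕ, St.bot.rel a b ↔ a = b := fun _ _ => Iff.rfl
  apply St.ext'
  intro x y
  rw [St.act_rel]
  constructor
  · rintro (h0 | ⟨h1, h2, h3, h4, h5 | ⟨h5, h6⟩ | ⟨h5, h6⟩⟩)
    · subst h0; exact (comb m St.bot R').eqv.refl _
    · exact h5
    · rcases (comb m St.bot R').odd _ _ h5 with k | k
      · omega
      · omega
    · rcases (comb m St.bot R').odd _ _ h6 with k | k
      · omega
      · omega
  · intro h0
    rcases (comb m St.bot R').odd _ _ h0 with k | ⟨k1, k2⟩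
    · exact Or.inl k
    · by_cases hxy : x = y
      · exact Or.inl hxy
      · refine Or.inr ⟨k1, k2, ?_, ?_, Or.inl h0⟩
        · rintro rfl
          rcases h0 with h0 | ⟨m1, m2, m3⟩ | ⟨m1, m2, m3⟩
          · exact hxy h0
          · exact hxy ((hb _ _).1 m3)
          · omega
        · rintro rfl
          rcases h0 with h0 | ⟨m1, m2, m3⟩ | ⟨m1, m2, m3⟩
          · exact hxy h0
          · exact hxy ((hb _ _).1 m3)
          · omega

theorem comb2_single (k : ℕ) (R : St) (g : St →₀ ℂ) :
    comb2 k (Finsupp.single R 1) g = Finsupp.mapDomain (comb k R) g := by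
  unfold comb2
  rw [Finsupp.sum_single_index (Pool.Agent.H492C.comb2_inner_zero k R g)]
  unfold Finsupp.mapDomain
  simp

theorem act_comb2_bot {m i : ℕ} (hi : Even i) (h : i + 1 < 2 * m) (g : St →₀ ℂ) :
    Finsupp.mapDomain (St.act i) (comb2 m (Finsupp.single St.bot 1) g) =
      comb2 m (Finsupp.single St.bot 1) g := by
  rw [comb2_single, ← Finsupp.mapDomain_comp]
  congr 1
  funext R'
  exact act_comb_bot hi h R'

theorem act_U {A B : List ℂ} (ha : Odd A.length) {m j : ℕ} (hj : Even j) (h : j + 1 < 2 * m) :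
    Finsupp.mapDomain (St.act (j + (A.length + 1))) (U A m B) = U A m B := by
  have e : A.length + 1 = 2 * ((A.length + 1) / 2) := by
    obtain ⟨n, hn⟩ := ha; omega
  unfold U
  conv_lhs => rw [e]
  rw [← e]
  conv_lhs => rw [show j + (A.length + 1) = j + 2 * ((A.length + 1) / 2) by omega]
  rw [← Pool.Agent.H492C.comb2_act_right, act_comb2_bot hj h]

theorem L_act {A B : List ℂ} (ha : Odd A.length) {m j r : ℕ} (hj : Even j) (h : j + 1 < 2 * m)
    (hr : j + A.length + 2 < r) (f : St →₀ ℂ) :
    pL A.length r (U A m B) (Finsupp.mapDomain (St.act (j + (A.length + 1))) f) =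
      pL A.length r (U A m B) f := by
  rw [pL_apply, pL_apply, Pool.Agent.H492C.pairG_act (by omega) (by omega), act_U ha hj h]

theorem G_eq (A B : List ℂ) (w : ℂ) (Y : List ℂ) {m r : ℕ} (hm : Y.length = 2 * m)
    (hr : r = A.length + (Y.length + 1) + B.length) :
    G A (w :: Y) B = pL A.length r (U A m B) (Psi ((A ++ w :: Y) ++ (B ++ [0]))) := by
  subst hr
  have e : ((w :: Y).length - 1) / 2 = m := by rw [List.length_cons, hm]; omega
  unfold G
  rw [pL_apply, e, List.length_cons]
  congr 2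
  simp

theorem swapY_gen (A B Y1 Y2 : List ℂ) (ha : Odd A.length) (hb : Odd B.length)
    (h1 : Even Y1.length) (h2 : Even Y2.length) (w x y : ℂ) (hne : q * x - q^2 * y ≠ 0) :
    G A (w :: (Y1 ++ y :: x :: Y2)) B = G A (w :: (Y1 ++ x :: y :: Y2)) B := by
  obtain ⟨n1, hn1⟩ := h1
  obtain ⟨n2, hn2⟩ := h2
  have hl : ∀ a b : ℂ, (Y1 ++ a :: b :: Y2).length = 2 * (n1 + n2 + 1) := by
    intro a b; simp only [List.length_append, List.length_cons]; omega
  have hps : ∀ a b : ℂ, Psi ((A ++ w :: (Y1 ++ a :: b :: Y2)) ++ (B ++ [0])) =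
      Psi ((A ++ w :: Y1) ++ a :: b :: (Y2 ++ (B ++ [0]))) := by
    intro a b; congr 1; simp
  have hk : (A ++ w :: Y1).length = Y1.length + (A.length + 1) := by
    simp only [List.length_append, List.length_cons]; omega
  have e1 := Psi_exch (A ++ w :: Y1) (Y2 ++ (B ++ [0])) x y (by
    rw [hk]
    simp only [List.length_append, List.length_cons, List.length_nil]
    obtain ⟨n, hn⟩ := ha
    obtain ⟨m, hm⟩ := hb
    exact ⟨n + m + n1 + n2 + 2, by omega⟩)
  rw [hk] at e1
  set r := A.length + (2 * (n1 + n2 + 1) + 1) + B.length with hr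
  rw [G_eq A B w _ (hl y x) (r := r) (by rw [hl]), G_eq A B w _ (hl x y) (r := r) (by rw [hl]),
    hps, hps]
  apply mul_left_cancel₀ hne
  have hE : Even Y1.length := ⟨n1, hn1⟩
  have e2 := congrArg (pL A.length r (U A (n1 + n2 + 1) B)) e1
  rw [map_add, map_smul, map_smul, map_smul, L_act ha hE (by omega) (by omega)] at e2
  simp only [smul_eq_mul] at e2
  have hq := q_spec
  linear_combination e2 + ((y - x) * pL A.length r (U A (n1 + n2 + 1) B)
    (Psi ((A ++ w :: Y1) ++ x :: y :: (Y2 ++ (B ++ [0]))))) * hq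

theorem swapP_gen (A B X1 X2 : List ℂ) (ha : Odd A.length) (hb : Odd B.length) (w x y : ℂ)
    (hx : x ≠ 0) (hy : y ≠ 0)
    (d1 : q * x⁻¹ - q^2 * y ≠ 0) (d2 : q * x - q^2 * y ≠ 0) (d3 : q * x⁻¹ - q^2 * y⁻¹ ≠ 0)
    (d4 : q * x - q^2 * y⁻¹ ≠ 0) :
    G A (w :: prs (X1 ++ y :: x :: X2)) B = G A (w :: prs (X1 ++ x :: y :: X2)) B := by
  have hpl : ∀ X : List ℂ, (prs X).length = 2 * X.length := fun X =>
    Pool.Agent.NH38.Step.prs_length X
  have hl : ∀ a b : ℂ, (prs (X1 ++ a :: b :: X2)).length = 2 * (X1.length + X2.length + 2) := by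
    intro a b
    rw [hpl]; simp only [List.length_append, List.length_cons]; ring
  have hps : ∀ a b : ℂ, Psi ((A ++ w :: prs (X1 ++ a :: b :: X2)) ++ (B ++ [0])) =
      Psi ((A ++ w :: prs X1) ++ a :: a⁻¹ :: b :: b⁻¹ :: (prs X2 ++ (B ++ [0]))) := by
    intro a b; congr 1
    rw [prs_append, prs_cons, prs_cons]; simp
  have hk : (A ++ w :: prs X1).length = 2 * X1.length + (A.length + 1) := by
    simp only [List.length_append, List.length_cons, hpl]; omega
  set U0 := A ++ w :: prs X1 with hU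
  set V := prs X2 ++ (B ++ [0]) with hV
  have hVl : V.length = 2 * X2.length + (B.length + 1) := by
    rw [hV]; simp only [List.length_append, List.length_cons, List.length_nil, hpl]
  have hUe : Even U0.length := by
    rw [hk]; exact (even_two_mul _).add ha.add_one
  have hVe : Even V.length := by rw [hVl]; exact (even_two_mul _).add hb.add_one
  set r := A.length + (2 * (X1.length + X2.length + 2) + 1) + B.length with hr
  rw [G_eq A B w _ (hl y x) (r := r) (by rw [hl]), G_eq A B w _ (hl x y) (r := r) (by rw [hl]),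
    hps, hps]
  -- the exchanges
  have e1 := Psi_exch (U0 ++ [x]) (y⁻¹ :: V) x⁻¹ y (by
    simp only [List.length_append, List.length_cons, List.length_nil]
    obtain ⟨m, hm⟩ := hUe
    obtain ⟨n, hn⟩ := hVe
    exact ⟨m + n + 1, by omega⟩)
  have e2 := Psi_exch U0 (x⁻¹ :: y⁻¹ :: V) x y (by
    simp only [List.length_cons]
    obtain ⟨m, hm⟩ := hUe
    obtain ⟨n, hn⟩ := hVe
    exact ⟨m + n + 1, by omega⟩)
  have e3 := Psi_exch (U0 ++ [y, x]) V x⁻¹ y⁻¹ (by
    simp only [List.length_append, List.length_cons, List.length_nil]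
    obtain ⟨m, hm⟩ := hUe
    obtain ⟨n, hn⟩ := hVe
    exact ⟨m + n + 1, by omega⟩)
  have e4 := Psi_exch (U0 ++ [y]) (x⁻¹ :: V) x y⁻¹ (by
    simp only [List.length_append, List.length_cons, List.length_nil]
    obtain ⟨m, hm⟩ := hUe
    obtain ⟨n, hn⟩ := hVe
    exact ⟨m + n + 1, by omega⟩)
  simp only [List.append_assoc, List.cons_append, List.nil_append, List.length_append,
    List.length_cons, List.length_nil, zero_add] at e1 e3 e4
  have hj : Even (2 * X1.length) := even_two_mul _
  have hj2 : Even (2 * X1.length + 2) := ⟨X1.length + 1, by ring⟩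
  exact pair_core (pL A.length r (U A (X1.length + X2.length + 2) B)) U0.length
    (fun f => by
      rw [hk]
      exact L_act ha hj (by omega) (by omega) f)
    (fun f => by
      rw [hk,
        show 2 * X1.length + (A.length + 1) + 2 = (2 * X1.length + 2) + (A.length + 1) by ring]
      exact L_act ha hj2 (by omega) (by omega) f)
    x x⁻¹ y y⁻¹ (mul_inv_cancel₀ hx) (mul_inv_cancel₀ hy) _ _ _ _ _ e1 e2 e3 e4 d1 d2 d3 d4

theorem swapP (A B X1 X2 : List ℂ) (ha : Odd A.length) (hb : Odd B.length) (w x y : ℂ)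
    (hx : x ≠ 0) (hy : y ≠ 0) :
    G A (w :: prs (X1 ++ y :: x :: X2)) B = G A (w :: prs (X1 ++ x :: y :: X2)) B := by
  have hpl : ∀ X : List ℂ, (prs X).length = 2 * X.length := fun X =>
    Pool.Agent.NH38.Step.prs_length X
  have hl : ∀ a b : ℂ, (prs (X1 ++ a :: b :: X2)).length = 2 * (X1.length + X2.length + 2) := by
    intro a b
    rw [hpl]; simp only [List.length_append, List.length_cons]; ring
  set r := A.length + (2 * (X1.length + X2.length + 2) + 1) + B.length with hr
  have hcont : ∀ (f g : ℂ → ℂ), ContinuousAt f y → ContinuousAt g y → f y ≠ 0 → g y ≠ 0 →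
      ContinuousAt (fun t => G A (w :: prs (X1 ++ f t :: g t :: X2)) B) y := by
    intro f g hf hg hf0 hg0
    have e : (fun t => G A (w :: prs (X1 ++ f t :: g t :: X2)) B) = fun t =>
        pL A.length r (U A (X1.length + X2.length + 2) B)
          (Psi ((A ++ w :: prs X1) ++ f t :: (f t)⁻¹ :: g t :: (g t)⁻¹ ::
            (prs X2 ++ (B ++ [0])))) := by
      funext t
      rw [G_eq A B w _ (hl _ _) (r := r) (by rw [hl])]
      congr 2
      rw [prs_append, prs_cons, prs_cons]; simp
    rw [e]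
    have c1 : CL _ (fun t => (A ++ w :: prs X1) ++ f t :: (f t)⁻¹ :: g t :: (g t)⁻¹ ::
        (prs X2 ++ (B ++ [0]))) y :=
      (CL.const (A ++ w :: prs X1) y).append
        (((((CL.const (prs X2 ++ (B ++ [0])) y).cons (hg.inv₀ hg0)).cons hg).cons
          (hf.inv₀ hf0)).cons hf)
    exact lin_cont _ _ _ c1.1 y c1.2
  have h1 := hcont (fun t => t) (fun _ => x) continuousAt_id continuousAt_const hy hx
  have h2 := hcont (fun _ => x) (fun t => t) continuousAt_const continuousAt_id hx hy
  have key := eq_of_cont (F := fun t => G A (w :: prs (X1 ++ t :: x :: X2)) B)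
    (G := fun t => G A (w :: prs (X1 ++ x :: t :: X2)) B) h1 h2
    ({0, q * x⁻¹ / q^2, q * x / q^2, q * x, q * x⁻¹} : Set ℂ) (Set.toFinite _)
    (fun z hz => by
      obtain ⟨hz0, h3, h4, h5, h6⟩ := badP_spec x z hx hz
      exact swapP_gen A B X1 X2 ha hb w x z hx hz0 h3 h4 h5 h6)
  exact key

theorem permP (A B : List ℂ) (ha : Odd A.length) (hb : Odd B.length) (w : ℂ) {l l' : List ℂ}
    (hp : l.Perm l') : ∀ (u : List ℂ), (∀ z ∈ u ++ l, z ≠ 0) →
      G A (w :: prs (u ++ l)) B = G A (w :: prs (u ++ l')) B := by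
  induction hp with
  | nil => intro u _; rfl
  | @cons x l1 l2 h ih =>
    intro u h0
    have e1 : u ++ x :: l1 = (u ++ [x]) ++ l1 := by simp
    have e2 : u ++ x :: l2 = (u ++ [x]) ++ l2 := by simp
    rw [e1] at h0 ⊢
    rw [e2]
    exact ih (u ++ [x]) h0
  | swap x y l =>
    intro u h0
    exact swapP A B u l ha hb w x y (h0 x (by simp)) (h0 y (by simp))
  | @trans l1 l2 l3 p1 p2 ih1 ih2 =>
    intro u h0
    rw [ih1 u h0]
    refine ih2 u (fun z hz => h0 z ?_)
    rw [List.mem_append] at hz ⊢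
    rcases hz with h | h
    · exact Or.inl h
    · exact Or.inr (p1.mem_iff.mpr h)

/-- swap of two neighbours at an even position of the middle block -/
theorem swapY (A B Y1 Y2 : List ℂ) (ha : Odd A.length) (hb : Odd B.length)
    (h1 : Even Y1.length) (h2 : Even Y2.length) (w x y : ℂ) :
    G A (w :: (Y1 ++ y :: x :: Y2)) B = G A (w :: (Y1 ++ x :: y :: Y2)) B := by
  obtain ⟨n1, hn1⟩ := id h1
  obtain ⟨n2, hn2⟩ := id h2
  have hl : ∀ a b : ℂ, (Y1 ++ a :: b :: Y2).length = 2 * (n1 + n2 + 1) := by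
    intro a b; simp only [List.length_append, List.length_cons]; omega
  set r := A.length + (2 * (n1 + n2 + 1) + 1) + B.length with hr
  have hcont : ∀ (f g : ℂ → ℂ), ContinuousAt f x → ContinuousAt g x →
      ContinuousAt (fun t => G A (w :: (Y1 ++ f t :: g t :: Y2)) B) x := by
    intro f g hf hg
    have e : (fun t => G A (w :: (Y1 ++ f t :: g t :: Y2)) B) = fun t =>
        pL A.length r (U A (n1 + n2 + 1) B)
          (Psi ((A ++ w :: Y1) ++ f t :: g t :: (Y2 ++ (B ++ [0])))) := by
      funext t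
      rw [G_eq A B w _ (hl _ _) (r := r) (by rw [hl])]
      congr 2
      simp
    rw [e]
    have c1 : CL _ (fun t => (A ++ w :: Y1) ++ f t :: g t :: (Y2 ++ (B ++ [0]))) x :=
      (CL.const (A ++ w :: Y1) x).append (((CL.const (Y2 ++ (B ++ [0])) x).cons hg).cons hf)
    exact lin_cont _ _ _ c1.1 x c1.2
  have c1 := hcont (fun t => t) (fun _ => y) continuousAt_id continuousAt_const
  have c2 := hcont (fun _ => y) (fun t => t) continuousAt_const continuousAt_id
  have key := eq_of_cont (F := fun t => G A (w :: (Y1 ++ t :: y :: Y2)) B)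
    (G := fun t => G A (w :: (Y1 ++ y :: t :: Y2)) B) c1 c2 ({q * y / q^2} : Set ℂ)
    (Set.toFinite _) (fun z hz => by
      have h3 : q * y - q^2 * z ≠ 0 := by
        intro h'
        apply hz
        rw [Set.mem_singleton_iff, eq_div_iff (pow_ne_zero _ q_ne_zero)]
        linear_combination -h'
      exact swapY_gen A B Y1 Y2 ha hb h1 h2 w y z h3)
  exact key.symm

end Q3

theorem t_permX : S_permX := by
  intro A X X' B ha hb _ hX _ hp w _
  unfold gh
  rw [hp.length_eq]
  congr 1
  exact Q3.permP A B ha hb w hp [] hX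

theorem t_invX : S_invX := by
  intro A X B x ha hb _ _ _ _ w _
  unfold gh
  rw [List.length_cons, List.length_cons]
  congr 1
  rw [Pool.Agent.NH38.Step.TD.prs_cons, Pool.Agent.NH38.Step.TD.prs_cons, inv_inv]
  have h2 : Even (prs X).length := by
    rw [Pool.Agent.NH38.Step.prs_length]; exact even_two_mul _
  exact (Q3.swapY A B [] (prs X) ha hb (by simp) h2 w x x⁻¹).symm

end Pool.Agent.NH38.Fork
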