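import Pool.Agent.NH38.Fork.Stubs
import Pool.Agent.NH38.Step.C2
import Pool.Agent.H492C.C1

/-!
Thick slits, task Q4 (helper49): cup relation for `A`.
-/

namespace Pool.Agent.NH38.Fork

open Pool.Agent.H988R2.Perc hiding X
open Pool.Agent.H492C (comb2 pairG up1)
open Pool.Agent.NH38.Step (om prs EE zs prF Gen on cardy pom bev)

namespace Q4

/-- the cup functional on the `A` side -/
noncomputable def EA (A Y B : List ℂ) (u : ℂ) : ℂ :=
  pairG (A.length + 1) (A.length + 1 + (Y.length + 1) + B.length)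
    (Finsupp.mapDomain (St.ins A.length) (Psi (A ++ (Y ++ (B ++ [0])))))
    (U (A ++ [u]) (Y.length / 2) B)

theorem G_cup (A Y B : List ℂ) (u : ℂ) (hA : Even A.length) (hY : Even Y.length)
    (hB : Odd B.length) :
    G (A ++ [u]) ((q^2 * u) :: Y) B = fac u (A ++ (Y ++ (B ++ [0]))) * EA A Y B u := by
  have hpar : Even (A.length + (Y ++ (B ++ [0])).length) := by
    rw [List.length_append, List.length_append, List.length_singleton]
    exact hA.add (hY.add hB.add_one)
  have h1 := Psi_rec A (Y ++ (B ++ [0])) u hpar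
  unfold G EA
  have hl : (A ++ [u]).length = A.length + 1 := by simp
  rw [hl, List.append_assoc, List.singleton_append, List.cons_append, h1,
    Pool.Agent.H492C.pairG_smul_left, List.length_cons, Nat.add_sub_cancel]

theorem EA_inv (A Y B : List ℂ) (u : ℂ) (hA : Even A.length) (hu : u ≠ 0) :
    EA A Y B u = (u⁻¹)^A.length * EA A Y B u⁻¹ := by
  unfold EA U
  have hl : ∀ z : ℂ, (A ++ [z]).length = A.length + 1 := by intro z; simp
  rw [hl, hl, Pool.Agent.H492C.C1.up1A A u hA hu, Pool.Agent.H492C.comb2_smul_left,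
    Pool.Agent.H492C.pairG_smul_right]

theorem G_inv (A l B : List ℂ) (u : ℂ) (hA : Even A.length) (hl : Odd l.length)
    (hB : Odd B.length) (hu : u ≠ 0) :
    G (u :: A) l B = u^(l.length + B.length) * G (u⁻¹ :: A) l B := by
  have h1 := Psi_inv1 u (A ++ (l ++ (B ++ [0]))) hu (by
    rw [List.length_append, List.length_append, List.length_append, List.length_singleton]
    exact hA.add_odd (hl.add_even hB.add_one))
  have e1 : (A ++ (l ++ (B ++ [0]))).length - 1 = A.length + (l.length + B.length) := by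
    rw [List.length_append, List.length_append, List.length_append, List.length_singleton]
    omega
  rw [e1] at h1
  unfold G U
  rw [Pool.Agent.H492C.C1.up1B A u hA hu, Pool.Agent.H492C.comb2_smul_left,
    Pool.Agent.H492C.pairG_smul_right, List.cons_append, h1, Pool.Agent.H492C.pairG_smul_left]
  have h2 : u ^ (A.length + (l.length + B.length)) * (u⁻¹) ^ A.length =
      u ^ (l.length + B.length) := by
    rw [pow_add, mul_right_comm, ← mul_pow, mul_inv_cancel₀ hu, one_pow, one_mul]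
  rw [← h2, List.cons_append, List.length_cons, List.length_cons]
  ring

theorem cst_ne (A B : List ℂ) (k : ℕ) (w : ℂ) (hA : NZ A) (hB : NZ B) (hw : w ≠ 0) :
    cst A B k w ≠ 0 := by
  unfold cst
  have h1 : A.prod ≠ 0 := List.prod_ne_zero (fun h => hA 0 h rfl)
  have h2 : B.prod ≠ 0 := List.prod_ne_zero (fun h => hB 0 h rfl)
  exact mul_ne_zero (mul_ne_zero (mul_ne_zero (pow_ne_zero _ hw) (pow_ne_zero _ h1))
    (pow_ne_zero _ h2)) (pow_ne_zero _ q_ne_zero)

theorem prs_len (X : List ℂ) : (prs X).length = 2 * X.length := Step.prs_length X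

theorem cons_NZ {u : ℂ} {A : List ℂ} (hu : u ≠ 0) (hA : NZ A) : NZ (u :: A) := by
  intro z hz
  rcases List.mem_cons.1 hz with rfl | h
  · exact hu
  · exact hA z h

theorem app_NZ {u : ℂ} {A : List ℂ} (hu : u ≠ 0) (hA : NZ A) : NZ (A ++ [u]) := by
  intro z hz
  rcases List.mem_append.1 hz with h | h
  · exact hA z h
  · rw [List.mem_singleton.1 h]; exact hu

/-- inversion of the first element of `A` -/
theorem gh_invA (A X B : List ℂ) (u w : ℂ) (hA : Even A.length) (hB : Odd B.length) (hA0 : NZ A)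
    (hB0 : NZ B) (hu : u ≠ 0) (hw : w ≠ 0) :
    gh (u :: A) X B w = gh (u⁻¹ :: A) X B w := by
  have hui : u⁻¹ ≠ 0 := inv_ne_zero hu
  have h1 := G_inv A (w :: prs X) B u hA (by
    rw [List.length_cons, prs_len]; exact (even_two_mul _).add_one) hB hu
  unfold gh
  rw [div_eq_div_iff (cst_ne _ _ _ _ (cons_NZ hu hA0) hB0 hw)
    (cst_ne _ _ _ _ (cons_NZ hui hA0) hB0 hw), h1]
  unfold cst na
  simp only [List.length_cons, List.prod_cons, prs_len]
  obtain ⟨b, hb⟩ := hB
  have e1 : (B.length + 1) / 2 + X.length = b + 1 + X.length := by omega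
  have e2 : 2 * X.length + 1 + B.length = (b + 1 + X.length) + (b + 1 + X.length) := by omega
  rw [e1, e2, mul_pow, mul_pow, inv_pow, pow_add u]
  have h2 : u ^ (b + 1 + X.length) * (u ^ (b + 1 + X.length))⁻¹ = 1 :=
    mul_inv_cancel₀ (pow_ne_zero _ hu)
  generalize u ^ (b + 1 + X.length) = V at *
  generalize G (u⁻¹ :: A) (w :: prs X) B = g
  linear_combination (g * V * w ^ ((A.length + 1 + B.length) / 2 + X.length) *
    A.prod ^ (b + 1 + X.length) * B.prod ^ ((A.length + 1 + 1) / 2 + X.length) *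
    q ^ (((A.length + 1 + B.length) / 2 + X.length + 1) *
      ((A.length + 1 + B.length) / 2 + X.length) +
      ((A.length + 1 + 1) / 2 * ((A.length + 1 - 1) / 2) +
        (B.length + 1) / 2 * ((B.length - 1) / 2)))) * h2

end Q4

open Q4 in
/-- Q4 -/
theorem t_starA : S_perm → S_starA := by
  intro hperm A X B u hA hB hA0 hX0 hB0 hu
  have hui : u⁻¹ ≠ 0 := inv_ne_zero hu
  have hq2 : q^2 ≠ 0 := pow_ne_zero 2 q_ne_zero
  have hw1 : q^2 * u ≠ 0 := mul_ne_zero hq2 hu
  have hw2 : q^2 * u⁻¹ ≠ 0 := mul_ne_zero hq2 hui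
  have hodd : ∀ z : ℂ, Odd (z :: A).length := fun z => by rw [List.length_cons]; exact hA.add_one
  have hp : ∀ z : ℂ, (z :: A).Perm (A ++ [z]) := fun z => (List.perm_append_singleton z A).symm
  -- the two values
  have g1 := hperm (u :: A) (A ++ [u]) X B B (hodd u) hB (cons_NZ hu hA0) hX0 hB0 (hp u)
    (List.Perm.refl B) (q^2 * u) hw1
  have g2 := hperm (u⁻¹ :: A) (A ++ [u⁻¹]) X B B (hodd _) hB (cons_NZ hui hA0) hX0 hB0 (hp _)
    (List.Perm.refl B) (q^2 * u⁻¹) hw2
  have g3 := gh_invA A X B u (q^2 * u⁻¹) hA hB hA0 hB0 hu hw2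
  rw [g1, g3, g2]
  have hYe : Even (prs X).length := by rw [prs_len]; exact even_two_mul _
  have c1 := G_cup A (prs X) B u hA hYe hB
  have c2 := G_cup A (prs X) B u⁻¹ hA hYe hB
  have c3 := EA_inv A (prs X) B u hA hu
  unfold gh
  rw [c1, c2, c3]
  -- the factors
  have hX1 : ∀ z ∈ prs X, z ≠ 0 := Step.prs_ne hX0
  have hne : ∀ z ∈ (A ++ (prs X ++ B)), z ≠ 0 := by
    intro z hz
    rcases List.mem_append.1 hz with h | h
    · exact hA0 z h
    · rcases List.mem_append.1 h with h | h
      · exact hX1 z h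
      · exact hB0 z h
  have eL : (A ++ (prs X ++ (B ++ [0]))) = (A ++ (prs X ++ B)) ++ [0] := by simp
  have hP : (A ++ (prs X ++ B)).Perm (A ++ (B ++ prs X)) :=
    List.Perm.append_left _ List.perm_append_comm
  have f1 : fac u (A ++ (prs X ++ (B ++ [0]))) = (q^2 * u)^(A ++ (prs X ++ B)).length *
      (A ++ (prs X ++ B)).prod * pom (om (q * u)) (A ++ (B ++ prs X)) * (-q^2 * u) := by
    rw [eL, Step.fac_app, Step.fac_zero_right, Step.fac_eq_pom u hu _ hne, Step.pom_perm _ hP]
  have f2 : fac u⁻¹ (A ++ (prs X ++ (B ++ [0]))) = (q^2 * u⁻¹)^(A ++ (prs X ++ B)).length *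
      (A ++ (prs X ++ B)).prod * pom (om (q^2 * u)) (A ++ (B ++ prs X)) * (-q^2 * u⁻¹) := by
    rw [eL, Step.fac_app, Step.fac_zero_right, Step.fac_eq_pom _ hui _ hne, Step.pom_perm _ hP,
      Step.om_q_inv]
  rw [f1, f2]
  generalize pom (om (q * u)) (A ++ (B ++ prs X)) = P1
  generalize pom (om (q^2 * u)) (A ++ (B ++ prs X)) = P2
  generalize EA A (prs X) B u⁻¹ = E
  generalize (A ++ (prs X ++ B)).prod = M
  obtain ⟨a, ha⟩ := hA
  obtain ⟨b, hb⟩ := hB
  have hN : (A ++ (prs X ++ B)).length = 2 * (a + b + X.length) + 1 := by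
    rw [List.length_append, List.length_append, prs_len]; omega
  have hal : A.length = 2 * a := by omega
  rw [hN, div_mul_eq_mul_div, div_mul_eq_mul_div,
    div_eq_div_iff (cst_ne _ _ _ _ (app_NZ hu hA0) hB0 hw1)
      (cst_ne _ _ _ _ (app_NZ hui hA0) hB0 hw2)]
  unfold cst na
  simp only [List.length_append, List.length_cons, List.length_nil, List.prod_append,
    List.prod_cons, List.prod_nil, mul_one, zero_add]
  have e1 : (B.length + 1) / 2 + X.length = b + 1 + X.length := by omega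
  have e2 : (A.length + 1 + B.length) / 2 + X.length = a + b + 1 + X.length := by omega
  rw [e1, e2, hal]
  generalize q ^ ((a + b + 1 + X.length + 1) * (a + b + 1 + X.length) +
      ((2 * a + 1 + 1) / 2 * ((2 * a + 1 - 1) / 2) + (B.length + 1) / 2 * ((B.length - 1) / 2))) = Q
  generalize B.prod ^ ((2 * a + 1 + 1) / 2 + X.length) = Bp
  have hU : u * u⁻¹ = 1 := mul_inv_cancel₀ hu
  -- both sides as multiples of a common quantity
  have k1 : (q^2 * u)^(2 * (a + b + X.length) + 1) * (-q^2 * u) * (u⁻¹)^(2 * a) *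
      ((q^2 * u⁻¹)^(a + b + 1 + X.length) * (A.prod * u⁻¹)^(b + 1 + X.length)) =
      (q^2 * u⁻¹)^(2 * (a + b + X.length) + 1) * (-q^2 * u⁻¹) *
      ((q^2 * u)^(a + b + 1 + X.length) * (A.prod * u)^(b + 1 + X.length)) := by
    have a1 : (q^2 * u)^(2 * (a + b + X.length) + 1) * (-q^2 * u) * (u⁻¹)^(2 * a) *
        ((q^2 * u⁻¹)^(a + b + 1 + X.length) * (A.prod * u⁻¹)^(b + 1 + X.length)) =
        -(q^2)^(2 * (a + b + X.length) + 2) * (q^2)^(a + b + 1 + X.length) *
          A.prod^(b + 1 + X.length) * (u * u⁻¹)^(2 * (a + b + X.length) + 2) *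
          (u⁻¹)^a := by
      have : (u⁻¹)^(2 * a) * ((u⁻¹)^(a + b + 1 + X.length) * (u⁻¹)^(b + 1 + X.length)) =
          (u⁻¹)^(2 * (a + b + X.length) + 2) * (u⁻¹)^a := by
        rw [← pow_add, ← pow_add, ← pow_add]
        congr 1
        ring
      calc _ = -(q^2)^(2 * (a + b + X.length) + 2) * (q^2)^(a + b + 1 + X.length) *
          A.prod^(b + 1 + X.length) * u^(2 * (a + b + X.length) + 2) *
          ((u⁻¹)^(2 * a) * ((u⁻¹)^(a + b + 1 + X.length) * (u⁻¹)^(b + 1 + X.length))) := by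
            ring
        _ = _ := by rw [this]; ring
    have a2 : (q^2 * u⁻¹)^(2 * (a + b + X.length) + 1) * (-q^2 * u⁻¹) *
        ((q^2 * u)^(a + b + 1 + X.length) * (A.prod * u)^(b + 1 + X.length)) =
        -(q^2)^(2 * (a + b + X.length) + 2) * (q^2)^(a + b + 1 + X.length) *
          A.prod^(b + 1 + X.length) * (u * u⁻¹)^(a + b + 1 + X.length + (b + 1 + X.length)) *
          (u⁻¹)^a := by
      have : (u⁻¹)^(2 * (a + b + X.length) + 2) =
          (u⁻¹)^(a + b + 1 + X.length + (b + 1 + X.length)) * (u⁻¹)^a := by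
        rw [← pow_add]
        congr 1
        ring
      calc _ = -(q^2)^(2 * (a + b + X.length) + 2) * (q^2)^(a + b + 1 + X.length) *
          A.prod^(b + 1 + X.length) * (u⁻¹)^(2 * (a + b + X.length) + 2) *
          u^(a + b + 1 + X.length + (b + 1 + X.length)) := by
            ring
        _ = _ := by rw [this]; ring
    rw [a1, a2, hU, one_pow, one_pow]
  linear_combination (M * P1 * P2 * E * Bp * Q) * k1

end Pool.Agent.NH38.Fork
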