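import Pool.Agent.NH38.Fork.Stubs
import Pool.Agent.H492C.C1
import Pool.Agent.H492C.C2h

/-!
Thick slits (helper38), task Q5: cup relation for `B`, thin slit.
-/

set_option autoImplicit false

namespace Pool.Agent.NH38.Fork

open Pool.Agent.H988R2.Perc hiding X
open Pool.Agent.H492C (comb2 pairG up1 comb GR cupB)
open Pool.Agent.NH38.Step (om prs pom)

namespace Q5

theorem St_ext {R R' : St} (h : ∀ a b, R.rel a b ↔ R'.rel a b) : R = R' := by
  cases R with
  | mk r e o =>
    cases R' with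
    | mk r' e' o' =>
      have : r = r' := by
        funext a b
        exact propext (h a b)
      subst this
      rfl

theorem comb_zero (R R' : St) : comb 0 R R' = R' := by
  apply St_ext
  intro a b
  show (a = b ∨ (a < 2 * 0 ∧ b < 2 * 0 ∧ R.rel a b) ∨
    (2 * 0 ≤ a ∧ 2 * 0 ≤ b ∧ R'.rel (a - 2 * 0) (b - 2 * 0))) ↔ R'.rel a b
  constructor
  · rintro (h | ⟨h1, _, _⟩ | ⟨_, _, h3⟩)
    · rw [h]; exact R'.eqv.refl b
    · omega
    · simpa using h3
  · intro h
    right; right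
    refine ⟨by omega, by omega, ?_⟩
    simpa using h

theorem comb2_zero (R : St) (g : St →₀ ℂ) : comb2 0 (Finsupp.single R 1) g = g := by
  unfold comb2
  rw [Finsupp.sum_single_index]
  · have : (g.sum fun R' b => Finsupp.single (comb 0 R R') (1 * b)) =
        g.sum fun R' b => Finsupp.single R' b := by
      refine Finsupp.sum_congr ?_
      intro R' _
      rw [comb_zero, one_mul]
    rw [this, Finsupp.sum_single]
  · simp

theorem G_thin (A B : List ℂ) (w : ℂ) : G A [w] B = GR A w B := by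
  unfold G GR U
  have h1 : ([w] : List ℂ).length = 1 := rfl
  rw [h1, show (1 - 1) / 2 = 0 from rfl, comb2_zero]
  rfl

theorem prod_ne {l : List ℂ} (h : NZ l) : l.prod ≠ 0 := by
  apply List.prod_ne_zero
  intro h0
  exact h 0 h0 rfl

theorem raw (A B : List ℂ) (v : ℂ) (hA : Odd A.length) (hB : Even B.length) (hv : v ≠ 0)
    (hAn : NZ A) (hBn : NZ B) :
    GR A (q * v) (v :: B) * pom (om (q * v)) (A ++ B) =
      v^(A.length + B.length + 1) *
        (GR A (q * v⁻¹) (v :: B) * pom (om (q^2 * v)) (A ++ B)) := by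
  have h0 : ∀ z ∈ A ++ B, z ≠ 0 := by
    intro z hz
    rcases List.mem_append.1 hz with h | h
    · exact hAn z h
    · exact hBn z h
  have hc := cupB A B v hA hB hv h0
  have hq := q_ne_zero
  have hqv : q * v ≠ 0 := mul_ne_zero hq hv
  have hqv' : q * v⁻¹ ≠ 0 := mul_ne_zero hq (inv_ne_zero hv)
  have hf : ∀ x : ℂ, Pool.Agent.H988R2.Perc.fac x (A ++ (B ++ [0])) =
      Pool.Agent.H988R2.Perc.fac x (A ++ B) * (- q^2 * x) := by
    intro x
    rw [← List.append_assoc, Pool.Agent.H492C.C2.facAp, Pool.Agent.H492C.C2.fac_z]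
  rw [hf, hf, Pool.Agent.NH38.Step.fac_eq_pom _ hqv _ h0,
    Pool.Agent.NH38.Step.fac_eq_pom _ hqv' _ h0] at hc
  have e1 : q^2 * (q * v) = v := by
    rw [← mul_assoc, ← pow_succ, q_cube, one_mul]
  have e2 : q^2 * (q * v⁻¹) = v⁻¹ := by
    rw [← mul_assoc, ← pow_succ, q_cube, one_mul]
  have e3 : om (q * (q * v)) = om (q^2 * v) := Pool.Agent.NH38.Step.om_qq v
  have e4 : om (q * (q * v⁻¹)) = om (q * v) := by
    rw [Pool.Agent.NH38.Step.om_qq, Pool.Agent.NH38.Step.om_q2_inv]
  have e5 : -q^2 * (q * v) = -v := by linear_combination (-1 : ℂ) * e1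
  have e6 : -q^2 * (q * v⁻¹) = -v⁻¹ := by linear_combination (-1 : ℂ) * e2
  rw [e1, e2, e3, e4, e5, e6] at hc
  have hn : (A ++ B).length = A.length + B.length := List.length_append
  rw [hn] at hc
  set n := A.length + B.length with hnd
  have hnn : A.length + 1 + B.length = n + 1 := by omega
  rw [hnn] at hc
  have hp : (A ++ B).prod ≠ 0 := prod_ne h0
  have h1 : v^(n + 1) * (v⁻¹^n * (v⁻¹)) = 1 := by
    rw [← pow_succ, ← mul_pow, mul_inv_cancel₀ hv, one_pow]
  apply mul_left_cancel₀ hp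
  linear_combination (-1 : ℂ) * hc + (-(GR A (q * v) (v :: B) * pom (om (q * v)) (A ++ B) *
    (A ++ B).prod)) * h1

end Q5

open Q5

/-- Q5 -/
theorem t_starB : S_starB := by
  intro A B v hA hB hAn hBn hv
  have hr := raw A B v hA hB hv hAn hBn
  have hq := q_ne_zero
  have hqv : q * v ≠ 0 := mul_ne_zero hq hv
  have hqv' : q * v⁻¹ ≠ 0 := mul_ne_zero hq (inv_ne_zero hv)
  have hBv : NZ (v :: B) := by
    intro z hz
    rcases List.mem_cons.1 hz with h | h
    · rw [h]; exact hv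
    · exact hBn z h
  have hpA := prod_ne hAn
  have hpB := prod_ne hBv
  have hg : ∀ w, gh A [] (v :: B) w = GR A w (v :: B) / cst A (v :: B) 0 w := by
    intro w
    unfold gh
    have : (w :: prs []) = [w] := rfl
    rw [this, G_thin]
    rfl
  rw [hg, hg]
  obtain ⟨m, hm⟩ : ∃ m, A.length + B.length + 1 = 2 * m := by
    obtain ⟨k, hk⟩ := hA
    obtain ⟨j, hj⟩ := hB
    exact ⟨k + j + 1, by omega⟩
  have hm2 : (A.length + (v :: B).length) / 2 = m := by
    rw [List.length_cons]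
    omega
  have hc0 : ∀ w : ℂ, w ≠ 0 → cst A (v :: B) 0 w ≠ 0 := by
    intro w hw
    unfold cst
    exact mul_ne_zero (mul_ne_zero (mul_ne_zero (pow_ne_zero _ hw) (pow_ne_zero _ hpA))
      (pow_ne_zero _ hpB)) (pow_ne_zero _ hq)
  have hcc : cst A (v :: B) 0 (q * v) = v^(2 * m) * cst A (v :: B) 0 (q * v⁻¹) := by
    unfold cst
    rw [hm2, Nat.add_zero]
    have h1 : (q * v)^m = v^(2 * m) * (q * v⁻¹)^m := by
      rw [pow_mul, ← mul_pow]
      congr 1
      field_simp
    rw [h1]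
    ring
  rw [hm] at hr
  rw [hcc]
  have hv2 : v^(2 * m) ≠ 0 := pow_ne_zero _ hv
  have hc1 := hc0 _ hqv'
  rw [div_mul_eq_mul_div, div_mul_eq_mul_div, hr, mul_div_mul_left _ _ hv2]

end Pool.Agent.NH38.Fork
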