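import Pool.Agent.NH38.Fork.Stubs
import Pool.Agent.NH38.Step.C2
import Pool.Agent.H988C.Adj

/-!
Thick slits (helper38): task Q6 (job 478, helper59). The recursion of `gh` at `w = q x`.
-/

namespace Pool.Agent.NH38.Fork

open Pool.Agent.H988R2.Perc hiding X
open Pool.Agent.H492C (comb2 pairG up1)
open Pool.Agent.NH38.Step (om prs EE zs prF Gen on cardy pom bev)
open Polynomial

namespace Q6

open Pool.Agent.H492C (comb jn)

/-! ### capping the first small arc between the arms -/

theorem comb_rel (k : ℕ) (R R' : St) (x y : ℕ) : (comb k R R').rel x y ↔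
    x = y ∨ (x < 2*k ∧ y < 2*k ∧ R.rel x y) ∨
      (2*k ≤ x ∧ 2*k ≤ y ∧ R'.rel (x - 2*k) (y - 2*k)) := Iff.rfl

theorem inner_rel (m : ℕ) (R' : St) (x y : ℕ) : (comb m St.bot R').rel x y ↔
    x = y ∨ (2*m ≤ x ∧ 2*m ≤ y ∧ R'.rel (x - 2*m) (y - 2*m)) := by
  rw [comb_rel]
  constructor
  · rintro (h | ⟨_, _, h⟩ | h)
    · exact Or.inl h
    · exact Or.inl h
    · exact Or.inr h
  · rintro (h | h)
    · exact Or.inl h
    · exact Or.inr (Or.inr h)

theorem cap_comb {a k : ℕ} (hk : a + 1 = 2*k) (m : ℕ) (R R' : St) :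
    St.cap a (comb k R (comb (m+1) St.bot R')) = comb k R (comb m St.bot R') := by
  apply St.ext'
  intro x y
  rw [St.cap_rel, St.act_rel]
  simp only [comb_rel k, inner_rel]
  have ho := R.odd x y
  have up1 : ∀ x, x ≤ a → St.up a x = x := fun x h => by unfold St.up; rw [if_pos h]
  have up2 : ∀ x, ¬ x ≤ a → St.up a x = x + 2 := fun x h => by unfold St.up; rw [if_neg h]
  by_cases hx : x ≤ a
  · by_cases hy : y ≤ a
    · rw [up1 x hx, up1 y hy]
      constructor
      · rintro (h | ⟨h1, h2, h3, h4, (h | ⟨h, h'⟩ | ⟨h, h'⟩)⟩)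
        · exact Or.inl h
        · rcases h with h | h | ⟨h, _⟩
          · exact Or.inl h
          · exact Or.inr (Or.inl h)
          · omega
        · rcases h' with h' | ⟨h', _⟩ | ⟨_, h', _⟩ <;> omega
        · rcases h with h | ⟨_, h, _⟩ | ⟨h, _⟩ <;> omega
      · rintro (h | ⟨h1, h2, h3⟩ | ⟨h1, _⟩)
        · exact Or.inl h
        · rcases ho h3 with h | ⟨k1, k2⟩
          · exact Or.inl h
          · exact Or.inr ⟨k1, k2, by omega, by omega, Or.inl (Or.inr (Or.inl ⟨h1, h2, h3⟩))⟩
        · omega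
    · rw [up1 x hx, up2 y hy]
      constructor
      · rintro (h | ⟨h1, h2, h3, h4, (h | ⟨h, h'⟩ | ⟨h, h'⟩)⟩)
        · omega
        · rcases h with h | ⟨_, h, _⟩ | ⟨h, _⟩ <;> omega
        · rcases h' with h' | ⟨h', _⟩ | ⟨_, _, (h' | ⟨h', _⟩)⟩ <;> omega
        · rcases h with h | ⟨_, h, _⟩ | ⟨h, _⟩ <;> omega
      · rintro (h | ⟨h1, h2, h3⟩ | ⟨h1, h2, h3⟩) <;> omega
  · by_cases hy : y ≤ a
    · rw [up2 x hx, up1 y hy]
      constructor
      · rintro (h | ⟨h1, h2, h3, h4, (h | ⟨h, h'⟩ | ⟨h, h'⟩)⟩)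
        · omega
        · rcases h with h | ⟨h, _⟩ | ⟨_, h, _⟩ <;> omega
        · rcases h with h | ⟨h, _⟩ | ⟨_, h, _⟩ <;> omega
        · rcases h with h | ⟨h, _⟩ | ⟨_, _, (h | ⟨_, h, _⟩)⟩ <;> omega
      · rintro (h | ⟨h1, h2, h3⟩ | ⟨h1, h2, h3⟩) <;> omega
    · rw [up2 x hx, up2 y hy]
      have ho' := R'.odd (x - 2*k - 2*m) (y - 2*k - 2*m)
      have e1 : x + 2 - 2*k - 2*(m+1) = x - 2*k - 2*m := by omega
      have e2 : y + 2 - 2*k - 2*(m+1) = y - 2*k - 2*m := by omega
      rw [e1, e2]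
      constructor
      · rintro (h | ⟨h1, h2, h3, h4, (h | ⟨h, h'⟩ | ⟨h, h'⟩)⟩)
        · left; omega
        · rcases h with h | ⟨h, _⟩ | ⟨k1, k2, (h | ⟨l1, l2, l3⟩)⟩
          · left; omega
          · omega
          · left; omega
          · exact Or.inr (Or.inr ⟨by omega, by omega, Or.inr ⟨by omega, by omega, l3⟩⟩)
        · rcases h with h | ⟨h, _⟩ | ⟨_, h, _⟩ <;> omega
        · rcases h' with h' | ⟨_, h', _⟩ | ⟨h', _⟩ <;> omega
      · rintro (h | ⟨h1, h2, h3⟩ | ⟨h1, h2, (h | ⟨l1, l2, l3⟩)⟩)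
        · left; omega
        · omega
        · left; omega
        · rcases ho' l3 with h | ⟨k1, k2⟩
          · left; omega
          · exact Or.inr ⟨by omega, by omega, by omega, by omega, Or.inl (Or.inr (Or.inr
              ⟨by omega, by omega, Or.inr ⟨by omega, by omega, l3⟩⟩))⟩

/-! ### bilinear forms -/

theorem pairG_ins_left (p r i : ℕ) (f g : St →₀ ℂ) :
    pairG (St.up i p) (St.up i r) (Finsupp.mapDomain (St.ins i) f) g =
      pairG p r f (Finsupp.mapDomain (St.cap i) g) := by
  classical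
  unfold pairG
  rw [Finsupp.sum_mapDomain_index]
  · refine Finsupp.sum_congr (fun R _ => ?_)
    rw [Finsupp.sum_mapDomain_index]
    · refine Finsupp.sum_congr (fun R' _ => ?_)
      have h := Pool.Agent.H988C.gconn_ins_left p r i R R'
      have h' : jn (St.up i p) (St.up i r) (St.ins i R) R' ↔ jn p r R (St.cap i R') := h
      by_cases h1 : jn p r R (St.cap i R')
      · rw [if_pos h1, if_pos (h'.2 h1)]
      · rw [if_neg h1, if_neg (fun k => h1 (h'.1 k))]
    · intro R'; simp
    · intro R' b c; ring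
  · intro R; simp
  · intro R b c
    rw [← Finsupp.sum_add]
    refine Finsupp.sum_congr (fun R' _ => ?_)
    ring

theorem pairG_smul_left (p r : ℕ) (c : ℂ) (f g : St →₀ ℂ) :
    pairG p r (c • f) g = c * pairG p r f g := by
  classical
  unfold pairG
  rw [Finsupp.sum_smul_index' (fun R => by simp), Finsupp.mul_sum]
  refine Finsupp.sum_congr (fun R _ => ?_)
  rw [Finsupp.mul_sum]
  refine Finsupp.sum_congr (fun R' _ => ?_)
  simp only [smul_eq_mul]; ring

theorem map_comb2 (k : ℕ) (F : St → St) (f g : St →₀ ℂ) :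
    Finsupp.mapDomain F (comb2 k f g) =
      f.sum fun R a => g.sum fun R' b => Finsupp.single (F (comb k R R')) (a * b) := by
  unfold comb2
  rw [Finsupp.mapDomain_sum]
  refine Finsupp.sum_congr (fun R _ => ?_)
  rw [Finsupp.mapDomain_sum]
  refine Finsupp.sum_congr (fun R' _ => ?_)
  rw [Finsupp.mapDomain_single]

theorem comb2_map_right (k : ℕ) (F : St → St) (f g : St →₀ ℂ) :
    comb2 k f (Finsupp.mapDomain F g) =
      f.sum fun R a => g.sum fun R' b => Finsupp.single (comb k R (F R')) (a * b) := by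
  unfold comb2
  refine Finsupp.sum_congr (fun R _ => ?_)
  rw [Finsupp.sum_mapDomain_index]
  · intro R'; simp
  · intro R' b c; rw [mul_add, Finsupp.single_add]

theorem comb2_bot (m : ℕ) (g : St →₀ ℂ) :
    comb2 m (Finsupp.single St.bot 1) g = Finsupp.mapDomain (comb m St.bot) g := by
  unfold comb2
  rw [Finsupp.sum_single_index (by simp)]
  unfold Finsupp.mapDomain
  refine Finsupp.sum_congr (fun R' _ => ?_)
  rw [one_mul]

theorem cap_U {A : List ℂ} (ha : Odd A.length) (m : ℕ) (B : List ℂ) :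
    Finsupp.mapDomain (St.cap A.length) (U A (m+1) B) = U A m B := by
  have hk : A.length + 1 = 2 * ((A.length + 1) / 2) := by
    have := Nat.odd_iff.mp ha
    omega
  unfold U
  rw [comb2_bot, comb2_bot, comb2_map_right, comb2_map_right, Finsupp.mapDomain_sum]
  refine Finsupp.sum_congr (fun R _ => ?_)
  rw [Finsupp.mapDomain_sum]
  refine Finsupp.sum_congr (fun R' _ => ?_)
  rw [Finsupp.mapDomain_single, cap_comb hk]

/-! ### the recursion of `G` -/

theorem G_rec {A B Y : List ℂ} (ha : Odd A.length) (hb : Odd B.length) (hY : Even Y.length)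
    (w y : ℂ) : G A (w :: (q^2 * w) :: y :: Y) B =
      fac w (A ++ (y :: Y ++ (B ++ [0]))) * G A (y :: Y) B := by
  have e1 := Psi_rec A (y :: Y ++ (B ++ [0])) w (by
    simp only [List.length_append, List.length_cons, List.length_nil]
    obtain ⟨m, hm⟩ := ha
    obtain ⟨n, hn⟩ := hb
    obtain ⟨k, hk⟩ := hY
    exact ⟨m + n + k + 2, by omega⟩)
  have hm : ((w :: (q^2 * w) :: y :: Y).length - 1) / 2 = ((y :: Y).length - 1) / 2 + 1 := by
    simp only [List.length_cons]; omega
  have hr : A.length + (w :: (q^2 * w) :: y :: Y).length + B.length =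
      St.up A.length (A.length + (y :: Y).length + B.length) := by
    unfold St.up
    rw [if_neg (by simp only [List.length_cons]; omega)]
    simp only [List.length_cons]; omega
  have hp : A.length = St.up A.length A.length := by
    unfold St.up
    rw [if_pos le_rfl]
  have hl : A ++ (w :: (q^2 * w) :: y :: Y ++ (B ++ [0])) =
      A ++ w :: (q^2 * w) :: (y :: Y ++ (B ++ [0])) := rfl
  unfold G
  rw [hl, e1, pairG_smul_left, hm, hr]
  congr 1
  have h2 := pairG_ins_left A.length (A.length + (y :: Y).length + B.length) A.length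
    (Psi (A ++ (y :: Y ++ (B ++ [0])))) (U A (((y :: Y).length - 1) / 2 + 1) B)
  rw [← hp, cap_U ha] at h2
  exact h2

theorem prs_length (X : List ℂ) : (prs X).length = 2 * X.length := by
  induction X with
  | nil => rfl
  | cons x X ih =>
    rw [Pool.Agent.NH38.Step.prs_cons]
    simp only [List.length_cons, ih]; ring

end Q6

open Q6

theorem t_node : S_node := by
  intro A X B x ha hb hA hX hB hx
  have hq := q_ne_zero
  have hqx : q * x ≠ 0 := mul_ne_zero hq hx
  have hxi : x⁻¹ ≠ 0 := inv_ne_zero hx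
  have hq3 := q_cube
  have hx2 : q^2 * (q * x) = x := by rw [← mul_assoc, ← pow_succ, q_cube, one_mul]
  have hY : Even (prs X).length := by rw [prs_length]; exact even_two_mul _
  have h1 := G_rec (Y := prs X) ha hb hY (q * x) x⁻¹
  rw [hx2] at h1
  have hPX : (prs X).prod = 1 := Pool.Agent.NH38.Step.prs_prod hX
  have hA0 : A.prod ≠ 0 := List.prod_ne_zero (fun h => hA 0 h rfl)
  have hB0 : B.prod ≠ 0 := List.prod_ne_zero (fun h => hB 0 h rfl)
  -- the factor
  have hfac : fac (q * x) (A ++ (x⁻¹ :: prs X ++ (B ++ [0]))) =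
      x^(A.length + B.length + 2 * X.length + 1) * A.prod * B.prod * ((om x - om (q^2 * x)) *
        (pom (om (q^2 * x)) (A ++ B) * pom (om (q^2 * x)) (prs X))) := by
    have e : A ++ (x⁻¹ :: prs X ++ (B ++ [0])) = (A ++ (x⁻¹ :: prs X ++ B)) ++ [0] := by simp
    have hne : ∀ z ∈ A ++ (x⁻¹ :: prs X ++ B), z ≠ 0 := by
      intro z hz
      simp only [List.mem_append, List.mem_cons] at hz
      rcases hz with hz | (rfl | hz) | hz
      · exact hA z hz
      · exact hxi
      · exact Pool.Agent.NH38.Step.prs_ne hX z hz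
      · exact hB z hz
    rw [e, Pool.Agent.NH38.Step.fac_app, Pool.Agent.NH38.Step.fac_zero_right,
      Pool.Agent.NH38.Step.fac_eq_pom _ hqx _ hne, Pool.Agent.NH38.Step.om_qq,
      Pool.Agent.NH38.Step.pom_app, Pool.Agent.NH38.Step.pom_app, Pool.Agent.NH38.Step.pom_cons,
      Pool.Agent.NH38.Step.pom_app, Pool.Agent.NH38.Step.om_inv]
    simp only [List.length_append, List.length_cons, List.prod_append, List.prod_cons, prs_length,
      hPX]
    have e3 : -q^2 * (q * x) = -x := by rw [neg_mul, hx2]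
    rw [hx2, e3]
    have e4 : x^(A.length + (2 * X.length + 1 + B.length)) =
        x^(A.length + B.length + 2 * X.length) * x := by
      rw [← pow_succ]; congr 1; ring
    rw [e4, pow_succ x (A.length + B.length + 2 * X.length)]
    field_simp
    ring
  have hc0 : cst A B X.length x⁻¹ ≠ 0 := by
    unfold cst
    exact mul_ne_zero (mul_ne_zero (mul_ne_zero (pow_ne_zero _ hxi) (pow_ne_zero _ hA0))
      (pow_ne_zero _ hB0)) (pow_ne_zero _ hq)
  have hc1 : cst A B (X.length + 1) (q * x) ≠ 0 := by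
    unfold cst
    exact mul_ne_zero (mul_ne_zero (mul_ne_zero (pow_ne_zero _ hqx) (pow_ne_zero _ hA0))
      (pow_ne_zero _ hB0)) (pow_ne_zero _ hq)
  have hcst : cst A B (X.length + 1) (q * x) =
      x^(A.length + B.length + 2 * X.length + 1) * A.prod * B.prod * cst A B X.length x⁻¹ := by
    obtain ⟨s, hs⟩ : ∃ s, A.length + B.length = 2 * s := by
      obtain ⟨m, hm⟩ := ha
      obtain ⟨n, hn⟩ := hb
      exact ⟨m + n + 1, by omega⟩
    unfold cst
    rw [hs, Nat.mul_div_cancel_left _ (by norm_num : 0 < 2)]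
    have e1 : x^(2 * s + 2 * X.length + 1) * x⁻¹^(s + X.length) = x^(s + (X.length + 1)) := by
      have : x^(2 * s + 2 * X.length + 1) = x^(s + (X.length + 1)) * x^(s + X.length) := by ring
      rw [this, mul_assoc, ← mul_pow, mul_inv_cancel₀ hx, one_pow, mul_one]
    have e5 : q^(s + (X.length + 1)) * q^((s + (X.length + 1) + 1) * (s + (X.length + 1)) +
        (na A + na B)) = q^((s + X.length + 1) * (s + X.length) + (na A + na B)) := by
      have h3 : q^(3 * (s + X.length + 1)) = 1 := by rw [pow_mul, q_cube, one_pow]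
      have : q^(s + (X.length + 1)) * q^((s + (X.length + 1) + 1) * (s + (X.length + 1)) +
        (na A + na B)) = q^((s + X.length + 1) * (s + X.length) + (na A + na B)) *
          q^(3 * (s + X.length + 1)) := by ring
      rw [this, h3, mul_one]
    rw [mul_pow, ← e1, ← e5]
    ring
  unfold gh
  rw [Pool.Agent.NH38.Step.prs_cons, List.length_cons, h1, hfac, hcst]
  rw [hcst] at hc1
  field_simp

end Pool.Agent.NH38.Fork
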