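import Pool.Agent.NH38.Fork.Stubs
import Pool.Agent.NH38.Step.C4
import Pool.Agent.H492C.C1
import Pool.Agent.H492C.S1

/-!
Thick slits, job FK-Q7: fusion in `B`.
-/

namespace Pool.Agent.NH38.Fork

open Pool.Agent.H988R2.Perc hiding X
open Pool.Agent.H492C (comb comb2 pairG up1 pairG_act pairG_ins pairG_smul_left pairG_smul_right
  comb2_act_right comb2_smul_right comb2_map_right S1_comb_l S1_comb_r S1_comb_left S1_comb_right)
open Pool.Agent.NH38.Step

namespace Q7

theorem low_lt {i k a : ℕ} (ha : a < 2*k) : St.low (i + 2*k) a = a := by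
  unfold St.low
  rw [if_pos (by omega)]

theorem low_ge {i k a : ℕ} (ha : 2*k ≤ a) (h : a ≠ i + 2*k + 1) :
    St.low (i + 2*k) a = St.low i (a - 2*k) + 2*k ∧ 2*k ≤ St.low (i + 2*k) a := by
  unfold St.low
  split_ifs <;> omega

theorem comb_ins_right' (k i : ℕ) (R R' : St) :
    comb k R (St.ins i R') = St.ins (i + 2*k) (comb k R R') := by
  apply St.ext
  funext a b
  apply propext
  constructor
  · rintro (h1 | ⟨h1, h2, h3⟩ | ⟨h1, h2, h3 | ⟨o1, o2, n1, n2, h3⟩⟩)
    · exact Or.inl h1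
    · rcases R.odd _ _ h3 with h4 | ⟨h4, h5⟩
      · exact Or.inl h4
      · refine Or.inr ⟨h4, h5, by omega, by omega, ?_⟩
        rw [low_lt h1, low_lt h2]
        exact S1_comb_l h1 h2 h3
    · left; omega
    · obtain ⟨l1, l2⟩ := low_ge (i := i) h1 (by omega)
      obtain ⟨l3, l4⟩ := low_ge (i := i) h2 (by omega)
      refine Or.inr ⟨by omega, by omega, by omega, by omega, ?_⟩
      refine S1_comb_r l2 l4 ?_
      rw [l1, l3, Nat.add_sub_cancel, Nat.add_sub_cancel]
      exact h3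
  · rintro (h1 | ⟨o1, o2, n1, n2, h3⟩)
    · exact Or.inl h1
    · rcases Nat.lt_or_ge a (2*k) with ha | ha
      · rw [low_lt ha] at h3
        obtain ⟨-, k2, k3⟩ := S1_comb_left h3 (Or.inl ha)
        rcases Nat.lt_or_ge b (2*k) with hb | hb
        · rw [low_lt hb] at k3
          exact Or.inr (Or.inl ⟨ha, hb, k3⟩)
        · obtain ⟨l1, l2⟩ := low_ge (i := i) hb n2
          omega
      · obtain ⟨l1, l2⟩ := low_ge (i := i) ha n1
        obtain ⟨k1, k2, k3⟩ := S1_comb_right h3 (Or.inl l2)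
        rcases Nat.lt_or_ge b (2*k) with hb | hb
        · rw [low_lt hb] at k2
          omega
        · obtain ⟨l3, l4⟩ := low_ge (i := i) hb n2
          rw [l1, l3, Nat.add_sub_cancel, Nat.add_sub_cancel] at k3
          exact Or.inr (Or.inr ⟨ha, hb, Or.inr ⟨by omega, by omega, by omega, by omega, k3⟩⟩)

theorem comb2_ins_right' (k i : ℕ) (f g : St →₀ ℂ) :
    comb2 k f (Finsupp.mapDomain (St.ins i) g) =
      Finsupp.mapDomain (St.ins (i + 2*k)) (comb2 k f g) :=
  comb2_map_right k _ _ (fun R R' => comb_ins_right' k i R R') f g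

/-- the upper vector -/
theorem up1_fus (B : List ℂ) (v : ℂ) (hB : Odd B.length) (hv : v ≠ 0) :
    Finsupp.mapDomain (St.act 0) (up1 (v :: (q^2 * v) :: B)) =
      fac (q * v⁻¹) (B.map (fun x => x⁻¹) ++ [0]) • Finsupp.mapDomain (St.ins 0) (up1 B) := by
  have e1 : (q^2 * v)⁻¹ = q * v⁻¹ := by rw [mul_inv, q2inv]
  have e2 : up1 (v :: (q^2 * v) :: B) =
      Psi ([] ++ v⁻¹ :: (q * v⁻¹) :: (B.map (fun x => x⁻¹) ++ [0])) := by
    unfold up1
    rw [List.map_cons, List.map_cons, e1]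
    rfl
  have hlen : Even (([] : List ℂ).length + (B.map (fun x => x⁻¹) ++ [(0:ℂ)]).length) := by
    rw [List.length_append, List.length_map, List.length_singleton, List.length_nil, zero_add]
    exact hB.add_one
  have h1 := Psi_exch [] (B.map (fun x => x⁻¹) ++ [(0:ℂ)]) v⁻¹ (q * v⁻¹) hlen
  have h2 := Psi_rec [] (B.map (fun x => x⁻¹) ++ [(0:ℂ)]) (q * v⁻¹) hlen
  have e3 : q^2 * (q * v⁻¹) = v⁻¹ := by rw [← mul_assoc, ← pow_succ, q_cube, one_mul]
  have e4 : q * (q * v⁻¹) - q^2 * v⁻¹ = 0 := by ring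
  have e5 : q * v⁻¹ - q^2 * (q * v⁻¹) = (q - 1) * v⁻¹ := by rw [e3]; ring
  have e6 : q * v⁻¹ - v⁻¹ = (q - 1) * v⁻¹ := by ring
  rw [e4, e5, e6, zero_smul, zero_add] at h1
  have hc : (q - 1) * v⁻¹ ≠ 0 := mul_ne_zero (sub_ne_zero.2 q_ne_one) (inv_ne_zero hv)
  have h3 := smul_right_injective (St →₀ ℂ) hc h1
  rw [e3] at h2
  rw [e2]
  change Finsupp.mapDomain (St.act ([] : List ℂ).length)
    (Psi ([] ++ v⁻¹ :: (q * v⁻¹) :: (B.map (fun x => x⁻¹) ++ [(0:ℂ)]))) = _
  rw [← h3, h2]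
  rfl

/-- the upper vector with two arms -/
theorem U_fus (A B : List ℂ) (m : ℕ) (v : ℂ) (hA : Odd A.length) (hB : Odd B.length)
    (hv : v ≠ 0) :
    Finsupp.mapDomain (St.act (A.length + 1 + 2*m)) (U A m (v :: (q^2 * v) :: B)) =
      fac (q * v⁻¹) (B.map (fun x => x⁻¹) ++ [0]) •
        Finsupp.mapDomain (St.ins (A.length + 1 + 2*m)) (U A m B) := by
  have e1 : A.length + 1 + 2*m = 0 + 2*m + 2*((A.length + 1)/2) := by
    obtain ⟨k, hk⟩ := hA
    omega
  rw [e1]
  unfold U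
  rw [← comb2_act_right, ← comb2_act_right, up1_fus B v hB hv, comb2_smul_right,
    comb2_smul_right, comb2_ins_right', comb2_ins_right']

/-- adjointness -/
theorem pair_ins {p r i : ℕ} (hi : Even i) (f g g' : St →₀ ℂ) (c : ℂ)
    (h : Finsupp.mapDomain (St.act i) g = c • Finsupp.mapDomain (St.ins i) g') :
    pairG (St.up i p) (St.up i r) (Finsupp.mapDomain (St.ins i) f) g = c * pairG p r f g' := by
  have hup : ∀ x, St.up i x ≠ i + 1 := by
    intro x
    unfold St.up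
    split_ifs <;> omega
  have h1 : Finsupp.mapDomain (St.ins i) f =
      Finsupp.mapDomain (St.act i) (Finsupp.mapDomain (St.ins i) f) := by
    rw [← Finsupp.mapDomain_comp]
    congr 1
    funext R
    exact (St.act_ins_self i R).symm
  rw [h1, pairG_act (hup p) (hup r), h, pairG_smul_right, pairG_ins hi]

/-- the raw fusion relation -/
theorem G_fus (A l B : List ℂ) (v : ℂ) (hA : Odd A.length) (hl : Odd l.length)
    (hB : Odd B.length) (hv : v ≠ 0) :
    G A l (v :: (q^2 * v) :: B) = fac v (A ++ (l ++ (B ++ [0]))) *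
      (fac (q * v⁻¹) (B.map (fun x => x⁻¹) ++ [0]) * G A l B) := by
  obtain ⟨k, hk⟩ := hA
  obtain ⟨m, hm⟩ := hl
  have hm2 : (l.length - 1) / 2 = m := by omega
  have hpar : Even ((A ++ l).length + (B ++ [(0:ℂ)]).length) := by
    rw [List.length_append, List.length_append, List.length_singleton]
    obtain ⟨n, hn⟩ := hB
    exact ⟨k + m + n + 2, by omega⟩
  have h1 := Psi_rec (A ++ l) (B ++ [(0:ℂ)]) v hpar
  have e1 : A ++ (l ++ ((v :: (q^2 * v) :: B) ++ [0])) =
      (A ++ l) ++ v :: (q^2 * v) :: (B ++ [0]) := by simp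
  have e2 : A ++ (l ++ (B ++ [0])) = (A ++ l) ++ (B ++ [0]) := by simp
  have e3 : (A ++ l).length = A.length + 1 + 2*m := by
    rw [List.length_append]; omega
  have u1 : St.up (A.length + 1 + 2*m) A.length = A.length := by
    unfold St.up
    rw [if_pos (by omega)]
  have u2 : St.up (A.length + 1 + 2*m) (A.length + l.length + B.length) =
      A.length + l.length + (v :: (q^2 * v) :: B).length := by
    unfold St.up
    obtain ⟨n, hn⟩ := hB
    rw [if_neg (by omega), List.length_cons, List.length_cons]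
    omega
  unfold G
  rw [hm2, e1, h1, e2, e3, pairG_smul_left]
  congr 1
  have h2 := pair_ins (p := A.length) (r := A.length + l.length + B.length)
    (i := A.length + 1 + 2*m) ⟨k + 1 + m, by omega⟩ (Psi (A ++ l ++ (B ++ [0])))
    (U A m (v :: (q^2 * v) :: B)) (U A m B) _ (U_fus A B m v ⟨k, hk⟩ hB hv)
  rw [u1, u2] at h2
  exact h2

theorem pom_map_inv (a : ℂ) (B : List ℂ) : pom a (B.map (fun x => x⁻¹)) = pom a B := by
  induction B with
  | nil => rfl
  | cons x B ih => rw [List.map_cons, pom_cons, pom_cons, ih, om_inv]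

theorem prod_map_inv (B : List ℂ) : (B.map (fun x => x⁻¹)).prod = (B.prod)⁻¹ := by
  induction B with
  | nil => simp
  | cons x B ih => rw [List.map_cons, List.prod_cons, List.prod_cons, ih, mul_inv]

/-- the factor of the upper vector -/
theorem fac_up (B : List ℂ) (v : ℂ) (hv : v ≠ 0) (h0 : NZ B) :
    fac (q * v⁻¹) (B.map (fun x => x⁻¹) ++ [0]) =
      -((v⁻¹)^(B.length + 1) * (B.prod)⁻¹ * pom (om (q * v)) B) := by
  have h1 : ∀ y ∈ B.map (fun x => x⁻¹), y ≠ 0 := by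
    intro y hy
    rw [List.mem_map] at hy
    obtain ⟨x, hx, rfl⟩ := hy
    exact inv_ne_zero (h0 x hx)
  have e3 : q^2 * (q * v⁻¹) = v⁻¹ := by rw [← mul_assoc, ← pow_succ, q_cube, one_mul]
  rw [fac_app, fac_zero_right, fac_eq_pom _ (mul_ne_zero q_ne_zero (inv_ne_zero hv)) _ h1,
    om_qq, om_q2_inv, pom_map_inv, prod_map_inv, List.length_map, neg_mul, e3, pow_succ]
  ring

end Q7

open Q7 in
theorem t_fus : S_fus := by
  intro A X B v w hA hB hA0 hX0 hB0 hv hw
  have hl : Odd (w :: prs X).length := by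
    rw [List.length_cons, prs_length]
    exact ⟨X.length, rfl⟩
  have h1 := G_fus A (w :: prs X) B v hA hl hB hv
  have hne : ∀ y ∈ A ++ ((w :: prs X) ++ B), y ≠ 0 := by
    intro y hy
    rw [List.mem_append, List.mem_append, List.mem_cons] at hy
    rcases hy with hy | (rfl | hy) | hy
    · exact hA0 y hy
    · exact hw
    · exact prs_ne hX0 y hy
    · exact hB0 y hy
  have e1 : A ++ ((w :: prs X) ++ (B ++ [0])) = (A ++ ((w :: prs X) ++ B)) ++ [0] := by simp
  rw [e1, fac_app, fac_zero_right, fac_eq_pom v hv _ hne, fac_up B v hv hB0] at h1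
  unfold gh
  rw [h1]
  obtain ⟨α, hα⟩ := hA
  obtain ⟨β, hβ⟩ := hB
  have hAp : A.prod ≠ 0 := List.prod_ne_zero (fun h => hA0 0 h rfl)
  have hBp : B.prod ≠ 0 := List.prod_ne_zero (fun h => hB0 0 h rfl)
  have hq := q_ne_zero
  have hlen : (A ++ ((w :: prs X) ++ B)).length = 2*α + 2*β + 2*X.length + 3 := by
    rw [List.length_append, List.length_append, List.length_cons, prs_length]
    omega
  have hprod : (A ++ ((w :: prs X) ++ B)).prod = A.prod * (w * B.prod) := by
    rw [List.prod_append, List.prod_append, List.prod_cons, prs_prod hX0, mul_one]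
  have hpom : pom (om (q * v)) (A ++ ((w :: prs X) ++ B)) =
      (om (q * v) - om w) * pom (om (q * v)) (A ++ B) * pom (om (q * v)) (prs X) := by
    rw [pom_app, pom_app, pom_app, pom_cons]
    ring
  rw [hlen, hprod, hpom]
  unfold cst na
  simp only [List.length_cons, List.prod_cons]
  have d1 : (A.length + (B.length + 1 + 1)) / 2 = α + β + 2 := by omega
  have d2 : (A.length + B.length) / 2 = α + β + 1 := by omega
  have d3 : (B.length + 1 + 1 + 1) / 2 = β + 2 := by omega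
  have d4 : (B.length + 1) / 2 = β + 1 := by omega
  have d5 : (A.length + 1) / 2 = α + 1 := by omega
  have d6 : (A.length - 1) / 2 = α := by omega
  have d7 : (B.length + 1 + 1 - 1) / 2 = β + 1 := by omega
  have d8 : (B.length - 1) / 2 = β := by omega
  rw [d1, d2, d3, d4, d5, d6, d7, d8, hβ]
  obtain ⟨K, hK⟩ : ∃ K, K = X.length := ⟨_, rfl⟩
  rw [← hK]
  obtain ⟨c, hc⟩ : ∃ c : ℂ, c = w^(α+β+1+K) * A.prod^(β+1+K) * B.prod^(α+1+K) *
      q^((α+β+1+K+1)*(α+β+1+K) + ((α+1)*α + (β+1)*β)) := ⟨_, rfl⟩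
  have hc0 : c ≠ 0 := by
    rw [hc]
    exact mul_ne_zero (mul_ne_zero (mul_ne_zero (pow_ne_zero _ hw) (pow_ne_zero _ hAp))
      (pow_ne_zero _ hBp)) (pow_ne_zero _ hq)
  have hr0 : w * A.prod * (q^(4*α+4*β+4*K+8) * v^(2*α+2*K+2)) ≠ 0 :=
    mul_ne_zero (mul_ne_zero hw hAp) (mul_ne_zero (pow_ne_zero _ hq) (pow_ne_zero _ hv))
  have hcc : w^(α+β+2+K) * A.prod^(β+2+K) * (v * (q^2 * v * B.prod))^(α+1+K) *
      q^((α+β+2+K+1)*(α+β+2+K) + ((α+1)*α + (β+2)*(β+1))) =
      c * (w * A.prod * (q^(4*α+4*β+4*K+8) * v^(2*α+2*K+2))) := by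
    rw [hc]
    ring
  have hF : (q^2 * v)^(2*α+2*β+2*K+3) * (A.prod * (w * B.prod)) * (-q^2 * v) *
      (-((v⁻¹)^(2*β+1+1) * (B.prod)⁻¹)) =
      w * A.prod * (q^(4*α+4*β+4*K+8) * v^(2*α+2*K+2)) := by
    have g1 : v^(2*β+1+1) * (v⁻¹)^(2*β+1+1) = 1 := by
      rw [← mul_pow, mul_inv_cancel₀ hv, one_pow]
    have g2 : B.prod * (B.prod)⁻¹ = 1 := mul_inv_cancel₀ hBp
    generalize (v⁻¹)^(2*β+1+1) = v' at *
    generalize (B.prod)⁻¹ = b' at *
    calc (q^2 * v)^(2*α+2*β+2*K+3) * (A.prod * (w * B.prod)) * (-q^2 * v) * (-(v' * b'))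
        = w * A.prod * (q^(4*α+4*β+4*K+8) * v^(2*α+2*K+2)) * (v^(2*β+1+1) * v') *
          (B.prod * b') := by ring
      _ = _ := by rw [g1, g2, mul_one, mul_one]
  rw [hcc, ← hc]
  generalize pom (om (q * v)) (A ++ B) = P1 at *
  generalize pom (om (q * v)) (prs X) = P2 at *
  generalize pom (om (q * v)) B = P3 at *
  generalize G A (w :: prs X) B = g at *
  generalize w * A.prod * (q^(4*α+4*β+4*K+8) * v^(2*α+2*K+2)) = r at *
  rw [div_eq_iff (mul_ne_zero hc0 hr0)]
  have g3 : g / c * c = g := div_mul_cancel₀ _ hc0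
  calc _ = ((q^2 * v)^(2*α+2*β+2*K+3) * (A.prod * (w * B.prod)) * (-q^2 * v) *
      (-((v⁻¹)^(2*β+1+1) * (B.prod)⁻¹))) * ((om (q * v) - om w) * P1 * P2 * P3 * g) := by ring
    _ = r * ((om (q * v) - om w) * P1 * P2 * P3 * (g / c * c)) := by rw [hF, g3]
    _ = _ := by ring

end Pool.Agent.NH38.Fork
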