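import Pool.Agent.NH38.Fork.LR
import Pool.Agent.NH38.Step.C6

/-!
Thick slits (helper38), job FK-T (helper56): the total mass.
-/

namespace Pool.Agent.NH38.Fork

open Pool.Agent.H988R2.Perc hiding X
open Pool.Agent.NH38.Step (om prs EE zs prF Gen on cardy pom bev prs_prod prs_ne prs_length
  prF_length prF_ne prF_prod pom_app pom_cons pom_nil pom_perm fac_eq_pom fac_app fac_zero_right
  fac_zero_left om_inv om_q_inv om_q2_inv om_qq om_q2q refl_coeff Z_inv_all zs_mul prF_erase')
open Polynomial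

namespace QT

/-- the normalisation of `zo` -/
noncomputable def dz (l : List ℂ) : ℂ :=
  l.prod^((l.length-1)/2) * q^(((l.length+1)/2) * ((l.length-1)/2))

theorem dz_ne {l : List ℂ} (h : NZ l) : dz l ≠ 0 :=
  mul_ne_zero (pow_ne_zero _ (List.prod_ne_zero fun h0 => h 0 h0 rfl)) (pow_ne_zero _ q_ne_zero)

theorem zo_mul {l : List ℂ} (h : NZ l) : Z (l ++ [0]) = zo l * dz l := by
  unfold zo
  exact (div_mul_cancel₀ _ (dz_ne h)).symm

theorem zo_perm {l l' : List ℂ} (h : Odd l.length) (hp : l.Perm l') : zo l = zo l' := by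
  unfold zo
  rw [Z_perm (by rw [List.length_append]; exact h.add_one) (hp.append_right [0]), hp.prod_eq,
    hp.length_eq]

theorem zo_inv (x : ℂ) (l : List ℂ) (hx : x ≠ 0) (h : Even l.length) :
    zo (x :: l) = zo (x⁻¹ :: l) := by
  obtain ⟨m, hm⟩ := h
  unfold zo
  rw [List.cons_append, List.cons_append, Z_inv x (l ++ [0]) hx ⟨m, by simp; omega⟩]
  simp only [List.prod_cons, List.length_cons, List.length_append, List.length_nil]
  have e1 : (l.length + 1 - 1) / 2 = m := by omega
  have e2 : l.length + (0 + 1) - 1 = m + m := by omega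
  rw [e1, e2, mul_pow, mul_pow, inv_pow, pow_add]
  have hxm : x^m ≠ 0 := pow_ne_zero _ hx
  field_simp

theorem zo_rec (x : ℂ) (l : List ℂ) (hx : x ≠ 0) (hl : NZ l) (h : Odd l.length) :
    zo (x :: (q^2 * x) :: l) = -(pom (om (q * x)) l * zo l) := by
  obtain ⟨m, hm⟩ := h
  have hq := q_ne_zero
  have hp : l.prod ≠ 0 := List.prod_ne_zero (fun h => hl 0 h rfl)
  have h1 := Z_rec [] (l ++ [0]) x (by simp [hm]; exact ⟨m + 1, by ring⟩)
  simp only [List.nil_append] at h1
  have h3 := fac_eq_pom x hx l hl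
  rw [fac_app, fac_zero_right, h3, zo_mul hl] at h1
  have e0 : (x :: (q^2 * x) :: l) ++ [0] = x :: (q^2 * x) :: (l ++ [0]) := rfl
  unfold zo
  rw [e0, h1]
  have hzo : Z (l ++ [0]) / (l.prod^((l.length-1)/2) * q^(((l.length+1)/2) * ((l.length-1)/2))) =
    zo l := rfl
  rw [hzo]
  unfold dz
  simp only [List.prod_cons, List.length_cons]
  have e1 : (l.length + 1 + 1 - 1) / 2 = m + 1 := by omega
  have e2 : (l.length + 1 + 1 + 1) / 2 = m + 2 := by omega
  have e3 : (l.length - 1) / 2 = m := by omega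
  have e4 : (l.length + 1) / 2 = m + 1 := by omega
  rw [e1, e2, e3, e4, hm]
  have hqx : q^2 * x ≠ 0 := mul_ne_zero (pow_ne_zero 2 hq) hx
  have hden : (x * (q^2 * x * l.prod))^(m+1) * q^((m+2) * (m+1)) ≠ 0 :=
    mul_ne_zero (pow_ne_zero _ (mul_ne_zero hx (mul_ne_zero hqx hp))) (pow_ne_zero _ hq)
  rw [div_eq_iff hden]
  ring

/-- the degree in one variable, and the extreme coefficients -/
theorem zo_lau (l : List ℂ) (m : ℕ) (hl : NZ l) (hm : l.length = 2 * (m + 1)) :
    Lau (2 * (m + 1)) (m + 1) (fun w => zo (w :: l)) (zs l) (zs l) := by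
  have hq := q_ne_zero
  have hp : l.prod ≠ 0 := List.prod_ne_zero (fun h => hl 0 h rfl)
  obtain ⟨P, hP, hPe⟩ := (Z_pd (l.length + 2) (by rw [hm]; exact ⟨m + 2, by ring⟩)).univ [] (l ++ [0])
    (by simp)
  simp only [List.nil_append] at hPe
  obtain ⟨d, hd⟩ : ∃ d : ℂ, d = l.prod^(m+1) * q^((m+2) * (m+1)) := ⟨_, rfl⟩
  have hd0 : d ≠ 0 := by
    rw [hd]
    exact mul_ne_zero (pow_ne_zero _ hp) (pow_ne_zero _ hq)
  have hdeg : P.natDegree ≤ 2 * (m + 1) := by
    refine hP.trans ?_
    rw [hm]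
    omega
  have hc0 : P.coeff 0 = zs l * d := by
    rw [Polynomial.coeff_zero_eq_eval_zero, ← hPe]
    have p1 : (0 :: (l ++ [0])).Perm (0 :: (q^2 * 0) :: l) := by
      rw [mul_zero]
      exact (List.perm_append_comm).cons 0
    rw [Z_perm (by simp [hm]; exact ⟨m + 2, by ring⟩) p1]
    have h1 := Z_rec [] l 0 (by simp [hm])
    simp only [List.nil_append] at h1
    rw [h1, fac_zero_left, ← zs_mul hl, hd, hm]
    have e1 : 2 * (m + 1) / 2 = m + 1 := by omega
    rw [e1, Nat.add_sub_cancel]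
    ring
  have hrefl : P.coeff (2 * (m + 1)) = P.coeff 0 := by
    refine refl_coeff P _ hdeg fun w hw => ?_
    rw [← hPe, ← hPe, Z_inv w (l ++ [0]) hw ⟨m + 1, by simp [hm]⟩]
    congr 2
    simp [hm]
  refine ⟨P * C d⁻¹, (Polynomial.natDegree_mul_C_le _ _).trans hdeg, ?_, ?_, fun w hw => ?_⟩
  · rw [Polynomial.coeff_mul_C, hc0, mul_assoc, mul_inv_cancel₀ hd0, mul_one]
  · rw [Polynomial.coeff_mul_C, hrefl, hc0, mul_assoc, mul_inv_cancel₀ hd0, mul_one]
  · rw [eval_mul, eval_C, ← hPe]
    unfold zo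
    simp only [List.prod_cons, List.length_cons, List.cons_append]
    have e1 : (l.length + 1 - 1) / 2 = m + 1 := by omega
    have e2 : (l.length + 1 + 1) / 2 = m + 2 := by omega
    rw [e1, e2, hd]
    have hw1 : w^(m+1) ≠ 0 := pow_ne_zero _ hw
    rw [mul_pow]
    field_simp

theorem NZ_append {u v : List ℂ} (hu : NZ u) (hv : NZ v) : NZ (u ++ v) := by
  intro z hz
  rw [List.mem_append] at hz
  rcases hz with h | h
  · exact hu z h
  · exact hv z h

theorem NZ_cons {x : ℂ} {v : List ℂ} (hx : x ≠ 0) (hv : NZ v) : NZ (x :: v) := by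
  intro z hz
  rw [List.mem_cons] at hz
  rcases hz with h | h
  · rw [h]; exact hx
  · exact hv z h

theorem NZ_prs {X : List ℂ} (hX : NZ X) : NZ (prs X) := prs_ne hX

/-- `Z` of the arms -/
theorem Z_arm {A : List ℂ} (ha : Odd A.length) (hA : NZ A) :
    Z (A.map (fun x => x⁻¹) ++ [0]) * A.prod^((A.length - 1) / 2) = zo A * q^(na A) := by
  obtain ⟨m, hm⟩ := ha
  have hp : A.prod ≠ 0 := List.prod_ne_zero (fun h => hA 0 h rfl)
  have h1 := Z_inv_all A [0] hA (by simp [hm]; exact ⟨m + 1, by ring⟩)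
  rw [zo_mul hA] at h1
  unfold dz at h1
  unfold na
  have e1 : A.length + [(0:ℂ)].length - 2 = m + m := by simp; omega
  have e2 : (A.length - 1) / 2 = m := by omega
  rw [e1, e2, pow_add] at h1
  rw [e2]
  have hpm : A.prod^m ≠ 0 := pow_ne_zero _ hp
  refine mul_left_cancel₀ hpm ?_
  linear_combination -h1

/-- regularity of `Z (l, 0)` -/
theorem LR_Z0 {P : ℂ[X]} (l : List (ℂ → ℂ → ℂ)) (h : ∀ f ∈ l, UL P f) (hl : Odd l.length) :
    LR P (fun t w => Z (l.map (fun f : ℂ → ℂ → ℂ => f t w) ++ [0])) := by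
  have h1 : LR P (fun t w => Z ((l ++ [fun _ _ => (0:ℂ)]).map (fun f : ℂ → ℂ → ℂ => f t w))) := by
    refine LR.of_PD (Z_pd (l.length + 1) hl.add_one) _ (by simp) ?_
    intro f hf
    rw [List.mem_append, List.mem_singleton] at hf
    rcases hf with hf | hf
    · exact (h f hf).1
    · rw [hf]; exact LR.const 0
  refine h1.congr fun t w _ _ => ?_
  rw [List.map_append, List.map_singleton]

/-- regularity of the inverse of the normalisation -/
theorem LR_dz {P : ℂ[X]} (l : List (ℂ → ℂ → ℂ)) (h : ∀ f ∈ l, UL P f) :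
    LR P (fun t w => (dz (l.map (fun f : ℂ → ℂ → ℂ => f t w)))⁻¹) := by
  have h0 : UL P (fun t w => (l.map (fun f : ℂ → ℂ → ℂ => f t w)).prod) :=
    UL.list_prod l (fun f : ℂ → ℂ → ℂ => f) h
  have h2 := ((h0.pow ((l.length-1)/2)).mul
    (UL.const (P := P) (q^(((l.length+1)/2) * ((l.length-1)/2))))).2
  refine h2.congr fun t w _ _ => ?_
  unfold dz
  rw [List.length_map]

/-- regularity of `zo` -/
theorem LR_zo {P : ℂ[X]} (l : List (ℂ → ℂ → ℂ)) (h : ∀ f ∈ l, UL P f) (hl : Odd l.length) :
    LR P (fun t w => zo (l.map (fun f : ℂ → ℂ → ℂ => f t w))) :=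
  ((LR_Z0 l h hl).mul (LR_dz l h)).congr fun t w _ _ => (div_eq_mul_inv _ _).symm

end QT

theorem t_Teq : S_Teq := by
  intro A X B w ha hb hA hX hB hw
  have hp : A.prod ≠ 0 := List.prod_ne_zero (fun h => hA 0 h rfl)
  have hpB : B.prod ≠ 0 := List.prod_ne_zero (fun h => hB 0 h rfl)
  have h1 := QT.Z_arm ha hA
  have h2 := QT.Z_arm hb hB
  have hl : NZ (w :: (A ++ (B ++ prs X))) :=
    QT.NZ_cons hw (QT.NZ_append hA (QT.NZ_append hB (QT.NZ_prs hX)))
  obtain ⟨m, hm⟩ := ha
  obtain ⟨n, hn⟩ := hb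
  have p1 : (A ++ ((w :: prs X) ++ (B ++ [0]))).Perm ((w :: (A ++ (B ++ prs X))) ++ [0]) := by
    have e1 : A ++ ((w :: prs X) ++ (B ++ [0])) = (A ++ w :: (prs X ++ B)) ++ [0] := by simp
    rw [e1]
    refine List.Perm.append_right [0] ?_
    refine List.perm_middle.trans (List.Perm.cons _ ?_)
    exact List.Perm.append_left A List.perm_append_comm
  have hlen : (A ++ ((w :: prs X) ++ (B ++ [0]))).length = 2 * (m + n + X.length + 2) := by
    simp only [List.length_append, List.length_cons, List.length_nil, prs_length, hm, hn]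
    omega
  unfold T cst tt mm
  rw [Z_perm (by rw [hlen]; exact even_two_mul _) p1, QT.zo_mul hl]
  unfold QT.dz
  have hlen2 : (w :: (A ++ (B ++ prs X))).length = 2 * (m + n + 1 + X.length) + 1 := by
    simp only [List.length_append, List.length_cons, prs_length, hm, hn]
    omega
  have e1 : ((w :: (A ++ (B ++ prs X))).length - 1) / 2 = m + n + 1 + X.length := by omega
  have e2 : ((w :: (A ++ (B ++ prs X))).length + 1) / 2 = m + n + 1 + X.length + 1 := by omega
  have e3 : (A.length + B.length) / 2 = m + n + 1 := by omega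
  have e4 : (A.length + 1) / 2 = m + 1 := by omega
  have e5 : (B.length + 1) / 2 = n + 1 := by omega
  have e6 : (A.length - 1) / 2 = m := by omega
  have e7 : (B.length - 1) / 2 = n := by omega
  rw [e6] at h1
  rw [e7] at h2
  rw [e1, e2, e3, e4, e5]
  have hpr : (w :: (A ++ (B ++ prs X))).prod = w * (A.prod * B.prod) := by
    rw [List.prod_cons, List.prod_append, List.prod_append, prs_prod hX, mul_one]
  rw [hpr]
  have hA1 : Z (A.map (fun x => x⁻¹) ++ [0]) = zo A * q^(na A) / A.prod^m :=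
    (eq_div_iff (pow_ne_zero _ hp)).mpr h1
  have hB1 : Z (B.map (fun x => x⁻¹) ++ [0]) = zo B * q^(na B) / B.prod^n :=
    (eq_div_iff (pow_ne_zero _ hpB)).mpr h2
  rw [hA1, hB1]
  have hpm : A.prod^m ≠ 0 := pow_ne_zero _ hp
  have hpn : B.prod^n ≠ 0 := pow_ne_zero _ hpB
  rw [pow_add q, pow_add q]
  have f1 : A.prod^(n + 1 + X.length) * A.prod^m = A.prod^(m + n + 1 + X.length) := by
    rw [← pow_add]; congr 1; ring
  have f2 : B.prod^(m + 1 + X.length) * B.prod^n = B.prod^(m + n + 1 + X.length) := by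
    rw [← pow_add]; congr 1; ring
  rw [mul_pow, mul_pow, ← f1, ← f2]
  field_simp

theorem t_ttwid : S_ttwid := by
  intro A X B ha hb hA hX hB
  obtain ⟨m, hm⟩ := ha
  obtain ⟨n, hn⟩ := hb
  have hl : NZ (A ++ (B ++ prs X)) := QT.NZ_append hA (QT.NZ_append hB (QT.NZ_prs hX))
  have hlen : (A ++ (B ++ prs X)).length = 2 * (m + n + X.length + 1) := by
    simp only [List.length_append, prs_length, hm, hn]
    omega
  have h1 := QT.zo_lau _ _ hl hlen
  have e1 : A.length + B.length + 2 * X.length = 2 * (m + n + X.length + 1) := by omega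
  have e2 : (A.length + B.length) / 2 + X.length = m + n + X.length + 1 := by omega
  rw [e1, e2]
  exact h1

theorem t_MFt : S_MFt := by
  intro ι x hx b hb
  have hx0 : ∀ i, x i ≠ 0 := fun i => (hx.1 i).1
  have hX : ∀ s : Finset ι, NZ (s.toList.map x) := by
    intro s z hz
    rw [List.mem_map] at hz
    obtain ⟨i, _, rfl⟩ := hz
    exact hx0 i
  have hF : ∀ s : Finset ι, NZ (prF x s) := fun s => prF_ne x hx0 s
  refine ⟨?_, ?_, ?_, ?_, ?_⟩
  · -- regularity
    intro a s ha A B hA hB
    have h1 : LR (A ++ B).prod (fun t w => zo (((fun _ w => w) ::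
        (fn A ++ (fn B ++ (prs (s.toList.map x)).map (fun c => fun _ _ => c)))).map
          (fun f => f t w))) := by
      refine QT.LR_zo _ ?_ ?_
      · intro f hf
        rw [List.mem_cons, List.mem_append, List.mem_append, List.mem_map] at hf
        rcases hf with hf | hf | hf | hf
        · rw [hf]; exact UL.var
        · exact fn_UL (left_dvd A B) f hf
        · exact fn_UL (right_dvd A B) f hf
        · obtain ⟨c, _, rfl⟩ := hf
          exact UL.const c
      · obtain ⟨m, hm⟩ := ha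
        obtain ⟨n, hn⟩ := hb
        refine ⟨m + n + 1 + (s.toList.map x).length, ?_⟩
        simp only [List.length_cons, List.length_append, fn_length, List.length_map, prs_length,
          hA, hB, hm, hn]
        omega
    refine h1.congr fun t w _ _ => ?_
    unfold tF tt
    rw [List.map_cons, List.map_append, List.map_append, fn_ev, fn_ev, List.map_map]
    congr 4
    exact List.map_id' _
  · -- permutations
    intro a s ha A A' B B' hA hB hA0 hB0 hpA hpB w hw
    unfold tF tt
    refine QT.zo_perm ?_ ((hpA.append (hpB.append_right _)).cons w)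
    obtain ⟨m, hm⟩ := ha
    obtain ⟨n, hn⟩ := hb
    refine ⟨m + n + 1 + (s.toList.map x).length, ?_⟩
    simp only [List.length_cons, List.length_append, List.length_map, prs_length, hA, hB, hm, hn]
    omega
  · -- width
    intro A B s ha hB hA0 hB0
    have h1 := t_ttwid A (s.toList.map x) B ha (by rw [hB]; exact hb) hA0 (hX s) hB0
    rw [List.length_map, Finset.length_toList, hB] at h1
    rw [one_mul, one_mul]
    exact h1
  · -- star
    intro A B u s ha hB hA0 hB0 hu
    obtain ⟨m, hm⟩ := ha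
    obtain ⟨n, hn⟩ := hb
    have hl : NZ (A ++ (B ++ prF x s)) := QT.NZ_append hA0 (QT.NZ_append hB0 (hF s))
    have hlo : Odd (A ++ (B ++ prF x s)).length := by
      refine ⟨m + n + s.card, ?_⟩
      simp only [List.length_append, prF_length, hB, hm, hn]
      omega
    have hui : u⁻¹ ≠ 0 := inv_ne_zero hu
    have e1 : tF x s (u :: A) B (q^2 * u) =
        -(pom (om (q * u)) (A ++ (B ++ prF x s)) * zo (A ++ (B ++ prF x s))) := by
      rw [← QT.zo_rec u _ hu hl hlo]
      refine QT.zo_perm ?_ (List.Perm.swap _ _ _)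
      rw [List.length_cons, List.length_append, List.length_cons]
      have h2 : (A ++ (B ++ prs (s.toList.map x))).length = (A ++ (B ++ prF x s)).length := rfl
      rw [List.length_append] at h2
      obtain ⟨c, hc⟩ := hlo
      refine ⟨c + 1, ?_⟩
      omega
    have e2 : tF x s (u :: A) B (q^2 * u⁻¹) =
        -(pom (om (q^2 * u)) (A ++ (B ++ prF x s)) * zo (A ++ (B ++ prF x s))) := by
      rw [← om_q_inv u, ← QT.zo_rec u⁻¹ _ hui hl hlo]
      have h3 : tF x s (u :: A) B (q^2 * u⁻¹) =
          zo (u :: (q^2 * u⁻¹) :: (A ++ (B ++ prF x s))) := by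
        refine QT.zo_perm ?_ (List.Perm.swap _ _ _)
        rw [List.length_cons, List.length_append, List.length_cons]
        have h2 : (A ++ (B ++ prs (s.toList.map x))).length = (A ++ (B ++ prF x s)).length := rfl
        rw [List.length_append] at h2
        obtain ⟨c, hc⟩ := hlo
        refine ⟨c + 1, ?_⟩
        omega
      rw [h3]
      exact QT.zo_inv u _ hu (by rw [List.length_cons]; exact hlo.add_one)
    rw [e1, e2]
    ring
  · -- node
    intro inst A B s i y ha hB hA0 hB0 hi hy hom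
    obtain ⟨m, hm⟩ := ha
    obtain ⟨n, hn⟩ := hb
    have hinst : inst = (fun a b => Classical.propDecidable (a = b)) := Subsingleton.elim _ _
    have hp : (prF x s).Perm (y :: y⁻¹ :: prF x (s.erase i)) := by
      have h := prF_erase' x hx0 hi y hy hom.symm
      rw [hinst]
      exact h
    obtain ⟨L, hL⟩ : ∃ L, L = prF x (s.erase i) := ⟨_, rfl⟩
    have hLn : NZ L := by rw [hL]; exact hF _
    have hLlen : L.length = 2 * (s.erase i).card := by rw [hL, prF_length]
    have hlodd : Odd (y⁻¹ :: (A ++ (B ++ L))).length := by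
      refine ⟨m + n + 1 + (s.erase i).card, ?_⟩
      simp only [List.length_cons, List.length_append, hLlen, hB, hm, hn]
      omega
    have hlNZ : NZ (y⁻¹ :: (A ++ (B ++ L))) :=
      QT.NZ_cons (inv_ne_zero hy) (QT.NZ_append hA0 (QT.NZ_append hB0 hLn))
    have hqy : q * y ≠ 0 := mul_ne_zero q_ne_zero hy
    have e1 : tF x s A B (q * y) =
        -(pom (om (q^2 * y)) (y⁻¹ :: (A ++ (B ++ L))) * zo (y⁻¹ :: (A ++ (B ++ L)))) := by
      have h2 := QT.zo_rec (q * y) _ hqy hlNZ hlodd
      have e : q^2 * (q * y) = y := by rw [← mul_assoc, ← pow_succ, q_cube, one_mul]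
      rw [e, om_qq] at h2
      rw [← h2]
      have hp2 : ((q * y) :: (A ++ (B ++ prF x s))).Perm
          ((q * y) :: y :: y⁻¹ :: (A ++ (B ++ L))) := by
        refine List.Perm.cons _ ?_
        refine (List.Perm.append_left A (List.Perm.append_left B hp)).trans ?_
        rw [← hL]
        have e3 : A ++ (B ++ y :: y⁻¹ :: L) = (A ++ B) ++ y :: y⁻¹ :: L := by simp
        have e4 : A ++ (B ++ L) = (A ++ B) ++ L := by simp
        rw [e3, e4]
        exact List.perm_middle.trans (List.Perm.cons _ List.perm_middle)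
      refine QT.zo_perm ?_ hp2
      have hlen := hp2.length_eq
      rw [List.length_cons, List.length_cons] at hlen
      obtain ⟨c, hc⟩ := hlodd
      refine ⟨c + 1, ?_⟩
      have h5 : ((q * y) :: (A ++ (B ++ prs (s.toList.map x)))).length =
        ((q * y) :: (A ++ (B ++ prF x s))).length := rfl
      rw [h5, List.length_cons, hlen, List.length_cons, hc]
      omega
    rw [e1, pom_cons, pom_app, pom_app, pom_app, om_inv, ← hL]
    have e6 : tF x (s.erase i) A B y⁻¹ = zo (y⁻¹ :: (A ++ (B ++ L))) := by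
      rw [hL]; rfl
    rw [e6]
    ring

end Pool.Agent.NH38.Fork
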