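import Pool.Agent.NH38.Fork.M4
import Pool.Agent.H988R2.Perc.T13
import Pool.Agent.H988R2.Perc.T14
import Pool.Agent.H492C.Joint

/-!
Thick slits, task R (helper90): regularity of `zs`, `zo`, `gh`, `Dh` along families of parameters.
-/

namespace Pool.Agent.NH38.Fork

open Pool.Agent.H988R2.Perc hiding X
open Pool.Agent.H492C (comb2 pairG up1 comb jn joint_sum_fin)
open Pool.Agent.NH38.Step
open Polynomial

namespace Rg

open M4

variable {P : ℂ[X]}

/-! ### scalar functions -/

theorem lr_sum {ι : Type} (s : Finset ι) (c : ι → ℂ → ℂ → ℂ) (h : ∀ i ∈ s, LR P (c i)) :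
    LR P (fun t w => ∑ i ∈ s, c i t w) := by
  classical
  induction s using Finset.induction_on with
  | empty => simpa using lr_const (P := P) 0
  | insert i s hi ih =>
    have h1 := (h i (Finset.mem_insert_self _ _)).m4add
      (ih fun j hj => h j (Finset.mem_insert_of_mem hj))
    refine (iff_of_eq (congrArg (LR P) ?_)).mp h1
    funext t w
    rw [Finset.sum_insert hi]

theorem lr_pow {φ : ℂ → ℂ → ℂ} (h : LR P φ) (n : ℕ) : LR P (fun t w => (φ t w)^n) := by
  induction n with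
  | zero => simpa using lr_const (P := P) 1
  | succ n ih =>
    refine (iff_of_eq (congrArg (LR P) ?_)).mp (ih.m4mul h)
    funext t w
    rw [pow_succ]

theorem lr_mv {N : ℕ} (p : MvPolynomial (Fin N) ℂ) (v : Fin N → ℂ → ℂ → ℂ)
    (h : ∀ i, LR P (v i)) : LR P (fun t w => MvPolynomial.eval (fun i => v i t w) p) := by
  induction p using MvPolynomial.induction_on with
  | C a => simpa using lr_const (P := P) a
  | add p q hp hq => simpa using hp.m4add hq
  | mul_X p i hp => simpa using hp.m4mul (h i)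

/-- values of a list of functions -/
def vl (l : List (ℂ → ℂ → ℂ)) (t w : ℂ) : List ℂ := l.map (fun f => f t w)

theorem vl_length (l : List (ℂ → ℂ → ℂ)) (t w : ℂ) : (vl l t w).length = l.length :=
  List.length_map _

theorem vl_app (l m : List (ℂ → ℂ → ℂ)) (t w : ℂ) : vl (l ++ m) t w = vl l t w ++ vl m t w :=
  List.map_append

theorem vl_cons (f : ℂ → ℂ → ℂ) (m : List (ℂ → ℂ → ℂ)) (t w : ℂ) :
    vl (f :: m) t w = f t w :: vl m t w := rfl

theorem lr_pd {N d : ℕ} {F : List ℂ → ℂ} (hF : PD N d F) (l : List (ℂ → ℂ → ℂ))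
    (hl : l.length = N) (h : ∀ f ∈ l, LR P f) : LR P (fun t w => F (vl l t w)) := by
  obtain ⟨p, -, hp⟩ := hF
  have h1 := lr_mv (P := P) p (fun i => l.getD i 0) (fun i => by
    have hi : (i : ℕ) < l.length := by rw [hl]; exact i.2
    rw [List.getD_eq_getElem _ _ hi]
    exact h _ (List.getElem_mem hi))
  refine (iff_of_eq (congrArg (LR P) ?_)).mp h1
  funext t w
  rw [hp _ (by rw [vl_length, hl])]
  congr 1
  congr 1
  funext i
  have hi : (i : ℕ) < l.length := by rw [hl]; exact i.2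
  have hi' : (i : ℕ) < (vl l t w).length := by rw [vl_length]; exact hi
  rw [List.getD_eq_getElem _ _ hi, List.getD_eq_getElem _ _ hi']
  simp [vl]

/-! ### units -/

theorem ul_mul {φ ψ : ℂ → ℂ → ℂ} (h1 : UL P φ) (h2 : UL P ψ) :
    UL P (fun t w => φ t w * ψ t w) := by
  refine ⟨h1.1.m4mul h2.1, ?_⟩
  refine (iff_of_eq (congrArg (LR P) ?_)).mp (h1.2.m4mul h2.2)
  funext t w
  rw [mul_inv]

theorem ul_pow {φ : ℂ → ℂ → ℂ} (h : UL P φ) (n : ℕ) : UL P (fun t w => (φ t w)^n) := by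
  refine ⟨lr_pow h.1 n, ?_⟩
  refine (iff_of_eq (congrArg (LR P) ?_)).mp (lr_pow h.2 n)
  funext t w
  rw [inv_pow]

theorem ul_inv' {φ : ℂ → ℂ → ℂ} (h : UL P φ) : UL P (fun t w => (φ t w)⁻¹) :=
  ⟨h.2, by simpa using h.1⟩

theorem ul_prod (l : List (ℂ → ℂ → ℂ)) (h : ∀ f ∈ l, UL P f) :
    UL P (fun t w => (vl l t w).prod) := by
  induction l with
  | nil => simpa [vl] using ul_const (P := P) 1
  | cons f l ih =>
    have h1 := ul_mul (h f (by simp)) (ih fun g hg => h g (by simp [hg]))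
    refine (iff_of_eq (congrArg (UL P) ?_)).mp h1
    funext t w
    rw [vl_cons, List.prod_cons]

/-! ### `zs` and `zo` -/

theorem lr_zs (l : List (ℂ → ℂ → ℂ)) (h : ∀ f ∈ l, UL P f) (he : Even l.length) :
    LR P (fun t w => zs (vl l t w)) := by
  have h1 := lr_pd (P := P) (Z_pd l.length he) l rfl (fun f hf => (h f hf).1)
  have h2 := ul_mul (ul_pow (ul_prod l h) (l.length/2 - 1))
    (ul_const (P := P) (q^((l.length/2) * (l.length/2 - 1))))
  refine (iff_of_eq (congrArg (LR P) ?_)).mp (h1.m4mul h2.2)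
  funext t w
  unfold zs
  rw [vl_length, div_eq_mul_inv]

theorem lr_zo (l : List (ℂ → ℂ → ℂ)) (h : ∀ f ∈ l, UL P f) (he : Odd l.length) :
    LR P (fun t w => zo (vl l t w)) := by
  have h1 := lr_pd (P := P) (Z_pd (l.length + 1) he.add_one) (l ++ [fun _ _ => 0]) (by simp)
    (fun f hf => by
      rcases List.mem_append.mp hf with hf | hf
      · exact (h f hf).1
      · rw [List.mem_singleton] at hf
        rw [hf]
        exact lr_const 0)
  have h2 := ul_mul (ul_pow (ul_prod l h) ((l.length - 1)/2))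
    (ul_const (P := P) (q^(((l.length + 1)/2) * ((l.length - 1)/2))))
  refine (iff_of_eq (congrArg (LR P) ?_)).mp (h1.m4mul h2.2)
  funext t w
  unfold zo
  rw [vl_length, div_eq_mul_inv, vl_app]
  rfl

/-! ### families of vectors -/

/-- families of vectors -/
def VLR (P : ℂ[X]) (V : ℂ → ℂ → (St →₀ ℂ)) : Prop :=
  ∃ (ι : Type) (s : Finset ι) (x : ι → St) (c : ι → ℂ → ℂ → ℂ), (∀ i ∈ s, LR P (c i)) ∧
    ∀ t w, V t w = ∑ i ∈ s, Finsupp.single (x i) (c i t w)

theorem vlr_psi (l : List (ℂ → ℂ → ℂ)) (h : ∀ f ∈ l, LR P f) :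
    VLR P (fun t w => Psi (vl l t w)) := by
  refine ⟨Word, LP l.length, Phi (l.length / 2), fun v t w => Fw v (vl l t w), ?_, ?_⟩
  · intro v hv
    exact lr_pd (Fw_V hv).pd l rfl h
  · intro t w
    show Psi (vl l t w) = _
    unfold Psi
    rw [vl_length]

theorem vlr_single (R : St) : VLR P (fun _ _ => Finsupp.single R 1) :=
  ⟨Unit, {()}, fun _ => R, fun _ _ _ => 1, fun _ _ => lr_const 1, fun t w => by simp⟩

theorem vlr_map {V : ℂ → ℂ → (St →₀ ℂ)} (h : VLR P V) (f : St → St) :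
    VLR P (fun t w => Finsupp.mapDomain f (V t w)) := by
  obtain ⟨ι, s, x, c, hc, hV⟩ := h
  refine ⟨ι, s, fun i => f (x i), c, hc, fun t w => ?_⟩
  show Finsupp.mapDomain f (V t w) = _
  rw [hV, Finsupp.mapDomain_finsetSum]
  exact Finset.sum_congr rfl fun i _ => Finsupp.mapDomain_single

theorem vlr_sub {V W : ℂ → ℂ → (St →₀ ℂ)} (h1 : VLR P V) (h2 : VLR P W) :
    VLR P (fun t w => V t w - W t w) := by
  obtain ⟨ι, s, x, c, hc, hV⟩ := h1
  obtain ⟨κ, s', y, d, hd, hW⟩ := h2
  refine ⟨ι ⊕ κ, s.disjSum s', Sum.elim x y, Sum.elim c (fun j t w => -1 * d j t w), ?_, ?_⟩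
  · intro i hi
    rcases i with i | i
    · exact hc i (by simpa using hi)
    · exact (lr_const (-1)).m4mul (hd i (by simpa using hi))
  · intro t w
    show V t w - W t w = _
    rw [hV, hW, Finset.sum_disjSum]
    simp only [Sum.elim_inl, Sum.elim_inr, neg_one_mul, Finsupp.single_neg, Finset.sum_neg_distrib]
    rw [sub_eq_add_neg]

theorem vlr_comb2 {V W : ℂ → ℂ → (St →₀ ℂ)} (h1 : VLR P V) (h2 : VLR P W) (k : ℕ) :
    VLR P (fun t w => comb2 k (V t w) (W t w)) := by
  obtain ⟨ι, s, x, c, hc, hV⟩ := h1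
  obtain ⟨κ, s', y, d, hd, hW⟩ := h2
  refine ⟨ι × κ, s ×ˢ s', fun i => comb k (x i.1) (y i.2), fun i t w => c i.1 t w * d i.2 t w,
    ?_, ?_⟩
  · intro i hi
    rw [Finset.mem_product] at hi
    exact (hc _ hi.1).m4mul (hd _ hi.2)
  · intro t w
    show comb2 k (V t w) (W t w) = _
    rw [hV, hW]
    unfold comb2
    rw [joint_sum_fin, Finset.sum_product]
    · refine Finset.sum_congr rfl fun i _ => ?_
      rw [joint_sum_fin]
      · intro R
        simp
      · intro R a b
        rw [mul_add, Finsupp.single_add]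
    · intro R
      simp
    · intro R a b
      rw [← Finsupp.sum_add]
      refine Finsupp.sum_congr fun R' _ => ?_
      rw [add_mul, Finsupp.single_add]

open Classical in
theorem lr_pairG {V W : ℂ → ℂ → (St →₀ ℂ)} (h1 : VLR P V) (h2 : VLR P W) (p r : ℕ) :
    LR P (fun t w => pairG p r (V t w) (W t w)) := by
  obtain ⟨ι, s, x, c, hc, hV⟩ := h1
  obtain ⟨κ, s', y, d, hd, hW⟩ := h2
  have h3 : LR P (fun t w => ∑ i ∈ s, ∑ j ∈ s', c i t w * d j t w *
      (if jn p r (x i) (y j) then 1 else 0)) := by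
    refine lr_sum s (fun i t w => ∑ j ∈ s', c i t w * d j t w *
      (if jn p r (x i) (y j) then 1 else 0)) fun i hi => ?_
    refine lr_sum s' (fun j t w => c i t w * d j t w *
      (if jn p r (x i) (y j) then 1 else 0)) fun j hj => ?_
    exact ((hc i hi).m4mul (hd j hj)).m4mul (lr_const _)
  refine (iff_of_eq (congrArg (LR P) ?_)).mp h3
  funext t w
  rw [hV, hW]
  unfold pairG
  rw [joint_sum_fin]
  · refine Finset.sum_congr rfl fun i _ => ?_
    rw [joint_sum_fin]
    · intro R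
      simp
    · intro R a b
      ring
  · intro R
    simp
  · intro R a b
    rw [← Finsupp.sum_add]
    refine Finsupp.sum_congr fun R' _ => ?_
    ring

/-! ### the amplitudes -/

/-- inverses -/
noncomputable def iv (l : List (ℂ → ℂ → ℂ)) : List (ℂ → ℂ → ℂ) :=
  l.map (fun f t w => (f t w)⁻¹) ++ [fun _ _ => 0]

theorem vl_iv (l : List (ℂ → ℂ → ℂ)) (t w : ℂ) :
    vl (iv l) t w = (vl l t w).map (fun x => x⁻¹) ++ [0] := by
  unfold iv
  rw [vl_app]
  unfold vl
  rw [List.map_map, List.map_map]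
  rfl

theorem vlr_up (l : List (ℂ → ℂ → ℂ)) (h : ∀ f ∈ l, UL P f) :
    VLR P (fun t w => up1 (vl l t w)) := by
  have h1 := vlr_psi (P := P) (iv l) (fun f hf => by
    unfold iv at hf
    rcases List.mem_append.mp hf with hf | hf
    · rw [List.mem_map] at hf
      obtain ⟨g, hg, rfl⟩ := hf
      exact (h g hg).2
    · rw [List.mem_singleton] at hf
      rw [hf]
      exact lr_const 0)
  refine (iff_of_eq (congrArg (VLR P) ?_)).mp h1
  funext t w
  rw [vl_iv]
  rfl

theorem vlr_U (A B : List (ℂ → ℂ → ℂ)) (m : ℕ) (hA : ∀ f ∈ A, UL P f) (hB : ∀ f ∈ B, UL P f) :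
    VLR P (fun t w => U (vl A t w) m (vl B t w)) := by
  have h1 := vlr_comb2 (vlr_up A hA) (vlr_comb2 (vlr_single (P := P) St.bot) (vlr_up B hB) m)
    ((A.length + 1)/2)
  refine (iff_of_eq (congrArg (VLR P) ?_)).mp h1
  funext t w
  unfold U
  rw [vl_length]

theorem lr_G (A l B : List (ℂ → ℂ → ℂ)) (hA : ∀ f ∈ A, UL P f) (hl : ∀ f ∈ l, UL P f)
    (hB : ∀ f ∈ B, UL P f) : LR P (fun t w => G (vl A t w) (vl l t w) (vl B t w)) := by
  have h1 := vlr_psi (P := P) (A ++ (l ++ (B ++ [fun _ _ => 0]))) (fun f hf => by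
    simp only [List.mem_append, List.mem_singleton] at hf
    rcases hf with hf | hf | hf | hf
    · exact (hA f hf).1
    · exact (hl f hf).1
    · exact (hB f hf).1
    · rw [hf]; exact lr_const 0)
  have h2 := lr_pairG h1 (vlr_U A B ((l.length - 1)/2) hA hB) A.length
    (A.length + l.length + B.length)
  refine (iff_of_eq (congrArg (LR P) ?_)).mp h2
  funext t w
  unfold G
  rw [vl_app, vl_app, vl_app, vl_length, vl_length, vl_length]
  rfl

/-- pairs -/
noncomputable def prf (l : List (ℂ → ℂ → ℂ)) : List (ℂ → ℂ → ℂ) :=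
  l.flatMap (fun f => [f, fun t w => (f t w)⁻¹])

theorem vl_prf (l : List (ℂ → ℂ → ℂ)) (t w : ℂ) : vl (prf l) t w = prs (vl l t w) := by
  induction l with
  | nil => rfl
  | cons f l ih =>
    rw [vl_cons, prs_cons, ← ih]
    rfl

theorem ul_prf (l : List (ℂ → ℂ → ℂ)) (h : ∀ f ∈ l, UL P f) : ∀ f ∈ prf l, UL P f := by
  intro f hf
  unfold prf at hf
  rw [List.mem_flatMap] at hf
  obtain ⟨g, hg, hf⟩ := hf
  simp only [List.mem_cons, List.not_mem_nil, or_false] at hf
  rcases hf with rfl | rfl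
  · exact h _ hg
  · exact ul_inv' (h _ hg)

theorem ul_cst (A B : List (ℂ → ℂ → ℂ)) (f : ℂ → ℂ → ℂ) (k : ℕ) (hA : ∀ f ∈ A, UL P f)
    (hB : ∀ f ∈ B, UL P f) (hf : UL P f) :
    UL P (fun t w => cst (vl A t w) (vl B t w) k (f t w)) := by
  have h1 := ul_mul (ul_mul (ul_mul (ul_pow hf ((A.length + B.length)/2 + k))
    (ul_pow (ul_prod A hA) ((B.length+1)/2 + k))) (ul_pow (ul_prod B hB) ((A.length+1)/2 + k)))
    (ul_const (P := P) (q^(((A.length + B.length)/2 + k + 1) * ((A.length + B.length)/2 + k) +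
      (((A.length+1)/2) * ((A.length-1)/2) + ((B.length+1)/2) * ((B.length-1)/2)))))
  refine (iff_of_eq (congrArg (UL P) ?_)).mp h1
  funext t w
  unfold cst na
  rw [vl_length, vl_length]

theorem ul_cst3 (A B : List (ℂ → ℂ → ℂ)) (f h : ℂ → ℂ → ℂ) (hA : ∀ f ∈ A, UL P f)
    (hB : ∀ f ∈ B, UL P f) (hf : UL P f) (hh : UL P h) :
    UL P (fun t w => cst3 (vl A t w) (vl B t w) (f t w) (h t w)) := by
  have h1 := ul_mul (ul_mul (ul_mul (ul_pow (ul_mul hf hh) ((A.length + B.length)/2 + 1))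
    (ul_pow (ul_prod A hA) ((B.length+1)/2 + 1))) (ul_pow (ul_prod B hB) ((A.length+1)/2 + 1)))
    (ul_const (P := P) (q^(((A.length + B.length)/2 + 2) * ((A.length + B.length)/2 + 1) +
      (((A.length+1)/2) * ((A.length-1)/2) + ((B.length+1)/2) * ((B.length-1)/2)))))
  refine (iff_of_eq (congrArg (UL P) ?_)).mp h1
  funext t w
  unfold cst3 na
  rw [vl_length, vl_length]

end Rg

open Rg M4

theorem t_regz : S_regz := fun _ l h => ⟨fun he => lr_zs l h he, fun he => lr_zo l h he⟩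

theorem t_regG : S_regG := by
  intro P A X B f _ _ hA hX hB hf
  have h1 := lr_G A (f :: prf X) B hA (fun g hg => by
    rcases List.mem_cons.mp hg with rfl | hg
    · exact hf
    · exact ul_prf X hX g hg) hB
  refine (iff_of_eq (congrArg (LR P) ?_)).mp (h1.m4mul (ul_cst A B f X.length hA hB hf).2)
  funext t w
  rw [vl_cons, vl_prf, ← div_eq_mul_inv]
  unfold gh
  rw [List.length_map]
  rfl

theorem t_regD : S_regD := by
  intro P A B f h _ _ hA hB hf hh
  have h1 := vlr_psi (P := P) (A ++ f :: h :: (fun _ _ => 0) :: (B ++ [fun _ _ => 0]))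
    (fun g hg => by
      simp only [List.mem_append, List.mem_cons, List.not_mem_nil, or_false] at hg
      rcases hg with hg | hg | hg | hg | hg | hg
      · exact (hA g hg).1
      · rw [hg]; exact hf.1
      · rw [hg]; exact hh.1
      · rw [hg]; exact lr_const 0
      · exact (hB g hg).1
      · rw [hg]; exact lr_const 0)
  have h2 := lr_pairG (vlr_sub (vlr_map h1 (St.act A.length)) h1) (vlr_U A B 1 hA hB) A.length
    (A.length + 3 + B.length)
  refine (iff_of_eq (congrArg (LR P) ?_)).mp (h2.m4mul (ul_cst3 A B f h hA hB hf hh).2)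
  funext t w
  unfold Dh D
  rw [vl_app, vl_cons, vl_cons, vl_cons, vl_app, ← div_eq_mul_inv, List.length_map,
    List.length_map]
  rfl

end Pool.Agent.NH38.Fork
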