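import Pool.Agent.NH38.Fork.Stubs
import Pool.Agent.NH38.Step.C8

/-!
Thick slits (helper38), task U1: the uniqueness lemma with star relations for `A` and `B`.
-/

namespace Pool.Agent.NH38.Fork

open Pool.Agent.H988R2.Perc hiding X
open Pool.Agent.NH38.Step (om zs pom bev bev_mul bev_C Rel uniq sp sp_norm sp_ne sp_ge nq nq2 Rad
  rad_exists om_eq_iff om_inv q4 pom_cons pom_nil pom_app)
open Polynomial Filter Topology

namespace U1

/-- segments -/
noncomputable def sg (a b : ℂ) : ℂ[X] := C a + X * C (b - a)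

theorem sg_zero (a b : ℂ) : (sg a b).eval 0 = a := by simp [sg]

theorem sg_one (a b : ℂ) : (sg a b).eval 1 = b := by simp [sg]

theorem zero_gen (c P : ℂ[X]) (hP : P ≠ 0) (h : ∀ t, P.eval t ≠ 0 → c.eval t = 0) : c = 0 := by
  have h1 : c * P = 0 := by
    apply Polynomial.funext
    intro t
    rw [Polynomial.eval_mul, Polynomial.eval_zero]
    by_cases ht : P.eval t = 0
    · rw [ht, mul_zero]
    · rw [h t ht, zero_mul]
  exact (mul_eq_zero.mp h1).resolve_right hP

theorem poly_eq (p p' : ℂ[X]) (h : ∀ w, w ≠ 0 → p.eval w = p'.eval w) : p = p' := by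
  have h1 : (p - p') = 0 := by
    refine zero_gen _ X X_ne_zero fun w hw => ?_
    rw [eval_X] at hw
    rw [eval_sub, h w hw, sub_self]
  exact sub_eq_zero.mp h1

theorem bev_Xpow (k : ℕ) (t w : ℂ) : bev ((X : ℂ[X][X])^k) t w = w^k := by
  simp [bev]

/-- normal form of a family -/
theorem clean {P : ℂ[X]} (hP : P ≠ 0) {φ : ℂ → ℂ → ℂ} (hLR : LR P φ) (n m : ℕ)
    (hpoly : ∀ t, P.eval t ≠ 0 → ∃ f : ℂ[X], f.natDegree ≤ n ∧ f.coeff 0 = 0 ∧
      ∀ w, w ≠ 0 → φ t w * w^m = f.eval w) :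
    ∃ (F : ℂ[X][X]) (j : ℕ), F.natDegree ≤ n ∧ F.coeff 0 = 0 ∧
      ∀ t w, P.eval t ≠ 0 → w ≠ 0 → bev F t w = φ t w * (P.eval t)^j * w^m := by
  obtain ⟨F0, j, hF0⟩ := hLR
  set G : ℂ[X][X] := F0 * X^m with hG
  have hGt : ∀ t, P.eval t ≠ 0 → ∃ f : ℂ[X], f.natDegree ≤ n ∧ f.coeff 0 = 0 ∧
      G.map (evalRingHom t) = X^j * (C ((P.eval t)^j) * f) := by
    intro t ht
    obtain ⟨f, f1, f2, f3⟩ := hpoly t ht
    refine ⟨f, f1, f2, poly_eq _ _ fun w hw => ?_⟩
    have h1 : (G.map (evalRingHom t)).eval w = bev G t w := rfl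
    rw [h1, hG, bev_mul, bev_Xpow, ← hF0 t w ht hw]
    simp only [eval_mul, eval_pow, eval_X, eval_C]
    rw [← f3 w hw]
    ring
  have hlow : ∀ k, k < j → G.coeff k = 0 := by
    intro k hk
    refine zero_gen _ P hP fun t ht => ?_
    obtain ⟨f, f1, f2, f3⟩ := hGt t ht
    have h1 : (G.coeff k).eval t = (G.map (evalRingHom t)).coeff k := by simp [coeff_map]
    rw [h1, f3, coeff_X_pow_mul', if_neg (by omega)]
  obtain ⟨F, hF⟩ := (X_pow_dvd_iff).mpr hlow
  have hco : ∀ k, F.coeff k = G.coeff (k + j) := by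
    intro k
    rw [hF, coeff_X_pow_mul]
  have hcot : ∀ k t, P.eval t ≠ 0 → ∃ f : ℂ[X], f.natDegree ≤ n ∧ f.coeff 0 = 0 ∧
      (F.coeff k).eval t = (P.eval t)^j * f.coeff k := by
    intro k t ht
    obtain ⟨f, f1, f2, f3⟩ := hGt t ht
    refine ⟨f, f1, f2, ?_⟩
    have h1 : (G.coeff (k + j)).eval t = (G.map (evalRingHom t)).coeff (k + j) := by
      simp [coeff_map]
    rw [hco, h1, f3, coeff_X_pow_mul, coeff_C_mul]
  refine ⟨F, j, ?_, ?_, ?_⟩
  · rw [natDegree_le_iff_coeff_eq_zero]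
    intro k hk
    refine zero_gen _ P hP fun t ht => ?_
    obtain ⟨f, f1, f2, f3⟩ := hcot k t ht
    rw [f3, natDegree_le_iff_coeff_eq_zero.mp f1 k hk, mul_zero]
  · refine zero_gen _ P hP fun t ht => ?_
    obtain ⟨f, f1, f2, f3⟩ := hcot 0 t ht
    rw [f3, f2, mul_zero]
  · intro t w ht hw
    have h1 : bev G t w = w^j * bev F t w := by rw [hF, bev_mul, bev_Xpow]
    have h2 : bev G t w = φ t w * (P.eval t * w)^j * w^m := by
      rw [hG, bev_mul, bev_Xpow, ← hF0 t w ht hw]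
    have hwj : w^j ≠ 0 := pow_ne_zero _ hw
    apply mul_left_cancel₀ hwj
    rw [← h1, h2]
    ring

/-! ### lists -/

theorem ev_perm {L L' : List ℂ[X]} (h : L.Perm L') (t : ℂ) : (ev L t).Perm (ev L' t) := h.map _

theorem ev_cons (p : ℂ[X]) (L : List ℂ[X]) (t : ℂ) : ev (p :: L) t = p.eval t :: ev L t := rfl

theorem ev_app (L L' : List ℂ[X]) (t : ℂ) : ev (L ++ L') t = ev L t ++ ev L' t := by
  simp [ev]

theorem ev_len (L : List ℂ[X]) (t : ℂ) : (ev L t).length = L.length := by simp [ev]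

theorem prod_eval_ne {L : List ℂ[X]} {t : ℂ} : L.prod.eval t ≠ 0 ↔ ∀ p ∈ L, p.eval t ≠ 0 := by
  induction L with
  | nil => simp
  | cons p L ih =>
    rw [List.prod_cons, eval_mul, mul_ne_zero_iff, ih]
    simp

theorem ev_NZ {L : List ℂ[X]} {t : ℂ} (h : ∀ p ∈ L, p.eval t ≠ 0) : NZ (ev L t) := by
  intro z hz
  unfold ev at hz
  rw [List.mem_map] at hz
  obtain ⟨p, hp, rfl⟩ := hz
  exact h p hp

theorem om_cont {g : ℂ → ℂ} {t₁ : ℂ} (hg : ContinuousAt g t₁) (h : g t₁ ≠ 0) :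
    ContinuousAt (fun t => om (g t)) t₁ := by
  unfold om
  exact hg.add (hg.inv₀ h)

theorem pom_cont {R : List ℂ[X]} {t₁ : ℂ} (hR : ∀ p ∈ R, p.eval t₁ ≠ 0) {g : ℂ → ℂ}
    (hg : ContinuousAt g t₁) : ContinuousAt (fun t => pom (g t) (ev R t)) t₁ := by
  induction R with
  | nil =>
    have : (fun t => pom (g t) (ev [] t)) = fun _ => 1 := by
      funext t
      simp [ev, pom_nil]
    rw [this]
    exact continuousAt_const
  | cons p R ih =>
    have : (fun t => pom (g t) (ev (p :: R) t)) = fun t => (g t - om (p.eval t)) *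
        pom (g t) (ev R t) := by
      funext t
      rw [ev_cons, pom_cons]
    rw [this]
    exact (hg.sub (om_cont p.continuous.continuousAt (hR p (by simp)))).mul
      (ih fun p' hp' => hR p' (by simp [hp']))

theorem pom_ne {a : ℂ} {l : List ℂ} (h : ∀ y ∈ l, a ≠ om y) : pom a l ≠ 0 := by
  unfold pom
  apply List.prod_ne_zero
  intro h0
  rw [List.mem_map] at h0
  obtain ⟨y, hy, hy0⟩ := h0
  exact h y hy (sub_eq_zero.mp hy0)

theorem pom_zero {a : ℂ} {l : List ℂ} {y : ℂ} (hy : y ∈ l) (h : a = om y) : pom a l = 0 := by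
  unfold pom
  apply List.prod_eq_zero
  rw [List.mem_map]
  exact ⟨y, hy, by rw [h, sub_self]⟩

/-! ### the chain -/

theorem q_ne_q2 : q ≠ q^2 := by
  intro h
  have hq := q_ne_zero
  have : q * 1 = q * q := by rw [mul_one, ← sq]; exact h
  exact q_ne_one (mul_left_cancel₀ hq this).symm

/-- `q r^s` has another `ω` than the elements of the chain -/
theorem om_chain {r : ℝ} (hr : 1 < r) (s k : ℕ) : om (q * (r:ℂ)^(s+1)) ≠ om (sp r k) := by
  have hrn : ‖(r:ℂ)‖ = r := by rw [Complex.norm_real, Real.norm_of_nonneg (by linarith)]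
  have hr0 : (r:ℂ) ≠ 0 := by
    rw [← norm_pos_iff, hrn]; linarith
  have hn : ‖q * (r:ℂ)^(s+1)‖ = r^(s+1) := by rw [norm_mul, nq, one_mul, norm_pow, hrn]
  have h0 : q * (r:ℂ)^(s+1) ≠ 0 := mul_ne_zero q_ne_zero (pow_ne_zero _ hr0)
  intro he
  rcases (om_eq_iff h0 (sp_ne r hr k)).mp he with h | h
  · have h1 : r^(s+1) = r^(k/2+1) := by rw [← hn, h, sp_norm r hr]
    have h2 : s = k/2 := by
      have := (pow_right_injective₀ (by linarith : (0:ℝ) < r) (by linarith : r ≠ 1)) h1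
      omega
    rw [h2] at h
    have hp : (r:ℂ)^(k/2+1) ≠ 0 := pow_ne_zero _ hr0
    unfold sp at h
    split_ifs at h with hk
    · apply q_ne_one
      apply mul_right_cancel₀ hp
      rw [h, one_mul]
    · exact q_ne_q2 (mul_right_cancel₀ hp h)
  · have h1 : r^(s+1) * r^(k/2+1) = 1 := by
      have := congrArg norm h
      rw [norm_mul, hn, sp_norm r hr, norm_one] at this
      exact this
    have h2 : 1 < r^(s+1) := one_lt_pow₀ hr (by omega)
    have h3 : 1 < r^(k/2+1) := one_lt_pow₀ hr (by omega)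
    nlinarith

theorem sp_even {r : ℝ} {i : ℕ} (h : Even i) : sp r i = (r:ℂ)^(i/2+1) := by
  unfold sp; rw [if_pos h]

theorem sp_odd {r : ℝ} {i : ℕ} (h : ¬ Even i) : sp r i = q^2 * (r:ℂ)^(i/2+1) := by
  unfold sp; rw [if_neg h]

theorem sp_succ {r : ℝ} {i : ℕ} (h : Even i) : sp r (i+1) = q^2 * sp r i := by
  rw [sp_even h, sp_odd (by simpa [Nat.even_add_one] using h)]
  obtain ⟨k, hk⟩ := h
  have : (i+1)/2 = i/2 := by omega
  rw [this]

/-- the value at the index `i` of the chain times `q` (even) or `q²` (odd) -/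
theorem sp_q {r : ℝ} {i : ℕ} (h : Even i) : q * sp r i = q * (r:ℂ)^(i/2+1) := by rw [sp_even h]

theorem sp_q2 {r : ℝ} {i : ℕ} (h : ¬ Even i) : q^2 * sp r i = q * (r:ℂ)^(i/2+1) := by
  rw [sp_odd h, ← mul_assoc, ← pow_add, q4]

/-- the two relations from a star relation -/
theorem rel_of {F : ℂ[X][X]} {P : ℂ[X]} {j m : ℕ} {φ : ℂ → ℂ → ℂ}
    (hF : ∀ t w, P.eval t ≠ 0 → w ≠ 0 → bev F t w = φ t w * (P.eval t)^j * w^m)
    (hP1 : P.eval 1 ≠ 0) (e : ℂ[X]) {u : ℂ[X]} {R : List ℂ[X]} (hu : u.eval 1 ≠ 0)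
    (hR : ∀ p ∈ R, p.eval 1 ≠ 0) {κ κ' : ℂ} (hκ : κ ≠ 0) (hκ' : κ' ≠ 0)
    (hst : ∀ t, P.eval t ≠ 0 → u.eval t ≠ 0 →
      φ t (κ * u.eval t) * e.eval (κ * (u.eval t)⁻¹) * pom (om (κ * u.eval t)) (ev R t) =
        φ t (κ * (u.eval t)⁻¹) * e.eval (κ * u.eval t) * pom (om (κ' * u.eval t)) (ev R t)) :
    (pom (om (κ * u.eval 1)) (ev R 1) = 0 → pom (om (κ' * u.eval 1)) (ev R 1) ≠ 0 →
      e.eval (κ * u.eval 1) ≠ 0 → Rel F 1 (κ * (u.eval 1)⁻¹)) ∧
    (pom (om (κ' * u.eval 1)) (ev R 1) = 0 → pom (om (κ * u.eval 1)) (ev R 1) ≠ 0 →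
      e.eval (κ * (u.eval 1)⁻¹) ≠ 0 → Rel F 1 (κ * u.eval 1)) := by
  have hPev : ∀ᶠ t in 𝓝[≠] (1:ℂ), P.eval t ≠ 0 :=
    (P.continuous.continuousAt.eventually_ne hP1).filter_mono nhdsWithin_le_nhds
  have huev : ∀ᶠ t in 𝓝[≠] (1:ℂ), u.eval t ≠ 0 :=
    (u.continuous.continuousAt.eventually_ne hu).filter_mono nhdsWithin_le_nhds
  have huc : ContinuousAt (fun t => u.eval t) 1 := u.continuous.continuousAt
  have huic : ContinuousAt (fun t => (u.eval t)⁻¹) 1 := huc.inv₀ hu
  have h1c : ContinuousAt (fun t => κ * u.eval t) 1 := continuousAt_const.mul huc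
  have h2c : ContinuousAt (fun t => κ * (u.eval t)⁻¹) 1 := continuousAt_const.mul huic
  have h3c : ContinuousAt (fun t => κ' * u.eval t) 1 := continuousAt_const.mul huc
  have e1c : ContinuousAt (fun t => e.eval (κ * u.eval t)) 1 :=
    (e.continuous.continuousAt).comp h1c
  have e2c : ContinuousAt (fun t => e.eval (κ * (u.eval t)⁻¹)) 1 :=
    (e.continuous.continuousAt).comp h2c
  let c1 : ℂ → ℂ := fun t => (κ * (u.eval t)⁻¹)^m * e.eval (κ * (u.eval t)⁻¹) *
    pom (om (κ * u.eval t)) (ev R t)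
  let c2 : ℂ → ℂ := fun t => (κ * u.eval t)^m * e.eval (κ * u.eval t) *
    pom (om (κ' * u.eval t)) (ev R t)
  have hc1 : ContinuousAt c1 1 := ((h2c.pow m).mul e2c).mul
    (pom_cont hR (om_cont h1c (mul_ne_zero hκ hu)))
  have hc2 : ContinuousAt c2 1 := ((h1c.pow m).mul e1c).mul
    (pom_cont hR (om_cont h3c (mul_ne_zero hκ' hu)))
  have hrel : ∀ᶠ t in 𝓝[≠] (1:ℂ), bev F t (κ * u.eval t) * c1 t =
      bev F t (κ * (u.eval t)⁻¹) * c2 t := by
    filter_upwards [hPev, huev] with t ht hut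
    rw [hF t _ ht (mul_ne_zero hκ hut), hF t _ ht (mul_ne_zero hκ (inv_ne_zero hut))]
    simp only [c1, c2]
    linear_combination ((P.eval t)^j * (κ * u.eval t)^m * (κ * (u.eval t)⁻¹)^m) * hst t ht hut
  constructor
  · intro z1 z2 z3
    refine ⟨fun t => κ * u.eval t, fun t => κ * (u.eval t)⁻¹, c1, c2, h1c, h2c, hc1, hc2, rfl,
      ?_, ?_, ?_⟩
    · simp only [c1, z1, mul_zero]
    · simp only [c2]
      exact mul_ne_zero (mul_ne_zero (pow_ne_zero _ (mul_ne_zero hκ hu)) z3) z2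
    · filter_upwards [hrel] with t ht
      exact ht.symm
  · intro z1 z2 z3
    refine ⟨fun t => κ * (u.eval t)⁻¹, fun t => κ * u.eval t, c2, c1, h2c, h1c, hc2, hc1, rfl,
      ?_, ?_, ?_⟩
    · simp only [c2, z1, mul_zero]
    · simp only [c1]
      exact mul_ne_zero (mul_ne_zero (pow_ne_zero _ (mul_ne_zero hκ (inv_ne_zero hu))) z3) z2
    · exact hrel

/-- the zeros -/
noncomputable def zt (r : ℝ) (b : Prop) [Decidable b] (s : ℕ) : ℂ :=
  if b then q * (r:ℂ)^(s+1) else q^2 * ((r:ℂ)^(s+1))⁻¹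

theorem zt_norm {r : ℝ} (hr : 1 < r) (b : Prop) [Decidable b] (s : ℕ) :
    ‖zt r b s‖ = if b then r^(s+1) else (r^(s+1))⁻¹ := by
  have hrn : ‖(r:ℂ)‖ = r := by rw [Complex.norm_real, Real.norm_of_nonneg (by linarith)]
  unfold zt
  split_ifs
  · rw [norm_mul, nq, one_mul, norm_pow, hrn]
  · rw [norm_mul, nq2, one_mul, norm_inv, norm_pow, hrn]

theorem zt_ne {r : ℝ} (hr : 1 < r) (b : Prop) [Decidable b] (s : ℕ) : zt r b s ≠ 0 := by
  rw [← norm_pos_iff, zt_norm hr]
  have : 0 < r^(s+1) := pow_pos (by linarith) _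
  split_ifs
  · exact this
  · exact inv_pos.mpr this

theorem zt_inj {r : ℝ} (hr : 1 < r) {b b' : Prop} [Decidable b] [Decidable b'] {s s' : ℕ}
    (h : zt r b s = zt r b' s') : (b ↔ b') ∧ s = s' := by
  have h1 := congrArg norm h
  rw [zt_norm hr, zt_norm hr] at h1
  have p1 : 1 < r^(s+1) := one_lt_pow₀ hr (by omega)
  have p2 : 1 < r^(s'+1) := one_lt_pow₀ hr (by omega)
  have p3 : (r^(s+1))⁻¹ < 1 := inv_lt_one_of_one_lt₀ p1
  have p4 : (r^(s'+1))⁻¹ < 1 := inv_lt_one_of_one_lt₀ p2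
  have inj : ∀ {x y : ℕ}, r^(x+1) = r^(y+1) → x = y := by
    intro x y hxy
    have := (pow_right_injective₀ (by linarith : (0:ℝ) < r) (by linarith : r ≠ 1)) hxy
    omega
  by_cases hb : b <;> by_cases hb' : b'
  · rw [if_pos hb, if_pos hb'] at h1
    exact ⟨by tauto, inj h1⟩
  · rw [if_pos hb, if_neg hb'] at h1
    linarith
  · rw [if_neg hb, if_pos hb'] at h1
    linarith
  · rw [if_neg hb, if_neg hb'] at h1
    exact ⟨by tauto, inj (inv_injective h1)⟩

theorem zt_far {r : ℝ} (hr : 1 < r) (b : Prop) [Decidable b] (s : ℕ) :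
    r ≤ ‖zt r b s‖ ∨ r ≤ ‖(zt r b s)⁻¹‖ := by
  have h1 : r ≤ r^(s+1) := Pool.Agent.NH38.Step.pow_lt1 r hr s
  rw [norm_inv, zt_norm hr]
  split_ifs
  · exact Or.inl h1
  · right
    rwa [inv_inv]

theorem zt_congr {r : ℝ} {b b' : Prop} [Decidable b] [Decidable b'] (h : b ↔ b') (s : ℕ) :
    zt r b s = zt r b' s := by
  unfold zt
  by_cases hb : b
  · rw [if_pos hb, if_pos (h.mp hb)]
  · rw [if_neg hb, if_neg (fun h' => hb (h.mpr h'))]

theorem sp_ne_succ {r : ℝ} (hr : 1 < r) {i : ℕ} (h : Even i) : sp r (i+1) ≠ sp r i := by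
  rw [sp_succ h]
  intro h1
  have h2 : q^2 * sp r i = 1 * sp r i := by rw [one_mul]; exact h1
  have h3 : q^2 = 1 := mul_right_cancel₀ (sp_ne r hr i) h2
  apply q_ne_one
  have := q4
  rw [show (4:ℕ) = 2 * 2 from rfl, pow_mul, h3, one_pow] at this
  exact this.symm

end U1

open U1 in
theorem t_G1 : S_G1 := by
  intro a b n m ha hb e he Y hY0 Φ hn hReg hPerm hpoly hsA hsB hY A B hA hB hA0 hB0 w0 hw0
  classical
  obtain ⟨r, hr, hS⟩ := rad_exists (fun y : ℂ => y) (Y ∪ e.roots.toFinset)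
  have he0 : e ≠ 0 := by
    rintro rfl
    simp at he
  have hYr : ∀ y ∈ Y, ‖y‖ < r ∧ ‖y⁻¹‖ < r := fun y hy => hS y (Finset.mem_union_left _ hy)
  have her : ∀ w : ℂ, r ≤ ‖w‖ ∨ r ≤ ‖w⁻¹‖ → e.eval w ≠ 0 := by
    intro w hw h0
    have h1 : w ∈ e.roots.toFinset := by
      rw [Multiset.mem_toFinset, mem_roots he0]
      exact h0
    have h := hS w (Finset.mem_union_right _ h1)
    rcases hw with h1 | h1
    · exact absurd h.1 (not_lt.mpr h1)
    · exact absurd h.2 (not_lt.mpr h1)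
  let pA : ℕ → ℂ[X] := fun i => sg (A.getD i 0) (sp r i)
  let pB : ℕ → ℂ[X] := fun i => sg (B.getD i 0) (sp r (a + i))
  set AL : List ℂ[X] := (List.range a).map pA with hAL
  set BL : List ℂ[X] := (List.range b).map pB with hBL
  have lA : AL.length = a := by simp [hAL]
  have lB : BL.length = b := by simp [hBL]
  have eA0 : ev AL 0 = A := by
    apply List.ext_getElem
    · rw [ev_len, lA, hA]
    · intro i h1 h2
      simp only [ev, hAL, List.getElem_map, List.getElem_range, pA, sg_zero]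
      exact List.getD_eq_getElem _ _ h2
  have eB0 : ev BL 0 = B := by
    apply List.ext_getElem
    · rw [ev_len, lB, hB]
    · intro i h1 h2
      simp only [ev, hBL, List.getElem_map, List.getElem_range, pB, sg_zero]
      exact List.getD_eq_getElem _ _ h2
  have hmem : ∀ y, y ∈ ev (AL ++ BL) 1 ↔ ∃ k < a + b, y = sp r k := by
    intro y
    rw [ev_app, List.mem_append]
    constructor
    · rintro (h | h)
      · simp only [ev, hAL, List.mem_map, List.mem_range] at h
        obtain ⟨p, ⟨i, hi, rfl⟩, rfl⟩ := h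
        exact ⟨i, by omega, by simp only [pA, sg_one]⟩
      · simp only [ev, hBL, List.mem_map, List.mem_range] at h
        obtain ⟨p, ⟨i, hi, rfl⟩, rfl⟩ := h
        exact ⟨a + i, by omega, by simp only [pB, sg_one]⟩
    · rintro ⟨k, hk, rfl⟩
      by_cases h : k < a
      · left
        simp only [ev, hAL, List.mem_map, List.mem_range]
        exact ⟨pA k, ⟨k, h, rfl⟩, by simp only [pA, sg_one]⟩
      · right
        simp only [ev, hBL, List.mem_map, List.mem_range]
        refine ⟨pB (k - a), ⟨k - a, by omega, rfl⟩, ?_⟩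
        simp only [pB, sg_one]
        rw [show a + (k - a) = k by omega]
  set P : ℂ[X] := (AL ++ BL).prod with hPdef
  have hP0 : P.eval 0 ≠ 0 := by
    rw [hPdef, prod_eval_ne]
    intro p hp
    rcases List.mem_append.mp hp with h | h
    · apply hA0
      rw [← eA0]
      exact List.mem_map_of_mem h
    · apply hB0
      rw [← eB0]
      exact List.mem_map_of_mem h
  have hP1 : P.eval 1 ≠ 0 := by
    rw [hPdef, prod_eval_ne]
    intro p hp
    have h1 : p.eval 1 ∈ ev (AL ++ BL) 1 := List.mem_map_of_mem hp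
    obtain ⟨k, -, hk⟩ := (hmem _).mp h1
    rw [hk]
    exact sp_ne r hr k
  have hP : P ≠ 0 := by
    intro h
    rw [h, eval_zero] at hP0
    exact hP0 rfl
  have hgA : ∀ t, P.eval t ≠ 0 → ∀ p ∈ AL, p.eval t ≠ 0 := fun t ht p hp =>
    prod_eval_ne.mp ht p (List.mem_append_left _ hp)
  have hgB : ∀ t, P.eval t ≠ 0 → ∀ p ∈ BL, p.eval t ≠ 0 := fun t ht p hp =>
    prod_eval_ne.mp ht p (List.mem_append_right _ hp)
  obtain ⟨F, j, Fd, F0, hF⟩ := clean hP (hReg AL BL lA lB) n m fun t ht =>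
    hpoly (ev AL t) (ev BL t) (by rw [ev_len, lA]) (by rw [ev_len, lB]) (ev_NZ (hgA t ht))
      (ev_NZ (hgB t ht))
  -- general facts on a splitting
  have gen : ∀ (u : ℂ[X]) (R : List ℂ[X]) (i : ℕ), (AL ++ BL).Perm (u :: R) → u.eval 1 = sp r i →
      (∀ p ∈ R, p.eval 1 ≠ 0) ∧ (∀ s, pom (om (q * (r:ℂ)^(s+1))) (ev R 1) ≠ 0) ∧
      ∀ k, k < a + b → sp r k ≠ sp r i → pom (om (sp r k)) (ev R 1) = 0 := by
    intro u R i hp hu
    have hp1 := ev_perm hp 1
    rw [ev_cons] at hp1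
    have hR : ∀ y ∈ ev R 1, ∃ k, y = sp r k := by
      intro y hy
      have h1 : y ∈ ev (AL ++ BL) 1 := hp1.mem_iff.mpr (List.mem_cons_of_mem _ hy)
      obtain ⟨k, -, hk⟩ := (hmem _).mp h1
      exact ⟨k, hk⟩
    refine ⟨fun p hp' => ?_, fun s => pom_ne fun y hy => ?_, fun k hk hne => ?_⟩
    · obtain ⟨k, hk⟩ := hR (p.eval 1) (List.mem_map_of_mem hp')
      rw [hk]
      exact sp_ne r hr k
    · obtain ⟨k, rfl⟩ := hR y hy
      exact om_chain hr s k
    · have h1 : sp r k ∈ ev (AL ++ BL) 1 := (hmem _).mpr ⟨k, hk, rfl⟩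
      have h2 := hp1.mem_iff.mp h1
      rw [hu, List.mem_cons] at h2
      exact pom_zero (h2.resolve_left hne) rfl
  have hbpos : 1 ≤ b := hb.pos
  have hapos : 1 ≤ a := ha.pos
  -- relations for `A`
  have hrelA : ∀ i, i < a → Rel F 1 (zt r (¬ Even i) (i/2)) := by
    intro i hi
    have hi' : i < AL.length := by rw [lA]; exact hi
    have hu : AL[i] = pA i := by simp [hAL]
    have hperm : AL.Perm (pA i :: AL.eraseIdx i) := by
      rw [← hu]
      exact (List.getElem_cons_eraseIdx_perm hi').symm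
    have hu1 : (pA i).eval 1 = sp r i := by simp only [pA, sg_one]
    have hlr : (AL.eraseIdx i).length + 1 = a := by
      have := hperm.length_eq
      rw [lA, List.length_cons] at this
      exact this.symm
    have hsub : ∀ p ∈ AL.eraseIdx i, p ∈ AL := fun p hp =>
      hperm.mem_iff.mpr (List.mem_cons_of_mem _ hp)
    obtain ⟨g1, g2, g3⟩ := gen (pA i) (AL.eraseIdx i ++ BL) i
      (by rw [← List.cons_append]; exact hperm.append_right BL) hu1
    have hun : (pA i).eval 1 ≠ 0 := by rw [hu1]; exact sp_ne r hr i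
    obtain ⟨r1, r2⟩ := rel_of (κ := q^2) (κ' := q) hF hP1 e hun g1 (pow_ne_zero 2 q_ne_zero)
      q_ne_zero (by
        intro t ht hut
        have hst := hsA (ev (AL.eraseIdx i) t) (ev BL t) ((pA i).eval t)
          (by rw [ev_len]; exact hlr) (by rw [ev_len, lB])
          (ev_NZ fun p hp => hgA t ht p (hsub p hp)) (ev_NZ (hgB t ht)) hut
        have hpt : (ev AL t).Perm ((pA i).eval t :: ev (AL.eraseIdx i) t) := by
          rw [← ev_cons]
          exact ev_perm hperm t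
        have hperm1 : ∀ w, w ≠ 0 → Φ (ev AL t) (ev BL t) w =
            Φ ((pA i).eval t :: ev (AL.eraseIdx i) t) (ev BL t) w := fun w hw =>
          hPerm _ _ _ _ (by rw [ev_len, lA]) (by rw [ev_len, lB]) (ev_NZ (hgA t ht))
            (ev_NZ (hgB t ht)) hpt (List.Perm.refl _) w hw
        have hq2 : q^2 ≠ 0 := pow_ne_zero 2 q_ne_zero
        rw [hperm1 _ (mul_ne_zero hq2 hut), hperm1 _ (mul_ne_zero hq2 (inv_ne_zero hut)), ev_app]
        exact hst)
    rw [hu1] at r1 r2
    by_cases hE : Even i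
    · have h1 := r1 (by rw [← sp_succ hE]; exact g3 (i+1) (by omega) (sp_ne_succ hr hE))
        (by rw [sp_q hE]; exact g2 (i/2))
        (her _ (Or.inl (by rw [norm_mul, nq2, one_mul]; exact sp_ge r hr i)))
      have e1 : zt r (¬ Even i) (i/2) = q^2 * (sp r i)⁻¹ := by
        unfold zt
        rw [if_neg (not_not.mpr hE), sp_even hE]
      rw [e1]
      exact h1
    · obtain ⟨k, rfl⟩ : ∃ k, i = k + 1 := ⟨i - 1, by
        rcases Nat.eq_zero_or_pos i with h | h
        · exfalso; apply hE; rw [h]; exact Even.zero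
        · omega⟩
      have hkE : Even k := by
        rw [Nat.even_add_one, not_not] at hE
        exact hE
      have h1 := r2 (by
        rw [sp_succ hkE, ← mul_assoc, ← pow_succ', q_cube, one_mul]
        exact g3 k (by omega) (sp_ne_succ hr hkE).symm)
        (by rw [sp_q2 hE]; exact g2 ((k+1)/2))
        (her _ (Or.inr (by
          rw [mul_inv, inv_inv, norm_mul, norm_inv, nq2, inv_one, one_mul]
          exact sp_ge r hr _)))
      have e1 : zt r (¬ Even (k+1)) ((k+1)/2) = q^2 * sp r (k+1) := by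
        unfold zt
        rw [if_pos hE, sp_q2 hE]
      rw [e1]
      exact h1
  -- relations for `B`
  have hrelB : ∀ i, i < b → Rel F 1 (zt r (Even (a + i)) ((a + i)/2)) := by
    intro i hi
    have hi' : i < BL.length := by rw [lB]; exact hi
    have hu : BL[i] = pB i := by simp [hBL]
    have hperm : BL.Perm (pB i :: BL.eraseIdx i) := by
      rw [← hu]
      exact (List.getElem_cons_eraseIdx_perm hi').symm
    have hu1 : (pB i).eval 1 = sp r (a + i) := by simp only [pB, sg_one]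
    have hlr : (BL.eraseIdx i).length + 1 = b := by
      have := hperm.length_eq
      rw [lB, List.length_cons] at this
      exact this.symm
    have hsub : ∀ p ∈ BL.eraseIdx i, p ∈ BL := fun p hp =>
      hperm.mem_iff.mpr (List.mem_cons_of_mem _ hp)
    obtain ⟨g1, g2, g3⟩ := gen (pB i) (AL ++ BL.eraseIdx i) (a + i)
      ((hperm.append_left AL).trans List.perm_middle) hu1
    have hun : (pB i).eval 1 ≠ 0 := by rw [hu1]; exact sp_ne r hr _
    obtain ⟨r1, r2⟩ := rel_of (κ := q) (κ' := q^2) hF hP1 e hun g1 q_ne_zero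
      (pow_ne_zero 2 q_ne_zero) (by
        intro t ht hut
        have hst := hsB (ev AL t) (ev (BL.eraseIdx i) t) ((pB i).eval t) (by rw [ev_len, lA])
          (by rw [ev_len]; exact hlr) (ev_NZ (hgA t ht))
          (ev_NZ fun p hp => hgB t ht p (hsub p hp)) hut
        have hpt : (ev BL t).Perm ((pB i).eval t :: ev (BL.eraseIdx i) t) := by
          rw [← ev_cons]
          exact ev_perm hperm t
        have hperm1 : ∀ w, w ≠ 0 → Φ (ev AL t) (ev BL t) w =
            Φ (ev AL t) ((pB i).eval t :: ev (BL.eraseIdx i) t) w := fun w hw =>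
          hPerm _ _ _ _ (by rw [ev_len, lA]) (by rw [ev_len, lB]) (ev_NZ (hgA t ht))
            (ev_NZ (hgB t ht)) (List.Perm.refl _) hpt w hw
        rw [hperm1 _ (mul_ne_zero q_ne_zero hut),
          hperm1 _ (mul_ne_zero q_ne_zero (inv_ne_zero hut)), ev_app]
        exact hst)
    rw [hu1] at r1 r2
    by_cases hE : Even (a + i)
    · have hab : Even (a + b) := ha.add_odd hb
      have hlt : a + i + 1 < a + b := by
        obtain ⟨x, hx⟩ := hE
        obtain ⟨y, hy⟩ := hab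
        omega
      have h1 := r2 (by rw [← sp_succ hE]; exact g3 (a+i+1) hlt (sp_ne_succ hr hE))
        (by rw [sp_q hE]; exact g2 ((a+i)/2))
        (her _ (Or.inr (by
          rw [mul_inv, inv_inv, norm_mul, norm_inv, nq, inv_one, one_mul]
          exact sp_ge r hr _)))
      have e1 : zt r (Even (a + i)) ((a+i)/2) = q * sp r (a+i) := by
        unfold zt
        rw [if_pos hE, sp_q hE]
      rw [e1]
      exact h1
    · obtain ⟨k, hk⟩ : ∃ k, a + i = k + 1 := ⟨a + i - 1, by omega⟩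
      rw [hk] at hE r1 r2 g3 ⊢
      have hkE : Even k := by
        rw [Nat.even_add_one, not_not] at hE
        exact hE
      have h1 := r1 (by
        rw [sp_succ hkE, ← mul_assoc, ← pow_succ', q_cube, one_mul]
        exact g3 k (by omega) (sp_ne_succ hr hkE).symm)
        (by rw [sp_q2 hE]; exact g2 ((k+1)/2))
        (her _ (Or.inl (by rw [norm_mul, nq, one_mul]; exact sp_ge r hr _)))
      have e1 : zt r (Even (k + 1)) ((k+1)/2) = q * (sp r (k+1))⁻¹ := by
        unfold zt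
        rw [if_neg hE, sp_odd hE, mul_inv, Pool.Agent.NH38.Step.q2inv, ← mul_assoc, ← sq]
      rw [e1]
      exact h1
  -- relations for `Y`
  have hrelY : ∀ y ∈ Y, Rel F 1 y := by
    intro y hy
    have hy0 : y ≠ 0 := fun h => hY0 (h ▸ hy)
    refine ⟨fun _ => y, fun _ => y, fun _ => 0, fun _ => 1, continuousAt_const,
      continuousAt_const, continuousAt_const, continuousAt_const, rfl, rfl, one_ne_zero, ?_⟩
    have hPev : ∀ᶠ t in 𝓝[≠] (1:ℂ), P.eval t ≠ 0 :=
      (P.continuous.continuousAt.eventually_ne hP1).filter_mono nhdsWithin_le_nhds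
    filter_upwards [hPev] with t ht
    rw [mul_zero, mul_one, hF t y ht hy0, hY (ev AL t) (ev BL t) (by rw [ev_len, lA])
      (by rw [ev_len, lB]) (ev_NZ (hgA t ht)) (ev_NZ (hgB t ht)) y hy]
    ring
  -- all relations
  let idx : ℕ → ℕ := fun k => if k < a then k else k + 1
  let zz : (Fin (a + b - 1)) ⊕ {y // y ∈ Y} → ℂ := Sum.elim
    (fun k => zt r ((idx k < a ∧ ¬ Even (idx k)) ∨ (a < idx k ∧ Even (idx k))) (idx k / 2))
    (fun y => (y : ℂ))
  have hidx : ∀ k : ℕ, idx k ≠ a := by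
    intro k
    simp only [idx]
    split_ifs <;> omega
  have hidx2 : ∀ k : ℕ, k < a + b - 1 → idx k < a + b := by
    intro k hk
    simp only [idx]
    split_ifs <;> omega
  have hrel : ∀ i, Rel F 1 (zz i) := by
    rintro (k | y)
    · have h1 := hidx k
      have h2 := hidx2 k k.2
      show Rel F 1 (zt r _ _)
      rcases lt_or_gt_of_ne h1 with h3 | h3
      · have h4 := hrelA (idx k) h3
        rwa [zt_congr (b' := (idx k < a ∧ ¬ Even (idx k)) ∨ (a < idx k ∧ Even (idx k)))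
          (by constructor
              · intro h; exact Or.inl ⟨h3, h⟩
              · rintro (h | h)
                · exact h.2
                · omega)] at h4
      · have h4 := hrelB (idx k - a) (by omega)
        rw [show a + (idx k - a) = idx k by omega] at h4
        rwa [zt_congr (b' := (idx k < a ∧ ¬ Even (idx k)) ∨ (a < idx k ∧ Even (idx k)))
          (by constructor
              · intro h; exact Or.inr ⟨h3, h⟩
              · rintro (h | h)
                · omega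
                · exact h.2)] at h4
    · exact hrelY y y.2
  have hzne : ∀ i, zz i ≠ 0 := by
    rintro (k | y)
    · exact zt_ne hr _ _
    · intro h
      exact hY0 (by rw [← (show (y:ℂ) = 0 from h)]; exact y.2)
  have hzinj : Function.Injective zz := by
    rintro (k | y) (k' | y') h
    · obtain ⟨h1, h2⟩ := zt_inj hr h
      have h3 := hidx k
      have h4 := hidx k'
      rw [Nat.even_iff, Nat.even_iff] at h1
      obtain ⟨c, hc⟩ := ha
      have h5 : idx k = idx k' := by omega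
      have h6 : (k:ℕ) = k' := by
        simp only [idx] at h5
        split_ifs at h5 <;> omega
      rw [Fin.ext h6]
    · exfalso
      have h1 : zt r ((idx k < a ∧ ¬ Even (idx k)) ∨ (a < idx k ∧ Even (idx k))) (idx k / 2) =
        (y' : ℂ) := h
      have h2 := hYr y' y'.2
      rcases zt_far hr ((idx k < a ∧ ¬ Even (idx k)) ∨ (a < idx k ∧ Even (idx k))) (idx k / 2)
        with h3 | h3
      · rw [h1] at h3; linarith
      · rw [h1] at h3; linarith
    · exfalso
      have h1 : (y : ℂ) =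
        zt r ((idx k' < a ∧ ¬ Even (idx k')) ∨ (a < idx k' ∧ Even (idx k'))) (idx k' / 2) := h
      have h2 := hYr y y.2
      rcases zt_far hr ((idx k' < a ∧ ¬ Even (idx k')) ∨ (a < idx k' ∧ Even (idx k')))
        (idx k' / 2) with h3 | h3
      · rw [← h1] at h3; linarith
      · rw [← h1] at h3; linarith
    · have h1 : (y : ℂ) = y' := h
      rw [Subtype.ext h1]
  have hcard : n + 1 ≤ Fintype.card ((Fin (a + b - 1)) ⊕ {y // y ∈ Y}) + 1 := by
    rw [Fintype.card_sum, Fintype.card_fin, Fintype.card_coe]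
    omega
  have hFz : F = 0 := uniq (n + 1) 1 zz hzinj hzne hcard F (Fd.trans (Nat.le_succ n)) F0
    (coeff_eq_zero_of_natDegree_lt (Nat.lt_succ_of_le Fd)) hrel
  have hfin := hF 0 w0 hP0 hw0
  rw [hFz, eA0, eB0] at hfin
  have hb0 : bev (0 : ℂ[X][X]) 0 w0 = 0 := by simp [bev]
  rw [hb0] at hfin
  rcases mul_eq_zero.mp hfin.symm with h | h
  · rcases mul_eq_zero.mp h with h | h
    · exact h
    · exact absurd h (pow_ne_zero _ hP0)
  · exact absurd h (pow_ne_zero _ hw0)

end Pool.Agent.NH38.Fork
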