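import Pool.Agent.NH38.Fork.Stubs
import Pool.Agent.NH38.Step.C10

/-!
Thick slits: the uniqueness lemma with star relations for `A` and zeros for `B` (helper96).
-/

namespace Pool.Agent.NH38.Fork

open Pool.Agent.H988R2.Perc hiding X
open Pool.Agent.NH38.Step (om prs EE zs prF Gen on cardy pom bev)
open Polynomial Filter Topology

namespace U2

open Pool.Agent.NH38.Step (nq nq2 sp sp_norm sp_ne sp_ge zst zst_ne zst_norm zst_inj seg seg_zero
  seg_one zero_of_generic Rel uniq Rad rad_exists om_eq_iff om_inv om_q2_inv pom_app pom_cons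
  bev_mul bev_pow bev_C bev_X q4 sp_half)

/-! ### the special values -/

/-- the special values of the second list -/
noncomputable def spB (r : ℝ) (a j : ℕ) : ℂ := if j = 0 then sp r a else (r:ℂ)^(a+1+j)

/-- the exponents -/
def exB (a j : ℕ) : ℕ := if j = 0 then a/2+1 else a+1+j

theorem norm_r (r : ℝ) (hr : 1 < r) : ‖(r:ℂ)‖ = r := by
  rw [Complex.norm_real, Real.norm_of_nonneg (by linarith)]

theorem spB_norm (r : ℝ) (hr : 1 < r) (a j : ℕ) : ‖spB r a j‖ = r^(exB a j) := by
  unfold spB exB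
  split_ifs
  · exact sp_norm r hr a
  · rw [norm_pow, norm_r r hr]

theorem exB_pos (a j : ℕ) : 1 ≤ exB a j := by
  unfold exB; split_ifs <;> omega

theorem exB_inj {a j l : ℕ} (h : exB a j = exB a l) : j = l := by
  unfold exB at h; split_ifs at h <;> omega

theorem spB_ne (r : ℝ) (hr : 1 < r) (a j : ℕ) : spB r a j ≠ 0 := by
  rw [← norm_pos_iff, spB_norm r hr]
  exact pow_pos (by linarith) _

theorem pow_inj {r : ℝ} (hr : 1 < r) {i l : ℕ} (h : r^i = r^l) : i = l :=
  pow_right_injective₀ (by linarith) (by linarith) h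

/-- the chain -/
def Ch (r : ℝ) (y : ℂ) : Prop := ∃ l : ℕ, 1 ≤ l ∧ (y = (r:ℂ)^l ∨ y = q^2 * (r:ℂ)^l)

theorem ch_sp (r : ℝ) (i : ℕ) : Ch r (sp r i) := by
  unfold sp
  split_ifs
  · exact ⟨_, by omega, Or.inl rfl⟩
  · exact ⟨_, by omega, Or.inr rfl⟩

theorem ch_spB (r : ℝ) (a j : ℕ) : Ch r (spB r a j) := by
  unfold spB
  split_ifs
  · exact ch_sp r a
  · exact ⟨_, by omega, Or.inl rfl⟩

theorem ch_norm {r : ℝ} (hr : 1 < r) {y : ℂ} (h : Ch r y) : r ≤ ‖y‖ := by
  obtain ⟨l, hl, h⟩ := h
  have hl2 : r ≤ r^l := by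
    calc r = r^1 := (pow_one r).symm
      _ ≤ r^l := pow_le_pow_right₀ hr.le hl
  rcases h with rfl | rfl
  · rw [norm_pow, norm_r r hr]; exact hl2
  · rw [norm_mul, nq2, one_mul, norm_pow, norm_r r hr]; exact hl2

theorem om_ne_ch {r : ℝ} (hr : 1 < r) (k : ℕ) (hk : 1 ≤ k) {y : ℂ} (hy : Ch r y) :
    om (q * (r:ℂ)^k) ≠ om y := by
  have hyn := ch_norm hr hy
  have hy0 : y ≠ 0 := by rw [← norm_pos_iff]; linarith
  have hr0 : (r:ℂ) ≠ 0 := by exact_mod_cast (by linarith : r ≠ 0)
  have hw0 : q * (r:ℂ)^k ≠ 0 := mul_ne_zero q_ne_zero (pow_ne_zero _ hr0)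
  have hk2 : r ≤ r^k := by
    calc r = r^1 := (pow_one r).symm
      _ ≤ r^k := pow_le_pow_right₀ hr.le hk
  intro h
  rcases (om_eq_iff hw0 hy0).mp h with h1 | h1
  · obtain ⟨l, hl, h2⟩ := hy
    have hn := congrArg norm h1
    rw [norm_mul, nq, one_mul, norm_pow, norm_r r hr] at hn
    rcases h2 with h2 | h2
    · rw [h2, norm_pow, norm_r r hr] at hn
      have hkl := pow_inj hr hn
      subst hkl
      rw [h2] at h1
      have : q * (r:ℂ)^k = 1 * (r:ℂ)^k := by rw [h1, one_mul]
      exact q_ne_one (mul_right_cancel₀ (pow_ne_zero _ hr0) this)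
    · rw [h2, norm_mul, nq2, one_mul, norm_pow, norm_r r hr] at hn
      have hkl := pow_inj hr hn
      subst hkl
      rw [h2] at h1
      have h3 := mul_right_cancel₀ (pow_ne_zero _ hr0) h1
      apply q_ne_one
      have h4 : q * q = q * 1 := by rw [mul_one, ← sq]; exact h3.symm
      exact mul_left_cancel₀ q_ne_zero h4
  · have hn := congrArg norm h1
    rw [norm_mul, norm_mul, nq, one_mul, norm_pow, norm_r r hr, norm_one] at hn
    nlinarith

theorem om_large {r : ℝ} (hr : 1 < r) {w : ℂ} (hw : r ≤ ‖w‖) : r - 1 ≤ ‖om w‖ := by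
  have hw0 : 0 < ‖w‖ := by linarith
  have h1 : ‖w⁻¹‖ ≤ 1 := by
    rw [norm_inv]
    exact inv_le_one_of_one_le₀ (by linarith)
  have h2 : ‖w‖ ≤ ‖om w‖ + ‖w⁻¹‖ := by
    have : w = om w - w⁻¹ := by unfold om; ring
    calc ‖w‖ = ‖om w - w⁻¹‖ := by rw [← this]
      _ ≤ _ := norm_sub_le _ _
  linarith

/-- the zeros -/
noncomputable def zz (r : ℝ) (a cB : ℕ) (Y : Finset ℂ) : Fin a ⊕ (Fin cB ⊕ Y) → ℂ
  | Sum.inl i => zst r i
  | Sum.inr (Sum.inl j) => q * spB r a j
  | Sum.inr (Sum.inr y) => y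

theorem zz_ne {r : ℝ} (hr : 1 < r) (a cB : ℕ) (Y : Finset ℂ) (hY : (0:ℂ) ∉ Y) :
    ∀ i, zz r a cB Y i ≠ 0 := by
  rintro (i | j | y)
  · exact zst_ne hr i
  · exact mul_ne_zero q_ne_zero (spB_ne r hr _ _)
  · intro h
    have h' : (y : ℂ) = 0 := h
    exact hY (h' ▸ y.2)

theorem zz_inj {r : ℝ} (hr : 1 < r) {a : ℕ} (ha : Odd a) (cB : ℕ) (Y : Finset ℂ)
    (hY : ∀ y ∈ Y, ‖y‖ < r ∧ ‖y⁻¹‖ < r) : Function.Injective (zz r a cB Y) := by
  have hr0 : 0 < r := by linarith
  have hri : r⁻¹ < 1 := inv_lt_one_of_one_lt₀ hr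
  have hBn : ∀ j : ℕ, ‖q * spB r a j‖ = r^(exB a j) := by
    intro j; rw [norm_mul, nq, one_mul, spB_norm r hr]
  have hBr : ∀ j : ℕ, r ≤ r^(exB a j) := by
    intro j
    calc r = r^1 := (pow_one r).symm
      _ ≤ _ := pow_le_pow_right₀ hr.le (exB_pos a j)
  have h12 : ∀ (i : Fin a) (j : ℕ), zst r i ≠ q * spB r a j := by
    intro i j h
    have hn := congrArg norm h
    rw [zst_norm hr, hBn] at hn
    have h1 := sp_ge r hr i
    have h2 := hBr j
    by_cases hi : Even (i:ℕ)
    · rw [if_pos hi] at hn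
      have : (‖sp r i‖)⁻¹ ≤ r⁻¹ := inv_anti₀ hr0 h1
      linarith
    · rw [if_neg hi, sp_norm r hr] at hn
      have h3 := pow_inj hr hn
      rw [Nat.not_even_iff_odd] at hi
      obtain ⟨m, hm⟩ := ha
      obtain ⟨c, hc⟩ := hi
      have hlt := i.2
      unfold exB at h3
      split_ifs at h3 <;> omega
  have hYn : ∀ y : Y, ‖(y:ℂ)‖ < r ∧ ((y:ℂ) ≠ 0 → r⁻¹ < ‖(y:ℂ)‖) := by
    intro y
    obtain ⟨h1, h2⟩ := hY y y.2
    refine ⟨h1, fun h0 => ?_⟩
    rw [norm_inv] at h2
    rw [inv_lt_comm₀ hr0 (norm_pos_iff.mpr h0)]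
    exact h2
  have h13 : ∀ (i : Fin a) (y : Y), zst r i ≠ y := by
    intro i y h
    have h0 : (y:ℂ) ≠ 0 := by rw [← h]; exact zst_ne hr i
    have h1 := hYn y
    have h2 := h1.2 h0
    have h3 := h1.1
    rw [← h, zst_norm hr] at h2 h3
    have h4 := sp_ge r hr i
    by_cases hi : Even (i:ℕ)
    · rw [if_pos hi] at h2
      have : (‖sp r i‖)⁻¹ ≤ r⁻¹ := inv_anti₀ hr0 h4
      linarith
    · rw [if_neg hi] at h3
      linarith
  have h23 : ∀ (j : ℕ) (y : Y), q * spB r a j ≠ y := by
    intro j y h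
    have h3 := (hYn y).1
    rw [← h, hBn] at h3
    linarith [hBr j]
  rintro (i | j | y) (i' | j' | y') h
  · have : zst r i = zst r i' := h
    have := zst_inj hr this
    exact congrArg Sum.inl (Fin.ext this)
  · exact absurd h (h12 i j')
  · exact absurd h (h13 i y')
  · exact absurd h.symm (h12 i' j)
  · have h1 : q * spB r a j = q * spB r a j' := h
    have hn := congrArg norm h1
    rw [hBn, hBn] at hn
    have := exB_inj (pow_inj hr hn)
    exact congrArg (fun z => Sum.inr (Sum.inl z)) (Fin.ext this)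
  · exact absurd h (h23 j y')
  · exact absurd h.symm (h13 i' y)
  · exact absurd h.symm (h23 j' y)
  · have h1 : (y:ℂ) = y' := h
    exact congrArg (fun z => Sum.inr (Sum.inr z)) (Subtype.ext h1)

/-! ### continuity -/

theorem om_cont {g : ℂ → ℂ} {t₁ : ℂ} (hg : ContinuousAt g t₁) (h0 : g t₁ ≠ 0) :
    ContinuousAt (fun t => om (g t)) t₁ := by
  unfold om
  exact hg.add (hg.inv₀ h0)

theorem pom_cont (L : List ℂ[X]) {g : ℂ → ℂ} {t₁ : ℂ} (hg : ContinuousAt g t₁)
    (hL : ∀ p ∈ L, p.eval t₁ ≠ 0) : ContinuousAt (fun t => pom (g t) (ev L t)) t₁ := by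
  induction L with
  | nil =>
    have : (fun t => pom (g t) (ev [] t)) = fun _ => 1 := by
      funext t; simp [ev, pom]
    rw [this]; exact continuousAt_const
  | cons p L ih =>
    have : (fun t => pom (g t) (ev (p :: L) t)) = fun t =>
        (g t - om (p.eval t)) * pom (g t) (ev L t) := by
      funext t; simp [ev, pom]
    rw [this]
    refine ContinuousAt.mul (hg.sub (om_cont p.continuous.continuousAt (hL p (by simp)))) ?_
    exact ih fun p' hp' => hL p' (by simp [hp'])

theorem pom_cont' (E : List ℂ) {g : ℂ → ℂ} {t₁ : ℂ} (hg : ContinuousAt g t₁) :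
    ContinuousAt (fun t => pom (g t) E) t₁ := by
  induction E with
  | nil =>
    have : (fun t => pom (g t) []) = fun _ => 1 := by
      funext t; simp [pom]
    rw [this]; exact continuousAt_const
  | cons p L ih =>
    have : (fun t => pom (g t) (p :: L)) = fun t => (g t - om p) * pom (g t) L := by
      funext t; simp [pom]
    rw [this]
    exact (hg.sub continuousAt_const).mul ih

theorem pom_ne {a : ℂ} {l : List ℂ} (h : ∀ y ∈ l, a ≠ om y) : pom a l ≠ 0 := by
  unfold pom
  apply List.prod_ne_zero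
  intro h0
  rw [List.mem_map] at h0
  obtain ⟨y, hy, h1⟩ := h0
  exact h y hy (sub_eq_zero.mp h1)

theorem pom_zero {a : ℂ} {l : List ℂ} {y : ℂ} (hy : y ∈ l) (h : a = om y) : pom a l = 0 := by
  unfold pom
  apply List.prod_eq_zero
  rw [List.mem_map]
  exact ⟨y, hy, sub_eq_zero.mpr h⟩

/-! ### lists of polynomials indexed by `Fin N` -/

/-- all but one -/
noncomputable def rst {N : ℕ} (p : Fin N → ℂ[X]) (i : Fin N) : List ℂ[X] :=
  (Finset.univ.erase i).toList.map p

theorem rst_perm {N : ℕ} (p : Fin N → ℂ[X]) (i : Fin N) :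
    (List.ofFn p).Perm (p i :: rst p i) := by
  have e1 : List.ofFn p = (List.finRange N).map p := by rw [List.ofFn_eq_map]
  have e2 : (List.finRange N).Perm ((Finset.univ : Finset (Fin N)).toList) := by
    rw [List.perm_ext_iff_of_nodup (List.nodup_finRange N) (Finset.nodup_toList _)]
    intro a; simp
  have e3 : ((Finset.univ : Finset (Fin N)).toList).Perm
      (i :: (Finset.univ.erase i).toList) := by
    conv_lhs => rw [← Finset.insert_erase (Finset.mem_univ i)]
    exact Finset.toList_insert (Finset.notMem_erase i _)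
  rw [e1]
  exact (e2.trans e3).map p

theorem ev_perm {A B : List ℂ[X]} (h : A.Perm B) (t : ℂ) : (ev A t).Perm (ev B t) := h.map _

theorem ev_cons (p : ℂ[X]) (A : List ℂ[X]) (t : ℂ) : ev (p :: A) t = p.eval t :: ev A t := rfl

theorem ev_len (A : List ℂ[X]) (t : ℂ) : (ev A t).length = A.length := by simp [ev]

theorem mem_rst {N : ℕ} {p : Fin N → ℂ[X]} {i : Fin N} {f : ℂ[X]} (h : f ∈ rst p i) :
    ∃ l : Fin N, l ≠ i ∧ f = p l := by
  unfold rst at h
  rw [List.mem_map] at h
  obtain ⟨l, hl, rfl⟩ := h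
  rw [Finset.mem_toList, Finset.mem_erase] at hl
  exact ⟨l, hl.1, rfl⟩

theorem rst_mem {N : ℕ} (p : Fin N → ℂ[X]) {i l : Fin N} (h : l ≠ i) : p l ∈ rst p i := by
  unfold rst
  rw [List.mem_map]
  exact ⟨l, by rw [Finset.mem_toList, Finset.mem_erase]; exact ⟨h, Finset.mem_univ _⟩, rfl⟩

/-! ### removing the extra power of `w` -/

theorem strip (P : ℂ[X]) (hP : P ≠ 0) (F : ℂ[X][X]) (j m n : ℕ) (φ : ℂ → ℂ → ℂ)
    (hF : ∀ t w : ℂ, P.eval t ≠ 0 → w ≠ 0 → φ t w * (P.eval t * w)^j = bev F t w)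
    (hf : ∀ t : ℂ, P.eval t ≠ 0 → ∃ f : ℂ[X], f.natDegree ≤ n ∧ f.coeff 0 = 0 ∧
      ∀ w, w ≠ 0 → φ t w * w^m = f.eval w) :
    ∃ G : ℂ[X][X], G.natDegree ≤ n ∧ G.coeff 0 = 0 ∧ ∀ t w : ℂ, P.eval t ≠ 0 → w ≠ 0 →
      bev G t w = (P.eval t)^j * (φ t w * w^m) := by
  -- slices of `X^m F`
  have hslice : ∀ t, P.eval t ≠ 0 → ∃ f : ℂ[X], f.natDegree ≤ n ∧ f.coeff 0 = 0 ∧
      (∀ w, w ≠ 0 → φ t w * w^m = f.eval w) ∧
      (X^m * F).map (evalRingHom t) = X^j * (C ((P.eval t)^j) * f) := by
    intro t ht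
    obtain ⟨f, fd, f0, hfe⟩ := hf t ht
    refine ⟨f, fd, f0, hfe, ?_⟩
    apply Polynomial.eq_of_infinite_eval_eq
    have hinf : ({0}ᶜ : Set ℂ).Infinite := (Set.finite_singleton (0:ℂ)).infinite_compl
    refine hinf.mono ?_
    intro w hw
    have hw0 : w ≠ 0 := by simpa using hw
    have h1 := hF t w ht hw0
    have h2 := hfe w hw0
    unfold bev at h1
    simp only [Set.mem_ofPred_eq, Polynomial.map_mul, Polynomial.map_pow, Polynomial.map_X,
      Polynomial.eval_mul, Polynomial.eval_pow, Polynomial.eval_X, Polynomial.eval_C]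
    rw [← h1, ← h2]
    ring
  have hco : ∀ t, P.eval t ≠ 0 → ∀ i, i < j + 1 → ((X^m * F).coeff i).eval t = 0 := by
    intro t ht i hi
    obtain ⟨f, fd, f0, hfe, h1⟩ := hslice t ht
    have h2 := congrArg (fun p : ℂ[X] => p.coeff i) h1
    simp only [Polynomial.coeff_map] at h2
    have h3 : ((X^m * F).coeff i).eval t = (evalRingHom t) ((X^m * F).coeff i) := rfl
    rw [h3, h2, Polynomial.coeff_X_pow_mul']
    split_ifs with h4
    · have h5 : i - j = 0 := by omega
      rw [h5, Polynomial.coeff_C_mul, f0, mul_zero]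
    · rfl
  have hdvd : (X^j : ℂ[X][X]) ∣ X^m * F := by
    rw [Polynomial.X_pow_dvd_iff]
    intro d hd
    exact zero_of_generic _ P hP fun t ht => hco t ht d (by omega)
  obtain ⟨G, hG⟩ := hdvd
  have hGs : ∀ t, P.eval t ≠ 0 → ∃ f : ℂ[X], f.natDegree ≤ n ∧ f.coeff 0 = 0 ∧
      (∀ w, w ≠ 0 → φ t w * w^m = f.eval w) ∧
      G.map (evalRingHom t) = C ((P.eval t)^j) * f := by
    intro t ht
    obtain ⟨f, fd, f0, hfe, h1⟩ := hslice t ht
    refine ⟨f, fd, f0, hfe, ?_⟩
    rw [hG, Polynomial.map_mul, Polynomial.map_pow, Polynomial.map_X] at h1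
    exact mul_left_cancel₀ (pow_ne_zero _ Polynomial.X_ne_zero) h1
  refine ⟨G, ?_, ?_, ?_⟩
  · rw [Polynomial.natDegree_le_iff_coeff_eq_zero]
    intro i hi
    apply zero_of_generic _ P hP
    intro t ht
    obtain ⟨f, fd, f0, hfe, h1⟩ := hGs t ht
    have h2 := congrArg (fun p : ℂ[X] => p.coeff i) h1
    simp only [Polynomial.coeff_map, Polynomial.coeff_C_mul] at h2
    rw [(Polynomial.natDegree_le_iff_coeff_eq_zero.mp fd) i hi, mul_zero] at h2
    exact h2
  · apply zero_of_generic _ P hP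
    intro t ht
    obtain ⟨f, fd, f0, hfe, h1⟩ := hGs t ht
    have h2 := congrArg (fun p : ℂ[X] => p.coeff 0) h1
    simp only [Polynomial.coeff_map, Polynomial.coeff_C_mul] at h2
    rw [f0, mul_zero] at h2
    exact h2
  · intro t w ht hw
    obtain ⟨f, fd, f0, hfe, h1⟩ := hGs t ht
    unfold bev
    rw [h1, Polynomial.eval_mul, Polynomial.eval_C, hfe w hw]

end U2

open U2
open Pool.Agent.NH38.Step (nq nq2 sp sp_norm sp_ne sp_ge zst zst_ne zst_norm zst_inj seg seg_zero
  seg_one zero_of_generic Rel uniq Rad rad_exists om_eq_iff om_inv om_q2_inv pom_app pom_cons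
  bev_mul bev_pow bev_C bev_X q4 sp_half)

theorem t_G2 : S_G2 := by
  classical
  intro a b n m cB ha hb e he Y hY E Φ hn hcB hreg hperm hwid hstar hzB hzY A B hA hB hNA hNB w hw
  -- the radius
  obtain ⟨r, hR⟩ := rad_exists (fun z : ℂ => z) (Y ∪ e.roots.toFinset ∪
    (E.map (fun y => (((1 + ‖om y‖ : ℝ)) : ℂ))).toFinset)
  have hr := hR.1
  have hr0 : (r:ℂ) ≠ 0 := by exact_mod_cast (by linarith : r ≠ 0)
  have he0 : e ≠ 0 := by rintro rfl; simp at he
  have hRY : ∀ y ∈ Y, ‖y‖ < r ∧ ‖y⁻¹‖ < r := fun y hy => hR.2 y (by simp [hy])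
  have hRe : ∀ z : ℂ, e.eval z = 0 → ‖z‖ < r ∧ ‖z⁻¹‖ < r := by
    intro z hz
    refine hR.2 z ?_
    rw [Finset.mem_union, Finset.mem_union]
    left; right
    rw [Multiset.mem_toFinset, Polynomial.mem_roots he0]
    exact hz
  have hRE : ∀ y ∈ E, 1 + ‖om y‖ < r := by
    intro y hy
    have h := (hR.2 (((1 + ‖om y‖ : ℝ)) : ℂ) (by
      rw [Finset.mem_union]; right
      rw [List.mem_toFinset, List.mem_map]
      exact ⟨y, hy, rfl⟩)).1
    rw [Complex.norm_real, Real.norm_of_nonneg (by positivity)] at h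
    exact h
  -- the families
  let pA : Fin a → ℂ[X] := fun i => seg (A.get (i.cast hA.symm)) (sp r i)
  let pB : Fin b → ℂ[X] := fun i => seg (B.get (i.cast hB.symm)) (spB r a i)
  set AL : List ℂ[X] := List.ofFn pA with hALdef
  set BL : List ℂ[X] := List.ofFn pB with hBLdef
  have hAL : AL.length = a := List.length_ofFn
  have hBL : BL.length = b := List.length_ofFn
  have hAL0 : ev AL 0 = A := by
    unfold ev
    rw [hALdef, List.map_ofFn]
    have : ((fun p : ℂ[X] => p.eval 0) ∘ pA) = fun i => A.get (i.cast hA.symm) := by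
      funext i; simp only [Function.comp_apply, pA, seg_zero]
    rw [this]
    subst hA
    exact List.ofFn_get A
  have hBL0 : ev BL 0 = B := by
    unfold ev
    rw [hBLdef, List.map_ofFn]
    have : ((fun p : ℂ[X] => p.eval 0) ∘ pB) = fun i => B.get (i.cast hB.symm) := by
      funext i; simp only [Function.comp_apply, pB, seg_zero]
    rw [this]
    subst hB
    exact List.ofFn_get B
  set P : ℂ[X] := (AL ++ BL).prod with hPdef
  have hgood : ∀ t, P.eval t ≠ 0 → ∀ p ∈ AL ++ BL, p.eval t ≠ 0 := by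
    intro t ht p' hp' h0
    apply ht
    rw [hPdef, ← Polynomial.coe_evalRingHom, map_list_prod]
    apply List.prod_eq_zero
    rw [List.mem_map]
    exact ⟨p', hp', h0⟩
  have hgood' : ∀ t, (∀ p ∈ AL ++ BL, p.eval t ≠ 0) → P.eval t ≠ 0 := by
    intro t ht
    rw [hPdef, ← Polynomial.coe_evalRingHom, map_list_prod]
    apply List.prod_ne_zero
    intro h0
    rw [List.mem_map] at h0
    obtain ⟨p', hp', h0⟩ := h0
    exact ht p' hp' h0
  have hmemA : ∀ {f : ℂ[X]}, f ∈ AL → ∃ i : Fin a, f = pA i := by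
    intro f hf
    rw [hALdef, List.mem_ofFn] at hf
    obtain ⟨i, rfl⟩ := hf
    exact ⟨i, rfl⟩
  have hmemB : ∀ {f : ℂ[X]}, f ∈ BL → ∃ i : Fin b, f = pB i := by
    intro f hf
    rw [hBLdef, List.mem_ofFn] at hf
    obtain ⟨i, rfl⟩ := hf
    exact ⟨i, rfl⟩
  have hP0 : P.eval 0 ≠ 0 := by
    apply hgood'
    intro f hf
    rcases List.mem_append.mp hf with h | h
    · obtain ⟨i, rfl⟩ := hmemA h
      simp only [pA, seg_zero]
      exact hNA _ (List.get_mem A _)
    · obtain ⟨i, rfl⟩ := hmemB h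
      simp only [pB, seg_zero]
      exact hNB _ (List.get_mem B _)
  have hP1 : P.eval 1 ≠ 0 := by
    apply hgood'
    intro f hf
    rcases List.mem_append.mp hf with h | h
    · obtain ⟨i, rfl⟩ := hmemA h
      simp only [pA, seg_one]
      exact sp_ne r hr _
    · obtain ⟨i, rfl⟩ := hmemB h
      simp only [pB, seg_one]
      exact spB_ne r hr _ _
  have hP : P ≠ 0 := by
    intro h; rw [h, Polynomial.eval_zero] at hP0; exact hP0 rfl
  have hPev : ∀ᶠ t in 𝓝[≠] (1:ℂ), P.eval t ≠ 0 :=
    (P.continuous.continuousAt.eventually_ne hP1).filter_mono nhdsWithin_le_nhds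
  have hNZA : ∀ t, P.eval t ≠ 0 → NZ (ev AL t) := by
    intro t ht z hz
    unfold ev at hz
    rw [List.mem_map] at hz
    obtain ⟨p', hp', rfl⟩ := hz
    exact hgood t ht p' (List.mem_append_left _ hp')
  have hNZB : ∀ t, P.eval t ≠ 0 → NZ (ev BL t) := by
    intro t ht z hz
    unfold ev at hz
    rw [List.mem_map] at hz
    obtain ⟨p', hp', rfl⟩ := hz
    exact hgood t ht p' (List.mem_append_right _ hp')
  have hlA : ∀ t, (ev AL t).length = a := fun t => by rw [ev_len, hAL]
  have hlB : ∀ t, (ev BL t).length = b := fun t => by rw [ev_len, hBL]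
  -- the bivariate polynomial
  obtain ⟨F₀, j, hF₀⟩ := hreg AL BL hAL hBL
  obtain ⟨F, hFd, hF0, hF⟩ := strip P hP F₀ j m n (fun t w => Φ (ev AL t) (ev BL t) w) hF₀
    (fun t ht => hwid _ _ (hlA t) (hlB t) (hNZA t ht) (hNZB t ht))
  -- relations
  have hrel : ∀ i, Rel F 1 (zz r a cB Y i) := by
    rintro (i | i | y)
    · -- star relations
      have hq2 : q^2 ≠ 0 := pow_ne_zero 2 q_ne_zero
      let u : ℂ → ℂ := fun t => (pA i).eval t
      have hu1 : u 1 = sp r i := by simp only [u, pA, seg_one]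
      have huc : ContinuousAt u 1 := (pA i).continuous.continuousAt
      have hu1' : u 1 ≠ 0 := by rw [hu1]; exact sp_ne r hr _
      have hur : r ≤ ‖u 1‖ := by rw [hu1]; exact sp_ge r hr _
      have huic : ContinuousAt (fun t => (u t)⁻¹) 1 := huc.inv₀ hu1'
      have hac : ContinuousAt (fun t => q^2 * u t) 1 := continuousAt_const.mul huc
      have hbc : ContinuousAt (fun t => q^2 * (u t)⁻¹) 1 := continuousAt_const.mul huic
      have hqc : ContinuousAt (fun t => q * u t) 1 := continuousAt_const.mul huc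
      have hoc1 : ContinuousAt (fun t => om (q^2 * u t)) 1 := om_cont hac (mul_ne_zero hq2 hu1')
      have hoc2 : ContinuousAt (fun t => om (q * u t)) 1 :=
        om_cont hqc (mul_ne_zero q_ne_zero hu1')
      have hR1 : ∀ p ∈ rst pA i, p.eval 1 ≠ 0 := by
        intro p hp
        obtain ⟨l, _, rfl⟩ := mem_rst hp
        simp only [pA, seg_one]; exact sp_ne r hr _
      have hB1 : ∀ p ∈ BL, p.eval 1 ≠ 0 := fun p hp =>
        hgood 1 hP1 p (List.mem_append_right _ hp)
      let LL : ℂ → List ℂ := fun t => ev (rst pA i) t ++ (ev BL t ++ E)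
      let g1 : ℂ → ℂ := fun t => pom (om (q^2 * u t)) (LL t)
      let g2 : ℂ → ℂ := fun t => pom (om (q * u t)) (LL t)
      have hg1c : ContinuousAt g1 1 := by
        have : g1 = fun t => pom (om (q^2 * u t)) (ev (rst pA i) t) *
            (pom (om (q^2 * u t)) (ev BL t) * pom (om (q^2 * u t)) E) := by
          funext t; simp only [g1, LL, pom_app]
        rw [this]
        exact (pom_cont _ hoc1 hR1).mul ((pom_cont _ hoc1 hB1).mul (pom_cont' _ hoc1))
      have hg2c : ContinuousAt g2 1 := by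
        have : g2 = fun t => pom (om (q * u t)) (ev (rst pA i) t) *
            (pom (om (q * u t)) (ev BL t) * pom (om (q * u t)) E) := by
          funext t; simp only [g2, LL, pom_app]
        rw [this]
        exact (pom_cont _ hoc2 hR1).mul ((pom_cont _ hoc2 hB1).mul (pom_cont' _ hoc2))
      let c1 : ℂ → ℂ := fun t => (q^2 * (u t)⁻¹)^m * e.eval (q^2 * (u t)⁻¹) * g1 t
      let c2 : ℂ → ℂ := fun t => (q^2 * u t)^m * e.eval (q^2 * u t) * g2 t
      have hec : ∀ z, ContinuousAt (fun w => e.eval w) z := fun z => e.continuous.continuousAt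
      have hc1c : ContinuousAt c1 1 :=
        ((hbc.pow m).mul (ContinuousAt.comp (f := fun t => q^2 * (u t)⁻¹)
          (g := fun w => e.eval w) (hec _) hbc)).mul hg1c
      have hc2c : ContinuousAt c2 1 :=
        ((hac.pow m).mul (ContinuousAt.comp (f := fun t => q^2 * u t)
          (g := fun w => e.eval w) (hec _) hac)).mul hg2c
      have hrelt : ∀ᶠ t in 𝓝[≠] (1:ℂ), bev F t (q^2 * u t) * c1 t =
          bev F t (q^2 * (u t)⁻¹) * c2 t := by
        filter_upwards [hPev] with t ht
        have hpi : pA i ∈ AL := by rw [hALdef]; exact List.mem_ofFn.mpr ⟨i, rfl⟩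
        have hut : u t ≠ 0 := hgood t ht _ (List.mem_append_left _ hpi)
        have hw1 : q^2 * u t ≠ 0 := mul_ne_zero hq2 hut
        have hw2 : q^2 * (u t)⁻¹ ≠ 0 := mul_ne_zero hq2 (inv_ne_zero hut)
        have hpt : (ev AL t).Perm (u t :: ev (rst pA i) t) := by
          have := ev_perm (rst_perm pA i) t
          rw [ev_cons] at this
          exact this
        have hlr : (ev (rst pA i) t).length + 1 = a := by
          have := hpt.length_eq
          rw [hlA, List.length_cons] at this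
          exact this.symm
        have hNr : NZ (ev (rst pA i) t) := fun z hz =>
          hNZA t ht z (hpt.mem_iff.mpr (List.mem_cons_of_mem _ hz))
        have hs := hstar (ev (rst pA i) t) (ev BL t) (u t) hlr (hlB t) hNr (hNZB t ht) hut
        rw [← hperm _ _ _ _ (hlA t) (hlB t) (hNZA t ht) (hNZB t ht) hpt (List.Perm.refl _) _ hw1,
          ← hperm _ _ _ _ (hlA t) (hlB t) (hNZA t ht) (hNZB t ht) hpt (List.Perm.refl _) _ hw2]
          at hs
        rw [hF t _ ht hw1, hF t _ ht hw2]
        simp only [c1, c2, g1, g2, LL]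
        linear_combination ((P.eval t)^j * (q^2 * u t)^m * (q^2 * (u t)⁻¹)^m) * hs
      have hz : zz r a cB Y (Sum.inl i) = zst r i := rfl
      -- members of the list at `1`
      have hLch : ∀ y ∈ LL 1, Ch r y ∨ y ∈ E := by
        intro y hy
        simp only [LL, List.mem_append] at hy
        rcases hy with hy | hy | hy
        · left
          unfold ev at hy
          rw [List.mem_map] at hy
          obtain ⟨p, hp, rfl⟩ := hy
          obtain ⟨l, _, rfl⟩ := mem_rst hp
          simp only [pA, seg_one]; exact ch_sp r _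
        · left
          unfold ev at hy
          rw [List.mem_map] at hy
          obtain ⟨p, hp, rfl⟩ := hy
          obtain ⟨l, rfl⟩ := hmemB hp
          simp only [pB, seg_one]; exact ch_spB r _ _
        · exact Or.inr hy
      have hLne : ∀ k : ℕ, 1 ≤ k → pom (om (q * (r:ℂ)^k)) (LL 1) ≠ 0 := by
        intro k hk
        refine pom_ne fun y hy => ?_
        rcases hLch y hy with h | h
        · exact om_ne_ch hr k hk h
        · intro h1
          have h2 : r - 1 ≤ ‖om (q * (r:ℂ)^k)‖ := by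
            apply om_large hr
            rw [norm_mul, nq, one_mul, norm_pow, norm_r r hr]
            calc r = r^1 := (pow_one r).symm
              _ ≤ r^k := pow_le_pow_right₀ hr.le hk
          rw [h1] at h2
          linarith [hRE y h]
      have hz1 : e.eval (q^2 * u 1) ≠ 0 := by
        intro h0
        have h1 := (hRe _ h0).1
        rw [norm_mul, nq2, one_mul] at h1
        linarith
      have hz2 : e.eval (q^2 * (u 1)⁻¹) ≠ 0 := by
        intro h0
        have h1 := (hRe _ h0).2
        rw [norm_inv, norm_mul, nq2, one_mul, norm_inv, inv_inv] at h1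
        linarith
      rw [hz]
      unfold zst
      by_cases hie : Even (i : ℕ)
      · rw [if_pos hie]
        have hsi : sp r i = (r:ℂ)^((i:ℕ)/2+1) := by unfold sp; rw [if_pos hie]
        have hpart : q^2 * sp r i = sp r (i+1) := by
          unfold sp
          rw [if_pos hie, if_neg]
          · congr 3
            obtain ⟨c, hc⟩ := hie
            omega
          · rw [Nat.even_add_one, not_not]; exact hie
        have hmem : q^2 * sp r i ∈ LL 1 := by
          simp only [LL, List.mem_append]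
          by_cases h : (i:ℕ) + 1 < a
          · left
            unfold ev
            rw [List.mem_map]
            refine ⟨pA ⟨i+1, h⟩, rst_mem pA ?_, ?_⟩
            · intro h'
              have := congrArg Fin.val h'
              simp at this
            · simp only [pA, seg_one]; exact hpart.symm
          · right; left
            have hia : (i:ℕ) + 1 = a := by have := i.2; omega
            unfold ev
            rw [List.mem_map]
            have hb0 : 0 < b := hb.pos
            refine ⟨pB ⟨0, hb0⟩, ?_, ?_⟩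
            · rw [hBLdef]; exact List.mem_ofFn.mpr ⟨_, rfl⟩
            · simp only [pB, seg_one]
              unfold spB
              rw [if_pos rfl, hpart, hia]
        refine ⟨fun t => q^2 * u t, fun t => q^2 * (u t)⁻¹, c1, c2, hac, hbc, hc1c, hc2c, ?_, ?_,
          ?_, ?_⟩
        · simp only [hu1]
        · simp only [c1, g1]
          rw [hu1, pom_zero hmem rfl, mul_zero]
        · simp only [c2, g2]
          refine mul_ne_zero (mul_ne_zero (pow_ne_zero _ (mul_ne_zero hq2 hu1')) hz1) ?_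
          rw [hu1, hsi]
          exact hLne _ (by omega)
        · filter_upwards [hrelt] with t ht
          exact ht.symm
      · rw [if_neg hie]
        have hsi : sp r i = q^2 * (r:ℂ)^((i:ℕ)/2+1) := by unfold sp; rw [if_neg hie]
        rw [Nat.not_even_iff_odd] at hie
        obtain ⟨c, hc⟩ := hie
        have hlt := i.2
        have hq2u : q^2 * sp r i = q * (r:ℂ)^((i:ℕ)/2+1) := by
          rw [hsi, ← mul_assoc, ← pow_add, q4]
        have hqu : q * sp r i = (r:ℂ)^((i:ℕ)/2+1) := by
          rw [hsi, ← mul_assoc, ← pow_succ', q_cube, one_mul]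
        have hpart : sp r ((i:ℕ)-1) = (r:ℂ)^((i:ℕ)/2+1) := by
          unfold sp
          rw [if_pos ⟨c, by omega⟩]
          congr 1; omega
        have hmem : q * sp r i ∈ LL 1 := by
          simp only [LL, List.mem_append]
          left
          unfold ev
          rw [List.mem_map]
          refine ⟨pA ⟨(i:ℕ)-1, by omega⟩, rst_mem pA ?_, ?_⟩
          · intro h'
            have := congrArg Fin.val h'
            simp at this
            omega
          · simp only [pA, seg_one]; rw [hqu]; exact hpart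
        refine ⟨fun t => q^2 * (u t)⁻¹, fun t => q^2 * u t, c2, c1, hbc, hac, hc2c, hc1c, ?_, ?_,
          ?_, ?_⟩
        · simp only [hu1]
        · simp only [c2, g2]
          rw [hu1, pom_zero hmem rfl, mul_zero]
        · simp only [c1, g1]
          refine mul_ne_zero (mul_ne_zero (pow_ne_zero _ (mul_ne_zero hq2 (inv_ne_zero hu1'))) hz2) ?_
          rw [hu1, hq2u]
          exact hLne _ (by omega)
        · exact hrelt
    · -- zeros of the second list
      have hcb : cB = b := by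
        rcases hcB with h | h
        · exact absurd i.2 (by omega)
        · exact h
      have hib : (i:ℕ) < b := by have := i.2; omega
      let v : ℂ → ℂ := fun t => (pB ⟨i, hib⟩).eval t
      have hvc : ContinuousAt (fun t => q * v t) 1 :=
        continuousAt_const.mul (pB ⟨i, hib⟩).continuous.continuousAt
      refine ⟨fun t => q * v t, fun t => q * v t, fun _ => 0, fun _ => 1, hvc, hvc,
        continuousAt_const, continuousAt_const, ?_, rfl, one_ne_zero, ?_⟩
      · simp only [v, pB, seg_one]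
        rfl
      · filter_upwards [hPev] with t ht
        rw [mul_zero, mul_one]
        have hpi : pB ⟨i, hib⟩ ∈ BL := by rw [hBLdef]; exact List.mem_ofFn.mpr ⟨_, rfl⟩
        have hvt : v t ≠ 0 := hgood t ht _ (List.mem_append_right _ hpi)
        have hw1 : q * v t ≠ 0 := mul_ne_zero q_ne_zero hvt
        have hpt : (ev BL t).Perm (v t :: ev (rst pB ⟨i, hib⟩) t) := by
          have := ev_perm (rst_perm pB ⟨i, hib⟩) t
          rw [ev_cons] at this
          exact this
        have hlr : (ev (rst pB ⟨i, hib⟩) t).length + 1 = b := by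
          have := hpt.length_eq
          rw [hlB, List.length_cons] at this
          exact this.symm
        have hNr : NZ (ev (rst pB ⟨i, hib⟩) t) := fun z hz =>
          hNZB t ht z (hpt.mem_iff.mpr (List.mem_cons_of_mem _ hz))
        rw [hF t _ ht hw1]
        have hs := hzB hcb (ev AL t) (ev (rst pB ⟨i, hib⟩) t) (v t) (hlA t) hlr (hNZA t ht) hNr hvt
        rw [← hperm _ _ _ _ (hlA t) (hlB t) (hNZA t ht) (hNZB t ht) (List.Perm.refl _) hpt _ hw1]
          at hs
        simp only [hs, zero_mul, mul_zero]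
    · -- fixed zeros
      have hy0 : (y:ℂ) ≠ 0 := fun h => hY (h ▸ y.2)
      refine ⟨fun _ => (y:ℂ), fun _ => (y:ℂ), fun _ => 0, fun _ => 1, continuousAt_const,
        continuousAt_const, continuousAt_const, continuousAt_const, rfl, rfl, one_ne_zero, ?_⟩
      filter_upwards [hPev] with t ht
      rw [mul_zero, mul_one, hF t _ ht hy0]
      have := hzY _ _ (hlA t) (hlB t) (hNZA t ht) (hNZB t ht) y y.2
      simp only [this, zero_mul, mul_zero]
  have hcardI : n + 1 ≤ Fintype.card (Fin a ⊕ (Fin cB ⊕ Y)) + 1 := by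
    rw [Fintype.card_sum, Fintype.card_sum, Fintype.card_fin, Fintype.card_fin, Fintype.card_coe]
    omega
  have hFn : F.coeff (n+1) = 0 :=
    (Polynomial.natDegree_le_iff_coeff_eq_zero.mp hFd) _ (Nat.lt_succ_self n)
  have hFz : F = 0 := uniq (n+1) 1 (zz r a cB Y) (zz_inj hr ha cB Y hRY) (zz_ne hr a cB Y hY)
    hcardI F (hFd.trans (Nat.le_succ n)) hF0 hFn hrel
  have hfin := hF 0 w hP0 hw
  rw [hFz] at hfin
  have hb0 : bev (0 : ℂ[X][X]) 0 w = 0 := by simp [bev]
  rw [hb0, hAL0, hBL0] at hfin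
  rcases mul_eq_zero.mp hfin.symm with h | h
  · exact absurd h (pow_ne_zero _ hP0)
  · exact (mul_eq_zero.mp h).resolve_right (pow_ne_zero _ hw)

end Pool.Agent.NH38.Fork
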