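import Pool.Agent.NH38.Fork.Stubs

/-!
Thick slits (helper38), tasks U3 and U4: the node lemma and the density lemma.
-/

set_option autoImplicit false

namespace Pool.Agent.NH38.Fork

open Pool.Agent.H988R2.Perc hiding X
open Pool.Agent.H492C (comb2 pairG up1)
open Pool.Agent.NH38.Step (om prs EE zs prF Gen on cardy pom bev)
open Polynomial

namespace U34

/-! ### segments -/

noncomputable def seg (a b : ℂ) : ℂ[X] := C a + X * C (b - a)

theorem seg_zero (a b : ℂ) : (seg a b).eval 0 = a := by simp [seg]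

theorem seg_one (a b : ℂ) : (seg a b).eval 1 = b := by simp [seg]

noncomputable def segL (l l' : List ℂ) : List ℂ[X] := List.zipWith seg l l'

theorem segL_length {l l' : List ℂ} (h : l.length = l'.length) : (segL l l').length = l.length := by
  unfold segL
  rw [List.length_zipWith, h, min_self]

theorem segL_zero : ∀ {l l' : List ℂ}, l.length = l'.length → ev (segL l l') 0 = l
  | [], [], _ => rfl
  | a :: l, b :: l', h => by
    have ih := segL_zero (l := l) (l' := l') (by simpa using h)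
    unfold segL ev at ih ⊢
    simp only [List.zipWith_cons_cons, List.map_cons, seg_zero]
    rw [ih]

theorem segL_one : ∀ {l l' : List ℂ}, l.length = l'.length → ev (segL l l') 1 = l'
  | [], [], _ => rfl
  | a :: l, b :: l', h => by
    have ih := segL_one (l := l) (l' := l') (by simpa using h)
    unfold segL ev at ih ⊢
    simp only [List.zipWith_cons_cons, List.map_cons, seg_one]
    rw [ih]

theorem ev_length (A : List ℂ[X]) (t : ℂ) : (ev A t).length = A.length := by
  unfold ev; rw [List.length_map]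

theorem prod_ev : ∀ (A : List ℂ[X]) (t : ℂ), (ev A t).prod = A.prod.eval t
  | [], t => by simp [ev]
  | p :: A, t => by
    have ih := prod_ev A t
    unfold ev at ih ⊢
    rw [List.map_cons, List.prod_cons, List.prod_cons, ih, Polynomial.eval_mul]

theorem nz_iff {l : List ℂ} : NZ l ↔ l.prod ≠ 0 := by
  unfold NZ
  rw [Ne, List.prod_eq_zero_iff]
  constructor
  · intro h h0
    exact h 0 h0 rfl
  · intro h z hz h0
    rw [h0] at hz
    exact h hz

theorem prod_ne {A B : List ℂ[X]} {t : ℂ} :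
    (A ++ B).prod.eval t ≠ 0 ↔ NZ (ev A t) ∧ NZ (ev B t) := by
  rw [List.prod_append, Polynomial.eval_mul, nz_iff, nz_iff, prod_ev, prod_ev]
  exact mul_ne_zero_iff

theorem eval_bev (F : ℂ[X][X]) (W : ℂ[X]) (t : ℂ) : (F.eval W).eval t = bev F t (W.eval t) := by
  unfold bev
  rw [Polynomial.eval_map]
  have := Polynomial.eval₂_at_apply (p := F) (evalRingHom t) W
  rw [Polynomial.coe_evalRingHom] at this
  rw [this]

theorem DEN : S_DEN := by
  intro a b Ψ N hΨ hN hex hmul A0 B0 hA0 hB0 nA0 nB0 w0 hw0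
  obtain ⟨A1, B1, w1, hA1, hB1, nA1, nB1, hw1, hne⟩ := hex
  have hA : A0.length = A1.length := hA0.trans hA1.symm
  have hB : B0.length = B1.length := hB0.trans hB1.symm
  have lA : (segL A0 A1).length = a := (segL_length hA).trans hA0
  have lB : (segL B0 B1).length = b := (segL_length hB).trans hB0
  obtain ⟨F, j, hF⟩ := hΨ (segL A0 A1) (segL B0 B1) lA lB
  obtain ⟨F', j', hF'⟩ := hN (segL A0 A1) (segL B0 B1) lA lB
  set P : ℂ[X] := (segL A0 A1 ++ segL B0 B1).prod with hP
  have h0 : P.eval 0 ≠ 0 := by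
    rw [hP, prod_ne, segL_zero hA, segL_zero hB]
    exact ⟨nA0, nB0⟩
  have h1 : P.eval 1 ≠ 0 := by
    rw [hP, prod_ne, segL_one hA, segL_one hB]
    exact ⟨nA1, nB1⟩
  have key : F.eval (seg w0 w1) * F'.eval (seg w0 w1) * (P * seg w0 w1) = 0 := by
    apply Polynomial.funext
    intro t
    rw [Polynomial.eval_mul, Polynomial.eval_mul, Polynomial.eval_mul, eval_bev, eval_bev,
      Polynomial.eval_zero]
    by_cases hPt : P.eval t = 0
    · rw [hPt]; ring
    by_cases hwt : (seg w0 w1).eval t = 0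
    · rw [hwt]; ring
    rw [← hF t _ hPt hwt, ← hF' t _ hPt hwt]
    have hnz := prod_ne.mp hPt
    have := hmul (ev (segL A0 A1) t) (ev (segL B0 B1) t) ((ev_length _ _).trans lA)
      ((ev_length _ _).trans lB) hnz.1 hnz.2 _ hwt
    linear_combination ((P.eval t * (seg w0 w1).eval t)^j * (P.eval t * (seg w0 w1).eval t)^j' *
      (P.eval t * (seg w0 w1).eval t)) * this
  have hPne : P ≠ 0 := by
    intro h
    rw [h] at h0
    simp at h0
  have hWne : seg w0 w1 ≠ 0 := by
    intro h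
    apply hw0
    rw [← seg_zero w0 w1, h]
    simp
  have hF'ne : F'.eval (seg w0 w1) ≠ 0 := by
    intro h
    have h2 := hF' 1 ((seg w0 w1).eval 1) h1 (by rw [seg_one]; exact hw1)
    beta_reduce at h2
    rw [← eval_bev, h, Polynomial.eval_zero, seg_one, segL_one hA, segL_one hB] at h2
    rcases mul_eq_zero.mp h2 with h3 | h3
    · exact hne h3
    · exact pow_ne_zero _ (mul_ne_zero h1 hw1) h3
  have hF0 : F.eval (seg w0 w1) = 0 := by
    rcases mul_eq_zero.mp key with h2 | h2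
    · rcases mul_eq_zero.mp h2 with h3 | h3
      · exact h3
      · exact absurd h3 hF'ne
    · rcases mul_eq_zero.mp h2 with h3 | h3
      · exact absurd h3 hPne
      · exact absurd h3 hWne
  have h2 := hF 0 ((seg w0 w1).eval 0) h0 (by rw [seg_zero]; exact hw0)
  beta_reduce at h2
  rw [← eval_bev, hF0, Polynomial.eval_zero, seg_zero, segL_zero hA, segL_zero hB] at h2
  rcases mul_eq_zero.mp h2 with h3 | h3
  · exact h3
  · exact absurd h3 (pow_ne_zero _ (mul_ne_zero h0 hw0))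

/-! ### nodes -/

/-- generic position of `A`, `B` -/
structure Gp (E Y A B : List ℂ) : Prop where
  self : ∀ b ∈ B, ∀ y ∈ A ++ B, om (q * b) ≠ om y ∧ om (q^2 * b) ≠ om y
  ext : ∀ b ∈ B, ∀ y ∈ E, om (q * b) ≠ om y ∧ om (q^2 * b) ≠ om y
  fix : ∀ y ∈ Y, ∀ c ∈ A ++ B, om (q^2 * y) ≠ om c
  node : ∀ b ∈ B, ∀ y ∈ Y, q^2 * b ≠ y ∧ q^2 * b⁻¹ ≠ y
  dist : B.Pairwise (fun b c => b ≠ c ∧ b * c ≠ 1)
  sqr : ∀ b ∈ B, b * b ≠ 1

theorem pom_ne {a : ℂ} {l : List ℂ} (h : ∀ y ∈ l, a ≠ om y) : pom a l ≠ 0 := by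
  unfold pom
  apply List.prod_ne_zero
  intro h0
  rw [List.mem_map] at h0
  obtain ⟨y, hy, hy0⟩ := h0
  exact h y hy (sub_eq_zero.mp hy0)

theorem q2_ne : q^2 ≠ (0:ℂ) := pow_ne_zero _ q_ne_zero

theorem node_zero {a β n m e1 e2 : ℕ} {E : List ℂ} {Y : Finset ℂ}
    {Φ : List ℂ → List ℂ → ℂ → ℂ} (hn : n < 2 * β + Y.card) (hY0 : (0:ℂ) ∉ Y)
    (hperm : PermInv a β Φ)
    (h1 : ∀ A B, A.length = a → B.length = β → NZ A → NZ B →
      ∃ R : ℂ[X], R.natDegree ≤ n ∧ ∀ ζ, ζ ≠ 0 → Φ A B ζ * ζ^m =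
        (pom (om (q^2 * ζ)) (A ++ B))^e1 * (pom (om (q^2 * ζ)) E)^e2 * R.eval ζ)
    (h2 : ∀ (A B : List ℂ) (b : ℂ), A.length = a → B.length + 1 = β → NZ A → NZ B → b ≠ 0 →
      Φ A (b :: B) (q^2 * b) = 0 ∧ Φ A (b :: B) (q^2 * b⁻¹) = 0)
    (h3 : ∀ y ∈ Y, pom (om (q^2 * y)) E ≠ 0 ∧
      ∀ A B, A.length = a → B.length = β → NZ A → NZ B → Φ A B y = 0)
    {A B : List ℂ} (hA : A.length = a) (hB : B.length = β) (nA : NZ A) (nB : NZ B)
    (g : Gp E Y.toList A B) (ζ : ℂ) (hζ : ζ ≠ 0) : Φ A B ζ = 0 := by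
  classical
  obtain ⟨R, hR, hev⟩ := h1 A B hA hB nA nB
  have hz : ∀ y, y ≠ 0 → Φ A B y = 0 → (∀ c ∈ A ++ B, om (q^2 * y) ≠ om c) →
      pom (om (q^2 * y)) E ≠ 0 → R.eval y = 0 := by
    intro y hy k1 k2 k3
    have k4 := hev y hy
    rw [k1, zero_mul] at k4
    rcases mul_eq_zero.mp k4.symm with k5 | k5
    · rcases mul_eq_zero.mp k5 with k6 | k6
      · exact absurd k6 (pow_ne_zero _ (pom_ne k2))
      · exact absurd k6 (pow_ne_zero _ k3)
    · exact k5
  have hbz : ∀ b ∈ B, Φ A B (q^2 * b) = 0 ∧ Φ A B (q^2 * b⁻¹) = 0 := by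
    intro b hb
    have hb0 : b ≠ 0 := nB b hb
    have hp : B.Perm (b :: B.erase b) := List.perm_cons_erase hb
    have hl : (B.erase b).length + 1 = β := by
      have := hp.length_eq
      rw [List.length_cons] at this
      omega
    have hnz : NZ (B.erase b) := fun z hz => nB z (List.mem_of_mem_erase hz)
    have k := h2 A (B.erase b) b hA hl nA hnz hb0
    constructor
    · rw [hperm A A B (b :: B.erase b) hA hB nA nB (List.Perm.refl _) hp _
        (mul_ne_zero q2_ne hb0)]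
      exact k.1
    · rw [hperm A A B (b :: B.erase b) hA hB nA nB (List.Perm.refl _) hp _
        (mul_ne_zero q2_ne (inv_ne_zero hb0))]
      exact k.2
  -- the list of nodes
  let L : List ℂ := B.map (fun b => q^2 * b) ++ (B.map (fun b => q^2 * b⁻¹) ++ Y.toList)
  have hLl : L.length = 2 * β + Y.card := by
    simp only [L, List.length_append, List.length_map, Finset.length_toList, hB]
    ring
  have hd1 : (B.map (fun b => q^2 * b)).Nodup := by
    unfold List.Nodup
    rw [List.pairwise_map]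
    exact g.dist.imp (fun {b c} h k => h.1 (mul_left_cancel₀ q2_ne k))
  have hd2 : (B.map (fun b => q^2 * b⁻¹)).Nodup := by
    unfold List.Nodup
    rw [List.pairwise_map]
    exact g.dist.imp (fun {b c} h k => h.1 (inv_injective (mul_left_cancel₀ q2_ne k)))
  have hd3 : ∀ b ∈ B, ∀ c ∈ B, b * c ≠ 1 := by
    intro b hb c hc
    have hs : ∀ (l : List ℂ), l.Pairwise (fun b c => b ≠ c ∧ b * c ≠ 1) →
        (∀ b ∈ l, b * b ≠ 1) → ∀ b ∈ l, ∀ c ∈ l, b * c ≠ 1 := by
      intro l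
      induction l with
      | nil => intro _ _ b hb; simp at hb
      | cons d l ih =>
        intro hp hs b hb c hc
        rw [List.pairwise_cons] at hp
        rcases List.mem_cons.mp hb with hb' | hb'
        · rcases List.mem_cons.mp hc with hc' | hc'
          · rw [hb', hc']; exact hs _ (List.mem_cons_self)
          · rw [hb']; exact (hp.1 c hc').2
        · rcases List.mem_cons.mp hc with hc' | hc'
          · rw [hc', mul_comm]; exact (hp.1 b hb').2
          · exact ih hp.2 (fun b hb => hs b (List.mem_cons_of_mem _ hb)) b hb' c hc'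
    exact hs B g.dist g.sqr b hb c hc
  have hLn : L.Nodup := by
    rw [List.nodup_append]
    refine ⟨hd1, ?_, ?_⟩
    · rw [List.nodup_append]
      refine ⟨hd2, Y.nodup_toList, ?_⟩
      intro u hu v hv huv
      rw [List.mem_map] at hu
      obtain ⟨b, hb, rfl⟩ := hu
      exact (g.node b hb v hv).2 huv
    · intro u hu v hv huv
      rw [List.mem_map] at hu
      obtain ⟨b, hb, rfl⟩ := hu
      rw [List.mem_append] at hv
      rcases hv with hv | hv
      · rw [List.mem_map] at hv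
        obtain ⟨c, hc, rfl⟩ := hv
        have h4 : b = c⁻¹ := mul_left_cancel₀ q2_ne huv
        apply hd3 b hb c hc
        rw [h4, inv_mul_cancel₀ (nB c hc)]
      · exact (g.node b hb v hv).1 huv
  have hq4 : ∀ y : ℂ, q^2 * (q^2 * y) = q * y := by
    intro y
    have : q^2 * (q^2 * y) = q^3 * (q * y) := by ring
    rw [this, q_cube, one_mul]
  have hR0 : R = 0 := by
    refine Polynomial.eq_zero_of_natDegree_lt_card_of_eval_eq_zero' R L.toFinset ?_ ?_
    · intro y hy
      rw [List.mem_toFinset, List.mem_append, List.mem_append, List.mem_map, List.mem_map] at hy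
      rcases hy with ⟨b, hb, rfl⟩ | ⟨b, hb, rfl⟩ | hy
      · refine hz _ (mul_ne_zero q2_ne (nB b hb)) (hbz b hb).1 ?_ ?_
        · intro c hc
          rw [hq4]
          exact (g.self b hb c hc).1
        · rw [hq4]
          exact pom_ne fun y hy => (g.ext b hb y hy).1
      · refine hz _ (mul_ne_zero q2_ne (inv_ne_zero (nB b hb))) (hbz b hb).2 ?_ ?_
        · intro c hc
          rw [hq4, Step.om_q_inv]
          exact (g.self b hb c hc).2
        · rw [hq4, Step.om_q_inv]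
          exact pom_ne fun y hy => (g.ext b hb y hy).2
      · have hyY : y ∈ Y := Finset.mem_toList.mp hy
        have hy0 : y ≠ 0 := by
          rintro rfl
          exact hY0 hyY
        exact hz y hy0 ((h3 y hyY).2 A B hA hB nA nB) (fun c hc => g.fix y hy c hc) (h3 y hyY).1
    · rw [List.toFinset_card_of_nodup hLn, hLl]
      omega
  have h4 := hev ζ hζ
  rw [hR0, Polynomial.eval_zero, mul_zero] at h4
  rcases mul_eq_zero.mp h4 with h5 | h5
  · exact h5
  · exact absurd h5 (pow_ne_zero _ hζ)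

/-! ### cofinitely many parameters -/

theorem cof_ne {p : ℂ[X]} {t₁ : ℂ} (h : p.eval t₁ ≠ 0) : ∀ᶠ t in Filter.cofinite, p.eval t ≠ 0 := by
  have hp : p ≠ 0 := by
    rintro rfl
    simp at h
  have hfin : {t : ℂ | p.eval t = 0}.Finite := by
    refine Set.Finite.subset (p.roots.toFinset.finite_toSet) ?_
    intro t ht
    rw [Finset.mem_coe, Multiset.mem_toFinset, Polynomial.mem_roots hp]
    exact ht
  rw [Filter.eventually_cofinite]
  refine hfin.subset ?_
  intro t ht
  exact not_not.mp ht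

theorem ev_all {α : Type} {F : Filter ℂ} : ∀ (l : List α) (Q : α → ℂ → Prop),
    (∀ p ∈ l, ∀ᶠ t in F, Q p t) → ∀ᶠ t in F, ∀ p ∈ l, Q p t
  | [], Q, _ => by simp
  | p :: l, Q, h => by
    have ih := ev_all l Q (fun p hp => h p (List.mem_cons_of_mem _ hp))
    filter_upwards [ih, h p List.mem_cons_self] with t h1 h2 p' hp'
    rcases List.mem_cons.mp hp' with rfl | hp'
    · exact h2
    · exact h1 p' hp'

theorem ev_pair {α : Type} {F : Filter ℂ} (Q : α → α → ℂ → Prop) : ∀ (l : List α),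
    l.Pairwise (fun p p' => ∀ᶠ t in F, Q p p' t) →
    ∀ᶠ t in F, l.Pairwise (fun p p' => Q p p' t)
  | [], _ => by simp
  | p :: l, h => by
    rw [List.pairwise_cons] at h
    have ih := ev_pair Q l h.2
    have h1 := ev_all l (fun p' t => Q p p' t) h.1
    filter_upwards [ih, h1] with t h2 h3
    rw [List.pairwise_cons]
    exact ⟨h3, h2⟩

theorem mem_ev {A : List ℂ[X]} {t y : ℂ} : y ∈ ev A t ↔ ∃ p ∈ A, p.eval t = y := by
  unfold ev
  rw [List.mem_map]

/-- `om (c * u) ≠ κ` for almost all parameters -/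
theorem cof_om {p : ℂ[X]} {c κ t₁ : ℂ} (hc : c ≠ 0) (hp : p.eval t₁ ≠ 0)
    (h : om (c * p.eval t₁) ≠ κ) : ∀ᶠ t in Filter.cofinite, om (c * p.eval t) ≠ κ := by
  have e : ∀ t, p.eval t ≠ 0 → ((C c * p)^2 + 1 - C κ * (C c * p) : ℂ[X]).eval t =
      (c * p.eval t) * (om (c * p.eval t) - κ) := by
    intro t ht
    have h0 : c * p.eval t ≠ 0 := mul_ne_zero hc ht
    unfold Step.om
    simp only [Polynomial.eval_sub, Polynomial.eval_add, Polynomial.eval_pow, Polynomial.eval_mul,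
      Polynomial.eval_C, Polynomial.eval_one]
    field_simp
  have h1 : ((C c * p)^2 + 1 - C κ * (C c * p) : ℂ[X]).eval t₁ ≠ 0 := by
    rw [e t₁ hp]
    exact mul_ne_zero (mul_ne_zero hc hp) (sub_ne_zero.mpr h)
  filter_upwards [cof_ne h1, cof_ne hp] with t h2 h3 h4
  apply h2
  rw [e t h3, h4]
  ring

/-- `om (c * u) ≠ om v` for almost all parameters -/
theorem cof_om2 {p p' : ℂ[X]} {c t₁ : ℂ} (hc : c ≠ 0) (hp : p.eval t₁ ≠ 0) (hp' : p'.eval t₁ ≠ 0)
    (h : om (c * p.eval t₁) ≠ om (p'.eval t₁)) :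
    ∀ᶠ t in Filter.cofinite, om (c * p.eval t) ≠ om (p'.eval t) := by
  have e : ∀ t, p.eval t ≠ 0 → p'.eval t ≠ 0 →
      ((C c * p - p') * (C c * p * p' - 1) : ℂ[X]).eval t =
      (c * p.eval t) * p'.eval t * (om (c * p.eval t) - om (p'.eval t)) := by
    intro t ht ht'
    have h0 : c * p.eval t ≠ 0 := mul_ne_zero hc ht
    rw [Step.om_sub _ _ h0 ht']
    simp only [Polynomial.eval_sub, Polynomial.eval_mul, Polynomial.eval_C, Polynomial.eval_one]
  have h1 : ((C c * p - p') * (C c * p * p' - 1) : ℂ[X]).eval t₁ ≠ 0 := by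
    rw [e t₁ hp hp']
    exact mul_ne_zero (mul_ne_zero (mul_ne_zero hc hp) hp') (sub_ne_zero.mpr h)
  filter_upwards [cof_ne h1, cof_ne hp, cof_ne hp'] with t h2 h3 h4 h5
  apply h2
  rw [e t h3 h4, h5]
  ring

theorem cof_pne {p p' : ℂ[X]} {t₁ : ℂ} (h : p.eval t₁ ≠ p'.eval t₁) :
    ∀ᶠ t in Filter.cofinite, p.eval t ≠ p'.eval t := by
  have h1 : (p - p').eval t₁ ≠ 0 := by
    rw [Polynomial.eval_sub]
    exact sub_ne_zero.mpr h
  filter_upwards [cof_ne h1] with t h2 h3
  apply h2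
  rw [Polynomial.eval_sub, h3, sub_self]

/-- generic position is stable -/
theorem Gp_ev {E Y : List ℂ} {A B : List ℂ[X]} {t₁ : ℂ}
    (nA : NZ (ev A t₁)) (nB : NZ (ev B t₁)) (g : Gp E Y (ev A t₁) (ev B t₁)) :
    ∀ᶠ t in Filter.cofinite, Gp E Y (ev A t) (ev B t) := by
  have happ : ∀ t, ev A t ++ ev B t = ev (A ++ B) t := by
    intro t; unfold ev; rw [List.map_append]
  have hn : ∀ p ∈ A ++ B, p.eval t₁ ≠ 0 := by
    intro p hp
    rcases List.mem_append.mp hp with h | h
    · exact nA _ (mem_ev.mpr ⟨p, h, rfl⟩)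
    · exact nB _ (mem_ev.mpr ⟨p, h, rfl⟩)
  have hB : ∀ p ∈ B, p.eval t₁ ≠ 0 := fun p hp => nB _ (mem_ev.mpr ⟨p, hp, rfl⟩)
  have c1 : ∀ᶠ t in Filter.cofinite, ∀ p ∈ B, ∀ p' ∈ A ++ B,
      om (q * p.eval t) ≠ om (p'.eval t) ∧ om (q^2 * p.eval t) ≠ om (p'.eval t) := by
    refine ev_all B _ fun p hp => ev_all (A ++ B) _ fun p' hp' => ?_
    have k := g.self (p.eval t₁) (mem_ev.mpr ⟨p, hp, rfl⟩) (p'.eval t₁)
      (by rw [happ]; exact mem_ev.mpr ⟨p', hp', rfl⟩)
    exact (cof_om2 q_ne_zero (hB p hp) (hn p' hp') k.1).and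
      (cof_om2 q2_ne (hB p hp) (hn p' hp') k.2)
  have c2 : ∀ᶠ t in Filter.cofinite, ∀ p ∈ B, ∀ y ∈ E,
      om (q * p.eval t) ≠ om y ∧ om (q^2 * p.eval t) ≠ om y := by
    refine ev_all B _ fun p hp => ev_all E _ fun y hy => ?_
    have k := g.ext (p.eval t₁) (mem_ev.mpr ⟨p, hp, rfl⟩) y hy
    exact (cof_om q_ne_zero (hB p hp) k.1).and (cof_om q2_ne (hB p hp) k.2)
  have c3 : ∀ᶠ t in Filter.cofinite, ∀ y ∈ Y, ∀ p ∈ A ++ B, om (q^2 * y) ≠ om (p.eval t) := by
    refine ev_all Y _ fun y hy => ev_all (A ++ B) _ fun p hp => ?_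
    have k := g.fix y hy (p.eval t₁) (by rw [happ]; exact mem_ev.mpr ⟨p, hp, rfl⟩)
    have k2 := cof_om (c := 1) (κ := om (q^2 * y)) one_ne_zero (hn p hp)
      (by rw [one_mul]; exact k.symm)
    filter_upwards [k2] with t h
    rw [one_mul] at h
    exact h.symm
  have c4 : ∀ᶠ t in Filter.cofinite, ∀ p ∈ B, ∀ y ∈ Y,
      q^2 * p.eval t ≠ y ∧ q^2 * (p.eval t)⁻¹ ≠ y := by
    refine ev_all B _ fun p hp => ev_all Y _ fun y hy => ?_
    have k := g.node (p.eval t₁) (mem_ev.mpr ⟨p, hp, rfl⟩) y hy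
    have k1 := cof_pne (p := C (q^2) * p) (p' := C y) (t₁ := t₁)
      (by simpa using k.1)
    have k2 := cof_pne (p := C (q^2)) (p' := C y * p) (t₁ := t₁)
      (by
        rw [Polynomial.eval_C, Polynomial.eval_mul, Polynomial.eval_C]
        intro h
        apply k.2
        rw [h, mul_assoc, mul_inv_cancel₀ (hB p hp), mul_one])
    filter_upwards [k1, k2, cof_ne (hB p hp)] with t h1 h2 h3
    constructor
    · simpa using h1
    · intro h
      apply h2
      rw [Polynomial.eval_C, Polynomial.eval_mul, Polynomial.eval_C, ← h, mul_assoc,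
        inv_mul_cancel₀ h3, mul_one]
  have c5 : ∀ᶠ t in Filter.cofinite, B.Pairwise (fun p p' =>
      p.eval t ≠ p'.eval t ∧ p.eval t * p'.eval t ≠ 1) := by
    refine ev_pair (fun p p' t => p.eval t ≠ p'.eval t ∧ p.eval t * p'.eval t ≠ 1) B ?_
    have k := g.dist
    unfold ev at k
    rw [List.pairwise_map] at k
    refine k.imp ?_
    intro p p' h
    have k2 := cof_pne (p := p * p') (p' := 1) (t₁ := t₁) (by simpa using h.2)
    filter_upwards [cof_pne h.1, k2] with t h1 h2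
    exact ⟨h1, by simpa using h2⟩
  have c6 : ∀ᶠ t in Filter.cofinite, ∀ p ∈ B, p.eval t * p.eval t ≠ 1 := by
    refine ev_all B _ fun p hp => ?_
    have k := g.sqr (p.eval t₁) (mem_ev.mpr ⟨p, hp, rfl⟩)
    have k2 := cof_pne (p := p * p) (p' := 1) (t₁ := t₁) (by simpa using k)
    filter_upwards [k2] with t h
    simpa using h
  filter_upwards [c1, c2, c3, c4, c5, c6] with t d1 d2 d3 d4 d5 d6
  refine ⟨?_, ?_, ?_, ?_, ?_, ?_⟩
  · intro b hb y hy
    rw [happ] at hy
    obtain ⟨p, hp, rfl⟩ := mem_ev.mp hb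
    obtain ⟨p', hp', rfl⟩ := mem_ev.mp hy
    exact d1 p hp p' hp'
  · intro b hb y hy
    obtain ⟨p, hp, rfl⟩ := mem_ev.mp hb
    exact d2 p hp y hy
  · intro y hy c hc
    rw [happ] at hc
    obtain ⟨p, hp, rfl⟩ := mem_ev.mp hc
    exact d3 y hy p hp
  · intro b hb y hy
    obtain ⟨p, hp, rfl⟩ := mem_ev.mp hb
    exact d4 p hp y hy
  · unfold ev
    rw [List.pairwise_map]
    exact d5
  · intro b hb
    obtain ⟨p, hp, rfl⟩ := mem_ev.mp hb
    exact d6 p hp

/-! ### a special position -/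

theorem nq : ‖q‖ = 1 := by
  have h : ‖q‖^3 = 1 := by rw [← norm_pow, q_cube, norm_one]
  exact (pow_eq_one_iff_of_nonneg (norm_nonneg _) (by norm_num)).mp h

theorem nq2 : ‖q^2‖ = 1 := by rw [norm_pow, nq, one_pow]

theorem q2_ne_one : q^2 ≠ (1:ℂ) := by
  intro h
  have h1 : q = 1 := by
    have h2 : q^3 = q^2 * q := by ring
    rw [q_cube, h, one_mul] at h2
    exact h2.symm
  exact q_ne_one h1

theorem bound (l : List ℂ) : ∃ r : ℝ, 2 < r ∧ ∀ y ∈ l, ‖y‖ < r ∧ ‖y⁻¹‖ < r ∧ ‖om y‖ + 1 < r := by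
  induction l with
  | nil => exact ⟨3, by norm_num, by simp⟩
  | cons x l ih =>
    obtain ⟨r, hr, h⟩ := ih
    refine ⟨r + ‖x‖ + ‖x⁻¹‖ + ‖om x‖, ?_, ?_⟩
    · have := norm_nonneg x
      have := norm_nonneg x⁻¹
      have := norm_nonneg (om x)
      linarith
    · have n1 := norm_nonneg x
      have n2 := norm_nonneg x⁻¹
      have n3 := norm_nonneg (om x)
      intro y hy
      rcases List.mem_cons.mp hy with rfl | hy
      · refine ⟨by linarith, by linarith, by linarith⟩
      · obtain ⟨h1, h2, h3⟩ := h y hy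
        refine ⟨by linarith, by linarith, by linarith⟩

/-- powers of `r` -/
noncomputable def pw (r : ℝ) (s k : ℕ) : List ℂ := (List.range' s k).map (fun i => (r:ℂ)^(i+1))

theorem pw_mem {r : ℝ} {s k : ℕ} {y : ℂ} (h : y ∈ pw r s k) : ∃ i, s ≤ i ∧ i < s + k ∧
    y = (r:ℂ)^(i+1) := by
  unfold pw at h
  rw [List.mem_map] at h
  obtain ⟨i, hi, rfl⟩ := h
  rw [List.mem_range'_1] at hi
  exact ⟨i, hi.1, hi.2, rfl⟩

theorem nr {r : ℝ} (hr : 2 < r) (i : ℕ) : ‖(r:ℂ)^(i+1)‖ = r^(i+1) := by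
  rw [norm_pow, Complex.norm_real, Real.norm_of_nonneg (by linarith)]

theorem r_le {r : ℝ} (hr : 2 < r) (i : ℕ) : r ≤ r^(i+1) := by
  calc r = r^1 := (pow_one r).symm
    _ ≤ r^(i+1) := pow_le_pow_right₀ (by linarith) (by omega)

theorem om_large {w : ℂ} {r : ℝ} (hr : 2 < r) (hw : r ≤ ‖w‖) : r - 1 ≤ ‖om w‖ := by
  unfold Step.om
  have h1 : ‖w⁻¹‖ ≤ 1 := by
    rw [norm_inv]
    exact inv_le_one_of_one_le₀ (by linarith)
  have h2 := norm_sub_norm_le w (-w⁻¹)
  rw [norm_neg, sub_neg_eq_add] at h2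
  linarith

theorem pw_om {r : ℝ} (hr : 2 < r) {i j : ℕ} {c : ℂ} (hc : ‖c‖ = 1) (hc1 : c ≠ 1) :
    om (c * (r:ℂ)^(i+1)) ≠ om ((r:ℂ)^(j+1)) := by
  have hr0 : (r:ℂ) ≠ 0 := by
    intro h
    have : r = 0 := by exact_mod_cast h
    linarith
  have hc0 : c ≠ 0 := by
    intro h
    rw [h, norm_zero] at hc
    exact zero_ne_one hc
  intro h
  rcases (Step.om_eq_iff (mul_ne_zero hc0 (pow_ne_zero _ hr0)) (pow_ne_zero _ hr0)).mp h with h1 | h1
  · have h2 : r^(i+1) = r^(j+1) := by
      have := congrArg norm h1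
      rwa [norm_mul, hc, one_mul, nr hr, nr hr] at this
    have h3 : i + 1 = j + 1 := (pow_right_injective₀ (by linarith) (by linarith)) h2
    rw [← h3] at h1
    exact hc1 (mul_right_cancel₀ (pow_ne_zero _ hr0) (by rw [h1, one_mul]))
  · have h2 : r^(i+1) * r^(j+1) = 1 := by
      have := congrArg norm h1
      rwa [norm_mul, norm_mul, hc, one_mul, nr hr, nr hr, norm_one] at this
    have h3 := r_le hr i
    have h4 := r_le hr j
    nlinarith

theorem Gp_pw (E Y : List ℂ) (a β : ℕ) : ∃ A B : List ℂ, A.length = a ∧ B.length = β ∧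
    NZ A ∧ NZ B ∧ Gp E Y A B := by
  obtain ⟨r, hr, hb⟩ := bound (E ++ (Y ++ Y.map (fun y => q^2 * y)))
  have hr0 : (r:ℂ) ≠ 0 := by
    intro h
    have : r = 0 := by exact_mod_cast h
    linarith
  have hAB : ∀ c ∈ pw r 0 a ++ pw r a β, ∃ i, c = (r:ℂ)^(i+1) := by
    intro c hc
    rcases List.mem_append.mp hc with h | h
    · obtain ⟨i, _, _, h⟩ := pw_mem h
      exact ⟨i, h⟩
    · obtain ⟨i, _, _, h⟩ := pw_mem h
      exact ⟨i, h⟩
  have hB : ∀ c ∈ pw r a β, ∃ i, c = (r:ℂ)^(i+1) := fun c hc =>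
    hAB c (List.mem_append_right _ hc)
  refine ⟨pw r 0 a, pw r a β, ?_, ?_, ?_, ?_, ⟨?_, ?_, ?_, ?_, ?_, ?_⟩⟩
  · unfold pw; rw [List.length_map, List.length_range']
  · unfold pw; rw [List.length_map, List.length_range']
  · intro z hz
    obtain ⟨i, rfl⟩ := hAB z (List.mem_append_left _ hz)
    exact pow_ne_zero _ hr0
  · intro z hz
    obtain ⟨i, rfl⟩ := hB z hz
    exact pow_ne_zero _ hr0
  · intro b hb' y hy
    obtain ⟨i, rfl⟩ := hB b hb'
    obtain ⟨j, rfl⟩ := hAB y hy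
    exact ⟨pw_om hr nq q_ne_one, pw_om hr nq2 q2_ne_one⟩
  · intro b hb' y hy
    obtain ⟨i, rfl⟩ := hB b hb'
    have h1 := (hb y (List.mem_append_left _ hy)).2.2
    have h2 : ∀ c : ℂ, ‖c‖ = 1 → om (c * (r:ℂ)^(i+1)) ≠ om y := by
      intro c hc h
      have h3 := om_large (w := c * (r:ℂ)^(i+1)) hr (by
        rw [norm_mul, hc, one_mul, nr hr]; exact r_le hr i)
      rw [h] at h3
      linarith
    exact ⟨h2 q nq, h2 (q^2) nq2⟩
  · intro y hy c hc
    obtain ⟨i, rfl⟩ := hAB c hc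
    have h1 := (hb (q^2 * y) (List.mem_append_right _ (List.mem_append_right _
      (List.mem_map.mpr ⟨y, hy, rfl⟩)))).2.2
    intro h
    have h3 := om_large (w := (r:ℂ)^(i+1)) hr (by rw [nr hr]; exact r_le hr i)
    rw [← h] at h3
    linarith
  · intro b hb' y hy
    obtain ⟨i, rfl⟩ := hB b hb'
    obtain ⟨h1, h2, -⟩ := hb y (List.mem_append_right _ (List.mem_append_left _ hy))
    constructor
    · intro h
      rw [← h, norm_mul, nq2, one_mul, nr hr] at h1
      have := r_le hr i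
      linarith
    · intro h
      rw [← h, mul_inv, inv_inv, norm_mul, norm_inv, nq2, inv_one, one_mul, nr hr] at h2
      have := r_le hr i
      linarith
  · unfold pw
    rw [List.pairwise_map]
    refine (List.pairwise_lt_range' (s := a) (n := β)).imp ?_
    intro i j hij
    constructor
    · intro h
      have h2 : r^(i+1) = r^(j+1) := by
        have := congrArg norm h
        rwa [nr hr, nr hr] at this
      have h3 : i + 1 = j + 1 := (pow_right_injective₀ (by linarith) (by linarith)) h2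
      omega
    · intro h
      have h2 : r^(i+1) * r^(j+1) = 1 := by
        have := congrArg norm h
        rwa [norm_mul, nr hr, nr hr, norm_one] at this
      have h3 := r_le hr i
      have h4 := r_le hr j
      nlinarith
  · intro b hb' h
    obtain ⟨i, rfl⟩ := hB b hb'
    have h2 : r^(i+1) * r^(i+1) = 1 := by
      have := congrArg norm h
      rwa [norm_mul, nr hr, norm_one] at this
    have h3 := r_le hr i
    nlinarith

theorem NL : S_NL := by
  intro a β n m e1 e2 E Y hY0 Φ hn hreg hperm h1 h2 h3 A0 B0 hA0 hB0 nA0 nB0 ζ hζ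
  obtain ⟨A1, B1, hA1, hB1, nA1, nB1, g⟩ := Gp_pw E Y.toList a β
  have hA : A0.length = A1.length := hA0.trans hA1.symm
  have hB : B0.length = B1.length := hB0.trans hB1.symm
  have lA : (segL A0 A1).length = a := (segL_length hA).trans hA0
  have lB : (segL B0 B1).length = β := (segL_length hB).trans hB0
  obtain ⟨F, j, hF⟩ := hreg (segL A0 A1) (segL B0 B1) lA lB
  have h0 : (segL A0 A1 ++ segL B0 B1).prod.eval 0 ≠ 0 := by
    rw [prod_ne, segL_zero hA, segL_zero hB]
    exact ⟨nA0, nB0⟩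
  have hp1 : (segL A0 A1 ++ segL B0 B1).prod.eval 1 ≠ 0 := by
    rw [prod_ne, segL_one hA, segL_one hB]
    exact ⟨nA1, nB1⟩
  have hev : ∀ᶠ t in Filter.cofinite, (F.eval (C ζ)).eval t = 0 := by
    have g1 : ∀ᶠ t in Filter.cofinite, Gp E Y.toList (ev (segL A0 A1) t) (ev (segL B0 B1) t) := by
      refine Gp_ev (t₁ := 1) ?_ ?_ ?_
      · rw [segL_one hA]; exact nA1
      · rw [segL_one hB]; exact nB1
      · rw [segL_one hA, segL_one hB]; exact g
    filter_upwards [g1, cof_ne hp1] with t k1 k2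
    have k3 := prod_ne.mp k2
    have k4 := node_zero hn hY0 hperm h1 h2 h3 ((ev_length _ _).trans lA) ((ev_length _ _).trans lB)
      k3.1 k3.2 k1 ζ hζ
    rw [eval_bev, Polynomial.eval_C, ← hF t ζ k2 hζ]
    beta_reduce
    rw [k4, zero_mul]
  have hF0 : F.eval (C ζ) = 0 := by
    by_contra hne
    have hfin : {t : ℂ | (F.eval (C ζ)).eval t = 0}.Finite := by
      refine Set.Finite.subset ((F.eval (C ζ)).roots.toFinset.finite_toSet) ?_
      intro t ht
      rw [Finset.mem_coe, Multiset.mem_toFinset, Polynomial.mem_roots hne]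
      exact ht
    have hco : {t : ℂ | ¬ (F.eval (C ζ)).eval t = 0}.Finite := hev
    have : (Set.univ : Set ℂ).Finite := by
      refine (hfin.union hco).subset ?_
      intro t _
      by_cases h : (F.eval (C ζ)).eval t = 0
      · exact Or.inl h
      · exact Or.inr h
    exact Set.infinite_univ this
  have k := hF 0 ζ h0 hζ
  beta_reduce at k
  rw [segL_zero hA, segL_zero hB] at k
  have k2 := eval_bev F (C ζ) 0
  rw [Polynomial.eval_C, hF0, Polynomial.eval_zero] at k2
  rw [← k2] at k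
  rcases mul_eq_zero.mp k with k3 | k3
  · exact k3
  · exact absurd k3 (pow_ne_zero _ (mul_ne_zero h0 hζ))

end U34

/-- U3: node lemma -/
theorem t_NL : S_NL := U34.NL

/-- U4: density -/
theorem t_DEN : S_DEN := U34.DEN

end Pool.Agent.NH38.Fork
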