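import Pool.Agent.NH38.Fork.M8
import Pool.Agent.NH38.Fork.M1
import Pool.Agent.NH38.Fork.M2a
import Pool.Agent.NH38.Fork.M2b
import Pool.Agent.NH38.Fork.M2c
import Pool.Agent.NH38.Fork.M4
import Pool.Agent.NH38.Fork.M6
import Pool.Agent.NH38.Fork.M7
import Pool.Agent.NH38.Fork.Q1
import Pool.Agent.NH38.Fork.Q2
import Pool.Agent.NH38.Fork.Q3
import Pool.Agent.NH38.Fork.Q4
import Pool.Agent.NH38.Fork.Q5
import Pool.Agent.NH38.Fork.Q6
import Pool.Agent.NH38.Fork.Q7
import Pool.Agent.NH38.Fork.Q8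
import Pool.Agent.NH38.Fork.QT
import Pool.Agent.NH38.Fork.E1
import Pool.Agent.NH38.Fork.E3
import Pool.Agent.NH38.Fork.E4
import Pool.Agent.NH38.Fork.E5
import Pool.Agent.NH38.Fork.E6
import Pool.Agent.NH38.Fork.E7
import Pool.Agent.NH38.Fork.Reg
import Pool.Agent.NH38.Fork.U1
import Pool.Agent.NH38.Fork.U2
import Pool.Agent.NH38.Fork.U34

/-!
Thick slits (helper38): the formula for the amplitudes of the forked channel, assembled.
-/

namespace Pool.Agent.NH38.Fork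

theorem a_wid : S_wid := t_wid t_Teq t_ttwid
theorem a_starA : S_starA := t_starA t_perm
theorem a_DstarA : S_DstarA := t_DstarA t_Dperm
theorem a_DstarB : S_DstarB := t_DstarB t_DinvB
theorem a_Dwid : S_Dwid := t_Dwid t_Teq
theorem a_FPreg : S_FPreg := t_FPreg t_regz
theorem a_II : S_II := t_II t_G2 t_FPnode t_FPzero t_FPstar t_FPwid a_FPreg
theorem a_MFg : S_MFg := t_MFg t_regG t_perm t_permX t_invX a_wid a_starA t_node
theorem a_ZI : S_ZI := t_ZI a_II t_MFt
theorem a_DET : S_DET := t_DET t_G1 a_wid t_ttwid t_perm a_starA t_starB t_Dexch t_Dperm a_DstarA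
  a_DstarB a_Dwid t_regz t_regG t_regD
theorem a_DUAL : S_DUAL := t_DUAL t_G1 a_wid t_ttwid t_perm a_starA t_starB t_regz t_regG
theorem a_FQ : S_FQ := t_FQ a_DET a_ZI
theorem a_BN : S_BN := t_BN t_NL t_perm t_invB t_Dperm t_DinvB t_fus t_Dfus t_bnode t_Dnode t_regz
  t_regG t_regD
theorem a_M : S_M := t_M a_II a_MFg a_FQ a_BN t_DEN t_FPnode t_regz t_regG t_regD

end Pool.Agent.NH38.Fork
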