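import Pool.Agent.NH38.Step.Stubs2
import Pool.Agent.NH38.Step.C1
import Pool.Agent.NH38.Step.CU
import Pool.Agent.H492C.Defs

/-!
Thick slits (helper38): definitions.

Critical bond percolation on `ℤ²` in the forked channel: a half-infinite strip of width `L` (columns
`0..L`, below) with two half-infinite strips (arms) on top of it: columns `0..a` and `L-b..L`.
-/

namespace Pool.Agent.NH38.Fork

open Pool.Agent.H988R2.Perc hiding X
open Pool.Agent.H492C (comb2 pairG up1)
open Pool.Agent.NH38.Step (om prs EE zs prF Gen on cardy pom bev)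
open Polynomial

/-! ## glued qKZ vectors -/

/-- upper vector: left arm (parameters `A⁻¹, 0`), `m` small arcs, right arm (`B⁻¹, 0`) -/
noncomputable def U (A : List ℂ) (m : ℕ) (B : List ℂ) : St →₀ ℂ :=
  comb2 ((A.length + 1) / 2) (up1 A) (comb2 m (Finsupp.single St.bot 1) (up1 B))

/-- the glued amplitude: lower parameters `A, l, B, 0`; indicator of `{face |A| ~ last face}` -/
noncomputable def G (A l B : List ℂ) : ℂ :=
  pairG A.length (A.length + l.length + B.length) (Psi (A ++ (l ++ (B ++ [0]))))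
    (U A ((l.length - 1) / 2) B)

/-- total mass -/
noncomputable def T (A l B : List ℂ) : ℂ :=
  Z (A ++ (l ++ (B ++ [0]))) *
    (Z (A.map (fun x => x⁻¹) ++ [0]) * Z (B.map (fun x => x⁻¹) ++ [0]))

/-- the three leg amplitude (the operator `act - 1` on the strands `w, z`) -/
noncomputable def D (A : List ℂ) (w z y : ℂ) (B : List ℂ) : ℂ :=
  pairG A.length (A.length + 3 + B.length)
    (Finsupp.mapDomain (St.act A.length) (Psi (A ++ w :: z :: y :: (B ++ [0]))) -
      Psi (A ++ w :: z :: y :: (B ++ [0]))) (U A 1 B)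

/-! ## normalisations -/

/-- normalised `Z(l,0)` for lists of odd length -/
noncomputable def zo (l : List ℂ) : ℂ :=
  Z (l ++ [0]) / (l.prod^((l.length-1)/2) * q^(((l.length+1)/2) * ((l.length-1)/2)))

/-- masses of the arms -/
noncomputable def mm (A B : List ℂ) : ℂ := zo A * zo B

/-- power of `q` coming from the arms -/
def na (A : List ℂ) : ℕ := ((A.length+1)/2) * ((A.length-1)/2)

noncomputable def cst (A B : List ℂ) (k : ℕ) (w : ℂ) : ℂ :=
  w^((A.length + B.length)/2 + k) * A.prod^((B.length+1)/2 + k) * B.prod^((A.length+1)/2 + k) *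
    q^(((A.length + B.length)/2 + k + 1) * ((A.length + B.length)/2 + k) + (na A + na B))

noncomputable def cst3 (A B : List ℂ) (w z : ℂ) : ℂ :=
  (w * z)^((A.length + B.length)/2 + 1) * A.prod^((B.length+1)/2 + 1) *
    B.prod^((A.length+1)/2 + 1) *
    q^(((A.length + B.length)/2 + 2) * ((A.length + B.length)/2 + 1) + (na A + na B))

/-- normalised amplitude with the reflected pairs `X` between `w` and `B` -/
noncomputable def gh (A X B : List ℂ) (w : ℂ) : ℂ := G A (w :: prs X) B / cst A B X.length w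

/-- normalised total mass (without the arms) -/
noncomputable def tt (A X B : List ℂ) (w : ℂ) : ℂ := zo (w :: (A ++ (B ++ prs X)))

/-- normalised three leg amplitude -/
noncomputable def Dh (A : List ℂ) (w z : ℂ) (B : List ℂ) : ℂ := D A w z 0 B / cst3 A B w z

/-! ## predicates -/

def NZ (l : List ℂ) : Prop := ∀ z ∈ l, z ≠ 0

/-- values of a list of polynomials -/
noncomputable def ev (A : List ℂ[X]) (t : ℂ) : List ℂ := A.map (fun p => p.eval t)

/-- `φ(t,w)` is a polynomial in `t, w` divided by a power of `P(t) w` -/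
def LR (P : ℂ[X]) (φ : ℂ → ℂ → ℂ) : Prop := ∃ (F : ℂ[X][X]) (j : ℕ), ∀ t w : ℂ,
  P.eval t ≠ 0 → w ≠ 0 → φ t w * (P.eval t * w)^j = bev F t w

/-- regularity along polynomial families of parameters -/
def Reg (a b : ℕ) (Φ : List ℂ → List ℂ → ℂ → ℂ) : Prop := ∀ A B : List ℂ[X],
  A.length = a → B.length = b → LR (A ++ B).prod (fun t w => Φ (ev A t) (ev B t) w)

/-- `f(w) w^m` is a polynomial of degree `≤ n` with the given extreme coefficients -/
def Lau (n m : ℕ) (f : ℂ → ℂ) (c0 cn : ℂ) : Prop := ∃ F : ℂ[X], F.natDegree ≤ n ∧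
  F.coeff 0 = c0 ∧ F.coeff n = cn ∧ ∀ w, w ≠ 0 → f w * w^m = F.eval w

/-- invariance under permutations -/
def PermInv (a b : ℕ) (Φ : List ℂ → List ℂ → ℂ → ℂ) : Prop := ∀ A A' B B' : List ℂ,
  A.length = a → B.length = b → NZ A → NZ B → A.Perm A' → B.Perm B' →
  ∀ w, w ≠ 0 → Φ A B w = Φ A' B' w

/-! ## the formula -/

variable {ι : Type} (x : ι → ℂ)

/-- the coefficient of a pair, times `om w - om x` -/
noncomputable def cc (g0 : ℂ → ℂ) (w x : ℂ) : ℂ :=
  (1 - q^2) / 3 * ((w - q*x) * (1 - (w*x)⁻¹) * g0 x - (w - q*x⁻¹) * (1 - w⁻¹*x) * g0 x⁻¹) /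
    (x - x⁻¹)

open Classical in
/-- `E(o_i,o_i) ∏_{j≠i} E(o_i,o_j)/(o_i - o_j)` -/
noncomputable def gm (s : Finset ι) (i : ι) : ℂ :=
  EE (om (x i)) (om (x i)) *
    ∏ j ∈ s.erase i, EE (om (x i)) (om (x j)) / (om (x i) - om (x j))

open Classical in
/-- The difference of the two sides of the formula for `g s`, times `∏ (om w - om x_j)`. -/
noncomputable def FP (g : Finset ι → List ℂ → List ℂ → ℂ → ℂ) (s : Finset ι) (A B : List ℂ)
    (w : ℂ) : ℂ :=
  (∏ j ∈ s, (om w - om (x j))) * zs (A ++ B) * g s A B w -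
    (∏ j ∈ s, EE (om w) (om (x j))) * zs (A ++ (B ++ prF x s)) * g ∅ A B w +
    ∑ i ∈ s, gm x s i * (∏ j ∈ s.erase i, (om w - om (x j))) * cc (g ∅ A B) w (x i) *
      zs (w :: x i :: (A ++ (B ++ prF x (s.erase i))))

/-- `gh` for a finite family of pairs -/
noncomputable def gF (s : Finset ι) (A B : List ℂ) (w : ℂ) : ℂ := gh A (s.toList.map x) B w

/-- `tt` for a finite family of pairs -/
noncomputable def tF (s : Finset ι) (A B : List ℂ) (w : ℂ) : ℂ := tt A (s.toList.map x) B w

open Classical in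
/-- the second form of the formula -/
noncomputable def FQ (s : Finset ι) (A B : List ℂ) (w : ℂ) : ℂ :=
  gF x s A B w * tF x ∅ A B w - gF x ∅ A B w * tF x s A B w +
    (1 - q^2) / 3 * ∑ i ∈ s, gm x s i * ((Dh A w (x i) B - Dh A w (x i)⁻¹ B) / (x i - (x i)⁻¹)) *
      zs (w :: x i :: (A ++ (B ++ prF x (s.erase i))))

end Pool.Agent.NH38.Fork
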