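import Pool.Agent.NH38.Fork.Stubs
import Pool.Agent.H492C.C1
import Pool.Agent.H492C.C2h
import Pool.Agent.H492C.G1Poly

/-!
Thick slits (helper38), tasks E4 and E6: common part. The three leg amplitude with the strand `w`
next to the right arm.
-/

set_option autoImplicit false

namespace Pool.Agent.NH38.Fork

open Pool.Agent.H988R2.Perc hiding X
open Pool.Agent.H492C (comb2 pairG up1 comb pairG_act comb2_act_right PolyV)
open Pool.Agent.NH38.Step (om prs pom)
open Polynomial

namespace E46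

/-! ### linear functionals -/

/-- the functional of `D` -/
noncomputable def dl (a r : ℕ) (g f : St →₀ ℂ) : ℂ :=
  pairG a r (Finsupp.mapDomain (St.act a) f - f) g

theorem pairG_sub_left (p r : ℕ) (f g h : St →₀ ℂ) :
    pairG p r (f - g) h = pairG p r f h - pairG p r g h := by
  have h1 : f - g = f + (-1 : ℂ) • g := by
    rw [neg_one_smul, sub_eq_add_neg]
  rw [h1, Pool.Agent.H492C.pairG_add_left, Pool.Agent.H492C.pairG_smul_left]
  ring

theorem dl_eq (a r : ℕ) (g f : St →₀ ℂ) :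
    dl a r g f = pairG a r (Finsupp.mapDomain (St.act a) f) g - pairG a r f g :=
  pairG_sub_left _ _ _ _ _

theorem dl_add (a r : ℕ) (g f f' : St →₀ ℂ) : dl a r g (f + f') = dl a r g f + dl a r g f' := by
  rw [dl_eq, dl_eq, dl_eq, Finsupp.mapDomain_add, Pool.Agent.H492C.pairG_add_left,
    Pool.Agent.H492C.pairG_add_left]
  ring

theorem dl_smul (a r : ℕ) (g : St →₀ ℂ) (c : ℂ) (f : St →₀ ℂ) :
    dl a r g (c • f) = c * dl a r g f := by
  rw [dl_eq, dl_eq, Finsupp.mapDomain_smul, Pool.Agent.H492C.pairG_smul_left,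
    Pool.Agent.H492C.pairG_smul_left]
  ring

theorem dl_add_r (a r : ℕ) (g g' f : St →₀ ℂ) : dl a r (g + g') f = dl a r g f + dl a r g' f :=
  Pool.Agent.H492C.pairG_add_right _ _ _ _ _

theorem dl_smul_r (a r : ℕ) (g : St →₀ ℂ) (c : ℂ) (f : St →₀ ℂ) :
    dl a r (c • g) f = c * dl a r g f :=
  Pool.Agent.H492C.pairG_smul_right _ _ _ _ _

theorem map_act_act (i : ℕ) (f : St →₀ ℂ) :
    Finsupp.mapDomain (St.act i) (Finsupp.mapDomain (St.act i) f) =
      Finsupp.mapDomain (St.act i) f := by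
  rw [← Finsupp.mapDomain_comp]
  congr 1
  funext R
  exact St.act_act i R

theorem dl_act0 (a r : ℕ) (g f : St →₀ ℂ) :
    dl a r g (Finsupp.mapDomain (St.act a) f) = 0 := by
  rw [dl_eq, map_act_act, sub_self]

/-- Temperley-Lieb relation at an odd position. -/
theorem tl (i : ℕ) (hi : i % 2 = 1) (R : St) :
    St.act (i + 1) (St.act i (St.act (i + 1) R)) = St.act (i + 1) R := by
  have hev : ∀ (S : St) (a b : ℕ), (St.act (i + 1) S).rel a b ↔
      (a = b ∨ (a % 2 = 1 ∧ b % 2 = 1 ∧ a ≠ i + 2 ∧ b ≠ i + 2 ∧ S.rel a b)) := by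
    intro S a b
    constructor
    · rintro (h | ⟨h1, h2, h3, h4, h5 | ⟨h5, h6⟩ | ⟨h5, h6⟩⟩)
      · exact Or.inl h
      · exact Or.inr ⟨h1, h2, by omega, by omega, h5⟩
      · exfalso
        rcases S.odd _ _ h5 with h | ⟨_, h⟩ <;> omega
      · exfalso
        rcases S.odd _ _ h6 with h | ⟨h, _⟩ <;> omega
    · rintro (h | ⟨h1, h2, h3, h4, h5⟩)
      · exact Or.inl h
      · exact Or.inr ⟨h1, h2, by omega, by omega, Or.inl h5⟩
  have hiso : ∀ b, (St.act (i + 1) R).rel (i + 2) b → b = i + 2 := by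
    intro b hb
    rcases (hev R _ _).1 hb with h | ⟨_, _, h, _⟩
    · exact h.symm
    · exact absurd rfl h
  have hiso' : ∀ b, (St.act (i + 1) R).rel b (i + 2) → b = i + 2 := fun b hb =>
    hiso b ((St.act (i + 1) R).eqv.symm hb)
  apply St.ext
  funext a b
  apply propext
  rw [hev, hev R]
  constructor
  · rintro (h | ⟨h1, h2, h3, h4, h5⟩)
    · exact Or.inl h
    · rcases h5 with h5 | ⟨_, _, _, _, h5 | ⟨_, h6⟩ | ⟨h6, _⟩⟩
      · exact Or.inl h5
      · exact (hev R a b).1 h5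
      · exact absurd (hiso b h6) h4
      · exact absurd (hiso' a h6) h3
  · rintro (h | ⟨h1, h2, h3, h4, h5⟩)
    · exact Or.inl h
    · refine Or.inr ⟨h1, h2, h3, h4, ?_⟩
      by_cases hab : a = b
      · exact Or.inl hab
      · exact Or.inr ⟨h1, h2, by omega, by omega, Or.inl ((hev R a b).2
          (Or.inr ⟨h1, h2, h3, h4, h5⟩))⟩

theorem map_tl (i : ℕ) (hi : i % 2 = 1) (g : St →₀ ℂ) :
    Finsupp.mapDomain (St.act (i + 1)) (Finsupp.mapDomain (St.act i)
      (Finsupp.mapDomain (St.act (i + 1)) g)) = Finsupp.mapDomain (St.act (i + 1)) g := by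
  rw [← Finsupp.mapDomain_comp, ← Finsupp.mapDomain_comp]
  congr 1
  funext R
  exact tl i hi R

/-! ### the upper vector -/

theorem act0_comb1 (R' : St) : St.act 0 (comb 1 St.bot R') = comb 1 St.bot R' := by
  apply St.ext
  funext a b
  apply propext
  have h1 : ∀ b, (comb 1 St.bot R').rel 1 b → b = 1 := by
    rintro b (h | ⟨_, _, h⟩ | ⟨h, _⟩)
    · exact h.symm
    · exact (show (1:ℕ) = b from h).symm
    · omega
  constructor
  · rintro (h | ⟨h2, h3, h4, h5, h6 | ⟨h6, h7⟩ | ⟨h6, h7⟩⟩)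
    · rw [h]; exact (comb 1 St.bot R').eqv.refl b
    · exact h6
    · exfalso
      rcases (comb 1 St.bot R').odd _ _ h6 with h | ⟨_, h⟩ <;> omega
    · exfalso
      rcases (comb 1 St.bot R').odd _ _ h7 with h | ⟨h, _⟩ <;> omega
  · intro h
    by_cases hab : a = b
    · exact Or.inl hab
    · rcases (comb 1 St.bot R').odd _ _ h with h2 | ⟨h2, h3⟩
      · exact absurd h2 hab
      · refine Or.inr ⟨h2, h3, ?_, ?_, Or.inl h⟩
        · intro ha
          have ha' : a = 1 := by omega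
          rw [ha'] at h hab
          exact hab (h1 b h).symm
        · intro hb
          have hb' : b = 1 := by omega
          rw [hb'] at h hab
          exact hab (h1 a ((comb 1 St.bot R').eqv.symm h))

theorem comb2_single (k : ℕ) (R : St) (g : St →₀ ℂ) :
    comb2 k (Finsupp.single R 1) g = Finsupp.mapDomain (comb k R) g := by
  unfold comb2
  rw [Finsupp.sum_single_index]
  · unfold Finsupp.mapDomain
    refine Finsupp.sum_congr ?_
    intro R' _
    rw [one_mul]
  · simp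

theorem mid (g : St →₀ ℂ) :
    Finsupp.mapDomain (St.act 0) (comb2 1 (Finsupp.single St.bot 1) g) =
      comb2 1 (Finsupp.single St.bot 1) g := by
  rw [comb2_single, ← Finsupp.mapDomain_comp]
  congr 1
  funext R'
  exact act0_comb1 R'

theorem act_U (A B : List ℂ) (hA : Odd A.length) :
    Finsupp.mapDomain (St.act (A.length + 1)) (U A 1 B) = U A 1 B := by
  unfold U
  have h := comb2_act_right ((A.length + 1) / 2) 0 (up1 A)
    (comb2 1 (Finsupp.single St.bot 1) (up1 B))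
  have e : 0 + 2 * ((A.length + 1) / 2) = A.length + 1 := by
    obtain ⟨k, hk⟩ := hA
    omega
  rw [mid, e] at h
  exact h.symm

/-- `dl` is killed by `act (a+1)` -/
theorem dl_act1 (A B : List ℂ) (hA : Odd A.length) (r : ℕ) (hr : A.length + 2 < r)
    (f : St →₀ ℂ) :
    dl A.length r (U A 1 B) (Finsupp.mapDomain (St.act (A.length + 1)) f) = 0 := by
  have hodd : A.length % 2 = 1 := Nat.odd_iff.1 hA
  rw [dl_eq, pairG_act (by omega) (by omega), pairG_act (by omega) (by omega),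
    pairG_act (by omega) (by omega), act_U A B hA]
  have h : Finsupp.mapDomain (St.act (A.length + 1)) (Finsupp.mapDomain (St.act A.length)
      (U A 1 B)) = U A 1 B := by
    have h2 := map_tl A.length hodd (U A 1 B)
    rw [act_U A B hA] at h2
    exact h2
  rw [h, sub_self]

/-! ### the two exchange relations -/

theorem D_dl (A : List ℂ) (w z y : ℂ) (B : List ℂ) :
    D A w z y B = dl A.length (A.length + 3 + B.length) (U A 1 B)
      (Psi (A ++ w :: z :: y :: (B ++ [0]))) := rfl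

theorem exch0 (A B : List ℂ) (x y c : ℂ) (hA : Odd A.length) (hB : Odd B.length) :
    (q * x - q^2 * y) * D A y x c B = (q * y - q^2 * x) * D A x y c B := by
  have h := Psi_exch A (c :: (B ++ [0])) x y (by
    rw [List.length_cons, List.length_append, List.length_singleton]
    exact hA.add_odd (hB.add_one.add_one))
  have h2 := congrArg (dl A.length (A.length + 3 + B.length) (U A 1 B)) h
  rw [dl_smul, dl_add, dl_smul, dl_smul, dl_act0, mul_zero, add_zero] at h2
  exact h2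

theorem exch1 (A B : List ℂ) (x y c : ℂ) (hA : Odd A.length) (hB : Odd B.length) :
    (q * x - q^2 * y) * D A c y x B = (q * y - q^2 * x) * D A c x y B := by
  have h := Psi_exch (A ++ [c]) (B ++ [0]) x y (by
    rw [List.length_append, List.length_append, List.length_singleton, List.length_singleton]
    exact (hA.add_one).add (hB.add_one))
  have h2 := congrArg (dl A.length (A.length + 3 + B.length) (U A 1 B)) h
  have hl : (A ++ [c]).length = A.length + 1 := by simp
  rw [dl_smul, dl_add, dl_smul, dl_smul, hl, dl_act1 A B hA _ (by omega), mul_zero, add_zero,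
    List.append_assoc, List.append_assoc, List.singleton_append, List.singleton_append] at h2
  exact h2

theorem R1 (A B : List ℂ) (w z : ℂ) (hA : Odd A.length) (hB : Odd B.length) (hw : w ≠ 0) :
    (z - q * w) * D A w z 0 B = - q^2 * (w - q * z) * D A z 0 w B := by
  have h1 := exch0 A B w z 0 hA hB
  have h2 := exch1 A B w 0 z hA hB
  have hq := q_ne_zero
  have h3 := q_cube
  have h4 : D A z w 0 B = - q^2 * D A z 0 w B := by
    have h5 : (q * w) * (D A z w 0 B * q) = (q * w) * (- D A z 0 w B) := by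
      linear_combination h2
    have h6 := mul_left_cancel₀ (mul_ne_zero hq hw) h5
    have h7 : q * D A z w 0 B = q * (- q^2 * D A z 0 w B) := by
      linear_combination h6 + (D A z 0 w B) * h3
    exact mul_left_cancel₀ hq h7
  rw [h4] at h1
  apply mul_left_cancel₀ hq
  linear_combination (-1 : ℂ) * h1

/-! ### the strand next to the right arm -/

/-- the remaining functional -/
noncomputable def K (A : List ℂ) (z : ℂ) (B : List ℂ) (ζ : ℂ) : ℂ :=
  dl A.length (A.length + 3 + (B.length + 1)) (U A 1 (ζ :: B))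
    (Finsupp.mapDomain (St.ins (A.length + 2)) (Psi (A ++ z :: 0 :: (B ++ [0]))))

theorem R2 (A B : List ℂ) (z ζ : ℂ) (hA : Odd A.length) (hB : Even B.length) :
    D A z 0 (q * ζ) (ζ :: B) = fac (q * ζ) (A ++ z :: 0 :: (B ++ [0])) * K A z B ζ := by
  have hpar : Even ((A ++ [z, 0]).length + (B ++ [0]).length) := by
    simp only [List.length_append, List.length_cons, List.length_nil]
    obtain ⟨k, hk⟩ := hA
    obtain ⟨j, hj⟩ := hB
    exact ⟨k + j + 2, by omega⟩
  have h1 := Psi_rec (A ++ [z, 0]) (B ++ [0]) (q * ζ) hpar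
  have h2 : q^2 * (q * ζ) = ζ := by
    rw [← mul_assoc, ← pow_succ, q_cube, one_mul]
  rw [h2] at h1
  have e1 : A ++ [z, 0] ++ (q * ζ) :: ζ :: (B ++ [0]) =
      A ++ z :: 0 :: (q * ζ) :: (ζ :: B ++ [0]) := by simp
  have e2 : A ++ [z, 0] ++ (B ++ [0]) = A ++ z :: 0 :: (B ++ [0]) := by simp
  have e3 : (A ++ [z, 0]).length = A.length + 2 := by simp
  rw [e1, e2, e3] at h1
  rw [D_dl, h1, dl_smul]
  rfl

theorem R3 (A B : List ℂ) (z ζ : ℂ) (hB : Even B.length) (hζ : ζ ≠ 0) :
    K A z B ζ = (ζ⁻¹)^B.length * K A z B ζ⁻¹ := by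
  unfold K
  have h : U A 1 (ζ :: B) = (ζ⁻¹)^B.length • U A 1 (ζ⁻¹ :: B) := by
    unfold U
    rw [Pool.Agent.H492C.C1.up1B B ζ hB hζ, Pool.Agent.H492C.comb2_smul_right,
      Pool.Agent.H492C.comb2_smul_right]
  rw [h, dl_smul_r]

/-! ### polynomiality -/

theorem lin_poly {a d : ℕ} {f : ℂ → (St →₀ ℂ)} (hf : PolyV a d f) (L : (St →₀ ℂ) →ₗ[ℂ] ℂ) :
    ∃ P : ℂ[X], P.natDegree ≤ d ∧ ∀ z, z ≠ 0 → z^a * L (f z) = P.eval z := by
  classical
  obtain ⟨⟨S, hS⟩, h2⟩ := hf
  choose P hP1 hP2 using h2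
  refine ⟨∑ R ∈ S, P R * C (L (Finsupp.single R 1)), ?_, ?_⟩
  · refine Polynomial.natDegree_sum_le_of_forall_le _ _ (fun R _ => ?_)
    exact (Polynomial.natDegree_mul_C_le _ _).trans (hP1 R)
  · intro z hz
    have h3 : f z = ∑ R ∈ S, (f z R) • Finsupp.single R 1 := by
      conv_lhs => rw [← Finsupp.sum_single (f z)]
      rw [Finsupp.sum_of_support_subset (f z) (hS z) _ (by intro i _; simp)]
      refine Finset.sum_congr rfl fun R _ => ?_
      rw [Finsupp.smul_single, smul_eq_mul, mul_one]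
    rw [h3, map_sum, Polynomial.eval_finset_sum, Finset.mul_sum]
    refine Finset.sum_congr rfl fun R _ => ?_
    rw [map_smul, smul_eq_mul, Polynomial.eval_mul, Polynomial.eval_C, ← hP2 R z hz]
    ring

/-- `dl` as a linear map of the lower vector -/
noncomputable def dlL (a r : ℕ) (g : St →₀ ℂ) (φ : St → St) : (St →₀ ℂ) →ₗ[ℂ] ℂ where
  toFun f := dl a r g (Finsupp.mapDomain φ f)
  map_add' f f' := by rw [Finsupp.mapDomain_add, dl_add]
  map_smul' c f := by rw [Finsupp.mapDomain_smul, dl_smul]; rfl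

/-- `dl` as a linear map of the right arm -/
noncomputable def dlR (a r k : ℕ) (g F : St →₀ ℂ) : (St →₀ ℂ) →ₗ[ℂ] ℂ where
  toFun f := dl a r (comb2 k g (comb2 1 (Finsupp.single St.bot 1) f)) F
  map_add' f f' := by
    rw [Pool.Agent.H492C.comb2_add_right, Pool.Agent.H492C.comb2_add_right, dl_add_r]
  map_smul' c f := by
    rw [Pool.Agent.H492C.comb2_smul_right, Pool.Agent.H492C.comb2_smul_right, dl_smul_r]; rfl

theorem D_poly (A B : List ℂ) (w : ℂ) (hA : Odd A.length) (hB : Odd B.length) :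
    ∃ P : ℂ[X], ∀ z, z ≠ 0 → D A w z 0 B = P.eval z := by
  have h := PolyV.psi (A ++ [w]) (0 :: (B ++ [0])) (by
    simp only [List.length_append, List.length_cons, List.length_nil]
    obtain ⟨k, hk⟩ := hA
    obtain ⟨j, hj⟩ := hB
    exact ⟨k + j + 2, by omega⟩)
  obtain ⟨P, _, hP⟩ := lin_poly h (dlL A.length (A.length + 3 + B.length) (U A 1 B) id)
  refine ⟨P, fun z hz => ?_⟩
  rw [← hP z hz, pow_zero, one_mul]
  show _ = dl A.length (A.length + 3 + B.length) (U A 1 B) (Finsupp.mapDomain id _)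
  rw [Finsupp.mapDomain_id, D_dl, List.append_assoc, List.singleton_append]

theorem K_poly (A B : List ℂ) (ζ : ℂ) (hA : Odd A.length) (hB : Even B.length) :
    ∃ P : ℂ[X], ∀ z, z ≠ 0 → K A z B ζ = P.eval z := by
  have h := PolyV.psi A (0 :: (B ++ [0])) (by
    simp only [List.length_append, List.length_cons, List.length_nil]
    obtain ⟨k, hk⟩ := hA
    obtain ⟨j, hj⟩ := hB
    exact ⟨k + j + 1, by omega⟩)
  obtain ⟨P, _, hP⟩ := lin_poly h (dlL A.length (A.length + 3 + (B.length + 1)) (U A 1 (ζ :: B))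
    (St.ins (A.length + 2)))
  refine ⟨P, fun z hz => ?_⟩
  rw [← hP z hz, pow_zero, one_mul]
  rfl

theorem K_polyz (A B : List ℂ) (z : ℂ) (hB : Even B.length) :
    ∃ P : ℂ[X], P.natDegree ≤ B.length ∧ ∀ ζ, ζ ≠ 0 → ζ^B.length * K A z B ζ = P.eval ζ := by
  have h := PolyV.up1 [] B (by simpa using hB)
  simp only [List.length_nil, Nat.zero_add, List.nil_append] at h
  obtain ⟨P, hP1, hP⟩ := lin_poly h (dlR A.length (A.length + 3 + (B.length + 1))
    ((A.length + 1) / 2) (up1 A)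
    (Finsupp.mapDomain (St.ins (A.length + 2)) (Psi (A ++ z :: 0 :: (B ++ [0])))))
  refine ⟨P, hP1, fun ζ hζ => ?_⟩
  rw [← hP ζ hζ]
  rfl

theorem fac_cons (x y : ℂ) (l : List ℂ) :
    fac x (y :: l) = ((x - q^2 * y) * (x * y - q^2)) * fac x l := by
  simp [fac]

theorem fac_form (A B : List ℂ) (z x : ℂ) :
    fac x (A ++ z :: 0 :: (B ++ [0])) =
      ((x - q^2 * z) * (x * z - q^2)) * (q^4 * x^2) * fac x (A ++ B) := by
  rw [Pool.Agent.H492C.C2.facAp, fac_cons, fac_cons, Pool.Agent.H492C.C2.facAp,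
    Pool.Agent.H492C.C2.fac_z, Pool.Agent.H492C.C2.facAp]
  ring

/-- the amplitude at `w = q ζ` -/
theorem main (A B : List ℂ) (z ζ : ℂ) (hA : Odd A.length) (hB : Even B.length) (hz : z ≠ 0)
    (hζ : ζ ≠ 0) :
    D A (q * ζ) z 0 (ζ :: B) =
      (ζ - z) * (z * ζ - q) * ζ^2 * fac (q * ζ) (A ++ B) * K A z B ζ := by
  have hBo : Odd (ζ :: B).length := by
    rw [List.length_cons]; exact hB.add_one
  obtain ⟨P, hP⟩ := D_poly A (ζ :: B) (q * ζ) hA hBo
  obtain ⟨Q, hQ⟩ := K_poly A B ζ hA hB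
  have hq := q_ne_zero
  have h3 := q_cube
  have hqz : q * ζ ≠ 0 := mul_ne_zero hq hζ
  -- generic `z`
  have hgen : ∀ y : ℂ, y ≠ 0 → y ≠ q^2 * ζ → P.eval y =
      (ζ - y) * (y * ζ - q) * ζ^2 * fac (q * ζ) (A ++ B) * Q.eval y := by
    intro y hy hy2
    have h1 := R1 A (ζ :: B) (q * ζ) y hA hBo hqz
    rw [R2 A B y ζ hA hB, fac_form, hP y hy, hQ y hy] at h1
    have h4 : y - q^2 * ζ ≠ 0 := sub_ne_zero.2 hy2
    apply mul_left_cancel₀ h4
    have h12 : q^12 = 1 := by
      have : q^12 = (q^3)^4 := by ring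
      rw [this, h3, one_pow]
    have h9 : q^9 = 1 := by
      have : q^9 = (q^3)^3 := by ring
      rw [this, h3, one_pow]
    linear_combination h1 + (y * ((ζ - y) * (y * ζ - q) * ζ^2 * fac (q * ζ) (A ++ B) *
      Q.eval y)) * h12 - (ζ * q^2 * ((ζ - y) * (y * ζ - q) * ζ^2 * fac (q * ζ) (A ++ B) *
      Q.eval y)) * h9
  have hpoly : P = (C ζ - X) * (X * C ζ - C q) * C (ζ^2 * fac (q * ζ) (A ++ B)) * Q := by
    have hinf : Set.Infinite {y : ℂ | y ≠ 0 ∧ y ≠ q^2 * ζ} := by
      have : {y : ℂ | y ≠ 0 ∧ y ≠ q^2 * ζ} = ({0, q^2 * ζ} : Set ℂ)ᶜ := by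
        ext y; simp
      rw [this]
      exact Set.Finite.infinite_compl (Set.toFinite _)
    refine Polynomial.eq_of_infinite_eval_eq _ _ (hinf.mono ?_)
    rintro y ⟨hy1, hy2⟩
    show P.eval y = _
    rw [hgen y hy1 hy2]
    simp only [eval_mul, eval_sub, eval_C, eval_X]
    ring
  rw [hP z hz, hQ z hz, hpoly]
  simp only [eval_mul, eval_sub, eval_C, eval_X]
  ring

theorem prod_ne {l : List ℂ} (h : NZ l) : l.prod ≠ 0 := by
  apply List.prod_ne_zero
  intro h0
  exact h 0 h0 rfl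

/-- the normalised amplitude at `w = q ζ` -/
theorem norm (A B : List ℂ) (z : ℂ) (hA : Odd A.length) (hB : Even B.length) (hAn : NZ A)
    (hBn : NZ B) (hz : z ≠ 0) : ∃ c : ℂ, ∀ ζ : ℂ, ζ ≠ 0 →
    Dh A (q * ζ) z (ζ :: B) * ζ^(B.length/2 + 1) =
      c * (pom (om (q^2 * ζ)) (A ++ B) * ((ζ - z) * (z * ζ - q))) *
        (ζ^B.length * K A z B ζ) := by
  obtain ⟨α, hα⟩ := hA
  obtain ⟨β, hβ⟩ := hB
  have hβ' : B.length = 2 * β := by omega
  have hq := q_ne_zero
  have hpA := prod_ne hAn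
  have hpB := prod_ne hBn
  have h0 : ∀ y ∈ A ++ B, y ≠ 0 := by
    intro y hy
    rcases List.mem_append.1 hy with h | h
    · exact hAn y h
    · exact hBn y h
  set c1 : ℂ := (q * z)^(α + β + 2) * A.prod^(β + 2) * B.prod^(α + 2) *
    q^((α + β + 3) * (α + β + 2) + (na A + (β + 1) * β)) with hc1
  have hc10 : c1 ≠ 0 := by
    rw [hc1]
    exact mul_ne_zero (mul_ne_zero (mul_ne_zero (pow_ne_zero _ (mul_ne_zero hq hz))
      (pow_ne_zero _ hpA)) (pow_ne_zero _ hpB)) (pow_ne_zero _ hq)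
  refine ⟨(A ++ B).prod / c1, fun ζ hζ => ?_⟩
  have hcst : cst3 A (ζ :: B) (q * ζ) z = ζ^(2 * α + β + 4) * c1 := by
    unfold cst3
    have e1 : (A.length + (ζ :: B).length) / 2 = α + β + 1 := by
      rw [List.length_cons]; omega
    have e2 : ((ζ :: B).length + 1) / 2 + 1 = β + 2 := by
      rw [List.length_cons]; omega
    have e3 : (A.length + 1) / 2 + 1 = α + 2 := by omega
    have e4 : na (ζ :: B) = (β + 1) * β := by
      unfold na
      rw [List.length_cons]
      have e5 : (B.length + 1 + 1) / 2 = β + 1 := by omega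
      have e6 : (B.length + 1 - 1) / 2 = β := by omega
      rw [e5, e6]
    rw [e1, e2, e3, e4, List.prod_cons, hc1]
    rw [mul_pow ζ B.prod]
    have e7 : (q * ζ * z)^(α + β + 1 + 1) = ζ^(α + β + 2) * (q * z)^(α + β + 2) := by
      rw [← mul_pow]
      congr 1
      ring
    rw [e7]
    ring
  have hfac : fac (q * ζ) (A ++ B) =
      ζ^(2 * α + 2 * β + 1) * (A ++ B).prod * pom (om (q^2 * ζ)) (A ++ B) := by
    rw [Pool.Agent.NH38.Step.fac_eq_pom _ (mul_ne_zero hq hζ) _ h0]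
    have e1 : q^2 * (q * ζ) = ζ := by
      rw [← mul_assoc, ← pow_succ, q_cube, one_mul]
    have e2 : (A ++ B).length = 2 * α + 2 * β + 1 := by
      rw [List.length_append]; omega
    rw [e1, e2, Pool.Agent.NH38.Step.om_qq]
  unfold Dh
  rw [main A B z ζ ⟨α, hα⟩ ⟨β, hβ⟩ hz hζ, hcst, hfac]
  have e1 : B.length / 2 + 1 = β + 1 := by omega
  rw [e1, hβ']
  have hp : ζ^(2 * α + β + 4) ≠ 0 := pow_ne_zero _ hζ
  rw [div_mul_eq_mul_div, div_mul_eq_mul_div, div_mul_eq_mul_div, div_eq_div_iff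
    (mul_ne_zero hp hc10) hc10]
  ring

end E46

end Pool.Agent.NH38.Fork
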