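import Pool.Agent.NH38.Step.Conf4

set_option autoImplicit false

/-!
Task F of the forked channels (helper26): the conformal map of the upper half-plane onto the
forked channel, obtained from the map of the step channel by folding and reflection.
-/

namespace Pool.Agent.NH38.Fork.FC

open Filter Topology Set Real
open scoped ComplexConjugate
open Pool.Agent.NH38.Step.Conf (cg DD xx cg_cont cg_deriv cg_bijOn bij_left bij_inner bij_ledge
  bij_right cg_x cg_one re_right xx_pos xx_lt sq_sq sq_re_pos sq_im_pos)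

/-! ### A vertical line is removable -/

theorem line_removable {V : Set ℂ} (hV : IsOpen V) {F : ℂ → ℂ} {c : ℝ} (hc : ContinuousOn F V)
    (hd : ∀ z ∈ V, z.re ≠ c → DifferentiableAt ℂ F z) : DifferentiableOn ℂ F V := by
  rw [← Complex.isConservativeOn_and_continuousOn_iff_isDifferentiableOn hV]
  refine ⟨?_, hc⟩
  intro z w hzw
  rw [← add_eq_zero_iff_eq_neg, Complex.wedgeIntegral_add_wedgeIntegral_eq]
  -- rectangles which avoid the line
  have key : ∀ z w : ℂ, Complex.Rectangle z w ⊆ V → c ∉ Ioo (min z.re w.re) (max z.re w.re) →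
      (∫ x : ℝ in z.re..w.re, F (x + z.im * Complex.I)) -
        (∫ x : ℝ in z.re..w.re, F (x + w.im * Complex.I)) +
        Complex.I • (∫ y : ℝ in z.im..w.im, F (w.re + y * Complex.I)) -
        Complex.I • (∫ y : ℝ in z.im..w.im, F (z.re + y * Complex.I)) = 0 := by
    intro z w hzw hcn
    refine Complex.integral_boundary_rect_eq_zero_of_continuousOn_of_differentiableOn F z w
      (hc.mono hzw) ?_
    intro u hu
    have h1 : u ∈ V := hzw ⟨Ioo_subset_Icc_self hu.1, Ioo_subset_Icc_self hu.2⟩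
    exact (hd u h1 (fun h => hcn (h ▸ hu.1))).differentiableWithinAt
  by_cases hcn : c ∈ Ioo (min z.re w.re) (max z.re w.re)
  · have hcI : c ∈ (uIcc (z.re) (w.re)) := Ioo_subset_Icc_self hcn
    have sub1 : Complex.Rectangle z ⟨c, w.im⟩ ⊆ V := by
      refine Subset.trans ?_ hzw
      intro u hu
      exact ⟨uIcc_subset_uIcc_left hcI hu.1, hu.2⟩
    have sub2 : Complex.Rectangle ⟨c, z.im⟩ w ⊆ V := by
      refine Subset.trans ?_ hzw
      intro u hu
      exact ⟨uIcc_subset_uIcc_right hcI hu.1, hu.2⟩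
    have k1 := key z ⟨c, w.im⟩ sub1 (by
      rintro ⟨h1, h2⟩
      simp only at h1 h2
      rcases le_total z.re c with h | h
      · rw [max_eq_right h] at h2; exact lt_irrefl _ h2
      · rw [min_eq_right h] at h1; exact lt_irrefl _ h1)
    have k2 := key ⟨c, z.im⟩ w sub2 (by
      rintro ⟨h1, h2⟩
      simp only at h1 h2
      rcases le_total c w.re with h | h
      · rw [min_eq_left h] at h1; exact lt_irrefl _ h1
      · rw [max_eq_left h] at h2; exact lt_irrefl _ h2)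
    simp only at k1 k2
    have horiz : ∀ b : ℝ, b ∈ (uIcc (z.im) (w.im)) → ∀ a1 a2 : ℝ, (uIcc (a1) (a2)) ⊆ (uIcc (z.re) (w.re)) →
        IntervalIntegrable (fun x : ℝ => F (x + b * Complex.I)) MeasureTheory.volume a1 a2 := by
      intro b hb a1 a2 ha
      refine ContinuousOn.intervalIntegrable ?_
      refine hc.comp (by fun_prop) ?_
      intro x hx
      refine hzw ⟨?_, ?_⟩
      · simp only [mem_preimage, Complex.add_re, Complex.ofReal_re, Complex.mul_re, Complex.I_re,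
          mul_zero, Complex.ofReal_im, Complex.I_im, mul_one, sub_self, add_zero]
        exact ha hx
      · simp only [mem_preimage, Complex.add_im, Complex.ofReal_im, Complex.mul_im,
          Complex.ofReal_re, Complex.I_im, mul_one, Complex.I_re, mul_zero, add_zero, zero_add]
        exact hb
    have e1 := intervalIntegral.integral_add_adjacent_intervals
      (horiz z.im left_mem_uIcc z.re c (uIcc_subset_uIcc_left hcI))
      (horiz z.im left_mem_uIcc c w.re (uIcc_subset_uIcc_right hcI))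
    have e2 := intervalIntegral.integral_add_adjacent_intervals
      (horiz w.im right_mem_uIcc z.re c (uIcc_subset_uIcc_left hcI))
      (horiz w.im right_mem_uIcc c w.re (uIcc_subset_uIcc_right hcI))
    rw [← e1, ← e2]
    linear_combination (norm := module) k1 + k2
  · exact key z w hzw hcn

/-! ### The folding -/

/-- the folding -/
noncomputable def hh (z : ℂ) : ℂ := 4 * z * (1 - z)

theorem hh_re (z : ℂ) : (hh z).re = 4 * (z.re - z.re ^ 2 + z.im ^ 2) := by
  simp [hh, Complex.mul_re, Complex.mul_im]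
  ring

theorem hh_im (z : ℂ) : (hh z).im = 4 * (z.im * (1 - 2 * z.re)) := by
  simp [hh, Complex.mul_re, Complex.mul_im]
  ring

theorem hh_refl (z : ℂ) : hh (1 - z) = hh z := by
  unfold hh
  ring

theorem hh_conj (z : ℂ) : hh (conj z) = conj (hh z) := by
  unfold hh
  rw [map_mul, map_mul, map_sub, map_one, map_ofNat]

theorem hh_ofReal (t : ℝ) : hh (t : ℂ) = ((4 * t * (1 - t) : ℝ) : ℂ) := by
  unfold hh
  push_cast
  ring

theorem hh_mid {z : ℂ} (h : z.re = 1 / 2) : hh z = ((1 + 4 * z.im ^ 2 : ℝ) : ℂ) := by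
  apply Complex.ext
  · rw [hh_re, h, Complex.ofReal_re]
    ring
  · rw [hh_im, h, Complex.ofReal_im]
    ring

theorem hh_ne {z : ℂ} (h0 : z ≠ 0) (h1 : z ≠ 1) : hh z ≠ 0 := by
  unfold hh
  exact mul_ne_zero (mul_ne_zero (by norm_num) h0) (sub_ne_zero.2 (Ne.symm h1))

theorem hh_inj {z w : ℂ} (hz : z.re < 1 / 2) (hw : w.re < 1 / 2) (h : hh z = hh w) : z = w := by
  have e : (z - w) * (1 - (z + w)) = 0 := by
    unfold hh at h
    linear_combination h / 4
  rcases mul_eq_zero.1 e with h1 | h1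
  · exact sub_eq_zero.1 h1
  · exfalso
    have h2 := congrArg Complex.re h1
    simp only [Complex.sub_re, Complex.add_re, Complex.one_re, Complex.zero_re] at h2
    linarith

theorem hh_surj {ζ : ℂ} (h : 0 < ζ.im) : ∃ z : ℂ, 0 < z.im ∧ z.re < 1 / 2 ∧ hh z = ζ := by
  have him : (ζ - 1).im = ζ.im := by simp
  have h0 : 0 < (ζ - 1).im := by rw [him]; exact h
  have h1 := sq_sq h0.le
  have h2 := sq_re_pos h0
  have h3 := sq_im_pos h0
  refine ⟨(1 + Complex.I * Step.Conf.sq (ζ - 1)) / 2, ?_, ?_, ?_⟩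
  · have e : ((1 + Complex.I * Step.Conf.sq (ζ - 1)) / 2).im = (Step.Conf.sq (ζ - 1)).re / 2 := by
      simp
    rw [e]
    linarith
  · have e : ((1 + Complex.I * Step.Conf.sq (ζ - 1)) / 2).re = (1 - (Step.Conf.sq (ζ - 1)).im) / 2 := by
      simp
      ring
    rw [e]
    linarith
  · unfold hh
    have e : 4 * ((1 + Complex.I * Step.Conf.sq (ζ - 1)) / 2) * (1 - (1 + Complex.I * Step.Conf.sq (ζ - 1)) / 2) =
        1 - Complex.I ^ 2 * Step.Conf.sq (ζ - 1) ^ 2 := by ring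
    rw [e, h1, Complex.I_sq]
    ring

/-! ### The map -/

/-- the map of the left half -/
noncomputable def gl (α γ : ℝ) (z : ℂ) : ℂ := cg α (γ / 2) (hh z)

/-- the map of the right half -/
noncomputable def gr (α γ : ℝ) (z : ℂ) : ℂ := (γ : ℂ) - conj (gl α γ (1 - conj z))

open Classical in
/-- the map -/
noncomputable def ff (α γ : ℝ) (z : ℂ) : ℂ := if z.re ≤ 1 / 2 then gl α γ z else gr α γ z

/-- the reflected forked channel -/
def ED (α γ : ℝ) : Set ℂ := {w | -α < w.re ∧ w.re < γ + α ∧ (0 ≤ w.re → w.re ≤ γ → 0 < w.im)}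

variable {α γ : ℝ} (hα : 0 < α) (hγ : 0 < γ)

theorem refl_re (z : ℂ) : (1 - conj z).re = 1 - z.re := by simp
theorem refl_im (z : ℂ) : (1 - conj z).im = z.im := by simp
theorem refl_refl (z : ℂ) : 1 - conj (1 - conj z) = z := by simp
theorem rg_re (w : ℂ) : ((γ : ℂ) - conj w).re = γ - w.re := by simp
theorem rg_im (w : ℂ) : ((γ : ℂ) - conj w).im = w.im := by simp
theorem rg_rg (w : ℂ) : (γ : ℂ) - conj ((γ : ℂ) - conj w) = w := by simp

theorem ff_le {z : ℂ} (h : z.re ≤ 1 / 2) : ff α γ z = gl α γ z := if_pos h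

theorem ff_gt {z : ℂ} (h : 1 / 2 < z.re) : ff α γ z = gr α γ z := if_neg (not_le.2 h)

include hα hγ

theorem gl_mid_re {z : ℂ} (h : z.re = 1 / 2) : (gl α γ z).re = γ / 2 := by
  unfold gl
  rw [hh_mid h]
  exact re_right hα (by positivity) (by nlinarith [sq_nonneg z.im])

theorem gl_eq_gr {z : ℂ} (h : z.re = 1 / 2) : gl α γ z = gr α γ z := by
  have e : 1 - conj z = z := by
    apply Complex.ext
    · rw [refl_re, h]; norm_num
    · rw [refl_im]
  unfold gr
  rw [e]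
  apply Complex.ext
  · rw [rg_re, gl_mid_re hα hγ h]
    ring
  · rw [rg_im]

theorem ff_refl (z : ℂ) : ff α γ (1 - conj z) = (γ : ℂ) - conj (ff α γ z) := by
  rcases lt_trichotomy z.re (1 / 2) with h | h | h
  · rw [ff_le h.le, ff_gt (by rw [refl_re]; linarith)]
    unfold gr
    rw [refl_refl]
  · have e : 1 - conj z = z := by
      apply Complex.ext
      · rw [refl_re, h]; norm_num
      · rw [refl_im]
    rw [e, ff_le h.le]
    have h1 := gl_eq_gr hα hγ h
    unfold gr at h1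
    rw [e] at h1
    exact h1
  · rw [ff_gt h, ff_le (by rw [refl_re]; linarith)]
    unfold gr
    rw [rg_rg]

theorem gl_cont : ContinuousOn (gl α γ) {z : ℂ | (0 ≤ z.im ∧ z ≠ 0 ∧ z ≠ 1) ∧ z.re ≤ 1 / 2} := by
  refine (cg_cont hα (by positivity : 0 < γ / 2)).comp (by unfold hh; fun_prop) ?_
  rintro z ⟨⟨h0, h1, h2⟩, h3⟩
  refine ⟨?_, hh_ne h1 h2⟩
  rw [hh_im]
  have : 0 ≤ z.im * (1 - 2 * z.re) := mul_nonneg h0 (by linarith)
  linarith

theorem gr_cont : ContinuousOn (gr α γ) {z : ℂ | (0 ≤ z.im ∧ z ≠ 0 ∧ z ≠ 1) ∧ 1 / 2 ≤ z.re} := by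
  unfold gr
  refine continuousOn_const.sub (Complex.continuous_conj.comp_continuousOn ?_)
  refine (gl_cont hα hγ).comp ((continuous_const.sub Complex.continuous_conj).continuousOn) ?_
  rintro z ⟨⟨h0, h1, h2⟩, h3⟩
  refine ⟨⟨?_, ?_, ?_⟩, ?_⟩
  · rw [refl_im]; exact h0
  · intro h
    apply h2
    have h' : 1 - conj z = 0 := h
    have h4 := refl_refl z
    rw [h'] at h4
    simpa using h4.symm
  · intro h
    apply h1
    have h' : 1 - conj z = 1 := h
    have h4 := refl_refl z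
    rw [h'] at h4
    simpa using h4.symm
  · rw [refl_re]; linarith

theorem ff_cont : ContinuousOn (ff α γ) {z : ℂ | 0 ≤ z.im ∧ z ≠ 0 ∧ z ≠ 1} := by
  unfold ff
  have c1 : closure {z : ℂ | z.re ≤ 1 / 2} = {z : ℂ | z.re ≤ 1 / 2} :=
    (isClosed_le Complex.continuous_re continuous_const).closure_eq
  have c2 : closure {z : ℂ | ¬ z.re ≤ 1 / 2} = {z : ℂ | 1 / 2 ≤ z.re} := by
    have e : {z : ℂ | ¬ z.re ≤ 1 / 2} = {z : ℂ | 1 / 2 < z.re} := by
      ext z
      simp only [mem_ofPred_eq, not_le]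
    rw [e]
    exact Complex.closure_setOfPred_lt_re _
  have c3 : frontier {z : ℂ | z.re ≤ 1 / 2} = {z : ℂ | z.re = 1 / 2} :=
    Complex.frontier_setOfPred_re_le _
  refine ContinuousOn.if ?_ ?_ ?_
  · rintro z ⟨-, hz⟩
    rw [c3] at hz
    exact gl_eq_gr hα hγ hz
  · rw [c1]
    exact gl_cont hα hγ
  · rw [c2]
    exact gr_cont hα hγ

theorem gl_diff {z : ℂ} (h0 : 0 < z.im) (h : z.re < 1 / 2) : DifferentiableAt ℂ (gl α γ) z := by
  have h1 : 0 < (hh z).im := by
    rw [hh_im]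
    have : 0 < z.im * (1 - 2 * z.re) := mul_pos h0 (by linarith)
    linarith
  have h2 : DifferentiableAt ℂ hh z := by
    unfold hh
    fun_prop
  exact (cg_deriv hα (by positivity : 0 < γ / 2) h1).differentiableAt.comp z h2

theorem ff_diff : DifferentiableOn ℂ (ff α γ) {z : ℂ | 0 < z.im} := by
  have hV : IsOpen {z : ℂ | 0 < z.im} := isOpen_lt continuous_const Complex.continuous_im
  refine line_removable (c := 1 / 2) hV ?_ ?_
  · refine (ff_cont hα hγ).mono ?_
    intro z hz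
    have hz' : 0 < z.im := hz
    refine ⟨hz'.le, ?_, ?_⟩
    · rintro rfl
      simp at hz'
    · rintro rfl
      simp at hz'
  · intro z hz hne
    have hz' : 0 < z.im := hz
    rcases lt_or_gt_of_ne hne with h | h
    · have e : ff α γ =ᶠ[𝓝 z] gl α γ := by
        filter_upwards [Complex.continuous_re.continuousAt.eventually_lt_const h] with u hu
        exact ff_le hu.le
      exact (gl_diff hα hγ hz' h).congr_of_eventuallyEq e
    · have e : ff α γ =ᶠ[𝓝 z] fun u => (γ : ℂ) - conj (gl α γ (1 - conj u)) := by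
        filter_upwards [Complex.continuous_re.continuousAt.eventually_const_lt h] with u hu
        exact ff_gt hu
      refine DifferentiableAt.congr_of_eventuallyEq ?_ e
      refine (differentiableAt_const _).sub ?_
      have h1 : DifferentiableAt ℂ (fun v => gl α γ (1 - v)) (conj z) := by
        have h2 : DifferentiableAt ℂ (gl α γ) (1 - conj z) :=
          gl_diff hα hγ (by rw [refl_im]; exact hz') (by rw [refl_re]; linarith)
        exact h2.comp (conj z) (by fun_prop)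
      have h3 := h1.conj_conj
      rw [Complex.conj_conj] at h3
      exact h3

/-! ### The image -/

theorem gl_mem {z : ℂ} (h0 : 0 < z.im) (h : z.re < 1 / 2) : gl α γ z ∈ DD α (γ / 2) := by
  refine (cg_bijOn hα (by positivity : 0 < γ / 2)).mapsTo ?_
  show 0 < (hh z).im
  rw [hh_im]
  have : 0 < z.im * (1 - 2 * z.re) := mul_pos h0 (by linarith)
  linarith

theorem gl_mem_mid {z : ℂ} (h0 : 0 < z.im) (h : z.re = 1 / 2) :
    (gl α γ z).re = γ / 2 ∧ 0 < (gl α γ z).im := by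
  unfold gl
  rw [hh_mid h]
  refine (bij_right hα (by positivity : 0 < γ / 2)).mapsTo ?_
  show 1 < 1 + 4 * z.im ^ 2
  have : 0 < z.im ^ 2 := by positivity
  linarith

theorem ff_re_lt {z : ℂ} (h0 : 0 < z.im) (h : z.re < 1 / 2) : (ff α γ z).re < γ / 2 := by
  rw [ff_le h.le]
  exact (gl_mem hα hγ h0 h).2.1

theorem ff_re_eq {z : ℂ} (h0 : 0 < z.im) (h : z.re = 1 / 2) : (ff α γ z).re = γ / 2 := by
  rw [ff_le h.le]
  exact (gl_mem_mid hα hγ h0 h).1

theorem ff_re_gt {z : ℂ} (h0 : 0 < z.im) (h : 1 / 2 < z.re) : γ / 2 < (ff α γ z).re := by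
  have h1 := ff_re_lt hα hγ (z := 1 - conj z) (by rw [refl_im]; exact h0)
    (by rw [refl_re]; linarith)
  rw [ff_refl hα hγ, rg_re] at h1
  linarith

theorem ff_mem {z : ℂ} (h0 : 0 < z.im) : ff α γ z ∈ ED α γ := by
  rcases lt_trichotomy z.re (1 / 2) with h | h | h
  · rw [ff_le h.le]
    obtain ⟨h1, h2, h3⟩ := gl_mem hα hγ h0 h
    exact ⟨h1, by linarith, fun h4 _ => h3 h4⟩
  · rw [ff_le h.le]
    obtain ⟨h1, h2⟩ := gl_mem_mid hα hγ h0 h
    exact ⟨by rw [h1]; linarith, by rw [h1]; linarith, fun _ _ => h2⟩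
  · obtain ⟨h1, h2, h3⟩ := gl_mem hα hγ (z := 1 - conj z) (by rw [refl_im]; exact h0)
      (by rw [refl_re]; linarith)
    have e : ff α γ z = (γ : ℂ) - conj (gl α γ (1 - conj z)) := by rw [ff_gt h]; rfl
    rw [e]
    refine ⟨?_, ?_, ?_⟩
    · rw [rg_re]; linarith
    · rw [rg_re]; linarith
    · rw [rg_re, rg_im]
      intro h4 h5
      exact h3 (by linarith)

theorem ff_inj_lt {z w : ℂ} (hz : 0 < z.im) (hw : 0 < w.im) (hz1 : z.re < 1 / 2)
    (hw1 : w.re < 1 / 2) (h : ff α γ z = ff α γ w) : z = w := by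
  rw [ff_le hz1.le, ff_le hw1.le] at h
  apply hh_inj hz1 hw1
  refine (cg_bijOn hα (by positivity : 0 < γ / 2)).injOn ?_ ?_ h
  · show 0 < (hh z).im
    rw [hh_im]
    have : 0 < z.im * (1 - 2 * z.re) := mul_pos hz (by linarith)
    linarith
  · show 0 < (hh w).im
    rw [hh_im]
    have : 0 < w.im * (1 - 2 * w.re) := mul_pos hw (by linarith)
    linarith

theorem ff_inj {z w : ℂ} (hz : 0 < z.im) (hw : 0 < w.im) (h : ff α γ z = ff α γ w) : z = w := by
  rcases lt_trichotomy z.re (1 / 2) with h1 | h1 | h1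
  · have r1 := ff_re_lt hα hγ hz h1
    have hw1 : w.re < 1 / 2 := by
      rcases lt_trichotomy w.re (1 / 2) with h2 | h2 | h2
      · exact h2
      · have := ff_re_eq hα hγ hw h2; rw [h] at r1; linarith
      · have := ff_re_gt hα hγ hw h2; rw [h] at r1; linarith
    exact ff_inj_lt hα hγ hz hw h1 hw1 h
  · have r1 := ff_re_eq hα hγ hz h1
    have hw1 : w.re = 1 / 2 := by
      rcases lt_trichotomy w.re (1 / 2) with h2 | h2 | h2
      · have := ff_re_lt hα hγ hw h2; rw [h] at r1; linarith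
      · exact h2
      · have := ff_re_gt hα hγ hw h2; rw [h] at r1; linarith
    rw [ff_le h1.le, ff_le hw1.le] at h
    unfold gl at h
    rw [hh_mid h1, hh_mid hw1] at h
    have h3 : (1 + 4 * z.im ^ 2 : ℝ) = 1 + 4 * w.im ^ 2 := by
      refine (bij_right hα (by positivity : 0 < γ / 2)).injOn ?_ ?_ h
      · show 1 < 1 + 4 * z.im ^ 2
        have : 0 < z.im ^ 2 := by positivity
        linarith
      · show 1 < 1 + 4 * w.im ^ 2
        have : 0 < w.im ^ 2 := by positivity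
        linarith
    have h4 : z.im = w.im := by
      have h5 : z.im ^ 2 = w.im ^ 2 := by linarith
      exact (pow_left_inj₀ hz.le hw.le two_ne_zero).1 h5
    exact Complex.ext (h1.trans hw1.symm) h4
  · have r1 := ff_re_gt hα hγ hz h1
    have hw1 : 1 / 2 < w.re := by
      rcases lt_trichotomy w.re (1 / 2) with h2 | h2 | h2
      · have := ff_re_lt hα hγ hw h2; rw [h] at r1; linarith
      · have := ff_re_eq hα hγ hw h2; rw [h] at r1; linarith
      · exact h2
    have h3 : 1 - conj z = 1 - conj w := by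
      refine ff_inj_lt hα hγ (by rw [refl_im]; exact hz) (by rw [refl_im]; exact hw)
        (by rw [refl_re]; linarith) (by rw [refl_re]; linarith) ?_
      rw [ff_refl hα hγ, ff_refl hα hγ, h]
    rw [← refl_refl z, h3, refl_refl]

theorem ff_surj_lt {w : ℂ} (hw : w ∈ ED α γ) (h : w.re < γ / 2) :
    ∃ z : ℂ, 0 < z.im ∧ ff α γ z = w := by
  have h1 : w ∈ DD α (γ / 2) := ⟨hw.1, h, fun h2 => hw.2.2 h2 (by linarith)⟩
  obtain ⟨ζ, hζ, he⟩ := (cg_bijOn hα (by positivity : 0 < γ / 2)).surjOn h1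
  obtain ⟨z, hz0, hz1, hz2⟩ := hh_surj hζ
  refine ⟨z, hz0, ?_⟩
  rw [ff_le hz1.le]
  unfold gl
  rw [hz2, he]

theorem ff_bijOn : BijOn (ff α γ) {z : ℂ | 0 < z.im} (ED α γ) := by
  refine ⟨fun z hz => ff_mem hα hγ hz, fun z hz w hw h => ff_inj hα hγ hz hw h, ?_⟩
  intro w hw
  rcases lt_trichotomy w.re (γ / 2) with h | h | h
  · obtain ⟨z, h1, h2⟩ := ff_surj_lt hα hγ hw h
    exact ⟨z, h1, h2⟩
  · have h1 : 0 < w.im := hw.2.2 (by linarith) (by linarith)
    obtain ⟨t, ht, he⟩ := (bij_right hα (by positivity : 0 < γ / 2)).surjOn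
      (⟨h, h1⟩ : w ∈ {w : ℂ | w.re = γ / 2 ∧ 0 < w.im})
    have ht1 : 1 < t := ht
    refine ⟨⟨1 / 2, √(t - 1) / 2⟩, ?_, ?_⟩
    · show 0 < √(t - 1) / 2
      have : 0 < √(t - 1) := sqrt_pos.2 (by linarith)
      linarith
    · rw [ff_le (le_of_eq rfl)]
      unfold gl
      rw [hh_mid rfl]
      have e : (1 + 4 * (√(t - 1) / 2) ^ 2 : ℝ) = t := by
        rw [div_pow, sq_sqrt (by linarith)]
        ring
      show cg α (γ / 2) ((1 + 4 * (√(t - 1) / 2) ^ 2 : ℝ) : ℂ) = w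
      rw [e]
      exact he
  · have h1 : (γ : ℂ) - conj w ∈ ED α γ := by
      refine ⟨?_, ?_, ?_⟩
      · rw [rg_re]; linarith [hw.2.1]
      · rw [rg_re]; linarith [hw.1]
      · rw [rg_re, rg_im]
        intro h2 h3
        exact hw.2.2 (by linarith) (by linarith)
    obtain ⟨z, h2, h3⟩ := ff_surj_lt hα hγ h1 (by rw [rg_re]; linarith)
    refine ⟨1 - conj z, ?_, ?_⟩
    · show 0 < (1 - conj z).im
      rw [refl_im]; exact h2
    · rw [ff_refl hα hγ, h3, rg_rg]

/-! ### The boundary -/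

omit hα hγ in
theorem fold_bij {A B : Set ℝ} (hA : A ⊆ Iic (1 / 2))
    (hmap : ∀ t ≤ (1 / 2 : ℝ), t ∈ A ↔ 4 * t * (1 - t) ∈ B) (hB : B ⊆ Iic 1) :
    BijOn (fun t : ℝ => 4 * t * (1 - t)) A B := by
  refine ⟨fun t ht => (hmap t (hA ht)).1 ht, ?_, ?_⟩
  · intro s hs t ht h
    have hs1 : s ≤ 1 / 2 := hA hs
    have ht1 : t ≤ 1 / 2 := hA ht
    have e : (s - t) * (1 - (s + t)) = 0 := by
      simp only at h
      linear_combination h / 4
    rcases mul_eq_zero.1 e with h1 | h1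
    · linarith
    · linarith
  · intro u hu
    have hu1 : u ≤ 1 := hB hu
    have e : 4 * ((1 - √(1 - u)) / 2) * (1 - (1 - √(1 - u)) / 2) = u := by
      have h1 : √(1 - u) ^ 2 = 1 - u := sq_sqrt (by linarith)
      linear_combination -h1
    have h2 : (1 - √(1 - u)) / 2 ≤ 1 / 2 := by
      have := sqrt_nonneg (1 - u)
      linarith
    refine ⟨(1 - √(1 - u)) / 2, ?_, e⟩
    rw [hmap _ h2, e]
    exact hu

omit hα hγ in
theorem phi_lt {s t : ℝ} (hs : s ≤ 1 / 2) (ht : t ≤ 1 / 2) :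
    4 * t * (1 - t) < 4 * s * (1 - s) ↔ t < s := by
  constructor
  · intro h
    by_contra hn
    push Not at hn
    have : 0 ≤ (t - s) * (1 - (s + t)) := mul_nonneg (by linarith) (by linarith)
    nlinarith
  · intro h
    have : 0 < (s - t) * (1 - (s + t)) := mul_pos (by linarith) (by linarith)
    nlinarith

/-- the preimage of the corner -/
noncomputable def x0 (α γ : ℝ) : ℝ := (1 - √(1 - (2 * α / (2 * α + γ)) ^ 2)) / 2

theorem xx_eq : (2 * α / (2 * α + γ)) ^ 2 = xx α (γ / 2) := by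
  unfold xx
  congr 1
  have h1 : 2 * α + γ ≠ 0 := by positivity
  have h2 : α + γ / 2 ≠ 0 := by positivity
  rw [div_eq_div_iff h1 h2]
  ring

theorem x0_facts : 0 < x0 α γ ∧ x0 α γ < 1 / 2 ∧
    4 * x0 α γ * (1 - x0 α γ) = xx α (γ / 2) := by
  have h1 := xx_pos hα (by positivity : 0 < γ / 2)
  have h2 := xx_lt hα (by positivity : 0 < γ / 2)
  unfold x0
  rw [xx_eq hα hγ]
  have h3 : 0 < √(1 - xx α (γ / 2)) := sqrt_pos.2 (by linarith)
  have h4 : √(1 - xx α (γ / 2)) < 1 := by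
    rw [sqrt_lt' one_pos]
    linarith
  have h5 : √(1 - xx α (γ / 2)) ^ 2 = 1 - xx α (γ / 2) := sq_sqrt (by linarith)
  refine ⟨by linarith, by linarith, ?_⟩
  linear_combination -h5

omit hα hγ in
theorem ff_bij {A B : Set ℝ} {C : Set ℂ} (hA : A ⊆ Iic (1 / 2))
    (h1 : BijOn (fun t : ℝ => 4 * t * (1 - t)) A B)
    (h2 : BijOn (fun t : ℝ => cg α (γ / 2) (t : ℂ)) B C) :
    BijOn (fun t : ℝ => ff α γ (t : ℂ)) A C := by
  refine (h2.comp h1).congr ?_
  intro t ht
  have h3 : t ≤ 1 / 2 := hA ht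
  show cg α (γ / 2) ((4 * t * (1 - t) : ℝ) : ℂ) = ff α γ (t : ℂ)
  rw [ff_le (by simpa using h3)]
  unfold gl
  rw [hh_ofReal]

theorem ff_real_refl (t : ℝ) : ff α γ ((1 - t : ℝ) : ℂ) = (γ : ℂ) - conj (ff α γ (t : ℂ)) := by
  have h := ff_refl hα hγ (t : ℂ)
  rw [Complex.conj_ofReal] at h
  rw [← h]
  push_cast
  rfl

theorem ff_bij_refl {A : Set ℝ} {C : Set ℂ} (h : BijOn (fun t : ℝ => ff α γ (t : ℂ)) A C) :
    BijOn (fun t : ℝ => ff α γ (t : ℂ)) {t | 1 - t ∈ A} {w | (γ : ℂ) - conj w ∈ C} := by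
  refine ⟨?_, ?_, ?_⟩
  · intro t ht
    have h1 : ff α γ ((1 - t : ℝ) : ℂ) ∈ C := h.mapsTo ht
    rw [ff_real_refl hα hγ] at h1
    exact h1
  · intro s hs t ht he
    have he : ff α γ (s : ℂ) = ff α γ (t : ℂ) := he
    have h1 : ff α γ ((1 - s : ℝ) : ℂ) = ff α γ ((1 - t : ℝ) : ℂ) := by
      rw [ff_real_refl hα hγ, ff_real_refl hα hγ, he]
    have h2 := h.injOn hs ht h1
    linarith
  · intro w hw
    obtain ⟨s, hs, he⟩ := h.surjOn hw
    refine ⟨1 - s, ?_, ?_⟩
    · show 1 - (1 - s) ∈ A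
      rw [sub_sub_cancel]
      exact hs
    · show ff α γ ((1 - s : ℝ) : ℂ) = w
      have he : ff α γ (s : ℂ) = (γ : ℂ) - conj w := he
      rw [ff_real_refl hα hγ, he, rg_rg]

theorem ff_left : BijOn (fun t : ℝ => ff α γ (t : ℂ)) (Iio 0) {w | w.re = -α} := by
  refine ff_bij (B := Iio 0) ?_ ?_ (bij_left hα (by positivity : 0 < γ / 2))
  · intro t ht
    have : t < 0 := ht
    show t ≤ 1 / 2
    linarith
  · refine fold_bij ?_ ?_ ?_
    · intro t ht
      have : t < 0 := ht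
      show t ≤ 1 / 2
      linarith
    · intro t ht
      have := phi_lt (s := 0) (t := t) (by norm_num) ht
      simp only [mul_zero, zero_mul] at this
      exact this.symm
    · intro t ht
      have : t < 0 := ht
      show t ≤ 1
      linarith

theorem ff_inner : BijOn (fun t : ℝ => ff α γ (t : ℂ)) (Ioo 0 (x0 α γ))
    {w | w.re = 0 ∧ w.im < 0} := by
  obtain ⟨h1, h2, h3⟩ := x0_facts hα hγ
  have h4 := xx_lt hα (by positivity : 0 < γ / 2)
  refine ff_bij (B := Ioo 0 (xx α (γ / 2))) ?_ ?_ (bij_inner hα (by positivity : 0 < γ / 2))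
  · intro t ht
    show t ≤ 1 / 2
    linarith [ht.2]
  · refine fold_bij ?_ ?_ ?_
    · intro t ht
      show t ≤ 1 / 2
      linarith [ht.2]
    · intro t ht
      have e1 := phi_lt (s := t) (t := 0) ht (by norm_num)
      have e2 := phi_lt (s := x0 α γ) (t := t) h2.le ht
      rw [h3] at e2
      simp only [mul_zero, zero_mul] at e1
      rw [mem_Ioo, mem_Ioo, e1, e2]
    · intro t ht
      show t ≤ 1
      linarith [ht.2]

theorem ff_ledge_l : BijOn (fun t : ℝ => ff α γ (t : ℂ)) (Ioo (x0 α γ) (1 / 2))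
    {w | w.im = 0 ∧ 0 < w.re ∧ w.re < γ / 2} := by
  obtain ⟨h1, h2, h3⟩ := x0_facts hα hγ
  refine ff_bij (B := Ioo (xx α (γ / 2)) 1) ?_ ?_ (bij_ledge hα (by positivity : 0 < γ / 2))
  · intro t ht
    exact ht.2.le
  · refine fold_bij ?_ ?_ ?_
    · intro t ht
      exact ht.2.le
    · intro t ht
      have e1 := phi_lt (s := t) (t := x0 α γ) ht h2.le
      have e2 := phi_lt (s := 1 / 2) (t := t) le_rfl ht
      rw [h3] at e1
      have e3 : (4 * (1 / 2) * (1 - 1 / 2) : ℝ) = 1 := by norm_num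
      rw [e3] at e2
      rw [mem_Ioo, mem_Ioo, e1, e2]
    · intro t ht
      exact ht.2.le

theorem ff_x0 : ff α γ ((x0 α γ : ℝ) : ℂ) = 0 := by
  obtain ⟨h1, h2, h3⟩ := x0_facts hα hγ
  rw [ff_le (by rw [Complex.ofReal_re]; exact h2.le)]
  unfold gl
  rw [hh_ofReal, h3]
  exact cg_x hα (by positivity : 0 < γ / 2)

theorem ff_half : ff α γ ((1 / 2 : ℝ) : ℂ) = ((γ / 2 : ℝ) : ℂ) := by
  rw [ff_le (by rw [Complex.ofReal_re])]
  unfold gl
  rw [hh_ofReal]
  have e : (4 * (1 / 2) * (1 - 1 / 2) : ℝ) = 1 := by norm_num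
  rw [e, Complex.ofReal_one]
  exact cg_one hα (by positivity : 0 < γ / 2)

theorem ff_x0' : ff α γ ((1 - x0 α γ : ℝ) : ℂ) = (γ : ℂ) := by
  rw [ff_real_refl hα hγ, ff_x0 hα hγ, map_zero, sub_zero]

theorem ff_right : BijOn (fun t : ℝ => ff α γ (t : ℂ)) (Ioi 1) {w | w.re = γ + α} := by
  have h := ff_bij_refl hα hγ (ff_left hα hγ)
  have e1 : {t : ℝ | 1 - t ∈ Iio (0 : ℝ)} = Ioi 1 := by
    ext t
    simp only [mem_ofPred_eq, mem_Iio, mem_Ioi]
    constructor <;> intro h <;> linarith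
  have e2 : {w : ℂ | (γ : ℂ) - conj w ∈ {w : ℂ | w.re = -α}} = {w : ℂ | w.re = γ + α} := by
    ext w
    simp only [mem_ofPred_eq, rg_re]
    constructor <;> intro h <;> linarith
  rw [e1, e2] at h
  exact h

theorem ff_inner' : BijOn (fun t : ℝ => ff α γ (t : ℂ)) (Ioo (1 - x0 α γ) 1)
    {w | w.re = γ ∧ w.im < 0} := by
  have h := ff_bij_refl hα hγ (ff_inner hα hγ)
  have e1 : {t : ℝ | 1 - t ∈ Ioo (0 : ℝ) (x0 α γ)} = Ioo (1 - x0 α γ) 1 := by
    ext t
    simp only [mem_ofPred_eq, mem_Ioo]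
    constructor <;> rintro ⟨h1, h2⟩ <;> constructor <;> linarith
  have e2 : {w : ℂ | (γ : ℂ) - conj w ∈ {w : ℂ | w.re = 0 ∧ w.im < 0}} =
      {w : ℂ | w.re = γ ∧ w.im < 0} := by
    ext w
    simp only [mem_ofPred_eq, rg_re, rg_im]
    constructor <;> rintro ⟨h1, h2⟩ <;> exact ⟨by linarith, h2⟩
  rw [e1, e2] at h
  exact h

theorem ff_ledge_r : BijOn (fun t : ℝ => ff α γ (t : ℂ)) (Ioo (1 / 2) (1 - x0 α γ))
    {w | w.im = 0 ∧ γ / 2 < w.re ∧ w.re < γ} := by
  have h := ff_bij_refl hα hγ (ff_ledge_l hα hγ)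
  have e1 : {t : ℝ | 1 - t ∈ Ioo (x0 α γ) (1 / 2)} = Ioo (1 / 2) (1 - x0 α γ) := by
    ext t
    simp only [mem_ofPred_eq, mem_Ioo]
    constructor <;> rintro ⟨h1, h2⟩ <;> constructor <;> linarith
  have e2 : {w : ℂ | (γ : ℂ) - conj w ∈ {w : ℂ | w.im = 0 ∧ 0 < w.re ∧ w.re < γ / 2}} =
      {w : ℂ | w.im = 0 ∧ γ / 2 < w.re ∧ w.re < γ} := by
    ext w
    simp only [mem_ofPred_eq, rg_re, rg_im]
    constructor <;> rintro ⟨h1, h2, h3⟩ <;> exact ⟨h1, by linarith, by linarith⟩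
  rw [e1, e2] at h
  exact h

theorem ff_ledge : BijOn (fun t : ℝ => ff α γ (t : ℂ)) (Ioo (x0 α γ) (1 - x0 α γ))
    {w | w.im = 0 ∧ 0 < w.re ∧ w.re < γ} := by
  obtain ⟨h1, h2, h3⟩ := x0_facts hα hγ
  have hl := ff_ledge_l hα hγ
  have hr := ff_ledge_r hα hγ
  have hm := ff_half hα hγ
  have rl : ∀ t ∈ Ioo (x0 α γ) (1 - x0 α γ), t < 1 / 2 → (ff α γ (t : ℂ)).re < γ / 2 :=
    fun t ht h => (hl.mapsTo ⟨ht.1, h⟩).2.2
  have rr : ∀ t ∈ Ioo (x0 α γ) (1 - x0 α γ), 1 / 2 < t → γ / 2 < (ff α γ (t : ℂ)).re :=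
    fun t ht h => (hr.mapsTo ⟨h, ht.2⟩).2.1
  have rm : ∀ t : ℝ, t = 1 / 2 → (ff α γ (t : ℂ)).re = γ / 2 := by
    intro t h
    rw [h, hm, Complex.ofReal_re]
  refine ⟨?_, ?_, ?_⟩
  · intro t ht
    rcases lt_trichotomy t (1 / 2) with h | h | h
    · obtain ⟨a1, a2, a3⟩ := hl.mapsTo ⟨ht.1, h⟩
      exact ⟨a1, a2, by linarith⟩
    · show ff α γ (t : ℂ) ∈ _
      rw [h, hm]
      refine ⟨by simp, ?_, ?_⟩
      · rw [Complex.ofReal_re]; linarith
      · rw [Complex.ofReal_re]; linarith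
    · obtain ⟨a1, a2, a3⟩ := hr.mapsTo ⟨h, ht.2⟩
      exact ⟨a1, by linarith, a3⟩
  · intro s hs t ht he
    have he : ff α γ (s : ℂ) = ff α γ (t : ℂ) := he
    rcases lt_trichotomy s (1 / 2) with h | h | h
    · have r1 := rl s hs h
      rw [he] at r1
      rcases lt_trichotomy t (1 / 2) with h' | h' | h'
      · exact hl.injOn ⟨hs.1, h⟩ ⟨ht.1, h'⟩ he
      · linarith [rm t h']
      · linarith [rr t ht h']
    · have r1 := rm s h
      rw [he] at r1
      rcases lt_trichotomy t (1 / 2) with h' | h' | h'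
      · linarith [rl t ht h']
      · linarith
      · linarith [rr t ht h']
    · have r1 := rr s hs h
      rw [he] at r1
      rcases lt_trichotomy t (1 / 2) with h' | h' | h'
      · linarith [rl t ht h']
      · linarith [rm t h']
      · exact hr.injOn ⟨h, hs.2⟩ ⟨h', ht.2⟩ he
  · rintro w ⟨w1, w2, w3⟩
    rcases lt_trichotomy w.re (γ / 2) with h | h | h
    · obtain ⟨t, ht, he⟩ := hl.surjOn (⟨w1, w2, h⟩ : w ∈ {w : ℂ | w.im = 0 ∧ 0 < w.re ∧ w.re < γ / 2})
      exact ⟨t, ⟨ht.1, by linarith [ht.2]⟩, he⟩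
    · refine ⟨1 / 2, ⟨h2, by linarith⟩, ?_⟩
      show ff α γ ((1 / 2 : ℝ) : ℂ) = w
      rw [hm]
      exact Complex.ext (by rw [Complex.ofReal_re, h]) (by rw [Complex.ofReal_im, w1])
    · obtain ⟨t, ht, he⟩ := hr.surjOn (⟨w1, h, w3⟩ : w ∈ {w : ℂ | w.im = 0 ∧ γ / 2 < w.re ∧ w.re < γ})
      exact ⟨t, ⟨by linarith [ht.1], ht.2⟩, he⟩

omit hα hγ in
theorem bij_conj {S : Set ℝ} {g : ℝ → ℂ} {A B : Set ℂ} (h : BijOn g S A)
    (hAB : ∀ w, conj w ∈ B ↔ w ∈ A) : BijOn (fun t => conj (g t)) S B := by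
  refine ⟨fun t ht => (hAB _).2 (h.mapsTo ht), ?_, ?_⟩
  · intro s hs t ht he
    exact h.injOn hs ht ((starRingEnd ℂ).injective he)
  · intro w hw
    have h1 : conj w ∈ A := by
      rw [← hAB, Complex.conj_conj]
      exact hw
    obtain ⟨t, ht, he⟩ := h.surjOn h1
    refine ⟨t, ht, ?_⟩
    show conj (g t) = w
    rw [he, Complex.conj_conj]

end Pool.Agent.NH38.Fork.FC
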