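import Pool.Agent.NH38.Fork.Stubs3
import Pool.Agent.NH38.Fork.FConf

set_option autoImplicit false

/-!
Task F of the forked channels (helper26): the conformal map of the upper half-plane onto the
forked channel.
-/

namespace Pool.Agent.NH38.Fork

open Filter Topology Set

theorem conj_mem_FDom {α γ : ℝ} {w : ℂ} :
    (starRingEnd ℂ) w ∈ FDom α γ ↔ w ∈ FC.ED α γ := by
  unfold FDom FC.ED
  simp only [Complex.conj_re, Complex.conj_im, mem_ofPred_eq, neg_lt_zero]

theorem t_UF : S_UF := by
  intro α γ hα hγ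
  refine ⟨fun z => (starRingEnd ℂ) (FC.ff α γ z), ?_⟩
  have hx : ((1 - Real.sqrt (1 - (2*α/(2*α+γ))^2)) / 2 : ℝ) = FC.x0 α γ := rfl
  rw [hx]
  refine
    { holo := ?_
      bij := ?_
      cont := ?_
      leftWall := ?_
      innerWall := ?_
      corner := ?_
      ledge := ?_
      corner' := ?_
      innerWall' := ?_
      rightWall := ?_ }
  · have e : (fun z => (starRingEnd ℂ) ((starRingEnd ℂ) (FC.ff α γ z))) = FC.ff α γ := by
      funext z
      rw [Complex.conj_conj]
    rw [e]
    exact FC.ff_diff hα hγ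
  · have h := FC.ff_bijOn hα hγ
    refine ⟨fun z hz => conj_mem_FDom.2 (h.mapsTo hz), ?_, ?_⟩
    · intro s hs t ht he
      exact h.injOn hs ht ((starRingEnd ℂ).injective he)
    · intro w hw
      have h1 : (starRingEnd ℂ) w ∈ FC.ED α γ := by
        rw [← conj_mem_FDom, Complex.conj_conj]
        exact hw
      obtain ⟨z, hz, he⟩ := h.surjOn h1
      refine ⟨z, hz, ?_⟩
      show (starRingEnd ℂ) (FC.ff α γ z) = w
      rw [he, Complex.conj_conj]
  · exact Complex.continuous_conj.comp_continuousOn (FC.ff_cont hα hγ)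
  · exact FC.bij_conj (FC.ff_left hα hγ) fun w => by simp
  · exact FC.bij_conj (FC.ff_inner hα hγ) fun w => by simp
  · show (starRingEnd ℂ) (FC.ff α γ _) = 0
    rw [FC.ff_x0 hα hγ, map_zero]
  · exact FC.bij_conj (FC.ff_ledge hα hγ) fun w => by simp
  · show (starRingEnd ℂ) (FC.ff α γ _) = (γ : ℂ)
    rw [FC.ff_x0' hα hγ, Complex.conj_ofReal]
  · exact FC.bij_conj (FC.ff_inner' hα hγ) fun w => by simp
  · exact FC.bij_conj (FC.ff_right hα hγ) fun w => by simp

end Pool.Agent.NH38.Fork
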