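import Pool.Agent.NH38.Fork.Stubs4
import Pool.Agent.H980R4.Rect

/-!
Forked channels (helper38): bounded domains.
-/

namespace Pool.Agent.NH38.Fork

open Pool.Agent.H988R2.Perc hiding X
open Filter Topology MeasureTheory
open Pool.Agent.H980R4.Rect (Vert SS_symm vert_real)

/-- The same event as `FCross` in the bounded domain (heights in `[-H,H]`). -/
def FCrossH (a m b H : ℕ) : Set Conf :=
  {ω | ∃ x y : ℤ × ℤ, x.1 - x.2 = 0 ∧ 0 ≤ x.1 + x.2 ∧ x.1 + x.2 ≤ H ∧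
    y.1 - y.2 = ((m+b : ℕ) : ℤ) ∧
    Relation.ReflTransGen (fun p r => FAdj a m b ω p r ∧ |p.1 + p.2| ≤ H ∧ |r.1 + r.2| ≤ H) x y}

namespace FT

theorem crossH_sub (a m b H : ℕ) : FCrossH a m b H ⊆ FCross a m b := by
  rintro ω ⟨x, y, h1, h2, -, h3, h4⟩
  exact ⟨x, y, h1, h2, h3, Relation.ReflTransGen.mono (fun p r h => h.1) _ _ h4⟩

theorem SS_of {a m b : ℕ} {ω : Conf} {p r : ℤ × ℤ}
    (h : Relation.ReflTransGen (FAdj a m b ω) p r) :
    Relation.ReflTransGen (Pool.Agent.H980R4.Rect.SS (-(a:ℤ)) (a+m+b) ω) p r := by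
  refine Relation.ReflTransGen.mono ?_ _ _ h
  rintro x y ⟨h1, h2, h3, h4, h5, -⟩
  push_cast at h3 h5
  refine ⟨h1, h2, ?_, h4, ?_⟩ <;> push_cast <;> linarith

theorem low {a m b : ℕ} (hm : 1 ≤ m) {ω : Conf} {x y : ℤ × ℤ} (hx : x.1 - x.2 ≤ 0)
    (h : Relation.ReflTransGen (FAdj a m b ω) x y) :
    y.1 - y.2 ≤ 0 ∨ ∃ z : ℤ × ℤ, z.1 + z.2 ≤ 0 ∧
      Relation.ReflTransGen (FAdj a m b ω) x z := by
  induction h with
  | refl => exact Or.inl hx
  | @tail y' y'' h1 h2 ih =>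
    rcases ih with ih | ih
    · by_cases c1 : y'.1 + y'.2 ≤ 0
      · exact Or.inr ⟨y', c1, h1⟩
      · by_cases c2 : y''.1 + y''.2 ≤ 0
        · exact Or.inr ⟨y'', c2, h1.tail h2⟩
        · left
          by_contra c3
          have hadj : |y''.1 - y''.2 - (y'.1 - y'.2)| ≤ 1 := by
            rcases h2.1 with ⟨h, -⟩ | ⟨h, -⟩ | ⟨h, -⟩ | ⟨h, -⟩ <;> rw [h, abs_le] <;>
              constructor <;> simp
          rw [abs_le] at hadj
          exact h2.2.2.2.2.2 ⟨by omega, by omega, by omega, by omega, by omega, by omega⟩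
    · exact Or.inr ih

theorem crossH_diff {a m b : ℕ} (hm : 1 ≤ m) (H : ℕ) :
    FCross a m b \ FCrossH a m b H ⊆
      Vert (-(a:ℤ)) (a+m+b) 0 H ∪ Vert (-(a:ℤ)) (a+m+b) (-(H:ℤ)) 0 := by
  rintro ω ⟨⟨x, y, hx1, hx2, hy, hr⟩, hn⟩
  by_contra hV
  rw [Set.mem_union, not_or] at hV
  obtain ⟨hV1, hV2⟩ := hV
  obtain ⟨z, hz, hxz⟩ : ∃ z : ℤ × ℤ, z.1 + z.2 ≤ 0 ∧
      Relation.ReflTransGen (FAdj a m b ω) x z := by
    rcases low hm (le_of_eq hx1) hr with h | h
    · exfalso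
      rw [hy] at h
      push_cast at h
      omega
    · exact h
  have hb : ∀ p : ℤ × ℤ, Relation.ReflTransGen (FAdj a m b ω) x p →
      |p.1 + p.2| ≤ H := by
    intro p hp
    have hp' := SS_of hp
    have hz' := SS_symm (SS_of hxz)
    rw [abs_le]
    constructor
    · by_contra hc
      exact hV2 ⟨p, x, by omega, by omega, SS_symm hp'⟩
    · by_contra hc
      exact hV1 ⟨z, p, hz, by omega, hz'.trans hp'⟩
  apply hn
  refine ⟨x, y, hx1, hx2, ?_, hy, ?_⟩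
  · have := hb x Relation.ReflTransGen.refl
    exact (le_abs_self _).trans this
  · clear hy
    induction hr with
    | refl => exact Relation.ReflTransGen.refl
    | tail h1 h2 ih => exact ih.tail ⟨h2, hb _ h1, hb _ (h1.tail h2)⟩

end FT

/-- comparison of the bounded domain with the channel, all parities -/
theorem fork_trunc {a m b : ℕ} (hm : 1 ≤ m) (H : ℕ) :
    |perc.real (FCrossH a m b H) - perc.real (FCross a m b)| ≤
      2 * (1 - (1/2 : ℝ)^188)^(H / (100 * (a + m + b))) := by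
  have h0 : perc.real (FCrossH a m b H) ≤ perc.real (FCross a m b) :=
    measureReal_mono (FT.crossH_sub a m b H)
  have h1 : FCross a m b ⊆ FCrossH a m b H ∪
      (Vert (-(a:ℤ)) (a+m+b) 0 H ∪ Vert (-(a:ℤ)) (a+m+b) (-(H:ℤ)) 0) := by
    intro ω hω
    by_cases hc : ω ∈ FCrossH a m b H
    · exact Or.inl hc
    · exact Or.inr (FT.crossH_diff hm H ⟨hω, hc⟩)
  have h2 : perc.real (FCross a m b) ≤ perc.real (FCrossH a m b H) +
      (perc.real (Vert (-(a:ℤ)) (a+m+b) 0 H) + perc.real (Vert (-(a:ℤ)) (a+m+b) (-(H:ℤ)) 0)) :=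
    (measureReal_mono h1).trans ((measureReal_union_le _ _).trans
      (add_le_add_right (measureReal_union_le _ _) _))
  have h3 := vert_real (-(a:ℤ)) (L := a+m+b) (by omega) 0 H
  have h4 := vert_real (-(a:ℤ)) (L := a+m+b) (by omega) (-(H:ℤ)) H
  rw [zero_add] at h3
  rw [neg_add_cancel] at h4
  rw [abs_le]
  have h5 : (0:ℝ) ≤ (1 - (1/2 : ℝ)^188)^(H / (100 * (a + m + b))) :=
    measureReal_nonneg.trans h3
  constructor <;> linarith

end Pool.Agent.NH38.Fork
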