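import Pool.Agent.NH38.Fork.Stubs3
import Pool.Agent.H863R4.AllPar

/-!
Thick slits, task G (helper80): all widths, the scaling limit.
-/

namespace Pool.Agent.NH38.Fork

open Pool.Agent.H988R2.Perc hiding X
open Pool.Agent.NH38.Step (cardy)
open Filter Topology MeasureTheory

namespace GF

theorem mono_a {a a' : ℕ} (h : a ≤ a') (m b : ℕ) : FCross a m b ⊆ FCross a' m b := by
  rintro ω ⟨x, y, h1, h2, h3, h4⟩
  refine ⟨x, y, h1, h2, h3, h4.lift id ?_⟩
  rintro p q ⟨e1, e2, e3, e4, e5, e6⟩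
  have : (a:ℤ) ≤ a' := by exact_mod_cast h
  show FAdj a' m b ω p q
  exact ⟨e1, by linarith, e3, by linarith, e5, e6⟩

theorem anti_m (a : ℕ) {m m' b b' : ℕ} (h : m ≤ m') (hs : m' + b' = m + b) :
    FCross a m' b' ⊆ FCross a m b := by
  rintro ω ⟨x, y, h1, h2, h3, h4⟩
  rw [hs] at h3
  refine ⟨x, y, h1, h2, h3, h4.lift id ?_⟩
  rintro p q ⟨e1, e2, e3, e4, e5, e6⟩
  rw [hs] at e3 e5
  have : (m:ℤ) ≤ m' := by exact_mod_cast h
  show FAdj a m b ω p q
  exact ⟨e1, e2, e3, e4, e5, fun ⟨g1, g2, g3, g4, g5, g6⟩ =>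
    e6 ⟨g1, g2, g3, by linarith, g5, by linarith⟩⟩

theorem succ_b (a m b : ℕ) : FCross a m (b + 1) ⊆ FCross a m b := by
  rintro ω ⟨x, y, h1, h2, h3, h4⟩
  have key : ∀ z, Relation.ReflTransGen (FAdj a m (b+1) ω) x z →
      (Relation.ReflTransGen (FAdj a m b ω) x z ∧ z.1 - z.2 ≤ ((m + b : ℕ) : ℤ)) ∨
        ∃ y : ℤ × ℤ, y.1 - y.2 = ((m + b : ℕ) : ℤ) ∧ Relation.ReflTransGen (FAdj a m b ω) x y := by
    intro z hz
    induction hz with
    | refl => left; exact ⟨Relation.ReflTransGen.refl, by omega⟩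
    | tail hpq hqr ih =>
      rename_i q r
      rcases ih with ⟨i1, i2⟩ | i3
      · by_cases hq : q.1 - q.2 = ((m + b : ℕ) : ℤ)
        · right; exact ⟨q, hq, i1⟩
        · left
          obtain ⟨e1, e2, e3, e4, e5, e6⟩ := hqr
          have hs := Pool.Agent.H863R4.col_step e1
          have hr : r.1 - r.2 ≤ ((m + b : ℕ) : ℤ) := by omega
          exact ⟨i1.tail ⟨e1, e2, i2, e4, hr, e6⟩, hr⟩
      · right; exact i3
  rcases key y h4 with ⟨_, h5⟩ | ⟨y', h5, h6⟩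
  · exfalso
    push_cast at h3 h5
    omega
  · exact ⟨x, y', h1, h2, h5, h6⟩

theorem anti_b (a m : ℕ) {b b' : ℕ} (h : b ≤ b') : FCross a m b' ⊆ FCross a m b := by
  induction b', h using Nat.le_induction with
  | base => exact subset_rfl
  | succ n hn ih => exact (succ_b a m n).trans ih

theorem sub {a a' m m' b b' : ℕ} (ha : a ≤ a') (hm : m' ≤ m) (hs : m' + b' ≤ m + b) :
    FCross a m b ⊆ FCross a' m' b' :=
  ((mono_a ha m b).trans (anti_m a' (b := m + b - m') hm (by omega))).trans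
    (anti_b a' m' (by omega))

open Pool.Agent.H863R4 in
/-- translation -/
theorem cross_eq {a : ℕ} (ha : Odd a) (k b : ℕ) :
    perc.real (FCross a (2*k+1) b) = perc.real (ECross a k b) := by
  obtain ⟨l, hl⟩ := ha
  have hlz : (a:ℤ) = 2 * l + 1 := by exact_mod_cast hl
  rw [← perc_map (sh (l + 1) (-l)) (ECross a k b)]
  congr 1
  have hstep : ∀ (ω : Conf) (x y : ℤ × ℤ), FAdj a (2*k+1) b ω x y ↔
      EAdj a k b (fun i => ω ((sh (l+1) (-l)).symm i)) (x.1 + (l+1), x.2 + (-l))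
        (y.1 + (l+1), y.2 + (-l)) := by
    intro ω x y
    unfold FAdj EAdj
    rw [openAdj_sh]
    simp only
    push_cast
    constructor
    · rintro ⟨e1, e2, e3, e4, e5, e6⟩
      exact ⟨e1, ⟨by omega, by omega⟩, ⟨by omega, by omega⟩, by omega⟩
    · rintro ⟨e1, ⟨e2, e3⟩, ⟨e4, e5⟩, e6⟩
      exact ⟨e1, by omega, by omega, by omega, by omega, by omega⟩
  ext ω
  constructor
  · rintro ⟨x, y, h1, h2, h3, h4⟩
    refine ⟨(x.1 + (l+1), x.2 + (-l)), (y.1 + (l+1), y.2 + (-l)), ?_, ?_, ?_, ?_⟩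
    · show x.1 + (l+1) - (x.2 + (-l)) = (a:ℤ); omega
    · show 1 ≤ x.1 + (l+1) + (x.2 + (-l)); omega
    · show y.1 + (l+1) - (y.2 + (-l)) = ((a+1+2*k+b : ℕ) : ℤ)
      push_cast at h3 ⊢
      omega
    · exact h4.lift (fun z : ℤ × ℤ => (z.1 + (l+1), z.2 + (-l))) fun p q hpq => (hstep ω p q).mp hpq
  · rintro ⟨x, y, h1, h2, h3, h4⟩
    refine ⟨(x.1 - (l+1), x.2 - (-l)), (y.1 - (l+1), y.2 - (-l)), ?_, ?_, ?_, ?_⟩
    · show x.1 - (l+1) - (x.2 - (-l)) = 0; omega
    · show 0 ≤ x.1 - (l+1) + (x.2 - (-l)); omega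
    · show y.1 - (l+1) - (y.2 - (-l)) = ((2*k+1+b : ℕ) : ℤ)
      push_cast at h3 ⊢
      omega
    · refine h4.lift (fun z : ℤ × ℤ => (z.1 - (l+1), z.2 - (-l))) fun p q hpq => ?_
      show FAdj a (2*k+1) b ω (p.1 - (l+1), p.2 - (-l)) (q.1 - (l+1), q.2 - (-l))
      rw [hstep]
      simpa using hpq

/-! ## limits -/

theorem lim_top {δ : ℕ → ℝ} (hδ : ∀ n, 0 < δ n) (hδ0 : Tendsto δ atTop (𝓝 0)) {c : ℕ → ℝ} {γ : ℝ}
    (hγ : 0 < γ) (hc : Tendsto (fun n => δ n * c n) atTop (𝓝 γ)) : Tendsto c atTop atTop := by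
  have hinv : Tendsto (fun n => (δ n)⁻¹) atTop atTop :=
    (tendsto_nhdsWithin_iff.mpr ⟨hδ0, Eventually.of_forall hδ⟩).inv_tendsto_nhdsGT_zero
  have := hinv.atTop_mul_pos hγ hc
  refine this.congr fun n => ?_
  rw [← mul_assoc, inv_mul_cancel₀ (hδ n).ne', one_mul]

theorem lim_close {δ : ℕ → ℝ} (hδ : ∀ n, 0 < δ n) (hδ0 : Tendsto δ atTop (𝓝 0)) {c d : ℕ → ℝ}
    {γ : ℝ} (hc : Tendsto (fun n => δ n * c n) atTop (𝓝 γ)) (hd : ∀ n, |d n - c n| ≤ 1) :
    Tendsto (fun n => δ n * d n) atTop (𝓝 γ) := by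
  have h1 : Tendsto (fun n => δ n * d n - δ n * c n) atTop (𝓝 0) := by
    refine squeeze_zero_norm (fun n => ?_) hδ0
    rw [← mul_sub, norm_mul, Real.norm_eq_abs, Real.norm_eq_abs, abs_of_pos (hδ n)]
    calc δ n * |d n - c n| ≤ δ n * 1 := mul_le_mul_of_nonneg_left (hd n) (hδ n).le
      _ = δ n := mul_one _
  have h2 := h1.add hc
  simp only [sub_add_cancel, zero_add] at h2
  exact h2

theorem odd_lim (hE : S_ExactF) (hA : S_AsyF) {α γ : ℝ} (hα : 0 < α) (hγ : 0 < γ) {δ : ℕ → ℝ}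
    {a m : ℕ → ℕ} (hδ : ∀ n, 0 < δ n) (hδ0 : Tendsto δ atTop (𝓝 0)) (ha : ∀ n, Odd (a n))
    (hm : ∀ n, Odd (m n)) (h1 : Tendsto (fun n => δ n * a n) atTop (𝓝 α))
    (h2 : Tendsto (fun n => δ n * m n) atTop (𝓝 γ)) :
    Tendsto (fun n => perc.real (FCross (a n) (m n) (a n))) atTop
      (𝓝 (cardy ((1 - Real.sqrt (1 - (2*α/(2*α+γ))^2)) / 2))) := by
  have hs : 0 < 2 * α + γ := by positivity
  have hN : Tendsto (fun n => δ n * ((2 * a n + m n : ℕ) : ℝ)) atTop (𝓝 (2 * α + γ)) := by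
    refine ((h1.const_mul 2).add h2).congr fun n => ?_
    push_cast
    ring
  have hN' : Tendsto (fun n => 2 * a n + m n) atTop atTop := by
    rw [← tendsto_natCast_atTop_iff (R := ℝ)]
    exact lim_top hδ hδ0 hs hN
  have hr : Tendsto (fun n => 2 * (a n : ℝ) / ((2 * a n + m n : ℕ) : ℝ)) atTop
      (𝓝 (2 * α / (2 * α + γ))) := by
    refine ((h1.const_mul 2).div hN hs.ne').congr fun n => ?_
    simp only [Pi.div_apply]
    rw [mul_left_comm, mul_div_mul_left _ _ (hδ n).ne']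
  have hρ1 : 2 * α / (2 * α + γ) < 1 := by
    rw [div_lt_one hs]
    linarith
  refine (hA a (fun n => 2 * a n + m n) _ (by positivity) hρ1 ha
    (fun n => (even_two_mul _).add_odd (hm n)) (fun n => ?_) hN' hr).congr fun n => ?_
  · have := (hm n).pos
    omega
  · obtain ⟨k, hk⟩ := hm n
    rw [hk, cross_eq (ha n), hE (a n) k (ha n), show 2 * a n + (2 * k + 1) = 2 * a n + 1 + 2 * k by ring]

end GF

open GF Pool.Agent.H863R4 in
theorem t_GF : S_GF := by
  intro hE hA α γ hα hγ δ a m b hδ hδ0 ha hm hb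
  -- upper bound
  have a1 : Tendsto (fun n => δ n * ou (a n)) atTop (𝓝 α) := lim_close hδ hδ0 ha fun n => ou_dist _
  have a2 : Tendsto (fun n => δ n * od (a n)) atTop (𝓝 α) := lim_close hδ hδ0 ha fun n => od_dist _
  have d1 : Tendsto (fun n => δ n * ((m n : ℝ) + b n - ou (a n))) atTop (𝓝 γ) := by
    have := (hm.add hb).sub a1
    rw [add_sub_cancel_right] at this
    exact this.congr fun n => by ring
  have d2 : Tendsto (fun n => δ n * ((m n : ℝ) + b n - od (a n))) atTop (𝓝 γ) := by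
    have := (hm.add hb).sub a2
    rw [add_sub_cancel_right] at this
    exact this.congr fun n => by ring
  have e1 := (lim_top hδ hδ0 hγ d1).eventually_ge_atTop 1
  have e2 := (lim_top hδ hδ0 hγ d2).eventually_ge_atTop 1
  have e3 := (lim_top hδ hδ0 hγ hm).eventually_ge_atTop 1
  have e4 := (lim_top hδ hδ0 hα ha).eventually_ge_atTop 1
  have m1 : Tendsto (fun n => δ n * ((min (m n) (m n + b n - ou (a n)) : ℕ) : ℝ)) atTop (𝓝 γ) := by
    have := hm.min d1
    rw [min_self] at this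
    refine this.congr' ?_
    filter_upwards [e1] with n hn
    rw [← mul_min_of_nonneg _ _ (hδ n).le, Nat.cast_min, Nat.cast_sub, Nat.cast_add]
    have : (ou (a n) : ℝ) ≤ ((m n + b n : ℕ) : ℝ) := by push_cast; linarith
    exact_mod_cast this
  have m2 : Tendsto (fun n => δ n * ((max (m n) (m n + b n - od (a n)) : ℕ) : ℝ)) atTop (𝓝 γ) := by
    have := hm.max d2
    rw [max_self] at this
    refine this.congr' ?_
    filter_upwards [e2] with n hn
    rw [← mul_max_of_nonneg _ _ (hδ n).le, Nat.cast_max, Nat.cast_sub, Nat.cast_add]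
    have : (od (a n) : ℝ) ≤ ((m n + b n : ℕ) : ℝ) := by push_cast; linarith
    exact_mod_cast this
  have m3 : Tendsto (fun n => δ n * (od (min (m n) (m n + b n - ou (a n))) : ℝ)) atTop (𝓝 γ) :=
    lim_close hδ hδ0 m1 fun n => od_dist _
  have m4 : Tendsto (fun n => δ n * (ou (max (m n) (m n + b n - od (a n))) : ℝ)) atTop (𝓝 γ) :=
    lim_close hδ hδ0 m2 fun n => ou_dist _
  have L1 := odd_lim hE hA hα hγ hδ hδ0 (fun n => ou_odd (a n)) (fun n => od_odd _) a1 m3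
  have L2 := odd_lim hE hA hα hγ hδ hδ0 (fun n => od_odd (a n)) (fun n => ou_odd _) a2 m4
  refine tendsto_of_tendsto_of_tendsto_of_le_of_le' L2 L1 ?_ ?_
  · filter_upwards [e2, e3, e4] with n h2 h3 h4
    refine measureReal_mono (sub ?_ ?_ ?_)
    · refine od_le ?_
      have : 1 ≤ a n := by exact_mod_cast h4
      omega
    · exact (le_max_left _ _).trans (le_ou _)
    · have g1 : m n + b n - od (a n) ≤ ou (max (m n) (m n + b n - od (a n))) :=
        (le_max_right _ _).trans (le_ou _)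
      omega
  · filter_upwards [e1, e3] with n h1 h3
    have g0 : ou (a n) + 1 ≤ m n + b n := by
      have : (ou (a n) : ℝ) + 1 ≤ ((m n + b n : ℕ) : ℝ) := by push_cast; linarith
      exact_mod_cast this
    have g1 : 1 ≤ m n := by exact_mod_cast h3
    have g2 : min (m n) (m n + b n - ou (a n)) ≠ 0 := by
      have : 1 ≤ min (m n) (m n + b n - ou (a n)) := le_min g1 (by omega)
      omega
    have g3 := od_le g2
    refine measureReal_mono (sub (le_ou _) (g3.trans (min_le_left _ _)) ?_)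
    have g4 := g3.trans (min_le_right _ _)
    omega

end Pool.Agent.NH38.Fork
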