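import Pool.Agent.NH38.Fork.Stubs4
import Pool.Agent.NH38.Fork.GF

/-!
Thick slits, task GG (helper51): all widths, the scaling limit for arms of different widths.
-/

namespace Pool.Agent.NH38.Fork

open Pool.Agent.H988R2.Perc hiding X
open Pool.Agent.NH38.Step (cardy)
open Filter Topology MeasureTheory

namespace GG

open GF

theorem odd_lim (hE : S_ExactG) (hA : S_AsyG) {α γ β : ℝ} (hα : 0 < α) (hγ : 0 < γ) (hβ : 0 < β)
    {δ : ℕ → ℝ} {a m b : ℕ → ℕ} (hδ : ∀ n, 0 < δ n) (hδ0 : Tendsto δ atTop (𝓝 0))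
    (ha : ∀ n, Odd (a n)) (hm : ∀ n, Odd (m n)) (hb : ∀ n, Odd (b n))
    (h1 : Tendsto (fun n => δ n * a n) atTop (𝓝 α))
    (h2 : Tendsto (fun n => δ n * m n) atTop (𝓝 γ))
    (h3 : Tendsto (fun n => δ n * b n) atTop (𝓝 β)) :
    Tendsto (fun n => perc.real (FCross (a n) (m n) (b n))) atTop
      (𝓝 (cardy (x1 ((α/(α+γ+β))^2) ((β/(α+γ+β))^2)))) := by
  have hs : 0 < α + γ + β := by positivity
  have hN : Tendsto (fun n => δ n * ((a n + m n + b n : ℕ) : ℝ)) atTop (𝓝 (α + γ + β)) := by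
    refine ((h1.add h2).add h3).congr fun n => ?_
    push_cast
    ring
  have hN' : Tendsto (fun n => a n + m n + b n) atTop atTop := by
    rw [← tendsto_natCast_atTop_iff (R := ℝ)]
    exact lim_top hδ hδ0 hs hN
  have hr : Tendsto (fun n => (a n : ℝ) / ((a n + m n + b n : ℕ) : ℝ)) atTop
      (𝓝 (α / (α + γ + β))) := by
    refine (h1.div hN hs.ne').congr fun n => ?_
    simp only [Pi.div_apply]
    rw [mul_div_mul_left _ _ (hδ n).ne']
  have hr' : Tendsto (fun n => (b n : ℝ) / ((a n + m n + b n : ℕ) : ℝ)) atTop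
      (𝓝 (β / (α + γ + β))) := by
    refine (h3.div hN hs.ne').congr fun n => ?_
    simp only [Pi.div_apply]
    rw [mul_div_mul_left _ _ (hδ n).ne']
  have hρ1 : α / (α + γ + β) + β / (α + γ + β) < 1 := by
    rw [← add_div, div_lt_one hs]
    linarith
  refine (hA a b (fun n => a n + m n + b n) _ _ (by positivity) (by positivity) hρ1 ha hb
    (fun n => ((ha n).add_odd (hm n)).add_odd (hb n)) (fun n => ?_) hN' hr hr').congr fun n => ?_
  · have := (hm n).pos
    omega
  · obtain ⟨k, hk⟩ := hm n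
    rw [hk, cross_eq (ha n), hE (a n) k (b n) (ha n) (hb n),
      show a n + (2 * k + 1) + b n = a n + b n + 1 + 2 * k by ring]

end GG

open GF GG Pool.Agent.H863R4 in
theorem t_GG : S_GG := by
  intro hE hA α γ β hα hγ hβ δ a m b hδ hδ0 ha hm hb
  have a1 : Tendsto (fun n => δ n * ou (a n)) atTop (𝓝 α) := lim_close hδ hδ0 ha fun n => ou_dist _
  have a2 : Tendsto (fun n => δ n * od (a n)) atTop (𝓝 α) := lim_close hδ hδ0 ha fun n => od_dist _
  have m1 : Tendsto (fun n => δ n * ou (m n)) atTop (𝓝 γ) := lim_close hδ hδ0 hm fun n => ou_dist _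
  have m2 : Tendsto (fun n => δ n * od (m n)) atTop (𝓝 γ) := lim_close hδ hδ0 hm fun n => od_dist _
  have b1 : Tendsto (fun n => δ n * ou (b n)) atTop (𝓝 β) := lim_close hδ hδ0 hb fun n => ou_dist _
  have b2 : Tendsto (fun n => δ n * od (b n)) atTop (𝓝 β) := lim_close hδ hδ0 hb fun n => od_dist _
  have e1 := (lim_top hδ hδ0 hα ha).eventually_ge_atTop 1
  have e2 := (lim_top hδ hδ0 hγ hm).eventually_ge_atTop 1
  have e3 := (lim_top hδ hδ0 hβ hb).eventually_ge_atTop 1
  have L1 := GG.odd_lim hE hA hα hγ hβ hδ hδ0 (fun n => ou_odd (a n)) (fun n => od_odd (m n))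
    (fun n => od_odd (b n)) a1 m2 b2
  have L2 := GG.odd_lim hE hA hα hγ hβ hδ hδ0 (fun n => od_odd (a n)) (fun n => ou_odd (m n))
    (fun n => ou_odd (b n)) a2 m1 b1
  refine tendsto_of_tendsto_of_tendsto_of_le_of_le' L2 L1 ?_ ?_
  · filter_upwards [e1] with n h1
    refine measureReal_mono (sub (od_le ?_) (le_ou _) (add_le_add (le_ou _) (le_ou _)))
    have : 1 ≤ a n := by exact_mod_cast h1
    omega
  · filter_upwards [e2, e3] with n h2 h3
    have g2 : 1 ≤ m n := by exact_mod_cast h2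
    have g3 : 1 ≤ b n := by exact_mod_cast h3
    have g4 : od (m n) ≤ m n := od_le (by omega)
    have g5 : od (b n) ≤ b n := od_le (by omega)
    exact measureReal_mono (sub (le_ou _) g4 (add_le_add g4 g5))

end Pool.Agent.NH38.Fork
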