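import Pool.Agent.NH38.Fork.Stubs3
import Pool.Agent.NH38.Fork.Q5
import Pool.Agent.H31C.Fin
import Pool.Agent.H136R2.Cardy.One

set_option autoImplicit false

/-!
Thick slits, task FK-H1 (helper56): the slit amplitude at `A = B = 1,…,1`.
-/

namespace Pool.Agent.NH38.Fork

open Pool.Agent.H988R2.Perc hiding X
open Pool.Agent.NH38.Step (om prs zs on)
open Pool.Agent.NH38.Step.Hom (phi phi_on on_prod on_len)
open Polynomial

namespace H1

open Pool.Agent.H136R2.Cardy

theorem on_nz (n : ℕ) : NZ (on n) := Pool.Agent.NH38.Step.Hom.on_ne n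

theorem eval_reflect' {N : ℕ} {p : ℂ[X]} (hp : p.natDegree ≤ N) {w : ℂ} (hw : w ≠ 0) :
    (reflect N p).eval w = w^N * p.eval w⁻¹ := by
  rw [eval_eq_sum_range' (lt_of_le_of_lt (refl_natDegree hp) (Nat.lt_succ_self N)),
    eval_eq_sum_range' (lt_of_le_of_lt hp (Nat.lt_succ_self N)), Finset.mul_sum,
    ← Finset.sum_range_reflect]
  refine Finset.sum_congr rfl fun i hi => ?_
  rw [Finset.mem_range] at hi
  rw [coeff_reflect, revAt_le (by omega), show N - (N + 1 - 1 - i) = i by omega,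
    show N + 1 - 1 - i = N - i by omega, inv_pow]
  have h1 : w^N = w^(N-i) * w^i := by rw [← pow_add]; congr 1; omega
  rw [h1]
  field_simp

theorem qq2 {q : ℂ} (hq : q^2 + q + 1 = 0) (a : ℕ) {G T : ℂ[X]} (h : Data q a a a G T) :
    ∀ w : ℂ, w ≠ 0 →
    (pp a G).eval w + w^(6*a+2) * (pp a G).eval w⁻¹ = (q^2 - q) * T.coeff (2*a) *
      ((up (H337CB.P a)).eval (w^3) - w * (up (H337CB.Ps a)).eval (w^3))^2 := by
  have hq3 : q^3 = 1 := by
    have : q^3 - 1 = (q-1)*(q^2+q+1) := by ring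
    rw [hq, mul_zero] at this; exact sub_eq_zero.mp this
  have hp : (pp a G).natDegree ≤ 6*a+2 := pp_natDegree h.hG
  have h0 : (X - 1)^(4*a+1) ∣ pp a G := ⟨(X+1)*G, by unfold pp; ring⟩
  have h0s : (X - 1)^(4*a+1) ∣ reflect (6*a+2) (pp a G) := by
    rw [pp_reflect h.hG]
    exact dvd_neg.mpr ⟨(X+1)*reflect (2*a) G, by unfold pp; ring⟩
  have hab : a + a = 2 * a := by ring
  obtain ⟨c, hc1, hc2⟩ := NM hq (pp a G) _ hab hp rfl h0 h0s
    (odd_order (by omega) (dA_natDegree _ _ _ hp) (dA_reflect hq3 a _ hp) h.hA)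
    (odd_order (by omega) (dB_natDegree _ _ _ hp) (dB_reflect hq3 a _ hp) h.hB) (padeC a) (padeC a)
  have hc : (q^2 - q) * T.coeff (2*a) = c := by
    have e := congrArg (fun f => f.coeff 0) hc2
    simp only [coeff_add, coeff_reflect, revAt_le (Nat.zero_le _), Nat.sub_zero] at e
    rw [part_coeff, part_coeff, if_pos (by omega), if_pos (by omega),
      show 3*(2*a)+2 = 6*a+2 by ring, pp_top h.hG, h.top, show 3*0+0 = 0 by rfl, pp_bot, h.bot,
      mul_coeff_zero, mul_coeff_zero, coeff_C_zero, c0_one] at e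
    linear_combination e
  set P := up (H337CB.P a) with hP
  set Q := up (H337CB.Ps a) with hQ
  have hPd : P.natDegree ≤ a := (padeC a).degP
  have hQr : Q = reflect a P := (padeC a).refl
  have hQd : Q.natDegree ≤ a := by rw [hQr]; exact refl_natDegree hPd
  have rr : ∀ (N : ℕ) (f : ℂ[X]), reflect N (reflect N f) = f := by
    intro N f; ext i; rw [coeff_reflect, coeff_reflect, revAt_invol]
  have hPr : P = reflect a Q := by rw [hQr, rr]
  set p0 := part a 0 (pp a G) with hp0
  set p1 := part a 1 (pp a G) with hp1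
  set p2 := part a 2 (pp a G) with hp2
  have e2 : p2 + reflect (2*a) p0 = C c * Q * Q := by
    have e := congrArg (reflect (2*a)) hc2
    rw [reflect_add, rr, mul_assoc, reflect_C_mul, ← hab, reflect_mul _ _ hPd hPd, ← hQr, hab] at e
    rw [mul_assoc, ← e]
    ring
  have e1 : p1 + reflect (2*a) p1 = - (2 * (C c * P * Q)) := by
    have e := congrArg (reflect (2*a)) hc1
    rw [reflect_add, reflect_C_mul, reflect_C_mul, rr, mul_assoc, reflect_C_mul, ← hab,
      reflect_mul _ _ hPd hQd, ← hQr, ← hPr, hab] at e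
    have hqC : (C q : ℂ[X])^2 + C q + 1 = 0 := by
      rw [← C_pow, ← C_add, ← C_1, ← C_add, hq, C_0]
    rw [C_pow] at e hc1
    linear_combination (p1 + reflect (2*a) p1) * hqC - e - hc1
  have hps : (reflect (6*a+2) (pp a G)).natDegree ≤ 6*a+2 := refl_natDegree hp
  have d1 := part_sum a (pp a G) hp
  have d2 := part_sum a _ hps
  rw [part_reflect a 0 (by omega) _, part_reflect a 1 (by omega) _, part_reflect a 2 (by omega) _] at d2
  simp only [Nat.sub_zero, show (2:ℕ) - 1 = 1 from rfl, show (2:ℕ) - 2 = 0 from rfl] at d2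
  rw [← hp0, ← hp1, ← hp2] at d1 d2
  have e3 : pp a G + reflect (6*a+2) (pp a G) =
      C c * (expand ℂ 3 P - X * expand ℂ 3 Q)^2 := by
    have f0 := congrArg (expand ℂ 3) hc2
    have f1 := congrArg (expand ℂ 3) e1
    have f2 := congrArg (expand ℂ 3) e2
    simp only [map_add, map_mul, map_neg, expand_C, map_ofNat] at f0 f1 f2
    rw [d2]
    linear_combination d1 + f0 + X * f1 + X^2 * f2
  intro w hw
  have e4 := congrArg (fun f => f.eval w) e3
  simp only [eval_add, eval_mul, eval_C, eval_pow, eval_sub, eval_X, expand_eval] at e4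
  rw [eval_reflect' hp hw] at e4
  rw [e4, hc]

end H1

open H1 Pool.Agent.H136R2.Cardy

theorem t_OM (hw2 : S_ttwid) (hTq : S_Teq) : S_OM := by
  intro a ha w hw
  obtain ⟨G0, T0, hD, hG', hT'⟩ := Pool.Agent.H31C.fin_all a a a ha ha (by ring)
  have hG : ∀ W : ℂ, Pool.Agent.H492C.GR (on a) W (on a) = G0.eval W := hG'
  have hT : ∀ W : ℂ, Pool.Agent.H492C.TT (on a) W (on a) = T0.eval W := hT'
  have hq : q^2 + q + 1 = 0 := q_spec
  have hla : (on a).length = a := on_len a
  have hodd : Odd (on a).length := by rw [hla]; exact ha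
  set e : ℕ := (a + 1) * a + (na (on a) + na (on a)) with he
  have hcst : ∀ w : ℂ, cst (on a) (on a) 0 w = w^a * q^e := by
    intro w
    unfold cst
    rw [on_prod, hla, one_pow, mul_one, mul_one, show (a + a)/2 + 0 = a by omega]
  have hqe : (q:ℂ)^e ≠ 0 := pow_ne_zero _ q_ne_zero
  have hgh : ∀ w : ℂ, gh (on a) [] (on a) w = G0.eval w / (w^a * q^e) := by
    intro w
    unfold gh
    rw [show prs ([] : List ℂ) = [] from rfl, Q5.G_thin, hG, ← hcst w]
    rfl
  -- the leading coefficient of `T0`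
  obtain ⟨F, hF, _, hFc, hFe⟩ := hw2 (on a) [] (on a) hodd hodd (on_nz a) (fun _ h => by simp at h) (on_nz a)
  have hT0 : T0.coeff (2*a) = q^e * mm (on a) (on a) * zs (on (2*a)) := by
    have h1 : ∀ w : ℂ, w ≠ 0 → T0.eval w = (C (q^e * mm (on a) (on a)) * F).eval w := by
      intro w hw
      have h2 := hTq (on a) [] (on a) w hodd hodd (on_nz a) (fun _ h => by simp at h) (on_nz a) hw
      have h3 := hFe w hw
      have h4 : T (on a) (w :: prs []) (on a) = T0.eval w := by
        rw [← hT]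
        unfold T Pool.Agent.H492C.TT
        rw [show prs ([] : List ℂ) = [] from rfl]
        simp only [List.cons_append, List.nil_append]
        ring
      rw [h4] at h2
      rw [hla, show (a + a)/2 + ([] : List ℂ).length = a by simp; omega] at h3
      rw [h2, eval_mul, eval_C, ← h3]
      rw [show ([] : List ℂ).length = 0 from rfl, hcst]
      ring
    have h5 : T0 = C (q^e * mm (on a) (on a)) * F := by
      apply Polynomial.eq_of_infinite_eval_eq
      refine (Set.finite_singleton (0:ℂ)).infinite_compl.mono fun x hx => ?_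
      exact h1 x hx
    rw [h5, coeff_C_mul]
    rw [hla, show a + a + 2 * ([] : List ℂ).length = 2 * a by simp; ring] at hFc
    rw [hFc]
    have h6 : on a ++ (on a ++ prs []) = on (2*a) := by
      unfold on
      rw [show prs ([] : List ℂ) = [] from rfl, List.append_nil, List.replicate_append_replicate,
        two_mul]
    rw [h6]
  have key := qq2 hq a hD w hw
  have hphi : phi (on (2*a)) w = (w+1) * (w-1)^(4*a+1) * (w^(2*a+1))⁻¹ := by
    rw [phi_on]
    have : om w - 2 = (w-1)^2 * w⁻¹ := by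
      unfold om
      field_simp
      ring
    rw [this, mul_pow, ← pow_mul, inv_pow, pow_succ w, show 2*(2*a) = 4*a by ring]
    field_simp
    ring
  have hw0 : w⁻¹ ≠ 0 := inv_ne_zero hw
  have hpp : ∀ v : ℂ, (pp a G0).eval v = (v+1) * (v-1)^(4*a+1) * G0.eval v := by
    intro v
    unfold pp
    simp only [eval_mul, eval_add, eval_X, eval_one, eval_pow, eval_sub]
  have hinv : w^(6*a+2) * ((w⁻¹+1) * (w⁻¹-1)^(4*a+1)) =
      - (w^(2*a) * ((w+1) * (w-1)^(4*a+1))) := by
    have h1 : w⁻¹ + 1 = (w+1) * w⁻¹ := by field_simp; ring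
    have h2 : w⁻¹ - 1 = -((w-1) * w⁻¹) := by field_simp; ring
    rw [h1, h2, Odd.neg_pow ⟨2*a, by ring⟩, mul_pow, inv_pow,
      show w^(6*a+2) = w^(2*a) * (w * w^(4*a+1)) by rw [← pow_succ', ← pow_add]; congr 1; ring]
    field_simp
  rw [hpp, hpp, ← mul_assoc (w^(6*a+2)), hinv, hT0] at key
  rw [hgh, hgh, hphi, zpow_neg, show 3*(a:ℤ)+1 = ((3*a+1:ℕ):ℤ) by push_cast; ring, zpow_natCast]
  change _ = (q^2 - q) * (zs (on (2*a)) * mm (on a) (on a)) * (w^(3*a+1))⁻¹ *
      ((up (H337CB.P a)).eval (w^3) - w * (up (H337CB.Ps a)).eval (w^3))^2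
  set D := (w+1) * (w-1)^(4*a+1) with hDD
  have hL : (G0.eval w / (w^a * q^e) - G0.eval w⁻¹ / (w⁻¹^a * q^e)) * (D * (w^(2*a+1))⁻¹) =
      D * (G0.eval w - w^(2*a) * G0.eval w⁻¹) * ((w^(3*a+1))⁻¹ * (q^e)⁻¹) := by
    have hW : w^a ≠ 0 := pow_ne_zero _ hw
    rw [inv_pow, show w^(2*a) = (w^a)^2 by rw [← pow_mul]; congr 1; ring,
      show w^(3*a+1) = (w^a)^3 * w by rw [← pow_mul, ← pow_succ]; congr 1; ring,
      show w^(2*a+1) = (w^a)^2 * w by rw [← pow_mul, ← pow_succ]; congr 1; ring]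
    generalize w^a = W at *
    generalize q^e = E at *
    field_simp
  rw [hL]
  have h3 : D * (G0.eval w - w^(2*a) * G0.eval w⁻¹) = (q^2 - q) * (q^e * mm (on a) (on a) *
      zs (on (2*a))) * ((up (H337CB.P a)).eval (w^3) - w * (up (H337CB.Ps a)).eval (w^3))^2 := by
    rw [← key]
    ring
  rw [h3]
  field_simp

end Pool.Agent.NH38.Fork
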