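import Pool.Agent.NH38.Fork.Stubs4
import Pool.Agent.NH38.Fork.H1

set_option autoImplicit false

/-!
Thick slits, task FG-H1 (helper76): the slit amplitude at `A = 1,…,1`, `B = 1,…,1` (arms of
different widths).
-/

namespace Pool.Agent.NH38.Fork

open Pool.Agent.H988R2.Perc hiding X
open Pool.Agent.NH38.Step (om prs zs on)
open Pool.Agent.NH38.Step.Hom (phi phi_on on_prod on_len)
open Polynomial

namespace HG1

open Pool.Agent.H136R2.Cardy H1

theorem qq2g {q : ℂ} (hq : q^2 + q + 1 = 0) {a b n : ℕ} (hab : a + b = 2 * n) {G T : ℂ[X]}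
    (h : Data q a b n G T) : ∃ d : ℂ[X], d.natDegree ≤ 2 * n ∧ d.coeff 0 = - T.coeff (2*n) ∧
    pp n G + reflect (6*n+2) (pp n G) = C ((q^2 - q) * T.coeff (2*n)) *
      ((expand ℂ 3 (up (H337CB.P a)) - X * expand ℂ 3 (up (H337CB.Ps a))) *
        (expand ℂ 3 (up (H337CB.P b)) - X * expand ℂ 3 (up (H337CB.Ps b)))) ∧
    pp n G - reflect (6*n+2) (pp n G) = expand ℂ 3 d - C (T.coeff (2*n)) * (X * expand ℂ 3
      (up (H337CB.P b * H337CB.Ps a - H337CB.Ps b * H337CB.P a))) -
      X^2 * expand ℂ 3 (reflect (2*n) d) := by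
  have hq3 : q^3 = 1 := by
    have : q^3 - 1 = (q-1)*(q^2+q+1) := by ring
    rw [hq, mul_zero] at this; exact sub_eq_zero.mp this
  have hη : q - q^2 ≠ 0 := by
    intro h
    have h1 : q^2 = q := (sub_eq_zero.mp h).symm
    rw [h1] at hq
    have h2 : q = -1/2 := by linear_combination hq/2
    rw [h2] at h1; norm_num at h1
  have hp : (pp n G).natDegree ≤ 6*n+2 := pp_natDegree h.hG
  have h0 : (X - 1)^(4*n+1) ∣ pp n G := ⟨(X+1)*G, by unfold pp; ring⟩
  have h0s : (X - 1)^(4*n+1) ∣ reflect (6*n+2) (pp n G) := by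
    rw [pp_reflect h.hG]
    exact dvd_neg.mpr ⟨(X+1)*reflect (2*n) G, by unfold pp; ring⟩
  obtain ⟨c, hc1, hc2⟩ := NM hq (pp n G) _ hab hp rfl h0 h0s
    (odd_order (by omega) (dA_natDegree _ _ _ hp) (dA_reflect hq3 n _ hp) h.hA)
    (odd_order (by omega) (dB_natDegree _ _ _ hp) (dB_reflect hq3 n _ hp) h.hB) (padeC a) (padeC b)
  have hc : (q^2 - q) * T.coeff (2*n) = c := by
    have e := congrArg (fun f => f.coeff 0) hc2
    simp only [coeff_add, coeff_reflect, revAt_le (Nat.zero_le _), Nat.sub_zero] at e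
    rw [part_coeff, part_coeff, if_pos (by omega), if_pos (by omega),
      show 3*(2*n)+2 = 6*n+2 by ring, pp_top h.hG, h.top, show 3*0+0 = 0 by rfl, pp_bot, h.bot,
      mul_coeff_zero, mul_coeff_zero, coeff_C_zero, c0_one, c0_one] at e
    linear_combination e
  set t := T.coeff (2*n) with ht
  set Pa := up (H337CB.P a) with hPa
  set Qa := up (H337CB.Ps a) with hQa
  set Pb := up (H337CB.P b) with hPb
  set Qb := up (H337CB.Ps b) with hQb
  have hPad : Pa.natDegree ≤ a := (padeC a).degP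
  have hQar : Qa = reflect a Pa := (padeC a).refl
  have hQad : Qa.natDegree ≤ a := by rw [hQar]; exact refl_natDegree hPad
  have hPbd : Pb.natDegree ≤ b := (padeC b).degP
  have hQbr : Qb = reflect b Pb := (padeC b).refl
  have hQbd : Qb.natDegree ≤ b := by rw [hQbr]; exact refl_natDegree hPbd
  have rr : ∀ (N : ℕ) (f : ℂ[X]), reflect N (reflect N f) = f := by
    intro N f; ext i; rw [coeff_reflect, coeff_reflect, revAt_invol]
  have hPar : Pa = reflect a Qa := by rw [hQar, rr]
  have hba : b + a = 2 * n := by omega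
  set p0 := part n 0 (pp n G) with hp0
  set p1 := part n 1 (pp n G) with hp1
  set p2 := part n 2 (pp n G) with hp2
  have e2 : p2 + reflect (2*n) p0 = C c * Qb * Qa := by
    have e := congrArg (reflect (2*n)) hc2
    rw [reflect_add, rr, mul_assoc, reflect_C_mul, ← hba, reflect_mul _ _ hPbd hPad, ← hQar,
      ← hQbr, hba] at e
    rw [mul_assoc, ← e]
    ring
  have e1' : C q * reflect (2*n) p1 + C (q^2) * p1 = C c * Qb * Pa := by
    have e := congrArg (reflect (2*n)) hc1
    rw [reflect_add, reflect_C_mul, reflect_C_mul, rr, mul_assoc, reflect_C_mul, ← hba,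
      reflect_mul _ _ hPbd hQad, ← hQbr, ← hPar, hba] at e
    rw [mul_assoc, ← e]
  have hqC : (C q : ℂ[X])^2 + C q + 1 = 0 := by
    rw [← C_pow, ← C_add, ← C_1, ← C_add, hq, C_0]
  have e1 : p1 + reflect (2*n) p1 = - (C c * Pb * Qa + C c * Qb * Pa) := by
    rw [C_pow] at e1' hc1
    linear_combination (p1 + reflect (2*n) p1) * hqC - e1' - hc1
  have e3 : p1 - reflect (2*n) p1 = - (C t * (Pb * Qa - Qb * Pa)) := by
    have h1 : C (q - q^2) * (p1 - reflect (2*n) p1) =
        C (q - q^2) * (- (C t * (Pb * Qa - Qb * Pa))) := by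
      have h2 : C (q - q^2) * (- (C t * (Pb * Qa - Qb * Pa))) = C c * Pb * Qa - C c * Qb * Pa := by
        rw [← hc]
        simp only [C_mul, C_sub]
        ring
      rw [h2, ← hc1, ← e1', C_sub]
      ring
    exact mul_left_cancel₀ (by rwa [Ne, C_eq_zero]) h1
  have hps : (reflect (6*n+2) (pp n G)).natDegree ≤ 6*n+2 := refl_natDegree hp
  have d1 := part_sum n (pp n G) hp
  have d2 := part_sum n _ hps
  rw [part_reflect n 0 (by omega) _, part_reflect n 1 (by omega) _, part_reflect n 2 (by omega) _] at d2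
  simp only [Nat.sub_zero, show (2:ℕ) - 1 = 1 from rfl, show (2:ℕ) - 2 = 0 from rfl] at d2
  rw [← hp0, ← hp1, ← hp2] at d1 d2
  refine ⟨p0 - reflect (2*n) p2, ?_, ?_, ?_, ?_⟩
  · refine (natDegree_sub_le _ _).trans (max_le (part_natDegree _ _ _) ?_)
    exact refl_natDegree (part_natDegree _ _ _)
  · rw [coeff_sub, coeff_reflect, revAt_le (Nat.zero_le _), Nat.sub_zero, hp0, hp2, part_coeff,
      part_coeff, if_pos (by omega), if_pos (by omega), show 3*(2*n)+2 = 6*n+2 by ring,
      pp_top h.hG, h.top, show 3*0+0 = 0 by rfl, pp_bot, h.bot]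
    linear_combination t * hq
  · have f0 := congrArg (expand ℂ 3) hc2
    have f1 := congrArg (expand ℂ 3) e1
    have f2 := congrArg (expand ℂ 3) e2
    simp only [map_add, map_mul, map_neg, expand_C] at f0 f1 f2
    rw [d2, hc]
    linear_combination d1 + f0 + X * f1 + X^2 * f2
  · have f1 := congrArg (expand ℂ 3) e3
    have hup : up (H337CB.P b * H337CB.Ps a - H337CB.Ps b * H337CB.P a) = Pb * Qa - Qb * Pa := by
      rw [hPa, hQa, hPb, hQb]
      unfold up
      rw [Polynomial.map_sub, Polynomial.map_mul, Polynomial.map_mul]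
    have hr : reflect (2*n) (p0 - reflect (2*n) p2) = reflect (2*n) p0 - p2 := by
      rw [reflect_sub, rr]
    rw [d2, hup, hr]
    simp only [map_sub, map_mul, map_neg, expand_C] at f1 ⊢
    linear_combination d1 + X * f1

end HG1

open HG1 H1 Pool.Agent.H136R2.Cardy

theorem t_OMg (hw2 : S_ttwid) (hTq : S_Teq) : S_OMg := by
  intro a b ha hb
  obtain ⟨n, hab⟩ : ∃ n, a + b = 2 * n := by
    obtain ⟨i, hi⟩ := ha; obtain ⟨j, hj⟩ := hb; exact ⟨i+j+1, by omega⟩
  have hn : (a + b) / 2 = n := by omega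
  obtain ⟨G0, T0, hD, hG', hT'⟩ := Pool.Agent.H31C.fin_all a b n ha hb hab
  have hG : ∀ W : ℂ, Pool.Agent.H492C.GR (on a) W (on b) = G0.eval W := hG'
  have hT : ∀ W : ℂ, Pool.Agent.H492C.TT (on a) W (on b) = T0.eval W := hT'
  have hq : q^2 + q + 1 = 0 := q_spec
  have hla : (on a).length = a := on_len a
  have hlb : (on b).length = b := on_len b
  have hodda : Odd (on a).length := by rw [hla]; exact ha
  have hoddb : Odd (on b).length := by rw [hlb]; exact hb
  set e : ℕ := (n + 1) * n + (na (on a) + na (on b)) with he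
  have hcst : ∀ w : ℂ, cst (on a) (on b) 0 w = w^n * q^e := by
    intro w
    unfold cst
    rw [on_prod, on_prod, hla, hlb, one_pow, one_pow, mul_one, mul_one, hn, add_zero]
  have hqe : (q:ℂ)^e ≠ 0 := pow_ne_zero _ q_ne_zero
  have hgh : ∀ w : ℂ, gh (on a) [] (on b) w = G0.eval w / (w^n * q^e) := by
    intro w
    unfold gh
    rw [show prs ([] : List ℂ) = [] from rfl, Q5.G_thin, hG, ← hcst w]
    rfl
  -- the leading coefficient of `T0`
  obtain ⟨F, hF, _, hFc, hFe⟩ := hw2 (on a) [] (on b) hodda hoddb (on_nz a)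
    (fun _ h => by simp at h) (on_nz b)
  have hT0 : T0.coeff (2*n) = q^e * mm (on a) (on b) * zs (on (a+b)) := by
    have h1 : ∀ w : ℂ, w ≠ 0 → T0.eval w = (C (q^e * mm (on a) (on b)) * F).eval w := by
      intro w hw
      have h2 := hTq (on a) [] (on b) w hodda hoddb (on_nz a) (fun _ h => by simp at h) (on_nz b) hw
      have h3 := hFe w hw
      have h4 : T (on a) (w :: prs []) (on b) = T0.eval w := by
        rw [← hT]
        unfold T Pool.Agent.H492C.TT
        rw [show prs ([] : List ℂ) = [] from rfl]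
        simp only [List.cons_append, List.nil_append]
        ring
      rw [h4] at h2
      rw [hla, hlb, show (a + b)/2 + ([] : List ℂ).length = n by simp; omega] at h3
      rw [h2, eval_mul, eval_C, ← h3]
      rw [show ([] : List ℂ).length = 0 from rfl, hcst]
      ring
    have h5 : T0 = C (q^e * mm (on a) (on b)) * F := by
      apply Polynomial.eq_of_infinite_eval_eq
      refine (Set.finite_singleton (0:ℂ)).infinite_compl.mono fun x hx => ?_
      exact h1 x hx
    rw [h5, coeff_C_mul]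
    rw [hla, hlb, show a + b + 2 * ([] : List ℂ).length = 2 * n by simp; omega] at hFc
    rw [hFc]
    have h6 : on a ++ (on b ++ prs []) = on (a+b) := by
      unfold on
      rw [show prs ([] : List ℂ) = [] from rfl, List.append_nil, List.replicate_append_replicate]
    rw [h6]
  obtain ⟨d, hd1, hd2, key1, key2⟩ := qq2g hq hab hD
  have hp : (pp n G0).natDegree ≤ 6*n+2 := pp_natDegree hD.hG
  have hphi : ∀ w : ℂ, w ≠ 0 → phi (on (a+b)) w = (w+1) * (w-1)^(4*n+1) * (w^(2*n+1))⁻¹ := by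
    intro w hw
    rw [phi_on]
    have : om w - 2 = (w-1)^2 * w⁻¹ := by
      unfold om
      field_simp
      ring
    rw [this, mul_pow, ← pow_mul, inv_pow, pow_succ w, hab, show 2*(2*n) = 4*n by ring]
    field_simp
    ring
  have hpp : ∀ v : ℂ, (pp n G0).eval v = (v+1) * (v-1)^(4*n+1) * G0.eval v := by
    intro v
    unfold pp
    simp only [eval_mul, eval_add, eval_X, eval_one, eval_pow, eval_sub]
  have hinv : ∀ w : ℂ, w ≠ 0 → w^(6*n+2) * ((w⁻¹+1) * (w⁻¹-1)^(4*n+1)) =
      - (w^(2*n) * ((w+1) * (w-1)^(4*n+1))) := by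
    intro w hw
    have h1 : w⁻¹ + 1 = (w+1) * w⁻¹ := by field_simp; ring
    have h2 : w⁻¹ - 1 = -((w-1) * w⁻¹) := by field_simp; ring
    rw [h1, h2, Odd.neg_pow ⟨2*n, by ring⟩, mul_pow, inv_pow,
      show w^(6*n+2) = w^(2*n) * (w * w^(4*n+1)) by rw [← pow_succ', ← pow_add]; congr 1; ring]
    field_simp
  set z := zs (on (a+b)) with hz
  set m := mm (on a) (on b) with hm
  refine ⟨C (q^e)⁻¹ * d, ?_, ?_, ?_⟩
  · rw [hab]
    exact (natDegree_C_mul_le _ _).trans hd1
  · rw [coeff_C_mul, hd2, hT0]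
    field_simp
  · intro w hw
    have k1 := congrArg (fun f => f.eval w) key1
    have k2 := congrArg (fun f => f.eval w) key2
    simp only [eval_add, eval_mul, eval_C, eval_pow, eval_sub, eval_X, expand_eval] at k1 k2
    rw [eval_reflect' hp hw, hpp, hpp, ← mul_assoc (w^(6*n+2)), hinv w hw, hT0] at k1 k2
    rw [hgh, hgh, hphi w hw, zpow_neg, hn, show 3*(n:ℤ)+1 = ((3*n+1:ℕ):ℤ) by push_cast; ring,
      zpow_natCast, reflect_C_mul, hab]
    simp only [eval_mul, eval_C]
    change _ = (q^2 - q) * (z * m) * (w^(3*n+1))⁻¹ *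
      (((up (H337CB.P a)).eval (w^3) - w * (up (H337CB.Ps a)).eval (w^3)) *
       ((up (H337CB.P b)).eval (w^3) - w * (up (H337CB.Ps b)).eval (w^3))) ∧
      _ = (w^(3*n+1))⁻¹ * ((q^e)⁻¹ * d.eval (w^3) - z * m * (w * (up (H337CB.P b * H337CB.Ps a -
        H337CB.Ps b * H337CB.P a)).eval (w^3)) - w^2 * ((q^e)⁻¹ * (reflect (2*n) d).eval (w^3)))
    set D := (w+1) * (w-1)^(4*n+1) with hDD
    have hW : w^n ≠ 0 := pow_ne_zero _ hw
    have hL1 : (G0.eval w / (w^n * q^e) - G0.eval w⁻¹ / (w⁻¹^n * q^e)) * (D * (w^(2*n+1))⁻¹) =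
        D * (G0.eval w - w^(2*n) * G0.eval w⁻¹) * ((w^(3*n+1))⁻¹ * (q^e)⁻¹) := by
      rw [inv_pow, show w^(2*n) = (w^n)^2 by rw [← pow_mul]; congr 1; ring,
        show w^(3*n+1) = (w^n)^3 * w by rw [← pow_mul, ← pow_succ]; congr 1; ring,
        show w^(2*n+1) = (w^n)^2 * w by rw [← pow_mul, ← pow_succ]; congr 1; ring]
      generalize w^n = W at *
      generalize q^e = E at *
      field_simp
    have hL2 : (G0.eval w / (w^n * q^e) + G0.eval w⁻¹ / (w⁻¹^n * q^e)) * (D * (w^(2*n+1))⁻¹) =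
        D * (G0.eval w + w^(2*n) * G0.eval w⁻¹) * ((w^(3*n+1))⁻¹ * (q^e)⁻¹) := by
      rw [inv_pow, show w^(2*n) = (w^n)^2 by rw [← pow_mul]; congr 1; ring,
        show w^(3*n+1) = (w^n)^3 * w by rw [← pow_mul, ← pow_succ]; congr 1; ring,
        show w^(2*n+1) = (w^n)^2 * w by rw [← pow_mul, ← pow_succ]; congr 1; ring]
      generalize w^n = W at *
      generalize q^e = E at *
      field_simp
    rw [hL1, hL2]
    constructor
    · have h3 : D * (G0.eval w - w^(2*n) * G0.eval w⁻¹) = (q^2 - q) * (q^e * m * z) *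
          (((up (H337CB.P a)).eval (w^3) - w * (up (H337CB.Ps a)).eval (w^3)) *
          ((up (H337CB.P b)).eval (w^3) - w * (up (H337CB.Ps b)).eval (w^3))) := by
        rw [← k1]
        ring
      rw [h3]
      field_simp
    · have h3 : D * (G0.eval w + w^(2*n) * G0.eval w⁻¹) = d.eval (w^3) - (q^e * m * z) *
          (w * (up (H337CB.P b * H337CB.Ps a - H337CB.Ps b * H337CB.P a)).eval (w^3)) -
          w^2 * (reflect (2*n) d).eval (w^3) := by
        rw [← k2]
        ring
      rw [h3]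
      field_simp

end Pool.Agent.NH38.Fork
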