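import Pool.Agent.NH38.Fork.Stubs3
import Pool.Agent.NH38.Fork.LR

/-!
Thick slits, task H2 (helper17): the homogeneous limit of the formula `S_M`.
-/

namespace Pool.Agent.NH38.Fork

open Pool.Agent.H988R2.Perc hiding X
open Pool.Agent.NH38.Step (om prs EE zs prF Gen on pom bev zs)
open Pool.Agent.NH38.Step.Hom (phi eL DD DD_ne W0 VV bs LP xs xs_zero xs_cont ev_gen phi_app phi_cons
  om_cube prF_len prF_ne on_ne on_len oA eL_oA eL_C eL_phiL eL_zsL phiL zsL FS_mem' Ev W0_closed
  Lx Lx_cont Lx_map listprod_cont cont_mid prF_zero on_prod)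
open Polynomial Filter Topology

namespace H2

/-! ### continuity -/

theorem bev_cont (F : ℂ[X][X]) (w : ℂ) : Continuous (fun t => bev F t w) := by
  have h : (fun t => bev F t w) = fun t =>
      ∑ i ∈ Finset.range (F.natDegree + 1), (F.coeff i).eval t * w^i := by
    funext t
    unfold bev
    rw [Polynomial.eval_map, Polynomial.eval₂_eq_sum_range]
    rfl
  rw [h]
  exact continuous_finsetSum _ fun i _ => (Polynomial.continuous _).mul continuous_const

theorem LR_cont {P : ℂ[X]} {φ : ℂ → ℂ → ℂ} (h : LR P φ) (hP : P.eval 0 ≠ 0) (w : ℂ) (hw : w ≠ 0) :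
    ContinuousAt (fun t => φ t w) 0 := by
  obtain ⟨F, j, hF⟩ := h
  have h1 : ContinuousAt (fun t => bev F t w / (P.eval t * w)^j) 0 := by
    refine ContinuousAt.div (bev_cont F w).continuousAt ?_ ?_
    · exact ((P.continuous.continuousAt).mul continuousAt_const).pow j
    · exact pow_ne_zero _ (mul_ne_zero hP hw)
  have h2 : ∀ᶠ t in 𝓝 (0:ℂ), P.eval t ≠ 0 := P.continuous.continuousAt.eventually_ne hP
  refine h1.congr ?_
  filter_upwards [h2] with t ht
  rw [← hF t w ht hw]
  exact mul_div_cancel_right₀ _ (pow_ne_zero _ (mul_ne_zero ht hw))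

/-- the polynomial whose zeros are excluded -/
noncomputable def PX (k : ℕ) : ℂ[X] := ∏ i : Fin k, (1 + C ((i:ℕ) + 1 : ℂ) * X)

theorem PX_zero (k : ℕ) : (PX k).eval 0 ≠ 0 := by
  unfold PX
  rw [Polynomial.eval_prod]
  simp

theorem ul_xs (k : ℕ) (i : Fin k) : UL (PX k) (fun t _ => xs k t i) := by
  have h : UL (PX k) (fun t _ => (1 + C ((i:ℕ) + 1 : ℂ) * X : ℂ[X]).eval t) :=
    UL.poly (Finset.dvd_prod_of_mem (fun i : Fin k => (1 + C ((i:ℕ) + 1 : ℂ) * X : ℂ[X]))
      (Finset.mem_univ i))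
  have e : (fun (t _ : ℂ) => (1 + C ((i:ℕ) + 1 : ℂ) * X : ℂ[X]).eval t) = fun t _ => xs k t i := by
    funext t w
    unfold xs
    simp
  rwa [e] at h

/-- `gh` along the family -/
theorem gh_cont (hR : S_regG) (a k : ℕ) (ha : Odd a) (w : ℂ) (hw : w ≠ 0) :
    ContinuousAt (fun s => gF (xs k s) Finset.univ (on a) (on a) w) 0 := by
  have hc : ∀ g ∈ (on a).map (fun c => fun (_ _ : ℂ) => c), UL (PX k) g := by
    intro g hg
    rw [List.mem_map] at hg
    obtain ⟨c, _, rfl⟩ := hg
    exact UL.const c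
  have hl : Odd ((on a).map (fun c => fun (_ _ : ℂ) => c)).length := by
    rw [List.length_map, on_len]; exact ha
  have h := hR (PX k) ((on a).map (fun c => fun (_ _ : ℂ) => c))
    ((Finset.univ : Finset (Fin k)).toList.map (fun i => fun t _ => xs k t i))
    ((on a).map (fun c => fun (_ _ : ℂ) => c)) (fun _ w => w) hl hl hc (by
      intro g hg
      rw [List.mem_map] at hg
      obtain ⟨i, _, rfl⟩ := hg
      exact ul_xs k i) hc UL.var
  have h1 := LR_cont h (PX_zero k) w hw
  have e : (fun t => gh (((on a).map (fun c => fun (_ _ : ℂ) => c)).map (fun g => g t w))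
      (((Finset.univ : Finset (Fin k)).toList.map (fun i => fun (t _ : ℂ) => xs k t i)).map
        (fun g => g t w)) (((on a).map (fun c => fun (_ _ : ℂ) => c)).map (fun g => g t w)) w) =
      fun s => gF (xs k s) Finset.univ (on a) (on a) w := by
    funext s
    unfold gF
    rw [List.map_map, List.map_map]
    have e1 : (on a).map ((fun g : ℂ → ℂ → ℂ => g s w) ∘ fun c => fun (_ _ : ℂ) => c) = on a := by
      simp [Function.comp_def]
    rw [e1]
    rfl
  rw [e] at h1
  exact h1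

theorem zs_cont (a k : ℕ) :
    ContinuousAt (fun s => zs (on (2*a) ++ prF (xs k s) Finset.univ)) 0 := by
  have hl : ∀ s, (on (2*a) ++ prF (xs k s) Finset.univ).length = 2*a + 2*k := by
    intro s
    rw [List.length_append, on_len, prF_len, Finset.card_univ, Fintype.card_fin]
  unfold zs
  simp only [hl]
  refine ContinuousAt.div ?_ ?_ ?_
  · have h := cont_mid (Z_pd (2*a + 2*k) ⟨a + k, by ring⟩) k (on (2*a)) [] (by simp [on_len])
    simpa using h
  · refine ContinuousAt.mul (ContinuousAt.pow ?_ _) continuousAt_const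
    have h := listprod_cont (Lx k) (Lx_cont k)
    simp only [Lx_map] at h
    simp only [List.prod_append, on_prod, one_mul]
    exact h
  · rw [prF_zero, List.prod_append, on_prod, on_prod]
    exact mul_ne_zero (pow_ne_zero _ (by norm_num)) (pow_ne_zero _ q_ne_zero)

theorem om_cont (k : ℕ) (i : Fin k) : ContinuousAt (fun s => om (xs k s i)) 0 := by
  have h : ContinuousAt (fun s => xs k s i) 0 := (xs_cont k i).continuousAt
  unfold om
  exact h.add (h.inv₀ (by rw [xs_zero]; norm_num))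

theorem om3_cont (k : ℕ) (i : Fin k) : ContinuousAt (fun s => om ((xs k s i)^3)) 0 := by
  have h : ContinuousAt (fun s => (xs k s i)^3) 0 := ((xs_cont k i).continuousAt).pow 3
  unfold om
  exact h.add (h.inv₀ (by rw [xs_zero]; norm_num))

theorem phi_cont (a k : ℕ) (w : ℂ) :
    ContinuousAt (fun s => phi (on (2*a) ++ prF (xs k s) Finset.univ) w) 0 := by
  have h1 : (fun s => phi (on (2*a) ++ prF (xs k s) Finset.univ) w) = fun s =>
      phi (on (2*a)) w * ∏ j, (om w - om (xs k s j))^2 := by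
    funext s
    rw [phi_app]
  rw [h1]
  refine continuousAt_const.mul ?_
  refine tendsto_finsetProd _ fun i _ => ?_
  exact ContinuousAt.pow (continuousAt_const.sub (om_cont k i)) 2

theorem prod3_cont (k : ℕ) (w : ℂ) :
    ContinuousAt (fun s => ∏ i : Fin k, (om (w^3) - om ((xs k s i)^3))) 0 :=
  tendsto_finsetProd _ fun i _ => continuousAt_const.sub (om3_cont k i)

/-! ### the formula along the family -/

theorem on_app (m n : ℕ) : on m ++ on n = on (m + n) := by
  unfold on
  rw [List.replicate_append_replicate]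

/-- `cc` as an affine function of `om (q w)` -/
theorem cc_eq (g0 : ℂ → ℂ) (w x : ℂ) (hw : w ≠ 0) (hx : x ≠ 0) :
    cc g0 w x = om (q * w) * ((1 - q^2)/3 * q^2 * (g0 x - g0 x⁻¹) / (x - x⁻¹)) +
      (-((1 - q^2)/3 * ((x⁻¹ + q * x) * g0 x - (x + q * x⁻¹) * g0 x⁻¹) / (x - x⁻¹))) := by
  have hq3 := q_cube
  have e1 : (w - q*x) * (1 - (w*x)⁻¹) = q^2 * om (q * w) - (x⁻¹ + q * x) := by
    unfold om
    rw [mul_inv, mul_inv, q_inv]
    field_simp
    linear_combination (-(w^2*x) - q*x) * hq3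
  have e2 : (w - q*x⁻¹) * (1 - w⁻¹*x) = q^2 * om (q * w) - (x + q * x⁻¹) := by
    unfold om
    rw [mul_inv, q_inv]
    field_simp
    linear_combination (-(w^2*x) - q*x) * hq3
  unfold cc
  rw [e1, e2]
  ring

/-- the terms of the sum -/
theorem term_mem (x : ℂ) (S : List ℂ) (r : ℕ) (hS : S.length = 2*r+1) (hS0 : ∀ c ∈ S, c ≠ 0) :
    ∃ F ∈ VV (2*r+2), ∀ (w : ℂ) (hw : w ≠ 0), eL w hw F = phi S w * zs (w :: S) := by
  obtain ⟨P, hP, hP'⟩ := (Z_pd (2 * r + 2) ⟨r + 1, by ring⟩).univ [] S (by rw [hS]; simp)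
  have hP'' : ∀ w, Z (w :: S) = P.eval w := fun w => hP' w
  refine ⟨phiL S * zsL r S P, FS_mem' S r hS hS0 P (by omega) hP'', fun w hw => ?_⟩
  rw [map_mul, eL_phiL, eL_zsL S r hS P hP'']

open Classical in
/-- the formula `S_M` times `phi (A ++ B) ∏ (om w - om x_j)` -/
theorem formula {ι : Type} (x : ι → ℂ) (hg : Gen x) (s : Finset ι) (A B : List ℂ)
    (g : Finset ι → List ℂ → List ℂ → ℂ → ℂ) (w : ℂ) (hw : w ≠ 0) (h : FP x g s A B w = 0) :
    zs (A ++ B) * (g s A B w * phi ((A ++ B) ++ prF x s) w) -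
      zs ((A ++ B) ++ prF x s) * ((∏ j ∈ s, (om (w^3) - om ((x j)^3))) *
        (g ∅ A B w * phi (A ++ B) w)) =
    - ∑ i ∈ s, gm x s i * cc (g ∅ A B) w (x i) *
      (phi (x i :: ((A ++ B) ++ prF x (s.erase i))) w *
        zs (w :: x i :: ((A ++ B) ++ prF x (s.erase i)))) := by
  have hx0 : ∀ i, x i ≠ 0 := fun i => (hg.1 i).1
  have hE : (∏ j ∈ s, EE (om w) (om (x j))) * (∏ j ∈ s, (om w - om (x j))) =
      ∏ j ∈ s, (om (w^3) - om ((x j)^3)) := by
    rw [← Finset.prod_mul_distrib]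
    refine Finset.prod_congr rfl fun j _ => ?_
    rw [om_cube w hw, om_cube (x j) (hx0 j)]
    unfold EE
    ring
  have hsq : (∏ j ∈ s, (om w - om (x j)))^2 = ∏ j ∈ s, (om w - om (x j))^2 :=
    (Finset.prod_pow _ _ _).symm
  unfold FP at h
  rw [show ∀ L : List ℂ, A ++ (B ++ L) = (A ++ B) ++ L from fun L => (List.append_assoc _ _ _).symm]
    at h
  have hsum : (∑ i ∈ s, gm x s i * (∏ j ∈ s.erase i, (om w - om (x j))) * cc (g ∅ A B) w (x i) *
      zs (w :: x i :: (A ++ (B ++ prF x (s.erase i))))) *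
      (phi (A ++ B) w * ∏ j ∈ s, (om w - om (x j))) =
      ∑ i ∈ s, gm x s i * cc (g ∅ A B) w (x i) *
      (phi (x i :: ((A ++ B) ++ prF x (s.erase i))) w *
        zs (w :: x i :: ((A ++ B) ++ prF x (s.erase i)))) := by
    rw [Finset.sum_mul]
    refine Finset.sum_congr rfl fun i hi => ?_
    rw [phi_cons, phi_app, List.append_assoc, ← Finset.mul_prod_erase s
      (fun j => om w - om (x j)) hi]
    have h2 : (∏ j ∈ s.erase i, (om w - om (x j)))^2 = ∏ j ∈ s.erase i, (om w - om (x j))^2 :=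
      (Finset.prod_pow _ _ _).symm
    rw [← h2]
    ring
  rw [phi_app, ← hsq, ← hE, ← hsum]
  linear_combination (phi (A ++ B) w * ∏ j ∈ s, (om w - om (x j))) * h

/-- the left side of the formula along the family -/
noncomputable def ff (a k : ℕ) (s w : ℂ) : ℂ :=
  zs (on (2*a)) * (gF (xs k s) Finset.univ (on a) (on a) w *
    phi (on (2*a) ++ prF (xs k s) Finset.univ) w) -
  zs (on (2*a) ++ prF (xs k s) Finset.univ) * ((∏ i : Fin k, (om (w^3) - om ((xs k s i)^3))) *
    (gh (on a) [] (on a) w * phi (on (2*a)) w))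

theorem ff_mem (hM : S_M) {ι : Type} (x : ι → ℂ) (hg : Gen x) (s : Finset ι) (a : ℕ) (ha : Odd a) :
    ∃ F ∈ W0 (2*a + 2*s.card), ∀ (w : ℂ) (hw : w ≠ 0),
    zs (on (2*a)) * (gF x s (on a) (on a) w * phi (on (2*a) ++ prF x s) w) -
      zs (on (2*a) ++ prF x s) * ((∏ j ∈ s, (om (w^3) - om ((x j)^3))) *
        (gF x ∅ (on a) (on a) w * phi (on (2*a)) w)) = eL w hw F := by
  classical
  have hx0 : ∀ i, x i ≠ 0 := fun i => (hg.1 i).1
  have hoa : Odd (on a).length := by rw [on_len]; exact ha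
  have h2a : on a ++ on a = on (2*a) := by rw [on_app, two_mul]
  have hT : ∀ i, ∃ F : LP, i ∈ s → F ∈ VV (2*a + 2*s.card) ∧ ∀ (w : ℂ) (hw : w ≠ 0),
      eL w hw F = phi (x i :: (on (2*a) ++ prF x (s.erase i))) w *
        zs (w :: x i :: (on (2*a) ++ prF x (s.erase i))) := by
    intro i
    by_cases hi : i ∈ s
    · have hc : 0 < s.card := Finset.card_pos.mpr ⟨i, hi⟩
      obtain ⟨F, hF, hF'⟩ := term_mem (x i) (x i :: (on (2*a) ++ prF x (s.erase i)))
        (a + s.card - 1) (by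
          rw [List.length_cons, List.length_append, on_len, prF_len,
            Finset.card_erase_of_mem hi]
          omega) (by
          intro c hc
          rcases List.mem_cons.mp hc with rfl | hc
          · exact hx0 i
          rcases List.mem_append.mp hc with hc | hc
          · exact on_ne _ c hc
          · exact prF_ne x _ hx0 c hc)
      refine ⟨F, fun _ => ⟨?_, hF'⟩⟩
      have : 2 * (a + s.card - 1) + 2 = 2*a + 2*s.card := by omega
      rw [this] at hF
      exact hF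
    · exact ⟨0, fun h => absurd h hi⟩
  choose F hF using hT
  set g0 : ℂ → ℂ := gF x ∅ (on a) (on a) with hg0
  set α : ι → ℂ := fun i => - (gm x s i * ((1 - q^2)/3 * q^2 * (g0 (x i) - g0 (x i)⁻¹) /
    (x i - (x i)⁻¹))) with hα
  set β : ι → ℂ := fun i => gm x s i * ((1 - q^2)/3 * (((x i)⁻¹ + q * x i) * g0 (x i) -
    (x i + q * (x i)⁻¹) * g0 (x i)⁻¹) / (x i - (x i)⁻¹)) with hβ
  refine ⟨oA * (∑ i ∈ s, α i • F i) + ∑ i ∈ s, β i • F i, ?_, ?_⟩
  · unfold W0
    refine Submodule.add_mem_sup ?_ ?_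
    · exact ⟨∑ i ∈ s, α i • F i, Submodule.sum_mem _ fun i hi =>
        Submodule.smul_mem _ _ (hF i hi).1, rfl⟩
    · exact Submodule.sum_mem _ fun i hi => Submodule.smul_mem _ _ (hF i hi).1
  · intro w hw
    have h := formula x hg s (on a) (on a) (gF x) w hw
      (hM x hg s (on a) (on a) hoa hoa (on_ne a) (on_ne a) w hw)
    rw [h2a, ← hg0] at h
    rw [h, map_add, map_mul, eL_oA, map_sum, map_sum, ← Finset.sum_neg_distrib,
      Finset.mul_sum, ← Finset.sum_add_distrib]
    refine Finset.sum_congr rfl fun i hi => ?_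
    rw [LaurentPolynomial.smul_eq_C_mul, LaurentPolynomial.smul_eq_C_mul, map_mul, map_mul, eL_C,
      eL_C, (hF i hi).2 w hw, cc_eq g0 w (x i) hw (hx0 i)]
    simp only [hα, hβ]
    ring

theorem ff_cont (hR : S_regG) (a k : ℕ) (ha : Odd a) (w : ℂ) (hw : w ≠ 0) :
    ContinuousAt (fun s => ff a k s w) 0 := by
  unfold ff
  refine ContinuousAt.sub ?_ ?_
  · exact continuousAt_const.mul ((gh_cont hR a k ha w hw).mul (phi_cont a k w))
  · exact (zs_cont a k).mul ((prod3_cont k w).mul continuousAt_const)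

theorem lim_mem (hM : S_M) (hR : S_regG) (a k : ℕ) (ha : Odd a) :
    (fun w : DD => ff a k 0 w.1) ∈ (W0 (2*a + 2*k)).map Ev := by
  have hcl := W0_closed (2*a + 2*k)
  refine hcl.mem_of_tendsto (b := 𝓝[≠] (0:ℂ)) (f := fun s => fun w : DD => ff a k s w.1) ?_ ?_
  · rw [tendsto_pi_nhds]
    intro w
    exact (ff_cont hR a k ha w.1 (DD_ne w.2)).tendsto.mono_left nhdsWithin_le_nhds
  · filter_upwards [ev_gen k] with s h1
    obtain ⟨F, hF, hF'⟩ := ff_mem hM (xs k s) h1 Finset.univ a ha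
    rw [Finset.card_univ, Fintype.card_fin] at hF
    refine ⟨F, hF, ?_⟩
    funext w
    have h2 := hF' w.1 (DD_ne w.2)
    show eL w.1 (DD_ne w.2) F = ff a k s w.1
    rw [← h2]
    unfold ff
    have h3 : gF (xs k s) ∅ (on a) (on a) w.1 = gh (on a) [] (on a) w.1 := by
      unfold gF
      rw [Finset.toList_empty, List.map_nil]
    rw [h3]

theorem list_zero (k : ℕ) : (Finset.univ : Finset (Fin k)).toList.map (xs k 0) = on k := by
  unfold on
  rw [List.eq_replicate_iff]
  constructor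
  · rw [List.length_map, Finset.length_toList, Finset.card_univ, Fintype.card_fin]
  · intro b hb
    rw [List.mem_map] at hb
    obtain ⟨i, _, rfl⟩ := hb
    exact xs_zero k i

end H2

theorem t_HL : S_M → S_regG → S_HL := by
  intro hM hR a k ha
  obtain ⟨F, hF, hFe⟩ := H2.lim_mem hM hR a k ha
  refine ⟨F, hF, fun w hw => ?_⟩
  have h1 := congrFun hFe ⟨w, hw⟩
  have h2 : eL w (DD_ne hw) F = H2.ff a k 0 w := h1
  rw [h2]
  unfold H2.ff gF
  rw [H2.list_zero, prF_zero, H2.on_app]
  simp only [xs_zero, one_pow, Finset.prod_const, Finset.card_univ, Fintype.card_fin]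
  have h3 : om (1:ℂ) = 2 := by unfold om; norm_num
  rw [h3]

end Pool.Agent.NH38.Fork
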