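import Pool.Agent.NH38.Fork.Stubs4
import Pool.Agent.NH38.Fork.H2

/-!
Thick slits, task HG2 (helper17): the homogeneous limit of the formula `S_M`, arms of widths `a`, `b`.
-/

namespace Pool.Agent.NH38.Fork

open Pool.Agent.H988R2.Perc hiding X
open Pool.Agent.NH38.Step (om prs EE zs prF Gen on pom bev)
open Pool.Agent.NH38.Step.Hom (phi eL DD DD_ne W0 VV bs LP xs xs_zero xs_cont ev_gen phi_app phi_cons
  om_cube prF_len prF_ne on_ne on_len oA eL_oA eL_C eL_phiL eL_zsL phiL zsL FS_mem' Ev W0_closed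
  Lx Lx_cont Lx_map listprod_cont cont_mid prF_zero on_prod)
open Polynomial Filter Topology

namespace HG2

open H2 (LR_cont PX PX_zero ul_xs om_cont prod3_cont on_app cc_eq term_mem formula list_zero)

/-- `gh` along the family -/
theorem gh_cont (hR : S_regG) (a b k : ℕ) (ha : Odd a) (hb : Odd b) (w : ℂ) (hw : w ≠ 0) :
    ContinuousAt (fun s => gF (xs k s) Finset.univ (on a) (on b) w) 0 := by
  have hc : ∀ n : ℕ, ∀ g ∈ (on n).map (fun c => fun (_ _ : ℂ) => c), UL (PX k) g := by
    intro n g hg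
    rw [List.mem_map] at hg
    obtain ⟨c, _, rfl⟩ := hg
    exact UL.const c
  have hl : ∀ n : ℕ, Odd n → Odd ((on n).map (fun c => fun (_ _ : ℂ) => c)).length := by
    intro n hn
    rw [List.length_map, on_len]; exact hn
  have h := hR (PX k) ((on a).map (fun c => fun (_ _ : ℂ) => c))
    ((Finset.univ : Finset (Fin k)).toList.map (fun i => fun t _ => xs k t i))
    ((on b).map (fun c => fun (_ _ : ℂ) => c)) (fun _ w => w) (hl a ha) (hl b hb) (hc a) (by
      intro g hg
      rw [List.mem_map] at hg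
      obtain ⟨i, _, rfl⟩ := hg
      exact ul_xs k i) (hc b) UL.var
  have h1 := LR_cont h (PX_zero k) w hw
  have e : (fun t => gh (((on a).map (fun c => fun (_ _ : ℂ) => c)).map (fun g => g t w))
      (((Finset.univ : Finset (Fin k)).toList.map (fun i => fun (t _ : ℂ) => xs k t i)).map
        (fun g => g t w)) (((on b).map (fun c => fun (_ _ : ℂ) => c)).map (fun g => g t w)) w) =
      fun s => gF (xs k s) Finset.univ (on a) (on b) w := by
    funext s
    unfold gF
    rw [List.map_map, List.map_map, List.map_map]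
    have e1 : ∀ n : ℕ, (on n).map ((fun g : ℂ → ℂ → ℂ => g s w) ∘ fun c => fun (_ _ : ℂ) => c) =
        on n := by
      intro n
      simp [Function.comp_def]
    rw [e1, e1]
    rfl
  rw [e] at h1
  exact h1

theorem zs_cont (n k : ℕ) (hn : Even n) :
    ContinuousAt (fun s => zs (on n ++ prF (xs k s) Finset.univ)) 0 := by
  have hl : ∀ s, (on n ++ prF (xs k s) Finset.univ).length = n + 2*k := by
    intro s
    rw [List.length_append, on_len, prF_len, Finset.card_univ, Fintype.card_fin]
  unfold zs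
  simp only [hl]
  refine ContinuousAt.div ?_ ?_ ?_
  · have h := cont_mid (Z_pd (n + 2*k) (hn.add ⟨k, by ring⟩)) k (on n) [] (by simp [on_len])
    simpa using h
  · refine ContinuousAt.mul (ContinuousAt.pow ?_ _) continuousAt_const
    have h := listprod_cont (Lx k) (Lx_cont k)
    simp only [Lx_map] at h
    simp only [List.prod_append, on_prod, one_mul]
    exact h
  · rw [prF_zero, List.prod_append, on_prod, on_prod]
    exact mul_ne_zero (pow_ne_zero _ (by norm_num)) (pow_ne_zero _ q_ne_zero)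

theorem phi_cont (n k : ℕ) (w : ℂ) :
    ContinuousAt (fun s => phi (on n ++ prF (xs k s) Finset.univ) w) 0 := by
  have h1 : (fun s => phi (on n ++ prF (xs k s) Finset.univ) w) = fun s =>
      phi (on n) w * ∏ j, (om w - om (xs k s j))^2 := by
    funext s
    rw [phi_app]
  rw [h1]
  refine continuousAt_const.mul ?_
  refine tendsto_finsetProd _ fun i _ => ?_
  exact ContinuousAt.pow (continuousAt_const.sub (om_cont k i)) 2

/-- the left side of the formula along the family -/
noncomputable def ff (a b k : ℕ) (s w : ℂ) : ℂ :=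
  zs (on (a + b)) * (gF (xs k s) Finset.univ (on a) (on b) w *
    phi (on (a + b) ++ prF (xs k s) Finset.univ) w) -
  zs (on (a + b) ++ prF (xs k s) Finset.univ) * ((∏ i : Fin k, (om (w^3) - om ((xs k s i)^3))) *
    (gh (on a) [] (on b) w * phi (on (a + b)) w))

theorem ff_mem (hM : S_M) {ι : Type} (x : ι → ℂ) (hg : Gen x) (s : Finset ι) (a b : ℕ) (ha : Odd a)
    (hb : Odd b) :
    ∃ F ∈ W0 (a + b + 2*s.card), ∀ (w : ℂ) (hw : w ≠ 0),
    zs (on (a + b)) * (gF x s (on a) (on b) w * phi (on (a + b) ++ prF x s) w) -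
      zs (on (a + b) ++ prF x s) * ((∏ j ∈ s, (om (w^3) - om ((x j)^3))) *
        (gF x ∅ (on a) (on b) w * phi (on (a + b)) w)) = eL w hw F := by
  classical
  have hx0 : ∀ i, x i ≠ 0 := fun i => (hg.1 i).1
  have hoa : Odd (on a).length := by rw [on_len]; exact ha
  have hob : Odd (on b).length := by rw [on_len]; exact hb
  have h2a : on a ++ on b = on (a + b) := on_app a b
  obtain ⟨c, hc⟩ := ha.add_odd hb
  have hT : ∀ i, ∃ F : LP, i ∈ s → F ∈ VV (a + b + 2*s.card) ∧ ∀ (w : ℂ) (hw : w ≠ 0),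
      eL w hw F = phi (x i :: (on (a + b) ++ prF x (s.erase i))) w *
        zs (w :: x i :: (on (a + b) ++ prF x (s.erase i))) := by
    intro i
    by_cases hi : i ∈ s
    · have hc1 : 0 < s.card := Finset.card_pos.mpr ⟨i, hi⟩
      obtain ⟨F, hF, hF'⟩ := term_mem (x i) (x i :: (on (a + b) ++ prF x (s.erase i)))
        (c + s.card - 1) (by
          rw [List.length_cons, List.length_append, on_len, prF_len,
            Finset.card_erase_of_mem hi]
          omega) (by
          intro c hc
          rcases List.mem_cons.mp hc with rfl | hc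
          · exact hx0 i
          rcases List.mem_append.mp hc with hc | hc
          · exact on_ne _ c hc
          · exact prF_ne x _ hx0 c hc)
      refine ⟨F, fun _ => ⟨?_, hF'⟩⟩
      have : 2 * (c + s.card - 1) + 2 = a + b + 2*s.card := by omega
      rw [this] at hF
      exact hF
    · exact ⟨0, fun h => absurd h hi⟩
  choose F hF using hT
  set g0 : ℂ → ℂ := gF x ∅ (on a) (on b) with hg0
  set α : ι → ℂ := fun i => - (gm x s i * ((1 - q^2)/3 * q^2 * (g0 (x i) - g0 (x i)⁻¹) /
    (x i - (x i)⁻¹))) with hα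
  set β : ι → ℂ := fun i => gm x s i * ((1 - q^2)/3 * (((x i)⁻¹ + q * x i) * g0 (x i) -
    (x i + q * (x i)⁻¹) * g0 (x i)⁻¹) / (x i - (x i)⁻¹)) with hβ
  refine ⟨oA * (∑ i ∈ s, α i • F i) + ∑ i ∈ s, β i • F i, ?_, ?_⟩
  · unfold W0
    refine Submodule.add_mem_sup ?_ ?_
    · exact ⟨∑ i ∈ s, α i • F i, Submodule.sum_mem _ fun i hi =>
        Submodule.smul_mem _ _ (hF i hi).1, rfl⟩
    · exact Submodule.sum_mem _ fun i hi => Submodule.smul_mem _ _ (hF i hi).1
  · intro w hw
    have h := formula x hg s (on a) (on b) (gF x) w hw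
      (hM x hg s (on a) (on b) hoa hob (on_ne a) (on_ne b) w hw)
    rw [h2a, ← hg0] at h
    rw [h, map_add, map_mul, eL_oA, map_sum, map_sum, ← Finset.sum_neg_distrib,
      Finset.mul_sum, ← Finset.sum_add_distrib]
    refine Finset.sum_congr rfl fun i hi => ?_
    rw [LaurentPolynomial.smul_eq_C_mul, LaurentPolynomial.smul_eq_C_mul, map_mul, map_mul, eL_C,
      eL_C, (hF i hi).2 w hw, cc_eq g0 w (x i) hw (hx0 i)]
    simp only [hα, hβ]
    ring

theorem ff_cont (hR : S_regG) (a b k : ℕ) (ha : Odd a) (hb : Odd b) (w : ℂ) (hw : w ≠ 0) :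
    ContinuousAt (fun s => ff a b k s w) 0 := by
  unfold ff
  refine ContinuousAt.sub ?_ ?_
  · exact continuousAt_const.mul ((gh_cont hR a b k ha hb w hw).mul (phi_cont (a + b) k w))
  · exact (zs_cont (a + b) k (ha.add_odd hb)).mul ((prod3_cont k w).mul continuousAt_const)

theorem lim_mem (hM : S_M) (hR : S_regG) (a b k : ℕ) (ha : Odd a) (hb : Odd b) :
    (fun w : DD => ff a b k 0 w.1) ∈ (W0 (a + b + 2*k)).map Ev := by
  have hcl := W0_closed (a + b + 2*k)
  refine hcl.mem_of_tendsto (b := 𝓝[≠] (0:ℂ)) (f := fun s => fun w : DD => ff a b k s w.1) ?_ ?_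
  · rw [tendsto_pi_nhds]
    intro w
    exact (ff_cont hR a b k ha hb w.1 (DD_ne w.2)).tendsto.mono_left nhdsWithin_le_nhds
  · filter_upwards [ev_gen k] with s h1
    obtain ⟨F, hF, hF'⟩ := ff_mem hM (xs k s) h1 Finset.univ a b ha hb
    rw [Finset.card_univ, Fintype.card_fin] at hF
    refine ⟨F, hF, ?_⟩
    funext w
    have h2 := hF' w.1 (DD_ne w.2)
    show eL w.1 (DD_ne w.2) F = ff a b k s w.1
    rw [← h2]
    unfold ff
    have h3 : gF (xs k s) ∅ (on a) (on b) w.1 = gh (on a) [] (on b) w.1 := by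
      unfold gF
      rw [Finset.toList_empty, List.map_nil]
    rw [h3]

end HG2

theorem t_HLg : S_M → S_regG → S_HLg := by
  intro hM hR a b k ha hb
  obtain ⟨F, hF, hFe⟩ := HG2.lim_mem hM hR a b k ha hb
  refine ⟨F, hF, fun w hw => ?_⟩
  have h1 := congrFun hFe ⟨w, hw⟩
  have h2 : eL w (DD_ne hw) F = HG2.ff a b k 0 w := h1
  rw [h2]
  unfold HG2.ff gF
  rw [H2.list_zero, prF_zero, H2.on_app]
  simp only [xs_zero, one_pow, Finset.prod_const, Finset.card_univ, Fintype.card_fin]
  have h3 : om (1:ℂ) = 2 := by unfold om; norm_num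
  rw [h3]

end Pool.Agent.NH38.Fork
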