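import Pool.Agent.NH38.Fork.Stubs3
import Pool.Agent.NH38.Fork.QT

/-!
Thick slits (helper38), job FK-H3 (helper87): the homogeneous limit of the formula for the total
mass, and the total mass of the thin slit.
-/

namespace Pool.Agent.NH38.Fork

open Pool.Agent.H988R2.Perc hiding X
open Pool.Agent.H492C (comb comb2 pairG up1)
open Pool.Agent.NH38.Step (om prs EE zs prF Gen on cardy pom bev prs_length)
open Pool.Agent.NH38.Step.Hom (phi eL DD DD_ne W0 VV bs LP)
open Polynomial Filter Topology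

namespace H3

open Pool.Agent.NH38.Step.Hom (om_cube phi_cons phi_app prF_len prF_ne on_ne on_len on_prod phi_on Ev
  VV_fin listprod_cont zsL phiL FS_mem' Fodd_mem eL_phiL eL_zsL eL_C eL_poly eL_T eL_dl eL_oL
  LP_ext xs xs_zero xs_cont ev_gen prF_zero Lx Lx_map Lx_cont cont_mid dl oL om_one)

/-- the coefficient of a pair is constant -/
theorem cc_const (A B : List ℂ) (ha : Odd A.length) (hb : Odd B.length) (w x : ℂ) (hw : w ≠ 0)
    (hx : x ≠ 0) (hx2 : x^6 ≠ 1) : cc (tt A [] B) w x = tt A [] B x := by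
  have hsym : tt A [] B x⁻¹ = tt A [] B x := by
    unfold tt
    refine (QT.zo_inv x _ hx ?_).symm
    obtain ⟨m, hm⟩ := ha
    obtain ⟨n, hn⟩ := hb
    refine ⟨m + n + 1, ?_⟩
    simp only [List.length_append, prs_length, hm, hn, List.length_nil]
    omega
  have hne : x - x⁻¹ ≠ 0 := by
    intro h
    apply hx2
    have h2 : x^2 = 1 := by
      have h3 : x * (x - x⁻¹) = 0 := by rw [h, mul_zero]
      rw [mul_sub, mul_inv_cancel₀ hx] at h3
      linear_combination h3
    calc x^6 = (x^2)^3 := by ring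
      _ = 1 := by rw [h2]; norm_num
  have hq : (1 - q^2) * (1 - q) = 3 := by
    linear_combination (-1 : ℂ) * q_spec + q_cube
  unfold cc
  rw [hsym, div_eq_iff hne]
  have hwi : w * w⁻¹ = 1 := mul_inv_cancel₀ hw
  have hxi : x * x⁻¹ = 1 := mul_inv_cancel₀ hx
  have key : (w - q*x) * (1 - (w*x)⁻¹) - (w - q*x⁻¹) * (1 - w⁻¹*x) = (1 - q) * (x - x⁻¹) := by
    rw [mul_inv]
    linear_combination (-x⁻¹ + x) * hwi + q * w⁻¹ * hxi - q * w⁻¹ * hxi
  linear_combination ((1 - q^2) / 3 * tt A [] B x) * key + (tt A [] B x * (x - x⁻¹) / 3) * hq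

open Classical in
/-- the generic identity -/
theorem fam {ι : Type} [Fintype ι] (x : ι → ℂ) (hZI : S_ZI) (hg : Gen x) (A B : List ℂ)
    (ha : Odd A.length) (hb : Odd B.length) (hA : NZ A) (hB : NZ B) (w : ℂ) (hw : w ≠ 0) :
    zs (A ++ B) * (tF x Finset.univ A B w * phi (A ++ (B ++ prF x Finset.univ)) w) -
      zs (A ++ (B ++ prF x Finset.univ)) * ((∏ j, (om (w^3) - om ((x j)^3))) *
        (tt A [] B w * phi (A ++ B) w)) =
    ∑ i, (-(gm x Finset.univ i * tt A [] B (x i))) *
      (phi (x i :: (A ++ (B ++ prF x (Finset.univ.erase i)))) w *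
        zs (w :: x i :: (A ++ (B ++ prF x (Finset.univ.erase i))))) := by
  have hx0 : ∀ i, x i ≠ 0 := fun i => (hg.1 i).1
  have h := hZI x hg Finset.univ A B ha hb hA hB w hw
  unfold FP at h
  have ht : tF x ∅ A B = tt A [] B := by
    funext v
    unfold tF
    rw [Finset.toList_empty, List.map_nil]
  rw [ht] at h
  have hphi : ∀ s : Finset ι, phi (A ++ (B ++ prF x s)) w =
      phi (A ++ B) w * ∏ j ∈ s, (om w - om (x j))^2 := by
    intro s
    rw [← List.append_assoc, phi_app]
  have hE : ∏ j, (om (w^3) - om ((x j)^3)) = (∏ j, EE (om w) (om (x j))) *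
      ∏ j, (om w - om (x j)) := by
    rw [← Finset.prod_mul_distrib]
    refine Finset.prod_congr rfl fun j _ => ?_
    rw [om_cube w hw, om_cube (x j) (hx0 j)]
    unfold EE
    ring
  have hsum : ∀ i ∈ (Finset.univ : Finset ι),
      (-(gm x Finset.univ i * tt A [] B (x i))) *
      (phi (x i :: (A ++ (B ++ prF x (Finset.univ.erase i)))) w *
        zs (w :: x i :: (A ++ (B ++ prF x (Finset.univ.erase i))))) =
      -(phi (A ++ B) w * ∏ j, (om w - om (x j))) *
       (gm x Finset.univ i * (∏ j ∈ Finset.univ.erase i, (om w - om (x j))) *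
        cc (tt A [] B) w (x i) *
      zs (w :: x i :: (A ++ (B ++ prF x (Finset.univ.erase i))))) := by
    intro i _
    rw [cc_const A B ha hb w (x i) hw (hx0 i) (hg.1 i).2, phi_cons, hphi,
      ← Finset.mul_prod_erase Finset.univ (fun j => (om w - om (x j))) (Finset.mem_univ i),
      Finset.prod_pow]
    ring
  rw [Finset.sum_congr rfl hsum, ← Finset.mul_sum, hphi, hE, Finset.prod_pow]
  linear_combination (phi (A ++ B) w * ∏ j, (om w - om (x j))) * h

open Classical in
theorem card_er {ι : Type} [Fintype ι] (i : ι) :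
    ((Finset.univ : Finset ι).erase i).card = Fintype.card ι - 1 := by
  rw [Finset.card_erase_of_mem (Finset.mem_univ i), Finset.card_univ]

variable (a k : ℕ)

/-- the left side along the family -/
noncomputable def fh (s w : ℂ) : ℂ :=
  zs (on a ++ on a) * (tF (xs k s) Finset.univ (on a) (on a) w *
      phi (on a ++ (on a ++ prF (xs k s) Finset.univ)) w) -
    zs (on a ++ (on a ++ prF (xs k s) Finset.univ)) *
      ((∏ j, (om (w^3) - om ((xs k s j)^3))) * (tt (on a) [] (on a) w * phi (on a ++ on a) w))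

theorem fam_mem (hZI : S_ZI) (hao : Odd a) (s : ℂ) (hg : Gen (xs k s)) :
    (fun w : DD => fh a k s w.1) ∈ (VV (2*a + 2*k)).map Ev := by
  classical
  set x := xs k s with hx
  obtain ⟨na, hna⟩ := id hao
  have hx0 : ∀ i, x i ≠ 0 := fun i => (hg.1 i).1
  have hao' : Odd (on a).length := by rw [on_len]; exact hao
  obtain ⟨S, hSdef⟩ : ∃ S : Fin k → Finset (Fin k), ∀ i, S i =
      @Finset.erase (Fin k) (fun a b => Classical.propDecidable (a = b)) Finset.univ i :=
    ⟨_, fun i => rfl⟩
  have hcard : ∀ i : Fin k, (S i).card = k - 1 := by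
    intro i
    rw [hSdef]
    exact (card_er i).trans (by rw [Fintype.card_fin])
  let Sl : Fin k → List ℂ := fun i => x i :: (on a ++ (on a ++ prF x (S i)))
  have hSl : ∀ i : Fin k, (Sl i).length = 2 * (a + k - 1) + 1 := by
    intro i
    simp only [Sl, List.length_cons, List.length_append, on_len, prF_len, hcard]
    have := i.2
    omega
  have hSn : ∀ i : Fin k, ∀ c ∈ Sl i, c ≠ 0 := by
    intro i c hc
    rcases List.mem_cons.mp hc with rfl | hc
    · exact hx0 i
    rcases List.mem_append.mp hc with hc | hc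
    · exact on_ne a c hc
    rcases List.mem_append.mp hc with hc | hc
    · exact on_ne a c hc
    · exact prF_ne x _ hx0 c hc
  have hPex : ∀ i : Fin k, ∃ P : Polynomial ℂ, P.natDegree ≤ 2 * (a + k - 1) ∧
      ∀ w, Z (w :: Sl i) = P.eval w := by
    intro i
    obtain ⟨P, hP, hP'⟩ := (Z_pd (2 * (a + k - 1) + 2) ⟨a + k - 1 + 1, by ring⟩).univ [] (Sl i)
      (by rw [hSl]; simp)
    exact ⟨P, by omega, fun w => hP' w⟩
  choose P hPd hP using hPex
  let c : Fin k → ℂ := fun i => -(gm x Finset.univ i * tt (on a) [] (on a) (x i))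
  let F : Fin k → LP := fun i => phiL (Sl i) * zsL (a + k - 1) (Sl i) (P i)
  have hF : ∀ i, F i ∈ VV (2*a + 2*k) := by
    intro i
    have h1 := FS_mem' (Sl i) (a + k - 1) (hSl i) (hSn i) (P i) (hPd i) (hP i)
    have := i.2
    rw [show 2*a + 2*k = 2 * (a + k - 1) + 2 by omega]
    exact h1
  refine ⟨∑ i, c i • F i, Submodule.sum_mem _ fun i _ => Submodule.smul_mem _ _ (hF i), ?_⟩
  funext w
  obtain ⟨w, hw⟩ := w
  have hw0 : w ≠ 0 := DD_ne hw
  show eL w hw0 _ = _
  have hFe : ∀ i, eL w hw0 (F i) = phi (Sl i) w * zs (w :: Sl i) := by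
    intro i
    show eL w hw0 (phiL (Sl i) * zsL (a + k - 1) (Sl i) (P i)) = _
    rw [map_mul, eL_phiL, eL_zsL (Sl i) (a + k - 1) (hSl i) (P i) (hP i)]
  rw [map_sum]
  have e1 : ∀ i ∈ (Finset.univ : Finset (Fin k)), eL w hw0 (c i • F i) =
      c i * (phi (Sl i) w * zs (w :: Sl i)) := by
    intro i _
    rw [LaurentPolynomial.smul_eq_C_mul, map_mul, eL_C, hFe]
  rw [Finset.sum_congr rfl e1]
  have hf := fam x hZI hg (on a) (on a) hao' hao' (on_ne a) (on_ne a) w hw0
  show _ = fh a k s w
  unfold fh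
  rw [← hx, hf]
  refine Finset.sum_congr rfl fun i _ => ?_
  simp only [c, Sl, hSdef]

theorem zs_cont :
    ContinuousAt (fun s => zs (on a ++ (on a ++ prF (xs k s) Finset.univ))) 0 := by
  have hl : ∀ s, (on a ++ (on a ++ prF (xs k s) Finset.univ)).length = 2 * (a + k) := by
    intro s
    rw [List.length_append, List.length_append, on_len, prF_len, Finset.card_univ, Fintype.card_fin]
    ring
  unfold zs
  simp only [hl]
  refine ContinuousAt.div ?_ ?_ ?_
  · have h := cont_mid (Z_pd (2 * (a + k)) (even_two_mul _)) k (on a ++ on a) []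
      (by simp [on_len]; omega)
    simpa using h
  · refine ContinuousAt.mul (ContinuousAt.pow ?_ _) continuousAt_const
    have h := listprod_cont (Lx k) (Lx_cont k)
    simp only [Lx_map] at h
    simp only [List.prod_append, on_prod, one_mul]
    exact h
  · rw [prF_zero, List.prod_append, List.prod_append, on_prod, on_prod]
    exact mul_ne_zero (pow_ne_zero _ (by norm_num)) (pow_ne_zero _ q_ne_zero)

theorem tF_cont (w : ℂ) (hw : w ≠ 0) :
    ContinuousAt (fun s => tF (xs k s) Finset.univ (on a) (on a) w) 0 := by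
  have h0 : ∀ s, tF (xs k s) Finset.univ (on a) (on a) w =
      zo (w :: (on a ++ (on a ++ prF (xs k s) Finset.univ))) := fun s => rfl
  simp only [h0]
  have hl : ∀ s, (w :: (on a ++ (on a ++ prF (xs k s) Finset.univ))).length = 2 * (a + k) + 1 := by
    intro s
    rw [List.length_cons, List.length_append, List.length_append, on_len, prF_len,
      Finset.card_univ, Fintype.card_fin]
    ring
  unfold zo
  simp only [hl]
  refine ContinuousAt.div ?_ ?_ ?_
  · have h := cont_mid (Z_pd (2 * (a + k) + 2) ⟨a + k + 1, by ring⟩) k (w :: (on a ++ on a)) [0]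
      (by simp [on_len]; omega)
    simpa using h
  · refine ContinuousAt.mul (ContinuousAt.pow ?_ _) continuousAt_const
    have h := listprod_cont (Lx k) (Lx_cont k)
    simp only [Lx_map] at h
    simp only [List.prod_cons, List.prod_append, on_prod, one_mul]
    exact continuousAt_const.mul h
  · rw [prF_zero, List.prod_cons, List.prod_append, List.prod_append, on_prod, on_prod]
    exact mul_ne_zero (pow_ne_zero _ (by simpa using hw)) (pow_ne_zero _ q_ne_zero)

theorem om_cont (j : Fin k) : ContinuousAt (fun s => om (xs k s j)) 0 := by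
  have h : ContinuousAt (fun s => xs k s j) 0 := (xs_cont k j).continuousAt
  unfold om
  exact h.add (h.inv₀ (by rw [xs_zero]; exact one_ne_zero))

theorem om3_cont (j : Fin k) : ContinuousAt (fun s => om ((xs k s j)^3)) 0 := by
  have h : ContinuousAt (fun s => xs k s j) 0 := (xs_cont k j).continuousAt
  have h3 : ContinuousAt (fun s => (xs k s j)^3) 0 := h.pow 3
  unfold om
  exact h3.add (h3.inv₀ (by rw [xs_zero]; norm_num))

theorem fh_cont (w : ℂ) (hw : w ≠ 0) : ContinuousAt (fun s => fh a k s w) 0 := by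
  unfold fh
  refine ContinuousAt.sub (continuousAt_const.mul ((tF_cont a k w hw).mul ?_))
    ((zs_cont a k).mul (ContinuousAt.mul ?_ continuousAt_const))
  · have h1 : (fun s => phi (on a ++ (on a ++ prF (xs k s) Finset.univ)) w) = fun s =>
        phi (on a ++ on a) w * ∏ j, (om w - om (xs k s j))^2 := by
      funext s
      rw [← List.append_assoc, phi_app]
    rw [h1]
    refine continuousAt_const.mul ?_
    exact tendsto_finsetProd _ fun j _ => (continuousAt_const.sub (om_cont k j)).pow 2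
  · exact tendsto_finsetProd _ fun j _ => continuousAt_const.sub (om3_cont k j)

theorem VV_closed (m : ℕ) :
    IsClosed (((VV m).map Ev : Submodule ℂ (DD → ℂ)) : Set (DD → ℂ)) := by
  have := VV_fin m
  exact Submodule.closed_of_finiteDimensional _

theorem lim_mem (hZI : S_ZI) (hao : Odd a) :
    (fun w : DD => fh a k 0 w.1) ∈ (VV (2*a + 2*k)).map Ev := by
  have hcl := VV_closed (2*a + 2*k)
  refine hcl.mem_of_tendsto (b := 𝓝[≠] (0:ℂ)) (f := fun s => fun w : DD => fh a k s w.1) ?_ ?_
  · rw [tendsto_pi_nhds]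
    intro w
    exact (fh_cont a k w.1 (DD_ne w.2)).tendsto.mono_left nhdsWithin_le_nhds
  · filter_upwards [ev_gen k] with s h1
    exact fam_mem a k hZI hao s h1

theorem on_add (m n : ℕ) : on m ++ on n = on (m + n) := by
  unfold on
  rw [List.replicate_append_replicate]

theorem prs_on (m : ℕ) : prs (on m) = on (2*m) := by
  induction m with
  | zero => rfl
  | succ m ih =>
    have h1 : on (m+1) = 1 :: on m := rfl
    have h2 : prs (on (m+1)) = 1 :: (1:ℂ)⁻¹ :: prs (on m) := by rw [h1]; rfl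
    have h3 : on (2*(m+1)) = 1 :: 1 :: on (2*m) := rfl
    rw [h2, h3, ih, inv_one]

end H3

theorem t_HLt : S_ZI → S_regz → S_HLt := by
  intro hZI _ a k ha
  obtain ⟨F, hF, hFe⟩ := H3.lim_mem a k hZI ha
  refine ⟨F, hF, ?_⟩
  intro w hw
  have h1 : eL w (DD_ne hw) F = H3.fh a k 0 w := congrFun hFe ⟨w, hw⟩
  rw [h1]
  unfold H3.fh
  have h2 : tF (Step.Hom.xs k 0) Finset.univ (on a) (on a) w = tt (on a) (on k) (on a) w := by
    have h3 : tF (Step.Hom.xs k 0) Finset.univ (on a) (on a) w =
      zo (w :: (on a ++ (on a ++ prF (Step.Hom.xs k 0) Finset.univ))) := rfl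
    rw [h3, Step.Hom.prF_zero]
    unfold tt
    rw [H3.prs_on]
  have h4 : on a ++ on a = on (2*a) := by rw [H3.on_add]; congr 1; ring
  have h5 : on a ++ (on a ++ on (2*k)) = on (2*a + 2*k) := by
    rw [H3.on_add, H3.on_add]; congr 1; ring
  rw [h2, Step.Hom.prF_zero, h4, h5]
  simp only [Step.Hom.xs_zero, Finset.prod_const, Finset.card_univ, Fintype.card_fin, one_pow,
    Step.Hom.om_one]

theorem t_HT : S_ttwid → S_HT := by
  intro _ a ha
  obtain ⟨PO, hPOd, hPO'⟩ := (Z_pd (2*a+2) ⟨a+1, by ring⟩).univ [] (on (2*a) ++ [0])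
    (by simp [Step.Hom.on_len])
  have hPO : ∀ w, Z (w :: (on (2*a) ++ [0])) = PO.eval w := fun w => hPO' w
  have h1 := Step.Hom.Fodd_mem a PO (by omega) hPO
  set κ : ℂ := q^((a+1)*a) with hκ
  have hκ0 : κ ≠ 0 := pow_ne_zero _ q_ne_zero
  have h4 : κ⁻¹ * PO.eval 0 = zs (on (2*a)) := by
    have hZ0 : PO.eval 0 = q^(8*a) * Z (on (2*a)) := by
      rw [← hPO]
      have h1 : ((0:ℂ) :: (on (2*a) ++ [0])).Perm ([] ++ (0:ℂ) :: (q^2 * 0) :: on (2*a)) := by
        rw [mul_zero, List.nil_append]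
        refine List.Perm.cons _ ?_
        refine (List.perm_append_comm).trans ?_
        simp
      rw [Z_perm (by simp [Step.Hom.on_len]; exact ⟨a+1, by ring⟩) h1,
        Z_rec [] _ 0 (by simp [Step.Hom.on_len]), List.nil_append]
      congr 1
      unfold fac on
      rw [List.map_replicate, List.prod_replicate]
      rw [show ((0:ℂ) - q^2 * 1) * (0 * 1 - q^2) = q^4 by ring, ← pow_mul]
      congr 1
      ring
    unfold zs
    rw [hZ0, Step.Hom.on_prod, Step.Hom.on_len, one_pow, one_mul, show 2*a/2 = a by omega, hκ]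
    have hq0 := q_ne_zero
    have e2 : q^(8*a) * q^(a*(a-1)) = q^((a+1)*a) := by
      obtain ⟨i, hi⟩ : ∃ i, a = i + 1 := by
        obtain ⟨n, hn⟩ := ha
        exact ⟨2*n, hn⟩
      rw [hi, Nat.add_sub_cancel, ← pow_add]
      have : 8 * (i+1) + (i+1)*i = (i+1+1)*(i+1) + 3 * (2*(i+1)) := by ring
      rw [this, pow_add, pow_mul q 3, q_cube, one_pow, mul_one]
    have p1 : q^(a*(a-1)) ≠ 0 := pow_ne_zero _ hq0
    have p2 : q^((a+1)*a) ≠ 0 := pow_ne_zero _ hq0
    field_simp
    linear_combination (Z (on (2*a))) * e2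
  have h2 := Submodule.smul_mem _ κ⁻¹ h1
  refine ⟨_, h2, ?_⟩
  intro w hw
  have hw0 : w ≠ 0 := DD_ne hw
  have e : LaurentPolynomial.C (zs (on (2*a))) * bs (2*a) +
      κ⁻¹ • (Polynomial.toLaurent PO * LaurentPolynomial.T (-(a:ℤ)) *
        (Step.Hom.dl * (Step.Hom.oL - 2)^(2*a)) - LaurentPolynomial.C (PO.eval 0) * bs (2*a)) =
      LaurentPolynomial.C κ⁻¹ * (Polynomial.toLaurent PO * LaurentPolynomial.T (-(a:ℤ)) *
        (Step.Hom.dl * (Step.Hom.oL - 2)^(2*a))) := by
    rw [LaurentPolynomial.smul_eq_C_mul, ← h4, map_mul]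
    ring
  rw [e]
  have h5 : on a ++ (on a ++ prs []) = on (2*a) := by
    show on a ++ (on a ++ []) = _
    rw [List.append_nil, H3.on_add]; congr 1; ring
  have h6 : tt (on a) [] (on a) w = PO.eval w / (w^a * κ) := by
    unfold tt
    rw [h5]
    unfold zo
    rw [List.cons_append, hPO, List.prod_cons, Step.Hom.on_prod, List.length_cons,
      Step.Hom.on_len, mul_one, hκ]
    rw [show (2*a+1-1)/2 = a by omega, show (2*a+1+1)/2 = a+1 by omega]
  rw [h6, Step.Hom.phi_on]
  simp only [map_mul, Step.Hom.eL_poly, Step.Hom.eL_T, Step.Hom.eL_C, map_pow, map_sub,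
    Step.Hom.eL_oL, Step.Hom.eL_dl]
  rw [show eL w (DD_ne hw) 2 = 2 from map_ofNat (eL w (DD_ne hw)) 2, zpow_neg, zpow_natCast]
  field_simp

end Pool.Agent.NH38.Fork
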