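import Pool.Agent.NH38.Fork.Stubs4
import Pool.Agent.NH38.Fork.H2
import Pool.Agent.NH38.Fork.H3

/-!
Thick slits, task HG3 (helper17): the homogeneous limit of the formula `S_ZI` and the total mass of
the thin slit, arms of widths `a`, `b`.
-/

namespace Pool.Agent.NH38.Fork

open Pool.Agent.H988R2.Perc hiding X
open Pool.Agent.NH38.Step (om prs EE zs prF Gen on pom bev)
open Pool.Agent.NH38.Step.Hom (phi eL DD DD_ne W0 VV bs LP xs xs_zero xs_cont ev_gen phi_app phi_cons
  om_cube prF_len prF_ne on_ne on_len oA eL_oA eL_C eL_phiL eL_zsL phiL zsL FS_mem' Ev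
  Lx Lx_cont Lx_map listprod_cont cont_mid prF_zero on_prod)
open Polynomial Filter Topology

namespace HG3

open H2 (om_cont prod3_cont on_app term_mem formula list_zero)

theorem zs_cont (n k : ℕ) (hn : Even n) :
    ContinuousAt (fun s => zs (on n ++ prF (xs k s) Finset.univ)) 0 := by
  have hl : ∀ s, (on n ++ prF (xs k s) Finset.univ).length = n + 2*k := by
    intro s
    rw [List.length_append, on_len, prF_len, Finset.card_univ, Fintype.card_fin]
  unfold zs
  simp only [hl]
  refine ContinuousAt.div ?_ ?_ ?_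
  · have h := cont_mid (Z_pd (n + 2*k) (hn.add ⟨k, by ring⟩)) k (on n) [] (by simp [on_len])
    simpa using h
  · refine ContinuousAt.mul (ContinuousAt.pow ?_ _) continuousAt_const
    have h := listprod_cont (Lx k) (Lx_cont k)
    simp only [Lx_map] at h
    simp only [List.prod_append, on_prod, one_mul]
    exact h
  · rw [prF_zero, List.prod_append, on_prod, on_prod]
    exact mul_ne_zero (pow_ne_zero _ (by norm_num)) (pow_ne_zero _ q_ne_zero)

theorem zo_cont (n k : ℕ) (hn : Even n) (w : ℂ) (hw : w ≠ 0) :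
    ContinuousAt (fun s => zo (w :: (on n ++ prF (xs k s) Finset.univ))) 0 := by
  have hl : ∀ s, (w :: (on n ++ prF (xs k s) Finset.univ)).length = n + 2*k + 1 := by
    intro s
    rw [List.length_cons, List.length_append, on_len, prF_len, Finset.card_univ, Fintype.card_fin]
  obtain ⟨c, hc⟩ := hn
  unfold zo
  simp only [hl]
  refine ContinuousAt.div ?_ ?_ ?_
  · have h := cont_mid (Z_pd (n + 2*k + 2) ⟨c + k + 1, by omega⟩) k (w :: on n) [0]
      (by simp [on_len]; omega)
    simpa using h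
  · refine ContinuousAt.mul (ContinuousAt.pow ?_ _) continuousAt_const
    have h := listprod_cont (Lx k) (Lx_cont k)
    simp only [Lx_map] at h
    simp only [List.prod_cons, List.prod_append, on_prod, one_mul]
    exact continuousAt_const.mul h
  · rw [prF_zero, List.prod_cons, List.prod_append, on_prod, on_prod]
    exact mul_ne_zero (pow_ne_zero _ (by simpa using hw)) (pow_ne_zero _ q_ne_zero)

theorem phi_cont (n k : ℕ) (w : ℂ) :
    ContinuousAt (fun s => phi (on n ++ prF (xs k s) Finset.univ) w) 0 := by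
  have h1 : (fun s => phi (on n ++ prF (xs k s) Finset.univ) w) = fun s =>
      phi (on n) w * ∏ j, (om w - om (xs k s j))^2 := by
    funext s
    rw [phi_app]
  rw [h1]
  refine continuousAt_const.mul ?_
  refine tendsto_finsetProd _ fun i _ => ?_
  exact ContinuousAt.pow (continuousAt_const.sub (om_cont k i)) 2

theorem tF_eq {ι : Type} (x : ι → ℂ) (s : Finset ι) (a b : ℕ) (w : ℂ) :
    tF x s (on a) (on b) w = zo (w :: (on (a + b) ++ prF x s)) := by
  have h : tF x s (on a) (on b) w = zo (w :: (on a ++ (on b ++ prF x s))) := rfl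
  rw [h, ← List.append_assoc, on_app]

theorem tF_empty {ι : Type} (x : ι → ℂ) (A B : List ℂ) : tF x ∅ A B = tt A [] B := by
  funext v
  unfold tF
  rw [Finset.toList_empty, List.map_nil]

/-- the left side of the formula along the family -/
noncomputable def fh (a b k : ℕ) (s w : ℂ) : ℂ :=
  zs (on (a + b)) * (tF (xs k s) Finset.univ (on a) (on b) w *
    phi (on (a + b) ++ prF (xs k s) Finset.univ) w) -
  zs (on (a + b) ++ prF (xs k s) Finset.univ) * ((∏ i : Fin k, (om (w^3) - om ((xs k s i)^3))) *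
    (tt (on a) [] (on b) w * phi (on (a + b)) w))

theorem fh_mem (hZI : S_ZI) {ι : Type} (x : ι → ℂ) (hg : Gen x) (s : Finset ι) (a b : ℕ) (ha : Odd a)
    (hb : Odd b) :
    ∃ F ∈ VV (a + b + 2*s.card), ∀ (w : ℂ) (hw : w ≠ 0),
    zs (on (a + b)) * (tF x s (on a) (on b) w * phi (on (a + b) ++ prF x s) w) -
      zs (on (a + b) ++ prF x s) * ((∏ j ∈ s, (om (w^3) - om ((x j)^3))) *
        (tt (on a) [] (on b) w * phi (on (a + b)) w)) = eL w hw F := by
  classical
  have hx0 : ∀ i, x i ≠ 0 := fun i => (hg.1 i).1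
  have hoa : Odd (on a).length := by rw [on_len]; exact ha
  have hob : Odd (on b).length := by rw [on_len]; exact hb
  have h2a : on a ++ on b = on (a + b) := on_app a b
  obtain ⟨c, hc⟩ := ha.add_odd hb
  have hT : ∀ i, ∃ F : LP, i ∈ s → F ∈ VV (a + b + 2*s.card) ∧ ∀ (w : ℂ) (hw : w ≠ 0),
      eL w hw F = phi (x i :: (on (a + b) ++ prF x (s.erase i))) w *
        zs (w :: x i :: (on (a + b) ++ prF x (s.erase i))) := by
    intro i
    by_cases hi : i ∈ s
    · have hc1 : 0 < s.card := Finset.card_pos.mpr ⟨i, hi⟩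
      obtain ⟨F, hF, hF'⟩ := term_mem (x i) (x i :: (on (a + b) ++ prF x (s.erase i)))
        (c + s.card - 1) (by
          rw [List.length_cons, List.length_append, on_len, prF_len,
            Finset.card_erase_of_mem hi]
          omega) (by
          intro c hc
          rcases List.mem_cons.mp hc with rfl | hc
          · exact hx0 i
          rcases List.mem_append.mp hc with hc | hc
          · exact on_ne _ c hc
          · exact prF_ne x _ hx0 c hc)
      refine ⟨F, fun _ => ⟨?_, hF'⟩⟩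
      have : 2 * (c + s.card - 1) + 2 = a + b + 2*s.card := by omega
      rw [this] at hF
      exact hF
    · exact ⟨0, fun h => absurd h hi⟩
  choose F hF using hT
  refine ⟨∑ i ∈ s, (-(gm x s i * tt (on a) [] (on b) (x i))) • F i,
    Submodule.sum_mem _ fun i hi => Submodule.smul_mem _ _ (hF i hi).1, ?_⟩
  intro w hw
  have h := formula x hg s (on a) (on b) (tF x) w hw
    (hZI x hg s (on a) (on b) hoa hob (on_ne a) (on_ne b) w hw)
  rw [h2a, tF_empty] at h
  rw [h, map_sum, ← Finset.sum_neg_distrib]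
  refine Finset.sum_congr rfl fun i hi => ?_
  rw [LaurentPolynomial.smul_eq_C_mul, map_mul, eL_C, (hF i hi).2 w hw,
    H3.cc_const (on a) (on b) hoa hob w (x i) hw (hx0 i) (hg.1 i).2]
  ring

theorem fh_cont (a b k : ℕ) (ha : Odd a) (hb : Odd b) (w : ℂ) (hw : w ≠ 0) :
    ContinuousAt (fun s => fh a b k s w) 0 := by
  unfold fh
  simp only [tF_eq]
  refine ContinuousAt.sub ?_ ?_
  · exact continuousAt_const.mul ((zo_cont (a + b) k (ha.add_odd hb) w hw).mul
      (phi_cont (a + b) k w))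
  · exact (zs_cont (a + b) k (ha.add_odd hb)).mul ((prod3_cont k w).mul continuousAt_const)

theorem lim_mem (hZI : S_ZI) (a b k : ℕ) (ha : Odd a) (hb : Odd b) :
    (fun w : DD => fh a b k 0 w.1) ∈ (VV (a + b + 2*k)).map Ev := by
  have hcl := H3.VV_closed (a + b + 2*k)
  refine hcl.mem_of_tendsto (b := 𝓝[≠] (0:ℂ)) (f := fun s => fun w : DD => fh a b k s w.1) ?_ ?_
  · rw [tendsto_pi_nhds]
    intro w
    exact (fh_cont a b k ha hb w.1 (DD_ne w.2)).tendsto.mono_left nhdsWithin_le_nhds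
  · filter_upwards [ev_gen k] with s h1
    obtain ⟨F, hF, hF'⟩ := fh_mem hZI (xs k s) h1 Finset.univ a b ha hb
    rw [Finset.card_univ, Fintype.card_fin] at hF
    refine ⟨F, hF, ?_⟩
    funext w
    have h2 := hF' w.1 (DD_ne w.2)
    show eL w.1 (DD_ne w.2) F = fh a b k s w.1
    rw [← h2]
    rfl

/-- the total mass -/
theorem mass (c : ℕ) (hc : 0 < c) : ∃ F ∈ VV (2*c), ∀ (w : ℂ) (hw : w ∈ DD),
    zo (w :: on (2*c)) * phi (on (2*c)) w =
      eL w (DD_ne hw) (LaurentPolynomial.C (zs (on (2*c))) * bs (2*c) + F) := by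
  obtain ⟨PO, hPOd, hPO'⟩ := (Z_pd (2*c+2) ⟨c+1, by ring⟩).univ [] (on (2*c) ++ [0])
    (by simp [Step.Hom.on_len])
  have hPO : ∀ w, Z (w :: (on (2*c) ++ [0])) = PO.eval w := fun w => hPO' w
  have h1 := Step.Hom.Fodd_mem c PO (by omega) hPO
  set κ : ℂ := q^((c+1)*c) with hκ
  have hκ0 : κ ≠ 0 := pow_ne_zero _ q_ne_zero
  have h4 : κ⁻¹ * PO.eval 0 = zs (on (2*c)) := by
    have hZ0 : PO.eval 0 = q^(8*c) * Z (on (2*c)) := by
      rw [← hPO]
      have h1 : ((0:ℂ) :: (on (2*c) ++ [0])).Perm ([] ++ (0:ℂ) :: (q^2 * 0) :: on (2*c)) := by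
        rw [mul_zero, List.nil_append]
        refine List.Perm.cons _ ?_
        refine (List.perm_append_comm).trans ?_
        simp
      rw [Z_perm (by simp [Step.Hom.on_len]; exact ⟨c+1, by ring⟩) h1,
        Z_rec [] _ 0 (by simp [Step.Hom.on_len]), List.nil_append]
      congr 1
      unfold fac on
      rw [List.map_replicate, List.prod_replicate]
      rw [show ((0:ℂ) - q^2 * 1) * (0 * 1 - q^2) = q^4 by ring, ← pow_mul]
      congr 1
      ring
    unfold zs
    rw [hZ0, Step.Hom.on_prod, Step.Hom.on_len, one_pow, one_mul, show 2*c/2 = c by omega, hκ]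
    have hq0 := q_ne_zero
    have e2 : q^(8*c) * q^(c*(c-1)) = q^((c+1)*c) := by
      obtain ⟨i, hi⟩ : ∃ i, c = i + 1 := ⟨c - 1, by omega⟩
      rw [hi, Nat.add_sub_cancel, ← pow_add]
      have : 8 * (i+1) + (i+1)*i = (i+1+1)*(i+1) + 3 * (2*(i+1)) := by ring
      rw [this, pow_add, pow_mul q 3, q_cube, one_pow, mul_one]
    have p1 : q^(c*(c-1)) ≠ 0 := pow_ne_zero _ hq0
    have p2 : q^((c+1)*c) ≠ 0 := pow_ne_zero _ hq0
    field_simp
    linear_combination (Z (on (2*c))) * e2
  have h2 := Submodule.smul_mem _ κ⁻¹ h1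
  refine ⟨_, h2, ?_⟩
  intro w hw
  have hw0 : w ≠ 0 := DD_ne hw
  have e : LaurentPolynomial.C (zs (on (2*c))) * bs (2*c) +
      κ⁻¹ • (Polynomial.toLaurent PO * LaurentPolynomial.T (-(c:ℤ)) *
        (Step.Hom.dl * (Step.Hom.oL - 2)^(2*c)) - LaurentPolynomial.C (PO.eval 0) * bs (2*c)) =
      LaurentPolynomial.C κ⁻¹ * (Polynomial.toLaurent PO * LaurentPolynomial.T (-(c:ℤ)) *
        (Step.Hom.dl * (Step.Hom.oL - 2)^(2*c))) := by
    rw [LaurentPolynomial.smul_eq_C_mul, ← h4, map_mul]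
    ring
  rw [e]
  have h6 : zo (w :: on (2*c)) = PO.eval w / (w^c * κ) := by
    unfold zo
    rw [List.cons_append, hPO, List.prod_cons, Step.Hom.on_prod, List.length_cons,
      Step.Hom.on_len, mul_one, hκ]
    rw [show (2*c+1-1)/2 = c by omega, show (2*c+1+1)/2 = c+1 by omega]
  rw [h6, Step.Hom.phi_on]
  simp only [map_mul, Step.Hom.eL_poly, Step.Hom.eL_T, Step.Hom.eL_C, map_pow, map_sub,
    Step.Hom.eL_oL, Step.Hom.eL_dl]
  rw [show eL w (DD_ne hw) 2 = 2 from map_ofNat (eL w (DD_ne hw)) 2, zpow_neg, zpow_natCast]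
  field_simp

end HG3

theorem t_HLtg : S_ZI → S_regz → S_HLtg := by
  intro hZI _ a b k ha hb
  obtain ⟨F, hF, hFe⟩ := HG3.lim_mem hZI a b k ha hb
  refine ⟨F, hF, fun w hw => ?_⟩
  have h1 := congrFun hFe ⟨w, hw⟩
  have h2 : eL w (DD_ne hw) F = HG3.fh a b k 0 w := h1
  rw [h2]
  unfold HG3.fh tF
  rw [H2.list_zero, prF_zero, H2.on_app]
  simp only [xs_zero, one_pow, Finset.prod_const, Finset.card_univ, Fintype.card_fin]
  have h3 : om (1:ℂ) = 2 := by unfold om; norm_num
  rw [h3]

theorem t_HTg : S_ttwid → S_HTg := by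
  intro _ a b ha hb
  obtain ⟨c, hc⟩ := ha.add_odd hb
  have hc2 : a + b = 2*c := by omega
  have hc0 : 0 < c := by
    obtain ⟨m, hm⟩ := ha
    omega
  have h5 : ∀ w, tt (on a) [] (on b) w = zo (w :: on (2*c)) := by
    intro w
    unfold tt
    have : on a ++ (on b ++ prs []) = on (2*c) := by
      show on a ++ (on b ++ []) = _
      rw [List.append_nil, H2.on_app, hc2]
    rw [this]
  rw [hc2]
  obtain ⟨F, hF, hFe⟩ := HG3.mass c hc0
  exact ⟨F, hF, fun w hw => by rw [h5 w]; exact hFe w hw⟩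

end Pool.Agent.NH38.Fork
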