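import Pool.Agent.NH38.Step.HomG

/-!
Thick slits, task H5 (helper90), part a: the core identity.
-/

namespace Pool.Agent.NH38.Fork.H5

open Pool.Agent.NH38.Step.Hom
open Pool.Agent.H988R2.Perc (q q_spec q_cube q_ne_zero q_ne_one q_sq_ne_one mu)
open LaurentPolynomial (T C invert)
open Pool.Agent

/-! ### multiplication by `T³ + T⁻³ - 2` -/

theorem mu_add_two (i : ℕ) : mu (i + 2) = mu i + 3 := by unfold mu; omega

theorem K1_bs (i : ℕ) : (T 3 + T (-3) - 2 : LP) * bs i - bs (i + 2) ∈ VV (i + 2) := by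
  have h : (T 3 + T (-3) - 2 : LP) * bs i - bs (i + 2) =
      (T ((mu i : ℤ) - 3) - T (-((mu i : ℤ) - 3))) - (2 : ℂ) • bs i := by
    unfold bs
    rw [mu_add_two, LaurentPolynomial.smul_eq_C_mul]
    have e1 : (T 3 : LP) * T (mu i : ℤ) = T ((mu i + 3 : ℕ) : ℤ) :=
      (LaurentPolynomial.T_add _ _).symm.trans (congrArg T (by push_cast; ring))
    have e2 : (T 3 : LP) * T (-(mu i : ℤ)) = T (-((mu i : ℤ) - 3)) :=
      (LaurentPolynomial.T_add _ _).symm.trans (congrArg T (by ring))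
    have e3 : (T (-3) : LP) * T (mu i : ℤ) = T ((mu i : ℤ) - 3) :=
      (LaurentPolynomial.T_add _ _).symm.trans (congrArg T (by ring))
    have e4 : (T (-3) : LP) * T (-(mu i : ℤ)) = T (-((mu i + 3 : ℕ) : ℤ)) :=
      (LaurentPolynomial.T_add _ _).symm.trans (congrArg T (by push_cast; ring))
    have e5 : (C (2 : ℂ) : LP) = 2 := map_ofNat C 2
    rw [e5]
    linear_combination e1 - e2 + e3 - e4
  rw [h]
  refine Submodule.sub_mem _ ?_ (Submodule.smul_mem _ _ (bs_mem (by omega)))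
  rcases i with _ | _ | i
  · have : (T ((mu 0 : ℤ) - 3) - T (-((mu 0 : ℤ) - 3)) : LP) = - bs 1 := by
      unfold bs
      have h0 : mu 0 = 1 := by unfold mu; omega
      have h1 : mu 1 = 2 := by unfold mu; omega
      rw [h0, h1]
      norm_num
    rw [this]
    exact Submodule.neg_mem _ (bs_mem (by omega))
  · have : (T ((mu (0+1) : ℤ) - 3) - T (-((mu (0+1) : ℤ) - 3)) : LP) = - bs 0 := by
      unfold bs
      have h0 : mu 0 = 1 := by unfold mu; omega
      have h1 : mu (0+1) = 2 := by unfold mu; omega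
      rw [h0, h1]
      norm_num
    rw [this]
    exact Submodule.neg_mem _ (bs_mem (by omega))
  · have : (T ((mu (i+1+1) : ℤ) - 3) - T (-((mu (i+1+1) : ℤ) - 3)) : LP) = bs i := by
      unfold bs
      have h1 : mu (i+1+1) = mu i + 3 := mu_add_two i
      rw [h1]
      push_cast
      rw [add_sub_cancel_right]
    rw [this]
    exact bs_mem (by omega)

theorem K1_VV {m : ℕ} {F : LP} (h : F ∈ VV m) : (T 3 + T (-3) - 2 : LP) * F ∈ VV (m + 2) := by
  unfold VV at h
  induction h using Submodule.span_induction with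
  | mem x hx =>
    obtain ⟨i, hi, rfl⟩ := hx
    have hi' : i < m := hi
    have h1 : (T 3 + T (-3) - 2 : LP) * bs i =
        ((T 3 + T (-3) - 2 : LP) * bs i - bs (i + 2)) + bs (i + 2) := by ring
    rw [h1]
    exact Submodule.add_mem _ (VV_mono (by omega) (K1_bs i)) (bs_mem (by omega))
  | zero => rw [mul_zero]; exact Submodule.zero_mem _
  | add x y _ _ hx hy => rw [mul_add]; exact Submodule.add_mem _ hx hy
  | smul a x _ hx => rw [mul_smul_comm]; exact Submodule.smul_mem _ _ hx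

theorem Kk_VV (k : ℕ) {m : ℕ} {F : LP} (h : F ∈ VV m) :
    (T 3 + T (-3) - 2 : LP)^k * F ∈ VV (m + 2*k) := by
  induction k with
  | zero => simpa using h
  | succ k ih =>
    have h1 := K1_VV ih
    rw [← mul_assoc, ← pow_succ'] at h1
    exact h1

theorem Kk_bs (k i : ℕ) : (T 3 + T (-3) - 2 : LP)^k * bs i - bs (i + 2*k) ∈ VV (i + 2*k) := by
  induction k with
  | zero => simp
  | succ k ih =>
    have h1 := K1_VV ih
    have h2 := K1_bs (i + 2*k)
    have h3 := Submodule.add_mem _ h1 h2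
    have e : (T 3 + T (-3) - 2 : LP) * ((T 3 + T (-3) - 2)^k * bs i - bs (i + 2*k)) +
        ((T 3 + T (-3) - 2) * bs (i + 2*k) - bs (i + 2*k + 2)) =
        (T 3 + T (-3) - 2)^(k+1) * bs i - bs (i + 2*(k+1)) := by
      rw [pow_succ', show i + 2*(k+1) = i + 2*k + 2 by ring]
      ring
    rw [e] at h3
    exact h3

theorem invert_K (k : ℕ) : invert ((T 3 + T (-3) - 2 : LP)^k) = (T 3 + T (-3) - 2)^k := by
  rw [map_pow]
  congr 1
  rw [map_sub, map_add, LaurentPolynomial.invert_T, LaurentPolynomial.invert_T,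
    show invert (2 : LP) = 2 from map_ofNat invert 2, neg_neg]
  ring

theorem invert_D (n : ℕ) : invert (dl * (oL - 2)^n) = -(dl * (oL - 2)^n) := by
  rw [map_mul, map_pow, map_sub, invert_dl, invert_oL, show invert (2 : LP) = 2 from map_ofNat invert 2]
  ring

theorem RR_neg (N j : ℕ) (f : LP) : RR N j (-f) = - RR N j f := by
  have := RR_sub N j 0 f
  rw [RR_zero, zero_sub, zero_sub] at this
  exact this

/-! ### residues of the square -/

variable (a k : ℕ)

/-- divisibility by `X + 1` -/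
theorem exists_F (F1 : Polynomial ℚ)
    (h : (Polynomial.X + 1) * F1 = (H337CB.P a - Polynomial.X * H337CB.Ps a) *
      (H337CB.P a + H337CB.Ps a)) :
    ∃ F0 F2 : Polynomial ℚ,
      (Polynomial.X + 1) * F0 = (Polynomial.X - 1) * (H337CB.P a)^2 +
        4 * Polynomial.X * H337CB.P a * H337CB.Ps a + 2 * Polynomial.X * (H337CB.Ps a)^2 ∧
      (Polynomial.X + 1) * F2 = (Polynomial.X - 1) * (H337CB.Ps a)^2 - 2 * (H337CB.P a)^2 -
        4 * H337CB.P a * H337CB.Ps a := by
  have h1 := congrArg (Polynomial.eval (-1)) h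
  simp only [Polynomial.eval_mul, Polynomial.eval_add, Polynomial.eval_sub, Polynomial.eval_X,
    Polynomial.eval_one] at h1
  have h2 : (Polynomial.eval (-1) (H337CB.P a) + Polynomial.eval (-1) (H337CB.Ps a))^2 = 0 := by
    linear_combination -h1
  have h3 := pow_eq_zero_iff (two_ne_zero) |>.mp h2
  have hd : ∀ F : Polynomial ℚ, F.eval (-1) = 0 → (Polynomial.X + 1) ∣ F := by
    intro F hF
    have h4 := Polynomial.dvd_iff_isRoot.mpr (show F.IsRoot (-1) from hF)
    have h5 : (Polynomial.X - Polynomial.C (-1) : Polynomial ℚ) = Polynomial.X + 1 := by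
      rw [map_neg, Polynomial.C_1, sub_neg_eq_add]
    rwa [h5] at h4
  obtain ⟨F0, h0⟩ := hd ((Polynomial.X - 1) * (H337CB.P a)^2 +
        4 * Polynomial.X * H337CB.P a * H337CB.Ps a + 2 * Polynomial.X * (H337CB.Ps a)^2) (by
    simp only [Polynomial.eval_mul, Polynomial.eval_add, Polynomial.eval_sub, Polynomial.eval_X,
      Polynomial.eval_one, Polynomial.eval_pow, Polynomial.eval_ofNat]
    linear_combination (-2) * h2)
  obtain ⟨F2, h2⟩ := hd ((Polynomial.X - 1) * (H337CB.Ps a)^2 - 2 * (H337CB.P a)^2 -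
        4 * H337CB.P a * H337CB.Ps a) (by
    simp only [Polynomial.eval_mul, Polynomial.eval_sub, Polynomial.eval_X,
      Polynomial.eval_one, Polynomial.eval_pow, Polynomial.eval_ofNat]
    linear_combination (-2) * h2)
  exact ⟨F0, F2, h0.symm, h2.symm⟩

theorem deg_of (F G : Polynomial ℚ) (d : ℕ) (h : (Polynomial.X + 1) * F = G)
    (hG : G.natDegree ≤ d + 1) : F.natDegree ≤ d ∧ F.coeff d = G.coeff (d + 1) := by
  have hm : (Polynomial.X + 1 : Polynomial ℚ).Monic := by
    have := Polynomial.monic_X_add_C (1:ℚ)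
    rwa [Polynomial.C_1] at this
  have hd1 : (Polynomial.X + 1 : Polynomial ℚ).natDegree = 1 := by
    have := Polynomial.natDegree_X_add_C (1:ℚ)
    rwa [Polynomial.C_1] at this
  have hF : F.natDegree ≤ d := by
    by_cases h0 : F = 0
    · rw [h0]; simp
    · have := hm.natDegree_mul' h0
      rw [h, hd1] at this
      omega
  refine ⟨hF, ?_⟩
  rw [← h, add_mul, one_mul, Polynomial.coeff_add, Polynomial.coeff_X_mul,
    Polynomial.coeff_eq_zero_of_natDegree_lt (lt_of_le_of_lt hF (Nat.lt_succ_self d)), add_zero]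

theorem res_total (N : ℕ) (hN : N = 2*a + 2*k + 1) (F1 : Polynomial ℚ) (hodd : Odd N)
    (F0 F2 : Polynomial ℚ)
    (h0 : (Polynomial.X + 1) * F0 = (Polynomial.X - 1) * (H337CB.P a)^2 +
        4 * Polynomial.X * H337CB.P a * H337CB.Ps a + 2 * Polynomial.X * (H337CB.Ps a)^2)
    (h2 : (Polynomial.X + 1) * F2 = (Polynomial.X - 1) * (H337CB.Ps a)^2 - 2 * (H337CB.P a)^2 -
        4 * H337CB.P a * H337CB.Ps a) :
    H337CB.R (2*a + N) (-2/3) (F0 * H337CB.Ps N) +
      2 * H337CB.R (2*a + N) (-1/3) (F1 * H337CB.Ps N) +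
      H337CB.R (2*a + N) 0 (F2 * H337CB.Ps N) =
    2 + 2 * H337CB.R (2*a + N) (-1/3) (F1 * H337CB.Ps N) := by
  have dP := H337CB.natDegree_P_le a
  have dPs := H337CB.natDegree_Ps_le a
  have dX1 : (Polynomial.X - 1 : Polynomial ℚ).natDegree ≤ 1 := by compute_degree
  have dPP : ((H337CB.P a)^2).natDegree ≤ 2*a := by
    refine Polynomial.natDegree_pow_le.trans ?_
    omega
  have dSS : ((H337CB.Ps a)^2).natDegree ≤ 2*a := by
    refine Polynomial.natDegree_pow_le.trans ?_
    omega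
  have dPS : (H337CB.P a * H337CB.Ps a).natDegree ≤ 2*a := by
    refine Polynomial.natDegree_mul_le.trans ?_
    omega
  have dG0 : ((Polynomial.X - 1) * (H337CB.P a)^2 +
        4 * Polynomial.X * H337CB.P a * H337CB.Ps a +
        2 * Polynomial.X * (H337CB.Ps a)^2).natDegree ≤ 2*a + 1 := by
    have e : (Polynomial.X - 1) * (H337CB.P a)^2 +
        4 * Polynomial.X * H337CB.P a * H337CB.Ps a + 2 * Polynomial.X * (H337CB.Ps a)^2 =
        (Polynomial.X - 1) * (H337CB.P a)^2 +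
        (4 * Polynomial.X) * (H337CB.P a * H337CB.Ps a) +
          (2 * Polynomial.X) * (H337CB.Ps a)^2 := by ring
    rw [e]
    have d4 : (4 * Polynomial.X : Polynomial ℚ).natDegree ≤ 1 := by compute_degree
    have d2 : (2 * Polynomial.X : Polynomial ℚ).natDegree ≤ 1 := by compute_degree
    refine (Polynomial.natDegree_add_le _ _).trans (max_le
      ((Polynomial.natDegree_add_le _ _).trans (max_le ?_ ?_)) ?_)
    · exact Polynomial.natDegree_mul_le.trans (by omega)
    · exact Polynomial.natDegree_mul_le.trans (by omega)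
    · exact Polynomial.natDegree_mul_le.trans (by omega)
  have dG2 : ((Polynomial.X - 1) * (H337CB.Ps a)^2 - 2 * (H337CB.P a)^2 -
        4 * H337CB.P a * H337CB.Ps a).natDegree ≤ 2*a + 1 := by
    have e : (Polynomial.X - 1) * (H337CB.Ps a)^2 - 2 * (H337CB.P a)^2 -
        4 * H337CB.P a * H337CB.Ps a =
        (Polynomial.X - 1) * (H337CB.Ps a)^2 - Polynomial.C 2 * (H337CB.P a)^2 -
        Polynomial.C 4 * (H337CB.P a * H337CB.Ps a) := by
      rw [show (Polynomial.C 2 : Polynomial ℚ) = 2 from map_ofNat Polynomial.C 2,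
        show (Polynomial.C 4 : Polynomial ℚ) = 4 from map_ofNat Polynomial.C 4]
      ring
    rw [e]
    refine (Polynomial.natDegree_sub_le _ _).trans (max_le
      ((Polynomial.natDegree_sub_le _ _).trans (max_le ?_ ?_)) ?_)
    · exact Polynomial.natDegree_mul_le.trans (by omega)
    · exact (Polynomial.natDegree_C_mul_le _ _).trans (by omega)
    · exact (Polynomial.natDegree_C_mul_le _ _).trans (by omega)
  obtain ⟨dF0, -⟩ := deg_of F0 _ (2*a) h0 dG0
  obtain ⟨dF2, cF2⟩ := deg_of F2 _ (2*a) h2 dG2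
  have cS : ((H337CB.Ps a)^2).coeff (2*a) = 1 := by
    rw [sq, two_mul, Polynomial.coeff_mul_add_eq_of_natDegree_le dPs dPs, Ps_coeff_top]
    norm_num
  have cF2' : F2.coeff (2*a) = 1 := by
    rw [cF2]
    have e : (Polynomial.X - 1) * (H337CB.Ps a)^2 - 2 * (H337CB.P a)^2 -
        4 * H337CB.P a * H337CB.Ps a =
        Polynomial.X * (H337CB.Ps a)^2 - (H337CB.Ps a)^2 - Polynomial.C 2 * (H337CB.P a)^2 -
        Polynomial.C 4 * (H337CB.P a * H337CB.Ps a) := by
      rw [show (Polynomial.C 2 : Polynomial ℚ) = 2 from map_ofNat Polynomial.C 2,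
        show (Polynomial.C 4 : Polynomial ℚ) = 4 from map_ofNat Polynomial.C 4]
      ring
    rw [e, Polynomial.coeff_sub, Polynomial.coeff_sub, Polynomial.coeff_sub, Polynomial.coeff_X_mul,
      Polynomial.coeff_C_mul, Polynomial.coeff_C_mul, cS,
      Polynomial.coeff_eq_zero_of_natDegree_lt (lt_of_le_of_lt dSS (Nat.lt_succ_self _)),
      Polynomial.coeff_eq_zero_of_natDegree_lt (lt_of_le_of_lt dPP (Nat.lt_succ_self _)),
      Polynomial.coeff_eq_zero_of_natDegree_lt (lt_of_le_of_lt dPS (Nat.lt_succ_self _))]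
    norm_num
  have t3 : H337CB.R (2*a + N) 0 (F2 * H337CB.Ps N) = 1 := by
    have h := R_top (2*a + N) 0 (2*a + N) (F2 * H337CB.Ps N)
      (Polynomial.natDegree_mul_le.trans (add_le_add dF2 (H337CB.natDegree_Ps_le _))) (by omega)
    rw [Nat.cast_zero] at h
    rw [h, Polynomial.coeff_mul_add_eq_of_natDegree_le dF2 (H337CB.natDegree_Ps_le _), cF2',
      Ps_coeff_top]
    norm_num
  have c0 : F0.coeff 0 = -1 := by
    have h := congrArg (fun p : Polynomial ℚ => p.coeff 0) h0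
    simp only [Polynomial.mul_coeff_zero, Polynomial.coeff_add, Polynomial.coeff_sub,
      Polynomial.coeff_X_zero, Polynomial.coeff_one_zero, sq, P_coeff_zero] at h
    linear_combination h
  have t1 : H337CB.R (2*a + N) (-2/3) (F0 * H337CB.Ps N) = 1 := by
    have hsw := H337CB.R_swap (2*a + N) N (by omega) (-1) F0
    rw [show (-2/3 : ℚ) = -1 + 1/3 by norm_num, mul_comm F0, hsw, R_neg_one, mul_comm,
      Polynomial.mul_coeff_zero, P_coeff_zero, c0]
    · obtain ⟨r, hr⟩ := hodd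
      have : (-1 : ℚ)^(2*a + N) = -1 := Odd.neg_one_pow ⟨a + r, by omega⟩
      rw [this]; norm_num
    · refine Polynomial.natDegree_mul_le.trans ?_
      have := H337CB.natDegree_P_le N
      omega
  rw [t1, t3]
  ring

/-! ### the core -/

theorem unit_T1 : IsUnit (rho (T 3 + 1)) := by
  rw [PowerSeries.isUnit_iff_constantCoeff]
  have h : PowerSeries.constantCoeff (rho (T 3 + 1)) = 2 := by
    have : e1 (T 3 + 1) = 2 := by
      rw [map_add, e1_T, map_one]; norm_num
    exact this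
  rw [h, isUnit_iff_ne_zero]
  exact two_ne_zero

/-- the residue of the square -/
theorem RR_h (N j : ℕ) (hj : j = a + k) (hN : N = 2*j + 1) (F1 F0 F2 : Polynomial ℚ)
    (h0 : (Polynomial.X + 1) * F0 = (Polynomial.X - 1) * (H337CB.P a)^2 +
        4 * Polynomial.X * H337CB.P a * H337CB.Ps a + 2 * Polynomial.X * (H337CB.Ps a)^2)
    (h2 : (Polynomial.X + 1) * F2 = (Polynomial.X - 1) * (H337CB.Ps a)^2 - 2 * (H337CB.P a)^2 -
        4 * H337CB.P a * H337CB.Ps a) :
    RR N j ((T 3 + T (-3) - 2)^k * T (-(3*(a:ℤ)+1)) *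
      (polyL F0 + 2 * T 1 * polyL F1 + T 2 * polyL F2)) =
      2 + 2 * ((H337CB.R (2*a + N) (-1/3) (F1 * H337CB.Ps N) : ℚ) : ℂ) := by
  have h3 : (T 3 + T (-3) - 2 : LP) = T (-3) * (T 3 - 1)^2 := by
    have h0 : (T 3 : LP) * T (-3) = 1 := T_mul_neg 3
    linear_combination (2 - (T 3 : LP)) * h0
  have h4 : (T 3 + T (-3) - 2 : LP)^k = T (-3 * k) * (T 3 - 1)^(2*k) := by
    rw [h3, mul_pow, ← pow_mul, LaurentPolynomial.T_pow]
    congr 2; ring
  have hT0 : (T (-3 * (k:ℤ)) : LP) * T (-(3*(a:ℤ)+1)) = T (-(3*(j:ℤ)+1)) :=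
    (LaurentPolynomial.T_add _ _).symm.trans (congrArg T (by rw [hj]; push_cast; ring))
  have hT1 : (T (-3 * (k:ℤ)) : LP) * T (-(3*(a:ℤ)+1)) * T 1 = T (-(3*(j:ℤ))) := by
    rw [hT0]
    exact (LaurentPolynomial.T_add _ _).symm.trans (congrArg T (by ring))
  have hT2 : (T (-3 * (k:ℤ)) : LP) * T (-(3*(a:ℤ)+1)) * T 2 = T (1 - 3*(j:ℤ)) := by
    rw [hT0]
    exact (LaurentPolynomial.T_add _ _).symm.trans (congrArg T (by ring))
  have e : (T 3 + T (-3) - 2 : LP)^k * T (-(3*(a:ℤ)+1)) *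
      (polyL F0 + 2 * T 1 * polyL F1 + T 2 * polyL F2) =
      T (-(3*(j:ℤ)+1)) * (T 3 - 1)^(2*k) * polyL F0 +
      C 2 * (T (-(3*(j:ℤ))) * (T 3 - 1)^(2*k) * polyL F1) +
      T (1 - 3*(j:ℤ)) * (T 3 - 1)^(2*k) * polyL F2 := by
    rw [h4, ← hT1, ← hT2, ← hT0, show (C (2:ℂ) : LP) = 2 from map_ofNat C 2]
    ring
  have hk : 2 * k ≤ 2 * N - 1 := by omega
  rw [e, RR_add, RR_add, RR_C, RR_gen N j _ k _ hk, RR_gen N j _ k _ hk, RR_gen N j _ k _ hk]
  have c0 : (((-(3*(j:ℤ)+1) : ℤ) : ℚ)/3 + j - 1/3) = -2/3 := by push_cast; ring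
  have c1 : (((-(3*(j:ℤ)) : ℤ) : ℚ)/3 + j - 1/3) = -1/3 := by push_cast; ring
  have c2 : (((1 - 3*(j:ℤ) : ℤ) : ℚ)/3 + j - 1/3) = 0 := by push_cast; ring
  have hNN : 2*N - 1 - 2*k = 2*a + N := by omega
  rw [c0, c1, c2, hNN]
  have h5 := res_total a k N (by omega) F1 ⟨j, hN⟩ F0 F2 h0 h2
  have h6 := congrArg (fun x : ℚ => (x : ℂ)) h5
  push_cast at h6
  linear_combination h6

/-- **the core identity** -/
theorem core5 (N j : ℕ) (hj : j = a + k) (hN : N = 2*j + 1) (g gs tN ts v1 v0 Ft F' : LP)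
    (z zN m : ℂ) (hz : z ≠ 0)
    (H1 : C z * (g * (dl * (oL - 2)^(N-1))) -
      C zN * ((T 3 + T (-3) - 2)^k * (gs * (dl * (oL - 2)^(2*a)))) = oA * v1 + v0)
    (hv1 : v1 ∈ VV (N-1)) (hv0 : v0 ∈ VV (N-1))
    (H2 : C z * (tN * (dl * (oL - 2)^(N-1))) -
      C zN * ((T 3 + T (-3) - 2)^k * (ts * (dl * (oL - 2)^(2*a)))) = Ft)
    (hFt : Ft ∈ VV (N-1))
    (H3 : ts * (dl * (oL - 2)^(2*a)) = C z * bs (2*a) + F') (hF' : F' ∈ VV (2*a))
    (H4 : gs + invert gs = C m * ts)
    (H5 : (gs - invert gs) * (dl * (oL - 2)^(2*a)) = C ((q^2 - q) * (z * m)) *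
      T (-(3*(a:ℤ)+1)) * (polyL (H337CB.P a) - T 1 * polyL (H337CB.Ps a))^2)
    (F1 : Polynomial ℚ)
    (hF1 : (Polynomial.X + 1) * F1 = (H337CB.P a - Polynomial.X * H337CB.Ps a) *
      (H337CB.P a + H337CB.Ps a)) :
    2 * e1 g = - ((H337CB.R (2*a + N) (-1/3) (F1 * H337CB.Ps N) : ℚ) : ℂ) * (e1 tN * m) := by
  obtain ⟨F0, F2, h0, h2⟩ := exists_F a F1 hF1
  obtain ⟨c0, hc0, hc⟩ := RR_lead N j (by omega)
  have hRh := RR_h a k N j hj hN F1 F0 F2 h0 h2
  set K : LP := (T 3 + T (-3) - 2)^k with hK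
  set h : LP := K * T (-(3*(a:ℤ)+1)) * (polyL F0 + 2 * T 1 * polyL F1 + T 2 * polyL F2) with hh
  set r : ℂ := ((H337CB.R (2*a + N) (-1/3) (F1 * H337CB.Ps N) : ℚ) : ℂ) with hr
  set DN : LP := dl * (oL - 2)^(N-1) with hDN
  set Da : LP := dl * (oL - 2)^(2*a) with hDa
  have iK : invert K = K := invert_K k
  have iDN : invert DN = -DN := invert_D (N-1)
  have iDa : invert Da = -Da := invert_D (2*a)
  have KB : K * bs (2*a) - bs (2*a + 2*k) ∈ VV (2*a + 2*k) := Kk_bs k (2*a)
  have KF : K * F' ∈ VV (2*a + 2*k) := Kk_VV k hF'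
  clear_value DN Da K r
  -- the total mass
  have hN1 : N - 1 = 2*a + 2*k := by omega
  have RK : RR N j (K * (C z * bs (2*a) + F')) = 2 * z := by
    have e : K * (C z * bs (2*a) + F') = C z * bs (N-1) +
        (C z * (K * bs (2*a) - bs (N-1)) + K * F') := by ring
    rw [e, RR_add, RR_C, RR_bs_top N j hN, RR_VV N j hN]
    · ring
    · refine Submodule.add_mem _ ?_ ?_
      · rw [← LaurentPolynomial.smul_eq_C_mul, hN1]
        exact Submodule.smul_mem _ _ KB
      · rw [hN1]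
        exact KF
  have M1 : c0 * e1 tN = 2 * zN := by
    have h1 := congrArg (RR N j) H2
    rw [RR_sub, RR_C, RR_C, hc, H3, RK, RR_VV N j hN hFt] at h1
    apply mul_left_cancel₀ hz
    linear_combination h1
  -- inversion of the formula
  have H1' : -(C z * (invert g * DN)) + C zN * (K * (invert gs * Da)) = -(oB * v1) - v0 := by
    have h1 := congrArg (fun x : LP => invert x) H1
    have i1 : invert (C z * (g * DN)) = -(C z * (invert g * DN)) := by
      rw [map_mul, map_mul, LaurentPolynomial.invert_C, iDN]; ring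
    have i2 : invert (C zN * (K * (gs * Da))) = -(C zN * (K * (invert gs * Da))) := by
      rw [map_mul, map_mul, map_mul, LaurentPolynomial.invert_C, iDa, iK]; ring
    have i3 : invert (oA * v1 + v0) = -(oB * v1) - v0 := by
      rw [map_add, map_mul, invert_oA, invert_VV hv1, invert_VV hv0]; ring
    have h2 : invert (C z * (g * DN) - C zN * (K * (gs * Da))) = invert (oA * v1 + v0) := h1
    rw [map_sub, i1, i2, i3] at h2
    linear_combination h2
  -- the odd part
  have P1 : C z * (g * DN) + C z * (invert g * DN) =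
      C (zN * m) * (K * (ts * Da)) + (-(oL * v1) + (v0 + v0)) := by
    have e : (C (zN * m) : LP) = C zN * C m := map_mul C _ _
    rw [e]
    linear_combination H1 - H1' + (C zN * K * Da) * H4 + v1 * oA_oB
  have E1 : RR N j (C z * (g * DN) + C z * (invert g * DN)) = 2 * (z * (c0 * e1 g)) := by
    rw [RR_add, RR_C, RR_C, hc, hc, e1_invert]
    ring
  have E2 : RR N j (C (zN * m) * (K * (ts * Da)) + (-(oL * v1) + (v0 + v0))) =
      zN * m * (2 * z) - RR N j (oL * v1) := by
    rw [RR_add, RR_C, H3, RK, RR_add, RR_neg, RR_add, RR_VV N j hN hv0]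
    ring
  have E3 : 2 * (z * (c0 * e1 g)) = zN * m * (2 * z) - RR N j (oL * v1) := by
    rw [← E1, P1, E2]
  -- the even part
  obtain ⟨u, hu, hu1⟩ := rho_T1
  have hT3 : (T 3 + 1 : LP) = (T 2 - T 1 + 1) * (T 1 + 1) := by
    have e1 : (T 2 : LP) * T 1 = T 3 := (LaurentPolynomial.T_add _ _).symm
    have e2 : (T 1 : LP) * T 1 = T 2 := (LaurentPolynomial.T_add _ _).symm
    linear_combination e2 - e1
  have hsq : (T 3 + 1 : LP) * h = (T 2 - T 1 + 1) * (T 1 - 1) *
      (K * T (-(3*(a:ℤ)+1)) * (polyL (H337CB.P a) - T 1 * polyL (H337CB.Ps a))^2) := by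
    have q0 := congrArg polyL h0
    have q1 := congrArg polyL hF1
    have q2 := congrArg polyL h2
    simp only [map_mul, map_add, map_sub, map_pow, map_one, map_ofNat, polyL_X] at q0 q1 q2
    have e1 : (T 2 : LP) * T 1 = T 3 := (LaurentPolynomial.T_add _ _).symm
    have e2 : (T 1 : LP) * T 1 = T 2 := (LaurentPolynomial.T_add _ _).symm
    rw [hh]
    generalize (T (-(3*(a:ℤ)+1)) : LP) = V
    rw [← e1, ← e2] at q0 q1 q2 ⊢
    generalize (T 1 : LP) = t at *
    generalize polyL (H337CB.P a) = P at *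
    generalize polyL (H337CB.Ps a) = Q at *
    linear_combination (K * V) * q0 + (2 * t * K * V) * q1 + (t * t * K * V) * q2
  have hord : PowerSeries.X^(2*N) ∣ rho ((oL - 2) * v1 - C (zN * (z * m)) * h) := by
    have hsum : C (q - q^2) * dl * v1 = C z * ((g - invert g) * DN) -
        C zN * (K * ((gs - invert gs) * Da)) := by
      rw [← oA_sub_oB]
      linear_combination -H1 - H1'
    have h1 : (T 3 + 1) * (C (q - q^2) * ((oL - 2) * v1 - C (zN * (z * m)) * h)) =
        (T 2 - T 1 + 1) * (T 1 - 1) * (C z * ((g - invert g) * DN)) := by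
      have h5 : (oL - 2 : LP) * (T 1 + 1) = (T 1 - 1) * dl := by
        have h0 : (T 1 : LP) * T (-1) = 1 := T_mul_neg 1
        unfold oL dl
        linear_combination 2 * h0
      have e3 : (C ((q^2 - q) * (z * m)) : LP) = -(C (q - q^2) * C (z * m)) := by
        rw [← map_mul, ← map_neg]; congr 1; ring
      have e4 : (C (zN * (z * m)) : LP) = C zN * C (z * m) := map_mul C _ _
      rw [e3] at H5
      rw [e4]
      have e5 : (T 3 + 1) * (C (q - q^2) * ((oL - 2) * v1 - C zN * C (z * m) * h)) =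
          (T 2 - T 1 + 1) * (T 1 - 1) * (C (q - q^2) * dl * v1) -
          C (q - q^2) * (C zN * C (z * m)) * ((T 3 + 1) * h) := by
        linear_combination (C (q - q^2) * (oL - 2) * v1) * hT3 +
          ((T 2 - T 1 + 1) * C (q - q^2) * v1) * h5
      rw [e5, hsum, hsq]
      linear_combination (-(T 2 - T 1 + 1) * (T 1 - 1) * C zN * K) * H5
    have h2 : PowerSeries.X^(2*N) ∣ rho ((T 3 + 1) * (C (q - q^2) *
        ((oL - 2) * v1 - C (zN * (z * m)) * h))) := by
      rw [h1, hDN, fac_dl, map_mul, map_mul rho (T 2 - T 1 + 1), hu, map_mul rho (C z), map_mul, map_mul,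
        map_pow, hu, mul_pow, show 2*N = 1 + (2*(N-1)+1) by omega, pow_add, pow_one]
      exact Dvd.intro (rho (T 2 - T 1 + 1) * u * rho (C z) * rho (g - invert g) *
        rho (T (-(((N-1 : ℕ):ℤ)+1)) * (T 1 + 1)) * u^(2*(N-1)+1)) (by ring)
    rw [map_mul, map_mul rho (C (q - q^2)), rho_C, ← mul_assoc] at h2
    have hun : IsUnit (rho (T 3 + 1) * PowerSeries.C (q - q^2)) := by
      refine unit_T1.mul ?_
      rw [PowerSeries.isUnit_iff_constantCoeff, PowerSeries.constantCoeff_C, isUnit_iff_ne_zero]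
      exact q_sub_ne
    exact (hun.dvd_mul_left).mp h2
  have hRv : RR N j (oL * v1) = zN * (z * m) * (2 + 2 * r) := by
    have h1 := RR_high N j (by omega) hord
    rw [RR_sub, RR_C, hRh] at h1
    have e : oL * v1 = (oL - 2) * v1 + C 2 * v1 := by
      rw [show (C (2:ℂ) : LP) = 2 from map_ofNat C 2]; ring
    rw [e, RR_add, RR_C, RR_VV N j hN hv1]
    linear_combination h1
  rw [hRv] at E3
  have hfin : 2 * (z * c0) * (2 * e1 g) = 2 * (z * c0) * (-r * (e1 tN * m)) := by
    linear_combination 2 * E3 + (2 * z * r * m) * M1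
  exact mul_left_cancel₀ (mul_ne_zero two_ne_zero (mul_ne_zero hz hc0)) hfin

end Pool.Agent.NH38.Fork.H5
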