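import Pool.Agent.NH38.Fork.Stubs2
import Pool.Agent.NH38.Step.Hom
import Pool.Agent.H980R3.Slit.All

/-!
Thick slits (helper38): statements of the tasks, part 3: homogeneous limit, numbers, asymptotics,
percolation, conformal map (nothing is proved here).
-/

namespace Pool.Agent.NH38.Fork

open Pool.Agent.H988R2.Perc hiding X
open Pool.Agent.H492C (comb comb2 pairG up1)
open Pool.Agent.NH38.Step (om prs EE zs prF Gen on cardy pom bev)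
open Pool.Agent.NH38.Step.Hom (phi eL DD DD_ne W0 VV bs LP)
open Polynomial Filter Topology

/-! ## numbers -/

/-- the polynomials `v_n`, `s_n` in `Y` (up to `y` for odd `n`) -/
noncomputable def pv (x0 x1 : ℚ) : ℕ → ℚ[X]
  | 0 => C x0
  | 1 => C x1
  | n+2 => C (1 / (3*(n:ℚ)+5)) * (C (6*(n:ℚ)+9) * (if Even n then 1 + X else 1) * pv x0 x1 (n+1) -
      C (3*(n:ℚ)+4) * pv x0 x1 n)

noncomputable def vv (n : ℕ) : ℚ[X] := pv 1 1 n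
noncomputable def sv (n : ℕ) : ℚ[X] := pv 2 3 n

/-- coefficients -/
noncomputable def cj (a j : ℕ) : ℚ := (vv a * sv a).coeff j

/-- residues -/
noncomputable def mj (N j : ℕ) : ℚ :=
  4^j * H337CB.R (N + 2*j + 1) ((j:ℚ) - 2/3) ((1 + X) * H337CB.P N)

/-- the crossing probability of the forked channel, `N` = width, `a` = width of the arms -/
noncomputable def FU (a N : ℕ) : ℚ := (∑ j ∈ Finset.range a, cj a j * mj N j) / 2

/-! ## TASKS H: homogeneous limit -/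

/-- H1: the slit amplitude at `A = B = 1,…,1` -/
def S_OM : Prop := ∀ a : ℕ, Odd a → ∀ w : ℂ, w ≠ 0 →
  (gh (on a) [] (on a) w - gh (on a) [] (on a) w⁻¹) * phi (on (2*a)) w =
    (q^2 - q) * (zs (on (2*a)) * mm (on a) (on a)) * w^(-(3*(a:ℤ)+1)) *
      (((H337CB.P a).map (algebraMap ℚ ℂ)).eval (w^3) -
        w * ((H337CB.Ps a).map (algebraMap ℚ ℂ)).eval (w^3))^2

/-- H2: the limit of the formula `S_M` -/
def S_HL : Prop := ∀ a k : ℕ, Odd a → ∃ F ∈ W0 (2*a + 2*k), ∀ (w : ℂ) (hw : w ∈ DD),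
  zs (on (2*a)) * (gh (on a) (on k) (on a) w * phi (on (2*a + 2*k)) w) -
    zs (on (2*a + 2*k)) * ((om (w^3) - 2)^k * (gh (on a) [] (on a) w * phi (on (2*a)) w)) =
      eL w (DD_ne hw) F

/-- H3: the limit of the formula `S_ZI` -/
def S_HLt : Prop := ∀ a k : ℕ, Odd a → ∃ F ∈ VV (2*a + 2*k), ∀ (w : ℂ) (hw : w ∈ DD),
  zs (on (2*a)) * (tt (on a) (on k) (on a) w * phi (on (2*a + 2*k)) w) -
    zs (on (2*a + 2*k)) * ((om (w^3) - 2)^k * (tt (on a) [] (on a) w * phi (on (2*a)) w)) =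
      eL w (DD_ne hw) F

/-- H4: the total mass of the thin slit -/
def S_HT : Prop := ∀ a : ℕ, Odd a → ∃ F ∈ VV (2*a), ∀ (w : ℂ) (hw : w ∈ DD),
  tt (on a) [] (on a) w * phi (on (2*a)) w =
    eL w (DD_ne hw) (LaurentPolynomial.C (zs (on (2*a))) * bs (2*a) + F)

/-- H5: the residue formula -/
def S_HF : Prop := ∀ (a k : ℕ) (F1 : ℚ[X]), Odd a →
  (X + 1) * F1 = (H337CB.P a - X * H337CB.Ps a) * (H337CB.P a + H337CB.Ps a) →
  2 * gh (on a) (on k) (on a) 1 =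
    ((- H337CB.R (2*a + (2*a+1+2*k)) (-1/3) (F1 * H337CB.Ps (2*a+1+2*k)) : ℚ) : ℂ) *
      (tt (on a) (on k) (on a) 1 * mm (on a) (on a))

/-- H6: polynomial identity -/
def S_AV : Prop := ∀ a : ℕ, Odd a →
  (H337CB.P a - X * H337CB.Ps a) * (H337CB.P a + H337CB.Ps a) =
    (1 + X)^2 * ∑ j ∈ Finset.range a, C (cj a j) * (4 * X)^j * (1 - X)^(2*a - 1 - 2*j)

/-- H7: output: the exact formula for the amplitudes -/
def S_AlgF : Prop := ∀ a k : ℕ, Odd a →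
  G (on a) (1 :: on (2*k)) (on a) = ((FU a (2*a+1+2*k) : ℚ) : ℂ) *
    T (on a) (1 :: on (2*k)) (on a)

/-! ## TASKS N: asymptotics of `FU` -/

noncomputable def kap (a : ℕ) : ℚ := ∏ i ∈ Finset.range a, ((i:ℚ) + 4/3) / (i + 2/3)

/-- coefficients of `P_a P*_a` -/
noncomputable def kj (a j : ℕ) : ℚ := kap a * ∏ i ∈ Finset.range j,
  (((a:ℚ) - i) * (a + 1 + i) * (i + 1/2) / ((i + 2/3) * (i + 4/3) * (i + 1)))

noncomputable def M0 (n : ℕ) : ℚ :=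
  2/3 * ∏ i ∈ Finset.range n, (((i:ℚ) + 1/2) * (i + 5/3) / ((i + 5/6) * (i + 2)))

/-- N1 -/
def S_MJ : Prop := ∀ n j : ℕ, j ≤ n →
  H337CB.R ((2*n+1) + 2*j + 1) ((j:ℚ) - 2/3) ((1 + X) * H337CB.P (2*n+1)) =
    M0 n * ∏ i ∈ Finset.range j, (((i:ℚ) + 1/3) * (i + 2/3) / ((2*n - 1 - 2*i) * (2*n + 4 + 2*i)))

/-- N2 -/
def S_KC : Prop := ∀ a : ℕ, H337CB.P a * H337CB.Ps a =
  ∑ j ∈ Finset.range (a+1), C (kj a j) * (4 * X)^j * (1 - X)^(2*a - 2*j)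

/-- N3: bounds for `cj` -/
def S_CB : Prop := ∀ a j : ℕ, Odd a → 0 ≤ cj a j ∧ cj a j ≤ 2 * kj a j

/-- N4: asymptotics of `cj` -/
def S_CA : Prop := ∀ j : ℕ, Tendsto (fun i : ℕ => ((cj (2*i+1) j / kj (2*i+1) j : ℚ) : ℝ)) atTop (𝓝 1)

/-- N5: the constants -/
noncomputable def Bt : ℝ := ∫ t in (0:ℝ)..1, t^(-(2:ℝ)/3) * (1-t)^(-(1:ℝ)/2)

def S_KAP : Prop := ∀ (a n : ℕ → ℕ) (ρ : ℝ), 0 < ρ → Tendsto a atTop atTop → Tendsto n atTop atTop →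
  Tendsto (fun i => (a i : ℝ) / n i) atTop (𝓝 ρ) →
  Tendsto (fun i => ((kap (a i) * M0 (n i) : ℚ) : ℝ)) atTop (𝓝 (ρ^((2:ℝ)/3) * (3 / Bt)))

/-- N6: the incomplete Beta function -/
def S_BETA : Prop := ∀ ρ : ℝ, 0 < ρ → ρ < 1 →
  HasSum (fun j : ℕ => ρ^((2:ℝ)/3) * (3 / Bt) * (ρ^(2*j) *
    ∏ i ∈ Finset.range j, (((i:ℝ) + 1/3) * (i + 1/2) / ((i + 4/3) * (i + 1)))))
    (2 * cardy ((1 - Real.sqrt (1 - ρ^2)) / 2))

/-- N7: the asymptotics -/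
def S_AsyF : Prop := ∀ (a N : ℕ → ℕ) (ρ : ℝ), 0 < ρ → ρ < 1 → (∀ i, Odd (a i)) →
  (∀ i, Odd (N i)) → (∀ i, 2 * a i < N i) → Tendsto N atTop atTop →
  Tendsto (fun i => 2 * (a i : ℝ) / N i) atTop (𝓝 ρ) →
  Tendsto (fun i => ((FU (a i) (N i) : ℚ) : ℝ)) atTop
    (𝓝 (cardy ((1 - Real.sqrt (1 - ρ^2)) / 2)))

/-! ## TASKS P: percolation -/

/-- Column `u - v`, height `u + v`. Open edges of the fork with arms of widths `a`, `b` and a slit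
of thickness `2k+1`: columns in `[0, a+1+2k+b]`, the edges with both ends at height `≥ 1` and both
ends in columns of `[a, a+1+2k]` are removed. -/
def EAdj (a k b : ℕ) (ω : Conf) (x y : ℤ × ℤ) : Prop :=
  OpenAdj ω x y ∧ (0 ≤ x.1 - x.2 ∧ x.1 - x.2 ≤ ((a+1+2*k+b : ℕ) : ℤ)) ∧
    (0 ≤ y.1 - y.2 ∧ y.1 - y.2 ≤ ((a+1+2*k+b : ℕ) : ℤ)) ∧
    ¬ (1 ≤ x.1 + x.2 ∧ 1 ≤ y.1 + y.2 ∧ (a:ℤ) ≤ x.1 - x.2 ∧ x.1 - x.2 ≤ ((a+1+2*k : ℕ) : ℤ) ∧
      (a:ℤ) ≤ y.1 - y.2 ∧ y.1 - y.2 ≤ ((a+1+2*k : ℕ) : ℤ))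

/-- the inner wall of the left arm is joined to the right wall -/
def ECross (a k b : ℕ) : Set Conf :=
  {ω | ∃ x y : ℤ × ℤ, x.1 - x.2 = a ∧ 1 ≤ x.1 + x.2 ∧ y.1 - y.2 = ((a+1+2*k+b : ℕ) : ℤ) ∧
    Relation.ReflTransGen (EAdj a k b ω) x y}

def S_PF : Prop := ∀ a k b : ℕ, Odd a → Odd b →
  ((perc.real (ECross a k b) : ℝ) : ℂ) * T (on a) (1 :: on (2*k)) (on b) =
    G (on a) (1 :: on (2*k)) (on b)

def S_TF : Prop := ∀ a k b : ℕ, Odd a → Odd b → T (on a) (1 :: on (2*k)) (on b) ≠ 0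

/-- the exact formula -/
def S_ExactF : Prop := ∀ a k : ℕ, Odd a → perc.real (ECross a k a) = ((FU a (2*a+1+2*k) : ℚ) : ℝ)

theorem exactF_of (hP : S_PF) (hT : S_TF) (hA : S_AlgF) : S_ExactF := by
  intro a k ha
  have h := hP a k a ha ha
  rw [hA a k ha] at h
  exact_mod_cast mul_right_cancel₀ (hT a k a ha ha) h

/-! ## TASK F: the conformal map -/

/-- the forked channel: `{-α < X < γ + α}` without the slit `{0 ≤ X ≤ γ, Y ≥ 0}` -/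
def FDom (α γ : ℝ) : Set ℂ := {w | -α < w.re ∧ w.re < γ + α ∧ (0 ≤ w.re → w.re ≤ γ → w.im < 0)}

/-- `f` is an orientation reversing conformal map of the upper half-plane onto the forked channel,
with the boundary correspondence: left wall, inner wall of the left arm, corner `0`, ledge, corner
`γ`, inner wall of the right arm, right wall = `(-∞,0)`, `(0,x)`, `x`, `(x,1-x)`, `1-x`, `(1-x,1)`,
`(1,∞)`. -/
structure UnifF (α γ x : ℝ) (f : ℂ → ℂ) : Prop where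
  holo : DifferentiableOn ℂ (fun z => (starRingEnd ℂ) (f z)) {z | 0 < z.im}
  bij : Set.BijOn f {z | 0 < z.im} (FDom α γ)
  cont : ContinuousOn f {z : ℂ | 0 ≤ z.im ∧ z ≠ 0 ∧ z ≠ 1}
  leftWall : Set.BijOn (fun t : ℝ => f t) (Set.Iio 0) {w | w.re = -α}
  innerWall : Set.BijOn (fun t : ℝ => f t) (Set.Ioo 0 x) {w | w.re = 0 ∧ 0 < w.im}
  corner : f (x : ℂ) = 0
  ledge : Set.BijOn (fun t : ℝ => f t) (Set.Ioo x (1-x)) {w | w.im = 0 ∧ 0 < w.re ∧ w.re < γ}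
  corner' : f ((1 - x : ℝ) : ℂ) = (γ : ℂ)
  innerWall' : Set.BijOn (fun t : ℝ => f t) (Set.Ioo (1-x) 1) {w | w.re = γ ∧ 0 < w.im}
  rightWall : Set.BijOn (fun t : ℝ => f t) (Set.Ioi 1) {w | w.re = γ + α}

def S_UF : Prop := ∀ α γ : ℝ, 0 < α → 0 < γ → ∃ f : ℂ → ℂ,
  UnifF α γ ((1 - Real.sqrt (1 - (2*α/(2*α+γ))^2)) / 2) f

/-! ## TASK G: all widths, the scaling limit -/

/-- Column `u - v`, height `u + v`. Open edges of the forked channel: columns in `[-a, m+b]`; the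
edges with both ends at height `≥ 0` and both ends in columns of `[0, m]` are removed. -/
def FAdj (a m b : ℕ) (ω : Conf) (x y : ℤ × ℤ) : Prop :=
  OpenAdj ω x y ∧ -(a:ℤ) ≤ x.1 - x.2 ∧ x.1 - x.2 ≤ ((m+b : ℕ) : ℤ) ∧
    -(a:ℤ) ≤ y.1 - y.2 ∧ y.1 - y.2 ≤ ((m+b : ℕ) : ℤ) ∧
    ¬ (0 ≤ x.1 + x.2 ∧ 0 ≤ y.1 + y.2 ∧ 0 ≤ x.1 - x.2 ∧ x.1 - x.2 ≤ m ∧
      0 ≤ y.1 - y.2 ∧ y.1 - y.2 ≤ m)

/-- There is an open path of the forked channel from a vertex of the inner wall of the left arm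
(column `0`, height `≥ 0`) to a vertex of the right wall (column `m + b`). -/
def FCross (a m b : ℕ) : Set Conf :=
  {ω | ∃ x y : ℤ × ℤ, x.1 - x.2 = 0 ∧ 0 ≤ x.1 + x.2 ∧ y.1 - y.2 = ((m+b : ℕ) : ℤ) ∧
    Relation.ReflTransGen (FAdj a m b ω) x y}

/-- the scaling limit -/
def S_LimF : Prop := ∀ (α γ : ℝ), 0 < α → 0 < γ → ∀ (δ : ℕ → ℝ) (a m b : ℕ → ℕ),
  (∀ n, 0 < δ n) → Tendsto δ atTop (𝓝 0) → Tendsto (fun n => δ n * a n) atTop (𝓝 α) →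
  Tendsto (fun n => δ n * m n) atTop (𝓝 γ) → Tendsto (fun n => δ n * b n) atTop (𝓝 α) →
  Tendsto (fun n => perc.real (FCross (a n) (m n) (b n))) atTop
    (𝓝 (cardy ((1 - Real.sqrt (1 - (2*α/(2*α+γ))^2)) / 2)))

/-- TASK G: prove `S_ExactF → S_AsyF → S_LimF` -/
def S_GF : Prop := S_ExactF → S_AsyF → S_LimF

end Pool.Agent.NH38.Fork
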