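import Pool.Agent.NH38.Fork.Stubs
import Pool.Agent.NH38.Fork.Stubs3
import Pool.Agent.NH38.Fork.H5a
import Pool.Agent.H988R2.Perc.T16
import Pool.Agent.H988R2.Perc.T25

/-!
Thick slits, task H5 (helper90): the residue formula `S_HF`.
-/

namespace Pool.Agent.NH38.Fork.H5

open Pool.Agent.NH38.Fork
open Pool.Agent.NH38.Step.Hom
open Pool.Agent.NH38.Step (om prs zs on on_odd)
open Pool.Agent.H988R2.Perc (q q_spec q_cube q_ne_zero q_ne_one q_sq_ne_one mu Z chi chi_pos Z_ones)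
open LaurentPolynomial (C invert)
open Pool.Agent

theorem lau_L {n m : ℕ} {f : ℂ → ℂ} {c0 cn : ℂ} (h : Lau n m f c0 cn) :
    ∃ L : LP, ∀ w (hw : w ≠ 0), eL w hw L = f w := by
  obtain ⟨F, _, _, _, hF⟩ := h
  refine ⟨Polynomial.toLaurent F * LaurentPolynomial.T (-(m:ℤ)), fun w hw => ?_⟩
  rw [map_mul, eL_poly, eL_T, ← hF w hw, zpow_neg, zpow_natCast, mul_assoc,
    mul_inv_cancel₀ (pow_ne_zero _ hw), mul_one]

theorem e1_eL (F : LP) : e1 F = eL 1 one_ne_zero F := by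
  induction F using LaurentPolynomial.induction_on' with
  | add p r hp hr => rw [map_add, map_add, hp, hr]
  | C_mul_T n c => rw [map_mul, map_mul, eL_C, eL_T, e1_C, e1_T, one_zpow]

theorem eL_polyL (F : Polynomial ℚ) (w : ℂ) (hw : w ≠ 0) :
    eL w hw (polyL F) = (F.map (algebraMap ℚ ℂ)).eval (w^3) := by
  unfold polyL
  rw [Polynomial.coe_eval₂RingHom, Polynomial.hom_eval₂, Polynomial.eval_map, eL_T]
  congr 1
  ext c
  simp

theorem eL_phiO (n : ℕ) (w : ℂ) (hw : w ≠ 0) :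
    eL w hw (dl * (oL - 2)^n) = phi (on n) w := by
  rw [phi_on, map_mul, map_pow, map_sub, eL_oL, eL_dl, show eL w hw 2 = 2 from map_ofNat (eL w hw) 2]

theorem eL_phiO' (n : ℕ) (w : ℂ) (hw : w ≠ 0) :
    eL w hw dl * eL w hw ((oL - 2)^n) = phi (on n) w := by
  rw [← eL_phiO n w hw, map_mul]

theorem eL_K (k : ℕ) (w : ℂ) (hw : w ≠ 0) :
    eL w hw ((LaurentPolynomial.T 3 + LaurentPolynomial.T (-3) - 2)^k) = (om (w^3) - 2)^k := by
  rw [map_pow, map_sub, map_add, eL_T, eL_T, show eL w hw 2 = 2 from map_ofNat (eL w hw) 2]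
  have h5 : w^(3:ℤ) + w^(-3:ℤ) = om (w^3) := by
    unfold om
    rw [zpow_neg]
    norm_cast
  rw [h5]

theorem zs_on_ne (a : ℕ) : zs (on (2*a)) ≠ 0 := by
  unfold zs
  rw [on_prod, one_pow, one_mul]
  refine div_ne_zero ?_ (pow_ne_zero _ q_ne_zero)
  unfold on
  rw [Z_ones]
  refine mul_ne_zero (pow_ne_zero _ q_ne_zero) ?_
  exact_mod_cast (chi_pos (2*a)).ne'

end Pool.Agent.NH38.Fork.H5

namespace Pool.Agent.NH38.Fork

open Pool.Agent.NH38.Step.Hom
open Pool.Agent.NH38.Step (om prs zs on on_odd)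
open Pool.Agent.H988R2.Perc (q)
open Pool.Agent

/-- TASK H5 -/
theorem t_HF (hOM : S_OM) (hHL : S_HL) (hHLt : S_HLt) (hHT : S_HT) (hDUAL : S_DUAL)
    (hwid : S_wid) (httwid : S_ttwid) : S_HF := by
  intro a k F1 ha hF1
  have ha' : Odd (on a).length := on_odd ha
  have nza : NZ (on a) := on_ne a
  have nzk : NZ (on k) := on_ne k
  have nz0 : NZ ([] : List ℂ) := fun z hz => by simp at hz
  obtain ⟨g, hg⟩ := H5.lau_L (hwid (on a) (on k) (on a) ha' ha' nza nzk nza)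
  obtain ⟨gs, hgs⟩ := H5.lau_L (hwid (on a) [] (on a) ha' ha' nza nz0 nza)
  obtain ⟨tN, htN⟩ := H5.lau_L (httwid (on a) (on k) (on a) ha' ha' nza nzk nza)
  obtain ⟨ts, hts⟩ := H5.lau_L (httwid (on a) [] (on a) ha' ha' nza nz0 nza)
  obtain ⟨F, hF, hFe⟩ := hHL a k ha
  unfold W0 at hF
  rw [Submodule.mem_sup] at hF
  obtain ⟨y, hy, v0, hv0, hyz⟩ := hF
  obtain ⟨v1, hv1, hv1e⟩ := hy
  have hv1e' : oA * v1 = y := hv1e
  obtain ⟨Ft, hFt, hFte⟩ := hHLt a k ha
  obtain ⟨F', hF', hFe'⟩ := hHT a ha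
  have hN1 : 2*a+1+2*k - 1 = 2*a + 2*k := by omega
  have key := H5.core5 a k (2*a+1+2*k) (a+k) rfl (by ring) g gs tN ts v1 v0 Ft F'
    (zs (on (2*a))) (zs (on (2*a + 2*k))) (mm (on a) (on a)) (H5.zs_on_ne a)
    (by
      apply LP_ext DD DD_inf
      intro w hw0 hw
      have h1 := hFe w hw
      rw [← hyz, ← hv1e'] at h1
      rw [← h1, hN1]
      simp only [map_sub, map_mul, H5.eL_phiO', H5.eL_K, eL_C, hg, hgs])
    (by rw [hN1]; exact hv1) (by rw [hN1]; exact hv0)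
    (by
      apply LP_ext DD DD_inf
      intro w hw0 hw
      rw [← hFte w hw, hN1]
      simp only [map_sub, map_mul, H5.eL_phiO', H5.eL_K, eL_C, htN, hts])
    (by rw [hN1]; exact hFt)
    (by
      apply LP_ext DD DD_inf
      intro w hw0 hw
      rw [← hFe' w hw]
      simp only [map_mul, H5.eL_phiO', hts])
    hF'
    (by
      apply LP_ext DD DD_inf
      intro w hw0 hw
      rw [map_add, eL_invert, hgs, hgs, map_mul, eL_C, hts, hDUAL (on a) (on a) w ha' ha' nza nza hw0])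
    (by
      apply LP_ext DD DD_inf
      intro w hw0 hw
      rw [map_mul, map_sub, eL_invert, hgs, hgs, H5.eL_phiO, hOM a ha w hw0]
      simp only [map_mul, map_sub, map_pow, eL_C, eL_T, H5.eL_polyL, zpow_one])
    F1 hF1
  rw [H5.e1_eL, H5.e1_eL, hg, htN] at key
  rw [key]
  push_cast
  ring

end Pool.Agent.NH38.Fork
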