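import Pool.Agent.NH38.Fork.Stubs3

/-!
Thick slits (helper38), task H6: the polynomial identity `S_AV` (helper71).
Both sides are evaluated at rational `x ≠ 1`, with `Y = 4x/(1-x)²`.
-/

namespace Pool.Agent.NH38.Fork

open Polynomial

namespace HV6

lemma pv_natDegree (x0 x1 : ℚ) (n : ℕ) : (pv x0 x1 n).natDegree ≤ n / 2 := by
  induction n using Nat.twoStepInduction with
  | zero => simp [pv]
  | one => simp [pv]
  | more n h0 h1 =>
    rw [pv]
    refine (natDegree_C_mul_le _ _).trans ?_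
    refine (natDegree_sub_le _ _).trans (max_le ?_ ?_)
    · rw [mul_assoc]
      refine (natDegree_C_mul_le _ _).trans ?_
      by_cases he : Even n
      · rw [if_pos he]
        refine natDegree_mul_le.trans ?_
        have h2 : (1 + X : ℚ[X]).natDegree ≤ 1 := by
          rw [add_comm, ← C_1]; exact natDegree_X_add_C _ |>.le
        obtain ⟨m, rfl⟩ := he
        omega
      · rw [if_neg he, one_mul]
        omega
    · refine (natDegree_C_mul_le _ _).trans ?_
      omega

lemma pv_eval (x0 x1 : ℚ) (x Y c : ℚ) (hx : x ≠ 1) (hY : Y = 4 * x / (1 - x)^2) (f : ℕ → ℚ)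
    (h0 : f 0 = c * x0) (h1 : f 1 = c * (1 + x) * x1)
    (hf : ∀ n : ℕ, (3 * (n:ℚ) + 5) * f (n+2) = (6 * (n:ℚ) + 9) * (1 + x) * f (n+1) -
      (3 * (n:ℚ) + 4) * (x - 1)^2 * f n) (n : ℕ) :
    f n = c * (1 - x)^n * (if Even n then 1 else (1 + x) / (1 - x)) * eval Y (pv x0 x1 n) := by
  have hx' : (1 - x) ≠ 0 := sub_ne_zero.mpr (Ne.symm hx)
  induction n using Nat.twoStepInduction with
  | zero => simp [pv, h0]
  | one =>
    rw [h1, if_neg (by decide), pv, eval_C]
    field_simp
  | more n i0 i1 =>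
    have hn : (3 * (n:ℚ) + 5) ≠ 0 := by positivity
    apply mul_left_cancel₀ hn
    rw [hf n, i0, i1, pv]
    by_cases he : Even n
    · have h1' : ¬ Even (n+1) := by rw [Nat.even_add_one]; simpa using he
      have h2' : Even (n+1+1) := by rw [Nat.even_add_one]; simpa using h1'
      rw [if_pos he, if_neg h1', if_pos h2', if_pos he]
      simp only [eval_mul, eval_sub, eval_add, eval_C, eval_X, eval_one]
      rw [hY]
      field_simp
      ring
    · have h1' : Even (n+1) := by rw [Nat.even_add_one]; simpa using he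
      have h2' : ¬ Even (n+1+1) := by rw [Nat.even_add_one]; simpa using h1'
      rw [if_neg he, if_pos h1', if_neg h2', if_neg he]
      simp only [eval_mul, eval_sub, eval_C, eval_one]
      field_simp
      ring

lemma P_ev (n : ℕ) (x : ℚ) : (3 * (n:ℚ) + 5) * eval x (H337CB.P (n+2)) =
    (6 * (n:ℚ) + 9) * (1 + x) * eval x (H337CB.P (n+1)) -
      (3 * (n:ℚ) + 4) * (x - 1)^2 * eval x (H337CB.P n) := by
  have h := congrArg (eval x) (H337CB.P_rec n)
  simpa using h

lemma Ps_ev (n : ℕ) (x : ℚ) : (3 * (n:ℚ) + 5) * eval x (H337CB.Ps (n+2)) =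
    (6 * (n:ℚ) + 9) * (1 + x) * eval x (H337CB.Ps (n+1)) -
      (3 * (n:ℚ) + 4) * (x - 1)^2 * eval x (H337CB.Ps n) := by
  have h := congrArg (eval x) (H337CB.Ps_rec n)
  simpa using h

/-- two polynomials which agree outside `1` are equal -/
lemma poly_eq {f g : ℚ[X]} (h : ∀ x : ℚ, x ≠ 1 → eval x f = eval x g) : f = g := by
  refine Polynomial.eq_of_infinite_eval_eq f g ?_
  refine Set.Infinite.mono (s := {x : ℚ | x ≠ 1}) (fun x hx => h x hx) ?_
  have : ({x : ℚ | x ≠ 1}) = ({1} : Set ℚ)ᶜ := by ext; simp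
  rw [this]
  exact (Set.finite_singleton 1).infinite_compl

lemma sv_eval (x : ℚ) (hx : x ≠ 1) (n : ℕ) : eval x (H337CB.P n) + eval x (H337CB.Ps n) =
    (1 - x)^n * (if Even n then 1 else (1 + x) / (1 - x)) * eval (4 * x / (1 - x)^2) (sv n) := by
  have h := pv_eval 2 3 x _ 1 hx rfl (fun n => eval x (H337CB.P n) + eval x (H337CB.Ps n))
    (by simp [H337CB.P_zero, H337CB.Ps_zero]; norm_num)
    (by simp [H337CB.P_one, H337CB.Ps_one]; ring)
    (fun n => by linear_combination P_ev n x + Ps_ev n x) n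
  rw [one_mul] at h
  exact h

lemma vv_eval (x : ℚ) (hx : x ≠ 1) (n : ℕ) : eval x (H337CB.P n) - x * eval x (H337CB.Ps n) =
    (1 - x) * (1 - x)^n * (if Even n then 1 else (1 + x) / (1 - x)) *
      eval (4 * x / (1 - x)^2) (vv n) :=
  pv_eval 1 1 x _ (1 - x) hx rfl (fun n => eval x (H337CB.P n) - x * eval x (H337CB.Ps n))
    (by simp [H337CB.P_zero, H337CB.Ps_zero])
    (by simp [H337CB.P_one, H337CB.Ps_one]; ring)
    (fun n => by linear_combination P_ev n x - x * Ps_ev n x) n

end HV6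

theorem t_AV : S_AV := by
  intro a ha
  refine HV6.poly_eq fun x hx => ?_
  have hx' : (1 - x) ≠ 0 := sub_ne_zero.mpr (Ne.symm hx)
  have hne : ¬ Even a := Nat.not_even_iff_odd.mpr ha
  rw [eval_mul, eval_sub, eval_add, eval_mul, eval_X, HV6.sv_eval x hx, HV6.vv_eval x hx,
    if_neg hne]
  have hdeg : (vv a * sv a).natDegree < a := by
    refine lt_of_le_of_lt natDegree_mul_le ?_
    have h1 := HV6.pv_natDegree 1 1 a
    have h2 := HV6.pv_natDegree 2 3 a
    unfold vv sv
    obtain ⟨m, rfl⟩ := ha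
    omega
  have hev := eval_eq_sum_range' hdeg (4 * x / (1 - x)^2)
  rw [eval_mul] at hev
  have e1 : (1 - x) * (1 - x)^a * ((1 + x) / (1 - x)) * eval (4 * x / (1 - x)^2) (vv a) *
      ((1 - x)^a * ((1 + x) / (1 - x)) * eval (4 * x / (1 - x)^2) (sv a)) =
      (1 + x)^2 * ((1 - x)^(a+a) / (1 - x) * (eval (4 * x / (1 - x)^2) (vv a) *
        eval (4 * x / (1 - x)^2) (sv a))) := by
    rw [pow_add]
    field_simp
  rw [e1, hev]
  simp only [eval_mul, eval_pow, eval_add, eval_one, eval_X, eval_finsetSum, eval_C, eval_sub,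
    eval_ofNat]
  congr 1
  rw [Finset.mul_sum]
  refine Finset.sum_congr rfl fun j hj => ?_
  have hj' : j < a := Finset.mem_range.mp hj
  have e2 : a + a = (2*a - 1 - 2*j) + 2*j + 1 := by omega
  unfold cj
  rw [e2, pow_succ, pow_add, pow_mul, div_pow]
  field_simp

end Pool.Agent.NH38.Fork
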