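import Pool.Agent.NH38.Fork.H5a
import Pool.Agent.NH38.Fork.H6

/-!
Thick slits, task HG5 (helper70), part a: the core identity for arms of different widths, after
helper90's `H5a`.
-/

namespace Pool.Agent.NH38.HG5C

open Pool.Agent.NH38.Step.Hom
open Pool.Agent.H988R2.Perc (q q_spec q_cube q_ne_zero q_ne_one q_sq_ne_one mu)
open LaurentPolynomial (T C invert)
open Pool.Agent

theorem RR_sum {ι : Type} (N j : ℕ) (s : Finset ι) (f : ι → LP) :
    RR N j (∑ i ∈ s, f i) = ∑ i ∈ s, RR N j (f i) := by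
  classical
  induction s using Finset.induction_on with
  | empty => rw [Finset.sum_empty, Finset.sum_empty, RR_zero]
  | insert i s hi ih => rw [Finset.sum_insert hi, Finset.sum_insert hi, RR_add, ih]

theorem PPs_neg (a : ℕ) (ha : Odd a) :
    (H337CB.P a).eval (-1) + (H337CB.Ps a).eval (-1) = 0 := by
  have h := Fork.HV6.sv_eval (-1) (by norm_num) a
  rw [if_neg (Nat.not_even_iff_odd.mpr ha)] at h
  rw [h]
  norm_num

/-- divisibility by `X + 1` -/
theorem exists_F (a b : ℕ) (ha : Odd a) (hb : Odd b) :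
    ∃ F0 F2 : Polynomial ℚ,
      (Polynomial.X + 1) * F0 = (Polynomial.X - 1) * (H337CB.P a * H337CB.P b) +
        2 * Polynomial.X * (H337CB.P a * H337CB.Ps b + H337CB.P b * H337CB.Ps a) +
        2 * Polynomial.X * (H337CB.Ps a * H337CB.Ps b) ∧
      (Polynomial.X + 1) * F2 = (Polynomial.X - 1) * (H337CB.Ps a * H337CB.Ps b) -
        2 * (H337CB.P a * H337CB.Ps b + H337CB.P b * H337CB.Ps a) -
        2 * (H337CB.P a * H337CB.P b) := by
  have h1 := PPs_neg a ha
  have h2 := PPs_neg b hb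
  have hd : ∀ F : Polynomial ℚ, F.eval (-1) = 0 → (Polynomial.X + 1) ∣ F := by
    intro F hF
    have h4 := Polynomial.dvd_iff_isRoot.mpr (show F.IsRoot (-1) from hF)
    have h5 : (Polynomial.X - Polynomial.C (-1) : Polynomial ℚ) = Polynomial.X + 1 := by
      rw [map_neg, Polynomial.C_1, sub_neg_eq_add]
    rwa [h5] at h4
  obtain ⟨F0, h3⟩ := hd ((Polynomial.X - 1) * (H337CB.P a * H337CB.P b) +
        2 * Polynomial.X * (H337CB.P a * H337CB.Ps b + H337CB.P b * H337CB.Ps a) +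
        2 * Polynomial.X * (H337CB.Ps a * H337CB.Ps b)) (by
    simp only [Polynomial.eval_mul, Polynomial.eval_add, Polynomial.eval_sub, Polynomial.eval_X,
      Polynomial.eval_one, Polynomial.eval_ofNat]
    linear_combination (-2) * ((H337CB.P b).eval (-1) + (H337CB.Ps b).eval (-1)) * h1)
  obtain ⟨F2, h4⟩ := hd ((Polynomial.X - 1) * (H337CB.Ps a * H337CB.Ps b) -
        2 * (H337CB.P a * H337CB.Ps b + H337CB.P b * H337CB.Ps a) -
        2 * (H337CB.P a * H337CB.P b)) (by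
    simp only [Polynomial.eval_mul, Polynomial.eval_add, Polynomial.eval_sub, Polynomial.eval_X,
      Polynomial.eval_one, Polynomial.eval_ofNat]
    linear_combination (-2) * ((H337CB.P b).eval (-1) + (H337CB.Ps b).eval (-1)) * h1)
  exact ⟨F0, F2, h3.symm, h4.symm⟩

variable (a b k : ℕ)

theorem res_total (n N : ℕ) (hn : a + b = 2 * n) (hN : N = 2*n + 2*k + 1)
    (F0 F2 : Polynomial ℚ)
    (h0 : (Polynomial.X + 1) * F0 = (Polynomial.X - 1) * (H337CB.P a * H337CB.P b) +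
        2 * Polynomial.X * (H337CB.P a * H337CB.Ps b + H337CB.P b * H337CB.Ps a) +
        2 * Polynomial.X * (H337CB.Ps a * H337CB.Ps b))
    (h2 : (Polynomial.X + 1) * F2 = (Polynomial.X - 1) * (H337CB.Ps a * H337CB.Ps b) -
        2 * (H337CB.P a * H337CB.Ps b + H337CB.P b * H337CB.Ps a) -
        2 * (H337CB.P a * H337CB.P b)) :
    H337CB.R (a + b + N) (-2/3) (F0 * H337CB.Ps N) = 1 ∧
      H337CB.R (a + b + N) 0 (F2 * H337CB.Ps N) = 1 := by
  have dP := H337CB.natDegree_P_le a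
  have dPs := H337CB.natDegree_Ps_le a
  have dPb := H337CB.natDegree_P_le b
  have dPsb := H337CB.natDegree_Ps_le b
  have dX1 : (Polynomial.X - 1 : Polynomial ℚ).natDegree ≤ 1 := by compute_degree
  have dPP : (H337CB.P a * H337CB.P b).natDegree ≤ a + b :=
    Polynomial.natDegree_mul_le.trans (by omega)
  have dSS : (H337CB.Ps a * H337CB.Ps b).natDegree ≤ a + b :=
    Polynomial.natDegree_mul_le.trans (by omega)
  have dPS : (H337CB.P a * H337CB.Ps b + H337CB.P b * H337CB.Ps a).natDegree ≤ a + b := by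
    refine (Polynomial.natDegree_add_le _ _).trans (max_le ?_ ?_)
    · exact Polynomial.natDegree_mul_le.trans (by omega)
    · exact Polynomial.natDegree_mul_le.trans (by omega)
  have d2 : (2 * Polynomial.X : Polynomial ℚ).natDegree ≤ 1 := by compute_degree
  have dG0 : ((Polynomial.X - 1) * (H337CB.P a * H337CB.P b) +
        2 * Polynomial.X * (H337CB.P a * H337CB.Ps b + H337CB.P b * H337CB.Ps a) +
        2 * Polynomial.X * (H337CB.Ps a * H337CB.Ps b)).natDegree ≤ a + b + 1 := by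
    refine (Polynomial.natDegree_add_le _ _).trans (max_le
      ((Polynomial.natDegree_add_le _ _).trans (max_le ?_ ?_)) ?_)
    · exact Polynomial.natDegree_mul_le.trans (by omega)
    · exact Polynomial.natDegree_mul_le.trans (by omega)
    · exact Polynomial.natDegree_mul_le.trans (by omega)
  have eG2 : (Polynomial.X - 1) * (H337CB.Ps a * H337CB.Ps b) -
        2 * (H337CB.P a * H337CB.Ps b + H337CB.P b * H337CB.Ps a) -
        2 * (H337CB.P a * H337CB.P b) =
      (Polynomial.X - 1) * (H337CB.Ps a * H337CB.Ps b) -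
        Polynomial.C 2 * (H337CB.P a * H337CB.Ps b + H337CB.P b * H337CB.Ps a) -
        Polynomial.C 2 * (H337CB.P a * H337CB.P b) := by
    rw [show (Polynomial.C 2 : Polynomial ℚ) = 2 from map_ofNat Polynomial.C 2]
  have dG2 : ((Polynomial.X - 1) * (H337CB.Ps a * H337CB.Ps b) -
        2 * (H337CB.P a * H337CB.Ps b + H337CB.P b * H337CB.Ps a) -
        2 * (H337CB.P a * H337CB.P b)).natDegree ≤ a + b + 1 := by
    rw [eG2]
    refine (Polynomial.natDegree_sub_le _ _).trans (max_le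
      ((Polynomial.natDegree_sub_le _ _).trans (max_le ?_ ?_)) ?_)
    · exact Polynomial.natDegree_mul_le.trans (by omega)
    · exact (Polynomial.natDegree_C_mul_le _ _).trans (by omega)
    · exact (Polynomial.natDegree_C_mul_le _ _).trans (by omega)
  obtain ⟨dF0, -⟩ := Fork.H5.deg_of F0 _ (a+b) h0 dG0
  obtain ⟨dF2, cF2⟩ := Fork.H5.deg_of F2 _ (a+b) h2 dG2
  have cS : (H337CB.Ps a * H337CB.Ps b).coeff (a+b) = 1 := by
    rw [Polynomial.coeff_mul_add_eq_of_natDegree_le dPs dPsb, Ps_coeff_top, Ps_coeff_top]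
    norm_num
  have cF2' : F2.coeff (a+b) = 1 := by
    rw [cF2, eG2, sub_mul, one_mul, Polynomial.coeff_sub, Polynomial.coeff_sub,
      Polynomial.coeff_sub, Polynomial.coeff_X_mul,
      Polynomial.coeff_C_mul, Polynomial.coeff_C_mul, cS,
      Polynomial.coeff_eq_zero_of_natDegree_lt (lt_of_le_of_lt dSS (Nat.lt_succ_self _)),
      Polynomial.coeff_eq_zero_of_natDegree_lt (lt_of_le_of_lt dPP (Nat.lt_succ_self _)),
      Polynomial.coeff_eq_zero_of_natDegree_lt (lt_of_le_of_lt dPS (Nat.lt_succ_self _))]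
    norm_num
  have t3 : H337CB.R (a + b + N) 0 (F2 * H337CB.Ps N) = 1 := by
    have h := R_top (a + b + N) 0 (a + b + N) (F2 * H337CB.Ps N)
      (Polynomial.natDegree_mul_le.trans (add_le_add dF2 (H337CB.natDegree_Ps_le _))) (by omega)
    rw [Nat.cast_zero] at h
    rw [h, Polynomial.coeff_mul_add_eq_of_natDegree_le dF2 (H337CB.natDegree_Ps_le _), cF2',
      Ps_coeff_top]
    norm_num
  have c0 : F0.coeff 0 = -1 := by
    have h := congrArg (fun p : Polynomial ℚ => p.coeff 0) h0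
    simp only [Polynomial.mul_coeff_zero, Polynomial.coeff_add, Polynomial.coeff_sub,
      Polynomial.coeff_X_zero, Polynomial.coeff_one_zero, P_coeff_zero] at h
    linear_combination h
  have t1 : H337CB.R (a + b + N) (-2/3) (F0 * H337CB.Ps N) = 1 := by
    have hsw := H337CB.R_swap (a + b + N) N (by omega) (-1) F0
    rw [show (-2/3 : ℚ) = -1 + 1/3 by norm_num, mul_comm F0, hsw, R_neg_one, mul_comm,
      Polynomial.mul_coeff_zero, P_coeff_zero, c0]
    · have : (-1 : ℚ)^(a + b + N) = -1 := Odd.neg_one_pow ⟨2*n + k, by omega⟩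
      rw [this]; norm_num
    · refine Polynomial.natDegree_mul_le.trans ?_
      have := H337CB.natDegree_P_le N
      omega
  exact ⟨t1, t3⟩

/-! ### the core -/

theorem K_pow (k : ℕ) : (T 3 + T (-3) - 2 : LP)^k = T (-3 * (k:ℤ)) * (T 3 - 1)^(2*k) := by
  have h3 : (T 3 + T (-3) - 2 : LP) = T (-3) * (T 3 - 1)^2 := by
    have h0 : (T 3 : LP) * T (-3) = 1 := T_mul_neg 3
    linear_combination (2 - (T 3 : LP)) * h0
  rw [h3, mul_pow, ← pow_mul, LaurentPolynomial.T_pow]
  congr 2; ring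

/-- general term -/
theorem RR_K (n N j : ℕ) (hj : j = n + k) (hN : N = 2*j + 1) (e : ℤ) (G : Polynomial ℚ) :
    RR N j ((T 3 + T (-3) - 2)^k * T (-(3*(n:ℤ)+1)) * (T e * polyL G)) =
      ((H337CB.R (2*n + N) (((e:ℤ):ℚ)/3 - 2/3) (G * H337CB.Ps N) : ℚ) : ℂ) := by
  have hT0 : (T (-3 * (k:ℤ)) : LP) * T (-(3*(n:ℤ)+1)) * T e = T (e - (3*(j:ℤ)+1)) := by
    rw [← LaurentPolynomial.T_add, ← LaurentPolynomial.T_add]
    congr 1
    rw [hj]; push_cast; ring
  have e1 : (T 3 + T (-3) - 2 : LP)^k * T (-(3*(n:ℤ)+1)) * (T e * polyL G) =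
      T (e - (3*(j:ℤ)+1)) * (T 3 - 1)^(2*k) * polyL G := by
    rw [K_pow, ← hT0]
    ring
  have hk : 2 * k ≤ 2 * N - 1 := by omega
  have hNN : 2*N - 1 - 2*k = 2*n + N := by omega
  have hc : (((e - (3*(j:ℤ)+1) : ℤ)) : ℚ)/3 + j - 1/3 = ((e:ℤ):ℚ)/3 - 2/3 := by
    push_cast
    ring
  rw [e1, RR_gen N j _ k _ hk, hNN, hc]

theorem RR_K0 (n N j : ℕ) (hj : j = n + k) (hN : N = 2*j + 1) (d : ℕ → ℂ) :
    RR N j ((T 3 + T (-3) - 2)^k * T (-(3*(n:ℤ)+1)) *
      (∑ i ∈ Finset.range (2*n+1), C (d i) * T (3*(i:ℤ)))) = - d 0 := by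
  have hx : ∀ i : ℕ, (T (3*(i:ℤ)) : LP) = polyL (Polynomial.X^i) := by
    intro i
    rw [map_pow, polyL_X, LaurentPolynomial.T_pow, mul_comm]
  have ht : ∀ i ∈ Finset.range (2*n+1), RR N j ((T 3 + T (-3) - 2)^k * T (-(3*(n:ℤ)+1)) *
      (C (d i) * T (3*(i:ℤ)))) = if i = 0 then - d 0 else 0 := by
    intro i hi
    have hi' : i < 2*n+1 := Finset.mem_range.mp hi
    have e1 : ((T 3 + T (-3) - 2)^k * T (-(3*(n:ℤ)+1)) * (C (d i) * T (3*(i:ℤ))) : LP) =
        C (d i) * ((T 3 + T (-3) - 2)^k * T (-(3*(n:ℤ)+1)) * (T 0 * polyL (Polynomial.X^i))) := by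
      rw [hx, LaurentPolynomial.T_zero]
      ring
    rw [e1, RR_C, RR_K k n N j hj hN]
    have hsw := H337CB.R_swap (2*n + N) N (by omega) (-1) (Polynomial.X^i)
    have hdeg : (Polynomial.X^i * H337CB.P N).natDegree ≤ 2*n + N := by
      refine Polynomial.natDegree_mul_le.trans ?_
      have h1 := H337CB.natDegree_P_le N
      have h2 : (Polynomial.X^i : Polynomial ℚ).natDegree ≤ i := Polynomial.natDegree_X_pow_le i
      omega
    have h3 : H337CB.R (2*n + N) (((0:ℤ):ℚ)/3 - 2/3) (Polynomial.X^i * H337CB.Ps N) =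
        if i = 0 then -1 else 0 := by
      rw [show (((0:ℤ):ℚ)/3 - 2/3 : ℚ) = -1 + 1/3 by norm_num, mul_comm (Polynomial.X^i), hsw,
        mul_comm (H337CB.P N), R_neg_one _ _ hdeg, Polynomial.mul_coeff_zero, P_coeff_zero, Polynomial.coeff_X_pow]
      have : (-1 : ℚ)^(2*n + N) = -1 := Odd.neg_one_pow ⟨n + j, by omega⟩
      rw [this]
      by_cases h0 : i = 0
      · rw [if_pos h0.symm, if_pos h0]; norm_num
      · rw [if_neg (Ne.symm h0), if_neg h0]; norm_num
    rw [h3]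
    by_cases h0 : i = 0
    · rw [if_pos h0, if_pos h0, h0]; push_cast; ring
    · rw [if_neg h0, if_neg h0]; push_cast; ring
  rw [Finset.mul_sum, RR_sum, Finset.sum_congr rfl ht, Finset.sum_ite_eq']
  simp

theorem RR_K2 (n N j : ℕ) (hj : j = n + k) (hN : N = 2*j + 1) (d : ℕ → ℂ) :
    RR N j ((T 3 + T (-3) - 2)^k * T (-(3*(n:ℤ)+1)) *
      (T 2 * ∑ i ∈ Finset.range (2*n+1), C (d i) * T (3*((2*n - i : ℕ):ℤ)))) = d 0 := by
  have hx : ∀ i : ℕ, (T (3*(i:ℤ)) : LP) = polyL (Polynomial.X^i) := by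
    intro i
    rw [map_pow, polyL_X, LaurentPolynomial.T_pow, mul_comm]
  have ht : ∀ i ∈ Finset.range (2*n+1), RR N j ((T 3 + T (-3) - 2)^k * T (-(3*(n:ℤ)+1)) *
      (T 2 * (C (d i) * T (3*((2*n - i : ℕ):ℤ))))) = if i = 0 then d 0 else 0 := by
    intro i hi
    have hi' : i < 2*n+1 := Finset.mem_range.mp hi
    have e1 : ((T 3 + T (-3) - 2)^k * T (-(3*(n:ℤ)+1)) *
        (T 2 * (C (d i) * T (3*((2*n - i : ℕ):ℤ)))) : LP) =
        C (d i) * ((T 3 + T (-3) - 2)^k * T (-(3*(n:ℤ)+1)) *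
          (T 2 * polyL (Polynomial.X^(2*n-i)))) := by
      rw [hx]
      ring
    rw [e1, RR_C, RR_K k n N j hj hN]
    have hd1 : (Polynomial.X^(2*n-i) : Polynomial ℚ).natDegree ≤ 2*n :=
      (Polynomial.natDegree_X_pow_le _).trans (by omega)
    have hdeg : (Polynomial.X^(2*n-i) * H337CB.Ps N).natDegree ≤ 2*n + N :=
      Polynomial.natDegree_mul_le.trans (add_le_add hd1 (H337CB.natDegree_Ps_le _))
    have h3 : H337CB.R (2*n + N) (((2:ℤ):ℚ)/3 - 2/3) (Polynomial.X^(2*n-i) * H337CB.Ps N) =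
        if i = 0 then 1 else 0 := by
      have h := R_top (2*n + N) 0 (2*n + N) (Polynomial.X^(2*n-i) * H337CB.Ps N) hdeg (by omega)
      rw [Nat.cast_zero] at h
      rw [show (((2:ℤ):ℚ)/3 - 2/3 : ℚ) = 0 by norm_num, h,
        Polynomial.coeff_mul_add_eq_of_natDegree_le hd1 (H337CB.natDegree_Ps_le _),
        Ps_coeff_top, Polynomial.coeff_X_pow, mul_one]
      by_cases h0 : i = 0
      · rw [if_pos (by omega), if_pos h0]
      · rw [if_neg (by omega), if_neg h0]
    rw [h3]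
    by_cases h0 : i = 0
    · rw [if_pos h0, if_pos h0, h0]; push_cast; ring
    · rw [if_neg h0, if_neg h0]; push_cast; ring
  rw [Finset.mul_sum, Finset.mul_sum, RR_sum, Finset.sum_congr rfl ht, Finset.sum_ite_eq']
  simp

/-- **the core identity** -/
theorem core5 (ha : Odd a) (hb : Odd b) (n N j : ℕ) (hn : a + b = 2 * n) (hj : j = n + k)
    (hN : N = 2*j + 1) (g gs tN ts v1 v0 Ft F' : LP)
    (z zN m : ℂ) (hz : z ≠ 0) (d : ℕ → ℂ) (hd : d 0 = -(z * m))
    (H1 : C z * (g * (dl * (oL - 2)^(N-1))) -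
      C zN * ((T 3 + T (-3) - 2)^k * (gs * (dl * (oL - 2)^(a+b)))) = oA * v1 + v0)
    (hv1 : v1 ∈ VV (N-1)) (hv0 : v0 ∈ VV (N-1))
    (H2 : C z * (tN * (dl * (oL - 2)^(N-1))) -
      C zN * ((T 3 + T (-3) - 2)^k * (ts * (dl * (oL - 2)^(a+b)))) = Ft)
    (hFt : Ft ∈ VV (N-1))
    (H3 : ts * (dl * (oL - 2)^(a+b)) = C z * bs (a+b) + F') (hF' : F' ∈ VV (a+b))
    (H4 : (gs + invert gs) * (dl * (oL - 2)^(a+b)) = T (-(3*(n:ℤ)+1)) *
      ((∑ i ∈ Finset.range (2*n+1), C (d i) * T (3*(i:ℤ))) -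
        C (z * m) * (T 1 * polyL (H337CB.P b * H337CB.Ps a - H337CB.Ps b * H337CB.P a)) -
        T 2 * ∑ i ∈ Finset.range (2*n+1), C (d i) * T (3*((2*n - i : ℕ):ℤ))))
    (H5 : (gs - invert gs) * (dl * (oL - 2)^(a+b)) = C ((q^2 - q) * (z * m)) *
      T (-(3*(n:ℤ)+1)) * ((polyL (H337CB.P a) - T 1 * polyL (H337CB.Ps a)) *
        (polyL (H337CB.P b) - T 1 * polyL (H337CB.Ps b))))
    (F1 : Polynomial ℚ)
    (hF1 : (Polynomial.X + 1) * F1 = (H337CB.P b - Polynomial.X * H337CB.Ps b) *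
      (H337CB.P a + H337CB.Ps a)) :
    2 * e1 g = - ((H337CB.R (a + b + N) (-1/3) (F1 * H337CB.Ps N) : ℚ) : ℂ) * (e1 tN * m) := by
  obtain ⟨F0, F2, h0, h2⟩ := exists_F a b ha hb
  obtain ⟨c0, hc0, hc⟩ := RR_lead N j (by omega)
  obtain ⟨t1, t3⟩ := res_total a b k n N hn (by omega) F0 F2 h0 h2
  set E : Polynomial ℚ := H337CB.P b * H337CB.Ps a - H337CB.Ps b * H337CB.P a with hE
  set s : ℂ := ((H337CB.R (2*n + N) (-1/3) (E * H337CB.Ps N) : ℚ) : ℂ) with hs
  set r : ℂ := ((H337CB.R (2*n + N) (-1/3) (F1 * H337CB.Ps N) : ℚ) : ℂ) with hr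
  set K : LP := (T 3 + T (-3) - 2)^k with hK
  set h : LP := K * T (-(3*(n:ℤ)+1)) * (T 0 * polyL F0 + T 1 * polyL (2 * F1 - E) +
    T 2 * polyL F2) with hh
  have hRh : RR N j h = 2 + (2 * r - s) := by
    have e1 : h = K * T (-(3*(n:ℤ)+1)) * (T 0 * polyL F0) +
        (C 2 * (K * T (-(3*(n:ℤ)+1)) * (T 1 * polyL F1)) -
          K * T (-(3*(n:ℤ)+1)) * (T 1 * polyL E)) +
        K * T (-(3*(n:ℤ)+1)) * (T 2 * polyL F2) := by
      rw [hh, map_sub, map_mul, show polyL (2 : Polynomial ℚ) = 2 from map_ofNat polyL 2,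
        show (C (2:ℂ) : LP) = 2 from map_ofNat C 2]
      ring
    rw [e1, RR_add, RR_add, RR_sub, RR_C, hK, RR_K k n N j hj hN, RR_K k n N j hj hN,
      RR_K k n N j hj hN, RR_K k n N j hj hN,
      show (((0:ℤ):ℚ)/3 - 2/3 : ℚ) = -2/3 by norm_num,
      show (((1:ℤ):ℚ)/3 - 2/3 : ℚ) = -1/3 by norm_num,
      show (((2:ℤ):ℚ)/3 - 2/3 : ℚ) = 0 by norm_num, ← hr, ← hs, ← hn, t1, t3]
    push_cast
    ring
  have hX1 : RR N j (K * ((gs + invert gs) * (dl * (oL - 2)^(a+b)))) = z * m * (2 - s) := by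
    have e1 : K * ((gs + invert gs) * (dl * (oL - 2)^(a+b))) =
        K * T (-(3*(n:ℤ)+1)) * (∑ i ∈ Finset.range (2*n+1), C (d i) * T (3*(i:ℤ))) -
        C (z * m) * (K * T (-(3*(n:ℤ)+1)) * (T 1 * polyL E)) -
        K * T (-(3*(n:ℤ)+1)) *
          (T 2 * ∑ i ∈ Finset.range (2*n+1), C (d i) * T (3*((2*n - i : ℕ):ℤ))) := by
      rw [H4]
      ring
    rw [e1, RR_sub, RR_sub, RR_C, hK, RR_K0 k n N j hj hN, RR_K k n N j hj hN,
      RR_K2 k n N j hj hN, show (((1:ℤ):ℚ)/3 - 2/3 : ℚ) = -1/3 by norm_num, ← hs, hd]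
    ring
  rw [hn, ← hr]
  set DN : LP := dl * (oL - 2)^(N-1) with hDN
  set Da : LP := dl * (oL - 2)^(a+b) with hDa
  have iK : invert K = K := Fork.H5.invert_K k
  have iDN : invert DN = -DN := Fork.H5.invert_D (N-1)
  have iDa : invert Da = -Da := Fork.H5.invert_D (a+b)
  have KB : K * bs (a+b) - bs (a+b + 2*k) ∈ VV (a+b + 2*k) := Fork.H5.Kk_bs k (a+b)
  have KF : K * F' ∈ VV (a+b + 2*k) := Fork.H5.Kk_VV k hF'
  clear_value DN Da K r s
  -- the total mass
  have hN1 : N - 1 = a+b + 2*k := by omega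
  have RK : RR N j (K * (C z * bs (a+b) + F')) = 2 * z := by
    have e : K * (C z * bs (a+b) + F') = C z * bs (N-1) +
        (C z * (K * bs (a+b) - bs (N-1)) + K * F') := by ring
    rw [e, RR_add, RR_C, RR_bs_top N j hN, RR_VV N j hN]
    · ring
    · refine Submodule.add_mem _ ?_ ?_
      · rw [← LaurentPolynomial.smul_eq_C_mul, hN1]
        exact Submodule.smul_mem _ _ KB
      · rw [hN1]
        exact KF
  have M1 : c0 * e1 tN = 2 * zN := by
    have h1 := congrArg (RR N j) H2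
    rw [RR_sub, RR_C, RR_C, hc, H3, RK, RR_VV N j hN hFt] at h1
    apply mul_left_cancel₀ hz
    linear_combination h1
  -- inversion of the formula
  have H1' : -(C z * (invert g * DN)) + C zN * (K * (invert gs * Da)) = -(oB * v1) - v0 := by
    have h1 := congrArg (fun x : LP => invert x) H1
    have i1 : invert (C z * (g * DN)) = -(C z * (invert g * DN)) := by
      rw [map_mul, map_mul, LaurentPolynomial.invert_C, iDN]; ring
    have i2 : invert (C zN * (K * (gs * Da))) = -(C zN * (K * (invert gs * Da))) := by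
      rw [map_mul, map_mul, map_mul, LaurentPolynomial.invert_C, iDa, iK]; ring
    have i3 : invert (oA * v1 + v0) = -(oB * v1) - v0 := by
      rw [map_add, map_mul, invert_oA, invert_VV hv1, invert_VV hv0]; ring
    have h2 : invert (C z * (g * DN) - C zN * (K * (gs * Da))) = invert (oA * v1 + v0) := h1
    rw [map_sub, i1, i2, i3] at h2
    linear_combination h2
  -- the odd part
  have P1 : C z * (g * DN) + C z * (invert g * DN) =
      C zN * (K * ((gs + invert gs) * Da)) + (-(oL * v1) + (v0 + v0)) := by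
    linear_combination H1 - H1' + v1 * oA_oB
  have E1 : RR N j (C z * (g * DN) + C z * (invert g * DN)) = 2 * (z * (c0 * e1 g)) := by
    rw [RR_add, RR_C, RR_C, hc, hc, e1_invert]
    ring
  have E2 : RR N j (C zN * (K * ((gs + invert gs) * Da)) + (-(oL * v1) + (v0 + v0))) =
      zN * (z * m * (2 - s)) - RR N j (oL * v1) := by
    rw [RR_add, RR_C, hX1, RR_add, Fork.H5.RR_neg, RR_add, RR_VV N j hN hv0]
    ring
  have E3 : 2 * (z * (c0 * e1 g)) = zN * (z * m * (2 - s)) - RR N j (oL * v1) := by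
    rw [← E1, P1, E2]
  -- the even part
  obtain ⟨u, hu, hu1⟩ := rho_T1
  have hT3 : (T 3 + 1 : LP) = (T 2 - T 1 + 1) * (T 1 + 1) := by
    have e1 : (T 2 : LP) * T 1 = T 3 := (LaurentPolynomial.T_add _ _).symm
    have e2 : (T 1 : LP) * T 1 = T 2 := (LaurentPolynomial.T_add _ _).symm
    linear_combination e2 - e1
  have hsq : (T 3 + 1 : LP) * h = (T 2 - T 1 + 1) * (T 1 - 1) *
      (K * T (-(3*(n:ℤ)+1)) * ((polyL (H337CB.P a) - T 1 * polyL (H337CB.Ps a)) *
        (polyL (H337CB.P b) - T 1 * polyL (H337CB.Ps b)))) := by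
    have q0 := congrArg polyL h0
    have q1 := congrArg polyL hF1
    have q2 := congrArg polyL h2
    have qE := congrArg polyL hE
    simp only [map_mul, map_add, map_sub, map_one, map_ofNat, polyL_X] at q0 q1 q2 qE
    have e1 : (T 2 : LP) * T 1 = T 3 := (LaurentPolynomial.T_add _ _).symm
    have e2 : (T 1 : LP) * T 1 = T 2 := (LaurentPolynomial.T_add _ _).symm
    rw [hh]
    simp only [map_mul, map_sub, map_ofNat, LaurentPolynomial.T_zero]
    generalize (T (-(3*(n:ℤ)+1)) : LP) = V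
    rw [← e1, ← e2] at q0 q1 q2 ⊢
    generalize (T 1 : LP) = t at *
    generalize polyL E = EE at *
    generalize polyL (H337CB.P a) = P at *
    generalize polyL (H337CB.Ps a) = Q at *
    generalize polyL (H337CB.P b) = P' at *
    generalize polyL (H337CB.Ps b) = Q' at *
    linear_combination (K * V) * q0 + (2 * t * K * V) * q1 + (t * t * K * V) * q2 -
      (t * K * V * (t * t * t + 1)) * qE
  have hord : PowerSeries.X^(2*N) ∣ rho ((oL - 2) * v1 - C (zN * (z * m)) * h) := by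
    have hsum : C (q - q^2) * dl * v1 = C z * ((g - invert g) * DN) -
        C zN * (K * ((gs - invert gs) * Da)) := by
      rw [← oA_sub_oB]
      linear_combination -H1 - H1'
    have h1 : (T 3 + 1) * (C (q - q^2) * ((oL - 2) * v1 - C (zN * (z * m)) * h)) =
        (T 2 - T 1 + 1) * (T 1 - 1) * (C z * ((g - invert g) * DN)) := by
      have h5 : (oL - 2 : LP) * (T 1 + 1) = (T 1 - 1) * dl := by
        have h0 : (T 1 : LP) * T (-1) = 1 := T_mul_neg 1
        unfold oL dl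
        linear_combination 2 * h0
      have e3 : (C ((q^2 - q) * (z * m)) : LP) = -(C (q - q^2) * C (z * m)) := by
        rw [← map_mul, ← map_neg]; congr 1; ring
      have e4 : (C (zN * (z * m)) : LP) = C zN * C (z * m) := map_mul C _ _
      rw [e3] at H5
      rw [e4]
      have e5 : (T 3 + 1) * (C (q - q^2) * ((oL - 2) * v1 - C zN * C (z * m) * h)) =
          (T 2 - T 1 + 1) * (T 1 - 1) * (C (q - q^2) * dl * v1) -
          C (q - q^2) * (C zN * C (z * m)) * ((T 3 + 1) * h) := by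
        linear_combination (C (q - q^2) * (oL - 2) * v1) * hT3 +
          ((T 2 - T 1 + 1) * C (q - q^2) * v1) * h5
      rw [e5, hsum, hsq]
      linear_combination (-(T 2 - T 1 + 1) * (T 1 - 1) * C zN * K) * H5
    have h2 : PowerSeries.X^(2*N) ∣ rho ((T 3 + 1) * (C (q - q^2) *
        ((oL - 2) * v1 - C (zN * (z * m)) * h))) := by
      rw [h1, hDN, fac_dl, map_mul, map_mul rho (T 2 - T 1 + 1), hu, map_mul rho (C z), map_mul, map_mul,
        map_pow, hu, mul_pow, show 2*N = 1 + (2*(N-1)+1) by omega, pow_add, pow_one]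
      exact Dvd.intro (rho (T 2 - T 1 + 1) * u * rho (C z) * rho (g - invert g) *
        rho (T (-(((N-1 : ℕ):ℤ)+1)) * (T 1 + 1)) * u^(2*(N-1)+1)) (by ring)
    rw [map_mul, map_mul rho (C (q - q^2)), rho_C, ← mul_assoc] at h2
    have hun : IsUnit (rho (T 3 + 1) * PowerSeries.C (q - q^2)) := by
      refine Fork.H5.unit_T1.mul ?_
      rw [PowerSeries.isUnit_iff_constantCoeff, PowerSeries.constantCoeff_C, isUnit_iff_ne_zero]
      exact q_sub_ne
    exact (hun.dvd_mul_left).mp h2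
  have hRv : RR N j (oL * v1) = zN * (z * m) * (2 + (2 * r - s)) := by
    have h1 := RR_high N j (by omega) hord
    rw [RR_sub, RR_C, hRh] at h1
    have e : oL * v1 = (oL - 2) * v1 + C 2 * v1 := by
      rw [show (C (2:ℂ) : LP) = 2 from map_ofNat C 2]; ring
    rw [e, RR_add, RR_C, RR_VV N j hN hv1]
    linear_combination h1
  rw [hRv] at E3
  have hfin : 2 * (z * c0) * (2 * e1 g) = 2 * (z * c0) * (-r * (e1 tN * m)) := by
    linear_combination 2 * E3 + (2 * z * r * m) * M1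
  exact mul_left_cancel₀ (mul_ne_zero two_ne_zero (mul_ne_zero hz hc0)) hfin

end Pool.Agent.NH38.HG5C
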