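import Pool.Agent.NH38.Fork.Stubs4
import Pool.Agent.NH38.Fork.H5
import Pool.Agent.NH38.Fork.HG5a

/-!
Thick slits, task HG5 (helper70): the residue formula `S_HFg`, arms of different widths.
-/

namespace Pool.Agent.NH38.HG5C

open Pool.Agent.NH38.Step.Hom
open LaurentPolynomial (T C invert)
open Pool.Agent

theorem eL_sum0 (d0 : Polynomial ℂ) (s : ℕ) (hd : d0.natDegree ≤ s) (w : ℂ) (hw : w ≠ 0) :
    eL w hw (∑ i ∈ Finset.range (s+1), C (d0.coeff i) * T (3*(i:ℤ))) = d0.eval (w^3) := by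
  rw [map_sum, Polynomial.eval_eq_sum_range' (show d0.natDegree < s+1 by omega)]
  refine Finset.sum_congr rfl fun i _ => ?_
  rw [map_mul, eL_C, eL_T, ← pow_mul]
  congr 1

theorem eL_sum2 (d0 : Polynomial ℂ) (s : ℕ) (hd : d0.natDegree ≤ s) (w : ℂ) (hw : w ≠ 0) :
    eL w hw (∑ i ∈ Finset.range (s+1), C (d0.coeff i) * T (3*((s - i : ℕ):ℤ))) =
      (Polynomial.reflect s d0).eval (w^3) := by
  have h1 : (Polynomial.reflect s d0).natDegree < s+1 := by
    have := Polynomial.natDegree_reflect_le (N := s) (p := d0)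
    have h2 : max s d0.natDegree = s := max_eq_left hd
    omega
  rw [map_sum, Polynomial.eval_eq_sum_range' h1,
    ← Finset.sum_range_reflect (fun i => (Polynomial.reflect s d0).coeff i * (w^3)^i)]
  refine Finset.sum_congr rfl fun i hi => ?_
  have hi' : i < s + 1 := Finset.mem_range.mp hi
  have h2 : s + 1 - 1 - i = s - i := by omega
  rw [map_mul, eL_C, eL_T, h2, Polynomial.coeff_reflect, Polynomial.revAt_le (by omega),
    show s - (s - i) = i by omega, ← pow_mul]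
  congr 1

end Pool.Agent.NH38.HG5C

namespace Pool.Agent.NH38.Fork

open Pool.Agent.NH38.Step.Hom
open Pool.Agent.NH38.Step (om prs zs on on_odd)
open Pool.Agent.H988R2.Perc (q)
open Pool.Agent

/-- TASK HG5 -/
theorem t_HFg (hOM : S_OMg) (hHL : S_HLg) (hHLt : S_HLtg) (hHT : S_HTg)
    (hwid : S_wid) (httwid : S_ttwid) : S_HFg := by
  intro a b k F1 ha hb hF1
  have ha' : Odd (on a).length := on_odd ha
  have hb' : Odd (on b).length := on_odd hb
  have nza : NZ (on a) := on_ne a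
  have nzb : NZ (on b) := on_ne b
  have nzk : NZ (on k) := on_ne k
  have nz0 : NZ ([] : List ℂ) := fun z hz => by simp at hz
  have hn : a + b = 2 * ((a+b)/2) := by
    obtain ⟨r, hr⟩ := ha
    obtain ⟨s, hs⟩ := hb
    omega
  obtain ⟨g, hg⟩ := H5.lau_L (hwid (on a) (on k) (on b) ha' hb' nza nzk nzb)
  obtain ⟨gs, hgs⟩ := H5.lau_L (hwid (on a) [] (on b) ha' hb' nza nz0 nzb)
  obtain ⟨tN, htN⟩ := H5.lau_L (httwid (on a) (on k) (on b) ha' hb' nza nzk nzb)
  obtain ⟨ts, hts⟩ := H5.lau_L (httwid (on a) [] (on b) ha' hb' nza nz0 nzb)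
  obtain ⟨F, hF, hFe⟩ := hHL a b k ha hb
  unfold W0 at hF
  rw [Submodule.mem_sup] at hF
  obtain ⟨y, hy, v0, hv0, hyz⟩ := hF
  obtain ⟨v1, hv1, hv1e⟩ := hy
  have hv1e' : oA * v1 = y := hv1e
  obtain ⟨Ft, hFt, hFte⟩ := hHLt a b k ha hb
  obtain ⟨F', hF', hFe'⟩ := hHT a b ha hb
  obtain ⟨d0, hd0, hd00, hd⟩ := hOM a b ha hb
  have hN1 : a+b+1+2*k - 1 = a + b + 2*k := by omega
  have hz : zs (on (a+b)) ≠ 0 := by
    rw [hn]
    exact H5.zs_on_ne _
  have key := HG5C.core5 a b k ha hb ((a+b)/2) (a+b+1+2*k) ((a+b)/2+k) hn rfl (by omega)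
    g gs tN ts v1 v0 Ft F'
    (zs (on (a+b))) (zs (on (a+b + 2*k))) (mm (on a) (on b)) hz (fun i => d0.coeff i) hd00
    (by
      apply LP_ext DD DD_inf
      intro w hw0 hw
      have h1 := hFe w hw
      rw [← hyz, ← hv1e'] at h1
      rw [← h1, hN1]
      simp only [map_sub, map_mul, H5.eL_phiO', H5.eL_K, eL_C, hg, hgs])
    (by rw [hN1]; exact hv1) (by rw [hN1]; exact hv0)
    (by
      apply LP_ext DD DD_inf
      intro w hw0 hw
      rw [← hFte w hw, hN1]
      simp only [map_sub, map_mul, H5.eL_phiO', H5.eL_K, eL_C, htN, hts])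
    (by rw [hN1]; exact hFt)
    (by
      apply LP_ext DD DD_inf
      intro w hw0 hw
      rw [← hFe' w hw]
      simp only [map_mul, H5.eL_phiO', hts])
    hF'
    (by
      apply LP_ext DD DD_inf
      intro w hw0 hw
      have h2 := (hd w hw0).2
      rw [map_mul, map_add, eL_invert, hgs, hgs, H5.eL_phiO, h2, map_mul, map_sub, map_sub,
        map_mul (eL w hw0) (LaurentPolynomial.T 2), ← hn,
        HG5C.eL_sum0 d0 (a+b) hd0 w hw0, HG5C.eL_sum2 d0 (a+b) hd0 w hw0,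
        map_mul (eL w hw0) (LaurentPolynomial.C _), map_mul (eL w hw0) (LaurentPolynomial.T 1),
        H5.eL_polyL, eL_C, eL_T, eL_T, eL_T, zpow_one]
      norm_cast)
    (by
      apply LP_ext DD DD_inf
      intro w hw0 hw
      rw [map_mul, map_sub, eL_invert, hgs, hgs, H5.eL_phiO, (hd w hw0).1]
      simp only [map_mul, map_sub, eL_C, eL_T, H5.eL_polyL, zpow_one])
    F1 hF1
  rw [H5.e1_eL, H5.e1_eL, hg, htN] at key
  rw [key]
  push_cast
  ring

end Pool.Agent.NH38.Fork
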