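import Pool.Agent.NH38.Fork.Stubs4
import Pool.Agent.NH38.Fork.H6

/-!
Thick slits (helper38), task HG6: the polynomial identity `S_AVg`, arms of different widths
(helper2, after helper71's H6).
-/

namespace Pool.Agent.NH38.Fork

open Polynomial

theorem t_AVg : S_AVg := by
  intro a b ha hb
  refine HV6.poly_eq fun x hx => ?_
  have hx' : (1 - x) ≠ 0 := sub_ne_zero.mpr (Ne.symm hx)
  have hne : ¬ Even a := Nat.not_even_iff_odd.mpr ha
  have hneb : ¬ Even b := Nat.not_even_iff_odd.mpr hb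
  rw [eval_mul, eval_sub, eval_add, eval_mul, eval_X, HV6.sv_eval x hx, HV6.vv_eval x hx,
    if_neg hne, if_neg hneb]
  have hdeg : (vv b * sv a).natDegree < (a + b) / 2 := by
    refine lt_of_le_of_lt natDegree_mul_le ?_
    have h1 := HV6.pv_natDegree 1 1 b
    have h2 := HV6.pv_natDegree 2 3 a
    unfold vv sv
    obtain ⟨m, rfl⟩ := ha
    obtain ⟨m', rfl⟩ := hb
    omega
  have hev := eval_eq_sum_range' hdeg (4 * x / (1 - x)^2)
  rw [eval_mul] at hev
  have e1 : (1 - x) * (1 - x)^b * ((1 + x) / (1 - x)) * eval (4 * x / (1 - x)^2) (vv b) *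
      ((1 - x)^a * ((1 + x) / (1 - x)) * eval (4 * x / (1 - x)^2) (sv a)) =
      (1 + x)^2 * ((1 - x)^(a+b) / (1 - x) * (eval (4 * x / (1 - x)^2) (vv b) *
        eval (4 * x / (1 - x)^2) (sv a))) := by
    rw [pow_add]
    field_simp
  rw [e1, hev]
  simp only [eval_mul, eval_pow, eval_add, eval_one, eval_X, eval_finsetSum, eval_C, eval_sub,
    eval_ofNat]
  congr 1
  rw [Finset.mul_sum]
  refine Finset.sum_congr rfl fun j hj => ?_
  have hj' : j < (a + b) / 2 := Finset.mem_range.mp hj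
  have e2 : a + b = (a + b - 1 - 2*j) + 2*j + 1 := by omega
  have e3 : (1 - x)^(a+b) = (1 - x)^(a + b - 1 - 2*j) * (1 - x)^(2*j) * (1 - x) := by
    conv_lhs => rw [e2]
    rw [pow_succ, pow_add]
  unfold cg
  rw [e3, pow_mul, div_pow]
  field_simp

end Pool.Agent.NH38.Fork
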