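import Pool.Agent.NH38.Fork.Stubs3

/-!
Thick slits (helper38): statements of the tasks, part 4: arms of different widths
(nothing is proved here, except `exactG_of`).
-/

namespace Pool.Agent.NH38.Fork

open Pool.Agent.H988R2.Perc hiding X
open Pool.Agent.H492C (comb comb2 pairG up1)
open Pool.Agent.NH38.Step (om prs EE zs prF Gen on cardy pom bev)
open Pool.Agent.NH38.Step.Hom (phi eL DD DD_ne W0 VV bs LP)
open Polynomial Filter Topology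

/-! ## TASKS HG: homogeneous limit -/

/-- HG1: the slit amplitude at `A = 1,…,1`, `B = 1,…,1` -/
def S_OMg : Prop := ∀ a b : ℕ, Odd a → Odd b → ∃ d0 : ℂ[X], d0.natDegree ≤ a + b ∧
  d0.coeff 0 = - (zs (on (a+b)) * mm (on a) (on b)) ∧ ∀ w : ℂ, w ≠ 0 →
  (gh (on a) [] (on b) w - gh (on a) [] (on b) w⁻¹) * phi (on (a+b)) w =
    (q^2 - q) * (zs (on (a+b)) * mm (on a) (on b)) * w^(-(3*(((a+b)/2 : ℕ):ℤ)+1)) *
      (((((H337CB.P a).map (algebraMap ℚ ℂ)).eval (w^3) -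
        w * ((H337CB.Ps a).map (algebraMap ℚ ℂ)).eval (w^3))) *
      ((((H337CB.P b).map (algebraMap ℚ ℂ)).eval (w^3) -
        w * ((H337CB.Ps b).map (algebraMap ℚ ℂ)).eval (w^3)))) ∧
  (gh (on a) [] (on b) w + gh (on a) [] (on b) w⁻¹) * phi (on (a+b)) w =
    w^(-(3*(((a+b)/2 : ℕ):ℤ)+1)) * (d0.eval (w^3) -
      (zs (on (a+b)) * mm (on a) (on b)) * (w * ((H337CB.P b * H337CB.Ps a -
        H337CB.Ps b * H337CB.P a).map (algebraMap ℚ ℂ)).eval (w^3)) -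
      w^2 * (Polynomial.reflect (a+b) d0).eval (w^3))

/-- HG2: the limit of the formula `S_M` -/
def S_HLg : Prop := ∀ a b k : ℕ, Odd a → Odd b → ∃ F ∈ W0 (a + b + 2*k), ∀ (w : ℂ) (hw : w ∈ DD),
  zs (on (a + b)) * (gh (on a) (on k) (on b) w * phi (on (a + b + 2*k)) w) -
    zs (on (a + b + 2*k)) * ((om (w^3) - 2)^k * (gh (on a) [] (on b) w * phi (on (a+b)) w)) =
      eL w (DD_ne hw) F

/-- HG3: the limit of the formula `S_ZI` -/
def S_HLtg : Prop := ∀ a b k : ℕ, Odd a → Odd b → ∃ F ∈ VV (a + b + 2*k), ∀ (w : ℂ) (hw : w ∈ DD),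
  zs (on (a + b)) * (tt (on a) (on k) (on b) w * phi (on (a + b + 2*k)) w) -
    zs (on (a + b + 2*k)) * ((om (w^3) - 2)^k * (tt (on a) [] (on b) w * phi (on (a+b)) w)) =
      eL w (DD_ne hw) F

/-- HG4: the total mass of the thin slit -/
def S_HTg : Prop := ∀ a b : ℕ, Odd a → Odd b → ∃ F ∈ VV (a + b), ∀ (w : ℂ) (hw : w ∈ DD),
  tt (on a) [] (on b) w * phi (on (a+b)) w =
    eL w (DD_ne hw) (LaurentPolynomial.C (zs (on (a+b))) * bs (a+b) + F)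

/-- HG5: the residue formula -/
def S_HFg : Prop := ∀ (a b k : ℕ) (F1 : ℚ[X]), Odd a → Odd b →
  (X + 1) * F1 = (H337CB.P b - X * H337CB.Ps b) * (H337CB.P a + H337CB.Ps a) →
  2 * gh (on a) (on k) (on b) 1 =
    ((- H337CB.R ((a+b) + (a+b+1+2*k)) (-1/3) (F1 * H337CB.Ps (a+b+1+2*k)) : ℚ) : ℂ) *
      (tt (on a) (on k) (on b) 1 * mm (on a) (on b))

/-- coefficients -/
noncomputable def cg (a b j : ℕ) : ℚ := (vv b * sv a).coeff j

/-- HG6: polynomial identity -/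
def S_AVg : Prop := ∀ a b : ℕ, Odd a → Odd b →
  (H337CB.P b - X * H337CB.Ps b) * (H337CB.P a + H337CB.Ps a) =
    (1 + X)^2 * ∑ j ∈ Finset.range ((a+b)/2), C (cg a b j) * (4 * X)^j * (1 - X)^(a+b-1-2*j)

/-- the crossing probability of the forked channel; `a`, `b` = widths of the arms, `N` = width -/
noncomputable def FG (a b N : ℕ) : ℚ := (∑ j ∈ Finset.range ((a+b)/2), cg a b j * mj N j) / 2

/-- HG7 -/
def S_AlgG : Prop := ∀ a b k : ℕ, Odd a → Odd b →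
  G (on a) (1 :: on (2*k)) (on b) = ((FG a b (a+b+1+2*k) : ℚ) : ℂ) *
    T (on a) (1 :: on (2*k)) (on b)

/-- the exact formula -/
def S_ExactG : Prop := ∀ a k b : ℕ, Odd a → Odd b →
  perc.real (ECross a k b) = ((FG a b (a+b+1+2*k) : ℚ) : ℝ)

theorem exactG_of (hP : S_PF) (hT : S_TF) (hA : S_AlgG) : S_ExactG := by
  intro a k b ha hb
  have h := hP a k b ha hb
  rw [hA a b k ha hb] at h
  exact_mod_cast mul_right_cancel₀ (hT a k b ha hb) h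

/-! ## TASKS NG: asymptotics of `FG` -/

/-- rising factorial -/
noncomputable def rf (s : ℝ) (n : ℕ) : ℝ := ∏ i ∈ Finset.range n, (s + i)

/-- NG1: positivity -/
def S_pos : Prop := ∀ n j : ℕ, 0 ≤ (vv n).coeff j ∧ 0 ≤ (sv n).coeff j

/-- NG2: asymptotics of the coefficients of `vv` and `sv` -/
def S_vvA : Prop := ∀ j : ℕ, Tendsto
  (fun i : ℕ => (((vv (2*i+1)).coeff j : ℚ) : ℝ) / ((2*i+1 : ℕ) : ℝ)^(2*j)) atTop
  (𝓝 (1 / (4^j * rf (2/3) j * (Nat.factorial j : ℝ))))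

def S_svA : Prop := ∀ j : ℕ, Tendsto
  (fun i : ℕ => (((sv (2*i+1)).coeff j / kap (2*i+1) : ℚ) : ℝ) / ((2*i+1 : ℕ) : ℝ)^(2*j)) atTop
  (𝓝 (1 / (4^j * rf (4/3) j * (Nat.factorial j : ℝ))))

/-- coefficients of Appell's function `F_4(1/3, 2/3; 4/3, 2/3; A, B)` -/
noncomputable def ap (A B : ℝ) (m : ℕ) : ℝ := ∑ i ∈ Finset.range (m+1),
  rf (1/3) m * rf (2/3) m / (rf (2/3) i * (Nat.factorial i : ℝ) * (rf (4/3) (m-i) *
    (Nat.factorial (m-i) : ℝ))) * B^i * A^(m-i)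

/-- coefficients of `∑ w_m` (the algebraic function) -/
noncomputable def wp (A B : ℝ) (m : ℕ) : ℝ := ∑ i ∈ Finset.range (m+1),
  rf (4/3) m * rf (2/3) m / (rf (2/3) i * (Nat.factorial i : ℝ) * (rf (4/3) (m-i) *
    (Nat.factorial (m-i) : ℝ))) * B^i * A^(m-i)

/-- discriminant -/
noncomputable def rr (A B : ℝ) : ℝ := Real.sqrt ((1 + A - B)^2 - 4*A)

/-- the smaller root of `x² - (1+A-B) x + A` -/
noncomputable def x1 (A B : ℝ) : ℝ := ((1 + A - B) - rr A B) / 2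

/-- the larger root -/
noncomputable def x2 (A B : ℝ) : ℝ := ((1 + A - B) + rr A B) / 2

/-- NG3: the algebraic generating function -/
def S_WI : Prop := ∀ A B : ℝ, 0 < A → 0 < B → Real.sqrt A + Real.sqrt B < 1 →
  HasSum (wp A B) ((1 - x1 A B)^((1:ℝ)/3) * (x2 A B)^(-(1:ℝ)/3) / (x2 A B - x1 A B))

/-- NG4: the limit function -/
def S_F4 : Prop := ∀ ρ σ : ℝ, 0 < ρ → 0 < σ → ρ + σ < 1 →
  HasSum (fun m => (2*ρ)^((2:ℝ)/3) * (3 / Bt) * ap (ρ^2) (σ^2) m) (2 * cardy (x1 (ρ^2) (σ^2)))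

/-- NG5: the asymptotics -/
def S_AsyG : Prop := ∀ (a b N : ℕ → ℕ) (ρ σ : ℝ), 0 < ρ → 0 < σ → ρ + σ < 1 →
  (∀ i, Odd (a i)) → (∀ i, Odd (b i)) → (∀ i, Odd (N i)) → (∀ i, a i + b i < N i) →
  Tendsto N atTop atTop → Tendsto (fun i => (a i : ℝ) / N i) atTop (𝓝 ρ) →
  Tendsto (fun i => (b i : ℝ) / N i) atTop (𝓝 σ) →
  Tendsto (fun i => ((FG (a i) (b i) (N i) : ℚ) : ℝ)) atTop (𝓝 (cardy (x1 (ρ^2) (σ^2))))

/-- bound (from `S_ExactG`, a probability) -/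
def S_FGle : Prop := ∀ a b : ℕ, Odd a → Odd b → FG a b (a+b+1) ≤ 1

/-! ## TASK FG: the conformal map -/

/-- the forked channel: `{-α < X < γ + β}` without the slit `{0 ≤ X ≤ γ, Y ≥ 0}` -/
def GDom (α γ β : ℝ) : Set ℂ := {w | -α < w.re ∧ w.re < γ + β ∧ (0 ≤ w.re → w.re ≤ γ → w.im < 0)}

/-- `f` is an orientation reversing conformal map of the upper half-plane onto the forked channel,
with the boundary correspondence: left wall, inner wall of the left arm, corner `0`, ledge, corner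
`γ`, inner wall of the right arm, right wall = `(-∞,0)`, `(0,x)`, `x`, `(x,x')`, `x'`, `(x',1)`,
`(1,∞)`. -/
structure UnifG (α γ β x x' : ℝ) (f : ℂ → ℂ) : Prop where
  holo : DifferentiableOn ℂ (fun z => (starRingEnd ℂ) (f z)) {z | 0 < z.im}
  bij : Set.BijOn f {z | 0 < z.im} (GDom α γ β)
  cont : ContinuousOn f {z : ℂ | 0 ≤ z.im ∧ z ≠ 0 ∧ z ≠ 1}
  leftWall : Set.BijOn (fun t : ℝ => f t) (Set.Iio 0) {w | w.re = -α}
  innerWall : Set.BijOn (fun t : ℝ => f t) (Set.Ioo 0 x) {w | w.re = 0 ∧ 0 < w.im}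
  corner : f (x : ℂ) = 0
  ledge : Set.BijOn (fun t : ℝ => f t) (Set.Ioo x x') {w | w.im = 0 ∧ 0 < w.re ∧ w.re < γ}
  corner' : f (x' : ℂ) = (γ : ℂ)
  innerWall' : Set.BijOn (fun t : ℝ => f t) (Set.Ioo x' 1) {w | w.re = γ ∧ 0 < w.im}
  rightWall : Set.BijOn (fun t : ℝ => f t) (Set.Ioi 1) {w | w.re = γ + β}

def S_UG : Prop := ∀ α γ β : ℝ, 0 < α → 0 < γ → 0 < β → ∃ f : ℂ → ℂ,
  UnifG α γ β (x1 ((α/(α+γ+β))^2) ((β/(α+γ+β))^2)) (x2 ((α/(α+γ+β))^2) ((β/(α+γ+β))^2)) f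

/-! ## TASK GG: the scaling limit -/

/-- the scaling limit -/
def S_LimG : Prop := ∀ (α γ β : ℝ), 0 < α → 0 < γ → 0 < β → ∀ (δ : ℕ → ℝ) (a m b : ℕ → ℕ),
  (∀ n, 0 < δ n) → Tendsto δ atTop (𝓝 0) → Tendsto (fun n => δ n * a n) atTop (𝓝 α) →
  Tendsto (fun n => δ n * m n) atTop (𝓝 γ) → Tendsto (fun n => δ n * b n) atTop (𝓝 β) →
  Tendsto (fun n => perc.real (FCross (a n) (m n) (b n))) atTop
    (𝓝 (cardy (x1 ((α/(α+γ+β))^2) ((β/(α+γ+β))^2))))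

/-- TASK GG: prove `S_ExactG → S_AsyG → S_LimG` -/
def S_GG : Prop := S_ExactG → S_AsyG → S_LimG

end Pool.Agent.NH38.Fork
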