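import Pool.Agent.NH38.Fork.H7
import Pool.Agent.NH38.Fork.Stubs4

/-!
Thick slits, task FG-H7 (helper59): from the residue formula to `FG` (arms of different widths).
-/

namespace Pool.Agent.NH38.Fork

open Pool.Agent.H988R2.Perc hiding X
open Pool.Agent.NH38.Step (om prs EE zs prF Gen on cardy pom bev)
open Polynomial

namespace HG7

open H337CB (R P Ps)

theorem res (a b m N : ℕ) (hm : m = (a + b) / 2) (h : 2*m < N + 1) :
    R (2*m + N) (-1/3) ((1 + X) * (∑ j ∈ Finset.range m, C (cg a b j) * (4 * X)^j *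
      (1 - X)^(2*m - 1 - 2*j)) * Ps N) = - (2 * FG a b N) := by
  have h1 := H337CB.R_swap (2*m + N) N (by omega) (-2/3) ((1 + X) * (∑ j ∈ Finset.range m,
    C (cg a b j) * (4 * X)^j * (1 - X)^(2*m - 1 - 2*j)))
  rw [show (-2/3 + 1/3 : ℚ) = -1/3 by norm_num, mul_comm (Ps N)] at h1
  rw [h1]
  have h2 : P N * ((1 + X) * (∑ j ∈ Finset.range m, C (cg a b j) * (4 * X)^j *
      (1 - X)^(2*m - 1 - 2*j))) = ∑ j ∈ Finset.range m, C (cg a b j * 4^j) *
        (X^j * ((1 - X)^(2*m - 1 - 2*j) * ((1 + X) * P N))) := by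
    rw [Finset.mul_sum, Finset.mul_sum]
    refine Finset.sum_congr rfl fun j _ => ?_
    rw [C_mul, C_pow, mul_pow, show (C (4:ℚ) : ℚ[X]) = 4 from rfl]
    ring
  rw [h2, H7.R_sum]
  have h3 : ∀ j ∈ Finset.range m, R (2*m + N) (-2/3) (C (cg a b j * 4^j) *
        (X^j * ((1 - X)^(2*m - 1 - 2*j) * ((1 + X) * P N)))) = - (cg a b j * mj N j) := by
    intro j hj
    rw [H337CB.R_C, H7.term m N j (Finset.mem_range.1 hj)]
    unfold mj
    ring
  rw [Finset.sum_congr rfl h3, Finset.sum_neg_distrib]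
  unfold FG
  rw [← hm]
  ring

end HG7

open HG7 H7

/-- FG-H7 -/
theorem t_AlgG (hHF : S_HFg) (hAV : S_AVg) (hT : S_Teq) : S_AlgG := by
  intro a b k ha hb
  obtain ⟨m, hm⟩ : ∃ m, a + b = 2 * m := by
    obtain ⟨x, hx⟩ := ha
    obtain ⟨y, hy⟩ := hb
    exact ⟨x + y + 1, by omega⟩
  have hm2 : m = (a + b) / 2 := by omega
  have e1 : (X + 1) * ((1 + X) * (∑ j ∈ Finset.range m, C (cg a b j) * (4 * X)^j *
      (1 - X)^(2*m - 1 - 2*j))) =
      (H337CB.P b - X * H337CB.Ps b) * (H337CB.P a + H337CB.Ps a) := by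
    rw [hAV a b ha hb, ← hm2, hm]
    ring
  have h1 := hHF a b k _ ha hb e1
  rw [hm, HG7.res a b m (2*m+1+2*k) hm2 (by omega)] at h1
  have h2 : gh (on a) (on k) (on b) 1 = ((FG a b (2*m+1+2*k) : ℚ) : ℂ) *
      (tt (on a) (on k) (on b) 1 * mm (on a) (on b)) := by
    have h3 : (2:ℂ) ≠ 0 := two_ne_zero
    apply mul_left_cancel₀ h3
    rw [h1]
    push_cast
    ring
  have hne : ∀ n, NZ (on n) := fun n => Step.Hom.on_ne n
  have hla : Odd (on a).length := by rw [Step.Hom.on_len]; exact ha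
  have hlb : Odd (on b).length := by rw [Step.Hom.on_len]; exact hb
  have h4 := hT (on a) (on k) (on b) 1 hla hlb (hne a) (hne k) (hne b) one_ne_zero
  rw [prs_on] at h4
  have hc : cst (on a) (on b) (on k).length 1 ≠ 0 := by
    unfold cst
    simp only [Step.Hom.on_prod, one_pow, one_mul]
    exact pow_ne_zero _ q_ne_zero
  unfold gh at h2
  rw [prs_on, div_eq_iff hc] at h2
  rw [h2, h4, hm]
  ring

end Pool.Agent.NH38.Fork
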