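import Pool.Agent.NH38.Fork.Stubs3

/-!
Thick slits (helper38): task N1 (job 541, helper59). Closed form of the residues.
-/

namespace Pool.Agent.NH38.Fork

open Polynomial

namespace N1

open H337CB (R P)

/-! ### rules for the residue functional -/

theorem R_X (m : ℕ) (c : ℚ) (F : ℚ[X]) : R m c (X * F) = R m (c + 1) F := by
  unfold H337CB.R
  have e : H337CB.ev (X * F) = (1 + PowerSeries.X) * H337CB.ev F := by
    rw [map_mul, H337CB.ev_X]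
  have h := H337CB.pw_add c ((1 : ℕ) : ℚ)
  rw [H337CB.pw_nat, pow_one, Nat.cast_one] at h
  rw [e, ← mul_assoc, h]

theorem R_sq (m : ℕ) (c : ℚ) (F : ℚ[X]) : R (m + 2) c ((X - 1) ^ 2 * F) = R m c F := by
  rw [show (X - 1 : ℚ[X]) ^ 2 = (1 - X) ^ 2 by ring]
  exact H337CB.R_shift2 m c F

/-! ### the recurrences -/

noncomputable def Em (N j : ℕ) : ℚ := R (N + 2*j) ((j:ℚ) - 2/3) (P N)

noncomputable def mm' (N j : ℕ) : ℚ := R (N + 2*j + 1) ((j:ℚ) - 2/3) ((1 + X) * P N)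

theorem c1 (N : ℕ) : (3 * (N:ℚ[X]) + 5) = C (3 * (N:ℚ) + 5) := by
  simp only [map_add, map_mul, map_natCast, map_ofNat]

theorem c2 (N : ℕ) : (6 * (N:ℚ[X]) + 9) = C (6 * (N:ℚ) + 9) := by
  simp only [map_add, map_mul, map_natCast, map_ofNat]

theorem c3 (N : ℕ) : (3 * (N:ℚ[X]) + 4) = C (3 * (N:ℚ) + 4) := by
  simp only [map_add, map_mul, map_natCast, map_ofNat]

theorem recE (N j : ℕ) : (3 * (N:ℚ) + 5) * Em (N+2) j =
    (6 * (N:ℚ) + 9) * mm' (N+1) j - (3 * (N:ℚ) + 4) * Em N j := by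
  have h := congrArg (R (N + 2 + 2*j) ((j:ℚ) - 2/3)) (H337CB.P_rec N)
  rw [c1, c2, c3, H337CB.R_C, H337CB.R_sub, mul_assoc, mul_assoc, H337CB.R_C, H337CB.R_C] at h
  have e : N + 2 + 2 * j = (N + 2*j) + 2 := by ring
  have h2 : R (N + 2 + 2*j) ((j:ℚ) - 2/3) ((X - 1) ^ 2 * P N) = Em N j := by
    rw [e]; exact R_sq _ _ _
  have h3 : R (N + 2 + 2*j) ((j:ℚ) - 2/3) ((1 + X) * P (N+1)) = mm' (N+1) j := by
    unfold mm'
    congr 1; ring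
  rw [h2, h3] at h
  exact h

theorem recM (N j : ℕ) : (3 * (N:ℚ) + 5) * mm' (N+2) j =
    (6 * (N:ℚ) + 9) * (Em (N+1) j + 4 * Em (N+1) (j+1)) - (3 * (N:ℚ) + 4) * mm' N j := by
  have h0 : (3 * (N:ℚ[X]) + 5) * ((1 + X) * P (N+2)) = (6 * (N:ℚ[X]) + 9) *
      ((X - 1) ^ 2 * P (N+1) + C 4 * (X * P (N+1))) -
      (3 * (N:ℚ[X]) + 4) * ((X - 1) ^ 2 * ((1 + X) * P N)) := by
    have e4 : (C 4 : ℚ[X]) = 4 := map_ofNat C 4
    rw [e4]
    linear_combination (1 + X) * H337CB.P_rec N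
  have h := congrArg (R (N + 2 + 2*j + 1) ((j:ℚ) - 2/3)) h0
  rw [c1, c2, c3, H337CB.R_C, H337CB.R_sub, H337CB.R_C, H337CB.R_C, H337CB.R_add,
    H337CB.R_C _ _ 4] at h
  have e1 : N + 2 + 2 * j + 1 = (N + 1 + 2*j) + 2 := by ring
  have e2 : N + 2 + 2 * j + 1 = (N + 2*j + 1) + 2 := by ring
  have h2 : R (N + 2 + 2*j + 1) ((j:ℚ) - 2/3) ((X - 1) ^ 2 * P (N+1)) = Em (N+1) j := by
    rw [e1]; exact R_sq _ _ _
  have h3 : R (N + 2 + 2*j + 1) ((j:ℚ) - 2/3) ((X - 1) ^ 2 * ((1 + X) * P N)) = mm' N j := by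
    rw [e2]; exact R_sq _ _ _
  have h4 : R (N + 2 + 2*j + 1) ((j:ℚ) - 2/3) (X * P (N+1)) = Em (N+1) (j+1) := by
    rw [R_X]
    unfold Em
    have f1 : (j:ℚ) - 2/3 + 1 = ((j+1:ℕ):ℚ) - 2/3 := by push_cast; ring
    have f2 : N + 2 + 2*j + 1 = N + 1 + 2*(j+1) := by ring
    rw [f1, f2]
  rw [h2, h3, h4] at h
  exact h

/-! ### base cases -/

theorem Em_zero_eq (j : ℕ) : Em 0 j = Ring.choose ((j:ℚ) - 2/3) (2*j) := by
  unfold Em
  rw [H337CB.P_zero, zero_add]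
  have := H337CB.R_Xpow (2*j) ((j:ℚ) - 2/3) 0
  rw [pow_zero, Nat.cast_zero, add_zero] at this
  exact this

theorem Em_zero_succ (j : ℕ) : ((2:ℚ)*j+1) * (2*j+2) * Em 0 (j+1) =
    -(((j:ℚ) + 1/3) * (j + 2/3)) * Em 0 j := by
  rw [Em_zero_eq, Em_zero_eq]
  have e : 2 * (j+1) = (2*j+1)+1 := by ring
  rw [e]
  set x : ℚ := ((j+1 : ℕ) : ℚ) - 2/3 with hx
  have h1 := H337CB.choose_succ x (2*j+1)
  have h2 := H337CB.choose_succ x (2*j)
  have h3 := H337CB.choose_pred x (2*j)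
  have e2 : x - 1 = (j:ℚ) - 2/3 := by rw [hx]; push_cast; ring
  rw [e2] at h3
  have e3 : x = (j:ℚ) + 1/3 := by rw [hx]; push_cast; ring
  push_cast at h1 h2 h3
  rw [e3] at h1 h2 h3 ⊢
  linear_combination (2*(j:ℚ)+1) * h1 + ((j:ℚ) + 1/3 - (2*j+1)) * h2 - ((j:ℚ) + 1/3 - (2*j+1)) * h3

theorem mm_one_eq (j : ℕ) : mm' 1 j = Ring.choose ((j:ℚ) - 2/3) (2*j+2) +
    3 * Ring.choose ((j:ℚ) + 1/3) (2*j+2) + 2 * Ring.choose ((j:ℚ) + 4/3) (2*j+2) := by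
  unfold mm'
  rw [H337CB.P_one]
  have e : (1 + X) * (1 + 2 * X) = (X : ℚ[X]) ^ 0 + C 3 * X ^ 1 + C 2 * X ^ 2 := by
    have e3 : (C 3 : ℚ[X]) = 3 := map_ofNat C 3
    have e2 : (C 2 : ℚ[X]) = 2 := map_ofNat C 2
    rw [e3, e2]; ring
  rw [e, H337CB.R_add, H337CB.R_add, H337CB.R_C, H337CB.R_C, H337CB.R_Xpow, H337CB.R_Xpow,
    H337CB.R_Xpow]
  have e1 : 1 + 2 * j + 1 = 2 * j + 2 := by ring
  rw [e1]
  have a0 : (j:ℚ) - 2/3 + ((0:ℕ):ℚ) = j - 2/3 := by push_cast; ring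
  have a1 : (j:ℚ) - 2/3 + ((1:ℕ):ℚ) = j + 1/3 := by push_cast; ring
  have a2 : (j:ℚ) - 2/3 + ((2:ℕ):ℚ) = j + 4/3 := by push_cast; ring
  rw [a0, a1, a2]

theorem mm_one (j : ℕ) : ((j:ℚ) + 1) * mm' 1 j = 2/3 * Em 0 j := by
  rw [mm_one_eq]
  have hs := Em_zero_succ j
  rw [Em_zero_eq] at hs ⊢
  have e : 2 * (j+1) = 2*j+1+1 := by ring
  rw [Em_zero_eq] at hs
  have e3 : (((j+1 : ℕ) : ℚ) - 2/3) = (j:ℚ) + 1/3 := by push_cast; ring
  rw [e, e3] at hs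
  -- first binomial
  have h1 := H337CB.choose_succ ((j:ℚ) - 2/3) (2*j+1)
  have h2 := H337CB.choose_succ ((j:ℚ) - 2/3) (2*j)
  -- third binomial
  have h3 := H337CB.choose_pred ((j:ℚ) + 4/3) (2*j+1+1)
  have e4 : (j:ℚ) + 4/3 - 1 = j + 1/3 := by ring
  rw [e4] at h3
  have e5 : 2 * j + 2 = 2*j+1+1 := by ring
  rw [e5]
  push_cast at h1 h2 h3 hs
  set c0 := Ring.choose ((j:ℚ) - 2/3) (2*j)
  set c01 := Ring.choose ((j:ℚ) - 2/3) (2*j+1)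
  set c1 := Ring.choose ((j:ℚ) - 2/3) (2*j+1+1)
  set c2 := Ring.choose ((j:ℚ) + 1/3) (2*j+1+1)
  set c3 := Ring.choose ((j:ℚ) + 4/3) (2*j+1+1)
  have hj1 : (2*(j:ℚ)+1) ≠ 0 := by positivity
  have hj2 : ((j:ℚ)+1) ≠ 0 := by positivity
  have hj3 : ((j:ℚ)+2/3) ≠ 0 := by positivity
  have k1 : c1 = c0 * ((j:ℚ)+2/3) * (j+5/3) / ((2*j+1) * (2*j+2)) := by
    rw [eq_div_iff (by positivity)]
    linear_combination (2*(j:ℚ)+1) * h1 + ((j:ℚ) - 2/3 - (2*j+1)) * h2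
  have k2 : c2 = - c0 * ((j:ℚ)+1/3) * (j+2/3) / ((2*j+1) * (2*j+2)) := by
    rw [eq_div_iff (by positivity)]
    linear_combination hs
  have k3 : c3 = c0 * ((j:ℚ)+1/3) * (j+4/3) / ((2*j+1) * (2*j+2)) := by
    have h4 : ((j:ℚ)+2/3) * c3 = - ((j:ℚ)+4/3) * c2 := by linear_combination h3
    rw [k2] at h4
    apply mul_left_cancel₀ hj3
    rw [h4]
    field_simp
  rw [k1, k2, k3]
  field_simp
  ring

/-! ### the products -/

noncomputable def Q (n j : ℕ) : ℚ := ∏ i ∈ Finset.range j,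
  (((i:ℚ) + 1/3) * (i + 2/3) / ((2*n - 1 - 2*i) * (2*n + 2 + 2*i)))

noncomputable def Q' (n j : ℕ) : ℚ := ∏ i ∈ Finset.range j,
  (((i:ℚ) + 1/3) * (i + 2/3) / ((2*n - 1 - 2*i) * (2*n + 4 + 2*i)))

theorem odd_ne (n i : ℕ) : (2*(n:ℚ) - 1 - 2*i) ≠ 0 := by
  intro h
  have h2 : (2*(n:ℤ) - 1 - 2*i) = 0 := by exact_mod_cast h
  omega

theorem odd_ne' (n i : ℕ) : (2*(n:ℚ) + 1 - 2*i) ≠ 0 := by
  intro h
  have h2 : (2*(n:ℤ) + 1 - 2*i) = 0 := by exact_mod_cast h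
  omega

theorem Q_succ (n j : ℕ) : Q n (j+1) = Q n j *
    (((j:ℚ) + 1/3) * (j + 2/3) / ((2*n - 1 - 2*j) * (2*n + 2 + 2*j))) := by
  unfold Q; rw [Finset.prod_range_succ]

theorem Q'_succ (n j : ℕ) : Q' n (j+1) = Q' n j *
    (((j:ℚ) + 1/3) * (j + 2/3) / ((2*n - 1 - 2*j) * (2*n + 4 + 2*j))) := by
  unfold Q'; rw [Finset.prod_range_succ]

theorem Q_Q' (n j : ℕ) : Q n j = Q' n j * ((n:ℚ) + 1 + j) / (n + 1) := by
  induction j with
  | zero => simp [Q, Q']; field_simp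
  | succ j ih =>
    rw [Q_succ, Q'_succ, ih]
    have h1 := odd_ne n j
    have h2 : (2*(n:ℚ) + 2 + 2*j) ≠ 0 := by positivity
    have h3 : (2*(n:ℚ) + 4 + 2*j) ≠ 0 := by positivity
    push_cast
    field_simp
    ring

theorem Q_next (n j : ℕ) : Q (n+1) j = Q' n j * (2*(n:ℚ) + 1 - 2*j) / (2*n + 1) := by
  induction j with
  | zero => simp [Q, Q']; field_simp
  | succ j ih =>
    rw [Q_succ, Q'_succ, ih]
    have h1 := odd_ne n j
    have h2 := odd_ne' n j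
    have h3 : (2*(n:ℚ) + 4 + 2*j) ≠ 0 := by positivity
    have h4 : (2*((n+1:ℕ):ℚ) - 1 - 2*j) = 2*(n:ℚ) + 1 - 2*j := by push_cast; ring
    have h5 : (2*((n+1:ℕ):ℚ) + 2 + 2*j) = 2*(n:ℚ) + 4 + 2*j := by push_cast; ring
    rw [h4, h5]
    push_cast
    field_simp
    ring

theorem M0_succ (n : ℕ) : M0 (n+1) = M0 n *
    (((n:ℚ) + 1/2) * (n + 5/3) / ((n + 5/6) * (n + 2))) := by
  unfold M0; rw [Finset.prod_range_succ, mul_assoc]

theorem Em0 (j : ℕ) : Em 0 j = Q 0 j := by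
  induction j with
  | zero => rw [Em_zero_eq]; simp [Q]
  | succ j ih =>
    have h := Em_zero_succ j
    rw [ih] at h
    rw [Q_succ]
    have h1 : (2*((0:ℕ):ℚ) - 1 - 2*j) = -(2*j+1) := by push_cast; ring
    have h2 : (2*((0:ℕ):ℚ) + 2 + 2*j) = 2*j+2 := by push_cast; ring
    rw [h1, h2]
    have h3 : ((2:ℚ)*j+1) * (2*j+2) ≠ 0 := by positivity
    apply mul_left_cancel₀ h3
    rw [h]
    field_simp

theorem key (n : ℕ) : ∀ j, Em (2*n) j = M0 n * ((3*n+3)/(3*n+2)) * Q n j ∧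
    mm' (2*n+1) j = M0 n * Q' n j := by
  induction n with
  | zero =>
    intro j
    have hM : M0 0 = 2/3 := by simp [M0]
    refine ⟨?_, ?_⟩
    · rw [Nat.mul_zero, Em0, hM]; push_cast; ring
    · have h := mm_one j
      rw [Em0, Q_Q'] at h
      rw [Nat.mul_zero, Nat.zero_add, hM]
      have hj2 : ((j:ℚ)+1) ≠ 0 := by positivity
      apply mul_left_cancel₀ hj2
      rw [h]; push_cast; ring
  | succ n ih =>
    have hE : ∀ j, Em (2*(n+1)) j = M0 (n+1) * ((3*((n+1:ℕ):ℚ)+3)/(3*((n+1:ℕ):ℚ)+2)) * Q (n+1) j := by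
      intro j
      obtain ⟨h1, h2⟩ := ih j
      have h := recE (2*n) j
      rw [h1, h2] at h
      have e : 2 * (n+1) = 2*n+2 := by ring
      rw [e]
      push_cast at h ⊢
      have h5 : (3 * (2 * (n:ℚ)) + 5) ≠ 0 := by positivity
      apply mul_left_cancel₀ h5
      rw [h, Q_next, Q_Q', M0_succ]
      have a1 : (3*(n:ℚ)+2) ≠ 0 := by positivity
      have a2 : (3*((n:ℚ)+1)+2) ≠ 0 := by positivity
      have a3 : ((n:ℚ)+5/6) ≠ 0 := by positivity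
      have a4 : ((n:ℚ)+2) ≠ 0 := by positivity
      have a5 : ((n:ℚ)+1) ≠ 0 := by positivity
      have a6 : (2*(n:ℚ)+1) ≠ 0 := by positivity
      field_simp
      ring
    intro j
    refine ⟨hE j, ?_⟩
    have h := recM (2*n+1) j
    obtain ⟨h1, h2⟩ := ih j
    have e : 2*n+1+1 = 2*(n+1) := by ring
    have e2 : 2*n+1+2 = 2*(n+1)+1 := by ring
    rw [e, e2, hE j, hE (j+1), h2, Q_succ] at h
    have hq : Q' (n+1) j = Q (n+1) j * ((n:ℚ) + 2) / (n + 2 + j) := by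
      rw [Q_Q' (n+1) j]
      have a1 : ((n:ℚ) + 2 + j) ≠ 0 := by positivity
      have a2 : (((n+1:ℕ):ℚ) + 1) ≠ 0 := by positivity
      push_cast at a2 ⊢
      field_simp
      ring
    rw [hq]
    have h4 : (2*((n+1:ℕ):ℚ) - 1 - 2*j) = 2*(n:ℚ) + 1 - 2*j := by push_cast; ring
    rw [h4, Q_next, M0_succ] at h
    rw [Q_next, M0_succ]
    push_cast at h ⊢
    have h5 : (3 * (2 * (n:ℚ) + 1) + 5) ≠ 0 := by positivity
    apply mul_left_cancel₀ h5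
    rw [h]
    have h1 := odd_ne' n j
    have a2 : (3*((n:ℚ)+1)+2) ≠ 0 := by positivity
    have a3 : ((n:ℚ)+5/6) ≠ 0 := by positivity
    have a4 : ((n:ℚ)+2) ≠ 0 := by positivity
    have a6 : (2*(n:ℚ)+1) ≠ 0 := by positivity
    have a7 : (2*((n:ℚ)+1) + 2 + 2*j) ≠ 0 := by positivity
    have a8 : ((n:ℚ) + 2 + j) ≠ 0 := by positivity
    field_simp
    ring

end N1

theorem t_MJ : S_MJ := by
  intro n j _
  exact (N1.key n j).2

end Pool.Agent.NH38.Fork
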