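import Pool.Agent.NH38.Fork.Stubs3

/-!
Thick slits (helper38): task N5, the constants (Gamma asymptotics). helper87.
-/

set_option autoImplicit false

namespace Pool.Agent.NH38.Fork

open Filter Topology

namespace N5

/-- the product of the ratios -/
noncomputable def Rat (s t : ℝ) (n : ℕ) : ℝ := ∏ i ∈ Finset.range n, (((i:ℝ) + s) / (i + t))

theorem Rat_eq {s t : ℝ} (hs : 0 < s) (ht : 0 < t) {n : ℕ} (hn : 1 ≤ n) :
    Rat s t n * (n:ℝ)^(t - s) =
      (((n:ℝ) + t) / (n + s)) * (Real.GammaSeq t n / Real.GammaSeq s n) := by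
  have hn0 : (0:ℝ) < n := by exact_mod_cast hn
  have hA : ∀ r : ℝ, 0 < r → 0 < ∏ j ∈ Finset.range (n+1), (r + (j:ℝ)) := fun r hr =>
    Finset.prod_pos fun j _ => by positivity
  have h1 : Rat s t n = (∏ j ∈ Finset.range n, (s + (j:ℝ))) / ∏ j ∈ Finset.range n, (t + (j:ℝ)) := by
    unfold Rat
    rw [← Finset.prod_div_distrib]
    refine Finset.prod_congr rfl fun i _ => ?_
    rw [add_comm (i:ℝ) s, add_comm (i:ℝ) t]
  have hB : ∀ r : ℝ, 0 < r → 0 < ∏ j ∈ Finset.range n, (r + (j:ℝ)) := fun r hr =>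
    Finset.prod_pos fun j _ => by positivity
  have hs1 := hB s hs
  have ht1 := hB t ht
  unfold Real.GammaSeq
  rw [h1, Finset.prod_range_succ, Finset.prod_range_succ, Real.rpow_sub hn0]
  have h2 : (0:ℝ) < (n.factorial : ℝ) := by positivity
  have h3 : (0:ℝ) < (n:ℝ)^s := by positivity
  have h4 : (0:ℝ) < (n:ℝ)^t := by positivity
  field_simp
  ring

theorem Rat_tendsto {s t : ℝ} (hs : 0 < s) (ht : 0 < t) :
    Tendsto (fun n : ℕ => Rat s t n * (n:ℝ)^(t - s)) atTop (𝓝 (Real.Gamma t / Real.Gamma s)) := by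
  have h1 : Tendsto (fun n : ℕ => (((n:ℝ) + t) / (n + s))) atTop (𝓝 1) := by
    have h2 : Tendsto (fun n : ℕ => 1 + (t - s) / ((n:ℝ) + s)) atTop (𝓝 (1 + 0)) := by
      refine tendsto_const_nhds.add (Tendsto.div_atTop tendsto_const_nhds ?_)
      exact tendsto_atTop_add_const_right _ _ tendsto_natCast_atTop_atTop
    rw [add_zero] at h2
    refine h2.congr fun n => ?_
    have : (n:ℝ) + s ≠ 0 := by positivity
    field_simp
    ring
  have h3 := h1.mul ((Real.GammaSeq_tendsto_Gamma t).div (Real.GammaSeq_tendsto_Gamma s)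
    (Real.Gamma_pos_of_pos hs).ne')
  rw [one_mul] at h3
  refine h3.congr' ?_
  filter_upwards [eventually_ge_atTop 1] with n hn
  exact (Rat_eq hs ht hn).symm

theorem Bt_eq : Bt = Real.Gamma (1/3) * Real.Gamma (1/2) / Real.Gamma (5/6) := by
  have h1 : Complex.betaIntegral (1/3 : ℂ) (1/2 : ℂ) = ((Bt : ℝ) : ℂ) := by
    unfold Complex.betaIntegral Bt
    rw [← intervalIntegral.integral_ofReal]
    refine intervalIntegral.integral_congr fun x hx => ?_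
    rw [Set.uIcc_of_le zero_le_one] at hx
    show (x:ℂ)^((1/3 : ℂ) - 1) * (1 - (x:ℂ))^((1/2 : ℂ) - 1) = _
    rw [Complex.ofReal_mul, Complex.ofReal_cpow hx.1, Complex.ofReal_cpow (by linarith [hx.2])]
    congr 1
    · congr 1
      push_cast
      norm_num
    · congr 1
      · push_cast
        ring
      · push_cast
        norm_num
  have h2 := Complex.Gamma_mul_Gamma_eq_betaIntegral (s := (1/3 : ℂ)) (t := (1/2 : ℂ))
    (by norm_num) (by norm_num)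
  rw [h1] at h2
  have e : (1/3 : ℂ) + 1/2 = ((5/6 : ℝ) : ℂ) := by push_cast; norm_num
  have e1 : (1/3 : ℂ) = ((1/3 : ℝ) : ℂ) := by push_cast; norm_num
  have e2 : (1/2 : ℂ) = ((1/2 : ℝ) : ℂ) := by push_cast; norm_num
  rw [e, e1, e2, Complex.Gamma_ofReal, Complex.Gamma_ofReal, Complex.Gamma_ofReal] at h2
  have h3 : Real.Gamma (1/3) * Real.Gamma (1/2) = Real.Gamma (5/6) * Bt := by exact_mod_cast h2
  have h4 : Real.Gamma (5/6) ≠ 0 := (Real.Gamma_pos_of_pos (by norm_num)).ne'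
  rw [h3]
  field_simp

theorem kap_eq (a : ℕ) : ((kap a : ℚ) : ℝ) = Rat (4/3) (2/3) a := by
  unfold kap Rat
  push_cast
  rfl

theorem M0_eq (n : ℕ) : ((M0 n : ℚ) : ℝ) = 2/3 * (Rat (1/2) (5/6) n * Rat (5/3) 2 n) := by
  unfold M0 Rat
  rw [← Finset.prod_mul_distrib]
  push_cast
  congr 1
  refine Finset.prod_congr rfl fun i _ => ?_
  rw [div_mul_div_comm]

end N5

theorem t_KAP : S_KAP := by
  intro a n ρ hρ ha hn hlim
  have h1 := (N5.Rat_tendsto (s := 4/3) (t := 2/3) (by norm_num) (by norm_num)).comp ha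
  have h2 := (N5.Rat_tendsto (s := 1/2) (t := 5/6) (by norm_num) (by norm_num)).comp hn
  have h3 := (N5.Rat_tendsto (s := 5/3) (t := 2) (by norm_num) (by norm_num)).comp hn
  have h4 : Tendsto (fun i => ((a i : ℝ) / n i)^((2:ℝ)/3)) atTop (𝓝 (ρ^((2:ℝ)/3))) :=
    hlim.rpow_const (Or.inr (by norm_num))
  have h5 := (h1.mul (((h2.mul h3).const_mul (2/3)))).mul h4
  have g1 : Real.Gamma (4/3) = 1/3 * Real.Gamma (1/3) := by
    have := Real.Gamma_add_one (s := 1/3) (by norm_num)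
    rw [← this]
    norm_num
  have g2 : Real.Gamma (5/3) = 2/3 * Real.Gamma (2/3) := by
    have := Real.Gamma_add_one (s := 2/3) (by norm_num)
    rw [← this]
    norm_num
  have g3 : Real.Gamma 2 = 1 := Real.Gamma_two
  have p1 : 0 < Real.Gamma (1/3) := Real.Gamma_pos_of_pos (by norm_num)
  have p2 : 0 < Real.Gamma (2/3) := Real.Gamma_pos_of_pos (by norm_num)
  have p3 : 0 < Real.Gamma (1/2) := Real.Gamma_pos_of_pos (by norm_num)
  have p4 : 0 < Real.Gamma (5/6) := Real.Gamma_pos_of_pos (by norm_num)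
  have e : Real.Gamma (2/3) / Real.Gamma (4/3) * (2/3 * (Real.Gamma (5/6) / Real.Gamma (1/2) *
      (Real.Gamma 2 / Real.Gamma (5/3)))) * ρ^((2:ℝ)/3) = ρ^((2:ℝ)/3) * (3 / Bt) := by
    rw [N5.Bt_eq, g1, g2, g3]
    field_simp
  rw [e] at h5
  refine h5.congr' ?_
  filter_upwards [ha.eventually_ge_atTop 1, hn.eventually_ge_atTop 1] with i hi1 hi2
  have ha0 : (0:ℝ) < a i := by exact_mod_cast hi1
  have hn0 : (0:ℝ) < n i := by exact_mod_cast hi2
  simp only [Function.comp]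
  rw [Rat.cast_mul, N5.kap_eq, N5.M0_eq, Real.div_rpow ha0.le hn0.le]
  have e1 : (a i : ℝ)^((2:ℝ)/3 - 4/3) * (a i : ℝ)^((2:ℝ)/3) = 1 := by
    rw [← Real.rpow_add ha0]
    norm_num
  have e2 : (n i : ℝ)^((5:ℝ)/6 - 1/2) * (n i : ℝ)^((2:ℝ) - 5/3) = (n i : ℝ)^((2:ℝ)/3) := by
    rw [← Real.rpow_add hn0]
    norm_num
  have hn1 : (n i : ℝ)^((2:ℝ)/3) ≠ 0 := by positivity
  calc N5.Rat (4/3) (2/3) (a i) * (a i : ℝ)^((2:ℝ)/3 - 4/3) *
        (2/3 * (N5.Rat (1/2) (5/6) (n i) * (n i : ℝ)^((5:ℝ)/6 - 1/2) *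
          (N5.Rat (5/3) 2 (n i) * (n i : ℝ)^((2:ℝ) - 5/3)))) *
        ((a i : ℝ)^((2:ℝ)/3) / (n i : ℝ)^((2:ℝ)/3))
      = N5.Rat (4/3) (2/3) (a i) * (2/3 * (N5.Rat (1/2) (5/6) (n i) * N5.Rat (5/3) 2 (n i))) *
        ((a i : ℝ)^((2:ℝ)/3 - 4/3) * (a i : ℝ)^((2:ℝ)/3)) *
        (((n i : ℝ)^((5:ℝ)/6 - 1/2) * (n i : ℝ)^((2:ℝ) - 5/3)) / (n i : ℝ)^((2:ℝ)/3)) := by ring
    _ = _ := by rw [e1, e2, div_self hn1, mul_one, mul_one]

end Pool.Agent.NH38.Fork
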