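import Pool.Agent.NH38.Fork.Stubs4

/-!
FG-N1 (project of helper38): positivity of the coefficients of `vv n` and `sv n`. By helper15.
-/

namespace Pool.Agent.NH38.Fork

open Polynomial Filter Topology

namespace NG1

/-- nonnegative coefficients -/
def NNc (f : ℚ[X]) : Prop := ∀ j, 0 ≤ f.coeff j

theorem nn_add {f g : ℚ[X]} (hf : NNc f) (hg : NNc g) : NNc (f + g) := fun j => by
  rw [coeff_add]; exact add_nonneg (hf j) (hg j)

theorem nn_mul {f g : ℚ[X]} (hf : NNc f) (hg : NNc g) : NNc (f * g) := fun j => by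
  rw [coeff_mul]; exact Finset.sum_nonneg (fun x _ => mul_nonneg (hf _) (hg _))

theorem nn_C {c : ℚ} (hc : 0 ≤ c) : NNc (C c) := fun j => by
  rw [coeff_C]; split_ifs <;> simp [hc]

theorem nn_X : NNc X := fun j => by
  rw [coeff_X]; split_ifs <;> simp

theorem nn_one : NNc 1 := by
  have := nn_C (c := 1) (by norm_num)
  simpa using this

/-- the factor `1 + X` or `1` -/
noncomputable def cf (n : ℕ) : ℚ[X] := if Even n then 1 + X else 1

theorem nn_cf (n : ℕ) : NNc (cf n) := by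
  unfold cf
  split_ifs
  · exact nn_add nn_one nn_X
  · exact nn_one

theorem cf_mul (n : ℕ) : cf n * cf (n + 1) = 1 + X := by
  unfold cf
  by_cases h : Even n
  · have h2 : ¬ Even (n + 1) := by
      rw [Nat.not_even_iff_odd]; exact h.add_one
    rw [if_pos h, if_neg h2, mul_one]
  · have h2 : Even (n + 1) := (Nat.not_even_iff_odd.1 h).add_one
    rw [if_neg h, if_pos h2, one_mul]

theorem key (x0 x1 : ℚ) (n : ℕ) :
    pv x0 x1 (n+2) - cf n * pv x0 x1 (n+1) = C ((3*(n:ℚ)+4) / (3*(n:ℚ)+5)) *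
      (cf n * (pv x0 x1 (n+1) - cf (n+1) * pv x0 x1 n) + X * pv x0 x1 n) := by
  have h0 : (3*(n:ℚ)+5) ≠ 0 := by positivity
  have h1 : cf n * (pv x0 x1 (n+1) - cf (n+1) * pv x0 x1 n) + X * pv x0 x1 n =
      cf n * pv x0 x1 (n+1) - pv x0 x1 n := by
    have := cf_mul n
    linear_combination (- pv x0 x1 n) * this
  rw [h1]
  have h2 : pv x0 x1 (n+2) = C (1 / (3*(n:ℚ)+5)) * (C (6*(n:ℚ)+9) * cf n * pv x0 x1 (n+1) -
      C (3*(n:ℚ)+4) * pv x0 x1 n) := rfl
  rw [h2]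
  have h3 : C ((3*(n:ℚ)+4) / (3*(n:ℚ)+5)) = C (1 / (3*(n:ℚ)+5)) * C (3*(n:ℚ)+4) := by
    rw [← C_mul]; congr 1; field_simp
  have h4 : C (1 / (3*(n:ℚ)+5)) * C (6*(n:ℚ)+9) = 1 + C (1 / (3*(n:ℚ)+5)) * C (3*(n:ℚ)+4) := by
    rw [← C_mul, ← C_mul, ← C_1, ← C_add]; congr 1; field_simp; ring
  rw [h3]
  linear_combination (cf n * pv x0 x1 (n+1)) * h4

theorem nn_pv (x0 x1 : ℚ) (h0 : 0 ≤ x0) (h1 : x0 ≤ x1) : ∀ n : ℕ,
    NNc (pv x0 x1 n) ∧ NNc (pv x0 x1 (n+1)) ∧ NNc (pv x0 x1 (n+1) - cf (n+1) * pv x0 x1 n) := by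
  intro n
  induction n with
  | zero =>
    have e0 : pv x0 x1 0 = C x0 := rfl
    have e1 : pv x0 x1 (0+1) = C x1 := rfl
    refine ⟨?_, ?_, ?_⟩
    · rw [e0]; exact nn_C h0
    · rw [e1]; exact nn_C (h0.trans h1)
    · rw [e0, e1]
      have : cf (0+1) = 1 := by
        unfold cf; rw [if_neg (by norm_num)]
      rw [this, one_mul, ← C_sub]
      exact nn_C (by linarith)
  | succ n ih =>
    obtain ⟨h2, h3, h4⟩ := ih
    have h5 : NNc (pv x0 x1 (n+2) - cf n * pv x0 x1 (n+1)) := by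
      rw [key]
      exact nn_mul (nn_C (by positivity))
        (nn_add (nn_mul (nn_cf _) h4) (nn_mul nn_X h2))
    have h6 : cf (n+1+1) = cf n := by
      unfold cf
      have : Even (n+1+1) ↔ Even n := by
        rw [Nat.even_add_one, Nat.even_add_one, not_not]
      simp only [this]
    refine ⟨h3, ?_, ?_⟩
    · have : pv x0 x1 (n+1+1) = (pv x0 x1 (n+2) - cf n * pv x0 x1 (n+1)) +
          cf n * pv x0 x1 (n+1) := by ring
      rw [this]
      exact nn_add h5 (nn_mul (nn_cf _) h3)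
    · rw [h6]; exact h5

end NG1

theorem t_pos : S_pos := by
  intro n j
  exact ⟨(NG1.nn_pv 1 1 (by norm_num) (by norm_num) n).1 j,
    (NG1.nn_pv 2 3 (by norm_num) (by norm_num) n).1 j⟩

end Pool.Agent.NH38.Fork
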