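import Pool.Agent.NH38.Fork.Stubs4

/-!
Thick slits (helper38), task NG2: asymptotics of the coefficients of `vv` and `sv` (helper13).
With `Y = 4ζ(1+ζ)` both families are combinations of two hypergeometric polynomials in `ζ`; the
coefficients in `Y` are found from those in `ζ` by a triangular system.
-/

namespace Pool.Agent.NH38.Fork

open Polynomial Filter Topology

namespace NG2

/-- `∏_{i<j} (a - i)(a + 1 + i)` -/
noncomputable def E (a : ℚ) (j : ℕ) : ℚ := ∏ i ∈ Finset.range j, ((a - i) * (a + 1 + i))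

/-- `∏_{i<j} 1/((c + i)(1 + i))` -/
noncomputable def Dn (c : ℚ) (j : ℕ) : ℚ := ∏ i ∈ Finset.range j, (1 / ((c + i) * (1 + i)))

noncomputable def U (n : ℚ) (j : ℕ) : ℚ :=
  1 / (n + 2) * ∏ i ∈ Finset.range j, ((n + 2 - i) * (n + 2 + i))

lemma E_succ (a : ℚ) (j : ℕ) : E a (j+1) = E a j * ((a - j) * (a + 1 + j)) := by
  unfold E; rw [Finset.prod_range_succ]

lemma E_zero (a : ℚ) : E a 0 = 1 := by simp [E]

lemma Dn_succ (c : ℚ) (j : ℕ) : Dn c (j+1) = Dn c j * (1 / ((c + j) * (1 + j))) := by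
  unfold Dn; rw [Finset.prod_range_succ]

lemma Dn_zero (c : ℚ) : Dn c 0 = 1 := by simp [Dn]

lemma U_succ (a : ℚ) (j : ℕ) : U a (j+1) = U a j * ((a + 2 - j) * (a + 2 + j)) := by
  unfold U; rw [Finset.prod_range_succ]; ring

lemma units (n : ℚ) (hn : 0 ≤ n) (m : ℕ) :
    E (n+2) (m+1) = U n m * ((n+m+2) * (n+m+3) * (n+2-m)) ∧
    E (n+1) (m+1) = U n m * ((n+m+2) * (n+2-m) * (n+1-m)) ∧
    E (n+1) m = U n m * (n+2-m) ∧
    E n (m+1) = U n m * ((n+2-m) * (n+1-m) * (n-m)) := by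
  induction m with
  | zero =>
    have h2 : n + 2 ≠ 0 := by positivity
    have hU : U n 0 = 1 / (n+2) := by simp [U]
    have hE1 : ∀ a : ℚ, E a (0+1) = a * (a + 1) := fun a => by
      rw [E_succ, E_zero]; push_cast; ring
    rw [hE1, hE1, hE1, E_zero, hU]
    refine ⟨?_, ?_, ?_, ?_⟩ <;> push_cast <;> field_simp <;> ring
  | succ m ih =>
    obtain ⟨i2, i4, i5, i6⟩ := ih
    rw [U_succ]
    refine ⟨?_, ?_, ?_, ?_⟩
    · rw [E_succ, i2]; push_cast; ring
    · rw [E_succ, i4]; push_cast; ring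
    · rw [E_succ, i5]; push_cast; ring
    · rw [E_succ, i6]; push_cast; ring

lemma kap_succ (a : ℕ) : kap (a+1) = kap a * (((a:ℚ) + 4/3) / (a + 2/3)) := by
  unfold kap; rw [Finset.prod_range_succ]

lemma kap_zero : kap 0 = 1 := by simp [kap]

lemma kap_pos (a : ℕ) : 0 < kap a := by
  unfold kap
  exact Finset.prod_pos fun i _ => by positivity

lemma kap_low (a : ℕ) : (a:ℚ) + 1 ≤ kap a ^ 2 := by
  induction a with
  | zero => rw [kap_zero]; norm_num
  | succ a ih =>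
    rw [kap_succ, mul_pow]
    have h1 : ((a:ℚ) + 2) / (a + 1) ≤ (((a:ℚ) + 4/3) / (a + 2/3)) ^ 2 := by
      rw [div_pow, div_le_div_iff₀ (by positivity) (by positivity)]
      have : (0:ℚ) ≤ a := by positivity
      nlinarith [mul_nonneg this this]
    calc ((a + 1 : ℕ) : ℚ) + 1 = ((a:ℚ) + 1) * (((a:ℚ) + 2) / (a + 1)) := by
          push_cast; field_simp; ring
      _ ≤ kap a ^ 2 * (((a:ℚ) + 4/3) / (a + 2/3)) ^ 2 :=
          mul_le_mul ih h1 (by positivity) (by positivity)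

lemma kap_upp (a : ℕ) : kap a ≤ (a:ℚ) + 1 := by
  induction a with
  | zero => rw [kap_zero]; norm_num
  | succ a ih =>
    rw [kap_succ]
    have h1 : (((a:ℚ) + 4/3) / (a + 2/3)) ≤ ((a:ℚ) + 2) / (a + 1) := by
      rw [div_le_div_iff₀ (by positivity) (by positivity)]
      have : (0:ℚ) ≤ a := by positivity
      nlinarith
    calc kap a * (((a:ℚ) + 4/3) / (a + 2/3)) ≤ ((a:ℚ) + 1) * (((a:ℚ) + 2) / (a + 1)) :=
          mul_le_mul ih h1 (by positivity) (by positivity)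
      _ = ((a + 1 : ℕ) : ℚ) + 1 := by push_cast; field_simp; ring

/-- the coefficients of `p_n` -/
noncomputable def pc (n j : ℕ) : ℚ := E n j * Dn (2/3) j

/-- the coefficients of `r_n` -/
noncomputable def rc (n j : ℕ) : ℚ := kap n * (E n j * Dn (4/3) j)

/-- the recursion -/
def Rec (F : ℕ → ℕ → ℚ) : Prop := ∀ n : ℕ,
  (3*(n:ℚ)+5) * F (n+2) 0 = (6*(n:ℚ)+9) * F (n+1) 0 - (3*(n:ℚ)+4) * F n 0 ∧
  ∀ m : ℕ, (3*(n:ℚ)+5) * F (n+2) (m+1) = (6*(n:ℚ)+9) * (F (n+1) (m+1) + 2 * F (n+1) m) -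
    (3*(n:ℚ)+4) * F n (m+1)

lemma pc_rec : Rec pc := by
  intro n
  constructor
  · simp only [pc, E_zero, Dn_zero]; ring
  · intro m
    obtain ⟨i2, i4, i5, i6⟩ := units (n:ℚ) (by positivity) m
    simp only [pc]
    push_cast
    rw [i2, i4, i5, i6, Dn_succ]
    generalize U (n:ℚ) m = V
    generalize Dn (2/3) m = W
    have hn : (0:ℚ) ≤ n := by positivity
    have hm : (0:ℚ) ≤ m := by positivity
    generalize (n:ℚ) = x at *
    generalize (m:ℚ) = t at *
    field_simp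
    ring

lemma rc_rec : Rec rc := by
  intro n
  constructor
  · simp only [rc, E_zero, Dn_zero]
    rw [kap_succ (n+1), kap_succ n]
    push_cast
    generalize kap n = K
    have hn : (0:ℚ) ≤ n := by positivity
    generalize (n:ℚ) = x at *
    field_simp
    ring
  · intro m
    obtain ⟨i2, i4, i5, i6⟩ := units (n:ℚ) (by positivity) m
    simp only [rc]
    rw [kap_succ (n+1), kap_succ n]
    push_cast
    rw [i2, i4, i5, i6, Dn_succ]
    generalize kap n = K
    generalize U (n:ℚ) m = V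
    generalize Dn (4/3) m = W
    have hn : (0:ℚ) ≤ n := by positivity
    have hm : (0:ℚ) ≤ m := by positivity
    generalize (n:ℚ) = x at *
    generalize (m:ℚ) = t at *
    field_simp
    ring

/-- shift of the coefficients (multiplication by `X`) -/
def sh (F : ℕ → ℕ → ℚ) : ℕ → ℕ → ℚ := fun n j => if j = 0 then 0 else F n (j-1)

lemma sh_rec {F : ℕ → ℕ → ℚ} (h : Rec F) : Rec (sh F) := by
  intro n
  constructor
  · simp [sh]
  · intro m
    rcases m with _ | m
    · have := (h n).1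
      simp only [sh]
      simpa using this
    · have := (h n).2 m
      simp only [sh]
      simpa using this

lemma add_rec {F G : ℕ → ℕ → ℚ} (a b : ℚ) (hF : Rec F) (hG : Rec G) :
    Rec (fun n j => a * F n j + b * G n j) := by
  intro n
  constructor
  · linear_combination a * (hF n).1 + b * (hG n).1
  · intro m
    linear_combination a * (hF n).2 m + b * (hG n).2 m

/-- the polynomial in `ζ` -/
noncomputable def QQ (x0 x1 : ℚ) (n : ℕ) : ℚ[X] :=
  (if Even n then 1 else (1 + 2 * X)) * (pv x0 x1 n).comp (4 * X * (1 + X))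

lemma QQ_rec (x0 x1 : ℚ) (n : ℕ) : C (3*(n:ℚ)+5) * QQ x0 x1 (n+2) =
    C (6*(n:ℚ)+9) * ((1 + 2 * X) * QQ x0 x1 (n+1)) - C (3*(n:ℚ)+4) * QQ x0 x1 n := by
  unfold QQ
  rw [pv]
  have h5 : (3*(n:ℚ)+5) ≠ 0 := by positivity
  have hC : (C (3*(n:ℚ)+5) * C (1 / (3*(n:ℚ)+5)) : ℚ[X]) = 1 := by
    rw [← C_mul, mul_one_div_cancel h5, C_1]
  by_cases he : Even n
  · have h1' : ¬ Even (n+1) := by rw [Nat.even_add_one]; simpa using he
    have h2' : Even (n+2) := by
      have := (Nat.even_add_one (n := n+1)).mpr h1'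
      simpa using this
    rw [if_pos he, if_neg h1', if_pos h2', if_pos he]
    simp only [mul_comp, sub_comp, add_comp, C_comp, X_comp, one_comp]
    linear_combination ((C (6*(n:ℚ)+9) * (1 + 4 * X * (1 + X)) *
      (pv x0 x1 (n+1)).comp (4 * X * (1 + X)) -
        C (3*(n:ℚ)+4) * (pv x0 x1 n).comp (4 * X * (1 + X)))) * hC
  · have h1' : Even (n+1) := by rw [Nat.even_add_one]; simpa using he
    have h2' : ¬ Even (n+2) := by
      intro h
      have := (Nat.even_add_one (n := n+1)).mp h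
      exact this h1'
    rw [if_neg he, if_pos h1', if_neg h2', if_neg he]
    simp only [mul_comp, sub_comp, C_comp, one_comp]
    linear_combination ((1 + 2 * X) * (C (6*(n:ℚ)+9) *
      (pv x0 x1 (n+1)).comp (4 * X * (1 + X)) -
        C (3*(n:ℚ)+4) * (pv x0 x1 n).comp (4 * X * (1 + X)))) * hC

lemma QQ_coeff (x0 x1 : ℚ) (F : ℕ → ℕ → ℚ) (hF : Rec F)
    (h0 : ∀ j, F 0 j = if j = 0 then x0 else 0)
    (h1 : ∀ j, F 1 j = if j = 0 then x1 else if j = 1 then 2 * x1 else 0) (n : ℕ) :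
    ∀ j, (QQ x0 x1 n).coeff j = F n j := by
  induction n using Nat.twoStepInduction with
  | zero =>
    intro j
    rw [h0]
    unfold QQ
    rw [pv, if_pos (by decide : Even 0), one_mul, C_comp, coeff_C]
  | one =>
    intro j
    rw [h1]
    unfold QQ
    rw [pv, if_neg (by decide : ¬ Even 1), C_comp, coeff_mul_C]
    rcases j with _ | _ | j
    · simp
    · have : ((1 + 2 * X : ℚ[X])).coeff 1 = 2 := by
        rw [coeff_add, coeff_one, mul_comm (2:ℚ[X]) X, coeff_X_mul]; simp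
      simp [this]
    · have : ((1 + 2 * X : ℚ[X])).coeff (j+2) = 0 := by
        rw [coeff_add, coeff_one, mul_comm (2:ℚ[X]) X, coeff_X_mul]
        have : ((2:ℚ[X])).coeff (j+1) = 0 := by
          rw [show (2:ℚ[X]) = C 2 from rfl, coeff_C]; simp
        simp [this]
      simp [this]
  | more n i0 i1 =>
    intro j
    have h5 : (3*(n:ℚ)+5) ≠ 0 := by positivity
    apply mul_left_cancel₀ h5
    have hr := congrArg (fun f : ℚ[X] => f.coeff j) (QQ_rec x0 x1 n)
    simp only [coeff_sub, coeff_C_mul] at hr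
    rw [hr, i0 j]
    rcases j with _ | m
    · have e : ((1 + 2 * X : ℚ[X]) * QQ x0 x1 (n+1)).coeff 0 = (QQ x0 x1 (n+1)).coeff 0 := by
        rw [mul_coeff_zero]; simp
      rw [e, i1 0]
      linear_combination - (hF n).1
    · have e : ((1 + 2 * X : ℚ[X]) * QQ x0 x1 (n+1)).coeff (m+1) =
          (QQ x0 x1 (n+1)).coeff (m+1) + 2 * (QQ x0 x1 (n+1)).coeff m := by
        have : (1 + 2 * X : ℚ[X]) * QQ x0 x1 (n+1) =
            QQ x0 x1 (n+1) + C 2 * (X * QQ x0 x1 (n+1)) := by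
          rw [show (C (2:ℚ) : ℚ[X]) = 2 from rfl]; ring
        rw [this, coeff_add, coeff_C_mul, coeff_X_mul]
      rw [e, i1 (m+1), i1 m]
      linear_combination - (hF n).2 m

/-- the triangular matrix -/
noncomputable def wt (i j : ℕ) : ℚ := ((1 + 2 * X : ℚ[X]) * (4 * X * (1 + X))^i).coeff j

lemma wt_fac (i : ℕ) : (1 + 2 * X : ℚ[X]) * (4 * X * (1 + X))^i =
    X^i * ((1 + 2 * X) * (4 * (1 + X))^i) := by
  have : (4 * X * (1 + X) : ℚ[X]) = X * (4 * (1 + X)) := by ring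
  rw [this, mul_pow]; ring

lemma wt_zero {i j : ℕ} (h : j < i) : wt i j = 0 := by
  unfold wt
  rw [wt_fac, coeff_X_pow_mul', if_neg (by omega)]

lemma wt_self (j : ℕ) : wt j j = 4^j := by
  unfold wt
  rw [wt_fac, coeff_X_pow_mul', if_pos le_rfl, Nat.sub_self, mul_coeff_zero, coeff_zero_eq_eval_zero,
    coeff_zero_eq_eval_zero]
  simp

lemma QQ_expand (x0 x1 : ℚ) (n : ℕ) (hn : ¬ Even n) (j : ℕ) :
    (QQ x0 x1 n).coeff j = ∑ i ∈ Finset.range (j+1), (pv x0 x1 n).coeff i * wt i j := by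
  unfold QQ
  rw [if_neg hn]
  set f := pv x0 x1 n
  have h1 : f.comp (4 * X * (1 + X)) =
      ∑ i ∈ Finset.range (f.natDegree + j + 1), C (f.coeff i) * (4 * X * (1 + X))^i := by
    unfold comp
    rw [eval₂_eq_sum_range' C (n := f.natDegree + j + 1) (by omega)]
  rw [h1, Finset.mul_sum, finsetSum_coeff]
  have h2 : ∀ i, ((1 + 2 * X : ℚ[X]) * (C (f.coeff i) * (4 * X * (1 + X))^i)).coeff j =
      f.coeff i * wt i j := by
    intro i
    unfold wt
    rw [show (1 + 2 * X : ℚ[X]) * (C (f.coeff i) * (4 * X * (1 + X))^i) =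
      C (f.coeff i) * ((1 + 2 * X : ℚ[X]) * (4 * X * (1 + X))^i) by ring, coeff_C_mul]
  rw [Finset.sum_congr rfl (fun i _ => h2 i)]
  symm
  apply Finset.sum_subset
  · intro i hi
    rw [Finset.mem_range] at *
    omega
  · intro i _ hi
    rw [Finset.mem_range] at hi
    rw [wt_zero (by omega), mul_zero]

end NG2

namespace NG2

lemma Nlim : Tendsto (fun i : ℕ => ((2*i+1 : ℕ) : ℝ)) atTop atTop := by
  refine tendsto_natCast_atTop_atTop.comp ?_
  refine tendsto_atTop_mono (fun i => ?_) tendsto_id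
  simp only [id]; omega

lemma Npos (i : ℕ) : (0:ℝ) < ((2*i+1 : ℕ) : ℝ) := by positivity

lemma inv_lim (c : ℝ) : Tendsto (fun i : ℕ => c / ((2*i+1 : ℕ) : ℝ)) atTop (𝓝 0) :=
  Nlim.const_div_atTop c

lemma invpow_lim {k : ℕ} (hk : k ≠ 0) :
    Tendsto (fun i : ℕ => 1 / ((2*i+1 : ℕ) : ℝ)^k) atTop (𝓝 0) := by
  have h := (inv_lim 1).pow k
  rw [zero_pow hk] at h
  refine h.congr fun i => ?_
  rw [div_pow, one_pow]

lemma E_lim (j : ℕ) : Tendsto (fun i : ℕ => ((E ((2*i+1 : ℕ) : ℚ) j : ℚ) : ℝ) /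
    ((2*i+1 : ℕ) : ℝ)^(2*j)) atTop (𝓝 1) := by
  induction j with
  | zero => simp [E_zero]
  | succ j ih =>
    have h1 : Tendsto (fun i : ℕ => 1 - (j:ℝ) / ((2*i+1 : ℕ) : ℝ)) atTop (𝓝 1) := by
      simpa using (inv_lim (j:ℝ)).const_sub 1
    have h2 : Tendsto (fun i : ℕ => 1 + (1 + (j:ℝ)) / ((2*i+1 : ℕ) : ℝ)) atTop (𝓝 1) := by
      simpa using (inv_lim (1 + (j:ℝ))).const_add 1
    have h3 := (ih.mul h1).mul h2
    rw [mul_one, mul_one] at h3
    refine h3.congr fun i => ?_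
    have hN := (Npos i).ne'
    rw [E_succ]
    generalize E ((2*i+1 : ℕ) : ℚ) j = e
    push_cast at hN ⊢
    rw [show 2 * (j+1) = 2*j + 2 by ring, pow_add]
    field_simp
    ring

lemma pc_lim (c : ℚ) (j : ℕ) : Tendsto (fun i : ℕ =>
    ((E ((2*i+1 : ℕ) : ℚ) j * Dn c j : ℚ) : ℝ) / ((2*i+1 : ℕ) : ℝ)^(2*j)) atTop
    (𝓝 ((Dn c j : ℚ) : ℝ)) := by
  have h := (E_lim j).mul_const ((Dn c j : ℚ) : ℝ)
  rw [one_mul] at h
  refine h.congr fun i => ?_
  push_cast
  ring

lemma kap_lim : Tendsto (fun i : ℕ => ((kap (2*i+1) : ℚ) : ℝ)) atTop atTop := by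
  have h : Tendsto (fun i : ℕ => ((kap (2*i+1) : ℚ) : ℝ)^2) atTop atTop := by
    refine tendsto_atTop_mono (fun i => ?_) Nlim
    have := kap_low (2*i+1)
    have h2 : (((2*i+1 : ℕ) : ℚ)) ≤ kap (2*i+1)^2 := by linarith
    exact_mod_cast h2
  rw [tendsto_atTop] at h ⊢
  intro b
  filter_upwards [h (b^2)] with i hi
  have hk : (0:ℝ) < ((kap (2*i+1) : ℚ) : ℝ) := by exact_mod_cast kap_pos (2*i+1)
  exact (le_abs_self b).trans (abs_le_of_sq_le_sq hi hk.le)

lemma kap_div_lim : Tendsto (fun i : ℕ => ((kap (2*i+1) : ℚ) : ℝ) / ((2*i+1 : ℕ) : ℝ)^2) atTop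
    (𝓝 0) := by
  have h1 : Tendsto (fun i : ℕ => 2 / ((2*i+1 : ℕ) : ℝ)) atTop (𝓝 0) := inv_lim 2
  refine squeeze_zero (fun i => ?_) (fun i => ?_) h1
  · have hk : (0:ℝ) < ((kap (2*i+1) : ℚ) : ℝ) := by exact_mod_cast kap_pos (2*i+1)
    positivity
  · have hk := kap_upp (2*i+1)
    have hk' : ((kap (2*i+1) : ℚ) : ℝ) ≤ ((2*i+1 : ℕ) : ℝ) + 1 := by exact_mod_cast hk
    have hN := Npos i
    have hN1 : (1:ℝ) ≤ ((2*i+1 : ℕ) : ℝ) := by exact_mod_cast (by omega : 1 ≤ 2*i+1)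
    rw [div_le_div_iff₀ (by positivity) hN]
    nlinarith

/-- the triangular system -/
lemma tri (K : ℕ → ℝ) (hK : ∀ i, K i ≠ 0) (v R : ℕ → ℕ → ℝ) (w : ℕ → ℕ → ℝ) (ρ : ℕ → ℝ)
    (hw : ∀ j, w j j = 4^j)
    (hs : ∀ i j, ∑ k ∈ Finset.range (j+1), v i k * w k j = R i j)
    (hR : ∀ j, Tendsto (fun i => R i j / (K i * ((2*i+1 : ℕ) : ℝ)^(2*j))) atTop (𝓝 (ρ j))) (j : ℕ) :
    Tendsto (fun i => v i j / (K i * ((2*i+1 : ℕ) : ℝ)^(2*j))) atTop (𝓝 (ρ j / 4^j)) := by
  induction j using Nat.strong_induction_on with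
  | _ j ih =>
    have h1 : Tendsto (fun i => ∑ k ∈ Finset.range j, v i k * w k j /
        (K i * ((2*i+1 : ℕ) : ℝ)^(2*j))) atTop (𝓝 0) := by
      rw [show (0:ℝ) = ∑ k ∈ Finset.range j, (0:ℝ) by simp]
      refine tendsto_finsetSum _ fun k hk => ?_
      have hkj : k < j := Finset.mem_range.mp hk
      have h2 := ((ih k hkj).mul_const (w k j)).mul (invpow_lim (k := 2*(j-k)) (by omega))
      rw [mul_zero] at h2
      refine h2.congr fun i => ?_
      have hN := (Npos i).ne'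
      have hKi := hK i
      rw [show 2*j = 2*k + 2*(j-k) by omega, pow_add]
      field_simp
    have h2 := ((hR j).sub h1).div_const ((4:ℝ)^j)
    rw [sub_zero] at h2
    refine h2.congr fun i => ?_
    have h3 := hs i j
    rw [Finset.sum_range_succ, hw] at h3
    rw [← Finset.sum_div, ← sub_div]
    have h4 : R i j - ∑ k ∈ Finset.range j, v i k * w k j = v i j * 4^j := by linarith
    rw [h4]
    have hN := (Npos i).ne'
    have hKi := hK i
    field_simp

lemma Dn_eq (c : ℚ) (hc : 0 < c) (j : ℕ) : ((Dn c j : ℚ) : ℝ) =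
    1 / (rf (c:ℝ) j * (Nat.factorial j : ℝ)) := by
  induction j with
  | zero => simp [Dn, rf]
  | succ j ih =>
    rw [Dn_succ, Rat.cast_mul, ih]
    unfold rf
    rw [Finset.prod_range_succ, Nat.factorial_succ]
    have h1 : (0:ℝ) < ∏ i ∈ Finset.range j, ((c:ℝ) + i) := by
      have : (0:ℝ) < c := by exact_mod_cast hc
      exact Finset.prod_pos fun i _ => by positivity
    have h2 : (0:ℝ) < (j.factorial : ℝ) := by exact_mod_cast j.factorial_pos
    have h3 : (0:ℝ) < c + j := by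
      have : (0:ℝ) < c := by exact_mod_cast hc
      positivity
    push_cast
    field_simp
    ring

lemma sv_sum (n : ℕ) (hn : ¬ Even n) (j : ℕ) :
    ∑ i ∈ Finset.range (j+1), (sv n).coeff i * wt i j = pc n j + rc n j := by
  have h := QQ_coeff 2 3 (fun n j => 1 * pc n j + 1 * rc n j) (add_rec 1 1 pc_rec rc_rec) (by
    intro j
    rcases j with _ | j
    · simp [pc, rc, E_zero, Dn_zero, kap_zero]; norm_num
    · have : E ((0:ℕ):ℚ) (j+1) = 0 := by
        unfold E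
        exact Finset.prod_eq_zero (Finset.mem_range.mpr (Nat.succ_pos j)) (by simp)
      simp only [pc, rc, this]; simp) (by
    intro j
    have hk1 : kap 1 = 2 := by rw [kap_succ, kap_zero]; norm_num
    rcases j with _ | _ | j
    · simp [pc, rc, E_zero, Dn_zero, hk1]; norm_num
    · simp only [pc, rc, hk1, E_succ, E_zero, Dn_succ, Dn_zero]; norm_num
    · have : E ((1:ℕ):ℚ) (j+1+1) = 0 := by
        unfold E
        exact Finset.prod_eq_zero (Finset.mem_range.mpr (by omega : 1 < j+1+1)) (by simp)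
      simp only [pc, rc, this]; simp) n j
  rw [QQ_expand 2 3 n hn j] at h
  have h2 : ∑ i ∈ Finset.range (j+1), (sv n).coeff i * wt i j =
      ∑ i ∈ Finset.range (j+1), (pv 2 3 n).coeff i * wt i j := rfl
  rw [h2, h]
  ring

lemma vv_sum (n : ℕ) (hn : ¬ Even n) (j : ℕ) :
    ∑ i ∈ Finset.range (j+1), (vv n).coeff i * wt i j = pc n j + (sh pc n j - sh rc n j) := by
  have h := QQ_coeff 1 1 (fun n j => 1 * pc n j + 1 * (1 * sh pc n j + (-1) * sh rc n j))
    (add_rec 1 1 pc_rec (add_rec 1 (-1) (sh_rec pc_rec) (sh_rec rc_rec))) (by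
    intro j
    have hz : ∀ j, E ((0:ℕ):ℚ) (j+1) = 0 := fun j => by
      unfold E
      exact Finset.prod_eq_zero (Finset.mem_range.mpr (Nat.succ_pos j)) (by simp)
    rcases j with _ | _ | j
    · simp [pc, sh, E_zero, Dn_zero]
    · simp only [sh]
      simp [pc, rc, E_zero, Dn_zero, kap_zero, E_succ]
    · have h1 : E ((0:ℕ):ℚ) (j+1+1-1) = 0 := hz j
      simp only [sh, pc, rc, hz, h1]
      simp) (by
    intro j
    have hk1 : kap 1 = 2 := by rw [kap_succ, kap_zero]; norm_num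
    have hz : ∀ j, E ((1:ℕ):ℚ) (j+1+1) = 0 := fun j => by
      unfold E
      exact Finset.prod_eq_zero (Finset.mem_range.mpr (by omega : 1 < j+1+1)) (by simp)
    rcases j with _ | _ | _ | j
    · simp [pc, sh, E_zero, Dn_zero]
    · simp only [sh, pc, rc, hk1, E_succ, E_zero, Dn_succ, Dn_zero]; norm_num
      simp [E, Dn]; norm_num
    · simp only [sh, pc, rc, hk1, hz]
      simp [E, Dn]; norm_num
    · have : E ((1:ℕ):ℚ) (j+1+1+1-1) = 0 := hz j
      simp only [sh, pc, rc, hz, this]; simp) n j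
  rw [QQ_expand 1 1 n hn j] at h
  have h2 : ∑ i ∈ Finset.range (j+1), (vv n).coeff i * wt i j =
      ∑ i ∈ Finset.range (j+1), (pv 1 1 n).coeff i * wt i j := rfl
  rw [h2, h]
  ring

end NG2

theorem t_vvA : S_vvA := by
  intro j
  have hodd : ∀ i : ℕ, ¬ Even (2*i+1) := fun i => by
    rw [Nat.not_even_iff_odd]; exact ⟨i, rfl⟩
  have h := NG2.tri (fun _ => 1) (fun _ => one_ne_zero)
    (fun i k => (((vv (2*i+1)).coeff k : ℚ) : ℝ))
    (fun i k => ((NG2.pc (2*i+1) k + (NG2.sh NG2.pc (2*i+1) k - NG2.sh NG2.rc (2*i+1) k) : ℚ) : ℝ))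
    (fun k l => ((NG2.wt k l : ℚ) : ℝ)) (fun k => ((NG2.Dn (2/3) k : ℚ) : ℝ))
    (fun k => by simp only [NG2.wt_self]; push_cast; rfl)
    (fun i k => by
      have := NG2.vv_sum (2*i+1) (hodd i) k
      exact_mod_cast this)
    (by
      intro k
      have h1 := NG2.pc_lim (2/3) k
      rcases k with _ | k
      · refine h1.congr fun i => ?_
        simp [NG2.pc, NG2.sh]
      · have h2 := (NG2.pc_lim (2/3) k).mul (NG2.invpow_lim (k := 2) (by norm_num))
        have h3 := (NG2.pc_lim (4/3) k).mul NG2.kap_div_lim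
        have h4 := h1.add (h2.sub h3)
        rw [mul_zero, mul_zero, sub_zero, add_zero] at h4
        refine h4.congr fun i => ?_
        have hN := (NG2.Npos i).ne'
        simp only [NG2.pc, NG2.rc, NG2.sh]
        rw [if_neg (Nat.succ_ne_zero k), if_neg (Nat.succ_ne_zero k), Nat.add_sub_cancel]
        rw [show 2 * (k+1) = 2*k + 2 by ring, pow_add]
        push_cast
        push_cast at hN
        field_simp) j
  rw [NG2.Dn_eq (2/3) (by norm_num)] at h
  have e : (1 / (rf (((2/3 : ℚ)) : ℝ) j * (Nat.factorial j : ℝ)) / 4^j) =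
      1 / (4^j * rf (2/3) j * (Nat.factorial j : ℝ)) := by
    have : (((2/3 : ℚ)) : ℝ) = 2/3 := by norm_num
    rw [this, div_div]
    congr 1
    ring
  rw [e] at h
  refine h.congr fun i => ?_
  simp only [one_mul]

theorem t_svA : S_svA := by
  intro j
  have hodd : ∀ i : ℕ, ¬ Even (2*i+1) := fun i => by
    rw [Nat.not_even_iff_odd]; exact ⟨i, rfl⟩
  have hkp : ∀ i : ℕ, ((kap (2*i+1) : ℚ) : ℝ) ≠ 0 := fun i => by
    exact_mod_cast (NG2.kap_pos (2*i+1)).ne'
  have h := NG2.tri (fun i => ((kap (2*i+1) : ℚ) : ℝ)) hkp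
    (fun i k => (((sv (2*i+1)).coeff k : ℚ) : ℝ))
    (fun i k => ((NG2.pc (2*i+1) k + NG2.rc (2*i+1) k : ℚ) : ℝ))
    (fun k l => ((NG2.wt k l : ℚ) : ℝ)) (fun k => ((NG2.Dn (4/3) k : ℚ) : ℝ))
    (fun k => by simp only [NG2.wt_self]; push_cast; rfl)
    (fun i k => by
      have := NG2.sv_sum (2*i+1) (hodd i) k
      exact_mod_cast this)
    (by
      intro k
      have h1 := (NG2.pc_lim (2/3) k).mul (NG2.kap_lim.const_div_atTop 1)
      have h2 := NG2.pc_lim (4/3) k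
      have h4 := h1.add h2
      rw [mul_zero, zero_add] at h4
      refine h4.congr fun i => ?_
      have hN := (NG2.Npos i).ne'
      have hK := hkp i
      simp only [NG2.pc, NG2.rc]
      push_cast
      push_cast at hN
      field_simp) j
  rw [NG2.Dn_eq (4/3) (by norm_num)] at h
  have e : (1 / (rf (((4/3 : ℚ)) : ℝ) j * (Nat.factorial j : ℝ)) / 4^j) =
      1 / (4^j * rf (4/3) j * (Nat.factorial j : ℝ)) := by
    have : (((4/3 : ℚ)) : ℝ) = 4/3 := by norm_num
    rw [this, div_div]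
    congr 1
    ring
  rw [e] at h
  refine h.congr fun i => ?_
  rw [Rat.cast_div, div_div]

end Pool.Agent.NH38.Fork
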