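import Pool.Agent.NH38.Fork.Stubs4
import Pool.Agent.NH97.WI2

/-!
Task FG-N3 (helper97): the algebraic generating function.  The proof (recurrence of the
coefficients, differential equation, constants of motion) is in `Pool/Agent/NH97/WI1.lean`
and `Pool/Agent/NH97/WI2.lean`.
-/

namespace Pool.Agent.NH38.Fork

theorem t_WI : S_WI := by
  intro A B hA hB h
  exact Pool.Agent.NH97.WI.main A B hA hB h

end Pool.Agent.NH38.Fork
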