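import Pool.Agent.NH38.Fork.Stubs4
import Pool.Agent.NH38.Fork.N5
import Pool.Agent.NH38.Step.A2f

/-!
Thick slits (helper38): task NG4, the limit function. helper68.
-/

set_option autoImplicit false

namespace Pool.Agent.NH38.Fork

open Filter Topology MeasureTheory

namespace NG4

open Pool.Agent.NH38.Step (cardy)
open Pool.Agent.NH38.Step.A2 (BB BB_pos cardy_zero cardy_cont cardy_deriv)
open Pool.Agent.H757R2.CardyLimit (gd int_gd)

theorem rf_pos {s : ℝ} (hs : 0 < s) (n : ℕ) : 0 < rf s n :=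
  Finset.prod_pos fun i _ => by positivity

theorem wp_nonneg {A B : ℝ} (hA : 0 < A) (hB : 0 < B) (m : ℕ) : 0 ≤ wp A B m := by
  refine Finset.sum_nonneg fun i _ => ?_
  have h1 := rf_pos (s := 4/3) (by norm_num) m
  have h2 := rf_pos (s := 2/3) (by norm_num) m
  have h3 := rf_pos (s := 2/3) (by norm_num) i
  have h4 := rf_pos (s := 4/3) (by norm_num) (m - i)
  positivity

/-- the recursion of the rising factorial -/
theorem rf_shift (m : ℕ) : rf (1/3) m * (m + 1/3) = 1/3 * rf (4/3) m := by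
  induction m with
  | zero => simp [rf]
  | succ m ih =>
    have h1 : rf (1/3) (m+1) = rf (1/3) m * (1/3 + m) := Finset.prod_range_succ _ _
    have h2 : rf (4/3) (m+1) = rf (4/3) m * (4/3 + m) := Finset.prod_range_succ _ _
    rw [h1, h2]
    push_cast
    linear_combination (4/3 + (m:ℝ)) * ih

theorem ap_eq (A B : ℝ) (m : ℕ) : ap A B m = 1/3 * (wp A B m * (1 / ((m:ℝ) + 1/3))) := by
  have hm : (m:ℝ) + 1/3 ≠ 0 := by positivity
  have h1 : rf (1/3) m = 1/3 * rf (4/3) m * (1 / ((m:ℝ) + 1/3)) := by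
    rw [← rf_shift]
    field_simp
  unfold ap wp
  rw [Finset.sum_mul, Finset.mul_sum]
  refine Finset.sum_congr rfl fun i _ => ?_
  rw [h1]
  ring

theorem wp_scale (A B t : ℝ) (m : ℕ) : wp (t * A) (t * B) m = t ^ m * wp A B m := by
  unfold wp
  rw [Finset.mul_sum]
  refine Finset.sum_congr rfl fun i hi => ?_
  have hi' : i ≤ m := Nat.lt_succ_iff.1 (Finset.mem_range.1 hi)
  have h1 : t ^ m = t ^ i * t ^ (m - i) := by
    rw [← pow_add]
    congr 1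
    omega
  rw [mul_pow, mul_pow, h1]
  ring

section

variable {ρ σ : ℝ} (hρ : 0 < ρ) (hσ : 0 < σ) (hρσ : ρ + σ < 1)
include hρ hσ hρσ

theorem disc_pos {t : ℝ} (h0 : 0 ≤ t) (h1 : t ≤ 1) :
    0 < (1 + t * ρ^2 - t * σ^2)^2 - 4 * (t * ρ^2) := by
  set s := √t with hs
  have hss : s^2 = t := Real.sq_sqrt h0
  have hs0 : 0 ≤ s := Real.sqrt_nonneg _
  have hs1 : s ≤ 1 := Real.sqrt_le_iff.2 ⟨zero_le_one, by linarith⟩
  have e : (1 + t * ρ^2 - t * σ^2)^2 - 4 * (t * ρ^2) =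
      (1 - s * ρ - s * σ) * (1 - s * ρ + s * σ) * (1 + s * ρ - s * σ) * (1 + s * ρ + s * σ) := by
    rw [← hss]; ring
  have a1 : s * ρ ≤ ρ := by nlinarith
  have a2 : s * σ ≤ σ := by nlinarith
  have a3 : 0 ≤ s * ρ := by positivity
  have a4 : 0 ≤ s * σ := by positivity
  have b1 : 0 < 1 - s * ρ - s * σ := by linarith
  have b2 : 0 < 1 - s * ρ + s * σ := by linarith
  have b3 : 0 < 1 + s * ρ - s * σ := by linarith
  have b4 : 0 < 1 + s * ρ + s * σ := by linarith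
  rw [e]
  positivity

/-- the facts about the roots -/
theorem roots {t : ℝ} (h0 : 0 ≤ t) (h1 : t ≤ 1) :
    0 < rr (t * ρ^2) (t * σ^2) ∧
    x2 (t * ρ^2) (t * σ^2) - x1 (t * ρ^2) (t * σ^2) = rr (t * ρ^2) (t * σ^2) ∧
    x1 (t * ρ^2) (t * σ^2) * x2 (t * ρ^2) (t * σ^2) = t * ρ^2 ∧
    0 ≤ x1 (t * ρ^2) (t * σ^2) ∧ x1 (t * ρ^2) (t * σ^2) ≤ 1 ∧ 0 < x2 (t * ρ^2) (t * σ^2) ∧
    (0 < t → 0 < x1 (t * ρ^2) (t * σ^2) ∧ x1 (t * ρ^2) (t * σ^2) < 1) := by
  have hd := disc_pos hρ hσ hρσ h0 h1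
  have hr : 0 < rr (t * ρ^2) (t * σ^2) := Real.sqrt_pos.2 hd
  have hrr : rr (t * ρ^2) (t * σ^2)^2 = (1 + t * ρ^2 - t * σ^2)^2 - 4 * (t * ρ^2) :=
    Real.sq_sqrt hd.le
  have hσ1 : σ^2 < 1 := by nlinarith
  have hρ1 : ρ^2 < 1 := by nlinarith
  have htσ : t * σ^2 < 1 := by nlinarith [sq_nonneg σ]
  have htρ : t * ρ^2 < 1 := by nlinarith [sq_nonneg ρ]
  have hp : 0 ≤ t * ρ^2 := by positivity
  have hq : 0 ≤ t * σ^2 := by positivity
  set r := rr (t * ρ^2) (t * σ^2) with hrdef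
  set A := t * ρ^2 with hA
  set B := t * σ^2 with hB
  have e1 : x1 A B = ((1 + A - B) - r) / 2 := rfl
  have e2 : x2 A B = ((1 + A - B) + r) / 2 := rfl
  have h12 : x1 A B * x2 A B = A := by
    rw [e1, e2]
    linear_combination (-1/4 : ℝ) * hrr
  have h3 : (1 - x1 A B) * (1 - x2 A B) = B := by
    rw [e1, e2]
    linear_combination (-1/4 : ℝ) * hrr
  have hx2 : 0 < x2 A B := by rw [e2]; linarith
  have hx1 : 0 ≤ x1 A B := by
    by_contra hcon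
    push Not at hcon
    nlinarith
  have hx1' : x1 A B < x2 A B := by rw [e1, e2]; linarith
  have hsum : x1 A B + x2 A B = 1 + A - B := by rw [e1, e2]; ring
  have hx11 : x1 A B ≤ 1 := by
    by_contra hcon
    push Not at hcon
    nlinarith
  refine ⟨hr, by rw [e1, e2]; ring, h12, hx1, hx11, hx2, fun ht => ?_⟩
  have hp' : 0 < A := by rw [hA]; positivity
  have hq' : 0 < B := by rw [hB]; positivity
  constructor
  · rcases hx1.eq_or_lt with h | h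
    · rw [← h, zero_mul] at h12
      linarith
    · exact h
  · rcases hx11.eq_or_lt with h | h
    · rw [h, sub_self, zero_mul] at h3
      linarith
    · exact h

omit hρ hσ hρσ in
theorem root_cont : ContinuousOn (fun t : ℝ => x1 (t * ρ^2) (t * σ^2)) (Set.Icc 0 1) := by
  unfold x1 rr
  fun_prop

theorem root_deriv {t : ℝ} (h0 : 0 < t) (h1 : t < 1) :
    HasDerivAt (fun t : ℝ => x1 (t * ρ^2) (t * σ^2))
      (x1 (t * ρ^2) (t * σ^2) * (1 - x1 (t * ρ^2) (t * σ^2)) / (t * rr (t * ρ^2) (t * σ^2))) t := by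
  have hd := disc_pos hρ hσ hρσ h0.le h1.le
  have hr : 0 < rr (t * ρ^2) (t * σ^2) := Real.sqrt_pos.2 hd
  have hrr : rr (t * ρ^2) (t * σ^2)^2 = (1 + t * ρ^2 - t * σ^2)^2 - 4 * (t * ρ^2) :=
    Real.sq_sqrt hd.le
  have g1 : HasDerivAt (fun t : ℝ => 1 + t * ρ^2 - t * σ^2) (ρ^2 - σ^2) t := by
    refine ((((hasDerivAt_id t).mul_const (ρ^2)).const_add 1).sub
      ((hasDerivAt_id t).mul_const (σ^2))).congr_deriv ?_
    ring
  have g2 : HasDerivAt (fun t : ℝ => (1 + t * ρ^2 - t * σ^2)^2 - 4 * (t * ρ^2))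
      (2 * (1 + t * ρ^2 - t * σ^2) * (ρ^2 - σ^2) - 4 * ρ^2) t := by
    refine ((g1.pow 2).sub (((hasDerivAt_id t).mul_const (ρ^2)).const_mul 4)).congr_deriv ?_
    simp
  have g3 := g2.sqrt hd.ne'
  have g4 := (g1.sub g3).div_const 2
  have e : (x1 (t * ρ^2) (t * σ^2) * (1 - x1 (t * ρ^2) (t * σ^2)) /
      (t * rr (t * ρ^2) (t * σ^2))) = (ρ^2 - σ^2 -
        (2 * (1 + t * ρ^2 - t * σ^2) * (ρ^2 - σ^2) - 4 * ρ^2) /
        (2 * √((1 + t * ρ^2 - t * σ^2)^2 - 4 * (t * ρ^2)))) / 2 := by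
    have e1 : √((1 + t * ρ^2 - t * σ^2)^2 - 4 * (t * ρ^2)) = rr (t * ρ^2) (t * σ^2) := rfl
    have e2 : x1 (t * ρ^2) (t * σ^2) =
      ((1 + t * ρ^2 - t * σ^2) - rr (t * ρ^2) (t * σ^2)) / 2 := rfl
    rw [e1, e2]
    set r := rr (t * ρ^2) (t * σ^2) with hrdef
    field_simp
    linear_combination (-1 : ℝ) * hrr
  rw [e]
  exact g4

theorem integ : IntervalIntegrable (fun t : ℝ => t^(-(2:ℝ)/3) *
      ((1 - x1 (t * ρ^2) (t * σ^2))^((1:ℝ)/3) * (x2 (t * ρ^2) (t * σ^2))^(-(1:ℝ)/3) /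
        (x2 (t * ρ^2) (t * σ^2) - x1 (t * ρ^2) (t * σ^2)))) volume 0 1 ∧
    ∫ t in (0:ℝ)..1, t^(-(2:ℝ)/3) *
      ((1 - x1 (t * ρ^2) (t * σ^2))^((1:ℝ)/3) * (x2 (t * ρ^2) (t * σ^2))^(-(1:ℝ)/3) /
        (x2 (t * ρ^2) (t * σ^2) - x1 (t * ρ^2) (t * σ^2))) =
      (ρ^((2:ℝ)/3))⁻¹ * (BB * cardy (x1 (ρ^2) (σ^2))) := by
  set W : ℝ → ℝ := fun t => t^(-(2:ℝ)/3) *
      ((1 - x1 (t * ρ^2) (t * σ^2))^((1:ℝ)/3) * (x2 (t * ρ^2) (t * σ^2))^(-(1:ℝ)/3) /
        (x2 (t * ρ^2) (t * σ^2) - x1 (t * ρ^2) (t * σ^2))) with hW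
  set g : ℝ → ℝ := fun t => (ρ^((2:ℝ)/3))⁻¹ * (BB * cardy (x1 (t * ρ^2) (t * σ^2))) with hg
  have hcont : ContinuousOn g (Set.Icc 0 1) := by
    have h1 : ContinuousOn (fun t : ℝ => cardy (x1 (t * ρ^2) (t * σ^2))) (Set.Icc 0 1) :=
      cardy_cont.comp (root_cont) fun t ht => by
        have := roots hρ hσ hρσ ht.1 ht.2
        exact ⟨this.2.2.2.1, this.2.2.2.2.1⟩
    exact (h1.const_smul BB).const_smul (ρ^((2:ℝ)/3))⁻¹
  have hρ3 : 0 < ρ^((2:ℝ)/3) := Real.rpow_pos_of_pos hρ _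
  have hderiv : ∀ t ∈ Set.Ioo (0:ℝ) 1, HasDerivAt g (W t) t := by
    intro t ht
    obtain ⟨hr, h21, h12, _, _, hx2, h5⟩ := roots hρ hσ hρσ ht.1.le ht.2.le
    obtain ⟨hx1, hx11⟩ := h5 ht.1
    have ht0 := ht.1
    have h1 := (cardy_deriv hx1 hx11).comp t (root_deriv hρ hσ hρσ ht.1 ht.2)
    have h2 := (h1.const_mul BB).const_mul (ρ^((2:ℝ)/3))⁻¹
    have e : W t = (ρ^((2:ℝ)/3))⁻¹ * (BB * (gd (x1 (t * ρ^2) (t * σ^2)) / BB *
        (x1 (t * ρ^2) (t * σ^2) * (1 - x1 (t * ρ^2) (t * σ^2)) /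
          (t * rr (t * ρ^2) (t * σ^2))))) := by
      rw [hW]
      simp only
      rw [h21]
      set x := x1 (t * ρ^2) (t * σ^2) with hx
      set y := x2 (t * ρ^2) (t * σ^2) with hy
      set r := rr (t * ρ^2) (t * σ^2) with hrdef
      have hx1m : 0 < 1 - x := by linarith
      have hBB := BB_pos
      have a1 : gd x * (x * (1 - x)) = x^((1:ℝ)/3) * (1 - x)^((1:ℝ)/3) := by
        unfold Pool.Agent.H757R2.CardyLimit.gd
        have h3 : (0:ℝ) < x * (1 - x) := by positivity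
        calc (x * (1 - x))^(-(2/3) : ℝ) * (x * (1 - x))
            = (x * (1 - x))^(-(2/3) : ℝ) * (x * (1 - x))^(1:ℝ) := by rw [Real.rpow_one]
          _ = (x * (1 - x))^((1:ℝ)/3) := by rw [← Real.rpow_add h3]; norm_num
          _ = _ := Real.mul_rpow hx1.le hx1m.le
      have a2 : x^((1:ℝ)/3) = t^((1:ℝ)/3) * ρ^((2:ℝ)/3) * y^(-(1:ℝ)/3) := by
        have h3 : x = t * ρ^2 * y⁻¹ := by
          rw [← h12]
          field_simp
        have h4 : (ρ^2)^((1:ℝ)/3) = ρ^((2:ℝ)/3) := by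
          rw [← Real.rpow_natCast ρ 2, ← Real.rpow_mul hρ.le]
          norm_num
        rw [h3, Real.mul_rpow (by positivity) (by positivity), Real.mul_rpow ht0.le (by positivity),
          h4, Real.inv_rpow hx2.le, ← Real.rpow_neg hx2.le]
        norm_num
      have a3 : t^(-(2:ℝ)/3) = t^((1:ℝ)/3) / t := by
        rw [eq_div_iff ht0.ne']
        calc t^(-(2:ℝ)/3) * t = t^(-(2:ℝ)/3) * t^(1:ℝ) := by rw [Real.rpow_one]
          _ = _ := by rw [← Real.rpow_add ht0]; norm_num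
      have a4 : BB * (gd x / BB * (x * (1 - x) / (t * r))) = (gd x * (x * (1 - x))) / (t * r) := by
        field_simp
      rw [a4, a1, a2, a3]
      field_simp
    rw [e]
    exact h2
  have hpos : ∀ t ∈ Set.Ioo (0:ℝ) 1, 0 ≤ W t := by
    intro t ht
    obtain ⟨hr, h21, h12, _, _, hx2, h5⟩ := roots hρ hσ hρσ ht.1.le ht.2.le
    obtain ⟨hx1, hx11⟩ := h5 ht.1
    have ht0 := ht.1
    have hx1m : 0 < 1 - x1 (t * ρ^2) (t * σ^2) := by linarith
    rw [hW]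
    simp only
    rw [h21]
    positivity
  have hint : IntervalIntegrable W volume 0 1 := by
    refine intervalIntegral.intervalIntegrable_deriv_of_nonneg (g := g) ?_ ?_ ?_
    · rw [Set.uIcc_of_le zero_le_one]
      exact hcont
    · rw [min_eq_left zero_le_one, max_eq_right zero_le_one]
      exact hderiv
    · rw [min_eq_left zero_le_one, max_eq_right zero_le_one]
      exact hpos
  refine ⟨hint, ?_⟩
  rw [intervalIntegral.integral_eq_sub_of_hasDerivAt_of_le zero_le_one hcont hderiv hint, hg]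
  simp only [one_mul, zero_mul]
  have h0 : x1 0 0 = 0 := by
    unfold x1 rr
    simp
  rw [h0, cardy_zero]
  ring

end

theorem Bt_BB : Bt = 2^((2:ℝ)/3) * BB / 2 := by
  have h1 : BB = Real.Gamma (1/3) ^ 2 / Real.Gamma (2/3) := int_gd.2
  have h2 := Real.Gamma_mul_Gamma_add_half (1/3)
  have h3 : (1/3 : ℝ) + 1/2 = 5/6 := by norm_num
  have h4 : (2 : ℝ) * (1/3) = 2/3 := by norm_num
  have h5 : (1 : ℝ) - 2/3 = 1/3 := by norm_num
  rw [h3, h4, h5] at h2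
  have g1 : 0 < Real.Gamma (1/3) := Real.Gamma_pos_of_pos (by norm_num)
  have g2 : 0 < Real.Gamma (5/6) := Real.Gamma_pos_of_pos (by norm_num)
  have g3 : 0 < Real.Gamma (2/3) := Real.Gamma_pos_of_pos (by norm_num)
  have hpi : 0 < √Real.pi := Real.sqrt_pos.2 Real.pi_pos
  have h6 : (2:ℝ)^((2:ℝ)/3) * 2^((1:ℝ)/3) = 2 := by
    rw [← Real.rpow_add (by norm_num)]
    norm_num
  have h7 : (0:ℝ) < 2^((1:ℝ)/3) := by positivity
  have h8 : (0:ℝ) < 2^((2:ℝ)/3) := by positivity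
  rw [N5.Bt_eq, h1, Real.Gamma_one_half_eq]
  rw [div_eq_iff g2.ne']
  have e : 2^((2:ℝ)/3) * (Real.Gamma (1/3) ^ 2 / Real.Gamma (2/3)) / 2 * Real.Gamma (5/6) =
      2^((2:ℝ)/3) * (Real.Gamma (1/3) * Real.Gamma (5/6)) * Real.Gamma (1/3) /
        (2 * Real.Gamma (2/3)) := by
    field_simp
  rw [e, h2]
  have e2 : 2^((2:ℝ)/3) * (Real.Gamma (2/3) * 2^((1:ℝ)/3) * √Real.pi) * Real.Gamma (1/3) /
        (2 * Real.Gamma (2/3)) = (2^((2:ℝ)/3) * 2^((1:ℝ)/3)) * (√Real.pi * Real.Gamma (1/3)) / 2 := by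
    field_simp
  rw [e2, h6]
  ring

end NG4

open NG4 Pool.Agent.NH38.Step in
theorem t_F4 : S_WI → S_F4 := by
  intro hWI ρ σ hρ hσ hρσ
  have hA : 0 < ρ^2 := by positivity
  have hB : 0 < σ^2 := by positivity
  have hWt : ∀ t : ℝ, 0 < t → t ≤ 1 → HasSum (fun m : ℕ => t^m * wp (ρ^2) (σ^2) m)
      ((1 - x1 (t * ρ^2) (t * σ^2))^((1:ℝ)/3) * (x2 (t * ρ^2) (t * σ^2))^(-(1:ℝ)/3) /
        (x2 (t * ρ^2) (t * σ^2) - x1 (t * ρ^2) (t * σ^2))) := by
    intro t h0 h1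
    have hs1 : √t ≤ 1 := Real.sqrt_le_iff.2 ⟨zero_le_one, by linarith⟩
    have hs0 : 0 ≤ √t := Real.sqrt_nonneg _
    have h2 : √(t * ρ^2) + √(t * σ^2) < 1 := by
      rw [Real.sqrt_mul h0.le, Real.sqrt_mul h0.le, Real.sqrt_sq hρ.le, Real.sqrt_sq hσ.le]
      nlinarith
    have h3 := hWI (t * ρ^2) (t * σ^2) (by positivity) (by positivity) h2
    have e : wp (t * ρ^2) (t * σ^2) = fun m : ℕ => t^m * wp (ρ^2) (σ^2) m := by
      funext m
      exact wp_scale _ _ _ _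
    rwa [e] at h3
  have hw1 : Summable (fun m : ℕ => wp (ρ^2) (σ^2) m) := by
    have := (hWt 1 one_pos le_rfl).summable
    simpa using this
  -- the integrals of the terms
  set F : ℕ → ℝ → ℝ := fun m t => wp (ρ^2) (σ^2) m * t^((m:ℝ) - 2/3) with hF
  have hexp : ∀ m : ℕ, -1 < (m:ℝ) - 2/3 := fun m => by
    have : (0:ℝ) ≤ m := Nat.cast_nonneg m
    linarith
  have hFint : ∀ m, IntervalIntegrable (F m) volume 0 1 := fun m =>
    (intervalIntegral.intervalIntegrable_rpow' (hexp m)).const_mul _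
  have hFval : ∀ m, ∫ t in (0:ℝ)..1, F m t = wp (ρ^2) (σ^2) m * (1 / ((m:ℝ) + 1/3)) := by
    intro m
    rw [hF]
    simp only
    rw [intervalIntegral.integral_const_mul, integral_rpow (Or.inl (hexp m)), Real.one_rpow,
      Real.zero_rpow (by have := hexp m; linarith)]
    congr 1
    rw [sub_zero]
    congr 1
    ring
  have hsum := MeasureTheory.hasSum_integral_of_summable_integral_norm
    (μ := volume.restrict (Set.Ioc (0:ℝ) 1)) (F := F) (fun m => (intervalIntegrable_iff_integrableOn_Ioc_of_le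
      zero_le_one).1 (hFint m)) (by
    have h1 : ∀ m, ∫ t in Set.Ioc (0:ℝ) 1, ‖F m t‖ = wp (ρ^2) (σ^2) m * (1 / ((m:ℝ) + 1/3)) := by
      intro m
      rw [← hFval m, intervalIntegral.integral_of_le zero_le_one]
      refine MeasureTheory.setIntegral_congr_fun measurableSet_Ioc fun t ht => ?_
      have : 0 ≤ F m t := mul_nonneg (wp_nonneg hA hB m) (Real.rpow_nonneg ht.1.le _)
      exact Real.norm_of_nonneg this
    simp only [h1]
    refine Summable.of_nonneg_of_le (fun m => mul_nonneg (wp_nonneg hA hB m) (by positivity))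
      (fun m => ?_) (hw1.mul_right 3)
    refine mul_le_mul_of_nonneg_left ?_ (wp_nonneg hA hB m)
    rw [div_le_iff₀ (by positivity)]
    have : (0:ℝ) ≤ m := Nat.cast_nonneg m
    linarith)
  have hval : ∫ t in Set.Ioc (0:ℝ) 1, ∑' m, F m t =
      (ρ^((2:ℝ)/3))⁻¹ * (Pool.Agent.NH38.Step.A2.BB * cardy (x1 (ρ^2) (σ^2))) := by
    rw [← (integ hρ hσ hρσ).2, intervalIntegral.integral_of_le zero_le_one]
    refine MeasureTheory.setIntegral_congr_fun measurableSet_Ioc fun t ht => ?_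
    have h1 := ((hWt t ht.1 ht.2).mul_left (t^(-(2:ℝ)/3))).tsum_eq
    rw [← h1]
    refine tsum_congr fun m => ?_
    have ht0 : 0 < t := ht.1
    rw [hF]
    simp only
    have e : t^((m:ℝ) - 2/3) = t^(-(2:ℝ)/3) * t^m := by
      rw [← Real.rpow_natCast t m, ← Real.rpow_add ht0]
      congr 1
      ring
    rw [e]
    ring
  rw [hval] at hsum
  have hsum2 : HasSum (fun m => ap (ρ^2) (σ^2) m)
      (1/3 * ((ρ^((2:ℝ)/3))⁻¹ * (Pool.Agent.NH38.Step.A2.BB * cardy (x1 (ρ^2) (σ^2))))) := by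
    have h1 := hsum.mul_left (1/3)
    have e : (fun m => ap (ρ^2) (σ^2) m) = fun m => 1/3 * ∫ t in Set.Ioc (0:ℝ) 1, F m t := by
      funext m
      rw [ap_eq, ← hFval m, intervalIntegral.integral_of_le zero_le_one]
    rwa [e]
  have h1 := hsum2.mul_left ((2*ρ)^((2:ℝ)/3) * (3 / Bt))
  have hρ3 : 0 < ρ^((2:ℝ)/3) := Real.rpow_pos_of_pos hρ _
  have h23 : (0:ℝ) < 2^((2:ℝ)/3) := by positivity
  have hBB := Pool.Agent.NH38.Step.A2.BB_pos
  have e : (2*ρ)^((2:ℝ)/3) * (3 / Bt) * (1/3 * ((ρ^((2:ℝ)/3))⁻¹ *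
      (Pool.Agent.NH38.Step.A2.BB * cardy (x1 (ρ^2) (σ^2))))) = 2 * cardy (x1 (ρ^2) (σ^2)) := by
    rw [Bt_BB, Real.mul_rpow (by norm_num) hρ.le]
    field_simp
  rwa [e] at h1

end Pool.Agent.NH38.Fork
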