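import Pool.Agent.NH38.Fork.Stubs4

set_option autoImplicit false

/-!
# FG-N5: the asymptotics of `FG` (S_AsyG). helper39.
-/

namespace Pool.Agent.NH38.Fork.NG5

open Polynomial Filter Topology Finset
open Pool.Agent.NH38.Step (cardy)

/-- the factors of the masses -/
noncomputable def hf (n i : ℕ) : ℚ := ((i:ℚ) + 1/3) * (i + 2/3) / ((2*n - 1 - 2*i) * (2*n + 4 + 2*i))

lemma mj_eq (hMJ : S_MJ) {n j : ℕ} (hj : j ≤ n) : mj (2*n+1) j = 4^j * (M0 n *
    ∏ i ∈ range j, hf n i) := by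
  unfold mj hf
  rw [hMJ n j hj]

lemma M0_pos (n : ℕ) : 0 < M0 n := by
  unfold M0
  refine mul_pos (by norm_num) (Finset.prod_pos fun i _ => by positivity)

lemma kap_pos (a : ℕ) : 0 < kap a := by
  unfold kap
  exact Finset.prod_pos fun i _ => by positivity

lemma M0_anti : Antitone M0 := by
  apply antitone_nat_of_succ_le
  intro n
  have h1 : M0 (n+1) = M0 n * (((n:ℚ) + 1/2) * (n + 5/3) / ((n + 5/6) * (n + 2))) := by
    unfold M0
    rw [Finset.prod_range_succ]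
    ring
  rw [h1]
  have h2 : (((n:ℚ) + 1/2) * (n + 5/3) / ((n + 5/6) * (n + 2))) ≤ 1 := by
    rw [div_le_one (by positivity)]
    have : (0:ℚ) ≤ n := Nat.cast_nonneg n
    nlinarith
  calc M0 n * _ ≤ M0 n * 1 := mul_le_mul_of_nonneg_left h2 (M0_pos n).le
    _ = M0 n := mul_one _

lemma hf_nonneg {n i : ℕ} (hi : i < n) : 0 ≤ hf n i := by
  unfold hf
  have h2 : (0:ℚ) ≤ 2*n - 1 - 2*i := by
    have : ((i + 1 : ℕ) : ℚ) ≤ n := by exact_mod_cast (by omega : i + 1 ≤ n)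
    push_cast at this
    linarith
  positivity

lemma hf_le {n0 n i : ℕ} {r : ℝ} (hi : i < n0) (hn : n0 ≤ n)
    (hr : 2 * (n0:ℝ) - 1 ≤ r * (2 * n - 1)) (hr0 : 0 ≤ r) (hr1 : r ≤ 1) :
    ((hf n i : ℚ) : ℝ) ≤ r * ((hf n0 i : ℚ) : ℝ) := by
  unfold hf
  push_cast
  have hi0 : (0:ℝ) ≤ i := Nat.cast_nonneg i
  have h1 : ((i:ℝ)) + 1 ≤ n0 := by exact_mod_cast (by omega : i + 1 ≤ n0)
  have hn' : (n0:ℝ) ≤ n := by exact_mod_cast hn
  have h2 : (0:ℝ) < 2*n - 1 - 2*i := by linarith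
  have h3 : (0:ℝ) < 2*n + 4 + 2*i := by linarith
  have h4 : (0:ℝ) < 2*n0 - 1 - 2*i := by linarith
  have h5 : (0:ℝ) < 2*n0 + 4 + 2*i := by linarith
  have e1 : r * (((i:ℝ) + 1/3) * (i + 2/3) / ((2*n0 - 1 - 2*i) * (2*n0 + 4 + 2*i))) =
    (r * (((i:ℝ) + 1/3) * (i + 2/3))) / ((2*n0 - 1 - 2*i) * (2*n0 + 4 + 2*i)) := by ring
  rw [e1, div_le_div_iff₀ (by positivity) (by positivity)]
  have e2 : (2*(n0:ℝ) - 1 - 2*i) * (2*n0 + 4 + 2*i) ≤ r * ((2*n - 1 - 2*i) * (2*n + 4 + 2*i)) := by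
    have a1 : (2*(n0:ℝ) - 1 - 2*i) ≤ r * (2*n - 1 - 2*i) := by nlinarith
    have a2 : (2*(n0:ℝ) + 4 + 2*i) ≤ 2*n + 4 + 2*i := by linarith
    calc _ ≤ (r * (2*n - 1 - 2*i)) * (2*n + 4 + 2*i) :=
          mul_le_mul a1 a2 h5.le (mul_nonneg hr0 h2.le)
      _ = _ := by ring
  calc _ ≤ ((i:ℝ) + 1/3) * (i + 2/3) * (r * ((2*n - 1 - 2*i) * (2*n + 4 + 2*i))) :=
        mul_le_mul_of_nonneg_left e2 (by positivity)
    _ = _ := by ring

lemma prod_hf_nonneg {n j : ℕ} (hj : j ≤ n) : 0 ≤ ∏ i ∈ range j, hf n i :=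
  Finset.prod_nonneg fun i hi => hf_nonneg (by rw [mem_range] at hi; omega)

lemma mj_nonneg (hMJ : S_MJ) {n j : ℕ} (hj : j ≤ n) : 0 ≤ mj (2*n+1) j := by
  rw [mj_eq hMJ hj]
  have := prod_hf_nonneg hj
  have := M0_pos n
  positivity

lemma mj_le (hMJ : S_MJ) {n0 n j : ℕ} {r : ℝ} (hj : j ≤ n0) (hn : n0 ≤ n)
    (hr : 2 * (n0:ℝ) - 1 ≤ r * (2 * n - 1)) (hr0 : 0 ≤ r) (hr1 : r ≤ 1) :
    ((mj (2*n+1) j : ℚ) : ℝ) ≤ r^j * ((mj (2*n0+1) j : ℚ) : ℝ) := by
  rw [mj_eq hMJ hj, mj_eq hMJ (hj.trans hn)]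
  push_cast
  have h1 : ∏ i ∈ range j, ((hf n i : ℚ) : ℝ) ≤ r^j * ∏ i ∈ range j, ((hf n0 i : ℚ) : ℝ) := by
    have h := Finset.prod_le_prod (s := range j) (f := fun i => ((hf n i : ℚ) : ℝ))
      (g := fun i => r * ((hf n0 i : ℚ) : ℝ))
      (fun i hi => by exact_mod_cast hf_nonneg (by rw [mem_range] at hi; omega))
      (fun i hi => hf_le (by rw [mem_range] at hi; omega) hn hr hr0 hr1)
    rwa [Finset.prod_mul_distrib, Finset.prod_const, Finset.card_range] at h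
  have h2 : ((M0 n : ℚ) : ℝ) ≤ ((M0 n0 : ℚ) : ℝ) := by exact_mod_cast M0_anti hn
  have h3 : (0:ℝ) < ((M0 n : ℚ) : ℝ) := by exact_mod_cast M0_pos n
  have h4 : (0:ℝ) ≤ ∏ i ∈ range j, ((hf n0 i : ℚ) : ℝ) := by
    have := prod_hf_nonneg hj
    exact_mod_cast this
  calc (4:ℝ)^j * (((M0 n : ℚ) : ℝ) * ∏ i ∈ range j, ((hf n i : ℚ) : ℝ))
      ≤ 4^j * (((M0 n0 : ℚ) : ℝ) * (r^j * ∏ i ∈ range j, ((hf n0 i : ℚ) : ℝ))) := by
        apply mul_le_mul_of_nonneg_left _ (by positivity)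
        calc _ ≤ ((M0 n : ℚ) : ℝ) * (r^j * ∏ i ∈ range j, ((hf n0 i : ℚ) : ℝ)) :=
              mul_le_mul_of_nonneg_left h1 h3.le
          _ ≤ _ := mul_le_mul_of_nonneg_right h2 (by positivity)
    _ = _ := by ring

/-- the limits of the factors -/
lemma hf_lim {n : ℕ → ℕ} (hn : Tendsto n atTop atTop) (j : ℕ) :
    Tendsto (fun i => 4 * ((n i : ℝ)^2 * ((hf (n i) j : ℚ) : ℝ))) atTop
      (𝓝 (((1:ℝ)/3 + j) * (2/3 + j))) := by
  have hn' : Tendsto (fun i => ((n i : ℕ) : ℝ)) atTop atTop :=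
    tendsto_natCast_atTop_atTop.comp hn
  have hc : ∀ c : ℝ, Tendsto (fun i => c / (n i : ℝ)) atTop (𝓝 0) := fun c =>
    Tendsto.div_atTop tendsto_const_nhds hn'
  have h1 : Tendsto (fun i => 4 * (((1:ℝ)/3 + j) * (2/3 + j)) /
      ((2 - (1 + 2 * (j:ℝ)) / n i) * (2 + (4 + 2 * j) / n i))) atTop
      (𝓝 (4 * (((1:ℝ)/3 + j) * (2/3 + j)) / ((2 - 0) * (2 + 0)))) := by
    refine Tendsto.div tendsto_const_nhds ?_ (by norm_num)
    exact (tendsto_const_nhds.sub (hc (1 + 2 * j))).mul (tendsto_const_nhds.add (hc (4 + 2 * j)))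
  have h2 : (4 * (((1:ℝ)/3 + j) * (2/3 + j)) / ((2 - 0) * (2 + 0))) =
      (((1:ℝ)/3 + j) * (2/3 + j)) := by ring
  rw [h2] at h1
  refine h1.congr' ?_
  filter_upwards [hn'.eventually_gt_atTop 0] with i hi
  unfold hf
  push_cast
  have hne : (n i : ℝ) ≠ 0 := hi.ne'
  rw [show (2 - (1 + 2 * (j:ℝ)) / n i) * (2 + (4 + 2 * j) / n i) =
      ((2 * (n i : ℝ) - 1 - 2 * j) * (2 * n i + 4 + 2 * j)) / ((n i : ℝ)^2) by
        field_simp; ring]
  rw [div_div_eq_mul_div]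
  ring

/-- the limit of the masses -/
lemma mj_lim (hMJ : S_MJ) {n : ℕ → ℕ} (hn : Tendsto n atTop atTop) (j : ℕ) :
    Tendsto (fun i => (n i : ℝ)^(2*j) * ((mj (2 * n i + 1) j / M0 (n i) : ℚ) : ℝ)) atTop
      (𝓝 (rf (1/3) j * rf (2/3) j)) := by
  have h1 : Tendsto (fun i => ∏ l ∈ range j, (4 * ((n i : ℝ)^2 * ((hf (n i) l : ℚ) : ℝ)))) atTop
      (𝓝 (∏ l ∈ range j, (((1:ℝ)/3 + l) * (2/3 + l)))) :=
    tendsto_finsetProd _ fun l _ => hf_lim hn l
  unfold rf
  rw [← Finset.prod_mul_distrib]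
  refine h1.congr' ?_
  filter_upwards [hn.eventually_ge_atTop j] with i hi
  rw [mj_eq hMJ hi]
  have h2 := (M0_pos (n i)).ne'
  rw [show (4^j * (M0 (n i) * ∏ l ∈ range j, hf (n i) l) / M0 (n i) : ℚ) =
    4^j * ∏ l ∈ range j, hf (n i) l by field_simp]
  push_cast
  rw [Finset.prod_mul_distrib, Finset.prod_mul_distrib, Finset.prod_const, Finset.prod_const,
    Finset.card_range, ← pow_mul]
  ring

end Pool.Agent.NH38.Fork.NG5

namespace Pool.Agent.NH38.Fork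

open Polynomial Filter Topology Finset NG5
open Pool.Agent.NH38.Step (cardy)

theorem t_AsyG (hMJ : S_MJ) (hpos : S_pos) (hvv : S_vvA) (hsv : S_svA) (hKAP : S_KAP)
    (hF4 : S_F4) (hFG : S_FGle) : S_AsyG := by
  intro a b N ρ σ hρ hσ hρσ ha hb hN habN hNt hla hlb
  -- `N = 2n+1`
  choose n hn using hN
  have hN2 : ∀ i, N i = 2 * n i + 1 := hn
  have hab : ∀ i, a i + b i = 2 * ((a i + b i) / 2) := fun i => by
    obtain ⟨x, hx⟩ := ha i
    obtain ⟨y, hy⟩ := hb i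
    omega
  set n0 : ℕ → ℕ := fun i => (a i + b i) / 2 with hn0
  have hab' : ∀ i, a i + b i = 2 * n0 i := hab
  have hnn : ∀ i, n0 i ≤ n i := fun i => by
    have := habN i; have := hN2 i; have := hab' i; omega
  have hnt : Tendsto n atTop atTop := by
    rw [tendsto_atTop] at hNt ⊢
    intro b
    filter_upwards [hNt (2 * b + 1)] with i hi
    have := hN2 i
    omega
  have hnt' : Tendsto (fun i => ((n i : ℕ) : ℝ)) atTop atTop :=
    tendsto_natCast_atTop_atTop.comp hnt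
  have hc : ∀ c : ℝ, Tendsto (fun i => c / (n i : ℝ)) atTop (𝓝 0) := fun c =>
    Tendsto.div_atTop tendsto_const_nhds hnt'
  have key : ∀ (f : ℕ → ℕ) (τ : ℝ), Tendsto (fun i => (f i : ℝ) / N i) atTop (𝓝 τ) →
      Tendsto (fun i => (f i : ℝ) / n i) atTop (𝓝 (2 * τ)) := by
    intro f τ hf
    have h1 : Tendsto (fun i => (f i : ℝ) / N i * (2 * (1 + (1/2) / n i))) atTop
        (𝓝 (τ * (2 * (1 + 0)))) := hf.mul ((tendsto_const_nhds.add (hc (1/2))).const_mul 2)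
    rw [show τ * (2 * (1 + 0)) = 2 * τ by ring] at h1
    refine h1.congr' ?_
    filter_upwards [hnt'.eventually_gt_atTop 0] with i hi
    rw [hN2 i]
    push_cast
    have h2 : (2 * (n i : ℝ) + 1) ≠ 0 := by positivity
    field_simp
  have hla' := key a ρ hla
  have hlb' := key b σ hlb
  have toinf : ∀ (f : ℕ → ℕ) (τ : ℝ), 0 < τ → Tendsto (fun i => (f i : ℝ) / n i) atTop (𝓝 τ) →
      Tendsto f atTop atTop := by
    intro f τ hτ hf
    have h1 : Tendsto (fun i => (n i : ℝ) * ((f i : ℝ) / n i)) atTop atTop :=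
      hnt'.atTop_mul_pos hτ hf
    have h2 : Tendsto (fun i => (f i : ℝ)) atTop atTop := by
      refine h1.congr' ?_
      filter_upwards [hnt'.eventually_gt_atTop 0] with i hi
      field_simp
    exact tendsto_natCast_atTop_iff.mp h2
  have hat : Tendsto a atTop atTop := toinf a (2*ρ) (by positivity) hla'
  have hbt : Tendsto b atTop atTop := toinf b (2*σ) (by positivity) hlb'
  have half : ∀ (f : ℕ → ℕ), Tendsto f atTop atTop → Tendsto (fun i => (f i - 1) / 2) atTop atTop := by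
    intro f hf
    rw [tendsto_atTop]
    intro c
    filter_upwards [hf.eventually_ge_atTop (2 * c + 1)] with i hi
    omega
  -- the bound `r`
  set r : ℝ := (1 + (ρ + σ)) / 2 with hr
  have hr1 : r < 1 := by rw [hr]; linarith
  have hr0 : 0 < r := by rw [hr]; linarith
  have hrb : ∀ᶠ i in atTop, 2 * (n0 i : ℝ) - 1 ≤ r * (2 * n i - 1) := by
    have h1 : Tendsto (fun i => (a i : ℝ) / n i + (b i : ℝ) / n i) atTop (𝓝 (2*ρ+2*σ)) :=
      hla'.add hlb'
    have h2 : 2*ρ+2*σ < 2 * r := by rw [hr]; linarith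
    filter_upwards [h1.eventually (gt_mem_nhds h2), hnt'.eventually_gt_atTop 0] with i hi hi0
    rw [← add_div, div_lt_iff₀ hi0] at hi
    have h3 : (a i : ℝ) + b i = 2 * n0 i := by exact_mod_cast hab' i
    rw [h3] at hi
    nlinarith
  -- the constants
  have hK := hKAP a n (2*ρ) (by positivity) hat hnt hla'
  set c0 : ℝ := (2*ρ)^((2:ℝ)/3) * (3 / Bt) with hc0
  -- the terms
  let t : ℕ → ℕ → ℝ := fun i j => if j < n0 i then ((cg (a i) (b i) j * mj (N i) j : ℚ) : ℝ) else 0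
  have hcg : ∀ x y j, 0 ≤ cg x y j := by
    intro x y j
    unfold cg
    rw [Polynomial.coeff_mul]
    exact Finset.sum_nonneg fun p _ => mul_nonneg (hpos y p.1).1 (hpos x p.2).2
  have hsum : ∀ i, ∑' j, t i j = 2 * ((FG (a i) (b i) (N i) : ℚ) : ℝ) := by
    intro i
    rw [tsum_eq_sum (s := range (n0 i)) (fun j hj => by
      simp only [t]; rw [if_neg (by rwa [mem_range] at hj)])]
    unfold FG
    push_cast
    rw [mul_div_cancel₀ _ (by norm_num : (2:ℝ) ≠ 0)]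
    refine Finset.sum_congr rfl fun j hj => ?_
    simp only [t]
    rw [if_pos (mem_range.mp hj)]
    push_cast
    rfl
  have hbd0 : ∀ i j, j < n0 i → ((cg (a i) (b i) j * mj (2 * n0 i + 1) j : ℚ) : ℝ) ≤ 2 := by
    intro i j hj
    have h1 := hFG (a i) (b i) (ha i) (hb i)
    unfold FG at h1
    rw [hab' i, Nat.mul_div_cancel_left _ (by norm_num : 0 < 2)] at h1
    have h2 := Finset.single_le_sum (f := fun j => cg (a i) (b i) j * mj (2 * n0 i + 1) j)
      (s := range (n0 i)) (fun l hl => mul_nonneg (hcg _ _ _) (mj_nonneg hMJ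
        (by rw [mem_range] at hl; omega))) (mem_range.mpr hj)
    have h3 : cg (a i) (b i) j * mj (2 * n0 i + 1) j ≤ 2 := by
      linarith
    exact_mod_cast h3
  -- dominated convergence
  have hB := hF4 ρ σ hρ hσ hρσ
  have hdc : Tendsto (fun i => ∑' j, t i j) atTop (𝓝 (∑' j : ℕ, (2*ρ)^((2:ℝ)/3) * (3 / Bt) *
      ap (ρ^2) (σ^2) j)) := by
    refine tendsto_tsum_of_dominated_convergence (bound := fun j => 2 * r^j) ?_ ?_ ?_
    · exact (summable_geometric_of_lt_one hr0.le hr1).mul_left 2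
    · intro j
      -- the termwise limit
      have hv : ∀ m, Tendsto (fun i => (((vv (b i)).coeff m : ℚ) : ℝ) / (b i : ℝ)^(2*m)) atTop
          (𝓝 (1 / (4^m * rf (2/3) m * (Nat.factorial m : ℝ)))) := by
        intro m
        refine ((hvv m).comp (half b hbt)).congr fun i => ?_
        obtain ⟨y, hy⟩ := hb i
        simp only [Function.comp]
        rw [show 2 * ((b i - 1) / 2) + 1 = b i by omega]
      have hs : ∀ m, Tendsto (fun i => (((sv (a i)).coeff m / kap (a i) : ℚ) : ℝ) /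
          (a i : ℝ)^(2*m)) atTop (𝓝 (1 / (4^m * rf (4/3) m * (Nat.factorial m : ℝ)))) := by
        intro m
        refine ((hsv m).comp (half a hat)).congr fun i => ?_
        obtain ⟨y, hy⟩ := ha i
        simp only [Function.comp]
        rw [show 2 * ((a i - 1) / 2) + 1 = a i by omega]
      have hm := mj_lim hMJ hnt j
      have hterm : Tendsto (fun i => ∑ p ∈ antidiagonal j,
          (((((vv (b i)).coeff p.1 : ℚ) : ℝ) / (b i : ℝ)^(2*p.1)) * ((b i : ℝ) / n i)^(2*p.1)) *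
          (((((sv (a i)).coeff p.2 / kap (a i) : ℚ) : ℝ) / (a i : ℝ)^(2*p.2)) *
            ((a i : ℝ) / n i)^(2*p.2)) *
          (((kap (a i) * M0 (n i) : ℚ) : ℝ) *
            ((n i : ℝ)^(2*j) * ((mj (2 * n i + 1) j / M0 (n i) : ℚ) : ℝ)))) atTop
          (𝓝 (∑ p ∈ antidiagonal j,
            ((1 / (4^p.1 * rf (2/3) p.1 * (Nat.factorial p.1 : ℝ))) * (2*σ)^(2*p.1)) *
            ((1 / (4^p.2 * rf (4/3) p.2 * (Nat.factorial p.2 : ℝ))) * (2*ρ)^(2*p.2)) *
            (c0 * (rf (1/3) j * rf (2/3) j)))) := by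
        refine tendsto_finsetSum _ fun p _ => ?_
        exact (((hv p.1).mul (hlb'.pow _)).mul ((hs p.2).mul (hla'.pow _))).mul (hK.mul hm)
      have hval : (∑ p ∈ antidiagonal j,
            ((1 / (4^p.1 * rf (2/3) p.1 * (Nat.factorial p.1 : ℝ))) * (2*σ)^(2*p.1)) *
            ((1 / (4^p.2 * rf (4/3) p.2 * (Nat.factorial p.2 : ℝ))) * (2*ρ)^(2*p.2)) *
            (c0 * (rf (1/3) j * rf (2/3) j))) = (2*ρ)^((2:ℝ)/3) * (3 / Bt) * ap (ρ^2) (σ^2) j := by
        unfold ap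
        rw [Finset.Nat.sum_antidiagonal_eq_sum_range_succ (fun x y =>
          ((1 / (4^x * rf (2/3) x * (Nat.factorial x : ℝ))) * (2*σ)^(2*x)) *
            ((1 / (4^y * rf (4/3) y * (Nat.factorial y : ℝ))) * (2*ρ)^(2*y)) *
            (c0 * (rf (1/3) j * rf (2/3) j))) j, Finset.mul_sum]
        refine Finset.sum_congr rfl fun l hl => ?_
        rw [hc0, mul_pow, mul_pow, pow_mul (2:ℝ), pow_mul (2:ℝ), pow_mul σ, pow_mul ρ]
        have h4 : ((2:ℝ)^2) = 4 := by norm_num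
        rw [h4]
        have h5 : (4:ℝ)^l ≠ 0 := by positivity
        have h6 : (4:ℝ)^(j-l) ≠ 0 := by positivity
        field_simp
      rw [hval] at hterm
      refine hterm.congr' ?_
      filter_upwards [hat.eventually_gt_atTop j, hbt.eventually_gt_atTop j,
        hnt'.eventually_gt_atTop 0] with i hia hib hin
      simp only [t]
      have hab2 := hab' i
      rw [if_pos (by omega)]
      unfold cg
      rw [Polynomial.coeff_mul, Finset.sum_mul, Rat.cast_sum]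
      refine Finset.sum_congr rfl fun p hp => ?_
      have hp' : p.1 + p.2 = j := by simpa using hp
      rw [← hp', hN2 i]
      have h1 : (a i : ℝ) ≠ 0 := by
        have : 0 < a i := by omega
        positivity
      have h2 : (b i : ℝ) ≠ 0 := by
        have : 0 < b i := by omega
        positivity
      have h3 : (n i : ℝ) ≠ 0 := hin.ne'
      have h4 : ((kap (a i) : ℚ) : ℝ) ≠ 0 := by exact_mod_cast (kap_pos (a i)).ne'
      have h5 : ((M0 (n i) : ℚ) : ℝ) ≠ 0 := by exact_mod_cast (M0_pos (n i)).ne'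
      push_cast
      rw [mul_add, pow_add, div_pow, div_pow]
      field_simp
    · filter_upwards [hrb] with i hi j
      by_cases hj : j < n0 i
      · simp only [t]
        rw [if_pos hj, hN2 i]
        have h1 := mj_le hMJ hj.le (hnn i) hi hr0.le hr1.le
        have h2 := hbd0 i j hj
        have h3 : (0:ℝ) ≤ ((cg (a i) (b i) j : ℚ) : ℝ) := by exact_mod_cast hcg _ _ _
        have h4 : (0:ℝ) ≤ ((mj (2 * n i + 1) j : ℚ) : ℝ) := by
          exact_mod_cast mj_nonneg hMJ (hj.le.trans (hnn i))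
        push_cast at h2 ⊢
        rw [Real.norm_eq_abs, abs_of_nonneg (mul_nonneg h3 h4)]
        calc _ ≤ ((cg (a i) (b i) j : ℚ) : ℝ) * (r^j * ((mj (2*n0 i+1) j : ℚ) : ℝ)) :=
              mul_le_mul_of_nonneg_left h1 h3
          _ = r^j * (((cg (a i) (b i) j : ℚ) : ℝ) * ((mj (2*n0 i+1) j : ℚ) : ℝ)) := by ring
          _ ≤ r^j * 2 := mul_le_mul_of_nonneg_left h2 (by positivity)
          _ = _ := by ring
      · simp only [t]
        rw [if_neg hj, norm_zero]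
        positivity
  rw [hB.tsum_eq] at hdc
  simp only [hsum] at hdc
  have h5 := hdc.const_mul (1/2 : ℝ)
  rw [show (1/2 : ℝ) * (2 * cardy (x1 (ρ^2) (σ^2))) = cardy (x1 (ρ^2) (σ^2)) by ring] at h5
  exact h5.congr fun i => by ring

end Pool.Agent.NH38.Fork
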