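import Pool.Agent.NH38.Fork.Stubs3
import Pool.Agent.NH38.Step.Perc2

/-!
Thick slits: the percolation link (helper2).  The forked channel is the slit strip with the slit
joining the columns `a` and `a+1` of the configuration in which the edges of the thick slit are
closed.
-/

namespace Pool.Agent.NH38.Fork

open Pool.Agent.H988R2.Perc Pool.Agent.H980R3.Slit Relation MeasureTheory Finset Filter Topology
open Pool.Agent.NH38.Step (on)
open Pool.Agent.H492C (comb comb2 pairG up1 jn)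

namespace PP

/-- the edges of the slit -/
def Sl (a k : ℕ) : Edge → Prop
  | (u, v, false) => 1 ≤ u + v ∧ (a : ℤ) ≤ u - v ∧ u + 1 - v ≤ (a : ℤ) + 1 + 2 * k
  | (u, v, true) => 1 ≤ u + v ∧ (a : ℤ) ≤ u - v - 1 ∧ u - v ≤ (a : ℤ) + 1 + 2 * k

instance (a k : ℕ) : DecidablePred (Sl a k) := fun e => by
  obtain ⟨u, v, c⟩ := e
  cases c <;> (unfold Sl; infer_instance)

/-- close the edges of the slit -/
def cl (a k : ℕ) (ω : Conf) : Conf := fun e => if Sl a k e then false else ω e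

theorem sl_edgeOf (a k : ℕ) (i r : ℤ) :
    Sl a k (edgeOf i r) ↔ 0 ≤ r ∧ (a : ℤ) + 1 ≤ i ∧ i ≤ (a : ℤ) + 1 + 2 * k := by
  unfold edgeOf
  split_ifs with h
  · simp only [Sl]; omega
  · simp only [Sl]; omega

theorem cl_of_not {a k : ℕ} {ω : Conf} {e : Edge} (h : ¬ Sl a k e) : cl a k ω e = ω e := by
  unfold cl; rw [if_neg h]

theorem cl_of_sl {a k : ℕ} {ω : Conf} {e : Edge} (h : Sl a k e) : cl a k ω e = false := by
  unfold cl; rw [if_pos h]

theorem cl_true {a k : ℕ} {ω : Conf} {e : Edge} :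
    cl a k ω e = true ↔ ¬ Sl a k e ∧ ω e = true := by
  by_cases h : Sl a k e
  · rw [cl_of_sl h]; simp [h]
  · rw [cl_of_not h]; simp [h]

theorem slit_iff (a k b : ℕ) (ω : Conf) (x y : ℤ × ℤ) :
    SlitAdj a (b+2*k) (cl a k ω) x y ↔ EAdj a k b ω x y := by
  obtain ⟨x1, x2⟩ := x
  obtain ⟨y1, y2⟩ := y
  unfold SlitAdj EAdj OpenAdj
  simp only [cl_true, Sl, Prod.mk.injEq]
  push_cast
  constructor
  · rintro ⟨h, h1, h2, h3⟩
    refine ⟨?_, by omega, by omega, ?_⟩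
    · rcases h with ⟨e, h4, h5⟩ | ⟨e, h4, h5⟩ | ⟨e, h4, h5⟩ | ⟨e, h4, h5⟩
      · exact Or.inl ⟨e, h5⟩
      · exact Or.inr (Or.inl ⟨e, h5⟩)
      · exact Or.inr (Or.inr (Or.inl ⟨e, h5⟩))
      · exact Or.inr (Or.inr (Or.inr ⟨e, h5⟩))
    · rcases h with ⟨e, h4, h5⟩ | ⟨e, h4, h5⟩ | ⟨e, h4, h5⟩ | ⟨e, h4, h5⟩ <;> omega
  · rintro ⟨h, h1, h2, h3⟩
    refine ⟨?_, by omega, by omega, ?_⟩
    · rcases h with ⟨e, h5⟩ | ⟨e, h5⟩ | ⟨e, h5⟩ | ⟨e, h5⟩
      · exact Or.inl ⟨e, by omega, h5⟩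
      · exact Or.inr (Or.inl ⟨e, by omega, h5⟩)
      · exact Or.inr (Or.inr (Or.inl ⟨e, by omega, h5⟩))
      · exact Or.inr (Or.inr (Or.inr ⟨e, by omega, h5⟩))
    · omega

theorem cross_eq (a k b : ℕ) (ω : Conf) :
    ω ∈ ECross a k b ↔ cl a k ω ∈ SlitCross a (b+2*k) := by
  have e : SlitAdj a (b+2*k) (cl a k ω) = EAdj a k b ω := by
    funext x y; exact propext (slit_iff a k b ω x y)
  have e2 : ((a+1+2*k+b : ℕ) : ℤ) = (a : ℤ) + ((b+2*k : ℕ) : ℤ) + 1 := by push_cast; ring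
  unfold ECross SlitCross
  simp only [Set.mem_ofPred_eq, e, e2]

/-- the window event of the forked channel -/
def WinF (a k b M : ℕ) : Set Conf :=
  {ω | conn3 a (b+2*k) (X (a+(b+2*k)+1) (actBit (oPast ω M)) M) (X a (actBit (oFut ω M)) M)
    (comb k St.bot (X b (actBit (oFutR (a+2*k) ω M)) M))}

theorem past_cl (a k L M : ℕ) (ω : Conf) :
    X L (actBit (oPast (cl a k ω) M)) M = X L (actBit (oPast ω M)) M := by
  apply T23.X_congr
  intro j i hk h1 h2
  have : oPast (cl a k ω) M j i = oPast ω M j i := by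
    unfold oPast
    refine cl_of_not fun h => ?_
    rw [sl_edgeOf] at h
    omega
  simp only [actBit, this]

theorem fut_cl (a k M : ℕ) (ω : Conf) :
    X a (actBit (oFut (cl a k ω) M)) M = X a (actBit (oFut ω M)) M := by
  apply T23.X_congr
  intro j i hk h1 h2
  have : oFut (cl a k ω) M j i = oFut ω M j i := by
    unfold oFut
    refine cl_of_not fun h => ?_
    rw [sl_edgeOf] at h
    omega
  simp only [actBit, this]

theorem E2_cl (a k b M : ℕ) (ω : Conf) :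
    E2 a (b+2*k) M (cl a k ω) = E2 (a+2*k) b M ω := by
  funext p p'
  apply propext
  unfold E2 GP
  push_cast
  constructor
  · rintro (⟨i, r, g1, g2, g3, g4, g5, g6⟩ | h)
    · left
      obtain ⟨h1, h2⟩ := cl_true.1 g5
      rw [sl_edgeOf] at h1
      exact ⟨i, r, by omega, by omega, g3, g4, h2, g6⟩
    · right
      omega
  · rintro (⟨i, r, g1, g2, g3, g4, g5, g6⟩ | h)
    · left
      refine ⟨i, r, by omega, by omega, g3, g4, cl_true.2 ⟨?_, g5⟩, g6⟩
      rw [sl_edgeOf]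
      omega
    · right
      omega

/-- the columns of the slit are isolated -/
theorem isol (a k b M : ℕ) (ω : Conf) {p q : ℤ × ℤ} (h : EqvGen (E2 (a+2*k) b M ω) p q) :
    p = q ∨ ((a : ℤ) + 2 * k + 1 ≤ p.1 ∧ (a : ℤ) + 2 * k + 1 ≤ q.1) := by
  induction h with
  | rel p q h =>
    unfold E2 GP at h
    push_cast at h
    rcases h with ⟨i, r, g1, g2, g3, g4, g5, g6⟩ | h
    · right
      rcases g6 with ⟨_, rfl, rfl⟩ | ⟨_, rfl, rfl⟩ <;> simp only <;> omega
    · right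
      omega
  | refl p => exact Or.inl rfl
  | symm p q _ ih =>
    rcases ih with h | h
    · exact Or.inl h.symm
    · exact Or.inr ⟨h.2, h.1⟩
  | trans p q r _ _ ih1 ih2 =>
    rcases ih1 with h | h
    · subst h; exact ih2
    · rcases ih2 with k | k
      · subst k; exact Or.inr h
      · exact Or.inr ⟨h.1, k.2⟩

theorem futR_cl (a k b M : ℕ) (ω : Conf) (ha : Odd a) (hb : Odd b) :
    X (b+2*k) (actBit (oFutR a (cl a k ω) M)) M =
      comb k St.bot (X b (actBit (oFutR (a+2*k) ω M)) M) := by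
  have hb' : Odd (b+2*k) := by
    obtain ⟨m, hm⟩ := hb
    exact ⟨m + k, by omega⟩
  have ha' : Odd (a+2*k) := by
    obtain ⟨m, hm⟩ := ha
    exact ⟨m + k, by omega⟩
  have hbe : b % 2 = 1 := Nat.odd_iff.1 hb
  apply St.ext
  funext x y
  apply propext
  show _ ↔ (x = y ∨ (x < 2*k ∧ y < 2*k ∧ x = y) ∨
    (2*k ≤ x ∧ 2*k ≤ y ∧ (X b (actBit (oFutR (a+2*k) ω M)) M).rel (x - 2*k) (y - 2*k)))
  constructor
  · intro h
    by_cases hne : x = y
    · exact Or.inl hne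
    have ho : x % 2 = 1 ∧ y % 2 = 1 := by
      rcases (X (b+2*k) (actBit (oFutR a (cl a k ω) M)) M).odd _ _ h with h' | h'
      · exact absurd h' hne
      · exact h'
    have hs : x ≤ b+2*k ∧ y ≤ b+2*k := by
      rcases X_supp (b+2*k) hb' M _ _ _ h with h' | h'
      · exact absurd h' hne
      · exact h'
    have h4 := (t_C03 a (b+2*k) M (cl a k ω) x y ha hb' ho.1 ho.2 hs.1 hs.2).1 h
    rw [E2_cl] at h4
    rcases isol a k b M ω h4 with h5 | h5
    · exfalso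
      have := congrArg Prod.fst h5
      simp only at this
      omega
    · simp only at h5
      right; right
      refine ⟨by omega, by omega, ?_⟩
      refine (t_C03 (a+2*k) b M ω (x - 2*k) (y - 2*k) ha' hb (by omega) (by omega) (by omega)
        (by omega)).2 ?_
      have e1 : (((x - 2*k : ℕ) : ℤ) + (((a+2*k : ℕ) : ℤ) + 1)) = (x : ℤ) + (a + 1) := by omega
      have e2 : (((y - 2*k : ℕ) : ℤ) + (((a+2*k : ℕ) : ℤ) + 1)) = (y : ℤ) + (a + 1) := by omega
      rw [e1, e2]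
      exact h4
  · rintro (h | ⟨_, _, h⟩ | ⟨h1, h2, h⟩)
    · subst h; exact (X (b+2*k) (actBit (oFutR a (cl a k ω) M)) M).eqv.refl _
    · subst h; exact (X (b+2*k) (actBit (oFutR a (cl a k ω) M)) M).eqv.refl _
    · by_cases hne : x = y
      · subst hne; exact (X (b+2*k) (actBit (oFutR a (cl a k ω) M)) M).eqv.refl _
      have ho : (x - 2*k) % 2 = 1 ∧ (y - 2*k) % 2 = 1 := by
        rcases (X b (actBit (oFutR (a+2*k) ω M)) M).odd _ _ h with h' | h'
        · exfalso; omega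
        · exact h'
      have hs : x - 2*k ≤ b ∧ y - 2*k ≤ b := by
        rcases X_supp b hb M _ _ _ h with h' | h'
        · exfalso; omega
        · exact h'
      have h4 := (t_C03 (a+2*k) b M ω (x - 2*k) (y - 2*k) ha' hb ho.1 ho.2 hs.1 hs.2).1 h
      refine (t_C03 a (b+2*k) M (cl a k ω) x y ha hb' (by omega) (by omega) (by omega)
        (by omega)).2 ?_
      rw [E2_cl]
      have e1 : (((x - 2*k : ℕ) : ℤ) + (((a+2*k : ℕ) : ℤ) + 1)) = (x : ℤ) + (a + 1) := by omega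
      have e2 : (((y - 2*k : ℕ) : ℤ) + (((a+2*k : ℕ) : ℤ) + 1)) = (y : ℤ) + (a + 1) := by omega
      rw [e1, e2] at h4
      exact h4

theorem win_iff (a k b M : ℕ) (ω : Conf) (ha : Odd a) (hb : Odd b) :
    cl a k ω ∈ WinS a (b+2*k) M ↔ ω ∈ WinF a k b M := by
  unfold WinS WinF
  simp only [Set.mem_ofPred_eq]
  rw [past_cl, fut_cl, futR_cl a k b M ω ha hb]

theorem odd_b (k : ℕ) {b : ℕ} (hb : Odd b) : Odd (b+2*k) := by
  obtain ⟨m, hm⟩ := hb
  exact ⟨m + k, by omega⟩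

theorem win_mono {a b : ℕ} (k : ℕ) (ha : Odd a) (hb : Odd b) : Monotone (WinF a k b) := by
  intro M M' hM ω h
  rw [← win_iff a k b M' ω ha hb]
  have h' := (win_iff a k b M ω ha hb).2 h
  exact winS_mono (t_C04 t_C01 t_C02 t_C03) (t_C05 t_C01 t_C02 t_C03) ha (odd_b k hb) hM h'

theorem iUnion_win {a b : ℕ} (k : ℕ) (ha : Odd a) (hb : Odd b) :
    ⋃ M, WinF a k b M = ECross a k b := by
  ext ω
  rw [cross_eq, ← iUnion_winS (t_C04 t_C01 t_C02 t_C03) (t_C05 t_C01 t_C02 t_C03) t_C06 t_C07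
    ha (odd_b k hb), Set.mem_iUnion, Set.mem_iUnion]
  exact exists_congr fun M => (win_iff a k b M ω ha hb).symm

/-! ### probabilities -/

/-- index set of the coordinates -/
abbrev JF (a k b M : ℕ) := (↥(T23.SS (a+(b+2*k)+1) M) ⊕ ↥(T23.SS a M)) ⊕ ↥(T23.SS b M)

/-- the edges -/
def eeF (a k b M : ℕ) : JF a k b M → Edge
  | Sum.inl (Sum.inl j) => T23.eP M j
  | Sum.inl (Sum.inr j) => T23.eF M j
  | Sum.inr j => C08.eR (a+2*k) M j

theorem eeF_inj (a k b M : ℕ) : Function.Injective (eeF a k b M) := by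
  rintro ((⟨⟨j, i⟩, h⟩ | ⟨⟨j, i⟩, h⟩) | ⟨⟨j, i⟩, h⟩) ((⟨⟨j', i'⟩, h'⟩ | ⟨⟨j', i'⟩, h'⟩) | ⟨⟨j', i'⟩, h'⟩) hh
  all_goals
    simp only [eeF, T23.eP, T23.eF, C08.eR] at hh
    have := T23.edgeOf_inj hh
    rw [T23.mem_SS] at h h'
    simp only at h h'
    try simp only [Sum.inl.injEq, Sum.inr.injEq, Subtype.mk.injEq, Prod.mk.injEq]
    push_cast at this
    omega

/-- the bit prescribed by a triple of sets -/
def bbF (a k b M : ℕ) (p0 p1 p2 : Finset (ℕ × ℕ)) : JF a k b M → Bool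
  | Sum.inl (Sum.inl j) => decide (j.1 ∈ p0)
  | Sum.inl (Sum.inr j) => decide (j.1 ∈ p1)
  | Sum.inr j => decide (j.1 ∈ p2)

/-- a cell -/
def cellF (a k b M : ℕ) (p0 p1 p2 : Finset (ℕ × ℕ)) : Set Conf :=
  {ω | T23.tP (a+(b+2*k)+1) M ω = p0 ∧ T23.tF a M ω = p1 ∧ tR (a+2*k) b M ω = p2}

theorem cellF_eq (a k b M : ℕ) (p0 p1 p2 : Finset (ℕ × ℕ)) (h0 : p0 ⊆ T23.SS (a+(b+2*k)+1) M)
    (h1 : p1 ⊆ T23.SS a M) (h2 : p2 ⊆ T23.SS b M) :
    cellF a k b M p0 p1 p2 =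
      ⋂ j : JF a k b M, (fun ω : Conf => ω (eeF a k b M j)) ⁻¹' {bbF a k b M p0 p1 p2 j} := by
  ext ω
  simp only [cellF, T23.tP, T23.tF, tR, Set.mem_ofPred_eq, Set.mem_iInter, Set.mem_preimage,
    Set.mem_singleton_iff]
  rw [C08.filter_eq_iff _ _ (fun j => ω (T23.eP M j)) h0,
    C08.filter_eq_iff _ _ (fun j => ω (T23.eF M j)) h1,
    C08.filter_eq_iff _ _ (fun j => ω (edgeOf ((j.2 : ℤ) + (((a+2*k : ℕ) : ℤ) + 1))
      (2 * (M : ℤ) - 1 - j.1))) h2]
  constructor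
  · rintro ⟨e0, e1, e2⟩ ((j | j) | j)
    · exact e0 j
    · exact e1 j
    · exact e2 j
  · intro h
    exact ⟨fun j => h (Sum.inl (Sum.inl j)), fun j => h (Sum.inl (Sum.inr j)),
      fun j => h (Sum.inr j)⟩

theorem card_JF (a k b M : ℕ) :
    Fintype.card (JF a k b M) = 2*M*(a+(b+2*k)+1) + 2*M*a + 2*M*b := by
  have h : ∀ L, (T23.SS L M).card = 2*M*L := by
    intro L
    rw [T23.SS, card_product, card_range, Nat.card_Icc, Nat.add_sub_cancel]
  rw [Fintype.card_sum, Fintype.card_sum, Fintype.card_coe, Fintype.card_coe, Fintype.card_coe,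
    h, h, h]

theorem cellF_prob (a k b M : ℕ) (p0 p1 p2 : Finset (ℕ × ℕ)) (h0 : p0 ⊆ T23.SS (a+(b+2*k)+1) M)
    (h1 : p1 ⊆ T23.SS a M) (h2 : p2 ⊆ T23.SS b M) : MeasurableSet (cellF a k b M p0 p1 p2) ∧
    perc (cellF a k b M p0 p1 p2) = (1/2) ^ (2*M*(a+(b+2*k)+1) + 2*M*a + 2*M*b) := by
  rw [cellF_eq a k b M p0 p1 p2 h0 h1 h2]
  refine ⟨C08.measurableSet_cyl _ _, ?_⟩
  rw [C08.perc_cyl _ (eeF_inj a k b M), card_JF]

open Classical in
/-- the good cells -/
noncomputable def goodF (a k b M : ℕ) : Finset C10.Tr :=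
  ((T23.SS (a+(b+2*k)+1) M).powerset ×ˢ ((T23.SS a M).powerset ×ˢ (T23.SS b M).powerset)).filter
    (fun p => conn3 a (b+2*k) (X (a+(b+2*k)+1) (actBit (T23.bits p.1)) M)
      (X a (actBit (T23.bits p.2.1)) M) (comb k St.bot (X b (actBit (T23.bits p.2.2)) M)))

theorem mem_goodF {a k b M : ℕ} {p : C10.Tr} :
    p ∈ goodF a k b M ↔ (p.1 ⊆ T23.SS (a+(b+2*k)+1) M ∧ p.2.1 ⊆ T23.SS a M ∧
      p.2.2 ⊆ T23.SS b M) ∧
      conn3 a (b+2*k) (X (a+(b+2*k)+1) (actBit (T23.bits p.1)) M)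
        (X a (actBit (T23.bits p.2.1)) M) (comb k St.bot (X b (actBit (T23.bits p.2.2)) M)) := by
  classical
  unfold goodF
  rw [Finset.mem_filter, Finset.mem_product, Finset.mem_product, Finset.mem_powerset,
    Finset.mem_powerset, Finset.mem_powerset]

theorem winF_eq (a k b M : ℕ) :
    WinF a k b M = ⋃ p ∈ goodF a k b M, cellF a k b M p.1 p.2.1 p.2.2 := by
  ext ω
  simp only [WinF, Set.mem_ofPred_eq, Set.mem_iUnion, exists_prop]
  rw [T23.X_past, T23.X_fut, C10.X_futR]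
  constructor
  · intro h
    refine ⟨(T23.tP (a+(b+2*k)+1) M ω, T23.tF a M ω, tR (a+2*k) b M ω), ?_, rfl, rfl, rfl⟩
    rw [mem_goodF]
    exact ⟨⟨filter_subset _ _, filter_subset _ _, filter_subset _ _⟩, h⟩
  · rintro ⟨⟨p1, p2, p3⟩, hp, h1, h2, h3⟩
    simp only at h1 h2 h3
    subst h1 h2 h3
    rw [mem_goodF] at hp
    exact hp.2

open Classical in
theorem sum_goodF (a k b M : ℕ) :
    (∑ t0 ∈ (T23.SS (a+(b+2*k)+1) M).powerset, ∑ t1 ∈ (T23.SS a M).powerset,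
        ∑ t2 ∈ (T23.SS b M).powerset,
        (if conn3 a (b+2*k) (X (a+(b+2*k)+1) (actBit (T23.bits t0)) M)
          (X a (actBit (T23.bits t1)) M)
          (comb k St.bot (X b (actBit (T23.bits t2)) M)) then (1 : ℂ) else 0)) =
      ((goodF a k b M).card : ℂ) := by
  unfold goodF
  rw [Finset.natCast_card_filter, Finset.sum_product]
  refine Finset.sum_congr rfl fun t0 _ => ?_
  rw [Finset.sum_product]

/-- the state of the right part of the upper half-strip -/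
noncomputable def sh (k : ℕ) (h : St →₀ ℂ) : St →₀ ℂ := Finsupp.mapDomain (comb k St.bot) h

theorem sh_eq (k : ℕ) (h : St →₀ ℂ) : comb2 k (Finsupp.single St.bot 1) h = sh k h := by
  unfold comb2 sh Finsupp.mapDomain
  rw [Finsupp.sum_single_index]
  · simp only [one_mul]
  · simp

theorem sh_smul (k : ℕ) (c : ℂ) (h : St →₀ ℂ) : sh k (c • h) = c • sh k h :=
  Finsupp.mapDomain_smul _ _

theorem prob_winF (a k b M : ℕ) : ((perc.real (WinF a k b M) : ℝ) : ℂ) =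
    pair3 a (b+2*k) (law (a+(b+2*k)+1) M) (law a M) (sh k (law b M)) := by
  classical
  have hc : ∀ p ∈ goodF a k b M, MeasurableSet (cellF a k b M p.1 p.2.1 p.2.2) ∧
      perc (cellF a k b M p.1 p.2.1 p.2.2) =
        (1/2) ^ (2*M*(a+(b+2*k)+1) + 2*M*a + 2*M*b) := by
    intro p hp
    obtain ⟨⟨h1, h2, h3⟩, _⟩ := mem_goodF.1 hp
    exact cellF_prob a k b M p.1 p.2.1 p.2.2 h1 h2 h3
  have hs : sh k (law b M) = ((1/2 : ℂ))^(2*M*b) • ∑ t ∈ (T23.SS b M).powerset,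
      Finsupp.single (comb k St.bot (X b (actBit (T23.bits t)) M)) (1:ℂ) := by
    rw [T23.law_eq, sh_smul]
    congr 1
    unfold sh
    rw [Finsupp.mapDomain_finsetSum]
    refine Finset.sum_congr rfl fun t _ => ?_
    rw [Finsupp.mapDomain_single]
  rw [hs, T23.law_eq, T23.law_eq, t_C09, winF_eq, measureReal_biUnion_finset]
  · have h1 : ∀ p ∈ goodF a k b M, perc.real (cellF a k b M p.1 p.2.1 p.2.2) =
        (1/2 : ℝ)^(2*M*(a+(b+2*k)+1) + 2*M*a + 2*M*b) := by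
      intro p hp
      rw [measureReal_def, (hc p hp).2]
      simp
    rw [Finset.sum_congr rfl h1, Finset.sum_const, nsmul_eq_mul]
    rw [sum_goodF]
    push_cast
    rw [← pow_add, ← pow_add, mul_comm]
  · intro p _ p' _ hne
    rw [Function.onFun, Set.disjoint_left]
    rintro ω ⟨h1, h2, h3⟩ ⟨h4, h5, h6⟩
    exact hne (Prod.ext (h1.symm.trans h4) (Prod.ext (h2.symm.trans h5) (h3.symm.trans h6)))
  · intro p hp
    exact (hc p hp).1

theorem finalF (a k b : ℕ) (ha : Odd a) (hb : Odd b) :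
    ((perc.real (ECross a k b) : ℝ) : ℂ) =
      pair3 a (b+2*k) (psi1 (a+(b+2*k)+1)) (psi1 a) (sh k (psi1 b)) /
        (mass (psi1 (a+(b+2*k)+1)) * mass (psi1 a) * mass (psi1 b)) := by
  have hL : Odd (a + (b+2*k) + 1) := (ha.add_odd (odd_b k hb)).add_one
  have e1 : Tendsto (fun M => perc.real (WinF a k b M)) atTop (𝓝 (perc.real (ECross a k b))) := by
    have h1 : Tendsto (fun M => perc (WinF a k b M)) atTop (𝓝 (perc (⋃ M, WinF a k b M))) :=
      tendsto_measure_iUnion_atTop (win_mono k ha hb)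
    rw [iUnion_win k ha hb] at h1
    exact (ENNReal.tendsto_toReal (measure_ne_top perc (ECross a k b))).comp h1
  have e2 : Tendsto (fun M => ((perc.real (WinF a k b M) : ℝ) : ℂ)) atTop
      (𝓝 ((perc.real (ECross a k b) : ℝ) : ℂ)) :=
    (Complex.continuous_ofReal.tendsto _).comp e1
  have hlim : Tendsto (fun M => T24.nrm (sh k (law b M) + (-1 : ℂ) •
      sh k ((mass (psi1 b))⁻¹ • psi1 b))) atTop (𝓝 0) := by
    refine squeeze_zero (fun _ => T24.nrm_nonneg _) (fun M => ?_) (psi1_law t_C12 b hb)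
    rw [← sh_smul]
    unfold sh
    rw [← Finsupp.mapDomain_add]
    exact T24.nrm_mapDomain_le _ _
  have e3 := t_C13 t_C11 a (b+2*k) (law (a+(b+2*k)+1)) (law a) (fun M => sh k (law b M)) _ _ _
    (psi1_law t_C12 (a+(b+2*k)+1) hL) (psi1_law t_C12 a ha) hlim
  have e4 : Tendsto (fun M => ((perc.real (WinF a k b M) : ℝ) : ℂ)) atTop
      (𝓝 (pair3 a (b+2*k) ((mass (psi1 (a+(b+2*k)+1)))⁻¹ • psi1 (a+(b+2*k)+1))
        ((mass (psi1 a))⁻¹ • psi1 a) (sh k ((mass (psi1 b))⁻¹ • psi1 b)))) := by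
    refine e3.congr fun M => ?_
    rw [prob_winF a k b M]
  have e5 := tendsto_nhds_unique e2 e4
  obtain ⟨_, _, _, s1, s2, s3, _⟩ := t_C11
  rw [e5, s1, s2, sh_smul, s3]
  have n0 := psi1_mass_ne _ hL
  have n1 := psi1_mass_ne a ha
  have n2 := psi1_mass_ne b hb
  field_simp

/-! ### the glued amplitude -/

theorem jn_iff (a b : ℕ) (ha : Odd a) (R R1 R2 : St) :
    jn a (a+b+1) R (comb ((a+1)/2) R1 R2) ↔ conn3 a b R R1 R2 := by
  have hae : 2 * ((a+1)/2) = a + 1 := by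
    obtain ⟨m, rfl⟩ := ha
    omega
  unfold jn conn3
  constructor
  · refine eqvGen_le_gen ?_
    rintro x y (h | h)
    · exact EqvGen.rel _ _ (Or.inl h)
    · have h' : x = y ∨ (x < 2*((a+1)/2) ∧ y < 2*((a+1)/2) ∧ R1.rel x y) ∨
        (2*((a+1)/2) ≤ x ∧ 2*((a+1)/2) ≤ y ∧
          R2.rel (x - 2*((a+1)/2)) (y - 2*((a+1)/2))) := h
      rw [hae] at h'
      rcases h' with k | ⟨k1, k2, k3⟩ | ⟨k1, k2, k3⟩
      · subst k; exact EqvGen.refl _
      · exact EqvGen.rel _ _ (Or.inr (Or.inl ⟨k3, by omega, by omega⟩))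
      · rcases R2.odd _ _ k3 with k | ⟨k4, k5⟩
        · have : x = y := by omega
          subst this; exact EqvGen.refl _
        · exact EqvGen.rel _ _ (Or.inr (Or.inr ⟨by omega, by omega, k3⟩))
  · refine fun h => h.mono ?_
    rintro x y (h | ⟨h, k1, k2⟩ | ⟨k1, k2, h⟩)
    · exact Or.inl h
    · right
      show x = y ∨ (x < 2*((a+1)/2) ∧ y < 2*((a+1)/2) ∧ R1.rel x y) ∨
        (2*((a+1)/2) ≤ x ∧ 2*((a+1)/2) ≤ y ∧
          R2.rel (x - 2*((a+1)/2)) (y - 2*((a+1)/2)))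
      rw [hae]
      exact Or.inr (Or.inl ⟨by omega, by omega, h⟩)
    · right
      show x = y ∨ (x < 2*((a+1)/2) ∧ y < 2*((a+1)/2) ∧ R1.rel x y) ∨
        (2*((a+1)/2) ≤ x ∧ 2*((a+1)/2) ≤ y ∧
          R2.rel (x - 2*((a+1)/2)) (y - 2*((a+1)/2)))
      rw [hae]
      exact Or.inr (Or.inr ⟨by omega, by omega, h⟩)

theorem pairG_eq (a b : ℕ) (ha : Odd a) (f g h : St →₀ ℂ) :
    pairG a (a+b+1) f (comb2 ((a+1)/2) g h) = pair3 a b f g h := by
  classical
  unfold pairG comb2 pair3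
  refine Finsupp.sum_congr fun R _ => ?_
  rw [Finsupp.sum_sum_index (by intro R'; simp) (by intro R' b1 b2; ring)]
  refine Finsupp.sum_congr fun R1 _ => ?_
  rw [Finsupp.sum_sum_index (by intro R'; simp) (by intro R' b1 b2; ring)]
  refine Finsupp.sum_congr fun R2 _ => ?_
  rw [Finsupp.sum_single_index (by simp), ← mul_assoc]
  have := jn_iff a b ha R R1 R2
  by_cases hc : conn3 a b R R1 R2
  · rw [if_pos hc, if_pos (this.2 hc)]
  · rw [if_neg hc, if_neg (fun h => hc (this.1 h))]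

theorem low_eqF (a k b : ℕ) : on a ++ ((1 :: on (2*k)) ++ (on b ++ [0])) =
    List.replicate (a+(b+2*k)+1) 1 ++ [0] := by
  unfold Pool.Agent.NH38.Step.on
  have : List.replicate (a+(b+2*k)+1) (1:ℂ) = List.replicate a 1 ++
      (1 :: List.replicate (2*k) 1 ++ List.replicate b 1) := by
    rw [show a+(b+2*k)+1 = a + ((2*k+1) + b) by ring, List.replicate_add, List.replicate_add,
      List.replicate_succ]
  rw [this]
  simp only [List.append_assoc, List.cons_append]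

theorem up1_on (a : ℕ) : up1 (on a) = psi1 a := by
  unfold Pool.Agent.H492C.up1 psi1
  rw [Step.PL.up_eq]

theorem G_eqF (a k b : ℕ) (ha : Odd a) : G (on a) (1 :: on (2*k)) (on b) =
    pair3 a (b+2*k) (psi1 (a+(b+2*k)+1)) (psi1 a) (sh k (psi1 b)) := by
  have hla : ∀ n, (on n).length = n := fun n => by simp [Pool.Agent.NH38.Step.on]
  unfold G U
  rw [low_eqF, List.length_cons, hla, hla, hla, up1_on, up1_on, sh_eq,
    show a + (2*k+1) + b = a + (b+2*k) + 1 by ring, show (2*k+1-1)/2 = k by omega,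
    pairG_eq a (b+2*k) ha]
  rfl

theorem T_eqF (a k b : ℕ) : T (on a) (1 :: on (2*k)) (on b) =
    mass (psi1 (a+(b+2*k)+1)) * (mass (psi1 a) * mass (psi1 b)) := by
  unfold T
  rw [low_eqF, Step.PL.up_eq, Step.PL.up_eq]
  rfl

end PP

open PP

theorem t_TF : S_TF := by
  intro a k b ha hb
  have hL : Odd (a + (b+2*k) + 1) := (ha.add_odd (odd_b k hb)).add_one
  rw [T_eqF]
  exact mul_ne_zero (psi1_mass_ne _ hL) (mul_ne_zero (psi1_mass_ne a ha) (psi1_mass_ne b hb))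

theorem t_PF : S_PF := by
  intro a k b ha hb
  have hL : Odd (a + (b+2*k) + 1) := (ha.add_odd (odd_b k hb)).add_one
  have n0 := psi1_mass_ne _ hL
  have n1 := psi1_mass_ne a ha
  have n2 := psi1_mass_ne b hb
  rw [T_eqF, G_eqF a k b ha, finalF a k b ha hb]
  field_simp

end Pool.Agent.NH38.Fork
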