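import Pool.Agent.NH38.Fork.Base
import Pool.Agent.NH38.Fork.HG1
import Pool.Agent.NH38.Fork.HG2
import Pool.Agent.NH38.Fork.HG3
import Pool.Agent.NH38.Fork.HG5
import Pool.Agent.NH38.Fork.HG6
import Pool.Agent.NH38.Fork.HG7
import Pool.Agent.NH38.Fork.NG1
import Pool.Agent.NH38.Fork.NG2
import Pool.Agent.NH38.Fork.NG3
import Pool.Agent.NH38.Fork.NG4
import Pool.Agent.NH38.Fork.NG5
import Pool.Agent.NH38.Fork.N1
import Pool.Agent.NH38.Fork.N5
import Pool.Agent.NH38.Fork.P
import Pool.Agent.NH38.Fork.GG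
import Pool.Agent.NH38.Fork.FTrunc

/-!
Forked channels (helper38): exact formula and scaling limit, assembled.
-/

namespace Pool.Agent.NH38.Fork

open Pool.Agent.H988R2.Perc hiding X
open MeasureTheory

theorem a_HFg : S_HFg := t_HFg (t_OMg t_ttwid t_Teq) (t_HLg a_M t_regG) (t_HLtg a_ZI t_regz)
  (t_HTg t_ttwid) a_wid t_ttwid

theorem a_AlgG : S_AlgG := t_AlgG a_HFg t_AVg t_Teq

/-- the exact formula for the crossing probability of the forked channel -/
theorem a_ExactG : S_ExactG := exactG_of t_PF t_TF a_AlgG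

theorem a_FGle : S_FGle := by
  intro a b ha hb
  have h := a_ExactG a 0 b ha hb
  have h1 : perc.real (ECross a 0 b) ≤ 1 := measureReal_le_one
  rw [h] at h1
  have h2 : ((FG a b (a+b+1+2*0) : ℚ) : ℝ) ≤ ((1 : ℚ) : ℝ) := by simpa using h1
  exact_mod_cast h2

theorem a_AsyG : S_AsyG := t_AsyG t_MJ t_pos t_vvA t_svA t_KAP (t_F4 t_WI) a_FGle

/-- the scaling limit -/
theorem a_LimG : S_LimG := t_GG a_ExactG a_AsyG

end Pool.Agent.NH38.Fork
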