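import Pool.Agent.NH38.Fork.Stubs3

/-!
Thick slits, task H7 (helper80): from the residue formula to `FU`.
-/

namespace Pool.Agent.NH38.Fork

open Pool.Agent.H988R2.Perc hiding X
open Pool.Agent.NH38.Step (om prs EE zs prF Gen on cardy pom bev)
open Polynomial

namespace H7

open H337CB (R P Ps)

theorem R_sum {ι : Type} (m : ℕ) (c : ℚ) (s : Finset ι) (F : ι → ℚ[X]) :
    R m c (∑ i ∈ s, F i) = ∑ i ∈ s, R m c (F i) := by
  classical
  induction s using Finset.induction_on with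
  | empty => simp [H337CB.R_zero]
  | insert a s ha ih => rw [Finset.sum_insert ha, Finset.sum_insert ha, H337CB.R_add, ih]

theorem R_shiftY (r m : ℕ) (c : ℚ) (F : ℚ[X]) :
    R (m + r) c ((1 - X)^r * F) = (-1)^r * R m c F := by
  induction r generalizing F with
  | zero => simp
  | succ r ih =>
    rw [← add_assoc, pow_succ', mul_assoc, H337CB.R_shift1, ih]
    ring

theorem term (a N j : ℕ) (hj : j < a) :
    R (2*a + N) (-2/3) (X^j * ((1 - X)^(2*a - 1 - 2*j) * ((1 + X) * P N))) =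
      - R (N + 2*j + 1) ((j:ℚ) - 2/3) ((1 + X) * P N) := by
  rw [← Step.Hom.R_shiftX, show (-2/3 : ℚ) + j = (j:ℚ) - 2/3 by ring,
    show 2*a + N = (N + 2*j + 1) + (2*a - 1 - 2*j) by omega, R_shiftY, Odd.neg_one_pow, neg_one_mul]
  exact ⟨a - 1 - j, by omega⟩

theorem res (a N : ℕ) (h : 2*a < N + 1) :
    R (2*a + N) (-1/3) ((1 + X) * (∑ j ∈ Finset.range a, C (cj a j) * (4 * X)^j *
      (1 - X)^(2*a - 1 - 2*j)) * Ps N) = - (2 * FU a N) := by
  have h1 := H337CB.R_swap (2*a + N) N (by omega) (-2/3) ((1 + X) * (∑ j ∈ Finset.range a,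
    C (cj a j) * (4 * X)^j * (1 - X)^(2*a - 1 - 2*j)))
  rw [show (-2/3 + 1/3 : ℚ) = -1/3 by norm_num, mul_comm (Ps N)] at h1
  rw [h1]
  have h2 : P N * ((1 + X) * (∑ j ∈ Finset.range a, C (cj a j) * (4 * X)^j *
      (1 - X)^(2*a - 1 - 2*j))) = ∑ j ∈ Finset.range a, C (cj a j * 4^j) *
        (X^j * ((1 - X)^(2*a - 1 - 2*j) * ((1 + X) * P N))) := by
    rw [Finset.mul_sum, Finset.mul_sum]
    refine Finset.sum_congr rfl fun j _ => ?_
    rw [C_mul, C_pow, mul_pow, show (C (4:ℚ) : ℚ[X]) = 4 from rfl]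
    ring
  rw [h2, R_sum]
  have h3 : ∀ j ∈ Finset.range a, R (2*a + N) (-2/3) (C (cj a j * 4^j) *
        (X^j * ((1 - X)^(2*a - 1 - 2*j) * ((1 + X) * P N)))) = - (cj a j * mj N j) := by
    intro j hj
    rw [H337CB.R_C, term a N j (Finset.mem_range.1 hj)]
    unfold mj
    ring
  rw [Finset.sum_congr rfl h3, Finset.sum_neg_distrib]
  unfold FU
  ring

theorem prs_on (k : ℕ) : prs (on k) = on (2*k) := by
  induction k with
  | zero => simp [prs, on]
  | succ k ih =>
    have e : on (k+1) = 1 :: on k := by simp [on, List.replicate_succ]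
    have e2 : on (2*(k+1)) = 1 :: 1 :: on (2*k) := by
      simp [on, mul_add, List.replicate_succ]
    rw [e, e2, ← ih]
    simp [prs]

end H7

open H7

/-- H7 -/
theorem t_AlgF (hHF : S_HF) (hAV : S_AV) (hT : S_Teq) : S_AlgF := by
  intro a k ha
  have e1 : (X + 1) * ((1 + X) * (∑ j ∈ Finset.range a, C (cj a j) * (4 * X)^j *
      (1 - X)^(2*a - 1 - 2*j))) =
      (H337CB.P a - X * H337CB.Ps a) * (H337CB.P a + H337CB.Ps a) := by
    rw [hAV a ha]
    ring
  have h1 := hHF a k _ ha e1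
  rw [res a (2*a+1+2*k) (by omega)] at h1
  have h2 : gh (on a) (on k) (on a) 1 = ((FU a (2*a+1+2*k) : ℚ) : ℂ) *
      (tt (on a) (on k) (on a) 1 * mm (on a) (on a)) := by
    have h3 : (2:ℂ) ≠ 0 := two_ne_zero
    apply mul_left_cancel₀ h3
    rw [h1]
    push_cast
    ring
  have hne : ∀ n, NZ (on n) := fun n => Step.Hom.on_ne n
  have hl : Odd (on a).length := by rw [Step.Hom.on_len]; exact ha
  have h4 := hT (on a) (on k) (on a) 1 hl hl (hne a) (hne k) (hne a) one_ne_zero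
  rw [prs_on] at h4
  have hc : cst (on a) (on a) (on k).length 1 ≠ 0 := by
    unfold cst
    simp only [Step.Hom.on_prod, one_pow, one_mul]
    exact pow_ne_zero _ q_ne_zero
  unfold gh at h2
  rw [prs_on, div_eq_iff hc] at h2
  rw [h2, h4]
  ring

end Pool.Agent.NH38.Fork
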