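import Pool.Agent.NH38.Fork.LR
import Pool.Agent.NH38.Fork.Stubs2
import Pool.Agent.NH38.Step.C8
import Pool.Agent.H492C.H2

/-!
Thick slits (helper38), task M8: the formula (final induction).
-/

namespace Pool.Agent.NH38.Fork

open Pool.Agent.H988R2.Perc hiding X
open Pool.Agent.H492C (comb2 pairG up1)
open Pool.Agent.NH38.Step (om prs EE zs prF Gen on cardy pom bev)
open Polynomial

namespace M8

variable {ι : Type} {x : ι → ℂ} {P : ℂ[X]}

/-- the entries of a list of functions at a point -/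
noncomputable def at2 (L : List (ℂ → ℂ → ℂ)) (t w : ℂ) : List ℂ := L.map (fun f => f t w)

/-- constant functions -/
noncomputable def cn (L : List ℂ) : List (ℂ → ℂ → ℂ) := L.map (fun c => fun _ _ => c)

theorem cn_at (L : List ℂ) (t w : ℂ) : (cn L).map (fun f => f t w) = L := by
  unfold cn
  rw [List.map_map]
  exact List.map_id' L

theorem cn_length (L : List ℂ) : (cn L).length = L.length := by simp [cn]

theorem cn_UL (L : List ℂ) : ∀ f ∈ cn L, UL P f := by
  intro f hf
  unfold cn at hf
  rw [List.mem_map] at hf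
  obtain ⟨c, -, rfl⟩ := hf
  exact UL.const c

theorem prs_len (X : List ℂ) : Even (prs X).length := by
  rw [Step.prs_length]
  exact even_two_mul _

theorem app_UL {L M : List (ℂ → ℂ → ℂ)} (hL : ∀ f ∈ L, UL P f) (hM : ∀ f ∈ M, UL P f) :
    ∀ f ∈ L ++ M, UL P f := by
  intro f hf
  rcases List.mem_append.mp hf with h | h
  · exact hL f h
  · exact hM f h

theorem cons_UL {f : ℂ → ℂ → ℂ} {L : List (ℂ → ℂ → ℂ)} (hf : UL P f) (hL : ∀ f ∈ L, UL P f) :
    ∀ g ∈ f :: L, UL P g := by
  intro g hg
  rcases List.mem_cons.mp hg with rfl | h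
  · exact hf
  · exact hL g h

section Reg

variable (hz : S_regz) (hG : S_regG) (hD : S_regD)
variable {A B : List (ℂ → ℂ → ℂ)} {f : ℂ → ℂ → ℂ}

include hz in
theorem reg_zs (s : List ℂ) (hs : Even s.length) (hA : Odd A.length) (hB : Odd B.length)
    (uA : ∀ g ∈ A, UL P g) (uB : ∀ g ∈ B, UL P g) :
    LR P (fun t w => zs (A.map (fun g => g t w) ++ (B.map (fun g => g t w) ++ s))) := by
  have h := (hz P (A ++ (B ++ cn s)) (app_UL uA (app_UL uB (cn_UL s)))).1 (by
    simp only [List.length_append, cn_length]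
    exact hA.add_odd (hB.add_even hs))
  refine h.congr fun t w _ _ => ?_
  simp only [List.map_append, cn_at]

include hz in
theorem reg_zs2 (s : List ℂ) (hs : Even s.length) (c : ℂ) (hA : Odd A.length) (hB : Odd B.length)
    (uA : ∀ g ∈ A, UL P g) (uB : ∀ g ∈ B, UL P g) (uf : UL P f) :
    LR P (fun t w => zs (f t w :: c :: (A.map (fun g => g t w) ++
      (B.map (fun g => g t w) ++ s)))) := by
  have h := (hz P (f :: (fun _ _ => c) :: (A ++ (B ++ cn s)))
    (cons_UL uf (cons_UL (UL.const c) (app_UL uA (app_UL uB (cn_UL s)))))).1 (by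
    simp only [List.length_cons, List.length_append, cn_length]
    exact ((hA.add_odd (hB.add_even hs)).add_one).add_one)
  refine h.congr fun t w _ _ => ?_
  simp only [List.map_cons, List.map_append, cn_at]

include hz in
theorem reg_tF (s : Finset ι) (hA : Odd A.length) (hB : Odd B.length)
    (uA : ∀ g ∈ A, UL P g) (uB : ∀ g ∈ B, UL P g) (uf : UL P f) :
    LR P (fun t w => tF x s (A.map (fun g => g t w)) (B.map (fun g => g t w)) (f t w)) := by
  have h := (hz P (f :: (A ++ (B ++ cn (prs (s.toList.map x)))))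
    (cons_UL uf (app_UL uA (app_UL uB (cn_UL _))))).2 (by
    simp only [List.length_cons, List.length_append, cn_length]
    exact (hA.add_odd (hB.add_even (prs_len _))).add_one)
  refine h.congr fun t w _ _ => ?_
  unfold tF tt
  simp only [List.map_cons, List.map_append, cn_at]

include hG in
theorem reg_gF (s : Finset ι) (hA : Odd A.length) (hB : Odd B.length)
    (uA : ∀ g ∈ A, UL P g) (uB : ∀ g ∈ B, UL P g) (uf : UL P f) :
    LR P (fun t w => gF x s (A.map (fun g => g t w)) (B.map (fun g => g t w)) (f t w)) := by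
  have h := hG P A (cn (s.toList.map x)) B f hA hB uA (cn_UL _) uB uf
  refine h.congr fun t w _ _ => ?_
  unfold gF
  simp only [cn_at]

include hz hG in
theorem reg_FP (s : Finset ι) (hA : Odd A.length) (hB : Odd B.length)
    (uA : ∀ g ∈ A, UL P g) (uB : ∀ g ∈ B, UL P g) (uf : UL P f) :
    LR P (fun t w => FP x (gF x) s (A.map (fun g => g t w)) (B.map (fun g => g t w))
      (f t w)) := by
  classical
  have hom := uf.om
  have e1 : LR P (fun t w => ∏ j ∈ s, (om (f t w) - om (x j))) :=
    LR.prod s (fun j t w => om (f t w) - om (x j)) fun j _ => hom.sub (LR.const _)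
  have e2 : LR P (fun t w => zs (A.map (fun g => g t w) ++ B.map (fun g => g t w))) :=
    (reg_zs hz [] (by simp) hA hB uA uB).congr fun t w _ _ => by rw [List.append_nil]
  have e3 := reg_gF (x := x) hG s hA hB uA uB uf
  have e4 : LR P (fun t w => ∏ j ∈ s, EE (om (f t w)) (om (x j))) :=
    LR.prod s (fun j t w => EE (om (f t w)) (om (x j))) fun j _ => by
      refine ((((hom.pow 2).add (hom.mul (LR.const (om (x j))))).add
        (LR.const ((om (x j))^2))).sub (LR.const 3)).congr fun t w _ _ => ?_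
      rfl
  have e5 := reg_zs (P := P) hz (prF x s) (prs_len _) hA hB uA uB
  have e6 := reg_gF (x := x) hG ∅ hA hB uA uB uf
  have e7 : ∀ i ∈ s, LR P (fun t w => gm x s i * (∏ j ∈ s.erase i, (om (f t w) - om (x j))) *
      cc (gF x ∅ (A.map (fun g => g t w)) (B.map (fun g => g t w))) (f t w) (x i) *
      zs (f t w :: x i :: (A.map (fun g => g t w) ++
        (B.map (fun g => g t w) ++ prF x (s.erase i))))) := by
    intro i _
    have k1 : LR P (fun t w => ∏ j ∈ s.erase i, (om (f t w) - om (x j))) :=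
      LR.prod _ (fun j t w => om (f t w) - om (x j)) fun j _ => hom.sub (LR.const _)
    have k2 := reg_gF (x := x) hG ∅ hA hB uA uB (UL.const (P := P) (x i))
    have k3 := reg_gF (x := x) hG ∅ hA hB uA uB (UL.const (P := P) (x i)⁻¹)
    have k4 := reg_zs2 hz (prF x (s.erase i)) (prs_len _) (x i) hA hB uA uB uf
    have k5 : LR P (fun t w => cc (gF x ∅ (A.map (fun g => g t w)) (B.map (fun g => g t w)))
        (f t w) (x i)) := by
      have m1 : LR P (fun t w => (f t w - q * x i) * (1 - (f t w)⁻¹ * (x i)⁻¹)) :=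
        (uf.1.sub (LR.const _)).mul ((LR.const 1).sub (uf.2.mul (LR.const _)))
      have m2 : LR P (fun t w => (f t w - q * (x i)⁻¹) * (1 - (f t w)⁻¹ * x i)) :=
        (uf.1.sub (LR.const _)).mul ((LR.const 1).sub (uf.2.mul (LR.const _)))
      refine (((LR.const ((1 - q^2) / 3)).mul ((m1.mul k2).sub (m2.mul k3))).mul
        (LR.const ((x i - (x i)⁻¹)⁻¹))).congr fun t w _ _ => ?_
      unfold cc
      simp only [mul_inv, div_eq_mul_inv]
    exact (((LR.const (gm x s i)).mul k1).mul k5).mul k4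
  have e8 := LR.sum s _ e7
  refine (((e1.mul e2).mul e3).sub ((e4.mul e5).mul e6)).add e8 |>.congr fun t w _ _ => ?_
  unfold FP
  rfl

include hz hG hD in
theorem reg_FQ (s : Finset ι) (hA : Odd A.length) (hB : Odd B.length)
    (uA : ∀ g ∈ A, UL P g) (uB : ∀ g ∈ B, UL P g) (uf : UL P f) :
    LR P (fun t w => FQ x s (A.map (fun g => g t w)) (B.map (fun g => g t w)) (f t w)) := by
  classical
  have e1 := reg_gF (x := x) hG s hA hB uA uB uf
  have e2 := reg_tF (x := x) hz ∅ hA hB uA uB uf
  have e3 := reg_gF (x := x) hG ∅ hA hB uA uB uf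
  have e4 := reg_tF (x := x) hz s hA hB uA uB uf
  have e5 : ∀ i ∈ s, LR P (fun t w => gm x s i *
      ((Dh (A.map (fun g => g t w)) (f t w) (x i) (B.map (fun g => g t w)) -
        Dh (A.map (fun g => g t w)) (f t w) (x i)⁻¹ (B.map (fun g => g t w))) /
          (x i - (x i)⁻¹)) *
      zs (f t w :: x i :: (A.map (fun g => g t w) ++
        (B.map (fun g => g t w) ++ prF x (s.erase i))))) := by
    intro i _
    have k1 := hD P A B f _ hA hB uA uB uf (UL.const (x i))
    have k2 := hD P A B f _ hA hB uA uB uf (UL.const (x i)⁻¹)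
    have k4 := reg_zs2 hz (prF x (s.erase i)) (prs_len _) (x i) hA hB uA uB uf
    refine ((((LR.const (gm x s i)).mul ((k1.sub k2).mul
      (LR.const ((x i - (x i)⁻¹)⁻¹))))).mul k4).congr fun t w _ _ => ?_
    rw [div_eq_mul_inv]
  have e6 := LR.sum s _ e5
  refine ((e1.mul e2).sub (e3.mul e4)).add (e6.smul ((1 - q^2) / 3)) |>.congr fun t w _ _ => ?_
  unfold FQ
  rfl

end Reg

/-- the standard families -/
theorem ev_fn (A : List ℂ[X]) (t w : ℂ) : ev A t = (fn A).map (fun f => f t w) :=
  (fn_ev A t w).symm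

/-! ### values at one -/

theorem NZ_on (n : ℕ) : NZ (on n) := by
  intro z hz
  unfold Step.on at hz
  rw [List.mem_replicate] at hz
  rw [hz.2]
  exact one_ne_zero

theorem on_length (n : ℕ) : (on n).length = n := by simp [Step.on]

theorem zs_on_ne (a b : ℕ) (hn : Even (a + b)) : zs (on a ++ on b) ≠ 0 := by
  obtain ⟨m, hm⟩ := hn
  unfold Step.zs Step.on
  rw [List.replicate_append_replicate, List.prod_replicate, one_pow, one_pow, one_mul, hm]
  refine div_ne_zero ?_ (pow_ne_zero _ q_ne_zero)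
  rw [← two_mul, Z_ones]
  refine mul_ne_zero (pow_ne_zero _ q_ne_zero) ?_
  exact_mod_cast (chi_pos _).ne'

theorem zo_ne_of {l : List ℂ} (hl : ∀ z ∈ l, z ≠ 0) (h : Z (l ++ [0]) ≠ 0) : zo l ≠ 0 := by
  unfold zo
  refine div_ne_zero h (mul_ne_zero (pow_ne_zero _ ?_) (pow_ne_zero _ q_ne_zero))
  exact List.prod_ne_zero fun h => hl 0 h rfl

theorem q_ne_two : (q : ℂ) ≠ 2 := by
  intro h
  have h1 := Step.nq
  rw [h] at h1
  norm_num at h1

theorem tF_ne (a b : ℕ) (ha : Odd a) (hb : Even b) :
    tF x ∅ (on a) ((2:ℂ) :: on b) (q * 2) ≠ 0 := by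
  have e : tF x ∅ (on a) ((2:ℂ) :: on b) (q * 2) =
      zo ((q * 2) :: (on a ++ (((2:ℂ) :: on b) ++ []))) := by
    unfold tF tt
    rw [Finset.toList_empty]
    rfl
  rw [e]
  have hq2 : (q * 2 : ℂ) ≠ 0 := mul_ne_zero q_ne_zero two_ne_zero
  apply zo_ne_of
  · intro z hz
    rw [List.append_nil, List.mem_cons, List.mem_append, List.mem_cons] at hz
    rcases hz with rfl | hz | rfl | hz
    · exact hq2
    · exact NZ_on a z hz
    · exact two_ne_zero
    · exact NZ_on b z hz
  · have hp : ((q * 2) :: (on a ++ (((2:ℂ) :: on b) ++ [])) ++ [0]).Perm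
        ((q * 2) :: (q^2 * (q * 2)) :: (on (a + b) ++ [0])) := by
      have e2 : q^2 * (q * 2) = (2:ℂ) := by
        rw [← mul_assoc, ← pow_succ, q_cube, one_mul]
      rw [e2, List.append_nil, List.cons_append]
      refine List.Perm.cons _ ?_
      rw [List.append_assoc, List.cons_append]
      refine List.perm_middle.trans ?_
      refine List.Perm.cons _ ?_
      rw [← List.append_assoc]
      unfold Step.on
      rw [List.replicate_append_replicate]
    have hev : Even ((q * 2) :: (on a ++ (((2:ℂ) :: on b) ++ [])) ++ [0]).length := by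
      simp only [List.length_append, List.length_cons, on_length, List.length_nil]
      obtain ⟨k, rfl⟩ := ha
      obtain ⟨l, rfl⟩ := hb
      exact ⟨k + l + 2, by ring⟩
    rw [Z_perm hev hp]
    have hr := Z_rec [] (on (a + b) ++ [0]) (q * 2) (by
      simp only [List.length_append, List.length_cons, on_length, List.length_nil]
      obtain ⟨k, rfl⟩ := ha
      obtain ⟨l, rfl⟩ := hb
      exact ⟨k + l + 1, by ring⟩)
    rw [List.nil_append, List.nil_append] at hr
    rw [hr]
    refine mul_ne_zero ?_ (H492C.H2.Z_ones_zero_ne (a + b) (ha.add_even hb))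
    rw [Step.fac_app, Step.fac_zero_right]
    refine mul_ne_zero (Step.fac_ne' _ _ ?_)
      (mul_ne_zero (neg_ne_zero.mpr (pow_ne_zero _ q_ne_zero)) hq2)
    intro y hy
    unfold Step.on at hy
    rw [List.mem_replicate] at hy
    rw [hy.2, mul_one, mul_one]
    have h2 : q * 2 ≠ q^2 := by
      intro h
      apply q_ne_two
      have : q * 2 = q * q := by rw [h, sq]
      exact (mul_left_cancel₀ q_ne_zero this).symm
    exact ⟨h2, h2⟩

theorem exists_om_ne (hx : Gen x) (s : Finset ι) :
    ∃ w : ℂ, w ≠ 0 ∧ (∏ j ∈ s, (om w - om (x j))) ≠ 0 := by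
  obtain ⟨r, hR⟩ := Step.rad_exists x s
  have hr : 0 < r := by linarith [hR.1]
  have hn : ‖(r:ℂ)‖ = r := by rw [Complex.norm_real, Real.norm_of_nonneg hr.le]
  refine ⟨(r:ℂ), by exact_mod_cast hr.ne', ?_⟩
  refine Finset.prod_ne_zero_iff.mpr fun j hj => sub_ne_zero.mpr ?_
  exact Step.om_ne_large hR (fun i => (hx.1 i).1) hj _ hn.ge

/-! ### the induction -/

theorem dens_FQ (hz : S_regz) (hG : S_regG) (hD : S_regD) (hDEN : S_DEN) (hFQ : S_FQ)
    (hx : Gen x) (s : Finset ι) (b : ℕ) (hb : Odd b)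
    (h : ∀ A B, Odd A.length → B.length = b → NZ A → NZ B → ∀ w, w ≠ 0 →
      FP x (gF x) s A B w = 0) :
    ∀ A B, Odd A.length → B.length = b → NZ A → NZ B → ∀ w, w ≠ 0 → FQ x s A B w = 0 := by
  classical
  intro A B hA hB nA nB w hw
  obtain ⟨w0, hw0, hw0'⟩ := exists_om_ne hx s
  refine hDEN A.length b (FQ x s) (fun A B w => (∏ j ∈ s, (om w - om (x j))) * zs (A ++ B))
    ?_ ?_ ⟨on A.length, on b, w0, on_length _, on_length _, NZ_on _, NZ_on _, hw0, ?_⟩ ?_
    A B rfl hB nA nB w hw
  · intro A' B' hA' hB'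
    have hA'' : Odd (fn A').length := by rw [fn_length, hA']; exact hA
    have hB'' : Odd (fn B').length := by rw [fn_length, hB']; exact hb
    refine (reg_FQ (x := x) (P := (A' ++ B').prod) (f := fun _ w => w) hz hG hD s hA'' hB''
      (fn_UL (left_dvd A' B')) (fn_UL (right_dvd A' B')) UL.var).congr fun t w _ _ => ?_
    rw [fn_ev, fn_ev]
  · intro A' B' hA' hB'
    have hA'' : Odd (fn A').length := by rw [fn_length, hA']; exact hA
    have hB'' : Odd (fn B').length := by rw [fn_length, hB']; exact hb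
    have k1 : LR (A' ++ B').prod (fun t w => ∏ j ∈ s, (om w - om (x j))) :=
      LR.prod s (fun j t w => om w - om (x j)) fun j _ => UL.var.om.sub (LR.const _)
    have k2 := reg_zs (P := (A' ++ B').prod) hz [] (by simp) hA'' hB''
      (fn_UL (left_dvd A' B')) (fn_UL (right_dvd A' B'))
    refine (k1.mul k2).congr fun t w _ _ => ?_
    rw [fn_ev, fn_ev, List.append_nil]
  · exact mul_ne_zero hw0' (zs_on_ne _ _ (hA.add_odd hb))
  · intro A' B' hA' hB' nA' nB' w' hw'
    have h1 := hFQ x hx s A' B' (by rw [hA']; exact hA) (by rw [hB']; exact hb) nA' nB' w' hw'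
    rw [h A' B' (by rw [hA']; exact hA) hB' nA' nB' w' hw', zero_mul] at h1
    exact h1.symm

/-- values of `FQ` at `w = q y` -/
theorem dens_FQ_node (hz : S_regz) (hG : S_regG) (hD : S_regD) (hDEN : S_DEN) (hFQ : S_FQ)
    (hx : Gen x) (s : Finset ι) (b : ℕ) (hb : Odd b) (w : ℂ) (hw : w ≠ 0)
    (hw' : (∏ j ∈ s, (om w - om (x j))) ≠ 0)
    (h : ∀ A B, Odd A.length → B.length = b → NZ A → NZ B → FP x (gF x) s A B w = 0) :
    ∀ A B, Odd A.length → B.length = b → NZ A → NZ B → FQ x s A B w = 0 := by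
  classical
  intro A B hA hB nA nB
  refine hDEN A.length b (fun A B _ => FQ x s A B w) (fun A B _ => zs (A ++ B))
    ?_ ?_ ⟨on A.length, on b, 1, on_length _, on_length _, NZ_on _, NZ_on _, one_ne_zero, ?_⟩ ?_
    A B rfl hB nA nB 1 one_ne_zero
  · intro A' B' hA' hB'
    have hA'' : Odd (fn A').length := by rw [fn_length, hA']; exact hA
    have hB'' : Odd (fn B').length := by rw [fn_length, hB']; exact hb
    refine (reg_FQ (x := x) (P := (A' ++ B').prod) (f := fun _ _ => w) hz hG hD s hA'' hB''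
      (fn_UL (left_dvd A' B')) (fn_UL (right_dvd A' B')) (UL.const w)).congr fun t w _ _ => ?_
    rw [fn_ev, fn_ev]
  · intro A' B' hA' hB'
    have hA'' : Odd (fn A').length := by rw [fn_length, hA']; exact hA
    have hB'' : Odd (fn B').length := by rw [fn_length, hB']; exact hb
    have k2 := reg_zs (P := (A' ++ B').prod) hz [] (by simp) hA'' hB''
      (fn_UL (left_dvd A' B')) (fn_UL (right_dvd A' B'))
    refine k2.congr fun t w _ _ => ?_
    rw [fn_ev, fn_ev, List.append_nil]
  · exact zs_on_ne _ _ (hA.add_odd hb)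
  · intro A' B' hA' hB' nA' nB' w' hw''
    have h1 := hFQ x hx s A' B' (by rw [hA']; exact hA) (by rw [hB']; exact hb) nA' nB' w hw
    rw [h A' B' (by rw [hA']; exact hA) hB' nA' nB', zero_mul, mul_assoc] at h1
    exact (mul_eq_zero.mp h1.symm).resolve_left hw'

/-- zeros of `FP` at `w = q ζ`, `ζ ∈ B` -/
theorem dens_FP_zero (hz : S_regz) (hG : S_regG) (hDEN : S_DEN) (hFQ : S_FQ)
    (hx : Gen x) (s : Finset ι) (b : ℕ) (hb : Even b)
    (h : ∀ (A B : List ℂ) (ζ : ℂ), Odd A.length → B.length = b → NZ A → NZ B → ζ ≠ 0 →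
      FQ x s A (ζ :: B) (q * ζ) = 0) :
    ∀ (A B : List ℂ) (ζ : ℂ), Odd A.length → B.length = b → NZ A → NZ B → ζ ≠ 0 →
      FP x (gF x) s A (ζ :: B) (q * ζ) = 0 := by
  classical
  intro A B ζ hA hB nA nB hζ
  have hu : ∀ P : ℂ[X], UL P (fun _ w => q * w) := fun P => (UL.const q).mul UL.var
  refine hDEN A.length b (fun A B ζ => FP x (gF x) s A (ζ :: B) (q * ζ))
    (fun A B ζ => tF x ∅ A (ζ :: B) (q * ζ))
    ?_ ?_ ⟨on A.length, on b, 2, on_length _, on_length _, NZ_on _, NZ_on _, two_ne_zero, ?_⟩ ?_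
    A B rfl hB nA nB ζ hζ
  · intro A' B' hA' hB'
    have hA'' : Odd (fn A').length := by rw [fn_length, hA']; exact hA
    have hB'' : Odd ((fun (_ : ℂ) (w : ℂ) => w) :: fn B').length := by
      rw [List.length_cons, fn_length, hB']; exact hb.add_one
    refine (reg_FP (x := x) (P := (A' ++ B').prod) (f := fun _ w => q * w) hz hG s hA'' hB''
      (fn_UL (left_dvd A' B')) (cons_UL UL.var (fn_UL (right_dvd A' B'))) (hu _)).congr
      fun t w _ _ => ?_
    rw [List.map_cons, fn_ev, fn_ev]
  · intro A' B' hA' hB'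
    have hA'' : Odd (fn A').length := by rw [fn_length, hA']; exact hA
    have hB'' : Odd ((fun (_ : ℂ) (w : ℂ) => w) :: fn B').length := by
      rw [List.length_cons, fn_length, hB']; exact hb.add_one
    refine (reg_tF (x := x) (P := (A' ++ B').prod) (f := fun _ w => q * w) hz ∅ hA'' hB''
      (fn_UL (left_dvd A' B')) (cons_UL UL.var (fn_UL (right_dvd A' B'))) (hu _)).congr
      fun t w _ _ => ?_
    rw [List.map_cons, fn_ev, fn_ev]
  · exact tF_ne _ _ hA hb
  · intro A' B' hA' hB' nA' nB' ζ' hζ'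
    have hoA : Odd A'.length := by rw [hA']; exact hA
    have hoB : Odd (ζ' :: B').length := by rw [List.length_cons, hB']; exact hb.add_one
    have nB'' : NZ (ζ' :: B') := by
      intro z hz'
      rcases List.mem_cons.mp hz' with rfl | hz'
      · exact hζ'
      · exact nB' z hz'
    have h1 := hFQ x hx s A' (ζ' :: B') hoA hoB nA' nB'' (q * ζ') (mul_ne_zero q_ne_zero hζ')
    rw [h A' B' ζ' hoA hB' nA' nB' hζ', mul_zero] at h1
    rw [mul_comm]
    exact h1

theorem prod_qy_ne (hx : Gen x) (s : Finset ι) (i : ι) (_hi : i ∈ s) (y : ℂ) (hy : y ≠ 0)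
    (hom : om (x i) = om y) : (∏ j ∈ s, (om (q * y) - om (x j))) ≠ 0 := by
  classical
  refine Finset.prod_ne_zero_iff.mpr fun j hj => sub_ne_zero.mpr ?_
  by_cases hij : i = j
  · subst hij
    exact hx.om_ne_self y hy hom
  · exact hx.om_ne hij y q Step.q6 q_ne_zero hy hom

theorem prod_ne (hx : Gen x) (s : Finset ι) (i : ι) [DecidableEq ι] :
    (∏ j ∈ s.erase i, (om (x i) - om (x j))) ≠ 0 := by
  refine Finset.prod_ne_zero_iff.mpr fun j hj => sub_ne_zero.mpr ?_
  have hij : i ≠ j := (Finset.ne_of_mem_erase hj).symm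
  have h := hx.om_ne hij (x i) 1 (one_pow 6) one_ne_zero (hx.1 i).1 rfl
  rw [one_mul] at h
  exact h

end M8

open M8 in
/-- **Task M8.** -/
theorem t_M : S_II → S_MFg → S_FQ → S_BN → S_DEN → S_FPnode → S_regz → S_regG → S_regD →
    S_M := by
  classical
  intro hII hMF hFQ hBN hDEN hnode hz hG hD ι x hx s A B hA hB nA nB w hw
  have key : ∀ n : ℕ, ∀ (s : Finset ι) (A B : List ℂ), Odd A.length → B.length = 2 * n + 1 →
      NZ A → NZ B → ∀ w, w ≠ 0 → FP x (gF x) s A B w = 0 := by
    intro n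
    induction n with
    | zero =>
      intro s
      induction hs : s.card using Nat.strong_induction_on generalizing s with
      | _ c ih =>
        refine hII x hx 1 odd_one (gF x) mm (-q^2) (-q) (hMF x hx 1 odd_one) s ?_ (Or.inl rfl)
        intro i hi A B hA hB nA nB w hw
        refine ih (s.erase i).card ?_ (s.erase i) rfl A B hA hB nA nB w hw
        rw [← hs]
        exact Finset.card_erase_lt_of_mem hi
    | succ n ihn =>
      have hb0 : Odd (2 * n + 1) := ⟨n, rfl⟩
      have hb : Odd (2 * (n + 1) + 1) := ⟨n + 1, rfl⟩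
      have hQ : ∀ s : Finset ι, ∀ A B, Odd A.length → B.length = 2 * n + 1 → NZ A → NZ B →
          ∀ w, w ≠ 0 → FQ x s A B w = 0 := fun s =>
        dens_FQ hz hG hD hDEN hFQ hx s (2 * n + 1) hb0 (ihn s)
      intro s
      induction hs : s.card using Nat.strong_induction_on generalizing s with
      | _ c ih =>
        have ihs : ∀ i ∈ s, ∀ A B, Odd A.length → B.length = 2 * (n + 1) + 1 → NZ A → NZ B →
            ∀ w, w ≠ 0 → FP x (gF x) (s.erase i) A B w = 0 := by
          intro i hi A B hA hB nA nB w hw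
          refine ih (s.erase i).card ?_ (s.erase i) rfl A B hA hB nA nB w hw
          rw [← hs]
          exact Finset.card_erase_lt_of_mem hi
        refine hII x hx (2 * (n + 1) + 1) hb (gF x) mm (-q^2) (-q)
          (hMF x hx _ hb) s ihs (Or.inr ?_)
        have hFQ0 : ∀ i ∈ s, ∀ y, y ≠ 0 → om (x i) = om y → ∀ A B, Odd A.length →
            B.length = 2 * (n + 1) + 1 → NZ A → NZ B → FQ x s A B (q * y) = 0 := by
          intro i hi y hy hom
          refine dens_FQ_node hz hG hD hDEN hFQ hx s _ hb (q * y) (mul_ne_zero q_ne_zero hy)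
            (prod_qy_ne hx s i hi y hy hom) ?_
          intro A B hA hB nA nB
          have h1 := hnode x hx _ hb (gF x) mm (-q^2) (-q) (hMF x hx _ hb) s i y hi hy hom
            A B hA hB nA nB
          rw [ihs i hi A B hA hB nA nB y⁻¹ (inv_ne_zero hy), mul_zero] at h1
          exact (mul_eq_zero.mp h1).resolve_right (prod_ne hx s i)
        have hBN' := hBN x hx (2 * (n + 1) + 1) hb (by omega) s
          (fun A B hA hB => hQ s A B hA (by omega)) hFQ0
        intro A B v hA hB nA nB hv
        refine dens_FP_zero hz hG hDEN hFQ hx s (2 * (n + 1)) (even_two_mul _) ?_ A B v hA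
          (by omega) nA nB hv
        intro A B ζ hA hB nA nB hζ
        exact hBN' A B ζ hA (by omega) nA nB hζ
  obtain ⟨n, hn⟩ := hB
  exact key n s A B hA hn nA nB w hw

end Pool.Agent.NH38.Fork
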