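import Pool.Agent.NH38.Fork.H6

/-!
Thick slits (helper38), task N2: the closed form `S_KC` of `P_a P*_a` (helper71).
-/

namespace Pool.Agent.NH38.Fork

open Polynomial

namespace KC2

/-- `∏_{i<j} (a - i)(a + 1 + i)` -/
noncomputable def E (a : ℚ) (j : ℕ) : ℚ := ∏ i ∈ Finset.range j, ((a - i) * (a + 1 + i))

/-- `∏_{i<j} (i + 1/2)/((i + 2/3)(i + 4/3)(i + 1))` -/
noncomputable def Cc (j : ℕ) : ℚ :=
  ∏ i ∈ Finset.range j, (((i:ℚ) + 1/2) / ((i + 2/3) * (i + 4/3) * (i + 1)))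

noncomputable def U (n : ℚ) (j : ℕ) : ℚ :=
  1 / (n + 2) * ∏ i ∈ Finset.range j, ((n + 2 - i) * (n + 2 + i))

lemma kj_eq (a j : ℕ) : kj a j = kap a * E a j * Cc j := by
  unfold kj E Cc
  rw [mul_assoc, ← Finset.prod_mul_distrib]
  congr 1
  refine Finset.prod_congr rfl fun i _ => ?_
  rw [mul_div_assoc]

lemma E_succ (a : ℚ) (j : ℕ) : E a (j+1) = E a j * ((a - j) * (a + 1 + j)) := by
  unfold E; rw [Finset.prod_range_succ]

lemma U_succ (a : ℚ) (j : ℕ) : U a (j+1) = U a j * ((a + 2 - j) * (a + 2 + j)) := by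
  unfold U; rw [Finset.prod_range_succ]; ring

lemma Cc_succ (j : ℕ) : Cc (j+1) = Cc j * (((j:ℚ) + 1/2) / ((j + 2/3) * (j + 4/3) * (j + 1))) := by
  unfold Cc; rw [Finset.prod_range_succ]

lemma kap_succ (a : ℕ) : kap (a+1) = kap a * (((a:ℚ) + 4/3) / (a + 2/3)) := by
  unfold kap; rw [Finset.prod_range_succ]

lemma kap_pos (a : ℕ) : 0 < kap a := by
  unfold kap
  exact Finset.prod_pos fun i _ => by positivity

lemma units (n : ℚ) (hn : 0 ≤ n) (m : ℕ) :
    E (n+3) (m+1) = U n m * ((n+m+2) * (n+m+3) * (n+m+4)) ∧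
    E (n+2) (m+1) = U n m * ((n+m+2) * (n+m+3) * (n+2-m)) ∧
    E (n+2) m = U n m * (n+m+2) ∧
    E (n+1) (m+1) = U n m * ((n+m+2) * (n+2-m) * (n+1-m)) ∧
    E (n+1) m = U n m * (n+2-m) ∧
    E n (m+1) = U n m * ((n+2-m) * (n+1-m) * (n-m)) := by
  induction m with
  | zero =>
    have h2 : n + 2 ≠ 0 := by positivity
    have hU : U n 0 = 1 / (n+2) := by simp [U]
    have hE : ∀ a : ℚ, E a 0 = 1 := fun a => by simp [E]
    have hE1 : ∀ a : ℚ, E a (0+1) = a * (a + 1) := fun a => by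
      rw [E_succ, hE]; push_cast; ring
    rw [hE1, hE1, hE1, hE1, hE, hE, hU]
    refine ⟨?_, ?_, ?_, ?_, ?_, ?_⟩ <;> push_cast <;> field_simp <;> ring
  | succ m ih =>
    obtain ⟨i1, i2, i3, i4, i5, i6⟩ := ih
    rw [U_succ]
    refine ⟨?_, ?_, ?_, ?_, ?_, ?_⟩
    · rw [E_succ, i1]; push_cast; ring
    · rw [E_succ, i2]; push_cast; ring
    · rw [E_succ, i3]; push_cast; ring
    · rw [E_succ, i4]; push_cast; ring
    · rw [E_succ, i5]; push_cast; ring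
    · rw [E_succ, i6]; push_cast; ring

/-- the recursion of the coefficients, `j ≥ 1` -/
lemma kj_rec (n m : ℕ) (a0 b0 a1 b1 : ℚ) (ha0 : a0 = (6*n+9)/(3*n+5)) (hb0 : b0 = (3*n+4)/(3*n+5))
    (ha1 : a1 = (6*n+15)/(3*n+8)) (hb1 : b1 = (3*n+7)/(3*n+8)) :
    kj (n+3) (m+1) = (a1^2 - a1*b1/a0) * kj (n+2) (m+1) + a1^2 * kj (n+2) m +
      (b1^2 - a1*b1*a0) * kj (n+1) (m+1) - a1*b1*a0 * kj (n+1) m +
      (a1*b1*b0^2/a0) * kj n (m+1) := by
  obtain ⟨i1, i2, i3, i4, i5, i6⟩ := units (n:ℚ) (by positivity) m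
  simp only [kj_eq]
  push_cast
  rw [i1, i2, i3, i4, i5, i6, Cc_succ, kap_succ (n+2), kap_succ (n+1), kap_succ n]
  push_cast
  rw [ha0, hb0, ha1, hb1]
  generalize kap n = K
  generalize U (n:ℚ) m = V
  generalize Cc m = W
  have hn : (0:ℚ) ≤ n := by positivity
  have hm : (0:ℚ) ≤ m := by positivity
  generalize (n:ℚ) = x at *
  generalize (m:ℚ) = t at *
  field_simp
  ring

lemma kj_rec0 (n : ℕ) (a0 b0 a1 b1 : ℚ) (ha0 : a0 = (6*n+9)/(3*n+5)) (hb0 : b0 = (3*n+4)/(3*n+5))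
    (ha1 : a1 = (6*n+15)/(3*n+8)) (hb1 : b1 = (3*n+7)/(3*n+8)) :
    kj (n+3) 0 = (a1^2 - a1*b1/a0) * kj (n+2) 0 +
      (b1^2 - a1*b1*a0) * kj (n+1) 0 + (a1*b1*b0^2/a0) * kj n 0 := by
  simp only [kj_eq, E, Cc, Finset.range_zero, Finset.prod_empty, mul_one]
  rw [kap_succ (n+2), kap_succ (n+1), kap_succ n]
  push_cast
  rw [ha0, hb0, ha1, hb1]
  generalize kap n = K
  have hn : (0:ℚ) ≤ n := by positivity
  generalize (n:ℚ) = x at *
  field_simp
  ring

lemma kj_zero {a j : ℕ} (h : a < j) : kj a j = 0 := by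
  rw [kj_eq]
  have : E a j = 0 := by
    unfold E
    refine Finset.prod_eq_zero (Finset.mem_range.mpr h) ?_
    simp
  rw [this]; ring

/-- the polynomial in `Y` -/
noncomputable def kp (a : ℕ) : ℚ[X] := ∑ j ∈ Finset.range (a+1), monomial j (kj a j)

lemma kp_coeff (a j : ℕ) : (kp a).coeff j = kj a j := by
  unfold kp
  rw [finsetSum_coeff]
  simp only [coeff_monomial]
  rw [Finset.sum_ite_eq']
  split_ifs with h
  · rfl
  · exact (kj_zero (by simpa using h)).symm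

lemma kp_rec (n : ℕ) (a0 b0 a1 b1 : ℚ) (ha0 : a0 = (6*n+9)/(3*n+5)) (hb0 : b0 = (3*n+4)/(3*n+5))
    (ha1 : a1 = (6*n+15)/(3*n+8)) (hb1 : b1 = (3*n+7)/(3*n+8)) :
    kp (n+3) = (C (a1^2 - a1*b1/a0) + C (a1^2) * X) * kp (n+2) +
      (C (b1^2 - a1*b1*a0) - C (a1*b1*a0) * X) * kp (n+1) +
      C (a1*b1*b0^2/a0) * kp n := by
  ext j
  rw [add_mul, sub_mul, mul_assoc (C (a1^2)), mul_assoc (C (a1*b1*a0)), coeff_add, coeff_add,
    coeff_add, coeff_sub,
    coeff_C_mul, coeff_C_mul, coeff_C_mul, coeff_C_mul, coeff_C_mul]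
  cases j with
  | zero =>
    rw [mul_coeff_zero, mul_coeff_zero, coeff_X_zero]
    simp only [kp_coeff]
    linear_combination kj_rec0 n a0 b0 a1 b1 ha0 hb0 ha1 hb1
  | succ m =>
    rw [coeff_X_mul, coeff_X_mul]
    simp only [kp_coeff]
    linear_combination kj_rec n m a0 b0 a1 b1 ha0 hb0 ha1 hb1

/-- products of two solutions of the recursion, normalised -/
lemma prod_rec (f g : ℕ → ℚ) (y : ℚ) (n : ℕ) (a0 b0 a1 b1 : ℚ) (h0 : a0 ≠ 0)
    (f0 : f (n+2) = a0 * y * f (n+1) - b0 * f n) (f1 : f (n+3) = a1 * y * f (n+2) - b1 * f (n+1))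
    (g0 : g (n+2) = a0 * y * g (n+1) - b0 * g n) (g1 : g (n+3) = a1 * y * g (n+2) - b1 * g (n+1)) :
    f (n+3) * g (n+3) = (a1^2 * y^2 - a1*b1/a0) * (f (n+2) * g (n+2)) +
      (b1^2 - a1*b1*a0 * y^2) * (f (n+1) * g (n+1)) + (a1*b1*b0^2/a0) * (f n * g n) := by
  rw [f1, g1, f0, g0]
  field_simp
  ring

lemma kp_eval (a : ℕ) (Y : ℚ) : eval Y (kp a) = ∑ j ∈ Finset.range (a+1), kj a j * Y^j := by
  unfold kp
  rw [eval_finsetSum]
  exact Finset.sum_congr rfl fun j _ => eval_monomial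

lemma kap_zero : kap 0 = 1 := by simp [kap]

lemma step (x : ℚ) (hx : 1 - x ≠ 0) (f : ℕ → ℚ) (n : ℕ)
    (hf : (3 * (n:ℚ) + 5) * f (n+2) = (6 * (n:ℚ) + 9) * (1 + x) * f (n+1) -
      (3 * (n:ℚ) + 4) * (x - 1)^2 * f n) :
    f (n+2) / (1-x)^(n+2) = (6*n+9)/(3*n+5) * ((1+x)/(1-x)) * (f (n+1) / (1-x)^(n+1)) -
      (3*n+4)/(3*n+5) * (f n / (1-x)^n) := by
  have h5 : (3 * (n:ℚ) + 5) ≠ 0 := by positivity
  apply mul_left_cancel₀ h5
  have e1 : (3 * (n:ℚ) + 5) * (f (n+2) / (1-x)^(n+2)) =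
      ((6 * (n:ℚ) + 9) * (1 + x) * f (n+1) - (3 * (n:ℚ) + 4) * (x - 1)^2 * f n) / (1-x)^(n+2) := by
    rw [← hf, mul_div_assoc]
  rw [e1]
  field_simp
  ring

/-- the claim: `P_n(x) P*_n(x) = (1-x)^(2n) kp_n(Y)` -/
lemma claim (x : ℚ) (hx : x ≠ 1) (n : ℕ) :
    eval x (H337CB.P n) / (1-x)^n * (eval x (H337CB.Ps n) / (1-x)^n) =
      eval (4 * x / (1 - x)^2) (kp n) := by
  have hx' : (1 - x) ≠ 0 := sub_ne_zero.mpr (Ne.symm hx)
  have main : ∀ n : ℕ, (eval x (H337CB.P n) / (1-x)^n * (eval x (H337CB.Ps n) / (1-x)^n) =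
        eval (4 * x / (1 - x)^2) (kp n)) ∧
      (eval x (H337CB.P (n+1)) / (1-x)^(n+1) * (eval x (H337CB.Ps (n+1)) / (1-x)^(n+1)) =
        eval (4 * x / (1 - x)^2) (kp (n+1))) ∧
      (eval x (H337CB.P (n+2)) / (1-x)^(n+2) * (eval x (H337CB.Ps (n+2)) / (1-x)^(n+2)) =
        eval (4 * x / (1 - x)^2) (kp (n+2))) := by
    intro n
    induction n with
    | zero =>
      refine ⟨?_, ?_, ?_⟩
      · rw [kp_eval]
        simp [H337CB.P_zero, H337CB.Ps_zero, kj, kap_zero]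
      · rw [kp_eval]
        simp only [zero_add, H337CB.P_one, H337CB.Ps_one, Finset.sum_range_succ,
          Finset.range_zero, Finset.sum_empty, kj, Finset.prod_range_succ, Finset.prod_empty, kap]
        simp only [eval_add, eval_mul, eval_X, eval_one, eval_ofNat]
        push_cast
        field_simp
        ring
      · rw [kp_eval]
        have hP := HV6.P_ev 0 x
        have hQ := HV6.Ps_ev 0 x
        rw [H337CB.P_zero] at hP
        rw [H337CB.Ps_zero] at hQ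
        rw [zero_add, H337CB.P_one] at hP
        rw [zero_add, H337CB.Ps_one] at hQ
        simp only [eval_add, eval_mul, eval_X, eval_one, eval_ofNat, Nat.cast_zero, zero_add,
          mul_zero] at hP hQ
        have hP' : eval x (H337CB.P (0+2)) = (9 * (1+x) * (1 + 2*x) - 4 * (x-1)^2 * 1) / 5 := by
          rw [eq_div_iff (by norm_num)]; rw [zero_add]; linarith
        have hQ' : eval x (H337CB.Ps (0+2)) = (9 * (1+x) * (x + 2) - 4 * (x-1)^2 * 1) / 5 := by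
          rw [eq_div_iff (by norm_num)]; rw [zero_add]; linarith
        rw [hP', hQ']
        simp only [zero_add, Finset.sum_range_succ,
          Finset.range_zero, Finset.sum_empty, kj, Finset.prod_range_succ, Finset.prod_empty, kap]
        push_cast
        field_simp
        ring
    | succ n ih =>
      obtain ⟨i0, i1, i2⟩ := ih
      refine ⟨i1, i2, ?_⟩
      have h5 : (3 * (n:ℚ) + 5) ≠ 0 := by positivity
      have h6 : (6 * (n:ℚ) + 9) ≠ 0 := by positivity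
      set a0 : ℚ := (6*n+9)/(3*n+5) with ha0
      set b0 : ℚ := (3*n+4)/(3*n+5) with hb0
      set a1 : ℚ := (6*n+15)/(3*n+8) with ha1
      set b1 : ℚ := (3*n+7)/(3*n+8) with hb1
      have ha0' : a0 ≠ 0 := div_ne_zero h6 h5
      have c1 : (6 * ((n+1 : ℕ):ℚ) + 9) / (3 * ((n+1 : ℕ):ℚ) + 5) = a1 := by
        rw [ha1]; push_cast; ring
      have c2 : (3 * ((n+1 : ℕ):ℚ) + 4) / (3 * ((n+1 : ℕ):ℚ) + 5) = b1 := by
        rw [hb1]; push_cast; ring
      have s0 := step x hx' (fun n => eval x (H337CB.P n)) n (HV6.P_ev n x)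
      have s1 := step x hx' (fun n => eval x (H337CB.P n)) (n+1) (HV6.P_ev (n+1) x)
      have t0 := step x hx' (fun n => eval x (H337CB.Ps n)) n (HV6.Ps_ev n x)
      have t1 := step x hx' (fun n => eval x (H337CB.Ps n)) (n+1) (HV6.Ps_ev (n+1) x)
      rw [c1, c2] at s1 t1
      have key := prod_rec (fun n => eval x (H337CB.P n) / (1-x)^n)
        (fun n => eval x (H337CB.Ps n) / (1-x)^n) ((1+x)/(1-x)) n a0 b0 a1 b1 ha0' s0 s1 t0 t1
      rw [kp_rec n a0 b0 a1 b1 ha0 hb0 ha1 hb1]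
      simp only [eval_add, eval_sub, eval_mul, eval_C, eval_X]
      rw [← i0, ← i1, ← i2]
      have hy : ((1+x)/(1-x))^2 = 1 + 4 * x / (1 - x)^2 := by
        field_simp
        ring
      rw [hy] at key
      refine key.trans ?_
      ring
  exact (main n).1

end KC2

theorem t_KC : S_KC := by
  intro a
  refine HV6.poly_eq fun x hx => ?_
  have hx' : (1 - x) ≠ 0 := sub_ne_zero.mpr (Ne.symm hx)
  have h := KC2.claim x hx a
  rw [KC2.kp_eval] at h
  have e : eval x (H337CB.P a * H337CB.Ps a) =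
      (1-x)^(a+a) * (eval x (H337CB.P a) / (1-x)^a * (eval x (H337CB.Ps a) / (1-x)^a)) := by
    rw [eval_mul, pow_add]
    field_simp
  rw [e, h, Finset.mul_sum, eval_finsetSum]
  refine Finset.sum_congr rfl fun j hj => ?_
  have hj' : j ≤ a := by simpa [Nat.lt_succ_iff] using hj
  simp only [eval_mul, eval_pow, eval_C, eval_X, eval_sub, eval_one, eval_ofNat]
  have e2 : a + a = (2*a - 2*j) + 2*j := by omega
  rw [e2, pow_add, pow_mul _ 2 j, div_pow]
  field_simp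

end Pool.Agent.NH38.Fork
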