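import Pool.Agent.NH38.Fork.Stubs3

/-!
FK-N3 (project of helper38): bounds for `cj` (`t_CB : S_KC → S_CB`). By helper49.
-/

namespace Pool.Agent.NH38.Fork.N3s

open Polynomial Filter Topology

/-- nonnegative coefficients -/
def NN (f : ℚ[X]) : Prop := ∀ j, 0 ≤ f.coeff j

lemma nn_add {f g : ℚ[X]} (hf : NN f) (hg : NN g) : NN (f + g) := fun j => by
  rw [coeff_add]; exact add_nonneg (hf j) (hg j)

lemma nn_mul {f g : ℚ[X]} (hf : NN f) (hg : NN g) : NN (f * g) := fun j => by
  rw [coeff_mul]; exact Finset.sum_nonneg (fun x _ => mul_nonneg (hf _) (hg _))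

lemma nn_C {c : ℚ} (hc : 0 ≤ c) : NN (C c) := fun j => by
  rw [coeff_C]; split_ifs <;> simp [hc]

lemma nn_X : NN X := fun j => by
  rw [coeff_X]; split_ifs <;> simp

lemma nn_one : NN 1 := by
  have := nn_C (c := 1) (by norm_num)
  simpa using this

lemma nn_w (s n : ℕ) : NN (if Even (n + s) then 1 else 1 + X) := by
  split_ifs
  · exact nn_one
  · exact nn_add nn_one nn_X

/-- the general sequence with parity `s` -/
noncomputable def gs (s : ℕ) (x0 x1 : ℚ[X]) : ℕ → ℚ[X]
  | 0 => x0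
  | 1 => x1
  | n+2 => C (1 / (3*(n:ℚ)+5)) *
      (C (6*(n:ℚ)+9) * (if Even (n + 1 + s) then 1 else 1 + X) * gs s x0 x1 (n+1) -
      C (3*(n:ℚ)+4) * gs s x0 x1 n)

noncomputable def gw (s n : ℕ) : ℚ[X] := if Even (n + s) then 1 else 1 + X

lemma gw_mul (s n : ℕ) : gw s n * gw s (n+1) = 1 + X := by
  unfold gw
  rcases Nat.even_or_odd (n + s) with h | h
  · have h2 : ¬ Even (n + 1 + s) := by
      rw [Nat.not_even_iff_odd, show n + 1 + s = n + s + 1 by ring]; exact h.add_one
    rw [if_pos h, if_neg h2, one_mul]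
  · have h2 : Even (n + 1 + s) := by
      rw [show n + 1 + s = n + s + 1 by ring]; exact h.add_one
    rw [if_neg (Nat.not_even_iff_odd.2 h), if_pos h2, mul_one]

noncomputable def ge (s : ℕ) (x0 x1 : ℚ[X]) (n : ℕ) : ℚ[X] :=
  gs s x0 x1 (n+1) - gw s n * gs s x0 x1 n

lemma gs_succ (s : ℕ) (x0 x1 : ℚ[X]) (n : ℕ) :
    gs s x0 x1 (n+1) = ge s x0 x1 n + gw s n * gs s x0 x1 n := by
  unfold ge; ring

noncomputable def bb (n : ℕ) : ℚ := (3*(n:ℚ)+4) / (3*(n:ℚ)+5)

lemma bb_nonneg (n : ℕ) : 0 ≤ bb n := by unfold bb; positivity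
lemma bb_le (n : ℕ) : bb n ≤ 1 := by
  unfold bb
  rw [div_le_one (by positivity)]
  linarith

lemma ge_succ (s : ℕ) (x0 x1 : ℚ[X]) (n : ℕ) :
    ge s x0 x1 (n+1) = C (bb n) * (gw s (n+1) * ge s x0 x1 n + X * gs s x0 x1 n) := by
  have h3 : (3*(n:ℚ)+5) ≠ 0 := by positivity
  have e1 : (1 / (3*(n:ℚ)+5)) * (6*(n:ℚ)+9) = 1 + bb n := by
    unfold bb; field_simp; ring
  have e2 : (1 / (3*(n:ℚ)+5)) * (3*(n:ℚ)+4) = bb n := by
    unfold bb; field_simp
  have e1' : C (1 / (3*(n:ℚ)+5)) * C (6*(n:ℚ)+9) = 1 + C (bb n) := by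
    rw [← C_mul, e1, C_add, C_1]
  have e2' : C (1 / (3*(n:ℚ)+5)) * C (3*(n:ℚ)+4) = C (bb n) := by
    rw [← C_mul, e2]
  have hr : gs s x0 x1 (n+2) = (1 + C (bb n)) * gw s (n+1) * gs s x0 x1 (n+1) -
      C (bb n) * gs s x0 x1 n := by
    rw [gs]
    change C (1 / (3*(n:ℚ)+5)) *
      (C (6*(n:ℚ)+9) * gw s (n+1) * gs s x0 x1 (n+1) -
      C (3*(n:ℚ)+4) * gs s x0 x1 n) = _
    linear_combination (gw s (n+1) * gs s x0 x1 (n+1)) * e1' - (gs s x0 x1 n) * e2'
  have hw := gw_mul s n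
  unfold ge
  rw [show n + 1 + 1 = n + 2 by ring, hr]
  linear_combination (C (bb n) * gs s x0 x1 n) * hw

lemma gs_nn (s : ℕ) (x0 x1 : ℚ[X]) (h0 : NN x0) (h1 : NN (x1 - gw s 0 * x0)) (n : ℕ) :
    NN (gs s x0 x1 n) ∧ NN (ge s x0 x1 n) := by
  induction n with
  | zero => exact ⟨h0, h1⟩
  | succ n ih =>
    constructor
    · rw [gs_succ]
      exact nn_add ih.2 (nn_mul (nn_w s n) ih.1)
    · rw [ge_succ]
      exact nn_mul (nn_C (bb_nonneg n)) (nn_add (nn_mul (nn_w s (n+1)) ih.2) (nn_mul nn_X ih.1))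

lemma pv_eq (x0 x1 : ℚ) (n : ℕ) : pv x0 x1 n = gs 0 (C x0) (C x1) n := by
  induction n using Nat.strong_induction_on with
  | _ n ih =>
    match n, ih with
    | 0, _ => rw [pv, gs]
    | 1, _ => rw [pv, gs]
    | n+2, ih =>
      rw [pv, gs, ih (n+1) (by omega), ih n (by omega)]
      have : (if Even n then (1 + X : ℚ[X]) else 1) = (if Even (n+1+0) then 1 else 1 + X) := by
        rcases Nat.even_or_odd n with h | h
        · rw [if_pos h, if_neg]
          rw [Nat.not_even_iff_odd]; exact h.add_one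
        · rw [if_neg (Nat.not_even_iff_odd.2 h), if_pos]
          exact h.add_one
      rw [this]

/-- `δ` -/
noncomputable def dv (n : ℕ) : ℚ[X] := gs 1 0 1 n

lemma vv_nn (n : ℕ) : NN (vv n) := by
  unfold vv
  rw [pv_eq]
  refine (gs_nn 0 _ _ (nn_C (by norm_num)) ?_ n).1
  simp [gw]
  exact fun j => by simp

lemma sv_nn (n : ℕ) : NN (sv n) := by
  unfold sv
  rw [pv_eq]
  refine (gs_nn 0 _ _ (nn_C (by norm_num)) ?_ n).1
  have : (C 3 : ℚ[X]) - gw 0 0 * C 2 = C 1 := by
    simp only [gw]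
    rw [if_pos (by decide), one_mul, ← C_sub]; norm_num
  rw [this]
  exact nn_C (by norm_num)

lemma dv_nn (n : ℕ) : NN (dv n) := by
  refine (gs_nn 1 _ _ (fun j => by simp) ?_ n).1
  rw [mul_zero, sub_zero]
  exact nn_one

lemma sd (n : ℕ) : sv n - 2 * vv n = (if Even n then 1 + X else 1) * dv n := by
  induction n using Nat.strong_induction_on with
  | _ n ih =>
    match n, ih with
    | 0, _ =>
      simp only [sv, vv, dv, pv, gs, mul_zero]
      rw [map_ofNat, C_1]; ring
    | 1, _ =>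
      simp only [sv, vv, dv, pv, gs]
      rw [if_neg (by decide), map_ofNat, C_1]; ring
    | n+2, ih =>
      have h1 := ih (n+1) (by omega)
      have h0 := ih n (by omega)
      have e : sv (n+2) - 2 * vv (n+2) = C (1 / (3*(n:ℚ)+5)) * (C (6*(n:ℚ)+9) *
          (if Even n then 1 + X else 1) * (sv (n+1) - 2 * vv (n+1)) -
          C (3*(n:ℚ)+4) * (sv n - 2 * vv n)) := by
        unfold sv vv
        rw [pv, pv]; ring
      rw [e, h1, h0]
      unfold dv
      rw [gs]
      rcases Nat.even_or_odd n with h | h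
      · have h' : ¬ Even (n+1) := by rw [Nat.not_even_iff_odd]; exact h.add_one
        have h'' : Even (n+2) := by exact h.add (by decide)
        have h3 : Even (n+1+1) := h''
        rw [if_pos h, if_neg h', if_pos h'', if_pos h3]; ring
      · have h0 : ¬ Even n := Nat.not_even_iff_odd.2 h
        have h' : Even (n+1) := h.add_one
        have h'' : ¬ Even (n+2) := by
          rw [Nat.not_even_iff_odd]; exact h.add_even (by decide)
        have h3 : ¬ Even (n+1+1) := h''
        rw [if_neg h0, if_pos h', if_neg h'', if_neg h3]; ring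

/-! evaluation at `Y = 4x/(1-x)²` -/

lemma ev_rel (x : ℚ) (hx : 1 - x ≠ 0) (n : ℕ) :
    (H337CB.P n).eval x + (H337CB.Ps n).eval x =
      (if Even n then (1-x)^n else (1+x) * (1-x)^(n-1)) * (sv n).eval (4*x/(1-x)^2) ∧
    (H337CB.P n).eval x - x * (H337CB.Ps n).eval x =
      (if Even n then (1-x)^n else (1+x) * (1-x)^(n-1)) * (1-x) * (vv n).eval (4*x/(1-x)^2) := by
  have key : ∀ (F : ℕ → ℚ) (x0 x1 : ℚ), F 0 = x0 → F 1 = (1+x) * x1 →
      (∀ n : ℕ, (3*(n:ℚ)+5) * F (n+2) = (6*(n:ℚ)+9) * (1+x) * F (n+1) - (3*(n:ℚ)+4) * (x-1)^2 * F n) →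
      ∀ n, F n = (if Even n then (1-x)^n else (1+x) * (1-x)^(n-1)) * (pv x0 x1 n).eval (4*x/(1-x)^2) := by
    intro F x0 x1 h0 h1 hr n
    induction n using Nat.strong_induction_on with
    | _ n ih =>
      match n, ih with
      | 0, _ => simp [pv, h0]
      | 1, _ => simp [pv, h1]
      | n+2, ih =>
        have i1 := ih (n+1) (by omega)
        have i0 := ih n (by omega)
        have hn : (3*(n:ℚ)+5) ≠ 0 := by positivity
        apply mul_left_cancel₀ hn
        rw [hr, i1, i0, pv]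
        simp only [eval_mul, eval_sub, eval_C]
        rcases Nat.even_or_odd n with h | h
        · have h' : ¬ Even (n+1) := by rw [Nat.not_even_iff_odd]; exact h.add_one
          have h'' : Even (n+2) := by exact h.add (by decide)
          rw [if_pos h, if_neg h', if_pos h'', if_pos h]
          simp only [eval_add, eval_one, eval_X, Nat.add_sub_cancel]
          field_simp
          ring
        · have h0 : ¬ Even n := Nat.not_even_iff_odd.2 h
          have h' : Even (n+1) := h.add_one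
          have h'' : ¬ Even (n+2) := by
            rw [Nat.not_even_iff_odd]; exact h.add_even (by decide)
          rw [if_neg h0, if_pos h', if_neg h'', if_neg h0]
          obtain ⟨m, rfl⟩ := h
          simp only [eval_one, show 2*m+1+2-1 = 2*m+2 by omega, show 2*m+1-1 = 2*m by omega]
          field_simp
          ring
  constructor
  · refine key (fun n => (H337CB.P n).eval x + (H337CB.Ps n).eval x) 2 3 ?_ ?_ ?_ n
    · simp [H337CB.P_zero, H337CB.Ps_zero]; norm_num
    · simp [H337CB.P_one, H337CB.Ps_one]; ring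
    · intro n
      have h1 := congrArg (eval x) (H337CB.P_rec n)
      have h2 := congrArg (eval x) (H337CB.Ps_rec n)
      simp only [eval_mul, eval_add, eval_sub, eval_pow, eval_X, eval_one, eval_natCast,
        eval_ofNat] at h1 h2
      linear_combination h1 + h2
  · have := key (fun n => ((H337CB.P n).eval x - x * (H337CB.Ps n).eval x) / (1-x)) 1 1 ?_ ?_ ?_ n
    · rw [div_eq_iff hx] at this
      rw [this]
      unfold vv; ring
    · simp [H337CB.P_zero, H337CB.Ps_zero]
      exact hx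
    · simp [H337CB.P_one, H337CB.Ps_one]; field_simp; ring
    · intro n
      have h1 := congrArg (eval x) (H337CB.P_rec n)
      have h2 := congrArg (eval x) (H337CB.Ps_rec n)
      simp only [eval_mul, eval_add, eval_sub, eval_pow, eval_X, eval_one, eval_natCast,
        eval_ofNat] at h1 h2
      field_simp
      linear_combination h1 - x * h2

/-! the identity for `K` -/

noncomputable def kp (a : ℕ) : ℚ[X] := ∑ j ∈ Finset.range (a+1), C (kj a j) * X^j

lemma kj_zero (a j : ℕ) (h : a < j) : kj a j = 0 := by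
  unfold kj
  rw [Finset.prod_eq_zero (Finset.mem_range.2 h), mul_zero]
  simp

lemma kp_coeff (a j : ℕ) : (kp a).coeff j = kj a j := by
  unfold kp
  rw [finsetSum_coeff]
  simp only [coeff_C_mul, coeff_X_pow]
  by_cases h : j ∈ Finset.range (a+1)
  · rw [Finset.sum_eq_single_of_mem j h]
    · simp
    · intro b _ hb
      rw [if_neg (Ne.symm hb), mul_zero]
  · rw [Finset.sum_eq_zero, kj_zero a j (by simpa using h)]
    intro b hb
    rw [if_neg, mul_zero]
    rintro rfl
    exact h hb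

lemma kp_eq (hK : S_KC) (a : ℕ) (ha : Odd a) :
    4 * kp a = X * sv a ^ 2 + 4 * (sv a * vv a) - 4 * vv a ^ 2 := by
  have hinf : Set.Infinite {y : ℚ | ∃ x : ℚ, 1 - x ≠ 0 ∧ 1 + x ≠ 0 ∧ y = 4*x/(1-x)^2} := by
    have hinj : Function.Injective (fun n : ℕ => (4*((n:ℚ)+2)/(1-((n:ℚ)+2))^2)) := by
      have hs : StrictAnti (fun n : ℕ => (4*((n:ℚ)+2)/(1-((n:ℚ)+2))^2)) := by
        apply strictAnti_nat_of_succ_lt
        intro n
        have h1 : (0:ℚ) < (1-((n:ℚ)+2))^2 := by
          have : (1-((n:ℚ)+2)) = -((n:ℚ)+1) := by ring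
          rw [this, neg_sq]; positivity
        have h2 : (0:ℚ) < (1-(((n+1:ℕ):ℚ)+2))^2 := by
          have : (1-(((n+1:ℕ):ℚ)+2)) = -((n:ℚ)+2) := by push_cast; ring
          rw [this, neg_sq]; positivity
        rw [div_lt_div_iff₀ h2 h1]
        push_cast
        have hn : (0:ℚ) ≤ n := Nat.cast_nonneg n
        nlinarith [mul_nonneg hn hn, mul_nonneg hn (mul_nonneg hn hn)]
      exact hs.injective
    refine (Set.infinite_range_of_injective hinj).mono ?_
    rintro _ ⟨n, rfl⟩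
    have hn : (0:ℚ) ≤ n := Nat.cast_nonneg n
    refine ⟨(n:ℚ)+2, ?_, ?_, rfl⟩
    · intro h
      linarith
    · positivity
  apply Polynomial.eq_of_infinite_eval_eq
  refine hinf.mono ?_
  rintro y ⟨x, hx, hx1, rfl⟩
  obtain ⟨h1, h2⟩ := ev_rel x hx a
  have h3 := congrArg (eval x) (hK a)
  rw [eval_mul, eval_finsetSum] at h3
  have h4 : ∑ i ∈ Finset.range (a+1), eval x (C (kj a i) * (4 * X)^i * (1 - X)^(2*a - 2*i)) =
      (1-x)^(2*a) * (kp a).eval (4*x/(1-x)^2) := by
    unfold kp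
    rw [eval_finsetSum, Finset.mul_sum]
    apply Finset.sum_congr rfl
    intro i hi
    have hi' : 2 * a = (2*a - 2*i) + 2*i := by
      have := Finset.mem_range.1 hi
      omega
    simp only [eval_mul, eval_C, eval_pow, eval_X, eval_sub, eval_one, eval_ofNat]
    conv_rhs => rw [hi']
    rw [pow_add, div_pow, ← pow_mul]
    field_simp
  rw [h4] at h3
  have hne : ¬ Even a := Nat.not_even_iff_odd.2 ha
  rw [if_neg hne] at h1 h2
  obtain ⟨m, rfl⟩ := ha
  rw [Nat.add_sub_cancel] at h1 h2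
  change eval _ _ = eval _ _
  simp only [eval_mul, eval_add, eval_sub, eval_pow, eval_X, eval_ofNat]
  set S := (sv (2*m+1)).eval (4*x/(1-x)^2)
  set V := (vv (2*m+1)).eval (4*x/(1-x)^2)
  set K := (kp (2*m+1)).eval (4*x/(1-x)^2)
  set p := (H337CB.P (2*m+1)).eval x
  set r := (H337CB.Ps (2*m+1)).eval x
  set u := (1-x)^(2*m) with hu
  have hu0 : u ≠ 0 := pow_ne_zero _ hx
  have hu2 : (1-x)^(2*(2*m+1)) = u^2 * (1-x)^2 := by rw [hu]; ring
  rw [hu2] at h3
  have hr : r = u * (S - (1-x) * V) := by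
    apply mul_left_cancel₀ hx1
    linear_combination h1 - h2
  have hp : p = u * (x * S + (1-x) * V) := by
    linear_combination h1 - hr
  rw [hp, hr] at h3
  have : K * (1-x)^2 = (x * S + (1-x) * V) * (S - (1-x) * V) := by
    apply mul_left_cancel₀ (pow_ne_zero 2 hu0)
    linear_combination -h3
  field_simp
  linear_combination this

lemma kc1 (hK : S_KC) (a : ℕ) (ha : Odd a) :
    2 * kp a = (1 + X) * (vv a * sv a) + C (1/2) * (dv a * (X * sv a + 2 * vv a)) := by
  have h := kp_eq hK a ha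
  have hd := sd a
  rw [if_neg (Nat.not_even_iff_odd.2 ha), one_mul] at hd
  have h2 : (2 : ℚ[X]) * C (1/2) = 1 := by
    rw [show (2 : ℚ[X]) = C 2 from (map_ofNat C 2).symm, ← C_mul]
    norm_num
  apply mul_left_cancel₀ (two_ne_zero (α := ℚ[X]))
  rw [← hd]
  linear_combination h - (sv a - 2 * vv a) * (X * sv a + 2 * vv a) * h2

lemma kc2 (hK : S_KC) (a : ℕ) (ha : Odd a) :
    (1 + X) * (vv a * sv a) - kp a = (1 + X) * vv a ^ 2 - C (1/4) * X * dv a ^ 2 := by
  have h := kp_eq hK a ha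
  have hd := sd a
  rw [if_neg (Nat.not_even_iff_odd.2 ha), one_mul] at hd
  have h2 : (4 : ℚ[X]) * C (1/4) = 1 := by
    rw [show (4 : ℚ[X]) = C 4 from (map_ofNat C 4).symm, ← C_mul]
    norm_num
  have h4 : (4 : ℚ[X]) ≠ 0 := by norm_num
  apply mul_left_cancel₀ h4
  rw [← hd]
  linear_combination (-h) + (X * (sv a - 2 * vv a)^2) * h2

lemma one_coeff (f : ℚ[X]) (hf : NN f) (j : ℕ) : f.coeff j ≤ ((1 + X) * f).coeff j := by
  rw [add_mul, one_mul, coeff_add]
  exact le_add_of_nonneg_right (nn_mul nn_X hf j)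

end Pool.Agent.NH38.Fork.N3s

namespace Pool.Agent.NH38.Fork

open Polynomial N3s

theorem t_CB : S_KC → S_CB := by
  intro hK a j ha
  have hvs : NN (vv a * sv a) := nn_mul (vv_nn a) (sv_nn a)
  refine ⟨hvs j, ?_⟩
  have h : coeff (2 * kp a) j =
      coeff ((1 + X) * (vv a * sv a) + C (1/2) * (dv a * (X * sv a + 2 * vv a))) j := by
    rw [kc1 hK a ha]
  rw [show (2 : ℚ[X]) * kp a = C 2 * kp a by rw [map_ofNat], coeff_C_mul, kp_coeff, coeff_add] at h
  rw [h]
  have h1 := one_coeff _ hvs j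
  have h2 : 0 ≤ (C (1/2) * (dv a * (X * sv a + 2 * vv a))).coeff j := by
    refine nn_mul (nn_C (by norm_num)) (nn_mul (dv_nn a) (nn_add (nn_mul nn_X (sv_nn a)) ?_)) j
    rw [show (2 : ℚ[X]) = C 2 from (map_ofNat C 2).symm]
    exact nn_mul (nn_C (by norm_num)) (vv_nn a)
  unfold cj
  linarith

end Pool.Agent.NH38.Fork
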