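import Pool.Agent.NH38.Fork.N3

/-!
FK-N4 (project of helper38): asymptotics of `cj` for fixed `j` (`t_CA : S_KC → S_CA`). By helper49.
-/

namespace Pool.Agent.NH38.Fork.N4s

open Polynomial Filter Topology N3s

/-! bounds by evaluation -/

lemma coeff_le_eval (f : ℚ[X]) (hf : NN f) (x : ℚ) (hx : 0 ≤ x) (j : ℕ) :
    f.coeff j * x^j ≤ f.eval x := by
  by_cases hj : j ∈ Finset.range (f.natDegree + 1)
  · rw [eval_eq_sum_range]
    exact Finset.single_le_sum (f := fun i => f.coeff i * x^i)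
      (fun i _ => mul_nonneg (hf i) (pow_nonneg hx i)) hj
  · rw [coeff_eq_zero_of_natDegree_lt (by simpa using hj), zero_mul, eval_eq_sum_range]
    exact Finset.sum_nonneg (fun i _ => mul_nonneg (hf i) (pow_nonneg hx i))

lemma eval_nonneg (f : ℚ[X]) (hf : NN f) (x : ℚ) (hx : 0 ≤ x) : 0 ≤ f.eval x := by
  rw [eval_eq_sum_range]
  exact Finset.sum_nonneg (fun i _ => mul_nonneg (hf i) (pow_nonneg hx i))

lemma gw_le (s n : ℕ) (x : ℚ) (hx : 0 ≤ x) :
    0 ≤ (gw s n).eval x ∧ (gw s n).eval x ≤ 1 + x := by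
  unfold gw
  split_ifs
  · simp [hx]
  · simp; linarith

lemma gs_bound (s : ℕ) (x0 x1 : ℚ[X]) (h0 : NN x0) (h1 : NN (x1 - gw s 0 * x0)) (h c : ℚ)
    (hh : 0 ≤ h) (hh1 : h ≤ 1/2) (hc : 0 ≤ c) (hc0 : x0.eval (h^2) ≤ c)
    (hc1 : (x1 - gw s 0 * x0).eval (h^2) ≤ h * c) (n : ℕ) :
    (gs s x0 x1 n).eval (h^2) ≤ c * (1 + 4*h)^n ∧
    (ge s x0 x1 n).eval (h^2) ≤ h * c * (1 + 4*h)^n := by
  induction n with
  | zero =>
    rw [pow_zero, mul_one, mul_one]
    exact ⟨hc0, hc1⟩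
  | succ n ih =>
    have hx : 0 ≤ h^2 := sq_nonneg h
    obtain ⟨i1, i2⟩ := ih
    obtain ⟨p1, p2⟩ := gs_nn s x0 x1 h0 h1 n
    have q1 := eval_nonneg _ p1 _ hx
    have q2 := eval_nonneg _ p2 _ hx
    obtain ⟨w1, w2⟩ := gw_le s n (h^2) hx
    obtain ⟨w3, w4⟩ := gw_le s (n+1) (h^2) hx
    have hL : 0 ≤ (1 + 4*h)^n := by positivity
    have hcL : 0 ≤ c * (1 + 4*h)^n := mul_nonneg hc hL
    have hhc : 0 ≤ h * (c * (1 + 4*h)^n) := mul_nonneg hh hcL
    constructor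
    · rw [gs_succ, eval_add, eval_mul, pow_succ (1 + 4*h) n]
      have e1 : (gw s n).eval (h^2) * (gs s x0 x1 n).eval (h^2) ≤
          (1 + h^2) * (c * (1 + 4*h)^n) := mul_le_mul w2 i1 q1 (by positivity)
      have e2 : 0 ≤ (1 - 2*h) * (h * (c * (1 + 4*h)^n)) := mul_nonneg (by linarith) hhc
      nlinarith
    · rw [ge_succ, eval_mul, eval_add, eval_mul, eval_mul, eval_C, eval_X, pow_succ (1 + 4*h) n]
      have e1 : (gw s (n+1)).eval (h^2) * (ge s x0 x1 n).eval (h^2) ≤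
          (1 + h^2) * (h * c * (1 + 4*h)^n) := mul_le_mul w4 i2 q2 (by positivity)
      have e3 : h^2 * (gs s x0 x1 n).eval (h^2) ≤ h^2 * (c * (1 + 4*h)^n) :=
        mul_le_mul_of_nonneg_left i1 hx
      have e4 : 0 ≤ (gw s (n+1)).eval (h^2) * (ge s x0 x1 n).eval (h^2) +
          h^2 * (gs s x0 x1 n).eval (h^2) :=
        add_nonneg (mul_nonneg w3 q2) (mul_nonneg hx q1)
      have e5 : bb n * ((gw s (n+1)).eval (h^2) * (ge s x0 x1 n).eval (h^2) +
          h^2 * (gs s x0 x1 n).eval (h^2)) ≤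
          1 * ((gw s (n+1)).eval (h^2) * (ge s x0 x1 n).eval (h^2) +
          h^2 * (gs s x0 x1 n).eval (h^2)) := mul_le_mul_of_nonneg_right (bb_le n) e4
      have e6 : 0 ≤ (3 - h) * (h * (h * (c * (1 + 4*h)^n))) :=
        mul_nonneg (by linarith) (mul_nonneg hh hhc)
      nlinarith

lemma pow_bound (a : ℕ) (ha : 0 < a) : (1 + 4 * (1/(a:ℚ)))^a ≤ 81 := by
  have h : ((1 + 4 * (1/(a:ℝ)))^a : ℝ) ≤ 81 := by
    have h1 : (1 + 4 * (1/(a:ℝ))) ≤ Real.exp (4 * (1/(a:ℝ))) := by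
      have := Real.add_one_le_exp (4 * (1/(a:ℝ)))
      linarith
    have h0 : (0:ℝ) ≤ 1 + 4 * (1/(a:ℝ)) := by positivity
    have h2 := pow_le_pow_left₀ h0 h1 a
    refine h2.trans ?_
    rw [← Real.exp_nat_mul]
    have ha' : (a:ℝ) ≠ 0 := by positivity
    have h3 : (a:ℝ) * (4 * (1/(a:ℝ))) = ((4:ℕ):ℝ) * 1 := by push_cast; field_simp
    rw [h3, Real.exp_nat_mul]
    have h4 : Real.exp 1 ≤ 3 := by
      have := Real.exp_one_lt_d9
      linarith
    have h5 := pow_le_pow_left₀ (Real.exp_pos 1).le h4 4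
    refine h5.trans (by norm_num)
  have h2 : (((1 + 4 * (1/(a:ℚ)))^a : ℚ) : ℝ) ≤ ((81 : ℚ) : ℝ) := by
    push_cast
    exact h
  exact_mod_cast h2

lemma vv_bound (a : ℕ) (ha : 2 ≤ a) : (vv a).eval ((1/(a:ℚ))^2) ≤ 81 := by
  have ha0 : (2:ℚ) ≤ a := by exact_mod_cast ha
  have h := gs_bound 0 (C 1) (C 1) (nn_C (by norm_num)) (by
    simp [gw]
    exact fun j => by simp) (1/(a:ℚ)) 1 (by positivity)
    (one_div_le_one_div_of_le (by norm_num) ha0) (by norm_num) (by simp) (by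
      simp [gw]) a
  unfold vv
  rw [pv_eq]
  refine h.1.trans ?_
  rw [one_mul]
  exact pow_bound a (by omega)

lemma dv_bound (a : ℕ) (ha : 2 ≤ a) : (dv a).eval ((1/(a:ℚ))^2) ≤ 81 * a := by
  have ha0 : (2:ℚ) ≤ a := by exact_mod_cast ha
  have ha1 : (0:ℚ) < a := by linarith
  have h := gs_bound 1 0 1 (fun j => by simp) (by
    rw [mul_zero, sub_zero]
    exact nn_one) (1/(a:ℚ)) a (by positivity)
    (one_div_le_one_div_of_le (by norm_num) ha0) ha1.le (by simp) (by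
      rw [mul_zero, sub_zero, eval_one]
      field_simp
      exact le_refl _) a
  unfold dv
  refine h.1.trans ?_
  rw [mul_comm]
  exact mul_le_mul_of_nonneg_right (pow_bound a (by omega)) ha1.le

/-- the difference -/
lemma w_bound (hK : S_KC) (a j : ℕ) (ha : Odd a) (ha2 : 2 ≤ a) :
    |((1 + X) * (vv a * sv a)).coeff j - kj a j| ≤ 3 * 81^2 * (a:ℚ)^(2*j) := by
  have ha0 : (2:ℚ) ≤ a := by exact_mod_cast ha2
  have ha1 : (0:ℚ) < a := by linarith
  have hx : (0:ℚ) ≤ (1/(a:ℚ))^2 := by positivity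
  have hx1 : (1/(a:ℚ))^2 ≤ 1 := by
    have : 1/(a:ℚ) ≤ 1 := by rw [div_le_one ha1]; linarith
    exact pow_le_one₀ (by positivity) this
  have e : coeff ((1 + X) * (vv a * sv a) - kp a) j =
      coeff ((1 + X) * vv a ^ 2 - C (1/4) * X * dv a ^ 2) j := by rw [kc2 hK a ha]
  rw [coeff_sub, coeff_sub, kp_coeff] at e
  rw [e]
  have n1 : NN ((1 + X) * vv a ^ 2) := by
    rw [pow_two]
    exact nn_mul (nn_add nn_one nn_X) (nn_mul (vv_nn a) (vv_nn a))
  have n2 : NN (C (1/4) * X * dv a ^ 2) := by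
    rw [pow_two]
    exact nn_mul (nn_mul (nn_C (by norm_num)) nn_X) (nn_mul (dv_nn a) (dv_nn a))
  have c1 := coeff_le_eval _ n1 _ hx j
  have c2 := coeff_le_eval _ n2 _ hx j
  have v0 := eval_nonneg _ (vv_nn a) _ hx
  have d0 := eval_nonneg _ (dv_nn a) _ hx
  have v1 := pow_le_pow_left₀ v0 (vv_bound a ha2) 2
  have d1 := pow_le_pow_left₀ d0 (dv_bound a ha2) 2
  have b1 : eval ((1/(a:ℚ))^2) ((1 + X) * vv a ^ 2) ≤ 2 * 81^2 := by
    rw [eval_mul, eval_add, eval_one, eval_X, eval_pow]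
    exact mul_le_mul (by linarith) v1 (by positivity) (by norm_num)
  have b2 : eval ((1/(a:ℚ))^2) (C (1/4) * X * dv a ^ 2) ≤ 81^2 := by
    rw [eval_mul, eval_mul, eval_C, eval_X, eval_pow]
    have : 1/4 * (1/(a:ℚ))^2 * (eval ((1/(a:ℚ))^2) (dv a))^2 ≤ 1/4 * (1/(a:ℚ))^2 * (81 * a)^2 :=
      mul_le_mul_of_nonneg_left d1 (by positivity)
    refine this.trans ?_
    have e2 : 1/4 * (1/(a:ℚ))^2 * (81 * a)^2 = 1/4 * 81^2 := by field_simp
    rw [e2]; norm_num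
  have hp : (0:ℚ) < ((1/(a:ℚ))^2)^j := by positivity
  have e3 : ((1/(a:ℚ))^2)^j * (a:ℚ)^(2*j) = 1 := by
    rw [← pow_mul, ← mul_pow, one_div_mul_cancel ha1.ne', one_pow]
  have hq : (0:ℚ) ≤ (a:ℚ)^(2*j) := by positivity
  have f1 : ((1 + X) * vv a ^ 2).coeff j ≤ 2 * 81^2 * (a:ℚ)^(2*j) := by
    have := mul_le_mul_of_nonneg_right (c1.trans b1) hq
    rwa [mul_assoc, e3, mul_one] at this
  have f2 : (C (1/4) * X * dv a ^ 2).coeff j ≤ 81^2 * (a:ℚ)^(2*j) := by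
    have := mul_le_mul_of_nonneg_right (c2.trans b2) hq
    rwa [mul_assoc, e3, mul_one] at this
  have g1 := n1 j
  have g2 := n2 j
  rw [abs_le]
  constructor
  · nlinarith
  · nlinarith

/-! `kap` tends to infinity -/

lemma kap_pos (a : ℕ) : 0 < kap a := by
  unfold kap
  exact Finset.prod_pos (fun i _ => by positivity)

lemma kap_sq (a : ℕ) : (a:ℚ) + 1 ≤ kap a ^ 2 := by
  induction a with
  | zero => simp [kap]
  | succ n ih =>
    have e : kap (n+1) = kap n * (((n:ℚ) + 4/3) / (n + 2/3)) := by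
      unfold kap
      rw [Finset.prod_range_succ]
    rw [e, mul_pow, div_pow, mul_div_assoc', le_div_iff₀ (by positivity)]
    push_cast
    have h1 := mul_le_mul_of_nonneg_right ih (sq_nonneg ((n:ℚ) + 4/3))
    have hn : (0:ℚ) ≤ n := Nat.cast_nonneg n
    nlinarith [mul_nonneg hn hn]

lemma kap_tendsto : Tendsto (fun a : ℕ => ((kap a : ℚ) : ℝ)) atTop atTop := by
  have h : ∀ a : ℕ, Real.sqrt (a:ℝ) ≤ ((kap a : ℚ) : ℝ) := by
    intro a
    apply Real.sqrt_le_iff.2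
    refine ⟨by exact_mod_cast (kap_pos a).le, ?_⟩
    have := kap_sq a
    have h2 : ((((a:ℚ) + 1 : ℚ)) : ℝ) ≤ ((kap a ^ 2 : ℚ) : ℝ) := by exact_mod_cast this
    push_cast at h2
    linarith
  refine tendsto_atTop_mono h ?_
  exact Real.tendsto_sqrt_atTop.comp tendsto_natCast_atTop_atTop

noncomputable def pr (j a : ℕ) : ℝ := ∏ i ∈ Finset.range j, (((a:ℝ) - i) * (a + 1 + i) * (i + 1/2) /
      ((i + 2/3) * (i + 4/3) * (i + 1)))

lemma pr_succ (j a : ℕ) : pr (j+1) a = pr j a * (((a:ℝ) - j) * (a + 1 + j) * (j + 1/2) /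
      ((j + 2/3) * (j + 4/3) * (j + 1))) := by
  unfold pr
  rw [Finset.prod_range_succ]

lemma kj_pr (j a : ℕ) : ((kj a j : ℚ) : ℝ) = ((kap a : ℚ) : ℝ) * pr j a := by
  unfold kj pr
  push_cast
  rfl

/-- the product divided by the power -/
lemma prod_tendsto (j : ℕ) : ∃ c : ℝ, 0 < c ∧ Tendsto (fun a : ℕ =>
    pr j a / (a:ℝ)^(2*j)) atTop (𝓝 c) := by
  induction j with
  | zero => exact ⟨1, one_pos, by simp [pr]⟩
  | succ j ih =>
    obtain ⟨c, hc, hT⟩ := ih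
    refine ⟨c * (((j:ℝ) + 1/2) / ((j + 2/3) * (j + 4/3) * (j + 1))), by positivity, ?_⟩
    have h1 : Tendsto (fun a : ℕ => (((a:ℝ) - j) * (a + 1 + j)) / (a:ℝ)^2) atTop (𝓝 1) := by
      have t0 : Tendsto (fun a : ℕ => (1:ℝ)/(a:ℝ)) atTop (𝓝 0) := tendsto_one_div_atTop_nhds_zero_nat
      have t1 : Tendsto (fun a : ℕ => (1 - (j:ℝ) * (1/(a:ℝ))) * (1 + (1 + (j:ℝ)) * (1/(a:ℝ)))) atTop
          (𝓝 ((1 - (j:ℝ) * 0) * (1 + (1 + (j:ℝ)) * 0))) :=
        (tendsto_const_nhds.sub (tendsto_const_nhds.mul t0)).mul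
          (tendsto_const_nhds.add (tendsto_const_nhds.mul t0))
      rw [mul_zero, mul_zero, sub_zero, add_zero, mul_one] at t1
      refine t1.congr' ?_
      filter_upwards [eventually_gt_atTop 0] with a ha
      have : (a:ℝ) ≠ 0 := by positivity
      field_simp
      ring
    have h2 := (hT.mul h1).mul_const (((j:ℝ) + 1/2) / ((j + 2/3) * (j + 4/3) * (j + 1)))
    rw [mul_one] at h2
    refine h2.congr' ?_
    filter_upwards [eventually_gt_atTop 0] with a ha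
    have : (a:ℝ) ≠ 0 := by positivity
    rw [pr_succ, show 2 * (j+1) = 2*j + 2 by ring, pow_add]
    field_simp

lemma kj_div_tendsto (j : ℕ) :
    Tendsto (fun a : ℕ => ((kj a j : ℚ) : ℝ) / (a:ℝ)^(2*j)) atTop atTop := by
  obtain ⟨c, hc, hT⟩ := prod_tendsto j
  have := kap_tendsto.atTop_mul_pos hc hT
  refine this.congr ?_
  intro a
  rw [kj_pr, mul_div_assoc]

lemma kj_pos (a j : ℕ) (h : j ≤ a) : 0 < kj a j := by
  unfold kj
  refine mul_pos (kap_pos a) (Finset.prod_pos (fun i hi => ?_))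
  have h1 : (i:ℚ) < a := by
    have := Finset.mem_range.1 hi
    exact_mod_cast (show i < a by omega)
  have : 0 < (a:ℚ) - i := by linarith
  positivity

/-- `k_(j-1) / k_j → 0` -/
lemma kj_ratio (j : ℕ) :
    Tendsto (fun a : ℕ => ((kj a j : ℚ) : ℝ) / ((kj a (j+1) : ℚ) : ℝ)) atTop (𝓝 0) := by
  obtain ⟨c, hc, hT⟩ := prod_tendsto j
  obtain ⟨d, hd, hS⟩ := prod_tendsto (j+1)
  have h2 := (hT.div hS hd.ne')
  have h3 : Tendsto (fun a : ℕ => (1:ℝ)/(a:ℝ)) atTop (𝓝 0) := tendsto_one_div_atTop_nhds_zero_nat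
  have h4 := (h2.mul h3).mul h3
  rw [mul_zero] at h4
  refine h4.congr' ?_
  filter_upwards [eventually_gt_atTop j] with a ha
  have ha0 : (a:ℝ) ≠ 0 := by
    have : 0 < a := by omega
    positivity
  have hk : ((kap a : ℚ) : ℝ) ≠ 0 := by exact_mod_cast (kap_pos a).ne'
  rw [kj_pr, kj_pr, mul_div_mul_left _ _ hk]
  change pr j a / (a:ℝ)^(2*j) / (pr (j+1) a / (a:ℝ)^(2*(j+1))) * (1/(a:ℝ)) * (1/(a:ℝ)) =
    pr j a / pr (j+1) a
  rw [show 2 * (j+1) = 2*j + 2 by ring, pow_add, div_div_div_eq]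
  field_simp

end Pool.Agent.NH38.Fork.N4s

namespace Pool.Agent.NH38.Fork

open Polynomial Filter Topology N3s N4s

theorem t_CA : S_KC → S_CA := by
  intro hK j
  have hodd : Tendsto (fun i : ℕ => 2*i+1) atTop atTop := by
    apply tendsto_atTop_mono (f := fun i => i) (fun i => by omega)
    exact tendsto_id
  -- `(c_j + c_(j-1)) / k_j → 1`
  have key : Tendsto (fun i : ℕ => (((((1 + X) * (vv (2*i+1) * sv (2*i+1))).coeff j -
      kj (2*i+1) j) / kj (2*i+1) j : ℚ) : ℝ)) atTop (𝓝 0) := by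
    have h0 := (kj_div_tendsto j).comp hodd
    have h1 : Tendsto (fun i : ℕ => (3 * 81^2 : ℝ) *
        (((kj (2*i+1) j : ℚ) : ℝ) / (((2*i+1:ℕ)):ℝ)^(2*j))⁻¹) atTop (𝓝 (3 * 81^2 * 0)) :=
      tendsto_const_nhds.mul (tendsto_inv_atTop_zero.comp h0)
    rw [mul_zero] at h1
    refine squeeze_zero_norm' ?_ h1
    filter_upwards [eventually_ge_atTop (j + 1)] with i hi
    have hk : 0 < kj (2*i+1) j := kj_pos _ _ (by omega)
    have hb := w_bound hK (2*i+1) j ⟨i, rfl⟩ (by omega)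
    have hk' : (0:ℝ) < ((kj (2*i+1) j : ℚ) : ℝ) := by exact_mod_cast hk
    rw [Real.norm_eq_abs, inv_div, mul_div_assoc']
    rw [Rat.cast_div, abs_div, abs_of_pos hk']
    apply div_le_div_of_nonneg_right _ hk'.le
    have hb' : ((|((1 + X) * (vv (2*i+1) * sv (2*i+1))).coeff j - kj (2*i+1) j| : ℚ) : ℝ) ≤
        ((3 * 81^2 * ((2*i+1 : ℕ):ℚ)^(2*j) : ℚ) : ℝ) := by exact_mod_cast hb
    rw [Rat.cast_abs] at hb'
    refine hb'.trans (le_of_eq ?_)
    push_cast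
    ring
  match j, key with
  | 0, key =>
    have h1 : Tendsto (fun i : ℕ => (((((1 + X) * (vv (2*i+1) * sv (2*i+1))).coeff 0 -
      kj (2*i+1) 0) / kj (2*i+1) 0 : ℚ) : ℝ) + 1) atTop (𝓝 (0 + 1)) := key.add_const 1
    rw [zero_add] at h1
    refine h1.congr ?_
    intro i
    have hk : (kj (2*i+1) 0 : ℚ) ≠ 0 := (kj_pos _ _ (by omega)).ne'
    have e : ((1 + X) * (vv (2*i+1) * sv (2*i+1))).coeff 0 = cj (2*i+1) 0 := by
      unfold cj
      rw [add_mul, one_mul, coeff_add, coeff_X_mul_zero, add_zero]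
    rw [e]
    have : cj (2*i+1) 0 / kj (2*i+1) 0 = (cj (2*i+1) 0 - kj (2*i+1) 0) / kj (2*i+1) 0 + 1 := by
      field_simp
      ring
    rw [this]
    push_cast
    ring
  | j+1, key =>
    have hz : Tendsto (fun i : ℕ => ((cj (2*i+1) j / kj (2*i+1) (j+1) : ℚ) : ℝ)) atTop (𝓝 0) := by
      have h0 := (kj_ratio j).comp hodd
      have h1 : Tendsto (fun i : ℕ => 2 * (((kj (2*i+1) j : ℚ) : ℝ) /
          ((kj (2*i+1) (j+1) : ℚ) : ℝ))) atTop (𝓝 (2 * 0)) := tendsto_const_nhds.mul h0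
      rw [mul_zero] at h1
      refine squeeze_zero' ?_ ?_ h1
      · filter_upwards [eventually_ge_atTop (j + 1)] with i hi
        have hk : 0 < kj (2*i+1) (j+1) := kj_pos _ _ (by omega)
        have := (t_CB hK (2*i+1) j ⟨i, rfl⟩).1
        exact_mod_cast div_nonneg this hk.le
      · filter_upwards [eventually_ge_atTop (j + 1)] with i hi
        have hk : 0 < kj (2*i+1) (j+1) := kj_pos _ _ (by omega)
        have h2 := (t_CB hK (2*i+1) j ⟨i, rfl⟩).2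
        have h3 : cj (2*i+1) j / kj (2*i+1) (j+1) ≤ 2 * (kj (2*i+1) j / kj (2*i+1) (j+1)) := by
          rw [mul_div_assoc']
          exact div_le_div_of_nonneg_right h2 hk.le
        have h4 : ((cj (2*i+1) j / kj (2*i+1) (j+1) : ℚ) : ℝ) ≤
            ((2 * (kj (2*i+1) j / kj (2*i+1) (j+1)) : ℚ) : ℝ) := by exact_mod_cast h3
        refine h4.trans (le_of_eq ?_)
        push_cast
        ring
    have h1 := (key.add_const 1).sub hz
    rw [zero_add, sub_zero] at h1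
    refine h1.congr' ?_
    filter_upwards [eventually_ge_atTop (j + 1)] with i hi
    have hk : (kj (2*i+1) (j+1) : ℚ) ≠ 0 := (kj_pos _ _ (by omega)).ne'
    have e : ((1 + X) * (vv (2*i+1) * sv (2*i+1))).coeff (j+1) =
        cj (2*i+1) (j+1) + cj (2*i+1) j := by
      unfold cj
      rw [add_mul, one_mul, coeff_add, coeff_X_mul]
    rw [e]
    have : cj (2*i+1) (j+1) / kj (2*i+1) (j+1) =
        (cj (2*i+1) (j+1) + cj (2*i+1) j - kj (2*i+1) (j+1)) / kj (2*i+1) (j+1) + 1 -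
          cj (2*i+1) j / kj (2*i+1) (j+1) := by
      field_simp
      ring
    rw [this]
    push_cast
    ring

end Pool.Agent.NH38.Fork
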