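import Pool.Agent.NH38.Fork.Stubs3

/-!
FK-N6: the incomplete Beta function (helper93)
-/

set_option autoImplicit false

namespace Pool.Agent.NH38.Fork

open Filter Topology
open Pool.Agent.NH38.Step (cardy)

namespace N6

/-- coefficients of `(1-s)^(-1/2)` -/
noncomputable def cc (j : ℕ) : ℝ := ∏ i ∈ Finset.range j, (((i:ℝ) + 1/2) / (i + 1))

theorem cc_nonneg (j : ℕ) : 0 ≤ cc j := Finset.prod_nonneg fun i _ => by positivity

theorem cc_le (j : ℕ) : cc j ≤ 1 := Finset.prod_le_one (fun i _ => by positivity) fun i _ => by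
  rw [div_le_one (by positivity)]
  linarith

theorem cc_succ (j : ℕ) : cc (j + 1) = cc j * (((j:ℝ) + 1/2) / (j + 1)) := by
  unfold cc
  rw [Finset.prod_range_succ]

theorem prod_eq (j : ℕ) :
    ∏ i ∈ Finset.range j, (((i:ℝ) + 1/3) * (i + 1/2) / ((i + 4/3) * (i + 1))) = cc j / (3 * j + 1) := by
  induction j with
  | zero => simp [cc]
  | succ j ih =>
    rw [Finset.prod_range_succ, ih, cc_succ]
    push_cast
    have h1 : (3 * (j:ℝ) + 1) ≠ 0 := by positivity
    have h2 : ((j:ℝ) + 4/3) ≠ 0 := by positivity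
    have h3 : ((j:ℝ) + 1) ≠ 0 := by positivity
    have h4 : (3 * ((j:ℝ) + 1) + 1) ≠ 0 := by positivity
    field_simp
    ring

theorem choose_eq (n : ℕ) : Ring.choose ((1/2 : ℝ) + n - 1) n = cc n := by
  have h0 : Ring.choose ((1/2 : ℝ) + n - 1) n = Ring.multichoose (1/2 : ℝ) n := by
    unfold Ring.choose
    congr 1
    ring_nf
  rw [h0]
  have h1 := Ring.factorial_nsmul_multichoose_eq_ascPochhammer (1/2 : ℝ) n
  rw [Polynomial.ascPochhammer_smeval_eq_eval] at h1
  have h2 : (ascPochhammer ℝ n).eval (1/2 : ℝ) = n.factorial * cc n := by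
    clear h1 h0
    induction n with
    | zero => simp [cc]
    | succ n ih =>
      rw [ascPochhammer_succ_eval, ih, cc_succ, Nat.factorial_succ]
      push_cast
      have h3 : ((n:ℝ) + 1) ≠ 0 := by positivity
      field_simp
      ring
  rw [h2, nsmul_eq_mul] at h1
  have h3 : ((n.factorial : ℕ) : ℝ) ≠ 0 := by positivity
  exact mul_left_cancel₀ h3 h1

theorem binom {s : ℝ} (h0 : 0 ≤ s) (h1 : s < 1) : HasSum (fun j => cc j * s ^ j) ((1 - s) ^ (-(1:ℝ)/2)) := by
  have h := (Real.one_div_one_sub_rpow_hasFPowerSeriesOnBall_zero (1/2 : ℝ)).hasSum (y := s) (by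
    simp only [Metric.mem_eball, edist_zero_right]
    rw [enorm_eq_nnnorm]
    rw [show (1 : ENNReal) = ((1 : NNReal) : ENNReal) by simp]
    rw [ENNReal.coe_lt_coe, ← NNReal.coe_lt_coe]
    simp [abs_of_nonneg h0, h1])
  simp only [zero_add] at h
  have h2 : 1 / (1 - s) ^ (1/2 : ℝ) = (1 - s) ^ (-(1:ℝ)/2) := by
    rw [show (-(1:ℝ)/2) = -(1/2) by ring, Real.rpow_neg (by linarith), one_div]
  rw [h2] at h
  have h3 : (fun n : ℕ => (FormalMultilinearSeries.ofScalars ℝ
      (fun n : ℕ => Ring.choose ((1/2 : ℝ) + n - 1) n) n) fun _ => s) = fun j => cc j * s ^ j := by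
    funext n
    rw [FormalMultilinearSeries.ofScalars_apply_eq, choose_eq]
    simp
  rw [h3] at h
  exact h

theorem ker_int (u v : ℝ) (hu : 0 < u) (hv : 0 < v) :
    IntervalIntegrable (fun t : ℝ => t ^ (u - 1) * (1 - t) ^ (v - 1)) MeasureTheory.volume 0 1 := by
  have h := (Complex.betaIntegral_convergent (u := (u : ℂ)) (v := (v : ℂ)) (by simpa using hu)
    (by simpa using hv)).norm
  rw [intervalIntegrable_iff_integrableOn_Ioo_of_le zero_le_one] at h ⊢
  refine h.congr_fun ?_ measurableSet_Ioo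
  intro t ht
  have h1 : (0:ℝ) < t := ht.1
  have h2 : (0:ℝ) < 1 - t := by linarith [ht.2]
  simp only
  rw [norm_mul]
  have h3 : ‖(t : ℂ) ^ ((u : ℂ) - 1)‖ = t ^ (u - 1) := by
    rw [Complex.norm_cpow_eq_rpow_re_of_pos h1]
    simp
  have h4 : ‖(1 - (t : ℂ)) ^ ((v : ℂ) - 1)‖ = (1 - t) ^ (v - 1) := by
    have : (1 - (t : ℂ)) = ((1 - t : ℝ) : ℂ) := by push_cast; ring
    rw [this, Complex.norm_cpow_eq_rpow_re_of_pos h2]
    simp
  rw [h3, h4]

/-- the kernel -/
noncomputable def g (s : ℝ) : ℝ := s^(-(2:ℝ)/3) * (1-s)^(-(1:ℝ)/2)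
noncomputable def h (t : ℝ) : ℝ := (t*(1-t))^(-(2:ℝ)/3)

theorem g_int : IntervalIntegrable g MeasureTheory.volume 0 1 := by
  have := ker_int (1/3) (1/2) (by norm_num) (by norm_num)
  convert this using 2 with s
  unfold g
  norm_num

theorem h_int : IntervalIntegrable h MeasureTheory.volume 0 1 := by
  have := ker_int (1/3) (1/3) (by norm_num) (by norm_num)
  rw [intervalIntegrable_iff_integrableOn_Ioo_of_le zero_le_one] at this ⊢
  refine this.congr_fun ?_ measurableSet_Ioo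
  intro t ht
  unfold h
  simp only
  rw [Real.mul_rpow ht.1.le (by linarith [ht.2])]
  norm_num

theorem subst {b : ℝ} (hb0 : 0 ≤ b) (hb : b ≤ 1/2) :
    ∫ s in (0:ℝ)..(4 * (b * (1 - b))), g s = 4 ^ ((1:ℝ)/3) * ∫ t in (0:ℝ)..b, h t := by
  have hpt : ∀ t ∈ Set.Ioo 0 b, (g ∘ fun t => 4 * (t * (1 - t))) t * (4 * (1 - 2 * t)) =
      4 ^ ((1:ℝ)/3) * h t := by
    intro t ht
    have h1 := ht.1
    have h2 : (0:ℝ) < 1 - 2 * t := by linarith [ht.2]
    have h3 : (0:ℝ) < 1 - t := by linarith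
    unfold h g
    simp only [Function.comp]
    have e1 : (1 - 4 * (t * (1 - t))) = (1 - 2 * t) ^ (2:ℝ) := by
      rw [Real.rpow_two]; ring
    rw [e1, ← Real.rpow_mul h2.le, Real.mul_rpow (by norm_num) (by positivity)]
    have e2 : ((2:ℝ) * (-(1:ℝ)/2)) = -1 := by norm_num
    rw [e2, Real.rpow_neg_one]
    have e3 : (4:ℝ) ^ ((1:ℝ)/3) = 4 ^ (-(2:ℝ)/3) * 4 := by
      conv_rhs => rw [← Real.rpow_one (4:ℝ)]
      rw [← Real.rpow_mul (by norm_num), ← Real.rpow_add (by norm_num)]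
      norm_num
    rw [e3]
    field_simp
  have key : ∫ t in (0:ℝ)..b, (g ∘ fun t => 4 * (t * (1 - t))) t * (4 * (1 - 2 * t)) =
      ∫ u in (4 * ((0:ℝ) * (1 - 0)))..(4 * (b * (1 - b))), g u := by
    have himg : (fun t : ℝ => 4 * (t * (1 - t))) '' Set.uIcc 0 b ⊆ Set.Icc 0 1 := by
      rintro _ ⟨t, ht, rfl⟩
      rw [Set.uIcc_of_le hb0] at ht
      simp only
      constructor
      · have := ht.1
        have := ht.2
        nlinarith
      · nlinarith [sq_nonneg (1 - 2 * t)]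
    refine intervalIntegral.integral_comp_mul_deriv''' (f := fun t => 4 * (t * (1 - t)))
      (f' := fun t => 4 * (1 - 2 * t)) (g := g) ?_ ?_ ?_ ?_ ?_
    · fun_prop
    · intro x _
      have : HasDerivAt (fun t : ℝ => 4 * (t * (1 - t))) (4 * (1 * (1 - x) + x * (0 - 1))) x :=
        (((hasDerivAt_id x).mul ((hasDerivAt_const x (1:ℝ)).sub (hasDerivAt_id x))).const_mul 4)
      have e : 4 * (1 * (1 - x) + x * (0 - 1)) = 4 * (1 - 2 * x) := by ring
      rw [e] at this
      exact this.hasDerivWithinAt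
    · rw [min_eq_left hb0, max_eq_right hb0]
      intro u hu
      obtain ⟨t, ht, rfl⟩ := hu
      have h1 := ht.1
      have h2 : (0:ℝ) < 1 - 2 * t := by linarith [ht.2]
      have h3 : (0:ℝ) < 4 * (t * (1 - t)) := by
        have : (0:ℝ) < 1 - t := by linarith
        positivity
      have h4 : (0:ℝ) < 1 - 4 * (t * (1 - t)) := by nlinarith
      unfold g
      apply ContinuousAt.continuousWithinAt
      apply ContinuousAt.mul
      · exact Real.continuousAt_rpow_const _ _ (Or.inl h3.ne')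
      · apply ContinuousAt.rpow_const (by fun_prop) (Or.inl h4.ne')
    · have h1 : MeasureTheory.IntegrableOn g (Set.Icc 0 1) := by
        rw [← intervalIntegrable_iff_integrableOn_Icc_of_le zero_le_one]
        exact g_int
      exact h1.mono_set himg
    · have h1 : MeasureTheory.IntegrableOn (fun t => 4 ^ ((1:ℝ)/3) * h t) (Set.Icc 0 b) := by
        have h2 : MeasureTheory.IntegrableOn h (Set.Icc 0 1) := by
          rw [← intervalIntegrable_iff_integrableOn_Icc_of_le zero_le_one]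
          exact h_int
        exact (h2.mono_set (Set.Icc_subset_Icc le_rfl (by linarith))).const_mul _
      rw [Set.uIcc_of_le hb0]
      rw [integrableOn_Icc_iff_integrableOn_Ioo] at h1 ⊢
      refine h1.congr_fun ?_ measurableSet_Ioo
      intro t ht
      exact (hpt t ht).symm
  rw [show (4 * ((0:ℝ) * (1 - 0))) = 0 by ring] at key
  rw [← key, ← intervalIntegral.integral_const_mul]
  rw [intervalIntegral.integral_of_le hb0, intervalIntegral.integral_of_le hb0]
  rw [MeasureTheory.integral_Ioc_eq_integral_Ioo, MeasureTheory.integral_Ioc_eq_integral_Ioo]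
  refine MeasureTheory.setIntegral_congr_fun measurableSet_Ioo ?_
  intro t ht
  exact hpt t ht

theorem Bt_eq : Bt = 4 ^ ((1:ℝ)/3) * ((1/2) * ∫ t in (0:ℝ)..1, h t) := by
  have h1 := subst (b := 1/2) (by norm_num) le_rfl
  rw [show (4 * ((1/2:ℝ) * (1 - 1/2))) = 1 by norm_num] at h1
  have h2 : Bt = ∫ s in (0:ℝ)..1, g s := rfl
  rw [h2, h1]
  congr 1
  have h3 : ∫ t in (1/2:ℝ)..1, h t = ∫ t in (0:ℝ)..(1/2), h t := by
    have h4 := intervalIntegral.integral_comp_sub_left (f := h) (a := 0) (b := 1/2) 1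
    have h5 : (fun x => h (1 - x)) = h := by
      funext x
      unfold h
      congr 1
      ring
    rw [h5] at h4
    rw [h4]
    norm_num
  have ha : IntervalIntegrable h MeasureTheory.volume 0 (1/2) :=
    h_int.mono_set (by rw [Set.uIcc_of_le (by norm_num), Set.uIcc_of_le (by norm_num)]
                       exact Set.Icc_subset_Icc le_rfl (by norm_num))
  have hb : IntervalIntegrable h MeasureTheory.volume (1/2) 1 :=
    h_int.mono_set (by rw [Set.uIcc_of_le (by norm_num), Set.uIcc_of_le (by norm_num)]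
                       exact Set.Icc_subset_Icc (by norm_num) le_rfl)
  rw [← intervalIntegral.integral_add_adjacent_intervals ha hb, h3]
  ring

theorem h_pos : 0 < ∫ t in (0:ℝ)..1, h t := by
  apply intervalIntegral.intervalIntegral_pos_of_pos_on h_int _ zero_lt_one
  intro t ht
  unfold h
  have : 0 < t * (1 - t) := mul_pos ht.1 (by linarith [ht.2])
  positivity

theorem termwise {x : ℝ} (hx0 : 0 < x) (hx1 : x < 1) :
    HasSum (fun j : ℕ => cc j * (x ^ ((j:ℝ) + 1/3) / ((j:ℝ) + 1/3))) (∫ s in (0:ℝ)..x, g s) := by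
  rw [intervalIntegral.integral_of_le hx0.le]
  have hI : ∀ j : ℕ, ∫ s in (0:ℝ)..x, s ^ ((j:ℝ) - 2/3) = x ^ ((j:ℝ) + 1/3) / ((j:ℝ) + 1/3) := by
    intro j
    have hj : (0:ℝ) ≤ j := Nat.cast_nonneg j
    rw [integral_rpow (Or.inl (by linarith))]
    rw [show ((j:ℝ) - 2/3 + 1) = (j:ℝ) + 1/3 by ring, Real.zero_rpow (by positivity), sub_zero]
  have hInt : ∀ j : ℕ, MeasureTheory.IntegrableOn (fun s : ℝ => cc j * s ^ ((j:ℝ) - 2/3)) (Set.Ioc 0 x) := by
    intro j
    have hj : (0:ℝ) ≤ j := Nat.cast_nonneg j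
    have := intervalIntegral.intervalIntegrable_rpow' (a := 0) (b := x) (r := (j:ℝ) - 2/3) (by linarith)
    rw [intervalIntegrable_iff_integrableOn_Ioc_of_le hx0.le] at this
    exact this.const_mul _
  have hval : ∀ j : ℕ, ∫ s in Set.Ioc 0 x, cc j * s ^ ((j:ℝ) - 2/3) =
      cc j * (x ^ ((j:ℝ) + 1/3) / ((j:ℝ) + 1/3)) := by
    intro j
    rw [MeasureTheory.integral_const_mul, ← hI j, intervalIntegral.integral_of_le hx0.le]
  have hnorm : ∀ j : ℕ, ∫ s in Set.Ioc 0 x, ‖cc j * s ^ ((j:ℝ) - 2/3)‖ =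
      cc j * (x ^ ((j:ℝ) + 1/3) / ((j:ℝ) + 1/3)) := by
    intro j
    rw [← hval j]
    refine MeasureTheory.setIntegral_congr_fun measurableSet_Ioc ?_
    intro s hs
    simp only
    rw [Real.norm_of_nonneg (mul_nonneg (cc_nonneg j) (Real.rpow_nonneg hs.1.le _))]
  have hsum : Summable fun j : ℕ => ∫ s in Set.Ioc 0 x, ‖cc j * s ^ ((j:ℝ) - 2/3)‖ := by
    simp_rw [hnorm]
    refine Summable.of_nonneg_of_le (f := fun j : ℕ => 3 * x ^ ((1:ℝ)/3) * x ^ j) ?_ ?_ ?_
    · intro j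
      have := cc_nonneg j
      positivity
    · intro j
      have hj : (0:ℝ) ≤ j := Nat.cast_nonneg j
      rw [Real.rpow_add hx0, Real.rpow_natCast]
      have h1 : x ^ j * x ^ ((1:ℝ)/3) / ((j:ℝ) + 1/3) ≤ x ^ j * x ^ ((1:ℝ)/3) * 3 := by
        rw [div_le_iff₀ (by positivity)]
        have : (0:ℝ) ≤ x ^ j * x ^ ((1:ℝ)/3) := by positivity
        nlinarith
      calc cc j * (x ^ j * x ^ ((1:ℝ)/3) / ((j:ℝ) + 1/3))
          ≤ 1 * (x ^ j * x ^ ((1:ℝ)/3) * 3) := mul_le_mul (cc_le j) h1 (by positivity) zero_le_one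
        _ = _ := by ring
    · exact (summable_geometric_of_lt_one hx0.le hx1).mul_left _
  have hmain := MeasureTheory.hasSum_integral_of_summable_integral_norm hInt hsum
  simp_rw [hval] at hmain
  have hlim : ∫ s in Set.Ioc 0 x, ∑' j : ℕ, cc j * s ^ ((j:ℝ) - 2/3) = ∫ s in Set.Ioc 0 x, g s := by
    refine MeasureTheory.setIntegral_congr_fun measurableSet_Ioc ?_
    intro s hs
    simp only
    have h1 := (binom hs.1.le (lt_of_le_of_lt hs.2 hx1)).mul_left (s ^ (-(2:ℝ)/3))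
    have h2 : (fun j : ℕ => s ^ (-(2:ℝ)/3) * (cc j * s ^ j)) = fun j : ℕ => cc j * s ^ ((j:ℝ) - 2/3) := by
      funext j
      rw [show ((j:ℝ) - 2/3) = (-(2:ℝ)/3) + j by ring, Real.rpow_add hs.1, Real.rpow_natCast]
      ring
    rw [h2] at h1
    rw [h1.tsum_eq]
    rfl
  rw [hlim] at hmain
  exact hmain

end N6

theorem t_BETA : S_BETA := by
  intro ρ h0 h1
  set b : ℝ := (1 - Real.sqrt (1 - ρ^2)) / 2 with hb
  have hρ2 : ρ ^ 2 < 1 := by nlinarith
  have hs0 : 0 ≤ Real.sqrt (1 - ρ^2) := Real.sqrt_nonneg _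
  have hs1 : Real.sqrt (1 - ρ^2) ≤ 1 := by
    rw [Real.sqrt_le_one]
    nlinarith
  have hs2 : Real.sqrt (1 - ρ^2) ^ 2 = 1 - ρ^2 := Real.sq_sqrt (by linarith)
  have hb0 : 0 ≤ b := by rw [hb]; linarith
  have hb1 : b ≤ 1/2 := by rw [hb]; linarith
  have hbb : 4 * (b * (1 - b)) = ρ ^ 2 := by
    rw [hb]
    linear_combination -hs2
  have hsub := N6.subst hb0 hb1
  rw [hbb] at hsub
  have ht := N6.termwise (x := ρ^2) (by positivity) hρ2
  rw [hsub] at ht
  have hpos := N6.h_pos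
  have hBt := N6.Bt_eq
  have h4 : (0:ℝ) < 4 ^ ((1:ℝ)/3) := by positivity
  have hB0 : 0 < Bt := by rw [hBt]; positivity
  have ht2 := ht.mul_left (1 / Bt)
  have e1 : 1 / Bt * (4 ^ ((1:ℝ)/3) * ∫ t in (0:ℝ)..b, N6.h t) = 2 * cardy b := by
    have : cardy b = (∫ t in (0:ℝ)..b, N6.h t) / ∫ t in (0:ℝ)..1, N6.h t := rfl
    rw [this, hBt]
    field_simp
  rw [e1] at ht2
  refine ht2.congr_fun ?_
  intro j
  rw [N6.prod_eq]
  have e2 : (ρ ^ 2) ^ ((j:ℝ) + 1/3) = ρ ^ ((2:ℝ)/3) * ρ ^ (2 * j) := by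
    rw [← Real.rpow_natCast ρ 2, ← Real.rpow_mul h0.le, ← Real.rpow_natCast ρ (2 * j), ← Real.rpow_add h0]
    congr 1
    push_cast
    ring
  rw [e2]
  have h5 : (3 * (j:ℝ) + 1) ≠ 0 := by positivity
  have h6 : ((j:ℝ) + 1/3) ≠ 0 := by positivity
  field_simp

end Pool.Agent.NH38.Fork
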