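import Pool.Agent.NH38.Fork.Stubs3

set_option autoImplicit false

/-!
# FK-N7: the asymptotics of `FU` (S_AsyF)
-/

namespace Pool.Agent.NH38.Fork.N7

open Polynomial Filter Topology Finset
open Pool.Agent.NH38.Step (cardy)

/-- the factors of the terms -/
noncomputable def gf (a n i : ℕ) : ℝ :=
  4 * ((a:ℝ) - i) * (a + 1 + i) / ((2*n - 1 - 2*i) * (2*n + 4 + 2*i)) *
    (((i:ℝ) + 1/3) * (i + 1/2) / ((i + 4/3) * (i + 1)))

lemma mj_eq (hMJ : S_MJ) {n j : ℕ} (hj : j ≤ n) : mj (2*n+1) j = 4^j * (M0 n *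
    ∏ i ∈ range j, (((i:ℚ) + 1/3) * (i + 2/3) / ((2*n - 1 - 2*i) * (2*n + 4 + 2*i)))) := by
  unfold mj
  rw [hMJ n j hj]

lemma kap_pos (a : ℕ) : 0 < kap a := by
  unfold kap
  exact Finset.prod_pos fun i _ => by positivity

lemma M0_pos (n : ℕ) : 0 < M0 n := by
  unfold M0
  refine mul_pos (by norm_num) (Finset.prod_pos fun i _ => by positivity)

lemma kj_pos {a j : ℕ} (h : j ≤ a) : 0 < kj a j := by
  unfold kj
  refine mul_pos (kap_pos a) (Finset.prod_pos fun i hi => ?_)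
  rw [mem_range] at hi
  have h1 : (0:ℚ) < (a:ℚ) - i := by
    rw [sub_pos]; exact_mod_cast (lt_of_lt_of_le hi h)
  positivity

lemma kj_mj (hMJ : S_MJ) {a n j : ℕ} (hj : j ≤ n) :
    (((kj a j * mj (2*n+1) j : ℚ)) : ℝ) = ((kap a * M0 n : ℚ) : ℝ) * ∏ i ∈ range j, gf a n i := by
  rw [mj_eq hMJ hj]
  unfold kj gf
  push_cast
  rw [← Finset.card_range j, ← Finset.prod_const, Finset.card_range]
  rw [show ∀ x y z u v : ℝ, x * y * (z * (u * v)) = x * u * (z * y * v) from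
    fun x y z u v => by ring, ← Finset.prod_mul_distrib, ← Finset.prod_mul_distrib]
  congr 1
  refine Finset.prod_congr rfl fun i _ => ?_
  have h1 : ((i:ℝ) + 2/3) ≠ 0 := by positivity
  have h2 : ((i:ℝ) + 4/3) ≠ 0 := by positivity
  have h3 : ((i:ℝ) + 1) ≠ 0 := by positivity
  rcases eq_or_ne ((2 * (n:ℝ) - 1 - 2*i) * (2*n + 4 + 2*i)) 0 with h | h
  · rw [h]; simp
  · obtain ⟨h4, h5⟩ := mul_ne_zero_iff.mp h
    field_simp

lemma gf_nonneg {a n i : ℕ} (hia : i < a) (han : a ≤ n) : 0 ≤ gf a n i := by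
  unfold gf
  have h1 : (0:ℝ) ≤ (a:ℝ) - i := by
    rw [sub_nonneg]; exact_mod_cast hia.le
  have h2 : (0:ℝ) ≤ 2*n - 1 - 2*i := by
    have : ((i + 1 : ℕ) : ℝ) ≤ n := by exact_mod_cast (by omega : i + 1 ≤ n)
    push_cast at this
    linarith
  positivity

lemma gf_le {a n i : ℕ} {r : ℝ} (hia : i < a) (han : a ≤ n) (hr : 2 * (a:ℝ) ≤ r * (2 * n - 1))
    (hr1 : r ≤ 1) : gf a n i ≤ r := by
  unfold gf
  have hi0 : (0:ℝ) ≤ i := Nat.cast_nonneg i
  have ha : ((i:ℝ)) + 1 ≤ a := by exact_mod_cast (by omega : i + 1 ≤ a)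
  have hn : (a:ℝ) ≤ n := by exact_mod_cast han
  have h2 : (0:ℝ) < 2*n - 1 - 2*i := by linarith
  have h3 : (0:ℝ) < 2*n + 4 + 2*i := by linarith
  have hr0 : 0 ≤ r := by
    by_contra h
    push Not at h
    have : r * (2 * n - 1) ≤ 0 := mul_nonpos_of_nonpos_of_nonneg h.le (by linarith)
    linarith
  have e1 : 4 * ((a:ℝ) - i) * (a + 1 + i) / ((2*n - 1 - 2*i) * (2*n + 4 + 2*i)) =
      (2 * ((a:ℝ) - i) / (2*n - 1 - 2*i)) * ((2 * (a + 1 + i)) / (2*n + 4 + 2*i)) := by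
    rw [div_mul_div_comm]
    congr 1
    ring
  have e2 : 2 * ((a:ℝ) - i) / (2*n - 1 - 2*i) ≤ r := by
    rw [div_le_iff₀ h2]
    nlinarith
  have e3 : (2 * ((a:ℝ) + 1 + i)) / (2*n + 4 + 2*i) ≤ 1 := by
    rw [div_le_one h3]
    linarith
  have e4 : (((i:ℝ) + 1/3) * (i + 1/2) / ((i + 4/3) * (i + 1))) ≤ 1 := by
    rw [div_le_one (by positivity)]
    nlinarith
  have p1 : 0 ≤ 2 * ((a:ℝ) - i) / (2*n - 1 - 2*i) := div_nonneg (by linarith) h2.le
  have p3 : 0 ≤ (2 * ((a:ℝ) + 1 + i)) / (2*n + 4 + 2*i) := div_nonneg (by linarith) h3.le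
  have p4 : 0 ≤ (((i:ℝ) + 1/3) * (i + 1/2) / ((i + 4/3) * (i + 1))) := by positivity
  rw [e1]
  calc _ ≤ r * 1 * 1 := by
        refine mul_le_mul (mul_le_mul e2 e3 p3 hr0) e4 p4 (by linarith)
    _ = r := by ring

lemma prod_gf_le {a n j : ℕ} {r : ℝ} (hja : j ≤ a) (han : a ≤ n)
    (hr : 2 * (a:ℝ) ≤ r * (2 * n - 1)) (hr1 : r ≤ 1) : ∏ i ∈ range j, gf a n i ≤ r^j := by
  have h := Finset.prod_le_prod (s := range j) (f := fun i => gf a n i) (g := fun _ => r)
    (fun i hi => gf_nonneg (lt_of_lt_of_le (mem_range.mp hi) hja) han)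
    (fun i hi => gf_le (lt_of_lt_of_le (mem_range.mp hi) hja) han hr hr1)
  rwa [Finset.prod_const, Finset.card_range] at h

lemma prod_gf_nonneg {a n j : ℕ} (hja : j ≤ a) (han : a ≤ n) : 0 ≤ ∏ i ∈ range j, gf a n i :=
  Finset.prod_nonneg fun i hi => gf_nonneg (lt_of_lt_of_le (mem_range.mp hi) hja) han

/-- the limits of the factors -/
lemma gf_lim {a n : ℕ → ℕ} {ρ : ℝ} (hn : Tendsto n atTop atTop)
    (h : Tendsto (fun i => (a i : ℝ) / n i) atTop (𝓝 ρ)) (j : ℕ) :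
    Tendsto (fun i => gf (a i) (n i) j) atTop
      (𝓝 (ρ^2 * (((j:ℝ) + 1/3) * (j + 1/2) / ((j + 4/3) * (j + 1))))) := by
  have hn' : Tendsto (fun i => ((n i : ℕ) : ℝ)) atTop atTop :=
    tendsto_natCast_atTop_atTop.comp hn
  have hc : ∀ c : ℝ, Tendsto (fun i => c / (n i : ℝ)) atTop (𝓝 0) := fun c =>
    Tendsto.div_atTop tendsto_const_nhds hn'
  have h1 : Tendsto (fun i => 4 * ((a i : ℝ) / n i - j / n i) * ((a i : ℝ) / n i + (1 + j) / n i) /
      ((2 - (1 + 2 * j) / n i) * (2 + (4 + 2 * j) / n i))) atTop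
      (𝓝 (4 * (ρ - 0) * (ρ + 0) / ((2 - 0) * (2 + 0)))) := by
    refine Tendsto.div ?_ ?_ (by norm_num)
    · exact ((h.sub (hc j)).const_mul 4).mul (h.add (hc (1 + j)))
    · exact (tendsto_const_nhds.sub (hc (1 + 2 * j))).mul (tendsto_const_nhds.add (hc (4 + 2 * j)))
  have h2 : (4 * (ρ - 0) * (ρ + 0) / ((2 - 0) * (2 + 0)) : ℝ) = ρ^2 := by ring
  rw [h2] at h1
  refine (h1.mul_const _).congr' ?_
  filter_upwards [hn'.eventually_gt_atTop 0] with i hi
  unfold gf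
  congr 1
  have hne : (n i : ℝ) ≠ 0 := hi.ne'
  rw [show 4 * ((a i : ℝ) / n i - j / n i) * ((a i : ℝ) / n i + (1 + j) / n i) =
      (4 * ((a i : ℝ) - j) * (a i + 1 + j)) / ((n i : ℝ) * n i) by field_simp; ring,
    show (2 - (1 + 2 * j) / n i) * (2 + (4 + 2 * j) / n i) =
      ((2 * (n i : ℝ) - 1 - 2 * j) * (2 * n i + 4 + 2 * j)) / ((n i : ℝ) * n i) by
        field_simp; ring,
    div_div_div_cancel_right₀ (mul_ne_zero hne hne)]

end Pool.Agent.NH38.Fork.N7

namespace Pool.Agent.NH38.Fork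

open Polynomial Filter Topology Finset N7
open Pool.Agent.NH38.Step (cardy)

theorem t_AsyF (hMJ : S_MJ) (hCB : S_CB) (hCA : S_CA) (hKAP : S_KAP) (hBETA : S_BETA) :
    S_AsyF := by
  intro a N ρ hρ hρ1 ha hN haN hNt hlim
  -- `N = 2n+1`
  choose n hn using hN
  have hN2 : ∀ i, N i = 2 * n i + 1 := hn
  have han : ∀ i, a i ≤ n i := fun i => by have := haN i; have := hN2 i; omega
  have hnt : Tendsto n atTop atTop := by
    rw [tendsto_atTop] at hNt ⊢
    intro b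
    filter_upwards [hNt (2 * b + 1)] with i hi
    have := hN2 i
    omega
  have hnt' : Tendsto (fun i => ((n i : ℕ) : ℝ)) atTop atTop :=
    tendsto_natCast_atTop_atTop.comp hnt
  have hc : ∀ c : ℝ, Tendsto (fun i => c / (n i : ℝ)) atTop (𝓝 0) := fun c =>
    Tendsto.div_atTop tendsto_const_nhds hnt'
  have han' : Tendsto (fun i => (a i : ℝ) / n i) atTop (𝓝 ρ) := by
    have h1 : Tendsto (fun i => 2 * (a i : ℝ) / N i * (1 + (1/2) / n i)) atTop
        (𝓝 (ρ * (1 + 0))) := hlim.mul (tendsto_const_nhds.add (hc (1/2)))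
    rw [add_zero, mul_one] at h1
    refine h1.congr' ?_
    filter_upwards [hnt'.eventually_gt_atTop 0] with i hi
    rw [hN2 i]
    push_cast
    have h2 : (2 * (n i : ℝ) + 1) ≠ 0 := by positivity
    field_simp
  have hat : Tendsto a atTop atTop := by
    have h1 : Tendsto (fun i => (n i : ℝ) * ((a i : ℝ) / n i)) atTop atTop :=
      hnt'.atTop_mul_pos hρ han'
    have h2 : Tendsto (fun i => (a i : ℝ)) atTop atTop := by
      refine h1.congr' ?_
      filter_upwards [hnt'.eventually_gt_atTop 0] with i hi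
      field_simp
    exact tendsto_natCast_atTop_iff.mp h2
  -- the bound `r`
  set r : ℝ := (1 + ρ) / 2 with hr
  have hr1 : r < 1 := by rw [hr]; linarith
  have hr0 : 0 < r := by rw [hr]; linarith
  have hrb : ∀ᶠ i in atTop, 2 * (a i : ℝ) ≤ r * (2 * n i - 1) := by
    have h1 : Tendsto (fun i => (a i : ℝ) / n i + (r / 2) / n i) atTop (𝓝 (ρ + 0)) :=
      han'.add (hc (r / 2))
    rw [add_zero] at h1
    have h2 : ρ < r := by rw [hr]; linarith
    filter_upwards [h1.eventually (gt_mem_nhds h2), hnt'.eventually_gt_atTop 0] with i hi hi0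
    rw [← add_div, div_lt_iff₀ hi0] at hi
    linarith
  -- the constants
  have hK := hKAP a n ρ hρ hat hnt han'
  set c0 : ℝ := ρ^((2:ℝ)/3) * (3 / Bt) with hc0
  obtain ⟨C, hC⟩ : ∃ C : ℝ, ∀ᶠ i in atTop, ((kap (a i) * M0 (n i) : ℚ) : ℝ) ≤ C :=
    ⟨c0 + 1, (hK.eventually (gt_mem_nhds (by linarith : c0 < c0 + 1))).mono fun i hi => hi.le⟩
  -- the terms
  let t : ℕ → ℕ → ℝ := fun i j => if j < a i then ((cj (a i) j * mj (N i) j : ℚ) : ℝ) else 0
  have ht : ∀ i j, j < a i → t i j = ((cj (a i) j / kj (a i) j : ℚ) : ℝ) *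
      (((kap (a i) * M0 (n i) : ℚ) : ℝ) * ∏ l ∈ range j, gf (a i) (n i) l) := by
    intro i j hj
    have hk := (kj_pos hj.le).ne'
    simp only [t]
    rw [if_pos hj, ← kj_mj hMJ (hj.le.trans (han i)), ← hN2 i, ← Rat.cast_mul]
    congr 1
    field_simp
  have hq : ∀ i j, j < a i → 0 ≤ ((cj (a i) j / kj (a i) j : ℚ) : ℝ) ∧
      ((cj (a i) j / kj (a i) j : ℚ) : ℝ) ≤ 2 := by
    intro i j hj
    have hk := kj_pos hj.le
    obtain ⟨h1, h2⟩ := hCB (a i) j (ha i)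
    refine ⟨by exact_mod_cast div_nonneg h1 hk.le, ?_⟩
    have : cj (a i) j / kj (a i) j ≤ 2 := by rw [div_le_iff₀ hk]; exact h2
    exact_mod_cast this
  have hsum : ∀ i, ∑' j, t i j = 2 * ((FU (a i) (N i) : ℚ) : ℝ) := by
    intro i
    rw [tsum_eq_sum (s := range (a i)) (fun j hj => by
      simp only [t]; rw [if_neg (by rwa [mem_range] at hj)])]
    unfold FU
    push_cast
    rw [mul_div_cancel₀ _ (by norm_num : (2:ℝ) ≠ 0)]
    refine Finset.sum_congr rfl fun j hj => ?_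
    simp only [t]
    rw [if_pos (mem_range.mp hj)]
    push_cast
    rfl
  -- dominated convergence
  have hB := hBETA ρ hρ hρ1
  have hdc : Tendsto (fun i => ∑' j, t i j) atTop (𝓝 (∑' j : ℕ, ρ^((2:ℝ)/3) * (3 / Bt) *
      (ρ^(2*j) * ∏ i ∈ range j, (((i:ℝ) + 1/3) * (i + 1/2) / ((i + 4/3) * (i + 1)))))) := by
    refine tendsto_tsum_of_dominated_convergence (bound := fun j => 2 * (C * r^j)) ?_ ?_ ?_
    · exact ((summable_geometric_of_lt_one hr0.le hr1).mul_left C).mul_left 2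
    · intro j
      have hi' : Tendsto (fun i => (a i - 1) / 2) atTop atTop := by
        rw [tendsto_atTop]
        intro b
        filter_upwards [hat.eventually_ge_atTop (2 * b + 1)] with i hi
        omega
      have h1 : Tendsto (fun i => ((cj (a i) j / kj (a i) j : ℚ) : ℝ)) atTop (𝓝 1) := by
        refine ((hCA j).comp hi').congr fun i => ?_
        obtain ⟨m, hm⟩ := ha i
        simp only [Function.comp]
        rw [show 2 * ((a i - 1) / 2) + 1 = a i by omega]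
      have h2 : Tendsto (fun i => ∏ l ∈ range j, gf (a i) (n i) l) atTop
          (𝓝 (∏ l ∈ range j, (ρ^2 * (((l:ℝ) + 1/3) * (l + 1/2) / ((l + 4/3) * (l + 1)))))) :=
        tendsto_finsetProd _ fun l _ => gf_lim hnt han' l
      rw [Finset.prod_mul_distrib, Finset.prod_const, Finset.card_range, ← pow_mul] at h2
      have h3 := h1.mul (hK.mul h2)
      rw [one_mul] at h3
      refine h3.congr' ?_
      filter_upwards [hat.eventually_gt_atTop j] with i hi
      exact (ht i j hi).symm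
    · filter_upwards [hrb, hC] with i hi hCi j
      by_cases hj : j < a i
      · have p1 : (0:ℝ) ≤ ((kap (a i) * M0 (n i) : ℚ) : ℝ) := by
          exact_mod_cast (mul_pos (kap_pos _) (M0_pos _)).le
        have p2 := prod_gf_nonneg hj.le (han i)
        have p3 := prod_gf_le hj.le (han i) hi hr1.le
        obtain ⟨q1, q2⟩ := hq i j hj
        rw [ht i j hj, Real.norm_eq_abs, abs_of_nonneg (mul_nonneg q1 (mul_nonneg p1 p2))]
        exact mul_le_mul q2 (mul_le_mul hCi p3 p2 (p1.trans hCi)) (mul_nonneg p1 p2) (by norm_num)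
      · simp only [t]
        rw [if_neg hj, norm_zero]
        have hC0 : 0 ≤ C := le_trans (by exact_mod_cast (mul_pos (kap_pos _) (M0_pos _)).le) hCi
        positivity
  rw [hB.tsum_eq] at hdc
  simp only [hsum] at hdc
  have h5 := hdc.const_mul (1/2 : ℝ)
  rw [show (1/2 : ℝ) * (2 * cardy ((1 - Real.sqrt (1 - ρ^2)) / 2)) =
    cardy ((1 - Real.sqrt (1 - ρ^2)) / 2) by ring] at h5
  exact h5.congr fun i => by ring

end Pool.Agent.NH38.Fork
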