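import Pool.Agent.NH38.Fork.Q3

/-!
Thick slits, task Q8 (helper19): the amplitude at `w = q ζ`, `ζ ∈ B`.
-/

namespace Pool.Agent.NH38.Fork

open Pool.Agent.H988R2.Perc hiding X
open Pool.Agent.H492C (comb2 pairG up1 comb)
open Pool.Agent.NH38.Step (om prs EE zs prF Gen on cardy pom bev)
open Polynomial Filter Topology

namespace Q8

open Pool.Agent.NH38.Step.TD (CL lin_cont lin_Psi eq_of_cont prs_cons prs_append fw_cont)
open Pool.Agent.NH38.Step (om_qq pom_app pom_cons pom_nil fac_app fac_eq_pom fac_zero_right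
  prs_length om_inv)

/-- the glued pairing as a bilinear map in the lower vector and the vector of the right arm -/
noncomputable def bM (A : List ℂ) (k r : ℕ) : (St →₀ ℂ) →ₗ[ℂ] (St →₀ ℂ) →ₗ[ℂ] ℂ :=
  LinearMap.mk₂ ℂ (fun f g => pairG A.length r f
      (comb2 ((A.length + 1) / 2) (up1 A) (comb2 k (Finsupp.single St.bot 1) g)))
    (fun f f' g => Pool.Agent.H492C.pairG_add_left _ _ _ _ _)
    (fun c f g => by
      rw [Pool.Agent.H492C.pairG_smul_left, smul_eq_mul])
    (fun f g g' => by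
      rw [Pool.Agent.H492C.comb2_add_right, Pool.Agent.H492C.comb2_add_right,
        Pool.Agent.H492C.pairG_add_right])
    (fun c f g => by
      rw [Pool.Agent.H492C.comb2_smul_right, Pool.Agent.H492C.comb2_smul_right,
        Pool.Agent.H492C.pairG_smul_right, smul_eq_mul])

theorem bM_apply (A : List ℂ) (k r : ℕ) (f g : St →₀ ℂ) : bM A k r f g = pairG A.length r f
      (comb2 ((A.length + 1) / 2) (up1 A) (comb2 k (Finsupp.single St.bot 1) g)) := rfl

attribute [irreducible] bM

/-! ### vector polynomials -/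

/-- a vector valued polynomial of degree at most `n` -/
def VP (n : ℕ) (F : ℂ → (St →₀ ℂ)) : Prop :=
  ∃ c : ℕ → (St →₀ ℂ), ∀ w, F w = ∑ i ∈ Finset.range (n+1), w^i • c i

theorem VP.const (f : St →₀ ℂ) : VP 0 (fun _ => f) :=
  ⟨fun _ => f, fun w => by simp⟩

theorem VP.mono {n m : ℕ} {F : ℂ → (St →₀ ℂ)} (h : VP n F) (hnm : n ≤ m) : VP m F := by
  obtain ⟨c, hc⟩ := h
  refine ⟨fun i => if i < n+1 then c i else 0, fun w => ?_⟩
  rw [hc w]
  have : Finset.range (n+1) ⊆ Finset.range (m+1) := Finset.range_subset_range.2 (by omega)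
  rw [← Finset.sum_subset this]
  · refine Finset.sum_congr rfl fun i hi => ?_
    beta_reduce
    rw [if_pos (Finset.mem_range.1 hi)]
  · intro i _ hi
    rw [Finset.mem_range] at hi
    simp only [if_neg hi, smul_zero]

theorem VP.add {n : ℕ} {F H : ℂ → (St →₀ ℂ)} (h : VP n F) (h' : VP n H) :
    VP n (fun w => F w + H w) := by
  obtain ⟨c, hc⟩ := h
  obtain ⟨d, hd⟩ := h'
  refine ⟨fun i => c i + d i, fun w => ?_⟩
  beta_reduce
  rw [hc w, hd w, ← Finset.sum_add_distrib]
  refine Finset.sum_congr rfl fun i _ => ?_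
  rw [smul_add]

theorem VP.map {n : ℕ} {F : ℂ → (St →₀ ℂ)} (h : VP n F) (L : (St →₀ ℂ) →ₗ[ℂ] (St →₀ ℂ)) :
    VP n (fun w => L (F w)) := by
  obtain ⟨c, hc⟩ := h
  refine ⟨fun i => L (c i), fun w => ?_⟩
  beta_reduce
  rw [hc w, map_sum]
  refine Finset.sum_congr rfl fun i _ => ?_
  rw [map_smul]

theorem VP.shift {n : ℕ} {F : ℂ → (St →₀ ℂ)} (h : VP n F) : VP (n+1) (fun w => w • F w) := by
  obtain ⟨c, hc⟩ := h
  refine ⟨fun i => if i = 0 then 0 else c (i-1), fun w => ?_⟩
  beta_reduce
  rw [hc w, Finset.sum_range_succ' _ (n+1), Finset.smul_sum]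
  simp only [if_pos, smul_zero, add_zero]
  refine Finset.sum_congr rfl fun i _ => ?_
  rw [if_neg (by omega), smul_smul, pow_succ, mul_comm, Nat.add_sub_cancel]

theorem VP.sum {ι : Type} (s : Finset ι) {n : ℕ} {F : ι → ℂ → (St →₀ ℂ)}
    (h : ∀ i ∈ s, VP n (F i)) : VP n (fun w => ∑ i ∈ s, F i w) := by
  classical
  induction s using Finset.induction_on with
  | empty =>
    refine ⟨fun _ => 0, fun w => by simp⟩
  | insert a s ha ih =>
    have h1 := (h a (Finset.mem_insert_self _ _)).add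
      (ih fun i hi => h i (Finset.mem_insert_of_mem hi))
    refine (congrArg (VP n) ?_).mp h1
    funext x
    rw [Finset.sum_insert ha]

theorem VP.poly {n : ℕ} (P : ℂ[X]) (hP : P.natDegree ≤ n) (f : St →₀ ℂ) :
    VP n (fun w => P.eval w • f) := by
  refine ⟨fun i => P.coeff i • f, fun w => ?_⟩
  beta_reduce
  rw [Polynomial.eval_eq_sum_range' (n := n+1) (by omega), Finset.sum_smul]
  refine Finset.sum_congr rfl fun i _ => ?_
  rw [smul_smul, mul_comm]

/-- `Psi` is a vector polynomial in its first argument -/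
theorem VP.Psi (v : List ℂ) : VP (v.length - 1) (fun t => Psi (t :: v)) := by
  have h : (fun t : ℂ => Pool.Agent.H988R2.Perc.Psi (t :: v)) = fun t => ∑ w ∈ LP (v.length + 1),
      Fw w (t :: v) • Finsupp.single (Phi ((v.length + 1) / 2) w) (1:ℂ) := by
    funext t
    unfold Pool.Agent.H988R2.Perc.Psi
    refine Finset.sum_congr (by rw [List.length_cons]) fun w _ => ?_
    rw [Finsupp.smul_single, smul_eq_mul, mul_one, List.length_cons]
  rw [h]
  refine VP.sum _ fun w hw => ?_
  obtain ⟨P, hP, hP'⟩ := (Fw_V hw).pd.univ [] v (by simp)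
  have e : (fun t : ℂ => Fw w (t :: v) • Finsupp.single (Phi ((v.length + 1) / 2) w) (1:ℂ)) =
      fun t => P.eval t • Finsupp.single (Phi ((v.length + 1) / 2) w) (1:ℂ) := by
    funext t
    have := hP' t
    rw [List.nil_append] at this
    rw [this]
  rw [e]
  exact VP.poly P (by omega) _

/-- the combination of two vector polynomials is a polynomial -/
theorem VP.bil {n m : ℕ} {F H : ℂ → (St →₀ ℂ)} (hF : VP n F) (hH : VP m H)
    (b : (St →₀ ℂ) →ₗ[ℂ] (St →₀ ℂ) →ₗ[ℂ] ℂ) :
    ∃ R : ℂ[X], R.natDegree ≤ n + m ∧ ∀ ζ : ℂ, ζ ≠ 0 →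
      ζ^m * b (F (q * ζ)) (H ζ⁻¹) = R.eval ζ := by
  obtain ⟨c, hc⟩ := hF
  obtain ⟨d, hd⟩ := hH
  refine ⟨∑ i ∈ Finset.range (n+1), ∑ j ∈ Finset.range (m+1),
    C (q^i * b (c i) (d j)) * X^(i + (m - j)), ?_, ?_⟩
  · refine natDegree_sum_le_of_forall_le _ _ fun i hi => ?_
    refine natDegree_sum_le_of_forall_le _ _ fun j hj => ?_
    rw [Finset.mem_range] at hi hj
    exact (natDegree_C_mul_X_pow_le _ _).trans (by omega)
  · intro ζ hζ
    rw [hc, hd, map_sum b, eval_finsetSum]
    rw [show ∀ (s : Finset ℕ) (f : ℕ → ((St →₀ ℂ) →ₗ[ℂ] ℂ)) (x : St →₀ ℂ),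
      (∑ i ∈ s, f i) x = ∑ i ∈ s, f i x from fun s f x => by simp, Finset.mul_sum]
    refine Finset.sum_congr rfl fun i _ => ?_
    rw [map_smul, LinearMap.smul_apply, map_sum, Finset.smul_sum, Finset.mul_sum, eval_finsetSum]
    refine Finset.sum_congr rfl fun j hj => ?_
    rw [Finset.mem_range] at hj
    rw [map_smul, smul_eq_mul, smul_eq_mul, eval_mul, eval_C, eval_pow, eval_X]
    have e : ζ^m * (ζ⁻¹)^j = ζ^(m - j) := by
      rw [inv_pow, ← div_eq_mul_inv, div_eq_iff (pow_ne_zero _ hζ), ← pow_add]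
      congr 1; omega
    rw [pow_add, ← e, mul_pow]
    ring

/-! ### the sweep -/

/-- the elementary operator -/
noncomputable def O (w y : ℂ) (i : ℕ) : (St →₀ ℂ) →ₗ[ℂ] (St →₀ ℂ) :=
  (q * w - q^2 * y) • LinearMap.id + (w - y) • Finsupp.lmapDomain ℂ ℂ (St.act i)

theorem O_apply (w y : ℂ) (i : ℕ) (f : St →₀ ℂ) :
    O w y i f = (q * w - q^2 * y) • f + (w - y) • Finsupp.mapDomain (St.act i) f := rfl

/-- the sweep operator -/
noncomputable def TT (w : ℂ) : ℕ → List ℂ → (St →₀ ℂ) →ₗ[ℂ] (St →₀ ℂ)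
  | _, [] => LinearMap.id
  | i, y :: ys => O w y i ∘ₗ TT w (i+1) ys

theorem TT_VP (f : St →₀ ℂ) : ∀ (ys : List ℂ) (i : ℕ), VP ys.length (fun w => TT w i ys f) := by
  intro ys
  induction ys with
  | nil => intro i; exact VP.const f
  | cons y ys ih =>
    intro i
    have h := ih (i+1)
    have e : (fun w => TT w i (y :: ys) f) = fun w =>
        w • ((q • LinearMap.id + Finsupp.lmapDomain ℂ ℂ (St.act i) :
          (St →₀ ℂ) →ₗ[ℂ] (St →₀ ℂ)) (TT w (i+1) ys f)) +
        ((-(q^2 * y)) • LinearMap.id + (-y) • Finsupp.lmapDomain ℂ ℂ (St.act i) :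
          (St →₀ ℂ) →ₗ[ℂ] (St →₀ ℂ)) (TT w (i+1) ys f) := by
      funext w
      show O w y i (TT w (i+1) ys f) = _
      rw [O_apply]
      simp only [LinearMap.add_apply, LinearMap.smul_apply, LinearMap.id_apply,
        Finsupp.lmapDomain_apply]
      module
    rw [e]
    exact (h.map _).shift.add ((h.map _).mono (Nat.le_succ _))

theorem sweep (w : ℂ) (v : List ℂ) : ∀ (ys u : List ℂ), Even (u.length + ys.length + 1 + v.length) →
    (ys.map (fun y => q * y - q^2 * w)).prod • Psi (u ++ w :: (ys ++ v)) =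
      TT w u.length ys (Psi (u ++ (ys ++ w :: v))) := by
  intro ys
  induction ys with
  | nil => intro u _; simp [TT]
  | cons y ys ih =>
    intro u hu
    rw [List.length_cons] at hu
    have e1 := Psi_exch u (ys ++ v) y w (by
      rw [List.length_append]
      obtain ⟨n, hn⟩ := hu
      exact ⟨n - 1, by omega⟩)
    have h1 := ih (u ++ [y]) (by
      rw [List.length_append, List.length_singleton]
      obtain ⟨n, hn⟩ := hu
      exact ⟨n, by omega⟩)
    rw [List.length_append, List.length_singleton] at h1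
    have e2 : Psi ((u ++ [y]) ++ w :: (ys ++ v)) = Psi (u ++ y :: w :: (ys ++ v)) := by
      congr 1; simp
    have e3 : Psi ((u ++ [y]) ++ (ys ++ w :: v)) = Psi (u ++ ((y :: ys) ++ w :: v)) := by
      congr 1; simp
    rw [e2, e3] at h1
    show (List.map (fun y => q * y - q^2 * w) (y :: ys)).prod • Psi (u ++ w :: y :: (ys ++ v)) =
      O w y u.length (TT w (u.length + 1) ys (Psi (u ++ ((y :: ys) ++ w :: v))))
    rw [← h1, map_smul, O_apply, ← e1, List.map_cons, List.prod_cons, smul_smul, mul_comm]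

/-! ### continuity -/

theorem bM_cont (A : List ℂ) (k r : ℕ) {l m : ℂ → List ℂ} {N M : ℕ} {t₀ : ℂ} (hl : CL N l t₀)
    (hm : CL M m t₀) : ContinuousAt (fun t => bM A k r (Psi (l t)) (Psi (m t))) t₀ := by
  have e : (fun t => bM A k r (Psi (l t)) (Psi (m t))) = fun t =>
      ∑ w0 ∈ LP M, Fw w0 (m t) * bM A k r (Psi (l t)) (Finsupp.single (Phi (M / 2) w0) 1) := by
    funext t; exact lin_Psi (bM A k r (Psi (l t))) (m t) (hm.1 t)
  rw [e]
  refine tendsto_finsetSum _ (fun w hw => ?_)
  have h := lin_cont ((bM A k r).flip (Finsupp.single (Phi (M / 2) w) 1)) l N hl.1 t₀ hl.2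
  simp only [LinearMap.flip_apply] at h
  exact (fw_cont hw hm).mul h

/-! ### algebra -/

theorem prs_prod' (X : List ℂ) (h : NZ X) : (prs X).prod = 1 := by
  induction X with
  | nil => rfl
  | cons x X ih =>
    rw [prs_cons, List.prod_cons, List.prod_cons, ih (fun z hz => h z (by simp [hz])), mul_one,
      mul_inv_cancel₀ (h x (by simp))]

theorem prs_NZ (X : List ℂ) (h : NZ X) : NZ (prs X) := by
  induction X with
  | nil => intro z hz; simp [prs] at hz
  | cons x X ih =>
    intro z hz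
    rw [prs_cons, List.mem_cons, List.mem_cons] at hz
    rcases hz with h1 | h1 | h1
    · rw [h1]; exact h x (by simp)
    · rw [h1]; exact inv_ne_zero (h x (by simp))
    · exact ih (fun z hz => h z (by simp [hz])) z h1

theorem pom_prs (a : ℂ) (X : List ℂ) : pom a (prs X) = pom a X ^ 2 := by
  induction X with
  | nil => simp [prs, pom]
  | cons x X ih =>
    rw [prs_cons, pom_cons, pom_cons, pom_cons, ih, om_inv]
    ring

theorem prod_prs (X : List ℂ) (h : NZ X) (ζ : ℂ) (hζ : ζ ≠ 0) :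
    ((prs X).map (fun y => q * y - q^2 * (q * ζ))).prod =
      (q * ζ)^X.length * pom (om (q^2 * ζ)) X := by
  induction X with
  | nil => simp [prs, pom]
  | cons x X ih =>
    have hx : x ≠ 0 := h x (by simp)
    rw [prs_cons, List.map_cons, List.map_cons, List.prod_cons, List.prod_cons,
      ih (fun z hz => h z (by simp [hz])), pom_cons, List.length_cons,
      Pool.Agent.NH38.Step.om_q2]
    have h3 := q_cube
    have hq := q_spec
    have e : (q * x - q^2 * (q * ζ)) * (q * x⁻¹ - q^2 * (q * ζ)) =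
        (q * ζ) * (q^2 * ζ + q * ζ⁻¹ - om x) := by
      unfold om
      have h1 : x * x⁻¹ = 1 := mul_inv_cancel₀ hx
      have h2 : ζ * ζ⁻¹ = 1 := mul_inv_cancel₀ hζ
      linear_combination (q^2) * h1 - q^2 * h2 + (q^3 * ζ^2 - (q * x * ζ) - q * x⁻¹ * ζ) * h3
    rw [← mul_assoc, e]
    ring

theorem pom_om_cont (l : List ℂ) (ζ : ℂ) (hζ : ζ ≠ 0) :
    ContinuousAt (fun t => pom (om (q^2 * t)) l) ζ := by
  have hq : q^2 * ζ ≠ 0 := mul_ne_zero (pow_ne_zero _ q_ne_zero) hζ
  have h0 : ContinuousAt (fun t : ℂ => q^2 * t) ζ := (continuous_const.mul continuous_id).continuousAt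
  induction l with
  | nil => simpa [pom] using continuousAt_const
  | cons y l ih =>
    have e : (fun t => pom (om (q^2 * t)) (y :: l)) = fun t =>
        (om (q^2 * t) - om y) * pom (om (q^2 * t)) l := by
      funext t; rw [pom_cons]
    rw [e]
    refine ContinuousAt.mul ?_ ih
    unfold om
    exact (h0.add (h0.inv₀ hq)).sub continuousAt_const

theorem bad_fin (X : List ℂ) (h : NZ X) :
    ({0} ∪ {t : ℂ | t ≠ 0 ∧ pom (om (q^2 * t)) X = 0} : Set ℂ).Finite := by
  refine (Set.finite_singleton 0).union ?_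
  have h1 : {t : ℂ | t ≠ 0 ∧ pom (om (q^2 * t)) X = 0} ⊆
      ((X.toFinset.image fun x => q * x) ∪ (X.toFinset.image fun x => q * x⁻¹) : Finset ℂ) := by
    rintro t ⟨ht, ht2⟩
    unfold pom at ht2
    rw [List.prod_eq_zero_iff, List.mem_map] at ht2
    obtain ⟨x, hx, hx2⟩ := ht2
    have hx0 : x ≠ 0 := h x hx
    have hq2 : q^2 * t ≠ 0 := mul_ne_zero (pow_ne_zero _ q_ne_zero) ht
    have h2 : om (q^2 * t) = om x := by linear_combination hx2
    rw [Pool.Agent.NH38.Step.om_eq_iff hq2 hx0] at h2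
    have h3 := q_cube
    rw [Finset.coe_union, Set.mem_union, Finset.mem_coe, Finset.mem_coe, Finset.mem_image,
      Finset.mem_image]
    rcases h2 with h2 | h2
    · left
      refine ⟨x, List.mem_toFinset.2 hx, ?_⟩
      rw [← h2]; linear_combination t * h3
    · right
      refine ⟨x, List.mem_toFinset.2 hx, ?_⟩
      have : x⁻¹ = q^2 * t := by
        field_simp
        linear_combination -h2
      rw [this]; linear_combination t * h3
  exact (Finset.finite_toSet _).subset h1

/-- the raw form -/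
theorem raw (A X B : List ℂ) (ha : Odd A.length) (hb : Even B.length) (hA : NZ A) (hX : NZ X)
    (hB : NZ B) : ∃ R : ℂ[X], R.natDegree ≤ B.length + 2 * X.length ∧ ∀ ζ : ℂ, ζ ≠ 0 →
      q^X.length * G A ((q * ζ) :: prs X) (ζ :: B) =
        -(ζ^(A.length + X.length + 1) * A.prod * B.prod *
          pom (om (q^2 * ζ)) (A ++ B) * pom (om (q^2 * ζ)) X * R.eval ζ) := by
  set k := X.length with hk
  set r := A.length + (2 * k + 1) + (B.length + 1) with hr
  have hpl : (prs X).length = 2 * k := Pool.Agent.NH38.Step.prs_length X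
  set f0 := Finsupp.mapDomain (St.ins (A ++ prs X).length) (Psi ((A ++ prs X) ++ (B ++ [0]))) with hf0
  have hF := TT_VP f0 (prs X) A.length
  have hH := VP.Psi (B.map (fun x => x⁻¹) ++ [0])
  have hHl : (B.map (fun x => x⁻¹) ++ [0]).length - 1 = B.length := by simp
  rw [hHl] at hH
  rw [hpl] at hF
  obtain ⟨R, hR, hR'⟩ := hF.bil hH (bM A k r)
  refine ⟨R, by omega, fun ζ hζ => ?_⟩
  have hG : ∀ t : ℂ, G A ((q * t) :: prs X) (t :: B) =
      bM A k r (Psi (A ++ (q * t) :: (prs X ++ (t :: (B ++ [0])))))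
        (Psi (t⁻¹ :: (B.map (fun x => x⁻¹) ++ [0]))) := by
    intro t
    rw [Q3.G_eq A (t :: B) (q * t) (prs X) hpl (r := r) (by rw [hpl, List.length_cons])]
    rw [Q3.pL_apply, bM_apply]
    unfold U
    congr 2
    simp
  -- generic values
  have gen : ∀ t : ℂ, t ∉ ({0} ∪ {t : ℂ | t ≠ 0 ∧ pom (om (q^2 * t)) X = 0} : Set ℂ) →
      q^k * G A ((q * t) :: prs X) (t :: B) =
        -(t^(A.length + k + 1) * A.prod * B.prod *
          pom (om (q^2 * t)) (A ++ B) * pom (om (q^2 * t)) X * R.eval t) := by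
    intro t ht
    rw [Set.mem_union, not_or, Set.mem_singleton_iff, Set.mem_ofPred_eq, not_and] at ht
    obtain ⟨ht0, ht1⟩ := ht
    have ht2 := ht1 ht0
    have h3 := q_cube
    have hsw := sweep (q * t) (t :: (B ++ [0])) (prs X) A (by
      rw [hpl]
      simp only [List.length_append, List.length_cons, List.length_nil]
      obtain ⟨n, hn⟩ := ha
      obtain ⟨m, hm⟩ := hb
      exact ⟨n + k + m + 2, by omega⟩)
    have hrec : Psi (A ++ (prs X ++ (q * t) :: t :: (B ++ [0]))) =
        fac (q * t) ((A ++ prs X) ++ (B ++ [0])) • f0 := by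
      have := Psi_rec (A ++ prs X) (B ++ [0]) (q * t) (by
        simp only [List.length_append, List.length_cons, List.length_nil, hpl]
        obtain ⟨n, hn⟩ := ha
        obtain ⟨m, hm⟩ := hb
        exact ⟨n + k + m + 1, by omega⟩)
      rw [← this]
      congr 1
      have e : q^2 * (q * t) = t := by linear_combination t * h3
      rw [e]
      simp
    rw [hrec, map_smul] at hsw
    have h4 := congrArg (fun f => bM A k r f (Psi (t⁻¹ :: (B.map (fun x => x⁻¹) ++ [0])))) hsw
    simp only [map_smul, LinearMap.smul_apply, smul_eq_mul] at h4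
    rw [← hG t, prod_prs X hX t ht0] at h4
    have hR2 := hR' t ht0
    have hfac : fac (q * t) ((A ++ prs X) ++ (B ++ [0])) =
        -(t^(A.length + 2 * k + B.length + 1) * A.prod * B.prod *
          pom (om (q^2 * t)) (A ++ B) * pom (om (q^2 * t)) X ^ 2) := by
      rw [← List.append_assoc, fac_app, fac_zero_right, fac_eq_pom (q * t)
        (mul_ne_zero q_ne_zero ht0) ((A ++ prs X) ++ B) (by
          intro z hz
          rw [List.mem_append, List.mem_append] at hz
          rcases hz with (hz | hz) | hz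
          · exact hA z hz
          · exact prs_NZ X hX z hz
          · exact hB z hz), om_qq, pom_app, pom_app, pom_app, pom_prs, List.prod_append,
        List.prod_append, prs_prod' X hX]
      have e : q^2 * (q * t) = t := by linear_combination t * h3
      have e1 : ((A ++ prs X) ++ B).length = A.length + 2 * k + B.length := by
        simp only [List.length_append, hpl]
      rw [e, e1, pow_succ t (A.length + 2 * k + B.length)]
      linear_combination (-(t^(A.length + 2 * k + B.length)) * (A.prod * 1 * B.prod) *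
        (pom (om (q^2 * t)) A * pom (om (q^2 * t)) X ^ 2 * pom (om (q^2 * t)) B) * t) * h3
    rw [hfac] at h4
    have hne : t^(B.length + k) * pom (om (q^2 * t)) X ≠ 0 := mul_ne_zero (pow_ne_zero _ ht0) ht2
    apply mul_left_cancel₀ hne
    have e5 : t^(A.length + 2 * k + B.length + 1) = t^(A.length + k + 1) * t^k * t^B.length := by
      rw [← pow_add, ← pow_add]; congr 1; ring
    rw [e5] at h4
    rw [mul_pow] at h4
    rw [pow_add t B.length k]
    linear_combination (t^B.length) * h4 - (t^(A.length + k + 1) * t^k * t^B.length * A.prod *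
      B.prod * pom (om (q^2 * t)) (A ++ B) * pom (om (q^2 * t)) X ^ 2) * hR2
  refine eq_of_cont (F := fun t => q^k * G A ((q * t) :: prs X) (t :: B))
    (G := fun t => -(t^(A.length + k + 1) * A.prod * B.prod *
          pom (om (q^2 * t)) (A ++ B) * pom (om (q^2 * t)) X * R.eval t)) ?_ ?_ _ (bad_fin X hX) gen
  · have e : (fun t => q^k * G A ((q * t) :: prs X) (t :: B)) = fun t =>
      q^k * bM A k r (Psi (A ++ (q * t) :: (prs X ++ (t :: (B ++ [0])))))
        (Psi (t⁻¹ :: (B.map (fun x => x⁻¹) ++ [0]))) := by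
      funext t; rw [hG t]
    rw [e]
    have c1 : CL _ (fun t => A ++ (q * t) :: (prs X ++ (t :: (B ++ [0])))) ζ :=
      (CL.const A ζ).append (((CL.const (prs X) ζ).append
        ((CL.const (B ++ [0]) ζ).cons continuousAt_id)).cons
          (continuous_const.mul continuous_id).continuousAt)
    have c2 : CL _ (fun t => t⁻¹ :: (B.map (fun x => x⁻¹) ++ [0])) ζ :=
      (CL.const (B.map (fun x => x⁻¹) ++ [0]) ζ).cons (continuousAt_inv₀ hζ)
    exact continuousAt_const.mul (bM_cont A k r c1 c2)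
  · refine ContinuousAt.neg ?_
    refine ((((continuousAt_id.pow _).mul continuousAt_const).mul continuousAt_const).mul
      (pom_om_cont (A ++ B) ζ hζ)).mul (pom_om_cont X ζ hζ) |>.mul ?_
    exact (Polynomial.continuous R).continuousAt

end Q8

theorem t_bnode : S_bnode := by
  intro A X B ha hb hA hX hB
  obtain ⟨R, hR, hR'⟩ := Q8.raw A X B ha hb hA hX hB
  have hA0 : A.prod ≠ 0 := by
    rw [Ne, List.prod_eq_zero_iff]; exact fun h => hA 0 h rfl
  have hB0 : B.prod ≠ 0 := by
    rw [Ne, List.prod_eq_zero_iff]; exact fun h => hB 0 h rfl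
  obtain ⟨α, hα⟩ := id ha
  obtain ⟨β, hβ⟩ := id hb
  set k := X.length with hk
  set e := ((A.length + (B.length + 1))/2 + k + 1) * ((A.length + (B.length + 1))/2 + k) +
    (((A.length+1)/2) * ((A.length-1)/2) + ((B.length+1+1)/2) * ((B.length+1-1)/2)) with he
  have hq0 := q_ne_zero
  have hE : ∀ ζ : ℂ, cst A (ζ :: B) k (q * ζ) =
      q^(α + β + 1 + k) * ζ^(2 * α + β + 2 + 2 * k) * A.prod^(β + 1 + k) * B.prod^(α + 1 + k) *
        q^e := by
    intro ζ
    unfold cst na
    rw [List.length_cons, List.prod_cons, ← he]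
    have h1 : (A.length + (B.length + 1))/2 = α + β + 1 := by omega
    have h2 : (B.length + 1 + 1)/2 = β + 1 := by omega
    have h3 : (A.length + 1)/2 = α + 1 := by omega
    rw [h1, h2, h3, mul_pow, mul_pow]
    have h4 : ζ^(2 * α + β + 2 + 2 * k) = ζ^(α + β + 1 + k) * ζ^(α + 1 + k) := by
      rw [← pow_add]; congr 1; ring
    rw [h4]
    ring
  refine ⟨C (-(A.prod * B.prod) / (q^k * (q^(α + β + 1 + k) * A.prod^(β + 1 + k) *
    B.prod^(α + 1 + k) * q^e))) * R, (natDegree_C_mul_le _ _).trans hR, fun ζ hζ => ?_⟩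
  have h := hR' ζ hζ
  unfold gh
  rw [eval_mul, eval_C, ← hk, hE ζ]
  have hl : A.length + k + 1 = 2 * α + 2 + k := by omega
  have hb2 : B.length / 2 = β := by omega
  rw [hl] at h
  rw [hb2]
  have h5 : ζ^(2 * α + β + 2 + 2 * k) = ζ^(2 * α + 2 + k) * ζ^(β + k) := by
    rw [← pow_add]; congr 1; ring
  rw [h5]
  have hG : G A ((q * ζ) :: prs X) (ζ :: B) = -(ζ^(2 * α + 2 + k) * A.prod * B.prod *
          pom (om (q^2 * ζ)) (A ++ B) * pom (om (q^2 * ζ)) X * R.eval ζ) / q^k := by
    rw [eq_div_iff (pow_ne_zero _ hq0)]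
    linear_combination h
  rw [hG]
  field_simp

end Pool.Agent.NH38.Fork
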