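import Pool.Agent.NH38.Fork.Stubs5
import Pool.Agent.NH38.Fork.N5

/-!
Forked channels (helper38), task FR-2: Gamma quotients with error terms (helper49).
-/

set_option autoImplicit false

namespace Pool.Agent.NH38.Fork

open Filter Topology

namespace R2

lemma log_bd {y : ℝ} (hy : 0 ≤ y) : |Real.log (1 + y) - y| ≤ y^2 := by
  have h1 : (0:ℝ) < 1 + y := by linarith
  have h2 := Real.log_le_sub_one_of_pos h1
  have h3 := Real.one_sub_inv_le_log_of_pos h1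
  have h4 : y - y^2 ≤ 1 - (1+y)⁻¹ := by
    rw [← sub_nonneg]
    have : 1 - (1+y)⁻¹ - (y - y^2) = y^3/(1+y) := by field_simp; ring
    rw [this]; positivity
  have h5 : 0 ≤ y^2 := sq_nonneg y
  rw [abs_le]
  constructor <;> linarith

/-- the normalised ratio -/
noncomputable def rn (s t : ℝ) (n : ℕ) : ℝ := N5.Rat s t n * (n:ℝ)^(t - s)

lemma Rat_pos {s t : ℝ} (hs : 0 < s) (ht : 0 < t) (n : ℕ) : 0 < N5.Rat s t n := by
  unfold N5.Rat
  exact Finset.prod_pos fun i _ => by positivity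

lemma rn_pos {s t : ℝ} (hs : 0 < s) (ht : 0 < t) {n : ℕ} (hn : 1 ≤ n) : 0 < rn s t n := by
  have hn0 : (0:ℝ) < n := by exact_mod_cast hn
  exact mul_pos (Rat_pos hs ht n) (Real.rpow_pos_of_pos hn0 _)

lemma log_step {s t : ℝ} (hs : 0 < s) (ht : 0 < t) {n : ℕ} (hn : 1 ≤ n) :
    |Real.log (rn s t (n+1)) - Real.log (rn s t n)| ≤ (s^2 + t^2 + |t - s|) / (n:ℝ)^2 := by
  have hn0 : (0:ℝ) < n := by exact_mod_cast hn
  have hR := rn_pos hs ht hn
  have e1 : rn s t (n+1) = rn s t n * ((1 + s/n) / (1 + t/n)) * (1 + 1/(n:ℝ))^(t - s) := by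
    unfold rn N5.Rat
    rw [Finset.prod_range_succ]
    have h1 : (((n+1 : ℕ)) : ℝ) = n * (1 + 1/n) := by push_cast; field_simp
    rw [h1, Real.mul_rpow hn0.le (by positivity)]
    have h2 : ((n:ℝ) + s) / (n + t) = (1 + s/n) / (1 + t/n) := by field_simp
    rw [h2]; ring
  have p1 : (0:ℝ) < 1 + s/n := by positivity
  have p2 : (0:ℝ) < 1 + t/n := by positivity
  have p3 : (0:ℝ) < 1 + 1/(n:ℝ) := by positivity
  rw [e1, Real.log_mul (by positivity) (by positivity), Real.log_mul (by positivity) (by positivity),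
    Real.log_div p1.ne' p2.ne', Real.log_rpow p3]
  have a1 := log_bd (y := s/n) (by positivity)
  have a2 := log_bd (y := t/n) (by positivity)
  have a3 := log_bd (y := 1/n) (by positivity)
  have e2 : Real.log (rn s t n) + (Real.log (1 + s/n) - Real.log (1+t/n)) +
      (t-s) * Real.log (1+1/n) - Real.log (rn s t n) = (Real.log (1+s/n) - s/n) -
      (Real.log (1+t/n) - t/n) + (t-s) * (Real.log (1+1/n) - 1/n) := by
    field_simp; ring
  rw [e2]
  have b1 := abs_add_le ((Real.log (1+s/n) - s/n) - (Real.log (1+t/n) - t/n))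
    ((t-s) * (Real.log (1+1/n) - 1/n))
  have b2 := abs_sub (Real.log (1+s/n) - s/n) (Real.log (1+t/n) - t/n)
  have b3 : |(t-s) * (Real.log (1+1/n) - 1/n)| ≤ |t - s| * (1/n)^2 := by
    rw [abs_mul]
    exact mul_le_mul_of_nonneg_left a3 (abs_nonneg _)
  have e3 : (s^2 + t^2 + |t - s|) / (n:ℝ)^2 = (s/n)^2 + (t/n)^2 + |t - s| * (1/n)^2 := by
    field_simp
  rw [e3]
  linarith

lemma log_tel {s t : ℝ} (hs : 0 < s) (ht : 0 < t) {n : ℕ} (hn : 1 ≤ n) (m : ℕ) (hm : n ≤ m) :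
    |Real.log (rn s t m) - Real.log (rn s t n)| ≤
      2 * (s^2 + t^2 + |t - s|) * (1/(n:ℝ) - 1/m) := by
  induction m, hm using Nat.le_induction with
  | base => simp
  | succ m hm ih =>
    have h1 := log_step hs ht (hn.trans hm)
    have hm0 : (1:ℝ) ≤ m := by exact_mod_cast (hn.trans hm)
    have h2 : (s^2 + t^2 + |t - s|) / (m:ℝ)^2 ≤
        2 * (s^2 + t^2 + |t - s|) * (1/(m:ℝ) - 1/(m+1 : ℕ)) := by
      have h3 : 1 / (m:ℝ)^2 ≤ 2 * (1/(m:ℝ) - 1/(m+1 : ℕ)) := by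
        have e : 2 * (1/(m:ℝ) - 1/(m+1 : ℕ)) = 2 / ((m:ℝ) * (m+1)) := by
          push_cast; field_simp; ring
        rw [e, div_le_div_iff₀ (by positivity) (by positivity)]
        nlinarith
      have h4 : 0 ≤ s^2 + t^2 + |t - s| := by positivity
      calc (s^2 + t^2 + |t - s|) / (m:ℝ)^2 = (s^2 + t^2 + |t - s|) * (1 / (m:ℝ)^2) := by ring
        _ ≤ (s^2 + t^2 + |t - s|) * (2 * (1/(m:ℝ) - 1/(m+1 : ℕ))) :=
          mul_le_mul_of_nonneg_left h3 h4
        _ = _ := by ring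
    have h5 := abs_add_le (Real.log (rn s t (m+1)) - Real.log (rn s t m))
      (Real.log (rn s t m) - Real.log (rn s t n))
    rw [sub_add_sub_cancel] at h5
    calc |Real.log (rn s t (m+1)) - Real.log (rn s t n)| ≤ _ := h5
      _ ≤ 2 * (s^2 + t^2 + |t - s|) * (1/(m:ℝ) - 1/(m+1 : ℕ)) +
          2 * (s^2 + t^2 + |t - s|) * (1/(n:ℝ) - 1/m) := add_le_add (h1.trans h2) ih
      _ = _ := by ring

lemma exp_bd (u : ℝ) : |Real.exp u - 1| ≤ |u| * Real.exp |u| := by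
  have h1 := Real.add_one_le_exp (-u)
  have h2 := Real.add_one_le_exp u
  have h3 : Real.exp u - 1 ≤ u * Real.exp u := by
    have h4 := mul_le_mul_of_nonneg_right h1 (Real.exp_pos u).le
    rw [← Real.exp_add, neg_add_cancel, Real.exp_zero] at h4
    nlinarith
  have h5 : Real.exp u ≤ Real.exp |u| := Real.exp_le_exp.mpr (le_abs_self u)
  have h6 : 1 ≤ Real.exp |u| := Real.one_le_exp (abs_nonneg u)
  have h7 : u * Real.exp u ≤ |u| * Real.exp |u| :=
    (mul_le_mul_of_nonneg_right (le_abs_self u) (Real.exp_pos u).le).trans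
      (mul_le_mul_of_nonneg_left h5 (abs_nonneg u))
  have h8 : |u| ≤ |u| * Real.exp |u| := by nlinarith [abs_nonneg u]
  have h9 := neg_abs_le u
  rw [abs_le]
  constructor <;> linarith

theorem rn_bd {s t : ℝ} (hs : 0 < s) (ht : 0 < t) : ∃ C : ℝ, 0 ≤ C ∧ ∀ n : ℕ, 1 ≤ n →
    |rn s t n - Real.Gamma t / Real.Gamma s| ≤ C / n := by
  have hc : 0 < Real.Gamma t / Real.Gamma s :=
    div_pos (Real.Gamma_pos_of_pos ht) (Real.Gamma_pos_of_pos hs)
  set c := Real.Gamma t / Real.Gamma s with hcd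
  set M := s^2 + t^2 + |t - s| with hM
  have hM0 : 0 ≤ M := by positivity
  refine ⟨c * (2 * M * Real.exp (2 * M)), by positivity, fun n hn => ?_⟩
  have hn0 : (1:ℝ) ≤ n := by exact_mod_cast hn
  have hr := rn_pos hs ht hn
  have hlim : Tendsto (fun m : ℕ => Real.log (rn s t m)) atTop (𝓝 (Real.log c)) :=
    (N5.Rat_tendsto hs ht).log hc.ne'
  have h1 : |Real.log c - Real.log (rn s t n)| ≤ 2 * M / n := by
    refine le_of_tendsto (hlim.sub_const _).abs ?_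
    filter_upwards [eventually_ge_atTop n] with m hm
    have h2 := log_tel hs ht hn m hm
    have hm0 : (0:ℝ) ≤ 1/m := by positivity
    calc _ ≤ 2 * M * (1/(n:ℝ) - 1/m) := h2
      _ ≤ 2 * M * (1/(n:ℝ)) := mul_le_mul_of_nonneg_left (by linarith) (by positivity)
      _ = 2 * M / n := by ring
  set u := Real.log (rn s t n) - Real.log c with hu
  have h3 : |u| ≤ 2 * M / n := by rw [hu, abs_sub_comm]; exact h1
  have h4 : rn s t n = c * Real.exp u := by
    rw [hu, Real.exp_sub, Real.exp_log hr, Real.exp_log hc]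
    field_simp
  have h5 : rn s t n - c = c * (Real.exp u - 1) := by rw [h4]; ring
  have h6 : |u| ≤ 2 * M := h3.trans (div_le_self (by positivity) hn0)
  rw [h5, abs_mul, abs_of_pos hc]
  calc c * |Real.exp u - 1| ≤ c * (|u| * Real.exp |u|) :=
        mul_le_mul_of_nonneg_left (exp_bd u) hc.le
    _ ≤ c * (2 * M / n * Real.exp (2 * M)) := by
        refine mul_le_mul_of_nonneg_left ?_ hc.le
        exact mul_le_mul h3 (Real.exp_le_exp.mpr h6) (Real.exp_pos _).le (by positivity)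
    _ = _ := by ring

end R2

theorem t_KE : S_KE := by
  obtain ⟨C, hC, h⟩ := R2.rn_bd (s := 4/3) (t := 2/3) (by norm_num) (by norm_num)
  refine ⟨C, fun n hn => ?_⟩
  have hn0 : (0:ℝ) < n := by exact_mod_cast hn
  have h1 := h n hn
  have hp : (0:ℝ) < (n:ℝ)^((2:ℝ)/3) := Real.rpow_pos_of_pos hn0 _
  have e1 : ((kap n : ℚ) : ℝ) = R2.rn (4/3) (2/3) n * (n:ℝ)^((2:ℝ)/3) := by
    rw [N5.kap_eq, R2.rn, mul_assoc, ← Real.rpow_add hn0]
    norm_num
  have e2 : ((kap n : ℚ) : ℝ) - cK * (n:ℝ)^((2:ℝ)/3) =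
      (R2.rn (4/3) (2/3) n - Real.Gamma (2/3) / Real.Gamma (4/3)) * (n:ℝ)^((2:ℝ)/3) := by
    rw [e1]; unfold cK; ring
  rw [e2, abs_mul, abs_of_pos hp]
  calc _ ≤ C / n * (n:ℝ)^((2:ℝ)/3) := mul_le_mul_of_nonneg_right h1 hp.le
    _ = _ := by ring

theorem t_ME : S_ME := by
  obtain ⟨C1, hC1, h1⟩ := R2.rn_bd (s := 1/2) (t := 5/6) (by norm_num) (by norm_num)
  obtain ⟨C2, hC2, h2⟩ := R2.rn_bd (s := 5/3) (t := 2) (by norm_num) (by norm_num)
  set c1 := Real.Gamma (5/6) / Real.Gamma (1/2) with hc1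
  set c2 := Real.Gamma 2 / Real.Gamma (5/3) with hc2
  have p2 : 0 < Real.Gamma (2/3) := Real.Gamma_pos_of_pos (by norm_num)
  have p3 : 0 < Real.Gamma (1/2) := Real.Gamma_pos_of_pos (by norm_num)
  have p4 : 0 < Real.Gamma (5/6) := Real.Gamma_pos_of_pos (by norm_num)
  have p5 : 0 < Real.Gamma (5/3) := Real.Gamma_pos_of_pos (by norm_num)
  have g2 : Real.Gamma (5/3) = 2/3 * Real.Gamma (2/3) := by
    have := Real.Gamma_add_one (s := 2/3) (by norm_num)
    rw [← this]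
    norm_num
  have hM : cM = 2/3 * (c1 * c2) := by
    unfold cM
    rw [hc1, hc2, g2, Real.Gamma_two]
    field_simp
  have q1 : 0 < c1 := div_pos p4 p3
  have q2 : 0 < c2 := by rw [hc2, Real.Gamma_two]; positivity
  refine ⟨2/3 * (C1 * (c2 + C2) + c1 * C2), fun n hn => ?_⟩
  have hn0 : (0:ℝ) < n := by exact_mod_cast hn
  have hn1 : (1:ℝ) ≤ n := by exact_mod_cast hn
  have hp : (0:ℝ) < (n:ℝ)^(-(2:ℝ)/3) := Real.rpow_pos_of_pos hn0 _
  have e1 : ((M0 n : ℚ) : ℝ) = 2/3 * (R2.rn (1/2) (5/6) n * R2.rn (5/3) 2 n) *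
      (n:ℝ)^(-(2:ℝ)/3) := by
    rw [N5.M0_eq, R2.rn, R2.rn]
    have e2 : (n:ℝ)^((5:ℝ)/6 - 1/2) * (n:ℝ)^((2:ℝ) - 5/3) * (n:ℝ)^(-(2:ℝ)/3) = 1 := by
      rw [← Real.rpow_add hn0, ← Real.rpow_add hn0]
      norm_num
    linear_combination (- (2/3 * (N5.Rat (1/2) (5/6) n * N5.Rat (5/3) 2 n))) * e2
  have a1 := h1 n hn
  have a2 := h2 n hn
  set r1 := R2.rn (1/2) (5/6) n
  set r2 := R2.rn (5/3) 2 n
  have b2 : |r2| ≤ c2 + C2 := by
    have h3 : |r2 - c2| ≤ C2 := a2.trans (div_le_self hC2 hn1)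
    have h4 := abs_add_le (r2 - c2) c2
    rw [sub_add_cancel, abs_of_pos q2] at h4
    linarith
  have e3 : ((M0 n : ℚ) : ℝ) - cM * (n:ℝ)^(-(2:ℝ)/3) =
      2/3 * ((r1 - c1) * r2 + c1 * (r2 - c2)) * (n:ℝ)^(-(2:ℝ)/3) := by
    rw [e1, hM]; ring
  rw [e3, abs_mul, abs_of_pos hp]
  have b3 : |2/3 * ((r1 - c1) * r2 + c1 * (r2 - c2))| ≤
      2/3 * (C1 * (c2 + C2) + c1 * C2) / n := by
    rw [abs_mul, abs_of_pos (by norm_num : (0:ℝ) < 2/3)]
    have h4 := abs_add_le ((r1 - c1) * r2) (c1 * (r2 - c2))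
    rw [abs_mul, abs_mul, abs_of_pos q1] at h4
    have h5 : |r1 - c1| * |r2| ≤ C1 / n * (c2 + C2) :=
      mul_le_mul a1 b2 (abs_nonneg _) (by positivity)
    have h6 : c1 * |r2 - c2| ≤ c1 * (C2 / n) := mul_le_mul_of_nonneg_left a2 q1.le
    calc _ ≤ 2/3 * (C1 / n * (c2 + C2) + c1 * (C2 / n)) := by linarith
      _ = _ := by ring
  calc _ ≤ 2/3 * (C1 * (c2 + C2) + c1 * C2) / n * (n:ℝ)^(-(2:ℝ)/3) :=
        mul_le_mul_of_nonneg_right b3 hp.le
    _ = _ := by ring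

theorem cKM : cK * cM = 3 / Bt := by
  have g1 : Real.Gamma (4/3) = 1/3 * Real.Gamma (1/3) := by
    have := Real.Gamma_add_one (s := 1/3) (by norm_num)
    rw [← this]
    norm_num
  have p1 : 0 < Real.Gamma (1/3) := Real.Gamma_pos_of_pos (by norm_num)
  have p2 : 0 < Real.Gamma (2/3) := Real.Gamma_pos_of_pos (by norm_num)
  have p3 : 0 < Real.Gamma (1/2) := Real.Gamma_pos_of_pos (by norm_num)
  have p4 : 0 < Real.Gamma (5/6) := Real.Gamma_pos_of_pos (by norm_num)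
  unfold cK cM
  rw [N5.Bt_eq, g1]
  field_simp

end Pool.Agent.NH38.Fork
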