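import Pool.Agent.NH38.Fork.Stubs5
import Pool.Agent.NH38.Fork.NG2

/-!
Forked channels (helper38), task FR-3: coefficients of `sv`, `vv` with error terms (helper49).
The triangular system of `NG2` is inverted explicitly.
-/

set_option autoImplicit false

namespace Pool.Agent.NH38.Fork

open Finset

namespace R3

/-! ### the inverse of the triangular system -/

/-- `(1 + X)^(-m-1)` -/
noncomputable def G (m : ℕ) : PowerSeries ℚ :=
  PowerSeries.mk fun r => (-1)^r * (Nat.choose (m+r) r : ℚ)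

lemma G_coeff (m r : ℕ) : (PowerSeries.coeff r) (G m) = (-1)^r * (Nat.choose (m+r) r : ℚ) := by
  unfold G
  rw [PowerSeries.coeff_mk]

lemma G_succ (m : ℕ) : (1 + PowerSeries.X) * G (m+1) = G m := by
  ext r
  rw [add_mul, one_mul, map_add]
  rcases r with _ | r
  · rw [PowerSeries.coeff_zero_X_mul, G_coeff, G_coeff]
    simp
  · rw [PowerSeries.coeff_succ_X_mul, G_coeff, G_coeff, G_coeff]
    have h := Nat.choose_succ_succ (m+1+r) r
    rw [show m + 1 + (r+1) = (m+1+r).succ by omega, h, show m + (r+1) = m + 1 + r by omega]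
    push_cast
    ring

lemma G_pow (i m : ℕ) : (1 + PowerSeries.X)^i * G (m+i) = G m := by
  induction i with
  | zero => simp
  | succ i ih =>
    rw [pow_succ, mul_assoc, show m + (i+1) = (m+i)+1 by omega, G_succ, ih]

lemma cen (m : ℕ) : (PowerSeries.coeff (m+1)) ((1 + 2 * PowerSeries.X) * G (m+1)) = 0 := by
  have e : (1 + 2 * PowerSeries.X) * G (m+1) = G (m+1) + PowerSeries.C (2:ℚ) *
      (PowerSeries.X * G (m+1)) := by
    have : (PowerSeries.C (2:ℚ)) = 2 := map_ofNat PowerSeries.C 2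
    rw [this]; ring
  rw [e, map_add, PowerSeries.coeff_C_mul, PowerSeries.coeff_succ_X_mul, G_coeff, G_coeff]
  have h := Nat.choose_succ_succ (2*m+1) m
  have h2 := Nat.choose_symm_half m
  rw [show m + 1 + (m+1) = (2*m+1).succ by omega, h, show m + 1 + m = 2*m+1 by omega, h2]
  push_cast
  ring

lemma wt_coe (i j : ℕ) : NG2.wt i j = (PowerSeries.coeff j) (((((1 + 2 * Polynomial.X : Polynomial ℚ) *
    (4 * Polynomial.X * (1 + Polynomial.X))^i) : Polynomial ℚ) : PowerSeries ℚ)) := by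
  rw [Polynomial.coeff_coe]
  rfl

lemma dual (l i : ℕ) (hi : i ≤ l) : ∑ k ∈ range (l+1), (-1)^k * (Nat.choose (l+k) k : ℚ) *
    NG2.wt i (l-k) = if i = l then 4^l else 0 := by
  obtain ⟨m, rfl⟩ : ∃ m, l = m + i := ⟨l - i, by omega⟩
  have h1 : ∑ k ∈ range (m+i+1), (-1)^k * (Nat.choose (m+i+k) k : ℚ) * NG2.wt i (m+i-k) =
      (PowerSeries.coeff (m+i)) (G (m+i) * ((((1 + 2 * Polynomial.X : Polynomial ℚ) *
        (4 * Polynomial.X * (1 + Polynomial.X))^i) : Polynomial ℚ) : PowerSeries ℚ)) := by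
    rw [PowerSeries.coeff_mul, Finset.Nat.sum_antidiagonal_eq_sum_range_succ (fun a b =>
      (PowerSeries.coeff a) (G (m+i)) * (PowerSeries.coeff b) ((((1 + 2 * Polynomial.X :
        Polynomial ℚ) * (4 * Polynomial.X * (1 + Polynomial.X))^i) : Polynomial ℚ) :
          PowerSeries ℚ))]
    refine sum_congr rfl fun k _ => ?_
    rw [G_coeff, wt_coe]
  have h2 : G (m+i) * ((((1 + 2 * Polynomial.X : Polynomial ℚ) *
        (4 * Polynomial.X * (1 + Polynomial.X))^i) : Polynomial ℚ) : PowerSeries ℚ) =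
      PowerSeries.X^i * (PowerSeries.C ((4:ℚ)^i) * ((1 + 2 * PowerSeries.X) * G m)) := by
    have h4 : (PowerSeries.C ((4:ℚ)^i)) = 4^i := by
      rw [map_pow, map_ofNat PowerSeries.C 4]
    rw [h4, ← G_pow i m]
    have c4 : (((4 : Polynomial ℚ)) : PowerSeries ℚ) = 4 := by
      have e : (4 : Polynomial ℚ) = Polynomial.C 4 := (map_ofNat Polynomial.C 4).symm
      rw [e, Polynomial.coe_C, map_ofNat PowerSeries.C 4]
    have c2 : (((2 : Polynomial ℚ)) : PowerSeries ℚ) = 2 := by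
      have e : (2 : Polynomial ℚ) = Polynomial.C 2 := (map_ofNat Polynomial.C 2).symm
      rw [e, Polynomial.coe_C, map_ofNat PowerSeries.C 2]
    rw [Polynomial.coe_mul, Polynomial.coe_pow, Polynomial.coe_add, Polynomial.coe_mul,
      Polynomial.coe_mul, Polynomial.coe_mul, Polynomial.coe_add, Polynomial.coe_X,
      Polynomial.coe_one, c4, c2]
    rw [mul_pow, mul_pow]
    ring
  rw [h1, h2, show m + i = i + m by omega]
  rw [show i + m = m + i by omega, PowerSeries.coeff_X_pow_mul, PowerSeries.coeff_C_mul]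
  rcases m with _ | m
  · rw [if_pos (by omega)]
    have : (PowerSeries.coeff 0) ((1 + 2 * PowerSeries.X) * G 0) = 1 := by
      rw [PowerSeries.coeff_mul]
      simp [G_coeff, PowerSeries.coeff_zero_eq_constantCoeff_apply]
    rw [this]
    simp
  · rw [if_neg (by omega), cen, mul_zero]

lemma inv (v R : ℕ → ℚ) (h : ∀ j, ∑ i ∈ range (j+1), v i * NG2.wt i j = R j) (l : ℕ) :
    4^l * v l = ∑ k ∈ range (l+1), (-1)^k * (Nat.choose (l+k) k : ℚ) * R (l-k) := by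
  have h1 : ∀ k ∈ range (l+1), (-1)^k * (Nat.choose (l+k) k : ℚ) * R (l-k) =
      ∑ i ∈ range (l+1), v i * ((-1)^k * (Nat.choose (l+k) k : ℚ) * NG2.wt i (l-k)) := by
    intro k _
    rw [← h (l-k), mul_sum]
    have e : ∀ i, (-1)^k * (Nat.choose (l+k) k : ℚ) * (v i * NG2.wt i (l-k)) =
      v i * ((-1)^k * (Nat.choose (l+k) k : ℚ) * NG2.wt i (l-k)) := fun i => by ring
    rw [sum_congr rfl fun i _ => e i]
    apply sum_subset
    · intro i hi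
      rw [mem_range] at *
      omega
    · intro i _ hi
      rw [mem_range] at hi
      rw [NG2.wt_zero (by omega)]
      ring
  rw [sum_congr rfl h1, sum_comm]
  have h2 : ∀ i ∈ range (l+1), ∑ k ∈ range (l+1), v i * ((-1)^k * (Nat.choose (l+k) k : ℚ) *
      NG2.wt i (l-k)) = v i * if i = l then 4^l else 0 := by
    intro i hi
    rw [← mul_sum, dual l i (by rw [mem_range] at hi; omega)]
  rw [sum_congr rfl h2]
  simp
  ring

/-! ### bounds -/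

lemma choose_bd (l k : ℕ) : (Nat.choose (l+k) k : ℚ) ≤ ((l:ℚ)+1)^k := by
  induction k with
  | zero => simp
  | succ k ih =>
    have h := Nat.add_one_mul_choose_eq (l+k) k
    have h1 : (((l+k+1 : ℕ)) : ℚ) * (Nat.choose (l+k) k : ℚ) =
        (Nat.choose (l+k+1) (k+1) : ℚ) * ((k+1 : ℕ) : ℚ) := by exact_mod_cast h
    have hk : (0:ℚ) < ((k+1 : ℕ) : ℚ) := by positivity
    have h2 : (Nat.choose (l+k+1) (k+1) : ℚ) = (((l+k+1 : ℕ)) : ℚ) / ((k+1 : ℕ) : ℚ) *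
        (Nat.choose (l+k) k : ℚ) := by
      field_simp
      linarith
    have h3 : (((l+k+1 : ℕ)) : ℚ) / ((k+1 : ℕ) : ℚ) ≤ (l:ℚ) + 1 := by
      rw [div_le_iff₀ hk]
      push_cast
      nlinarith [mul_nonneg (Nat.cast_nonneg (α := ℚ) l) (Nat.cast_nonneg (α := ℚ) k)]
    rw [show l + (k+1) = l+k+1 by omega, h2, pow_succ, mul_comm (((l:ℚ)+1)^k)]
    exact mul_le_mul h3 ih (by positivity) (by positivity)

lemma geo {y : ℚ} (hy : 0 ≤ y) (hy2 : y ≤ 1/2) (l : ℕ) : ∑ k ∈ range l, y^k ≤ 2 := by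
  induction l with
  | zero => simp
  | succ l ih =>
    rw [sum_range_succ']
    have : ∑ k ∈ range l, y^(k+1) = y * ∑ k ∈ range l, y^k := by
      rw [mul_sum]
      exact sum_congr rfl fun k _ => by ring
    rw [this, pow_zero]
    nlinarith

lemma Dn_pos {c : ℚ} (hc : 0 < c) (j : ℕ) : 0 < NG2.Dn c j := by
  unfold NG2.Dn
  exact prod_pos fun i _ => by positivity

section
variable {n l : ℕ} (hln : (l+1)^2 ≤ n)
include hln

lemma cast_ln : ((l:ℚ)+1)^2 ≤ n := by exact_mod_cast hln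

lemma n_pos : (0:ℚ) < n := lt_of_lt_of_le (by positivity) (cast_ln hln)

lemma fac {j : ℕ} (hj : j < l) : (n:ℚ)^2 ≤ ((n:ℚ) - j) * (n + 1 + j) ∧
    ((n:ℚ) - j) * (n + 1 + j) ≤ (n:ℚ)^2 + n := by
  have h1 := cast_ln hln
  have h2 : (j:ℚ) + 1 ≤ l := by exact_mod_cast hj
  have h3 : (0:ℚ) ≤ j := by positivity
  constructor <;> nlinarith

lemma E_bd {j : ℕ} (hj : j ≤ l) : (n:ℚ)^(2*j) ≤ NG2.E n j ∧
    NG2.E n j ≤ (1 + 2*j/n) * (n:ℚ)^(2*j) := by
  have hn := n_pos hln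
  induction j with
  | zero => simp [NG2.E_zero]
  | succ j ih =>
    obtain ⟨i1, i2⟩ := ih (by omega)
    obtain ⟨f1, f2⟩ := fac hln (show j < l by omega)
    rw [NG2.E_succ]
    have hp : (0:ℚ) < (n:ℚ)^(2*j) := by positivity
    have hE : 0 < NG2.E n j := lt_of_lt_of_le hp i1
    have hf : (0:ℚ) ≤ ((n:ℚ) - j) * (n + 1 + j) := le_trans (by positivity) f1
    constructor
    · calc (n:ℚ)^(2*(j+1)) = (n:ℚ)^(2*j) * (n:ℚ)^2 := by ring
        _ ≤ _ := mul_le_mul i1 f1 (by positivity) hE.le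
    · have h1 := cast_ln hln
      have h2 : (j:ℚ) + 1 ≤ l := by exact_mod_cast hj
      have h4 : (2:ℚ) * j ≤ n := by nlinarith
      have h3 : (1 + 2*(j:ℚ)/n) * ((n:ℚ)^2 + n) ≤ (1 + 2*((j+1 : ℕ):ℚ)/n) * (n:ℚ)^2 := by
        have e1 : (1 + 2*(j:ℚ)/n) * ((n:ℚ)^2 + n) = (n:ℚ)^2 + n + 2*j*n + 2*j := by
          field_simp
          ring
        have e2 : (1 + 2*((j+1 : ℕ):ℚ)/n) * (n:ℚ)^2 = (n:ℚ)^2 + 2*j*n + 2*n := by
          push_cast
          field_simp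
          ring
        rw [e1, e2]
        linarith
      calc NG2.E n j * (((n:ℚ) - j) * (n + 1 + j))
          ≤ ((1 + 2*j/n) * (n:ℚ)^(2*j)) * ((n:ℚ)^2 + n) :=
            mul_le_mul i2 f2 hf (by positivity)
        _ = (n:ℚ)^(2*j) * ((1 + 2*(j:ℚ)/n) * ((n:ℚ)^2 + n)) := by ring
        _ ≤ (n:ℚ)^(2*j) * ((1 + 2*((j+1 : ℕ):ℚ)/n) * (n:ℚ)^2) :=
            mul_le_mul_of_nonneg_left h3 hp.le
        _ = _ := by ring

/-- one step down -/
lemma step {c : ℚ} (hc : 0 < c) (hc2 : c ≤ 4/3) {j : ℕ} (hj : j < l) :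
    NG2.E n j * NG2.Dn c j ≤ (((l:ℚ)+1)^2/(n:ℚ)^2) * (NG2.E n (j+1) * NG2.Dn c (j+1)) := by
  have hn := n_pos hln
  obtain ⟨f1, f2⟩ := fac hln hj
  have hE : 0 < NG2.E n j := lt_of_lt_of_le (by positivity) (E_bd hln (show j ≤ l by omega)).1
  have hD := Dn_pos hc j
  have h2 : (j:ℚ) + 1 ≤ l := by exact_mod_cast hj
  rw [NG2.E_succ, NG2.Dn_succ]
  have e : ((l:ℚ)+1)^2/(n:ℚ)^2 * (NG2.E n j * (((n:ℚ) - j) * (n + 1 + j)) *
      (NG2.Dn c j * (1 / ((c + j) * (1 + j))))) = (NG2.E n j * NG2.Dn c j) *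
      ((((l:ℚ)+1)^2 / ((c + j) * (1 + j))) * ((((n:ℚ) - j) * (n + 1 + j)) / (n:ℚ)^2)) := by
    ring
  rw [e]
  have h3 : 1 ≤ ((l:ℚ)+1)^2 / ((c + j) * (1 + j)) := by
    rw [le_div_iff₀ (by positivity), one_mul, sq]
    exact mul_le_mul (by linarith) (by linarith) (by positivity) (by positivity)
  have h4 : 1 ≤ (((n:ℚ) - j) * (n + 1 + j)) / (n:ℚ)^2 := by
    rw [le_div_iff₀ (by positivity), one_mul]
    exact f1
  have h5 : 1 ≤ (((l:ℚ)+1)^2 / ((c + j) * (1 + j))) * ((((n:ℚ) - j) * (n + 1 + j)) / (n:ℚ)^2) :=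
    one_le_mul_of_one_le_of_one_le h3 h4
  exact le_mul_of_one_le_right (by positivity) h5

lemma down {c : ℚ} (hc : 0 < c) (hc2 : c ≤ 4/3) (k : ℕ) (hk : k ≤ l) :
    NG2.E n (l-k) * NG2.Dn c (l-k) ≤ (((l:ℚ)+1)^2/(n:ℚ)^2)^k * (NG2.E n l * NG2.Dn c l) := by
  induction k with
  | zero => simp
  | succ k ih =>
    have h1 := step hln hc hc2 (show l - (k+1) < l by omega)
    rw [show l - (k+1) + 1 = l - k by omega] at h1
    have hx : (0:ℚ) ≤ ((l:ℚ)+1)^2/(n:ℚ)^2 := by positivity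
    calc _ ≤ _ := h1
      _ ≤ (((l:ℚ)+1)^2/(n:ℚ)^2) * ((((l:ℚ)+1)^2/(n:ℚ)^2)^k * (NG2.E n l * NG2.Dn c l)) :=
        mul_le_mul_of_nonneg_left (ih (by omega)) hx
      _ = _ := by ring

lemma Epos {j : ℕ} (hj : j ≤ l) : 0 < NG2.E n j :=
  lt_of_lt_of_le (pow_pos (n_pos hln) _) (E_bd hln hj).1

lemma y_bd : ((l:ℚ)+1) * (((l:ℚ)+1)^2/(n:ℚ)^2) ≤ ((l:ℚ)+1)/n := by
  have hn := n_pos hln
  have h := cast_ln hln
  have e : ((l:ℚ)+1) * (((l:ℚ)+1)^2/(n:ℚ)^2) = ((l:ℚ)+1)/n * (((l:ℚ)+1)^2 / n) := by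
    field_simp
  rw [e]
  refine mul_le_of_le_one_right (by positivity) ?_
  rw [div_le_one hn]
  exact h

lemma y_half (hl : 1 ≤ l) : ((l:ℚ)+1)/n ≤ 1/2 := by
  have hn := n_pos hln
  have h := cast_ln hln
  have h1 : (1:ℚ) ≤ l := by exact_mod_cast hl
  rw [div_le_div_iff₀ hn (by norm_num)]
  nlinarith

lemma term {c : ℚ} (hc : 0 < c) (hc2 : c ≤ 4/3) (k : ℕ) (hk : k ≤ l) :
    |(-1)^k * (Nat.choose (l+k) k : ℚ) * (NG2.E n (l-k) * NG2.Dn c (l-k))| ≤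
      (((l:ℚ)+1) * (((l:ℚ)+1)^2/(n:ℚ)^2))^k * (NG2.E n l * NG2.Dn c l) := by
  rw [abs_mul, abs_mul, abs_pow, abs_neg, abs_one, one_pow, one_mul, Nat.abs_cast,
    abs_of_pos (mul_pos (Epos hln (by omega)) (Dn_pos hc _)), mul_pow, mul_assoc]
  exact mul_le_mul (choose_bd l k) (down hln hc hc2 k hk)
    (mul_pos (Epos hln (by omega)) (Dn_pos hc _)).le (by positivity)

lemma F_bd {c : ℚ} (hc : 0 < c) :
    |NG2.E n l * NG2.Dn c l - (n:ℚ)^(2*l) * NG2.Dn c l| ≤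
      2 * ((l:ℚ)+1) / n * ((n:ℚ)^(2*l) * NG2.Dn c l) ∧
    NG2.E n l * NG2.Dn c l ≤ 3 * ((n:ℚ)^(2*l) * NG2.Dn c l) := by
  have hn := n_pos hln
  have hD := Dn_pos hc l
  obtain ⟨e1, e2⟩ := E_bd hln le_rfl
  have h := cast_ln hln
  have hl0 : (0:ℚ) ≤ l := by positivity
  have hln1 : (l:ℚ) ≤ n := by nlinarith
  have hp : (0:ℚ) < (n:ℚ)^(2*l) := by positivity
  constructor
  · rw [← sub_mul, abs_mul, abs_of_pos hD, abs_of_nonneg (by linarith), ← mul_assoc]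
    refine mul_le_mul_of_nonneg_right ?_ hD.le
    have : 2 * (l:ℚ)/n ≤ 2 * ((l:ℚ)+1) / n := by
      apply div_le_div_of_nonneg_right _ hn.le
      linarith
    nlinarith
  · rw [← mul_assoc]
    refine mul_le_mul_of_nonneg_right ?_ hD.le
    have : 2 * (l:ℚ)/n ≤ 2 := by
      rw [div_le_iff₀ hn]; linarith
    nlinarith

/-- the main part -/
lemma part {c : ℚ} (hc : 0 < c) (hc2 : c ≤ 4/3) :
    |∑ k ∈ range (l+1), (-1)^k * (Nat.choose (l+k) k : ℚ) * (NG2.E n (l-k) * NG2.Dn c (l-k)) -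
      (n:ℚ)^(2*l) * NG2.Dn c l| ≤ 8 * ((l:ℚ)+1) / n * ((n:ℚ)^(2*l) * NG2.Dn c l) := by
  have hn := n_pos hln
  have hD := Dn_pos hc l
  have hE := Epos hln (le_refl l)
  obtain ⟨b1, b2⟩ := F_bd hln hc
  rw [sum_range_succ']
  simp only [pow_zero, one_mul, Nat.add_zero, Nat.choose_zero_right, Nat.cast_one, Nat.sub_zero]
  set y := ((l:ℚ)+1) * (((l:ℚ)+1)^2/(n:ℚ)^2) with hy
  have hy0 : 0 ≤ y := by positivity
  have h1 : |∑ k ∈ range l, (-1)^(k+1) * (Nat.choose (l+(k+1)) (k+1) : ℚ) *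
      (NG2.E n (l-(k+1)) * NG2.Dn c (l-(k+1)))| ≤ 2 * (((l:ℚ)+1) / n) *
        (NG2.E n l * NG2.Dn c l) := by
    rcases Nat.eq_zero_or_pos l with hl | hl
    · subst hl
      rw [range_zero, sum_empty, abs_zero]
      positivity
    · have hyh : y ≤ 1/2 := (y_bd hln).trans (y_half hln hl)
      calc _ ≤ ∑ k ∈ range l, |(-1)^(k+1) * (Nat.choose (l+(k+1)) (k+1) : ℚ) *
            (NG2.E n (l-(k+1)) * NG2.Dn c (l-(k+1)))| := abs_sum_le_sum_abs _ _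
        _ ≤ ∑ k ∈ range l, y^(k+1) * (NG2.E n l * NG2.Dn c l) :=
          sum_le_sum fun k hk => term hln hc hc2 (k+1) (by rw [mem_range] at hk; omega)
        _ = y * (∑ k ∈ range l, y^k) * (NG2.E n l * NG2.Dn c l) := by
          rw [← sum_mul, mul_sum]
          congr 1
          exact sum_congr rfl fun k _ => by ring
        _ ≤ y * 2 * (NG2.E n l * NG2.Dn c l) := by
          refine mul_le_mul_of_nonneg_right ?_ (by positivity)
          exact mul_le_mul_of_nonneg_left (geo hy0 hyh l) hy0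
        _ ≤ _ := by
          refine mul_le_mul_of_nonneg_right ?_ (by positivity)
          have := y_bd hln
          linarith
  have h2 : 2 * (((l:ℚ)+1) / n) * (NG2.E n l * NG2.Dn c l) ≤
      6 * ((l:ℚ)+1) / n * ((n:ℚ)^(2*l) * NG2.Dn c l) := by
    calc _ ≤ 2 * (((l:ℚ)+1) / n) * (3 * ((n:ℚ)^(2*l) * NG2.Dn c l)) :=
          mul_le_mul_of_nonneg_left b2 (by positivity)
      _ = _ := by ring
  have h3 := abs_add_le (∑ k ∈ range l, (-1)^(k+1) * (Nat.choose (l+(k+1)) (k+1) : ℚ) *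
      (NG2.E n (l-(k+1)) * NG2.Dn c (l-(k+1)))) (NG2.E n l * NG2.Dn c l -
        (n:ℚ)^(2*l) * NG2.Dn c l)
  rw [← add_sub_assoc] at h3
  calc _ ≤ _ := h3
    _ ≤ 6 * ((l:ℚ)+1) / n * ((n:ℚ)^(2*l) * NG2.Dn c l) +
        2 * ((l:ℚ)+1) / n * ((n:ℚ)^(2*l) * NG2.Dn c l) := add_le_add (h1.trans h2) b1
    _ = _ := by ring

/-- the shifted part -/
lemma shpart {c : ℚ} (hc : 0 < c) (hc2 : c ≤ 4/3) :
    |∑ k ∈ range (l+1), (-1)^k * (Nat.choose (l+k) k : ℚ) *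
      (if l - k = 0 then 0 else NG2.E n (l-k-1) * NG2.Dn c (l-k-1))| ≤
      6 * (((l:ℚ)+1)^2/(n:ℚ)^2) * ((n:ℚ)^(2*l) * NG2.Dn c l) := by
  have hn := n_pos hln
  have hD := Dn_pos hc l
  have hE := Epos hln (le_refl l)
  obtain ⟨b1, b2⟩ := F_bd hln hc
  rw [sum_range_succ]
  rw [if_pos (Nat.sub_self l), mul_zero, add_zero]
  set x := ((l:ℚ)+1)^2/(n:ℚ)^2 with hx
  have hx0 : 0 ≤ x := by positivity
  set y := ((l:ℚ)+1) * x with hy
  have hy0 : 0 ≤ y := by positivity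
  rcases Nat.eq_zero_or_pos l with hl | hl
  · subst hl
    rw [range_zero, sum_empty, abs_zero]
    positivity
  · have hyh : y ≤ 1/2 := (y_bd hln).trans (y_half hln hl)
    calc _ ≤ ∑ k ∈ range l, |(-1)^k * (Nat.choose (l+k) k : ℚ) *
            (if l - k = 0 then 0 else NG2.E n (l-k-1) * NG2.Dn c (l-k-1))| :=
          abs_sum_le_sum_abs _ _
      _ ≤ ∑ k ∈ range l, y^k * (x * (NG2.E n l * NG2.Dn c l)) := by
          refine sum_le_sum fun k hk => ?_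
          rw [mem_range] at hk
          rw [if_neg (by omega), abs_mul, abs_mul, abs_pow, abs_neg, abs_one, one_pow, one_mul,
            Nat.abs_cast, abs_of_pos (mul_pos (Epos hln (by omega)) (Dn_pos hc _))]
          have h1 := down hln hc hc2 (k+1) (by omega)
          rw [← hx, show l - (k+1) = l - k - 1 by omega] at h1
          calc _ ≤ ((l:ℚ)+1)^k * (x^(k+1) * (NG2.E n l * NG2.Dn c l)) :=
                mul_le_mul (choose_bd l k) h1 (mul_pos (Epos hln (by omega)) (Dn_pos hc _)).le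
                  (by positivity)
            _ = _ := by rw [hy, mul_pow]; ring
      _ = (∑ k ∈ range l, y^k) * (x * (NG2.E n l * NG2.Dn c l)) := by rw [← sum_mul]
      _ ≤ 2 * (x * (NG2.E n l * NG2.Dn c l)) :=
          mul_le_mul_of_nonneg_right (geo hy0 hyh l) (by positivity)
      _ ≤ 2 * (x * (3 * ((n:ℚ)^(2*l) * NG2.Dn c l))) := by
          refine mul_le_mul_of_nonneg_left ?_ (by norm_num)
          exact mul_le_mul_of_nonneg_left b2 hx0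
      _ = _ := by ring

end

lemma Dn_cmp (j : ℕ) : NG2.Dn (2/3) j ≤ ((j:ℚ)+1) * NG2.Dn (4/3) j := by
  induction j with
  | zero => simp [NG2.Dn_zero]
  | succ j ih =>
    rw [NG2.Dn_succ, NG2.Dn_succ]
    have hD := Dn_pos (c := 4/3) (by norm_num) j
    have h1 : ((j:ℚ)+1) * (1 / ((2/3 + j) * (1 + j))) ≤
        ((((j+1 : ℕ)):ℚ)+1) * (1 / ((4/3 + j) * (1 + j))) := by
      rw [mul_one_div, mul_one_div, div_le_div_iff₀ (by positivity) (by positivity)]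
      push_cast
      have hj : (0:ℚ) ≤ j := by positivity
      nlinarith [mul_nonneg hj hj, mul_nonneg (mul_nonneg hj hj) hj]
    calc _ ≤ ((j:ℚ)+1) * NG2.Dn (4/3) j * (1 / ((2/3 + j) * (1 + j))) :=
          mul_le_mul_of_nonneg_right ih (by positivity)
      _ = NG2.Dn (4/3) j * (((j:ℚ)+1) * (1 / ((2/3 + j) * (1 + j)))) := by ring
      _ ≤ NG2.Dn (4/3) j * (((((j+1 : ℕ)):ℚ)+1) * (1 / ((4/3 + j) * (1 + j)))) :=
          mul_le_mul_of_nonneg_left h1 hD.le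
      _ = _ := by ring

lemma Dn_mono (j : ℕ) : NG2.Dn (4/3) j ≤ NG2.Dn (2/3) j := by
  unfold NG2.Dn
  refine prod_le_prod (fun i _ => by positivity) fun i _ => ?_
  apply one_div_le_one_div_of_le (by positivity)
  have hi : (0:ℚ) ≤ i := by positivity
  nlinarith

lemma kap_one (n : ℕ) : 1 ≤ kap n := by
  have h1 := NG2.kap_low n
  have h2 := NG2.kap_pos n
  have hn : (0:ℚ) ≤ n := by positivity
  nlinarith

lemma four_half (n l : ℕ) : 4^l * ((n:ℚ)/2)^(2*l) = (n:ℚ)^(2*l) := by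
  rw [div_pow, pow_mul 2 2 l]
  norm_num
  field_simp

theorem sE {n l : ℕ} (hn : Odd n) (hln : (l+1)^2 ≤ n) :
    |(sv n).coeff l - ((n:ℚ)/2)^(2*l) * (kap n * NG2.Dn (4/3) l + NG2.Dn (2/3) l)| ≤
      16 * ((l:ℚ)+1)^3 / n * (kap n * ((n:ℚ)/2)^(2*l) * NG2.Dn (4/3) l) := by
  have hne : ¬ Even n := Nat.not_even_iff_odd.2 hn
  have h4 : (0:ℚ) < 4^l := by positivity
  have hn0 := n_pos hln
  have hk := kap_one n
  have i1 := inv (fun i => (sv n).coeff i) _ (NG2.sv_sum n hne) l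
  have i2 : ∑ k ∈ range (l+1), (-1)^k * (Nat.choose (l+k) k : ℚ) *
      (NG2.pc n (l-k) + NG2.rc n (l-k)) =
      ∑ k ∈ range (l+1), (-1)^k * (Nat.choose (l+k) k : ℚ) *
        (NG2.E n (l-k) * NG2.Dn (2/3) (l-k)) +
      kap n * ∑ k ∈ range (l+1), (-1)^k * (Nat.choose (l+k) k : ℚ) *
        (NG2.E n (l-k) * NG2.Dn (4/3) (l-k)) := by
    rw [mul_sum, ← sum_add_distrib]
    refine sum_congr rfl fun k _ => ?_
    unfold NG2.pc NG2.rc
    ring
  rw [i2] at i1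
  have p1 := part hln (c := 2/3) (by norm_num) (by norm_num)
  have p2 := part hln (c := 4/3) (by norm_num) (by norm_num)
  set S1 := ∑ k ∈ range (l+1), (-1)^k * (Nat.choose (l+k) k : ℚ) *
        (NG2.E n (l-k) * NG2.Dn (2/3) (l-k))
  set S2 := ∑ k ∈ range (l+1), (-1)^k * (Nat.choose (l+k) k : ℚ) *
        (NG2.E n (l-k) * NG2.Dn (4/3) (l-k))
  have hD1 := Dn_pos (c := 2/3) (by norm_num) l
  have hD2 := Dn_pos (c := 4/3) (by norm_num) l
  have hc := Dn_cmp l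
  set P := (n:ℚ)^(2*l) with hP
  have hP0 : 0 < P := by positivity
  have e1 : 4^l * ((sv n).coeff l - ((n:ℚ)/2)^(2*l) * (kap n * NG2.Dn (4/3) l +
      NG2.Dn (2/3) l)) = (S1 - P * NG2.Dn (2/3) l) + kap n * (S2 - P * NG2.Dn (4/3) l) := by
    rw [mul_sub, i1, ← mul_assoc, four_half]
    ring
  have e2 : 4^l * (16 * ((l:ℚ)+1)^3 / n * (kap n * ((n:ℚ)/2)^(2*l) * NG2.Dn (4/3) l)) =
      16 * ((l:ℚ)+1)^3 / n * (kap n * P * NG2.Dn (4/3) l) := by
    rw [hP, ← four_half n l]; ring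
  refine le_of_mul_le_mul_left ?_ h4
  rw [e2]
  nth_rewrite 1 [← abs_of_pos h4]
  rw [← abs_mul, e1]
  have a1 := abs_add_le (S1 - P * NG2.Dn (2/3) l) (kap n * (S2 - P * NG2.Dn (4/3) l))
  rw [abs_mul, abs_of_pos (NG2.kap_pos n)] at a1
  have hl0 : (0:ℚ) ≤ l := by positivity
  have a2 : 8 * ((l:ℚ)+1) / n * (P * NG2.Dn (2/3) l) ≤
      8 * ((l:ℚ)+1)^2 / n * (kap n * P * NG2.Dn (4/3) l) := by
    calc 8 * ((l:ℚ)+1) / n * (P * NG2.Dn (2/3) l)
        ≤ 8 * ((l:ℚ)+1) / n * (P * (((l:ℚ)+1) * NG2.Dn (4/3) l)) := by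
          refine mul_le_mul_of_nonneg_left ?_ (by positivity)
          exact mul_le_mul_of_nonneg_left hc hP0.le
      _ = 8 * ((l:ℚ)+1)^2 / n * (1 * P * NG2.Dn (4/3) l) := by ring
      _ ≤ _ := by
          refine mul_le_mul_of_nonneg_left ?_ (by positivity)
          refine mul_le_mul_of_nonneg_right ?_ hD2.le
          exact mul_le_mul_of_nonneg_right hk hP0.le
  have a3 : kap n * |S2 - P * NG2.Dn (4/3) l| ≤
      8 * ((l:ℚ)+1) / n * (kap n * P * NG2.Dn (4/3) l) := by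
    calc _ ≤ kap n * (8 * ((l:ℚ)+1) / n * (P * NG2.Dn (4/3) l)) :=
          mul_le_mul_of_nonneg_left p2 (NG2.kap_pos n).le
      _ = _ := by ring
  have hT : 0 < kap n * P * NG2.Dn (4/3) l := mul_pos (mul_pos (NG2.kap_pos n) hP0) hD2
  have a4 : 8 * ((l:ℚ)+1)^2 / n + 8 * ((l:ℚ)+1) / n ≤ 16 * ((l:ℚ)+1)^3 / n := by
    rw [← add_div]
    apply div_le_div_of_nonneg_right _ hn0.le
    nlinarith [mul_nonneg hl0 hl0, mul_nonneg (mul_nonneg hl0 hl0) hl0]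
  calc _ ≤ _ := a1
    _ ≤ 8 * ((l:ℚ)+1)^2 / n * (kap n * P * NG2.Dn (4/3) l) +
        8 * ((l:ℚ)+1) / n * (kap n * P * NG2.Dn (4/3) l) := add_le_add (p1.trans a2) a3
    _ = (8 * ((l:ℚ)+1)^2 / n + 8 * ((l:ℚ)+1) / n) * (kap n * P * NG2.Dn (4/3) l) := by ring
    _ ≤ _ := mul_le_mul_of_nonneg_right a4 hT.le

theorem vE {n l : ℕ} (hn : Odd n) (hln : (l+1)^2 ≤ n) :
    |(vv n).coeff l - ((n:ℚ)/2)^(2*l) * NG2.Dn (2/3) l| ≤
      26 * ((l:ℚ)+1)^3 / n * (((n:ℚ)/2)^(2*l) * NG2.Dn (2/3) l) := by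
  have hne : ¬ Even n := Nat.not_even_iff_odd.2 hn
  have h4 : (0:ℚ) < 4^l := by positivity
  have hn0 := n_pos hln
  have hk := NG2.kap_upp n
  have hl0 : (0:ℚ) ≤ l := by positivity
  have hn1 : (1:ℚ) ≤ n := by
    have := cast_ln hln
    nlinarith
  have i1 := inv (fun i => (vv n).coeff i) _ (NG2.vv_sum n hne) l
  have i2 : ∑ k ∈ range (l+1), (-1)^k * (Nat.choose (l+k) k : ℚ) *
      (NG2.pc n (l-k) + (NG2.sh NG2.pc n (l-k) - NG2.sh NG2.rc n (l-k))) =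
      ∑ k ∈ range (l+1), (-1)^k * (Nat.choose (l+k) k : ℚ) *
        (NG2.E n (l-k) * NG2.Dn (2/3) (l-k)) +
      (∑ k ∈ range (l+1), (-1)^k * (Nat.choose (l+k) k : ℚ) *
        (if l - k = 0 then 0 else NG2.E n (l-k-1) * NG2.Dn (2/3) (l-k-1)) -
      kap n * ∑ k ∈ range (l+1), (-1)^k * (Nat.choose (l+k) k : ℚ) *
        (if l - k = 0 then 0 else NG2.E n (l-k-1) * NG2.Dn (4/3) (l-k-1))) := by
    rw [mul_sum, ← sum_sub_distrib, ← sum_add_distrib]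
    refine sum_congr rfl fun k _ => ?_
    unfold NG2.sh NG2.pc NG2.rc
    split_ifs <;> ring
  rw [i2] at i1
  have p1 := part hln (c := 2/3) (by norm_num) (by norm_num)
  have p2 := shpart hln (c := 2/3) (by norm_num) (by norm_num)
  have p3 := shpart hln (c := 4/3) (by norm_num) (by norm_num)
  set S1 := ∑ k ∈ range (l+1), (-1)^k * (Nat.choose (l+k) k : ℚ) *
        (NG2.E n (l-k) * NG2.Dn (2/3) (l-k))
  set S2 := ∑ k ∈ range (l+1), (-1)^k * (Nat.choose (l+k) k : ℚ) *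
        (if l - k = 0 then 0 else NG2.E n (l-k-1) * NG2.Dn (2/3) (l-k-1))
  set S3 := ∑ k ∈ range (l+1), (-1)^k * (Nat.choose (l+k) k : ℚ) *
        (if l - k = 0 then 0 else NG2.E n (l-k-1) * NG2.Dn (4/3) (l-k-1))
  have hD1 := Dn_pos (c := 2/3) (by norm_num) l
  have hD2 := Dn_pos (c := 4/3) (by norm_num) l
  have hc := Dn_mono l
  set P := (n:ℚ)^(2*l) with hP
  have hP0 : 0 < P := by positivity
  have e1 : 4^l * ((vv n).coeff l - ((n:ℚ)/2)^(2*l) * NG2.Dn (2/3) l) =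
      (S1 - P * NG2.Dn (2/3) l) + (S2 - kap n * S3) := by
    rw [mul_sub, i1, ← mul_assoc, four_half]
    ring
  have e2 : 4^l * (26 * ((l:ℚ)+1)^3 / n * (((n:ℚ)/2)^(2*l) * NG2.Dn (2/3) l)) =
      26 * ((l:ℚ)+1)^3 / n * (P * NG2.Dn (2/3) l) := by
    rw [hP, ← four_half n l]; ring
  refine le_of_mul_le_mul_left ?_ h4
  rw [e2]
  nth_rewrite 1 [← abs_of_pos h4]
  rw [← abs_mul, e1]
  have a1 := abs_add_le (S1 - P * NG2.Dn (2/3) l) (S2 - kap n * S3)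
  have a2 := abs_sub S2 (kap n * S3)
  rw [abs_mul, abs_of_pos (NG2.kap_pos n)] at a2
  have hT : 0 < P * NG2.Dn (2/3) l := mul_pos hP0 hD1
  have a3 : 6 * (((l:ℚ)+1)^2/(n:ℚ)^2) * (P * NG2.Dn (2/3) l) ≤
      6 * ((l:ℚ)+1)^2 / n * (P * NG2.Dn (2/3) l) := by
    refine mul_le_mul_of_nonneg_right ?_ hT.le
    rw [← mul_div_assoc, div_le_div_iff₀ (by positivity) hn0]
    have : 0 ≤ 6 * ((l:ℚ)+1)^2 * n := by positivity
    nlinarith
  have a4 : kap n * |S3| ≤ 12 * ((l:ℚ)+1)^2 / n * (P * NG2.Dn (2/3) l) := by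
    calc _ ≤ (2 * (n:ℚ)) * (6 * (((l:ℚ)+1)^2/(n:ℚ)^2) * (P * NG2.Dn (4/3) l)) :=
          mul_le_mul (by linarith) p3 (abs_nonneg _) (by positivity)
      _ = 12 * ((l:ℚ)+1)^2 / n * (P * NG2.Dn (4/3) l) := by field_simp; ring
      _ ≤ _ := by
          refine mul_le_mul_of_nonneg_left ?_ (by positivity)
          exact mul_le_mul_of_nonneg_left hc hP0.le
  have a5 : 8 * ((l:ℚ)+1) / n + (6 * ((l:ℚ)+1)^2 / n + 12 * ((l:ℚ)+1)^2 / n) ≤
      26 * ((l:ℚ)+1)^3 / n := by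
    rw [← add_div, ← add_div]
    apply div_le_div_of_nonneg_right _ hn0.le
    nlinarith [mul_nonneg hl0 hl0, mul_nonneg (mul_nonneg hl0 hl0) hl0]
  calc _ ≤ _ := a1
    _ ≤ 8 * ((l:ℚ)+1) / n * (P * NG2.Dn (2/3) l) + (6 * ((l:ℚ)+1)^2 / n * (P * NG2.Dn (2/3) l) +
        12 * ((l:ℚ)+1)^2 / n * (P * NG2.Dn (2/3) l)) :=
        add_le_add p1 (a2.trans (add_le_add (p2.trans a3) a4))
    _ = (8 * ((l:ℚ)+1) / n + (6 * ((l:ℚ)+1)^2 / n + 12 * ((l:ℚ)+1)^2 / n)) *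
        (P * NG2.Dn (2/3) l) := by ring
    _ ≤ _ := mul_le_mul_of_nonneg_right a5 hT.le

end R3

theorem t_sE : S_sE := by
  refine ⟨16, fun n l hn hln => ?_⟩
  have h := R3.sE hn hln
  have h' : |(((sv n).coeff l : ℚ) : ℝ) - ((n:ℝ)/2)^(2*l) * (((kap n : ℚ) : ℝ) *
      ((NG2.Dn (4/3) l : ℚ) : ℝ) + ((NG2.Dn (2/3) l : ℚ) : ℝ))| ≤
      16 * ((l:ℝ)+1)^3 / n * (((kap n : ℚ) : ℝ) * ((n:ℝ)/2)^(2*l) *
        ((NG2.Dn (4/3) l : ℚ) : ℝ)) := by
    have h2 := (Rat.cast_le (K := ℝ)).mpr h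
    push_cast at h2
    exact h2
  rw [NG2.Dn_eq (4/3) (by norm_num), NG2.Dn_eq (2/3) (by norm_num)] at h'
  have c1 : (((4/3 : ℚ)) : ℝ) = 4/3 := by norm_num
  have c2 : (((2/3 : ℚ)) : ℝ) = 2/3 := by norm_num
  rw [c1, c2] at h'
  rw [div_eq_mul_one_div (((kap n : ℚ) : ℝ)) (rf (4/3) l * (Nat.factorial l : ℝ)),
    div_eq_mul_one_div (((kap n : ℚ) : ℝ) * ((n:ℝ)/2)^(2*l)) (rf (4/3) l * (Nat.factorial l : ℝ))]
  exact h'

theorem t_vE : S_vE := by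
  refine ⟨26, fun n l hn hln => ?_⟩
  have h := R3.vE hn hln
  have h' : |(((vv n).coeff l : ℚ) : ℝ) - ((n:ℝ)/2)^(2*l) * ((NG2.Dn (2/3) l : ℚ) : ℝ)| ≤
      26 * ((l:ℝ)+1)^3 / n * (((n:ℝ)/2)^(2*l) * ((NG2.Dn (2/3) l : ℚ) : ℝ)) := by
    have h2 := (Rat.cast_le (K := ℝ)).mpr h
    push_cast at h2
    exact h2
  rw [NG2.Dn_eq (2/3) (by norm_num)] at h'
  have c2 : (((2/3 : ℚ)) : ℝ) = 2/3 := by norm_num
  rw [c2] at h'
  rw [div_eq_mul_one_div (((n:ℝ)/2)^(2*l)) (rf (2/3) l * (Nat.factorial l : ℝ))]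
  exact h'

end Pool.Agent.NH38.Fork
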