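import Pool.Agent.NH38.Fork.R4a

set_option autoImplicit false

/-!
# FR-4: the sharp rate for odd widths (S_RateG), second part.  Written by helper81.
-/

namespace Pool.Agent.NH38.Fork.R4

open Polynomial Filter Topology Finset
open Pool.Agent.NH38.Step (cardy)
open Pool.Agent.NH38.Fork.NG5 (hf mj_eq M0_pos kap_pos hf_nonneg mj_nonneg mj_le)

/-! ## monotonicity and homogeneity -/

lemma ap_nonneg {A B : ℝ} (hA : 0 ≤ A) (hB : 0 ≤ B) (m : ℕ) : 0 ≤ ap A B m := by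
  unfold ap
  refine Finset.sum_nonneg fun i _ => ?_
  have h1 := rf_pos (s := 1/3) (by norm_num) m
  have h2 := rf_pos (s := 2/3) (by norm_num) m
  have h3 := rf_pos (s := 2/3) (by norm_num) i
  have h4 := rf_pos (s := 4/3) (by norm_num) (m - i)
  positivity

lemma bp_nonneg {A B : ℝ} (hA : 0 ≤ A) (hB : 0 ≤ B) (m : ℕ) : 0 ≤ bp A B m := by
  unfold bp
  refine Finset.sum_nonneg fun i _ => ?_
  have h1 := rf_pos (s := 1/3) (by norm_num) m
  have h2 := rf_pos (s := 2/3) (by norm_num) m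
  have h3 := rf_pos (s := 2/3) (by norm_num) i
  have h4 := rf_pos (s := 2/3) (by norm_num) (m - i)
  positivity

lemma ap_mono {A B A' B' : ℝ} (hA : 0 ≤ A) (hB : 0 ≤ B) (hAA : A ≤ A') (hBB : B ≤ B') (m : ℕ) :
    ap A B m ≤ ap A' B' m := by
  unfold ap
  refine Finset.sum_le_sum fun i _ => ?_
  have h1 := rf_pos (s := 1/3) (by norm_num) m
  have h2 := rf_pos (s := 2/3) (by norm_num) m
  have h3 := rf_pos (s := 2/3) (by norm_num) i
  have h4 := rf_pos (s := 4/3) (by norm_num) (m - i)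
  have hB' : 0 ≤ B' := hB.trans hBB
  gcongr

lemma bp_mono {A B A' B' : ℝ} (hA : 0 ≤ A) (hB : 0 ≤ B) (hAA : A ≤ A') (hBB : B ≤ B') (m : ℕ) :
    bp A B m ≤ bp A' B' m := by
  unfold bp
  refine Finset.sum_le_sum fun i _ => ?_
  have h1 := rf_pos (s := 1/3) (by norm_num) m
  have h2 := rf_pos (s := 2/3) (by norm_num) m
  have h3 := rf_pos (s := 2/3) (by norm_num) i
  have h4 := rf_pos (s := 2/3) (by norm_num) (m - i)
  have hB' : 0 ≤ B' := hB.trans hBB
  gcongr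

lemma ap_scale (A B t : ℝ) (m : ℕ) : ap (t * A) (t * B) m = t^m * ap A B m := by
  unfold ap
  rw [Finset.mul_sum]
  refine Finset.sum_congr rfl fun i hi => ?_
  have h1 : t^m = t^i * t^(m-i) := by
    rw [← pow_add]
    congr 1
    rw [mem_range] at hi
    omega
  rw [h1, mul_pow, mul_pow]
  ring

lemma bp_scale (A B t : ℝ) (m : ℕ) : bp (t * A) (t * B) m = t^m * bp A B m := by
  unfold bp
  rw [Finset.mul_sum]
  refine Finset.sum_congr rfl fun i hi => ?_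
  have h1 : t^m = t^i * t^(m-i) := by
    rw [← pow_add]
    congr 1
    rw [mem_range] at hi
    omega
  rw [h1, mul_pow, mul_pow]
  ring

lemma Bt_pos : 0 < Bt := by
  rw [N5.Bt_eq]
  exact div_pos (mul_pos (Real.Gamma_pos_of_pos (by norm_num)) (Real.Gamma_pos_of_pos (by norm_num)))
    (Real.Gamma_pos_of_pos (by norm_num))

lemma mainF_nonneg (j : ℕ) {x y : ℝ} (hx : 0 ≤ x) : 0 ≤ mainF j x y := by
  unfold mainF
  have := Bt_pos
  have := ap_nonneg (sq_nonneg x) (sq_nonneg y) j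
  positivity

lemma corrF_nonneg (j : ℕ) (x y : ℝ) : 0 ≤ corrF j x y := by
  unfold corrF
  have := cM_pos
  have := bp_nonneg (sq_nonneg x) (sq_nonneg y) j
  positivity

lemma mainF_le (j : ℕ) {x y x' y' s : ℝ} (hx : 0 ≤ x) (hy : 0 ≤ y) (hs : 0 ≤ s) (hs1 : s ≤ 1)
    (hxx : x ≤ s * x') (hyy : y ≤ s * y') (hx' : 0 ≤ x') :
    mainF j x y ≤ s^j * mainF j x' y' := by
  unfold mainF
  have hB := Bt_pos
  have h1 : (2*x)^((2:ℝ)/3) ≤ (2*x')^((2:ℝ)/3) := by
    apply Real.rpow_le_rpow (by positivity) _ (by norm_num)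
    have : s * x' ≤ 1 * x' := mul_le_mul_of_nonneg_right hs1 hx'
    linarith
  have h2 : ap (x^2) (y^2) j ≤ s^j * ap (x'^2) (y'^2) j := by
    have h3 : x^2 ≤ s^2 * x'^2 := by
      rw [← mul_pow]
      exact pow_le_pow_left₀ hx hxx 2
    have h4 : y^2 ≤ s^2 * y'^2 := by
      rw [← mul_pow]
      exact pow_le_pow_left₀ hy hyy 2
    calc ap (x^2) (y^2) j ≤ ap (s^2 * x'^2) (s^2 * y'^2) j :=
          ap_mono (sq_nonneg _) (sq_nonneg _) h3 h4 j
      _ = (s^2)^j * ap (x'^2) (y'^2) j := ap_scale _ _ _ j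
      _ ≤ _ := by
        apply mul_le_mul_of_nonneg_right _ (ap_nonneg (sq_nonneg _) (sq_nonneg _) j)
        apply pow_le_pow_left₀ (by positivity)
        nlinarith
  calc (2*x)^((2:ℝ)/3) * (3 / Bt) * ap (x^2) (y^2) j
      ≤ (2*x')^((2:ℝ)/3) * (3 / Bt) * (s^j * ap (x'^2) (y'^2) j) := by
        apply mul_le_mul (mul_le_mul_of_nonneg_right h1 (by positivity)) h2
          (ap_nonneg (sq_nonneg _) (sq_nonneg _) j) (by positivity)
    _ = _ := by ring

lemma corrF_le (j : ℕ) {x y x' y' s : ℝ} (hx : 0 ≤ x) (hy : 0 ≤ y) (hs : 0 ≤ s) (hs1 : s ≤ 1)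
    (hxx : x ≤ s * x') (hyy : y ≤ s * y') :
    corrF j x y ≤ s^j * corrF j x' y' := by
  unfold corrF
  have hB := cM_pos
  have h2 : bp (x^2) (y^2) j ≤ s^j * bp (x'^2) (y'^2) j := by
    have h3 : x^2 ≤ s^2 * x'^2 := by
      rw [← mul_pow]
      exact pow_le_pow_left₀ hx hxx 2
    have h4 : y^2 ≤ s^2 * y'^2 := by
      rw [← mul_pow]
      exact pow_le_pow_left₀ hy hyy 2
    calc bp (x^2) (y^2) j ≤ bp (s^2 * x'^2) (s^2 * y'^2) j :=
          bp_mono (sq_nonneg _) (sq_nonneg _) h3 h4 j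
      _ = (s^2)^j * bp (x'^2) (y'^2) j := bp_scale _ _ _ j
      _ ≤ _ := by
        apply mul_le_mul_of_nonneg_right _ (bp_nonneg (sq_nonneg _) (sq_nonneg _) j)
        apply pow_le_pow_left₀ (by positivity)
        nlinarith
  calc (2:ℝ)^((2:ℝ)/3) * cM * bp (x^2) (y^2) j
      ≤ (2:ℝ)^((2:ℝ)/3) * cM * (s^j * bp (x'^2) (y'^2) j) :=
        mul_le_mul_of_nonneg_left h2 (by positivity)
    _ = _ := by ring

lemma mainF_lim (j : ℕ) {x y : ℕ → ℝ} {X Y : ℝ} (hx : Tendsto x atTop (𝓝 X))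
    (hy : Tendsto y atTop (𝓝 Y)) :
    Tendsto (fun i => mainF j (x i) (y i)) atTop (𝓝 (mainF j X Y)) := by
  unfold mainF ap
  refine Tendsto.mul (Tendsto.mul ?_ tendsto_const_nhds) ?_
  · exact (hx.const_mul 2).rpow_const (Or.inr (by norm_num))
  · refine tendsto_finsetSum _ fun i _ => ?_
    exact (tendsto_const_nhds.mul ((hy.pow 2).pow i)).mul ((hx.pow 2).pow (j - i))

lemma corrF_lim (j : ℕ) {x y : ℕ → ℝ} {X Y : ℝ} (hx : Tendsto x atTop (𝓝 X))
    (hy : Tendsto y atTop (𝓝 Y)) :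
    Tendsto (fun i => corrF j (x i) (y i)) atTop (𝓝 (corrF j X Y)) := by
  unfold corrF bp
  refine Tendsto.mul tendsto_const_nhds ?_
  refine tendsto_finsetSum _ fun i _ => ?_
  exact (tendsto_const_nhds.mul ((hy.pow 2).pow i)).mul ((hx.pow 2).pow (j - i))

lemma mainF_sum (hF4 : S_F4) {x y : ℝ} (hx : 0 < x) (hy : 0 < y) (hxy : x + y < 1) :
    HasSum (fun j => mainF j x y) (2 * cardy (x1 (x^2) (y^2))) := hF4 x y hx hy hxy

lemma corrF_sum (hB4 : S_B4) {x y : ℝ} (hx : 0 < x) (hy : 0 < y) (hxy : x + y < 1) :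
    HasSum (fun j => corrF j x y)
      ((2:ℝ)^((2:ℝ)/3) * cM * (x2 (x^2) (y^2) - x1 (x^2) (y^2))^(-(1:ℝ)/3)) := by
  have h := hB4 (x^2) (y^2) (by positivity) (by positivity)
    (by rw [Real.sqrt_sq hx.le, Real.sqrt_sq hy.le]; exact hxy)
  exact h.mul_left _

/-- the sharp rate, for any exponent in FR-3 -/
theorem rate {k : ℕ} (hk : 1 ≤ k) (hMJ : S_MJ) (hpos : S_pos) (hs : SE k) (hv : VE k)
    (hK : S_KE) (hM : S_ME) (hF4 : S_F4) (hB4 : S_B4) (hFG : S_FGle) : S_RateG := by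
  intro a b N ρ σ hρ hσ hρσ ha hb hN habN hNt hla hlb
  -- `N = 2n+1`
  choose n hn using hN
  have hN2 : ∀ i, N i = 2 * n i + 1 := hn
  have hab : ∀ i, a i + b i = 2 * ((a i + b i) / 2) := fun i => by
    obtain ⟨x, hx⟩ := ha i
    obtain ⟨y, hy⟩ := hb i
    omega
  set n0 : ℕ → ℕ := fun i => (a i + b i) / 2 with hn0
  have hab' : ∀ i, a i + b i = 2 * n0 i := hab
  have hnn : ∀ i, n0 i ≤ n i := fun i => by
    have := habN i; have := hN2 i; have := hab' i; omega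
  have hNr : ∀ i, (N i : ℝ) = 2 * (n i : ℝ) + 1 := fun i => by rw [hN2 i]; push_cast; ring
  have hNt' : Tendsto (fun i => ((N i : ℕ) : ℝ)) atTop atTop :=
    tendsto_natCast_atTop_atTop.comp hNt
  have hN0 : ∀ i, (0:ℝ) < N i := fun i => by rw [hNr i]; positivity
  have hN1 : ∀ i, (1:ℝ) ≤ N i := fun i => by
    rw [hNr i]
    have : (0:ℝ) ≤ n i := Nat.cast_nonneg _
    linarith
  have ha0 : ∀ i, (0:ℝ) < a i := fun i => by exact_mod_cast (ha i).pos
  have hb0 : ∀ i, (0:ℝ) < b i := fun i => by exact_mod_cast (hb i).pos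
  -- the bound `r`
  set r : ℝ := (1 + (ρ + σ)) / 2 with hr
  have hr1 : r < 1 := by rw [hr]; linarith
  have hr0 : 0 < r := by rw [hr]; linarith
  set ε : ℝ := (1 - (ρ + σ)) / 8 with hε
  have hε0 : 0 < ε := by rw [hε]; linarith
  set ρ' : ℝ := (ρ + ε) / r with hρ'
  set σ' : ℝ := (σ + ε) / r with hσ'
  have hρ'0 : 0 < ρ' := by positivity
  have hσ'0 : 0 < σ' := by positivity
  have hρσ' : ρ' + σ' < 1 := by
    rw [hρ', hσ', ← add_div, div_lt_one hr0, hr, hε]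
    linarith
  have hrρ : r * ρ' = ρ + ε := by rw [hρ']; field_simp
  have hrσ : r * σ' = σ + ε := by rw [hσ']; field_simp
  set c : ℝ := min ρ σ / 2 with hc
  have hmin : 0 < min ρ σ := lt_min hρ hσ
  have hc0 : 0 < c := by rw [hc]; linarith
  have hcρ : c < ρ := by
    have := min_le_left ρ σ
    rw [hc]; linarith
  have hcσ : c < σ := by
    have := min_le_right ρ σ
    rw [hc]; linarith
  -- eventual properties
  have ev : ∀ᶠ i in atTop, (a i : ℝ) / N i < ρ + ε ∧ (b i : ℝ) / N i < σ + ε ∧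
      c < (a i : ℝ) / N i ∧ c < (b i : ℝ) / N i ∧ (3:ℝ) ≤ N i ∧
      2 * (n0 i : ℝ) - 1 ≤ r * (2 * n i - 1) := by
    have g1 : Tendsto (fun i => (a i : ℝ) / N i + (b i : ℝ) / N i) atTop (𝓝 (ρ + σ)) := hla.add hlb
    have g2 : ρ + σ < r := by rw [hr]; linarith
    filter_upwards [hla.eventually (gt_mem_nhds (by linarith : ρ < ρ + ε)),
      hlb.eventually (gt_mem_nhds (by linarith : σ < σ + ε)),
      hla.eventually (lt_mem_nhds hcρ), hlb.eventually (lt_mem_nhds hcσ),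
      hNt'.eventually_ge_atTop 3, hNt'.eventually_ge_atTop (2 * r / ε),
      hla.eventually (gt_mem_nhds (by linarith : ρ < ρ + ε)),
      g1.eventually (gt_mem_nhds (show ρ + σ < r - 2 * ε by rw [hr, hε]; linarith))]
      with i q1 q2 q3 q4 q5 q6 q7 q8
    refine ⟨q1, q2, q3, q4, q5, ?_⟩
    rw [← add_div, div_lt_iff₀ (hN0 i)] at q8
    have h3 : (a i : ℝ) + b i = 2 * n0 i := by exact_mod_cast hab' i
    rw [h3] at q8
    rw [div_le_iff₀ hε0] at q6
    have h4 := hNr i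
    have h5 : 2 * (n i : ℝ) - 1 = N i - 2 := by rw [h4]; ring
    rw [h5]
    nlinarith
  -- the terms
  let t : ℕ → ℕ → ℝ := fun i j => if j < n0 i then ((cg (a i) (b i) j * mj (N i) j : ℚ) : ℝ) else 0
  have hcg : ∀ x y j, 0 ≤ cg x y j := by
    intro x y j
    unfold cg
    rw [Polynomial.coeff_mul]
    exact Finset.sum_nonneg fun p _ => mul_nonneg (hpos y p.1).1 (hpos x p.2).2
  have hsum : ∀ i, HasSum (t i) (2 * ((FG (a i) (b i) (N i) : ℚ) : ℝ)) := by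
    intro i
    have h1 : HasSum (t i) (∑ j ∈ range (n0 i), t i j) := by
      apply hasSum_sum_of_ne_finset_zero
      intro j hj
      simp only [t]
      rw [if_neg (by rwa [mem_range] at hj)]
    have h2 : ∑ j ∈ range (n0 i), t i j = 2 * ((FG (a i) (b i) (N i) : ℚ) : ℝ) := by
      unfold FG
      push_cast
      rw [mul_div_cancel₀ _ (by norm_num : (2:ℝ) ≠ 0)]
      refine Finset.sum_congr rfl fun j hj => ?_
      simp only [t]
      rw [if_pos (mem_range.mp hj)]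
      push_cast
      rfl
    rwa [h2] at h1
  have hbd0 : ∀ i j, j < n0 i → ((cg (a i) (b i) j * mj (2 * n0 i + 1) j : ℚ) : ℝ) ≤ 2 := by
    intro i j hj
    have h1 := hFG (a i) (b i) (ha i) (hb i)
    unfold FG at h1
    rw [hab' i, Nat.mul_div_cancel_left _ (by norm_num : 0 < 2)] at h1
    have h2 := Finset.single_le_sum (f := fun j => cg (a i) (b i) j * mj (2 * n0 i + 1) j)
      (s := range (n0 i)) (fun l hl => mul_nonneg (hcg _ _ _) (mj_nonneg hMJ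
        (by rw [mem_range] at hl; omega))) (mem_range.mpr hj)
    have h3 : cg (a i) (b i) j * mj (2 * n0 i + 1) j ≤ 2 := by
      linarith
    exact_mod_cast h3
  have ht0 : ∀ i j, 0 ≤ t i j := by
    intro i j
    simp only [t]
    split_ifs with hj
    · rw [hN2 i]
      have h3 : (0:ℝ) ≤ ((cg (a i) (b i) j : ℚ) : ℝ) := by exact_mod_cast hcg _ _ _
      have h4 : (0:ℝ) ≤ ((mj (2 * n i + 1) j : ℚ) : ℝ) := by
        exact_mod_cast mj_nonneg hMJ (hj.le.trans (hnn i))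
      push_cast
      exact mul_nonneg h3 h4
    · exact le_rfl
  have htr : ∀ i, 2 * (n0 i : ℝ) - 1 ≤ r * (2 * n i - 1) → ∀ j, t i j ≤ 2 * r^j := by
    intro i hi j
    by_cases hj : j < n0 i
    · simp only [t]
      rw [if_pos hj, hN2 i]
      have h1 := mj_le hMJ hj.le (hnn i) hi hr0.le hr1.le
      have h2 := hbd0 i j hj
      have h3 : (0:ℝ) ≤ ((cg (a i) (b i) j : ℚ) : ℝ) := by exact_mod_cast hcg _ _ _
      push_cast at h2 ⊢
      calc _ ≤ ((cg (a i) (b i) j : ℚ) : ℝ) * (r^j * ((mj (2*n0 i+1) j : ℚ) : ℝ)) :=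
            mul_le_mul_of_nonneg_left h1 h3
        _ = r^j * (((cg (a i) (b i) j : ℚ) : ℝ) * ((mj (2*n0 i+1) j : ℚ) : ℝ)) := by ring
        _ ≤ r^j * 2 := mul_le_mul_of_nonneg_left h2 (by positivity)
        _ = _ := by ring
    · simp only [t]
      rw [if_neg hj]
      positivity
  -- the uniform estimate
  obtain ⟨C1, hC1, hU⟩ := U hk hMJ hs hv hK hM hc0
  set m : ℕ → ℕ → ℝ := fun i j => mainF j ((a i : ℝ) / N i) ((b i : ℝ) / N i) with hm
  set q : ℕ → ℕ → ℝ := fun i j => corrF j ((a i : ℝ) / N i) ((b i : ℝ) / N i) with hq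
  have hm0 : ∀ i j, 0 ≤ m i j := fun i j => mainF_nonneg j (by have := ha0 i; positivity)
  have hq0 : ∀ i j, 0 ≤ q i j := fun i j => corrF_nonneg j _ _
  have hsqrt : ∀ i, (N i : ℝ)^((2:ℝ)/3) * (N i : ℝ)^(-(2:ℝ)/3) = 1 := fun i => by
    rw [← Real.rpow_add (hN0 i)]
    norm_num
  have hneg1 : ∀ i, (N i : ℝ)^(-(2:ℝ)/3) ≤ 1 := fun i =>
    Real.rpow_le_one_of_one_le_of_nonpos (hN1 i) (by norm_num)
  have hneg0 : ∀ i, 0 ≤ (N i : ℝ)^(-(2:ℝ)/3) := fun i => Real.rpow_nonneg (hN0 i).le _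
  have hpw : ∀ i, (N i : ℝ)^((2:ℝ)/3) ≤ N i := fun i => by
    calc (N i : ℝ)^((2:ℝ)/3) ≤ (N i : ℝ)^(1:ℝ) :=
          Real.rpow_le_rpow_of_exponent_le (hN1 i) (by norm_num)
      _ = _ := Real.rpow_one _
  have hpw0 : ∀ i, 0 ≤ (N i : ℝ)^((2:ℝ)/3) := fun i => Real.rpow_nonneg (hN0 i).le _
  have est : ∀ i, c < (a i : ℝ) / N i → c < (b i : ℝ) / N i → (3:ℝ) ≤ N i → ∀ j : ℕ,
      (j+1)^2 ≤ a i → (j+1)^2 ≤ b i →
      |(N i : ℝ)^((2:ℝ)/3) * (t i j - m i j) - q i j| ≤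
        C1 * ((j:ℝ)+1)^(6*k) * ((N i : ℝ)^((2:ℝ)/3) / N i) * (m i j + q i j) := by
    intro i hca hcb hN3 j hja hjb
    have hn1 : 1 ≤ n i := by
      have h1 : (3:ℝ) ≤ 2 * (n i : ℝ) + 1 := by rw [← hNr i]; exact hN3
      have h2 : (1:ℝ) ≤ n i := by linarith
      exact_mod_cast h2
    have hjn : j < n0 i := by
      have h1 := hab' i
      have h2 : j + 1 ≤ (j+1)^2 := Nat.le_self_pow two_ne_zero _
      omega
    have h1 := (hU (a i) (b i) (n i) j (ha i) (hb i) (by have := hab' i; have := hnn i; omega)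
      (by rw [← hNr i]; exact ((lt_div_iff₀ (hN0 i)).1 hca).le)
      (by rw [← hNr i]; exact ((lt_div_iff₀ (hN0 i)).1 hcb).le) hn1 hja hjb).2
    rw [← hNr i, ← hN2 i] at h1
    have ht : t i j = ((cg (a i) (b i) j * mj (N i) j : ℚ) : ℝ) := if_pos hjn
    rw [← ht] at h1
    have h2 : (N i : ℝ)^((2:ℝ)/3) * (t i j - m i j) - q i j =
        (N i : ℝ)^((2:ℝ)/3) * (t i j - (m i j + (N i : ℝ)^(-(2:ℝ)/3) * q i j)) := by
      linear_combination (q i j) * (hsqrt i)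
    rw [h2, abs_mul, abs_of_nonneg (hpw0 i)]
    have h3 : m i j + (N i : ℝ)^(-(2:ℝ)/3) * q i j ≤ m i j + q i j := by
      have := mul_le_mul_of_nonneg_right (hneg1 i) (hq0 i j)
      linarith
    calc (N i : ℝ)^((2:ℝ)/3) * |t i j - (m i j + (N i : ℝ)^(-(2:ℝ)/3) * q i j)|
        ≤ (N i : ℝ)^((2:ℝ)/3) * (C1 * ((j:ℝ)+1)^(6*k) / N i *
            (m i j + (N i : ℝ)^(-(2:ℝ)/3) * q i j)) := mul_le_mul_of_nonneg_left h1 (hpw0 i)
      _ ≤ (N i : ℝ)^((2:ℝ)/3) * (C1 * ((j:ℝ)+1)^(6*k) / N i * (m i j + q i j)) := by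
          apply mul_le_mul_of_nonneg_left _ (hpw0 i)
          apply mul_le_mul_of_nonneg_left h3
          have := hN0 i
          positivity
      _ = _ := by ring
  -- the sums
  have hxy : ∀ i, (a i : ℝ) / N i + (b i : ℝ) / N i < 1 := fun i => by
    rw [← add_div, div_lt_one (hN0 i)]
    exact_mod_cast habN i
  have hmS : ∀ i, HasSum (m i) (2 * cardy (x1 (((a i : ℝ) / N i)^2) (((b i : ℝ) / N i)^2))) :=
    fun i => mainF_sum hF4 (div_pos (ha0 i) (hN0 i)) (div_pos (hb0 i) (hN0 i)) (hxy i)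
  -- geometric bounds
  set Cm : ℝ := 2 * cardy (x1 (ρ'^2) (σ'^2)) with hCm
  set Cq : ℝ := (2:ℝ)^((2:ℝ)/3) * cM * (x2 (ρ'^2) (σ'^2) - x1 (ρ'^2) (σ'^2))^(-(1:ℝ)/3) with hCq
  have hmb : ∀ i, (a i : ℝ) / N i < ρ + ε → (b i : ℝ) / N i < σ + ε → ∀ j, m i j ≤ r^j * Cm := by
    intro i h1 h2 j
    have h3 := mainF_le j (x := (a i : ℝ) / N i) (y := (b i : ℝ) / N i) (x' := ρ') (y' := σ')
      (s := r) (by have := ha0 i; positivity) (by have := hb0 i; positivity) hr0.le hr1.le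
      (by rw [hrρ]; exact h1.le) (by rw [hrσ]; exact h2.le) hρ'0.le
    have h4 := le_hasSum (mainF_sum hF4 hρ'0 hσ'0 hρσ') j fun l _ => mainF_nonneg l hρ'0.le
    exact h3.trans (mul_le_mul_of_nonneg_left h4 (by positivity))
  have hqb : ∀ i, (a i : ℝ) / N i < ρ + ε → (b i : ℝ) / N i < σ + ε → ∀ j, q i j ≤ r^j * Cq := by
    intro i h1 h2 j
    have h3 := corrF_le j (x := (a i : ℝ) / N i) (y := (b i : ℝ) / N i) (x' := ρ') (y' := σ')
      (s := r) (by have := ha0 i; positivity) (by have := hb0 i; positivity) hr0.le hr1.le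
      (by rw [hrρ]; exact h1.le) (by rw [hrσ]; exact h2.le)
    have h4 := le_hasSum (corrF_sum hB4 hρ'0 hσ'0 hρσ') j fun l _ => corrF_nonneg l _ _
    exact h3.trans (mul_le_mul_of_nonneg_left h4 (by positivity))
  have hCm0 : 0 ≤ Cm := (mainF_sum hF4 hρ'0 hσ'0 hρσ').nonneg fun l => mainF_nonneg l hρ'0.le
  have hCq0 : 0 ≤ Cq := (corrF_sum hB4 hρ'0 hσ'0 hρσ').nonneg fun l => corrF_nonneg l _ _
  -- termwise limits
  have hlimq : ∀ j, Tendsto (fun i => q i j) atTop (𝓝 (corrF j ρ σ)) := fun j =>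
    corrF_lim j hla hlb
  have hlimm : ∀ j, Tendsto (fun i => m i j) atTop (𝓝 (mainF j ρ σ)) := fun j =>
    mainF_lim j hla hlb
  have hpow0 : Tendsto (fun i => (N i : ℝ)^((2:ℝ)/3) / N i) atTop (𝓝 0) := by
    have h1 : Tendsto (fun i => (N i : ℝ)^(-((1:ℝ)/3))) atTop (𝓝 0) :=
      (tendsto_rpow_neg_atTop (by norm_num)).comp hNt'
    refine h1.congr fun i => ?_
    have h2 : (N i : ℝ)^(-((1:ℝ)/3)) = (N i : ℝ)^((2:ℝ)/3 - 1) := by norm_num
    rw [h2, Real.rpow_sub (hN0 i), Real.rpow_one]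
  have haj : ∀ j : ℕ, ∀ᶠ i in atTop, (j+1)^2 ≤ a i ∧ (j+1)^2 ≤ b i := by
    intro j
    filter_upwards [ev, hNt'.eventually_ge_atTop ((((j+1)^2 : ℕ) : ℝ) / c)] with i hi hi2
    obtain ⟨-, -, q3, q4, -, -⟩ := hi
    rw [lt_div_iff₀ (hN0 i)] at q3 q4
    rw [div_le_iff₀ hc0] at hi2
    have h1 : (((j+1)^2 : ℕ) : ℝ) ≤ a i := by linarith
    have h2 : (((j+1)^2 : ℕ) : ℝ) ≤ b i := by linarith
    exact ⟨by exact_mod_cast h1, by exact_mod_cast h2⟩
  have hterm : ∀ j, Tendsto (fun i => (N i : ℝ)^((2:ℝ)/3) * (t i j - m i j)) atTop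
      (𝓝 (corrF j ρ σ)) := by
    intro j
    have h1 : Tendsto (fun i => (N i : ℝ)^((2:ℝ)/3) * (t i j - m i j) - q i j) atTop (𝓝 0) := by
      have h2 : Tendsto (fun i => C1 * ((j:ℝ)+1)^(6*k) * ((N i : ℝ)^((2:ℝ)/3) / N i) *
          (m i j + q i j)) atTop (𝓝 (C1 * ((j:ℝ)+1)^(6*k) * 0 *
            (mainF j ρ σ + corrF j ρ σ))) :=
        (hpow0.const_mul _).mul ((hlimm j).add (hlimq j))
      rw [mul_zero, zero_mul] at h2
      refine squeeze_zero_norm' ?_ h2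
      filter_upwards [ev, haj j] with i hi hi2
      rw [Real.norm_eq_abs]
      exact est i hi.2.2.1 hi.2.2.2.1 hi.2.2.2.2.1 j hi2.1 hi2.2
    have h3 := h1.add (hlimq j)
    rw [zero_add] at h3
    exact h3.congr fun i => by ring
  -- dominated convergence
  set K : ℕ := 6*k + 2 with hKK
  set Cb : ℝ := C1 * (Cm + Cq) + Cq + (2 + Cm) / c with hCb
  have hdc : Tendsto (fun i => ∑' j, (N i : ℝ)^((2:ℝ)/3) * (t i j - m i j)) atTop
      (𝓝 (∑' j, corrF j ρ σ)) := by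
    refine tendsto_tsum_of_dominated_convergence
      (bound := fun j => Cb * (((j:ℝ)+1)^K * r^j)) ?_ hterm ?_
    · apply Summable.mul_left
      have h1 := summable_pow_mul_geometric_of_norm_lt_one K (r := r)
        (by rw [Real.norm_of_nonneg hr0.le]; exact hr1)
      have h2 := ((summable_nat_add_iff 1).2 h1).mul_left r⁻¹
      refine h2.congr fun j => ?_
      push_cast
      rw [pow_succ r j]
      field_simp
    · filter_upwards [ev] with i hi j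
      obtain ⟨q1, q2, q3, q4, q5, q6⟩ := hi
      rw [Real.norm_eq_abs]
      have hm1 := hmb i q1 q2 j
      have hq1 := hqb i q1 q2 j
      have ht1 := htr i q6 j
      have hrj : 0 < r^j := by positivity
      have hj1 : (1:ℝ) ≤ (j:ℝ) + 1 := by
        have : (0:ℝ) ≤ j := Nat.cast_nonneg j
        linarith
      have hK1 : ((j:ℝ)+1)^(6*k) ≤ ((j:ℝ)+1)^K := pow_le_pow_right₀ hj1 (by omega)
      have hK2 : ((j:ℝ)+1)^2 ≤ ((j:ℝ)+1)^K := pow_le_pow_right₀ hj1 (by omega)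
      have hK3 : (1:ℝ) ≤ ((j:ℝ)+1)^K := one_le_pow₀ hj1
      have hcc : 0 ≤ (2 + Cm) / c := by positivity
      by_cases hcase : (j+1)^2 ≤ a i ∧ (j+1)^2 ≤ b i
      · have h1 := est i q3 q4 q5 j hcase.1 hcase.2
        have h2 : |(N i : ℝ)^((2:ℝ)/3) * (t i j - m i j)| ≤
            |(N i : ℝ)^((2:ℝ)/3) * (t i j - m i j) - q i j| + |q i j| := by
          have := abs_add_le ((N i : ℝ)^((2:ℝ)/3) * (t i j - m i j) - q i j) (q i j)
          rwa [sub_add_cancel] at this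
        rw [abs_of_nonneg (hq0 i j)] at h2
        have h3 : (N i : ℝ)^((2:ℝ)/3) / N i ≤ 1 := by
          rw [div_le_one (hN0 i)]
          exact hpw i
        have h4 : C1 * ((j:ℝ)+1)^(6*k) * ((N i : ℝ)^((2:ℝ)/3) / N i) * (m i j + q i j) ≤
            C1 * ((j:ℝ)+1)^K * (r^j * (Cm + Cq)) := by
          have h5 : m i j + q i j ≤ r^j * (Cm + Cq) := by rw [mul_add]; linarith
          have h6 : C1 * ((j:ℝ)+1)^(6*k) * ((N i : ℝ)^((2:ℝ)/3) / N i) ≤
              C1 * ((j:ℝ)+1)^K := by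
            calc _ ≤ C1 * ((j:ℝ)+1)^(6*k) * 1 := mul_le_mul_of_nonneg_left h3 (by positivity)
              _ = C1 * ((j:ℝ)+1)^(6*k) := mul_one _
              _ ≤ _ := mul_le_mul_of_nonneg_left hK1 hC1
          exact mul_le_mul h6 h5 (add_nonneg (hm0 i j) (hq0 i j)) (by positivity)
        have h5 : q i j ≤ Cq * (((j:ℝ)+1)^K * r^j) := by
          have h6 : r^j * Cq * 1 ≤ r^j * Cq * ((j:ℝ)+1)^K :=
            mul_le_mul_of_nonneg_left hK3 (by positivity)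
          linarith
        have h6 : 0 ≤ (2 + Cm) / c * (((j:ℝ)+1)^K * r^j) := by positivity
        have h7 : Cb * (((j:ℝ)+1)^K * r^j) = C1 * ((j:ℝ)+1)^K * (r^j * (Cm + Cq)) +
            Cq * (((j:ℝ)+1)^K * r^j) + (2 + Cm) / c * (((j:ℝ)+1)^K * r^j) := by
          rw [hCb]; ring
        rw [h7]
        linarith
      · have h1 : c * N i ≤ ((j:ℝ)+1)^2 := by
          rw [lt_div_iff₀ (hN0 i)] at q3 q4
          rw [not_and_or, not_le, not_le] at hcase
          rcases hcase with h | h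
          · have : ((a i : ℕ) : ℝ) ≤ (((j+1)^2 : ℕ) : ℝ) := by exact_mod_cast h.le
            push_cast at this
            linarith
          · have : ((b i : ℕ) : ℝ) ≤ (((j+1)^2 : ℕ) : ℝ) := by exact_mod_cast h.le
            push_cast at this
            linarith
        have h2 : (N i : ℝ)^((2:ℝ)/3) ≤ ((j:ℝ)+1)^K / c := by
          rw [le_div_iff₀ hc0]
          have := mul_le_mul_of_nonneg_right (hpw i) hc0.le
          linarith
        have h3 : |t i j - m i j| ≤ r^j * (2 + Cm) := by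
          rw [abs_le]
          have := ht0 i j
          have := hm0 i j
          constructor
          · nlinarith
          · nlinarith
        rw [abs_mul, abs_of_nonneg (hpw0 i)]
        have h4 : (N i : ℝ)^((2:ℝ)/3) * |t i j - m i j| ≤ ((j:ℝ)+1)^K / c * (r^j * (2 + Cm)) :=
          mul_le_mul h2 h3 (abs_nonneg _) (by positivity)
        have h5 : 0 ≤ (C1 * (Cm + Cq) + Cq) * (((j:ℝ)+1)^K * r^j) := by positivity
        have h6 : Cb * (((j:ℝ)+1)^K * r^j) = (C1 * (Cm + Cq) + Cq) * (((j:ℝ)+1)^K * r^j) +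
            ((j:ℝ)+1)^K / c * (r^j * (2 + Cm)) := by
          rw [hCb]; ring
        rw [h6]
        linarith
  rw [(corrF_sum hB4 hρ hσ hρσ).tsum_eq] at hdc
  have hts : ∀ i, ∑' j, (N i : ℝ)^((2:ℝ)/3) * (t i j - m i j) = (N i : ℝ)^((2:ℝ)/3) *
      (2 * ((FG (a i) (b i) (N i) : ℚ) : ℝ) -
        2 * cardy (x1 (((a i : ℝ) / N i)^2) (((b i : ℝ) / N i)^2))) := by
    intro i
    exact (((hsum i).sub (hmS i)).mul_left _).tsum_eq
  simp only [hts] at hdc
  have h5 := hdc.const_mul (1/2 : ℝ)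
  have h6 : (1/2 : ℝ) * ((2:ℝ)^((2:ℝ)/3) * cM *
      (x2 (ρ^2) (σ^2) - x1 (ρ^2) (σ^2))^(-(1:ℝ)/3)) =
      cR * (x2 (ρ^2) (σ^2) - x1 (ρ^2) (σ^2))^(-(1:ℝ)/3) := by
    unfold cR
    have h7 : (2:ℝ)^(-(1:ℝ)/3) = (1/2) * (2:ℝ)^((2:ℝ)/3) := by
      have h8 : (2:ℝ)^(-(1:ℝ)/3) = (2:ℝ)^((2:ℝ)/3 - 1) := by norm_num
      rw [h8, Real.rpow_sub (by norm_num), Real.rpow_one]
      ring
    rw [h7]
    ring
  rw [h6] at h5
  exact h5.congr fun i => by ring

end Pool.Agent.NH38.Fork.R4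

namespace Pool.Agent.NH38.Fork

open R4

/-- FR-4: the sharp rate for odd widths -/
theorem t_RateG (hMJ : S_MJ) (hpos : S_pos) (hs : S_sE) (hv : S_vE) (hK : S_KE) (hM : S_ME)
    (hF4 : S_F4) (hB4 : S_B4) (hFG : S_FGle) : S_RateG :=
  rate (k := 3) (by norm_num) hMJ hpos hs hv hK hM hF4 hB4 hFG

end Pool.Agent.NH38.Fork
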