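import Pool.Agent.NH38.Fork.Stubs5
import Pool.Agent.NH38.Fork.NG5
import Pool.Agent.NH38.Fork.N5

set_option autoImplicit false

/-!
# FR-4: the sharp rate for odd widths (S_RateG).  Written by helper81.
-/

namespace Pool.Agent.NH38.Fork.R4

open Polynomial Filter Topology Finset
open Pool.Agent.NH38.Step (cardy)
open Pool.Agent.NH38.Fork.NG5 (hf mj_eq M0_pos kap_pos hf_nonneg mj_nonneg mj_le)

/-! ## relative errors -/

/-- relative error -/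
def Rl (e x X : ℝ) : Prop := |x - X| ≤ (e - 1) * X ∧ 0 ≤ X

lemma Rl.mul {e1 e2 x X y Y : ℝ} (h1 : Rl e1 x X) (h2 : Rl e2 y Y) (he1 : 1 ≤ e1)
    (he2 : 1 ≤ e2) : Rl (e1 * e2) (x * y) (X * Y) := by
  refine ⟨?_, mul_nonneg h1.2 h2.2⟩
  have e : x * y - X * Y = (x - X) * (y - Y) + X * (y - Y) + Y * (x - X) := by ring
  rw [e]
  have a1 : |(x - X) * (y - Y)| ≤ ((e1 - 1) * X) * ((e2 - 1) * Y) := by
    rw [abs_mul]
    exact mul_le_mul h1.1 h2.1 (abs_nonneg _) (mul_nonneg (by linarith) h1.2)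
  have a2 : |X * (y - Y)| ≤ X * ((e2 - 1) * Y) := by
    rw [abs_mul, abs_of_nonneg h1.2]
    exact mul_le_mul_of_nonneg_left h2.1 h1.2
  have a3 : |Y * (x - X)| ≤ Y * ((e1 - 1) * X) := by
    rw [abs_mul, abs_of_nonneg h2.2]
    exact mul_le_mul_of_nonneg_left h1.1 h2.2
  calc |(x - X) * (y - Y) + X * (y - Y) + Y * (x - X)|
      ≤ |(x - X) * (y - Y)| + |X * (y - Y)| + |Y * (x - X)| := abs_add_three _ _ _
    _ ≤ ((e1 - 1) * X) * ((e2 - 1) * Y) + X * ((e2 - 1) * Y) + Y * ((e1 - 1) * X) := by linarith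
    _ = _ := by ring

lemma Rl.trans {e1 e2 x X Z : ℝ} (h1 : Rl e1 x X) (h2 : Rl e2 X Z) (he1 : 1 ≤ e1) :
    Rl (e1 * e2) x Z := by
  refine ⟨?_, h2.2⟩
  have h3 := abs_le.1 h2.1
  have h4 : (e1 - 1) * X ≤ (e1 - 1) * (e2 * Z) :=
    mul_le_mul_of_nonneg_left (by linarith [h3.2]) (by linarith)
  have h5 : |x - Z| ≤ |x - X| + |X - Z| := abs_sub_le _ _ _
  have h6 := h1.1
  have h7 := h2.1
  calc |x - Z| ≤ (e1 - 1) * (e2 * Z) + (e2 - 1) * Z := by linarith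
    _ = _ := by ring

lemma Rl.mono {e e' x X : ℝ} (h : Rl e x X) (he : e ≤ e') : Rl e' x X :=
  ⟨h.1.trans (mul_le_mul_of_nonneg_right (by linarith) h.2), h.2⟩

lemma Rl.sum {ι : Type*} (s : Finset ι) {e : ℝ} {x X : ι → ℝ} (h : ∀ i ∈ s, Rl e (x i) (X i)) :
    Rl e (∑ i ∈ s, x i) (∑ i ∈ s, X i) := by
  refine ⟨?_, Finset.sum_nonneg fun i hi => (h i hi).2⟩
  rw [← Finset.sum_sub_distrib, Finset.mul_sum]
  exact (Finset.abs_sum_le_sum_abs _ _).trans (Finset.sum_le_sum fun i hi => (h i hi).1)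

lemma Rl.prod {e : ℝ} (he : 1 ≤ e) {x X : ℕ → ℝ} (j : ℕ) (h : ∀ i, i < j → Rl e (x i) (X i)) :
    Rl (e^j) (∏ i ∈ range j, x i) (∏ i ∈ range j, X i) := by
  induction j with
  | zero => simp [Rl]
  | succ j ih =>
    rw [Finset.prod_range_succ, Finset.prod_range_succ, pow_succ]
    exact (ih fun i hi => h i (by omega)).mul (h j (by omega)) (one_le_pow₀ he) he

lemma Rl.add {e x X y Y : ℝ} (h1 : Rl e x X) (h2 : Rl e y Y) : Rl e (x + y) (X + Y) := by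
  refine ⟨?_, add_nonneg h1.2 h2.2⟩
  have e1 : x + y - (X + Y) = (x - X) + (y - Y) := by ring
  rw [e1]
  calc |(x - X) + (y - Y)| ≤ |x - X| + |y - Y| := abs_add_le _ _
    _ ≤ (e - 1) * X + (e - 1) * Y := add_le_add h1.1 h2.1
    _ = _ := by ring

lemma Rl.refl {e X : ℝ} (he : 1 ≤ e) (hX : 0 ≤ X) : Rl e X X := by
  refine ⟨?_, hX⟩
  rw [sub_self, abs_zero]
  exact mul_nonneg (by linarith) hX

/-! ## constants -/

lemma cK_pos : 0 < cK := div_pos (Real.Gamma_pos_of_pos (by norm_num))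
  (Real.Gamma_pos_of_pos (by norm_num))

lemma cM_pos : 0 < cM := div_pos (Real.Gamma_pos_of_pos (by norm_num))
  (mul_pos (Real.Gamma_pos_of_pos (by norm_num)) (Real.Gamma_pos_of_pos (by norm_num)))

lemma cKM : cK * cM = 3 / Bt := by
  rw [N5.Bt_eq]
  unfold cK cM
  have g1 : Real.Gamma (4/3) = 1/3 * Real.Gamma (1/3) := by
    have := Real.Gamma_add_one (s := 1/3) (by norm_num)
    rw [← this]
    norm_num
  have p1 : 0 < Real.Gamma (1/3) := Real.Gamma_pos_of_pos (by norm_num)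
  have p2 : 0 < Real.Gamma (2/3) := Real.Gamma_pos_of_pos (by norm_num)
  have p3 : 0 < Real.Gamma (1/2) := Real.Gamma_pos_of_pos (by norm_num)
  have p4 : 0 < Real.Gamma (5/6) := Real.Gamma_pos_of_pos (by norm_num)
  rw [g1]
  field_simp

lemma rf_pos {s : ℝ} (hs : 0 < s) (n : ℕ) : 0 < rf s n := by
  unfold rf
  exact Finset.prod_pos fun i _ => by positivity

/-! ## the masses -/

lemma hf_rl {n j i : ℕ} (hj : (j+1)^2 ≤ n) (hi : i < j) :
    Rl (1 + 8 / (2*(n:ℝ)+1)) (4 * ((hf n i : ℚ) : ℝ))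
      ((1/3 + (i:ℝ)) * (2/3 + i) / ((n:ℝ) + 1/2)^2) := by
  have hi0 : (0:ℝ) ≤ i := Nat.cast_nonneg i
  have h1 : ((i:ℝ) + 1) ≤ j := by exact_mod_cast hi
  have h2 : ((j:ℝ) + 1)^2 ≤ n := by exact_mod_cast hj
  set y : ℝ := (n:ℝ) + 1/2 with hy
  have hn : (n:ℝ) = y - 1/2 := by rw [hy]; ring
  have hy0 : 0 < y := by rw [hy]; positivity
  have h3 : ((j:ℝ) + 1)^2 ≤ y := by linarith
  have h4 : (j:ℝ) + 1 ≤ y / 2 := by nlinarith
  have h5 : ((i:ℝ) + 1)^2 ≤ y := by nlinarith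
  set d : ℝ := (y - 1 - i) * (y + 3/2 + i) with hd
  have hd1 : y / 2 ≤ y - 1 - i := by linarith
  have hd2 : y^2 / 2 ≤ d := by
    rw [hd]
    have h6 : y / 2 * y ≤ (y - 1 - i) * (y + 3/2 + i) :=
      mul_le_mul hd1 (by linarith) hy0.le (by linarith)
    linarith
  have hd0 : 0 < d := lt_of_lt_of_le (by positivity) hd2
  set u : ℝ := (1/3 + (i:ℝ)) * (2/3 + i) with hu
  have hu0 : 0 ≤ u := by positivity
  have e1 : 4 * ((hf n i : ℚ) : ℝ) = u / d := by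
    unfold hf
    push_cast
    rw [hn, hd, hu]
    have h7 : y - 1 - i ≠ 0 := by linarith
    have h8 : y + 3/2 + i ≠ 0 := by positivity
    have e2 : 2 * (y - 1/2) - 1 - 2 * (i:ℝ) = 2 * (y - 1 - i) := by ring
    have e3 : 2 * (y - 1/2) + 4 + 2 * (i:ℝ) = 2 * (y + 3/2 + i) := by ring
    rw [e2, e3]
    field_simp
    ring
  have e4 : 1 + 8 / (2*(n:ℝ)+1) - 1 = 4 / y := by
    rw [hn]
    have : 2 * (y - 1/2) + 1 = 2 * y := by ring
    rw [this]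
    field_simp
    ring
  refine ⟨?_, by positivity⟩
  rw [e1, e4]
  have h6 : |y^2 - d| ≤ 2 * y := by
    have e5 : y^2 - d = (1 + i) * (3/2 + i) - y / 2 := by rw [hd]; ring
    rw [e5, abs_le]
    constructor
    · nlinarith
    · nlinarith
  have e6 : u / d - u / y^2 = (y^2 - d) * (u / (d * y^2)) := by
    field_simp
  rw [e6, abs_mul, abs_of_nonneg (by positivity : 0 ≤ u / (d * y^2))]
  calc |y^2 - d| * (u / (d * y^2)) ≤ (2 * y) * (u / (d * y^2)) :=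
        mul_le_mul_of_nonneg_right h6 (by positivity)
    _ = (2 * y / d) * (u / y^2) := by field_simp
    _ ≤ (4 / y) * (u / y^2) := by
        apply mul_le_mul_of_nonneg_right _ (by positivity)
        rw [div_le_div_iff₀ hd0 hy0]
        nlinarith

lemma exp_le {x : ℝ} (hx : 0 ≤ x) : Real.exp x ≤ 1 + x * Real.exp x := by
  have h1 := Real.add_one_le_exp (-x)
  have h2 : Real.exp x * (-x + 1) ≤ Real.exp x * Real.exp (-x) :=
    mul_le_mul_of_nonneg_left h1 (Real.exp_pos x).le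
  rw [← Real.exp_add, add_neg_cancel, Real.exp_zero] at h2
  linarith

/-- the masses divided by `M0` -/
lemma H_rl {n j : ℕ} (hj : (j+1)^2 ≤ n) :
    Rl (1 + 8 * Real.exp 8 * j / (2*(n:ℝ)+1)) (4^j * ∏ i ∈ range j, ((hf n i : ℚ) : ℝ))
      (rf (1/3) j * rf (2/3) j / ((n:ℝ) + 1/2)^(2*j)) := by
  have h1 := Rl.prod (e := 1 + 8 / (2*(n:ℝ)+1)) (le_add_of_nonneg_right (by positivity)) j
    (fun i hi => hf_rl hj hi)
  rw [Finset.prod_mul_distrib, Finset.prod_const, Finset.card_range, Finset.prod_div_distrib,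
    Finset.prod_mul_distrib, Finset.prod_const, Finset.card_range, ← pow_mul] at h1
  have h2 : (1 + 8 / (2*(n:ℝ)+1))^j ≤ 1 + 8 * Real.exp 8 * j / (2*(n:ℝ)+1) := by
    have h3 : (1 + 8 / (2*(n:ℝ)+1)) ≤ Real.exp (8 / (2*(n:ℝ)+1)) := by
      have := Real.add_one_le_exp (8 / (2*(n:ℝ)+1))
      linarith
    have h4 : (1 + 8 / (2*(n:ℝ)+1))^j ≤ Real.exp (8 / (2*(n:ℝ)+1))^j :=
      pow_le_pow_left₀ (by positivity) h3 j
    rw [← Real.exp_nat_mul] at h4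
    have h5 : (j:ℝ) ≤ 2 * n + 1 := by
      have : ((j:ℝ) + 1)^2 ≤ n := by exact_mod_cast hj
      have h0 : (0:ℝ) ≤ j := Nat.cast_nonneg j
      nlinarith
    set x : ℝ := (j:ℝ) * (8 / (2*(n:ℝ)+1)) with hx
    have hx0 : 0 ≤ x := by positivity
    have hx8 : x ≤ 8 := by
      rw [hx, mul_div_assoc', div_le_iff₀ (by positivity)]
      nlinarith
    have h6 := exp_le hx0
    have h7 : x * Real.exp x ≤ x * Real.exp 8 :=
      mul_le_mul_of_nonneg_left (Real.exp_le_exp.2 hx8) hx0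
    have h8 : x * Real.exp 8 = 8 * Real.exp 8 * j / (2*(n:ℝ)+1) := by
      rw [hx]; ring
    linarith
  exact h1.mono h2

/-! ## the uniform estimate -/

/-- the statements FR-3 with an exponent -/
def SE (k : ℕ) : Prop := ∃ C : ℝ, ∀ n l : ℕ, Odd n → (l+1)^2 ≤ n →
  |(((sv n).coeff l : ℚ) : ℝ) - ((n:ℝ)/2)^(2*l) * (((kap n : ℚ) : ℝ) / (rf (4/3) l *
    (Nat.factorial l : ℝ)) + 1 / (rf (2/3) l * (Nat.factorial l : ℝ)))| ≤
    C * ((l:ℝ)+1)^k / n * (((kap n : ℚ) : ℝ) * ((n:ℝ)/2)^(2*l) / (rf (4/3) l *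
      (Nat.factorial l : ℝ)))

def VE (k : ℕ) : Prop := ∃ C : ℝ, ∀ n l : ℕ, Odd n → (l+1)^2 ≤ n →
  |(((vv n).coeff l : ℚ) : ℝ) - ((n:ℝ)/2)^(2*l) / (rf (2/3) l * (Nat.factorial l : ℝ))| ≤
    C * ((l:ℝ)+1)^k / n * (((n:ℝ)/2)^(2*l) / (rf (2/3) l * (Nat.factorial l : ℝ)))

/-- the main term -/
noncomputable def mainF (j : ℕ) (x y : ℝ) : ℝ :=
  (2*x)^((2:ℝ)/3) * (3 / Bt) * ap (x^2) (y^2) j

/-- the correction -/
noncomputable def corrF (j : ℕ) (x y : ℝ) : ℝ := (2:ℝ)^((2:ℝ)/3) * cM * bp (x^2) (y^2) j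

lemma small {C C0 c L b : ℝ} {k p j : ℕ} (hc : 0 < c) (hL : 0 < L) (hb : c * L ≤ b)
    (hp : p ≤ j) (h0 : |C| / c ≤ C0) :
    C * ((p:ℝ)+1)^k / b ≤ C0 * ((j:ℝ)+1)^k / L := by
  have hb0 : 0 < b := lt_of_lt_of_le (mul_pos hc hL) hb
  have hp' : (p:ℝ) ≤ j := by exact_mod_cast hp
  have h1 : ((p:ℝ)+1)^k ≤ ((j:ℝ)+1)^k := pow_le_pow_left₀ (by positivity) (by linarith) k
  calc C * ((p:ℝ)+1)^k / b ≤ |C| * ((j:ℝ)+1)^k / (c * L) := by
        apply div_le_div₀ (by positivity) _ (by positivity) hb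
        exact mul_le_mul (le_abs_self C) h1 (by positivity) (abs_nonneg C)
    _ = |C| / c * ((j:ℝ)+1)^k / L := by field_simp
    _ ≤ _ := by
        apply div_le_div_of_nonneg_right _ hL.le
        exact mul_le_mul_of_nonneg_right h0 (by positivity)

lemma Rl.const {e x X c : ℝ} (h : Rl e x X) (hc : 0 ≤ c) : Rl e (c * x) (c * X) := by
  refine ⟨?_, mul_nonneg hc h.2⟩
  rw [← mul_sub, abs_mul, abs_of_nonneg hc]
  calc c * |x - X| ≤ c * ((e - 1) * X) := mul_le_mul_of_nonneg_left h.1 hc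
    _ = _ := by ring

/-- the exact form of the approximation -/
lemma Tm_eq {a b L : ℝ} (ha : 0 < a) (hL : 0 < L) (j : ℕ) :
    ∑ p ∈ antidiagonal j, ((b/2)^(2*p.1) / (rf (2/3) p.1 * (Nat.factorial p.1 : ℝ))) *
      ((a/2)^(2*p.2) * (cK * a^((2:ℝ)/3) / (rf (4/3) p.2 * (Nat.factorial p.2 : ℝ)) +
        1 / (rf (2/3) p.2 * (Nat.factorial p.2 : ℝ)))) *
      ((cM * (L/2)^(-(2:ℝ)/3)) * (rf (1/3) j * rf (2/3) j / (L/2)^(2*j))) =
    mainF j (a/L) (b/L) + L^(-(2:ℝ)/3) * corrF j (a/L) (b/L) := by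
  have h1 : (L/2)^(-(2:ℝ)/3) = (2:ℝ)^((2:ℝ)/3) * L^(-(2:ℝ)/3) := by
    rw [Real.div_rpow hL.le (by norm_num), neg_div, Real.rpow_neg (by norm_num : (0:ℝ) ≤ 2),
      div_inv_eq_mul, mul_comm]
  have h2 : cK * a^((2:ℝ)/3) * (cM * (L/2)^(-(2:ℝ)/3)) = (2*(a/L))^((2:ℝ)/3) * (3 / Bt) := by
    rw [← cKM, h1, Real.mul_rpow (by norm_num) (by positivity), Real.div_rpow ha.le hL.le,
      neg_div, Real.rpow_neg hL.le, div_eq_mul_inv]
    ring
  unfold mainF corrF ap bp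
  rw [Finset.Nat.sum_antidiagonal_eq_sum_range_succ (fun x y =>
    ((b/2)^(2*x) / (rf (2/3) x * (Nat.factorial x : ℝ))) *
      ((a/2)^(2*y) * (cK * a^((2:ℝ)/3) / (rf (4/3) y * (Nat.factorial y : ℝ)) +
        1 / (rf (2/3) y * (Nat.factorial y : ℝ)))) *
      ((cM * (L/2)^(-(2:ℝ)/3)) * (rf (1/3) j * rf (2/3) j / (L/2)^(2*j)))) j,
    Finset.mul_sum, Finset.mul_sum, Finset.mul_sum, ← Finset.sum_add_distrib]
  refine Finset.sum_congr rfl fun i hi => ?_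
  have hij : i ≤ j := by
    rw [mem_range] at hi
    omega
  have h3 : (b/2)^(2*i) * (a/2)^(2*(j-i)) / (L/2)^(2*j) = ((b/L)^2)^i * ((a/L)^2)^(j-i) := by
    have e1 : (L/2)^(2*j) = (L/2)^(2*i) * (L/2)^(2*(j-i)) := by
      rw [← pow_add]
      congr 1
      omega
    rw [e1, ← pow_mul, ← pow_mul, div_pow, div_pow, div_pow, div_pow, div_pow, div_pow]
    field_simp
  calc _ = ((b/2)^(2*i) * (a/2)^(2*(j-i)) / (L/2)^(2*j)) *
      ((cK * a^((2:ℝ)/3) * (cM * (L/2)^(-(2:ℝ)/3))) * (rf (1/3) j * rf (2/3) j /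
        (rf (2/3) i * (Nat.factorial i : ℝ) * (rf (4/3) (j-i) * (Nat.factorial (j-i) : ℝ)))) +
        (cM * (L/2)^(-(2:ℝ)/3)) * (rf (1/3) j * rf (2/3) j /
        (rf (2/3) i * (Nat.factorial i : ℝ) * (rf (2/3) (j-i) * (Nat.factorial (j-i) : ℝ))))) := by
        ring
    _ = _ := by
        rw [h3, h2, h1]
        ring

lemma last {D C0 L X : ℝ} (k : ℕ) (hD : D = C0 * X^k / L) (hC0 : 0 ≤ C0) (hX : 1 ≤ X^k)
    (hX0 : 0 ≤ X) (hL : 1 ≤ L) : ((1 + D) * ((1 + D) * (1 + D))) * (((1 + D) * (1 + D)) * (1 + D)) -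
      1 ≤ 6 * C0 * (1 + C0)^5 * X^(6*k) / L := by
  have hL0 : 0 < L := by linarith
  have hD0 : 0 ≤ D := by rw [hD]; positivity
  have h1 : ((1 + D) * ((1 + D) * (1 + D))) * (((1 + D) * (1 + D)) * (1 + D)) - 1 ≤
      6 * D * (1 + D)^5 := by
    have h2 : 6 * D * (1 + D)^5 - (((1 + D) * ((1 + D) * (1 + D))) *
        (((1 + D) * (1 + D)) * (1 + D)) - 1) =
        15*D^2 + 40*D^3 + 45*D^4 + 24*D^5 + 5*D^6 := by ring
    have h3 : 0 ≤ 15*D^2 + 40*D^3 + 45*D^4 + 24*D^5 + 5*D^6 := by positivity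
    linarith
  have h2 : 1 + D ≤ (1 + C0) * X^k := by
    have h3 : D ≤ C0 * X^k := by
      rw [hD]
      exact div_le_self (by positivity) hL
    have h4 : (1 + C0) * X^k = X^k + C0 * X^k := by ring
    rw [h4]
    linarith
  have h3 : (1 + D)^5 ≤ ((1 + C0) * X^k)^5 := pow_le_pow_left₀ (by positivity) h2 5
  calc _ ≤ 6 * D * (1 + D)^5 := h1
    _ ≤ 6 * D * ((1 + C0) * X^k)^5 := mul_le_mul_of_nonneg_left h3 (by positivity)
    _ = _ := by
      rw [hD, mul_pow, ← pow_mul]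
      have h4 : X^(6*k) = X^k * X^(k*5) := by
        rw [← pow_add]
        congr 1
        ring
      rw [h4]
      ring

lemma U {k : ℕ} (hk : 1 ≤ k) (hMJ : S_MJ) (hs : SE k) (hv : VE k) (hK : S_KE) (hM : S_ME)
    {c : ℝ} (hc : 0 < c) : ∃ C1 : ℝ, 0 ≤ C1 ∧ ∀ a b n j : ℕ, Odd a → Odd b → a + b ≤ 2*n →
    c * (2*(n:ℝ)+1) ≤ a → c * (2*(n:ℝ)+1) ≤ b → 1 ≤ n → (j+1)^2 ≤ a → (j+1)^2 ≤ b →
    0 ≤ mainF j ((a:ℝ)/(2*n+1)) ((b:ℝ)/(2*n+1)) + (2*(n:ℝ)+1)^(-(2:ℝ)/3) *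
      corrF j ((a:ℝ)/(2*n+1)) ((b:ℝ)/(2*n+1)) ∧
    |((cg a b j * mj (2*n+1) j : ℚ) : ℝ) - (mainF j ((a:ℝ)/(2*n+1)) ((b:ℝ)/(2*n+1)) +
      (2*(n:ℝ)+1)^(-(2:ℝ)/3) * corrF j ((a:ℝ)/(2*n+1)) ((b:ℝ)/(2*n+1)))| ≤
    C1 * ((j:ℝ)+1)^(6*k) / (2*n+1) * (mainF j ((a:ℝ)/(2*n+1)) ((b:ℝ)/(2*n+1)) +
      (2*(n:ℝ)+1)^(-(2:ℝ)/3) * corrF j ((a:ℝ)/(2*n+1)) ((b:ℝ)/(2*n+1))) := by
  obtain ⟨Cs, hCs⟩ := hs
  obtain ⟨Cv, hCv⟩ := hv
  obtain ⟨CK, hCK⟩ := hK
  obtain ⟨CM, hCM⟩ := hM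
  have cK0 := cK_pos
  have cM0 := cM_pos
  set C0 : ℝ := |Cv| / c + |Cs| / c + |CK / cK| / c + |CM / cM| / (1/3) + 2 + 8 * Real.exp 8
    with hC0
  have p1 : 0 ≤ |Cv| / c := by positivity
  have p2 : 0 ≤ |Cs| / c := by positivity
  have p3 : 0 ≤ |CK / cK| / c := by positivity
  have p4 : 0 ≤ |CM / cM| / (1/3) := by positivity
  have p5 : 0 < 8 * Real.exp 8 := by positivity
  have hC00 : 0 ≤ C0 := by rw [hC0]; positivity
  refine ⟨6 * C0 * (1 + C0)^5, by positivity, ?_⟩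
  intro a b n j ha hb hab hca hcb hn hja hjb
  set L : ℝ := 2*(n:ℝ)+1 with hL
  have hn' : (1:ℝ) ≤ n := by exact_mod_cast hn
  have hL0 : 0 < L := by rw [hL]; positivity
  have hL1 : 1 ≤ L := by rw [hL]; linarith
  have ha0 : 0 < (a:ℝ) := lt_of_lt_of_le (mul_pos hc hL0) hca
  have hb0 : 0 < (b:ℝ) := lt_of_lt_of_le (mul_pos hc hL0) hcb
  have hj0 : (0:ℝ) ≤ j := Nat.cast_nonneg j
  have hjn : (j+1)^2 ≤ n := by omega
  set D : ℝ := C0 * ((j:ℝ)+1)^k / L with hD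
  have hD0 : 0 ≤ D := by rw [hD]; positivity
  set e : ℝ := 1 + D with he
  have he1 : 1 ≤ e := by rw [he]; linarith
  have hjk : (1:ℝ) ≤ ((j:ℝ)+1)^k := one_le_pow₀ (by linarith)
  have hjk2 : (j:ℝ) + 1 ≤ ((j:ℝ)+1)^k := by
    calc (j:ℝ) + 1 = ((j:ℝ)+1)^1 := (pow_one _).symm
      _ ≤ _ := pow_le_pow_right₀ (by linarith) hk
  have hkap : 0 < ((kap a : ℚ) : ℝ) := by exact_mod_cast kap_pos a
  have hM0 : 0 < ((M0 n : ℚ) : ℝ) := by exact_mod_cast M0_pos n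
  -- the coefficients of `vv`
  have rv : ∀ p ≤ j, Rl e (((vv b).coeff p : ℚ) : ℝ)
      ((((b:ℕ):ℝ)/2)^(2*p) / (rf (2/3) p * (Nat.factorial p : ℝ))) := by
    intro p hp
    have hp2 : (p+1)^2 ≤ b := (Nat.pow_le_pow_left (by omega) 2).trans hjb
    have h1 := hCv b p hb hp2
    have hr := rf_pos (s := 2/3) (by norm_num) p
    refine ⟨h1.trans ?_, by positivity⟩
    apply mul_le_mul_of_nonneg_right _ (by positivity)
    rw [he, add_sub_cancel_left]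
    exact small hc hL0 hcb hp (by linarith)
  -- the coefficients of `sv`
  have rk : Rl e ((kap a : ℚ) : ℝ) (cK * (a:ℝ)^((2:ℝ)/3)) := by
    refine ⟨?_, by positivity⟩
    have h1 := hCK a ha.pos
    rw [he, add_sub_cancel_left]
    refine h1.trans ?_
    have h2 : CK / cK * (((0:ℕ):ℝ)+1)^k / a ≤ D := small hc hL0 hca (Nat.zero_le j) (by linarith)
    rw [Nat.cast_zero, zero_add, one_pow, mul_one] at h2
    calc CK * (a:ℝ)^((2:ℝ)/3) / a = CK / cK / a * (cK * (a:ℝ)^((2:ℝ)/3)) := by field_simp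
      _ ≤ _ := mul_le_mul_of_nonneg_right h2 (by positivity)
  have rs : ∀ q ≤ j, Rl (e * e) (((sv a).coeff q : ℚ) : ℝ)
      ((((a:ℕ):ℝ)/2)^(2*q) * (cK * (a:ℝ)^((2:ℝ)/3) / (rf (4/3) q * (Nat.factorial q : ℝ)) +
        1 / (rf (2/3) q * (Nat.factorial q : ℝ)))) := by
    intro q hq
    have hq2 : (q+1)^2 ≤ a := (Nat.pow_le_pow_left (by omega) 2).trans hja
    have h1 := hCs a q ha hq2
    have hr := rf_pos (s := 2/3) (by norm_num) q
    have hr' := rf_pos (s := 4/3) (by norm_num) q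
    have h2 : Rl e (((sv a).coeff q : ℚ) : ℝ) (((a:ℝ)/2)^(2*q) * (((kap a : ℚ) : ℝ) /
        (rf (4/3) q * (Nat.factorial q : ℝ)) + 1 / (rf (2/3) q * (Nat.factorial q : ℝ)))) := by
      refine ⟨h1.trans ?_, by positivity⟩
      rw [he, add_sub_cancel_left]
      have h3 : Cs * ((q:ℝ)+1)^k / a ≤ D := small hc hL0 hca hq (by linarith)
      calc _ ≤ D * (((kap a : ℚ) : ℝ) * ((a:ℝ)/2)^(2*q) / (rf (4/3) q *
          (Nat.factorial q : ℝ))) := mul_le_mul_of_nonneg_right h3 (by positivity)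
        _ ≤ _ := by
          apply mul_le_mul_of_nonneg_left _ hD0
          have h4 : 0 ≤ ((a:ℝ)/2)^(2*q) * (1 / (rf (2/3) q * (Nat.factorial q : ℝ))) := by
            positivity
          rw [mul_add]
          calc _ = ((a:ℝ)/2)^(2*q) * (((kap a : ℚ) : ℝ) / (rf (4/3) q *
              (Nat.factorial q : ℝ))) := by ring
            _ ≤ _ := by linarith
    refine h2.trans ?_ he1
    apply Rl.const _ (by positivity)
    apply Rl.add
    · have h3 := rk.const (c := 1 / (rf (4/3) q * (Nat.factorial q : ℝ))) (by positivity)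
      rw [one_div_mul_eq_div, one_div_mul_eq_div] at h3
      exact h3
    · exact Rl.refl he1 (by positivity)
  -- the mass
  have rm : Rl (e * e) ((M0 n : ℚ) : ℝ) (cM * (L/2)^(-(2:ℝ)/3)) := by
    have hn0 : (0:ℝ) < n := by linarith
    have h1 : Rl e ((M0 n : ℚ) : ℝ) (cM * (n:ℝ)^(-(2:ℝ)/3)) := by
      refine ⟨?_, by positivity⟩
      have h1 := hCM n hn
      rw [he, add_sub_cancel_left]
      refine h1.trans ?_
      have h2 : CM / cM * (((0:ℕ):ℝ)+1)^k / n ≤ D :=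
        small (c := 1/3) (by norm_num) hL0 (by rw [hL]; linarith) (Nat.zero_le j) (by linarith)
      rw [Nat.cast_zero, zero_add, one_pow, mul_one] at h2
      calc CM * (n:ℝ)^(-(2:ℝ)/3) / n = CM / cM / n * (cM * (n:ℝ)^(-(2:ℝ)/3)) := by field_simp
        _ ≤ _ := mul_le_mul_of_nonneg_right h2 (by positivity)
    refine h1.trans ?_ he1
    apply Rl.const _ cM0.le
    have hy0 : 0 < L/2 := by positivity
    refine ⟨?_, by positivity⟩
    have h2 : (n:ℝ)^(-(2:ℝ)/3) = (L/2)^(-(2:ℝ)/3) * ((L/2)/n)^((2:ℝ)/3) := by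
      rw [Real.div_rpow hy0.le hn0.le, neg_div, Real.rpow_neg hy0.le, Real.rpow_neg hn0.le]
      have h3 : (L/2)^((2:ℝ)/3) ≠ 0 := (Real.rpow_pos_of_pos hy0 _).ne'
      field_simp
    have h3 : 1 ≤ (L/2)/n := by
      rw [le_div_iff₀ hn0, hL]
      linarith
    have h4 : ((L/2)/n)^((2:ℝ)/3) ≤ (L/2)/n := by
      calc ((L/2)/n)^((2:ℝ)/3) ≤ ((L/2)/n)^(1:ℝ) :=
            Real.rpow_le_rpow_of_exponent_le h3 (by norm_num)
        _ = _ := Real.rpow_one _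
    have h5 : 1 ≤ ((L/2)/n)^((2:ℝ)/3) := Real.one_le_rpow h3 (by norm_num)
    have h6 : (L/2)/n - 1 ≤ D := by
      have h7 : (L/2)/n - 1 = (1/2) / n := by
        rw [hL]
        field_simp
        ring
      rw [h7]
      have h8 : (1/2 : ℝ) / n ≤ 2 / L := by
        rw [div_le_div_iff₀ hn0 hL0, hL]
        linarith
      refine h8.trans ?_
      rw [hD]
      apply div_le_div_of_nonneg_right _ hL0.le
      have h9 : (2:ℝ) ≤ C0 := by linarith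
      calc (2:ℝ) ≤ C0 * 1 := by linarith
        _ ≤ C0 * ((j:ℝ)+1)^k := mul_le_mul_of_nonneg_left hjk hC00
    rw [h2]
    have e1 : (L/2)^(-(2:ℝ)/3) * ((L/2)/n)^((2:ℝ)/3) - (L/2)^(-(2:ℝ)/3) =
        (((L/2)/n)^((2:ℝ)/3) - 1) * (L/2)^(-(2:ℝ)/3) := by ring
    rw [e1, abs_mul, abs_of_nonneg (by linarith), abs_of_nonneg (by positivity : (0:ℝ) ≤
      (L/2)^(-(2:ℝ)/3)), he, add_sub_cancel_left]
    apply mul_le_mul_of_nonneg_right _ (by positivity)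
    linarith
  have rh : Rl e (4^j * ∏ i ∈ range j, ((hf n i : ℚ) : ℝ))
      (rf (1/3) j * rf (2/3) j / (L/2)^(2*j)) := by
    have h1 := H_rl hjn
    have h2 : (n:ℝ) + 1/2 = L/2 := by rw [hL]; ring
    rw [h2, ← hL] at h1
    apply h1.mono
    rw [he, hD]
    have h3 : 8 * Real.exp 8 * j / L ≤ C0 * ((j:ℝ)+1)^k / L := by
      apply div_le_div_of_nonneg_right _ hL0.le
      have h4 : 8 * Real.exp 8 ≤ C0 := by linarith
      exact mul_le_mul h4 (by linarith) hj0 hC00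
    linarith
  -- assembly
  have e1 : ((cg a b j * mj (2*n+1) j : ℚ) : ℝ) = ∑ p ∈ antidiagonal j,
      (((vv b).coeff p.1 : ℚ) : ℝ) * (((sv a).coeff p.2 : ℚ) : ℝ) *
      (((M0 n : ℚ) : ℝ) * (4^j * ∏ i ∈ range j, ((hf n i : ℚ) : ℝ))) := by
    have hjn' : j ≤ n := by
      have h1 : j + 1 ≤ (j+1)^2 := Nat.le_self_pow two_ne_zero _
      omega
    rw [mj_eq hMJ hjn']
    unfold cg
    rw [Polynomial.coeff_mul, Finset.sum_mul, Rat.cast_sum]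
    refine Finset.sum_congr rfl fun p _ => ?_
    push_cast
    ring
  have rt : Rl ((e * (e * e)) * ((e * e) * e)) ((cg a b j * mj (2*n+1) j : ℚ) : ℝ)
      (mainF j ((a:ℝ)/L) ((b:ℝ)/L) + L^(-(2:ℝ)/3) * corrF j ((a:ℝ)/L) ((b:ℝ)/L)) := by
    rw [e1, ← Tm_eq ha0 hL0 j]
    apply Rl.sum
    intro p hp
    have hp' : p.1 + p.2 = j := by simpa using hp
    have hee : 1 ≤ e * e := one_le_mul_of_one_le_of_one_le he1 he1
    have h1 := (rv p.1 (by omega)).mul (rs p.2 (by omega)) he1 hee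
    have h2 := rm.mul rh hee he1
    exact h1.mul h2 (one_le_mul_of_one_le_of_one_le he1 hee)
      (one_le_mul_of_one_le_of_one_le hee he1)
  refine ⟨rt.2, rt.1.trans ?_⟩
  apply mul_le_mul_of_nonneg_right _ rt.2
  have h1 := last k hD hC00 hjk (by linarith) hL1
  rw [← he] at h1
  exact h1

end Pool.Agent.NH38.Fork.R4
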