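import Pool.Agent.NH38.Fork.Stubs4

/-!
Forked channels (helper38): statements of the tasks, part 5: the sharp rate of convergence in
Cardy's formula and the one-arm function at the corner (nothing is proved here).
-/

namespace Pool.Agent.NH38.Fork

open Pool.Agent.H988R2.Perc hiding X
open Pool.Agent.NH38.Step (cardy)
open Polynomial Filter Topology MeasureTheory

/-- coefficients of Appell's function `F_4(1/3, 2/3; 2/3, 2/3; A, B)` -/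
noncomputable def bp (A B : ℝ) (m : ℕ) : ℝ := ∑ i ∈ Finset.range (m+1),
  rf (1/3) m * rf (2/3) m / (rf (2/3) i * (Nat.factorial i : ℝ) * (rf (2/3) (m-i) *
    (Nat.factorial (m-i) : ℝ))) * B^i * A^(m-i)

/-- R1 -/
def S_B4 : Prop := ∀ A B : ℝ, 0 < A → 0 < B → Real.sqrt A + Real.sqrt B < 1 →
  HasSum (bp A B) ((x2 A B - x1 A B)^(-(1:ℝ)/3))

noncomputable def cK : ℝ := Real.Gamma (2/3) / Real.Gamma (4/3)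
noncomputable def cM : ℝ := Real.Gamma (5/6) / (Real.Gamma (1/2) * Real.Gamma (2/3))

/-- R2: Gamma quotients with error terms -/
def S_KE : Prop := ∃ C : ℝ, ∀ n : ℕ, 1 ≤ n →
  |((kap n : ℚ) : ℝ) - cK * (n:ℝ)^((2:ℝ)/3)| ≤ C * (n:ℝ)^((2:ℝ)/3) / n

def S_ME : Prop := ∃ C : ℝ, ∀ n : ℕ, 1 ≤ n →
  |((M0 n : ℚ) : ℝ) - cM * (n:ℝ)^(-(2:ℝ)/3)| ≤ C * (n:ℝ)^(-(2:ℝ)/3) / n

/-- R3: coefficients of `sv`, `vv` with error terms -/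
def S_sE : Prop := ∃ C : ℝ, ∀ n l : ℕ, Odd n → (l+1)^2 ≤ n →
  |(((sv n).coeff l : ℚ) : ℝ) - ((n:ℝ)/2)^(2*l) * (((kap n : ℚ) : ℝ) / (rf (4/3) l *
    (Nat.factorial l : ℝ)) + 1 / (rf (2/3) l * (Nat.factorial l : ℝ)))| ≤
    C * ((l:ℝ)+1)^3 / n * (((kap n : ℚ) : ℝ) * ((n:ℝ)/2)^(2*l) / (rf (4/3) l *
      (Nat.factorial l : ℝ)))

def S_vE : Prop := ∃ C : ℝ, ∀ n l : ℕ, Odd n → (l+1)^2 ≤ n →
  |(((vv n).coeff l : ℚ) : ℝ) - ((n:ℝ)/2)^(2*l) / (rf (2/3) l * (Nat.factorial l : ℝ))| ≤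
    C * ((l:ℝ)+1)^3 / n * (((n:ℝ)/2)^(2*l) / (rf (2/3) l * (Nat.factorial l : ℝ)))

/-- the constant of the correction -/
noncomputable def cR : ℝ := 2^(-(1:ℝ)/3) * cM

/-- R4: the sharp rate, odd widths -/
def S_RateG : Prop := ∀ (a b N : ℕ → ℕ) (ρ σ : ℝ), 0 < ρ → 0 < σ → ρ + σ < 1 →
  (∀ i, Odd (a i)) → (∀ i, Odd (b i)) → (∀ i, Odd (N i)) → (∀ i, a i + b i < N i) →
  Tendsto N atTop atTop → Tendsto (fun i => (a i : ℝ) / N i) atTop (𝓝 ρ) →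
  Tendsto (fun i => (b i : ℝ) / N i) atTop (𝓝 σ) →
  Tendsto (fun i => (N i : ℝ)^((2:ℝ)/3) * (((FG (a i) (b i) (N i) : ℚ) : ℝ) -
    cardy (x1 (((a i : ℝ) / N i)^2) (((b i : ℝ) / N i)^2)))) atTop
    (𝓝 (cR * (x2 (ρ^2) (σ^2) - x1 (ρ^2) (σ^2))^(-(1:ℝ)/3)))

/-- R5: the sharp rate, all widths. -/
def S_RateP : Prop := ∀ (α γ β K : ℝ), 0 < α → 0 < γ → 0 < β → ∀ (δ : ℕ → ℝ) (a m b : ℕ → ℕ),
  (∀ n, 0 < δ n) → Tendsto δ atTop (𝓝 0) → (∀ n, |δ n * a n - α| ≤ K * δ n) →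
  (∀ n, |δ n * m n - γ| ≤ K * δ n) → (∀ n, |δ n * b n - β| ≤ K * δ n) →
  Tendsto (fun n => (perc.real (FCross (a n) (m n) (b n)) -
    cardy (x1 ((α/(α+γ+β))^2) ((β/(α+γ+β))^2))) / (δ n)^((2:ℝ)/3)) atTop
    (𝓝 (cR * (x2 ((α/(α+γ+β))^2) ((β/(α+γ+β))^2) - x1 ((α/(α+γ+β))^2) ((β/(α+γ+β))^2))^(-(1:ℝ)/3) *
      (α+γ+β)^(-(2:ℝ)/3)))

/-- R6: the one-arm function at the corner (left arm of fixed width), odd widths -/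
def S_OneG : Prop := ∀ (a : ℕ) (b N : ℕ → ℕ) (σ : ℝ), Odd a → σ < 1 →
  (∀ i, Odd (b i)) → (∀ i, Odd (N i)) → (∀ i, a + b i < N i) →
  Tendsto N atTop atTop → Tendsto (fun i => (b i : ℝ) / N i) atTop (𝓝 σ) →
  Tendsto (fun i => (N i : ℝ)^((2:ℝ)/3) * ((FG a (b i) (N i) : ℚ) : ℝ)) atTop
    (𝓝 ((((sv a).coeff 0 : ℚ) : ℝ) * cR * (1 - σ^2)^(-(1:ℝ)/3)))

/-- R7: the one-arm function at the corner, all widths -/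
def S_OneP : Prop := ∀ (a : ℕ) (γ β : ℝ), Odd a → 0 < γ → 0 ≤ β → ∀ (δ : ℕ → ℝ) (m b : ℕ → ℕ),
  (∀ n, 0 < δ n) → Tendsto δ atTop (𝓝 0) → Tendsto (fun n => δ n * m n) atTop (𝓝 γ) →
  Tendsto (fun n => δ n * b n) atTop (𝓝 β) →
  Tendsto (fun n => perc.real (FCross a (m n) (b n)) / (δ n)^((2:ℝ)/3)) atTop
    (𝓝 ((((sv a).coeff 0 : ℚ) : ℝ) * cR * (γ * (γ + 2*β))^(-(1:ℝ)/3)))

/-- R8: the conformal map near the left corner of the slit -/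
def S_UGL : Prop := ∀ α γ β : ℝ, 0 < α → 0 < γ → 0 < β → ∃ f : ℂ → ℂ,
  UnifG α γ β (x1 ((α/(α+γ+β))^2) ((β/(α+γ+β))^2)) (x2 ((α/(α+γ+β))^2) ((β/(α+γ+β))^2)) f ∧
  ∀ x x' : ℝ, x = x1 ((α/(α+γ+β))^2) ((β/(α+γ+β))^2) → x' = x2 ((α/(α+γ+β))^2) ((β/(α+γ+β))^2) →
  Tendsto (fun t : ℝ => (f t).re / (t - x)^((3:ℝ)/2)) (𝓝[>] x)
    (𝓝 (2 * (α+γ+β) / (3 * Real.pi) * Real.sqrt (x' - x) / (x * (1 - x))))

end Pool.Agent.NH38.Fork
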