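import Pool.Agent.NH38.Fork.GG
import Pool.Agent.NH38.Fork.NG4
import Pool.Agent.NH38.Fork.Stubs5

/-!
Forked channels, task R5 (helper64): the sharp rate of convergence for all widths.
-/

namespace Pool.Agent.NH38.Fork

open Pool.Agent.H988R2.Perc hiding X
open Pool.Agent.NH38.Step (cardy)
open Filter Topology MeasureTheory Asymptotics

namespace R5

open GF NG4
open Pool.Agent.NH38.Step.A2 (cardy_deriv)

/-- the limit function is differentiable -/
theorem diff_Phi {ρ σ : ℝ} (hρ : 0 < ρ) (hσ : 0 < σ) (hρσ : ρ + σ < 1) :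
    DifferentiableAt ℝ (fun z : ℝ × ℝ => cardy (x1 (z.1^2) (z.2^2))) (ρ, σ) := by
  have hd := disc_pos hρ hσ hρσ (zero_le_one (α := ℝ)) le_rfl
  obtain ⟨-, -, -, -, -, -, h7⟩ := roots hρ hσ hρσ (zero_le_one (α := ℝ)) le_rfl
  obtain ⟨g0, g1⟩ := h7 one_pos
  simp only [one_mul] at hd g0 g1
  have d1 : DifferentiableAt ℝ (fun z : ℝ × ℝ => 1 + z.1^2 - z.2^2) (ρ, σ) := by fun_prop
  have d2 : DifferentiableAt ℝ (fun z : ℝ × ℝ => (1 + z.1^2 - z.2^2)^2 - 4 * z.1^2) (ρ, σ) := by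
    fun_prop
  have d3 := d2.sqrt hd.ne'
  have d4 : DifferentiableAt ℝ (fun z : ℝ × ℝ => x1 (z.1^2) (z.2^2)) (ρ, σ) := by
    have d5 := (d1.sub d3).mul_const (1 / 2 : ℝ)
    refine d5.congr_of_eventuallyEq (Eventually.of_forall fun z => ?_)
    unfold x1 rr
    simp only [Pi.sub_apply]
    ring
  have d5 : DifferentiableAt ℝ cardy ((fun z : ℝ × ℝ => x1 (z.1^2) (z.2^2)) (ρ, σ)) :=
    (cardy_deriv g0 g1).differentiableAt
  exact d5.comp (ρ, σ) d4

theorem lim_of {δ : ℕ → ℝ} (hδ0 : Tendsto δ atTop (𝓝 0)) {c : ℕ → ℝ} {γ K : ℝ}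
    (hc : ∀ n, |δ n * c n - γ| ≤ K * δ n) : Tendsto (fun n => δ n * c n) atTop (𝓝 γ) := by
  have h1 : Tendsto (fun n => δ n * c n - γ) atTop (𝓝 0) := by
    refine squeeze_zero_norm (fun n => ?_) (by simpa using hδ0.const_mul K)
    rw [Real.norm_eq_abs]
    exact hc n
  have h2 := h1.add_const γ
  simp only [sub_add_cancel, zero_add] at h2
  exact h2

theorem close_of {δ : ℕ → ℝ} (hδ : ∀ n, 0 < δ n) {c d : ℕ → ℝ} {γ K : ℝ}
    (hc : ∀ n, |δ n * c n - γ| ≤ K * δ n) (hd : ∀ n, |d n - c n| ≤ 1) :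
    ∀ n, |δ n * d n - γ| ≤ (K + 1) * δ n := by
  intro n
  have h1 : |δ n * d n - δ n * c n| ≤ δ n := by
    rw [← mul_sub, abs_mul, abs_of_pos (hδ n)]
    calc δ n * |d n - c n| ≤ δ n * 1 := mul_le_mul_of_nonneg_left (hd n) (hδ n).le
      _ = δ n := mul_one _
  have h2 := hc n
  have h3 : δ n * d n - γ = (δ n * d n - δ n * c n) + (δ n * c n - γ) := by ring
  rw [h3]
  refine (abs_add_le _ _).trans ?_
  linarith

/-- quotients -/
theorem quot_bigO {δ f g : ℕ → ℝ} {α W : ℝ} (hW : 0 < W)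
    (hf : (fun n => f n - α) =O[atTop] δ) (hg : (fun n => g n - W) =O[atTop] δ)
    (hgl : Tendsto g atTop (𝓝 W)) : (fun n => f n / g n - α / W) =O[atTop] δ := by
  have h1 : (fun n => (W * g n)⁻¹) =O[atTop] (fun _ => (1 : ℝ)) :=
    ((hgl.const_mul W).inv₀ (mul_pos hW hW).ne').isBigO_one ℝ
  have h2 : (fun n => W * (f n - α) - α * (g n - W)) =O[atTop] δ :=
    (hf.const_mul_left W).sub (hg.const_mul_left α)
  have h3 := h2.mul h1
  simp only [mul_one] at h3
  refine h3.congr' ?_ EventuallyEq.rfl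
  filter_upwards [hgl.eventually_ne hW.ne'] with n hn
  have hW' := hW.ne'
  field_simp
  ring

theorem odd_rate (hE : S_ExactG) (hR : S_RateG) {α γ β K : ℝ} (hα : 0 < α) (hγ : 0 < γ)
    (hβ : 0 < β) {δ : ℕ → ℝ} {a m b : ℕ → ℕ} (hδ : ∀ n, 0 < δ n) (hδ0 : Tendsto δ atTop (𝓝 0))
    (ha : ∀ n, Odd (a n)) (hm : ∀ n, Odd (m n)) (hb : ∀ n, Odd (b n))
    (k1 : ∀ n, |δ n * a n - α| ≤ K * δ n) (k2 : ∀ n, |δ n * m n - γ| ≤ K * δ n)
    (k3 : ∀ n, |δ n * b n - β| ≤ K * δ n) :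
    Tendsto (fun n => (perc.real (FCross (a n) (m n) (b n)) -
      cardy (x1 ((α/(α+γ+β))^2) ((β/(α+γ+β))^2))) / (δ n)^((2:ℝ)/3)) atTop
      (𝓝 (cR * (x2 ((α/(α+γ+β))^2) ((β/(α+γ+β))^2) -
        x1 ((α/(α+γ+β))^2) ((β/(α+γ+β))^2))^(-(1:ℝ)/3) * (α+γ+β)^(-(2:ℝ)/3))) := by
  have hs : 0 < α + γ + β := by positivity
  have h1 := lim_of hδ0 k1
  have h2 := lim_of hδ0 k2
  have h3 := lim_of hδ0 k3
  have hN : Tendsto (fun n => δ n * ((a n + m n + b n : ℕ) : ℝ)) atTop (𝓝 (α + γ + β)) := by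
    refine ((h1.add h2).add h3).congr fun n => ?_
    push_cast
    ring
  have hN' : Tendsto (fun n => a n + m n + b n) atTop atTop := by
    rw [← tendsto_natCast_atTop_iff (R := ℝ)]
    exact lim_top hδ hδ0 hs hN
  have hr : Tendsto (fun n => (a n : ℝ) / ((a n + m n + b n : ℕ) : ℝ)) atTop
      (𝓝 (α / (α + γ + β))) := by
    refine (h1.div hN hs.ne').congr fun n => ?_
    simp only [Pi.div_apply]
    rw [mul_div_mul_left _ _ (hδ n).ne']
  have hr' : Tendsto (fun n => (b n : ℝ) / ((a n + m n + b n : ℕ) : ℝ)) atTop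
      (𝓝 (β / (α + γ + β))) := by
    refine (h3.div hN hs.ne').congr fun n => ?_
    simp only [Pi.div_apply]
    rw [mul_div_mul_left _ _ (hδ n).ne']
  have hρ : 0 < α / (α + γ + β) := by positivity
  have hσ : 0 < β / (α + γ + β) := by positivity
  have hρ1 : α / (α + γ + β) + β / (α + γ + β) < 1 := by
    rw [← add_div, div_lt_one hs]
    linarith
  have L1 := hR a b (fun n => a n + m n + b n) _ _ hρ hσ hρ1 ha hb
    (fun n => ((ha n).add_odd (hm n)).add_odd (hb n)) (fun n => by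
      have := (hm n).pos
      omega) hN' hr hr'
  have hFG : ∀ n, perc.real (FCross (a n) (m n) (b n)) =
      ((FG (a n) (b n) (a n + m n + b n) : ℚ) : ℝ) := by
    intro n
    obtain ⟨k, hk⟩ := hm n
    rw [hk, cross_eq (ha n), hE (a n) k (b n) (ha n) (hb n),
      show a n + (2 * k + 1) + b n = a n + b n + 1 + 2 * k by ring]
  -- the first part
  have L2 : Tendsto (fun n => (δ n * ((a n + m n + b n : ℕ) : ℝ))^(-(2:ℝ)/3)) atTop
      (𝓝 ((α + γ + β)^(-(2:ℝ)/3))) := hN.rpow_const (Or.inl hs.ne')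
  have L3 := L1.mul L2
  -- the second part
  have b1 : (fun n => δ n * (a n : ℝ) - α) =O[atTop] δ :=
    IsBigO.of_bound K (Eventually.of_forall fun n => by
      rw [Real.norm_eq_abs, Real.norm_eq_abs, abs_of_pos (hδ n)]
      exact k1 n)
  have b2 : (fun n => δ n * (m n : ℝ) - γ) =O[atTop] δ :=
    IsBigO.of_bound K (Eventually.of_forall fun n => by
      rw [Real.norm_eq_abs, Real.norm_eq_abs, abs_of_pos (hδ n)]
      exact k2 n)
  have b3 : (fun n => δ n * (b n : ℝ) - β) =O[atTop] δ :=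
    IsBigO.of_bound K (Eventually.of_forall fun n => by
      rw [Real.norm_eq_abs, Real.norm_eq_abs, abs_of_pos (hδ n)]
      exact k3 n)
  have b4 : (fun n => δ n * ((a n + m n + b n : ℕ) : ℝ) - (α + γ + β)) =O[atTop] δ := by
    refine ((b1.add b2).add b3).congr (fun n => ?_) fun n => rfl
    push_cast
    ring
  have q1 : (fun n => (a n : ℝ) / ((a n + m n + b n : ℕ) : ℝ) - α / (α + γ + β)) =O[atTop] δ := by
    refine (quot_bigO hs b1 b4 hN).congr (fun n => ?_) fun n => rfl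
    rw [mul_div_mul_left _ _ (hδ n).ne']
  have q2 : (fun n => (b n : ℝ) / ((a n + m n + b n : ℕ) : ℝ) - β / (α + γ + β)) =O[atTop] δ := by
    refine (quot_bigO hs b3 b4 hN).congr (fun n => ?_) fun n => rfl
    rw [mul_div_mul_left _ _ (hδ n).ne']
  have q3 : (fun n => (((a n : ℝ) / ((a n + m n + b n : ℕ) : ℝ),
      (b n : ℝ) / ((a n + m n + b n : ℕ) : ℝ)) : ℝ × ℝ) -
      (α / (α + γ + β), β / (α + γ + β))) =O[atTop] δ := q1.prod_left q2
  have q4 := ((diff_Phi hρ hσ hρ1).isBigO_sub.comp_tendsto (hr.prodMk_nhds hr')).trans q3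
  have q5 : δ =o[atTop] fun n => (δ n)^((2:ℝ)/3) := by
    rw [isLittleO_iff_tendsto (fun n hn => by
      exact absurd hn (Real.rpow_pos_of_pos (hδ n) _).ne')]
    have h5 : Tendsto (fun n => (δ n)^((1:ℝ)/3)) atTop (𝓝 0) := by
      have h6 := hδ0.rpow_const (p := (1:ℝ)/3) (Or.inr (by norm_num))
      rwa [Real.zero_rpow (by norm_num)] at h6
    refine h5.congr fun n => ?_
    rw [eq_div_iff (Real.rpow_pos_of_pos (hδ n) _).ne', ← Real.rpow_add (hδ n)]
    norm_num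
  have q6 := (q4.trans_isLittleO q5).tendsto_div_nhds_zero
  have L4 := L3.add q6
  rw [add_zero] at L4
  refine L4.congr fun n => ?_
  rw [hFG n]
  simp only [Function.comp_apply]
  have hNp : (0 : ℝ) < ((a n + m n + b n : ℕ) : ℝ) := by
    have := (hm n).pos
    exact_mod_cast (by omega : 0 < a n + m n + b n)
  have e1 : (δ n * ((a n + m n + b n : ℕ) : ℝ))^(-(2:ℝ)/3) =
      ((δ n)^((2:ℝ)/3))⁻¹ * (((a n + m n + b n : ℕ) : ℝ)^((2:ℝ)/3))⁻¹ := by
    rw [Real.mul_rpow (hδ n).le hNp.le, neg_div, Real.rpow_neg (hδ n).le, Real.rpow_neg hNp.le]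
  rw [e1]
  have e2 : ((a n + m n + b n : ℕ) : ℝ)^((2:ℝ)/3) ≠ 0 := (Real.rpow_pos_of_pos hNp _).ne'
  have e3 : (δ n)^((2:ℝ)/3) ≠ 0 := (Real.rpow_pos_of_pos (hδ n) _).ne'
  field_simp
  ring

end R5

open GF R5 Pool.Agent.H863R4 in
/-- R5: the sharp rate, all widths. -/
theorem t_RateP : S_ExactG → S_RateG → S_RateP := by
  intro hE hR α γ β K hα hγ hβ δ a m b hδ hδ0 ha hm hb
  have a0 := lim_of hδ0 ha
  have m0 := lim_of hδ0 hm
  have b0 := lim_of hδ0 hb
  have a1 := close_of hδ ha fun n => ou_dist (a n)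
  have a2 := close_of hδ ha fun n => od_dist (a n)
  have m1 := close_of hδ hm fun n => ou_dist (m n)
  have m2 := close_of hδ hm fun n => od_dist (m n)
  have b1 := close_of hδ hb fun n => ou_dist (b n)
  have b2 := close_of hδ hb fun n => od_dist (b n)
  have e1 := (lim_top hδ hδ0 hα a0).eventually_ge_atTop 1
  have e2 := (lim_top hδ hδ0 hγ m0).eventually_ge_atTop 1
  have e3 := (lim_top hδ hδ0 hβ b0).eventually_ge_atTop 1
  have L1 := odd_rate hE hR hα hγ hβ hδ hδ0 (fun n => ou_odd (a n)) (fun n => od_odd (m n))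
    (fun n => od_odd (b n)) a1 m2 b2
  have L2 := odd_rate hE hR hα hγ hβ hδ hδ0 (fun n => od_odd (a n)) (fun n => ou_odd (m n))
    (fun n => ou_odd (b n)) a2 m1 b1
  refine tendsto_of_tendsto_of_tendsto_of_le_of_le' L2 L1 ?_ ?_
  · filter_upwards [e1] with n h1
    refine div_le_div_of_nonneg_right (sub_le_sub_right ?_ _)
      (Real.rpow_pos_of_pos (hδ n) _).le
    refine measureReal_mono (sub (od_le ?_) (le_ou _) (add_le_add (le_ou _) (le_ou _)))
    have : 1 ≤ a n := by exact_mod_cast h1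
    omega
  · filter_upwards [e2, e3] with n h2 h3
    have g2 : 1 ≤ m n := by exact_mod_cast h2
    have g3 : 1 ≤ b n := by exact_mod_cast h3
    have g4 : od (m n) ≤ m n := od_le (by omega)
    have g5 : od (b n) ≤ b n := od_le (by omega)
    refine div_le_div_of_nonneg_right (sub_le_sub_right ?_ _)
      (Real.rpow_pos_of_pos (hδ n) _).le
    exact measureReal_mono (sub (le_ou _) g4 (add_le_add g4 g5))

end Pool.Agent.NH38.Fork
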