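import Pool.Agent.NH38.Fork.Stubs5
import Pool.Agent.NH38.Fork.NG5
import Pool.Agent.NH38.Fork.N5
import Pool.Agent.NH38.Fork.GF

/-!
FR-6 (helper6): the one-arm function at the corner (`S_OneG`, `S_OneP`).
-/

set_option autoImplicit false

namespace Pool.Agent.NH38.Fork.R6h

open Polynomial Filter Topology Finset
open Pool.Agent.NH38.Fork.NG5

/-! ## the binomial series -/

lemma rf_succ (s : ℝ) (n : ℕ) : rf s (n+1) = rf s n * (s + n) := by
  unfold rf
  rw [Finset.prod_range_succ]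

lemma rf_pos {s : ℝ} (hs : 0 < s) (n : ℕ) : 0 < rf s n :=
  Finset.prod_pos fun i _ => by positivity

lemma choose_eq (s : ℝ) (n : ℕ) :
    Ring.choose (s + n - 1) n = rf s n / (Nat.factorial n : ℝ) := by
  have h0 : Ring.choose (s + n - 1) n = Ring.multichoose s n := by
    unfold Ring.choose
    congr 1
    ring_nf
  rw [h0]
  have h1 := Ring.factorial_nsmul_multichoose_eq_ascPochhammer s n
  rw [Polynomial.ascPochhammer_smeval_eq_eval] at h1
  have h2 : (ascPochhammer ℝ n).eval s = rf s n := by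
    clear h1 h0
    induction n with
    | zero => simp [rf]
    | succ n ih => rw [ascPochhammer_succ_eval, ih, rf_succ]
  rw [h2, nsmul_eq_mul] at h1
  have h3 : ((n.factorial : ℕ) : ℝ) ≠ 0 := by positivity
  rw [eq_div_iff h3, mul_comm]
  exact h1

theorem binom (s : ℝ) {x : ℝ} (h0 : 0 ≤ x) (h1 : x < 1) :
    HasSum (fun j : ℕ => rf s j / (Nat.factorial j : ℝ) * x ^ j) ((1 - x) ^ (-s)) := by
  have h := (Real.one_div_one_sub_rpow_hasFPowerSeriesOnBall_zero s).hasSum (y := x) (by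
    simp only [Metric.mem_eball, edist_zero_right]
    rw [enorm_eq_nnnorm]
    rw [show (1 : ENNReal) = ((1 : NNReal) : ENNReal) by simp]
    rw [ENNReal.coe_lt_coe, ← NNReal.coe_lt_coe]
    simp [abs_of_nonneg h0, h1])
  simp only [zero_add] at h
  have h2 : 1 / (1 - x) ^ s = (1 - x) ^ (-s) := by
    rw [Real.rpow_neg (by linarith), one_div]
  rw [h2] at h
  have h3 : (fun n : ℕ => (FormalMultilinearSeries.ofScalars ℝ
      (fun n : ℕ => Ring.choose (s + n - 1) n) n) fun _ => x) =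
      fun j => rf s j / (Nat.factorial j : ℝ) * x ^ j := by
    funext n
    rw [FormalMultilinearSeries.ofScalars_apply_eq, choose_eq]
    simp
  rw [h3] at h
  exact h

/-! ## the constant coefficients of `vv` -/

lemma pv_succ (x0 x1 : ℚ) (n : ℕ) : pv x0 x1 (n+2) =
    C (1 / (3*(n:ℚ)+5)) * (C (6*(n:ℚ)+9) * (if Even n then 1 + X else 1) * pv x0 x1 (n+1) -
      C (3*(n:ℚ)+4) * pv x0 x1 n) := rfl

lemma vv0 (n : ℕ) : (vv n).coeff 0 = 1 := by
  unfold vv
  induction n using Nat.strong_induction_on with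
  | _ n ih =>
    match n, ih with
    | 0, _ => simp [pv]
    | 1, _ => simp [pv]
    | n+2, ih =>
      have h1 := ih n (by omega)
      have h2 := ih (n+1) (by omega)
      have h3 : ((if Even n then 1 + X else 1 : ℚ[X])).coeff 0 = 1 := by split_ifs <;> simp
      rw [pv_succ, Polynomial.coeff_C_mul, Polynomial.coeff_sub, Polynomial.coeff_C_mul, h1,
        mul_assoc, Polynomial.coeff_C_mul, Polynomial.mul_coeff_zero, h2, h3]
      have : (3*(n:ℚ)+5) ≠ 0 := by positivity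
      field_simp
      ring

lemma pv_deg (x0 x1 : ℚ) (n : ℕ) : (pv x0 x1 n).natDegree ≤ n / 2 := by
  induction n using Nat.strong_induction_on with
  | _ n ih =>
    match n, ih with
    | 0, _ => simp [pv]
    | 1, _ => simp [pv]
    | n+2, ih =>
      have h1 := ih n (by omega)
      have h2 := ih (n+1) (by omega)
      rw [pv_succ]
      refine (Polynomial.natDegree_C_mul_le _ _).trans ?_
      refine (Polynomial.natDegree_sub_le _ _).trans (max_le ?_ ?_)
      · by_cases hn : Even n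
        · rw [if_pos hn]
          refine Polynomial.natDegree_mul_le.trans ?_
          have h3 : (C (6*(n:ℚ)+9) * (1 + X) : ℚ[X]).natDegree ≤ 1 := by
            refine (Polynomial.natDegree_C_mul_le _ _).trans ?_
            refine (Polynomial.natDegree_add_le _ _).trans (max_le ?_ ?_)
            · simp
            · exact Polynomial.natDegree_X_le
          obtain ⟨k, hk⟩ := hn
          omega
        · rw [if_neg hn, mul_one]
          refine (Polynomial.natDegree_C_mul_le _ _).trans ?_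
          omega
      · refine (Polynomial.natDegree_C_mul_le _ _).trans ?_
        omega

lemma cg_zero {a b j : ℕ} (ha : Odd a) (hb : Odd b) (hj : (a + b) / 2 ≤ j) : cg a b j = 0 := by
  unfold cg
  apply Polynomial.coeff_eq_zero_of_natDegree_lt
  refine lt_of_le_of_lt Polynomial.natDegree_mul_le ?_
  have h1 := pv_deg 1 1 b
  have h2 := pv_deg 2 3 a
  unfold vv sv
  obtain ⟨x, hx⟩ := ha
  obtain ⟨y, hy⟩ := hb
  omega

/-! ## the masses -/

lemma M0_lim (hME : S_ME) :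
    Tendsto (fun n : ℕ => (n:ℝ)^((2:ℝ)/3) * ((M0 n : ℚ) : ℝ)) atTop (𝓝 cM) := by
  obtain ⟨C, hC⟩ := hME
  rw [tendsto_iff_norm_sub_tendsto_zero]
  have h0 : Tendsto (fun n : ℕ => C / (n:ℝ)) atTop (𝓝 0) :=
    Tendsto.div_atTop tendsto_const_nhds tendsto_natCast_atTop_atTop
  refine squeeze_zero' (Eventually.of_forall fun _ => norm_nonneg _) ?_ h0
  filter_upwards [eventually_ge_atTop 1] with n hn
  have hn0 : (0:ℝ) < n := by exact_mod_cast hn
  have h1 := hC n hn
  have h2 : (n:ℝ)^((2:ℝ)/3) * (n:ℝ)^(-(2:ℝ)/3) = 1 := by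
    rw [← Real.rpow_add hn0]
    norm_num
  have h3 : (0:ℝ) < (n:ℝ)^((2:ℝ)/3) := Real.rpow_pos_of_pos hn0 _
  rw [show (n:ℝ)^((2:ℝ)/3) * ((M0 n : ℚ) : ℝ) - cM =
      (n:ℝ)^((2:ℝ)/3) * (((M0 n : ℚ) : ℝ) - cM * (n:ℝ)^(-(2:ℝ)/3)) by
    rw [mul_sub, mul_left_comm, h2, mul_one]]
  rw [Real.norm_eq_abs, abs_mul, abs_of_pos h3]
  calc _ ≤ (n:ℝ)^((2:ℝ)/3) * (C * (n:ℝ)^(-(2:ℝ)/3) / n) := mul_le_mul_of_nonneg_left h1 h3.le
    _ = C / n * ((n:ℝ)^((2:ℝ)/3) * (n:ℝ)^(-(2:ℝ)/3)) := by ring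
    _ = C / n := by rw [h2, mul_one]

lemma cM_pos : 0 < cM := by
  unfold cM
  have h1 := Real.Gamma_pos_of_pos (show (0:ℝ) < 5/6 by norm_num)
  have h2 := Real.Gamma_pos_of_pos (show (0:ℝ) < 1/2 by norm_num)
  have h3 := Real.Gamma_pos_of_pos (show (0:ℝ) < 2/3 by norm_num)
  positivity

lemma Bt_pos : 0 < Bt := by
  rw [N5.Bt_eq]
  have h1 := Real.Gamma_pos_of_pos (show (0:ℝ) < 5/6 by norm_num)
  have h2 := Real.Gamma_pos_of_pos (show (0:ℝ) < 1/2 by norm_num)
  have h3 := Real.Gamma_pos_of_pos (show (0:ℝ) < 1/3 by norm_num)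
  positivity

lemma half {f : ℕ → ℕ} (hf : Tendsto f atTop atTop) :
    Tendsto (fun i => (f i - 1) / 2) atTop atTop := by
  rw [tendsto_atTop]
  intro c
  filter_upwards [hf.eventually_ge_atTop (2 * c + 1)] with i hi
  omega

/-- `N^(2/3) M0 n → 2^(2/3) cM`, `N = 2n+1` -/
lemma NM_lim (hME : S_ME) {n : ℕ → ℕ} (hnt : Tendsto n atTop atTop) :
    Tendsto (fun i => ((2 * n i + 1 : ℕ) : ℝ)^((2:ℝ)/3) * ((M0 (n i) : ℚ) : ℝ)) atTop
      (𝓝 ((2:ℝ)^((2:ℝ)/3) * cM)) := by
  have hnt' : Tendsto (fun i => ((n i : ℕ) : ℝ)) atTop atTop :=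
    tendsto_natCast_atTop_atTop.comp hnt
  have h1 : Tendsto (fun i => (2:ℝ) + 1 / (n i : ℝ)) atTop (𝓝 (2 + 0)) :=
    tendsto_const_nhds.add (Tendsto.div_atTop tendsto_const_nhds hnt')
  rw [add_zero] at h1
  have h2 : Tendsto (fun i => ((2:ℝ) + 1 / (n i : ℝ))^((2:ℝ)/3)) atTop (𝓝 ((2:ℝ)^((2:ℝ)/3))) :=
    h1.rpow_const (Or.inr (by norm_num))
  refine (h2.mul ((M0_lim hME).comp hnt)).congr' ?_
  filter_upwards [hnt'.eventually_gt_atTop 0] with i hi
  simp only [Function.comp]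
  rw [← mul_assoc, ← Real.mul_rpow (by positivity) hi.le]
  congr 2
  push_cast
  field_simp

/-! ## the coefficients of `vv` -/

lemma vv_lim (hpos : S_pos) (hvv : S_vvA) {b n : ℕ → ℕ} {σ : ℝ} (hσ0 : 0 ≤ σ)
    (hb : ∀ i, Odd (b i)) (hnt : Tendsto n atTop atTop)
    (hlb : Tendsto (fun i => (b i : ℝ) / n i) atTop (𝓝 (2 * σ))) (m : ℕ) :
    Tendsto (fun i => (((vv (b i)).coeff m : ℚ) : ℝ) / (n i : ℝ)^(2*m)) atTop
      (𝓝 (σ^(2*m) / (rf (2/3) m * (Nat.factorial m : ℝ)))) := by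
  have hnt' : Tendsto (fun i => ((n i : ℕ) : ℝ)) atTop atTop :=
    tendsto_natCast_atTop_atTop.comp hnt
  have hb0 : ∀ i, (0:ℝ) < b i := fun i => by exact_mod_cast (hb i).pos
  have e1 : ∀ i, (((vv (b i)).coeff m : ℚ) : ℝ) / (n i : ℝ)^(2*m) =
      (((vv (b i)).coeff m : ℚ) : ℝ) / (b i : ℝ)^(2*m) * ((b i : ℝ) / n i)^(2*m) := by
    intro i
    have := (hb0 i).ne'
    rw [div_pow, div_mul_div_cancel₀ (pow_ne_zero _ this)]
  rcases hσ0.eq_or_lt with h | h
  · subst h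
    rcases Nat.eq_zero_or_pos m with hm | hm
    · subst hm
      simp only [vv0, mul_zero, pow_zero, div_one, Rat.cast_one]
      have : (1:ℝ) / (rf (2/3) 0 * (Nat.factorial 0 : ℝ)) = 1 := by simp [rf]
      rw [this]
      exact tendsto_const_nhds
    · rw [zero_pow (by omega), zero_div]
      obtain ⟨K, hK⟩ := (hvv m).bddAbove_range
      have h2 : Tendsto (fun i => K * ((b i : ℝ) / n i)^(2*m)) atTop (𝓝 0) := by
        have h3 := (hlb.pow (2*m)).const_mul K
        rwa [mul_zero, zero_pow (by omega), mul_zero] at h3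
      refine squeeze_zero (fun i => ?_) (fun i => ?_) h2
      · have : (0:ℝ) ≤ (((vv (b i)).coeff m : ℚ) : ℝ) := by exact_mod_cast (hpos (b i) m).1
        positivity
      · rw [e1 i]
        refine mul_le_mul_of_nonneg_right ?_ (by positivity)
        obtain ⟨y, hy⟩ := hb i
        have h4 := hK ⟨y, rfl⟩
        rw [hy]
        exact h4
  · have h2 : Tendsto (fun i => (n i : ℝ) * ((b i : ℝ) / n i)) atTop atTop :=
      hnt'.atTop_mul_pos (by positivity : 0 < 2 * σ) hlb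
    have h3 : Tendsto (fun i => (b i : ℝ)) atTop atTop := by
      refine h2.congr' ?_
      filter_upwards [hnt'.eventually_gt_atTop 0] with i hi
      field_simp
    have hbt : Tendsto b atTop atTop := tendsto_natCast_atTop_iff.mp h3
    have h4 : Tendsto (fun i => (((vv (b i)).coeff m : ℚ) : ℝ) / (b i : ℝ)^(2*m)) atTop
        (𝓝 (1 / (4^m * rf (2/3) m * (Nat.factorial m : ℝ)))) := by
      refine ((hvv m).comp (half hbt)).congr fun i => ?_
      obtain ⟨y, hy⟩ := hb i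
      simp only [Function.comp]
      rw [show 2 * ((b i - 1) / 2) + 1 = b i by omega]
    have h5 := h4.mul (hlb.pow (2*m))
    have h6 : (1 / (4^m * rf (2/3) m * (Nat.factorial m : ℝ))) * (2*σ)^(2*m) =
        σ^(2*m) / (rf (2/3) m * (Nat.factorial m : ℝ)) := by
      rw [mul_pow, pow_mul (2:ℝ), show ((2:ℝ)^2) = 4 by norm_num]
      have h7 : (4:ℝ)^m ≠ 0 := by positivity
      have h8 := (rf_pos (show (0:ℝ) < 2/3 by norm_num) m).ne'
      field_simp
    rw [h6] at h5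
    exact h5.congr fun i => (e1 i).symm

/-! ## the coefficients of `sv` for a fixed width -/

lemma sv_fix (a : ℕ) {n : ℕ → ℕ} (hnt : Tendsto n atTop atTop) (m : ℕ) :
    Tendsto (fun i => (((sv a).coeff m : ℚ) : ℝ) / (n i : ℝ)^(2*m)) atTop
      (𝓝 (if m = 0 then (((sv a).coeff 0 : ℚ) : ℝ) else 0)) := by
  have hnt' : Tendsto (fun i => ((n i : ℕ) : ℝ)) atTop atTop :=
    tendsto_natCast_atTop_atTop.comp hnt
  rcases Nat.eq_zero_or_pos m with hm | hm
  · subst hm
    simp only [mul_zero, pow_zero, div_one, if_true]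
    exact tendsto_const_nhds
  · rw [if_neg (by omega)]
    exact Tendsto.div_atTop tendsto_const_nhds
      ((tendsto_pow_atTop (by omega : 2 * m ≠ 0)).comp hnt')

/-! ## the comparison of the widths -/

lemma cg_nonneg (hpos : S_pos) (x y j : ℕ) : 0 ≤ cg x y j := by
  unfold cg
  rw [Polynomial.coeff_mul]
  exact Finset.sum_nonneg fun p _ => mul_nonneg (hpos y p.1).1 (hpos x p.2).2

lemma dom (hpos : S_pos) (hsv : S_svA) (hME : S_ME) (a : ℕ) {a' n : ℕ → ℕ} {τ : ℝ} (hτ : 0 < τ)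
    (ha' : ∀ i, Odd (a' i)) (hat : Tendsto a' atTop atTop) (hnt : Tendsto n atTop atTop)
    (hla : Tendsto (fun i => (a' i : ℝ) / n i) atTop (𝓝 τ)) :
    ∃ C : ℝ, 0 ≤ C ∧ ∀ᶠ i in atTop, ∀ l : ℕ,
      ((2 * n i + 1 : ℕ) : ℝ)^((2:ℝ)/3) * (((sv a).coeff l : ℚ) : ℝ) ≤
        C * (((sv (a' i)).coeff l : ℚ) : ℝ) := by
  have hK := t_KAP a' n τ hτ hat hnt hla
  have hM := NM_lim hME hnt
  set K2 : ℝ := τ^((2:ℝ)/3) * (3 / Bt) with hK2
  have hB := Bt_pos
  have hK2p : 0 < K2 := by rw [hK2]; positivity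
  have hcM := cM_pos
  set K1 : ℝ := (2:ℝ)^((2:ℝ)/3) * cM with hK1
  have hK1p : 0 < K1 := by rw [hK1]; positivity
  -- `N^(2/3) ≤ (4 K1 / K2) kap a'`
  have h1 : ∀ᶠ i in atTop, ((2 * n i + 1 : ℕ) : ℝ)^((2:ℝ)/3) ≤
      (4 * K1 / K2) * ((kap (a' i) : ℚ) : ℝ) := by
    filter_upwards [hK.eventually (lt_mem_nhds (show K2 / 2 < K2 by linarith)),
      hM.eventually (gt_mem_nhds (show K1 < 2 * K1 by linarith))] with i h2 h3
    have h4 : (0:ℝ) < ((M0 (n i) : ℚ) : ℝ) := by exact_mod_cast M0_pos (n i)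
    rw [Rat.cast_mul] at h2
    refine le_of_mul_le_mul_right ?_ h4
    calc _ ≤ 2 * K1 := h3.le
      _ = (4 * K1 / K2) * (K2 / 2) := by field_simp; ring
      _ ≤ (4 * K1 / K2) * (((kap (a' i) : ℚ) : ℝ) * ((M0 (n i) : ℚ) : ℝ)) :=
          mul_le_mul_of_nonneg_left h2.le (by positivity)
      _ = _ := by ring
  -- the constants
  let c : ℕ → ℝ := fun l => 1 / (4^l * rf (4/3) l * (Nat.factorial l : ℝ))
  have hc : ∀ l, 0 < c l := fun l => by
    have := rf_pos (show (0:ℝ) < 4/3 by norm_num) l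
    simp only [c]
    positivity
  have hl : ∀ l, ∀ᶠ i in atTop, (c l / 2) * ((kap (a' i) : ℚ) : ℝ) ≤
      (((sv (a' i)).coeff l : ℚ) : ℝ) := by
    intro l
    have h2 : Tendsto (fun i => (((sv (a' i)).coeff l / kap (a' i) : ℚ) : ℝ) /
        (a' i : ℝ)^(2*l)) atTop (𝓝 (c l)) := by
      refine ((hsv l).comp (half hat)).congr fun i => ?_
      obtain ⟨y, hy⟩ := ha' i
      simp only [Function.comp]
      rw [show 2 * ((a' i - 1) / 2) + 1 = a' i by omega]
    have hcl := hc l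
    filter_upwards [h2.eventually (lt_mem_nhds (show c l / 2 < c l by linarith))] with i h3
    have h4 : (0:ℝ) < ((kap (a' i) : ℚ) : ℝ) := by exact_mod_cast kap_pos (a' i)
    have h5 : (1:ℝ) ≤ (a' i : ℝ)^(2*l) := by
      refine one_le_pow₀ ?_
      exact_mod_cast (ha' i).pos
    have h6 : (0:ℝ) ≤ (((sv (a' i)).coeff l : ℚ) : ℝ) := by exact_mod_cast (hpos (a' i) l).2
    have h7 : (((sv (a' i)).coeff l / kap (a' i) : ℚ) : ℝ) / (a' i : ℝ)^(2*l) ≤
        (((sv (a' i)).coeff l : ℚ) : ℝ) / ((kap (a' i) : ℚ) : ℝ) := by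
      push_cast
      exact div_le_self (by positivity) h5
    have h8 := h3.le.trans h7
    rwa [le_div_iff₀ h4] at h8
  set d := (sv a).natDegree with hd
  let e : ℕ → ℝ := fun l => (4 * K1 / K2) * (2 / c l) * (((sv a).coeff l : ℚ) : ℝ)
  have he : ∀ l, 0 ≤ e l := fun l => by
    have h2 : (0:ℝ) ≤ (((sv a).coeff l : ℚ) : ℝ) := by exact_mod_cast (hpos a l).2
    have h3 := hc l
    simp only [e]
    positivity
  refine ⟨∑ l ∈ range (d+1), e l, Finset.sum_nonneg fun l _ => he l, ?_⟩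
  have hall : ∀ᶠ i in atTop, ∀ l ∈ range (d+1), (c l / 2) * ((kap (a' i) : ℚ) : ℝ) ≤
      (((sv (a' i)).coeff l : ℚ) : ℝ) := (Filter.eventually_all_finset _).mpr fun l _ => hl l
  filter_upwards [h1, hall] with i h2 h3 l
  have h6 : (0:ℝ) ≤ (((sv (a' i)).coeff l : ℚ) : ℝ) := by exact_mod_cast (hpos (a' i) l).2
  by_cases hld : l ∈ range (d+1)
  · have h4 := h3 l hld
    have h5 : (0:ℝ) ≤ (((sv a).coeff l : ℚ) : ℝ) := by exact_mod_cast (hpos a l).2
    have hcl := hc l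
    calc ((2 * n i + 1 : ℕ) : ℝ)^((2:ℝ)/3) * (((sv a).coeff l : ℚ) : ℝ)
        ≤ ((4 * K1 / K2) * ((kap (a' i) : ℚ) : ℝ)) * (((sv a).coeff l : ℚ) : ℝ) :=
          mul_le_mul_of_nonneg_right h2 h5
      _ = e l * ((c l / 2) * ((kap (a' i) : ℚ) : ℝ)) := by
          simp only [e]
          field_simp
      _ ≤ e l * (((sv (a' i)).coeff l : ℚ) : ℝ) := mul_le_mul_of_nonneg_left h4 (he l)
      _ ≤ _ := mul_le_mul_of_nonneg_right
          (Finset.single_le_sum (f := e) (fun l _ => he l) hld) h6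
  · rw [Finset.mem_range] at hld
    rw [Polynomial.coeff_eq_zero_of_natDegree_lt (by omega : (sv a).natDegree < l), Rat.cast_zero,
      mul_zero]
    exact mul_nonneg (Finset.sum_nonneg fun l _ => he l) h6

end Pool.Agent.NH38.Fork.R6h

namespace Pool.Agent.NH38.Fork.R6h

open Pool.Agent.H988R2.Perc hiding X
open Filter Topology MeasureTheory
open Pool.Agent.NH38.Fork.GF

theorem odd_one (hE : S_ExactG) (hO : S_OneG) {a : ℕ} (ha : Odd a) {γ β : ℝ} (hγ : 0 < γ)
    (hβ : 0 ≤ β) {δ : ℕ → ℝ} {m b : ℕ → ℕ} (hδ : ∀ n, 0 < δ n) (hδ0 : Tendsto δ atTop (𝓝 0))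
    (hm : ∀ n, Odd (m n)) (hb : ∀ n, Odd (b n))
    (h2 : Tendsto (fun n => δ n * m n) atTop (𝓝 γ))
    (h3 : Tendsto (fun n => δ n * b n) atTop (𝓝 β)) :
    Tendsto (fun n => perc.real (FCross a (m n) (b n)) / (δ n)^((2:ℝ)/3)) atTop
      (𝓝 ((((sv a).coeff 0 : ℚ) : ℝ) * cR * (γ * (γ + 2*β))^(-(1:ℝ)/3))) := by
  have hs : 0 < γ + β := by positivity
  have hN : Tendsto (fun n => δ n * ((a + m n + b n : ℕ) : ℝ)) atTop (𝓝 (γ + β)) := by
    have h1 : Tendsto (fun n => δ n * (a:ℝ)) atTop (𝓝 0) := by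
      have h0 := hδ0.mul_const (a:ℝ)
      rwa [zero_mul] at h0
    have h4 := (h1.add h2).add h3
    rw [zero_add] at h4
    refine h4.congr fun n => ?_
    push_cast
    ring
  have hN' : Tendsto (fun n => a + m n + b n) atTop atTop := by
    rw [← tendsto_natCast_atTop_iff (R := ℝ)]
    exact lim_top hδ hδ0 hs hN
  have hr' : Tendsto (fun n => (b n : ℝ) / ((a + m n + b n : ℕ) : ℝ)) atTop
      (𝓝 (β / (γ + β))) := by
    refine (h3.div hN hs.ne').congr fun n => ?_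
    simp only [Pi.div_apply]
    rw [mul_div_mul_left _ _ (hδ n).ne']
  have hρ1 : β / (γ + β) < 1 := by
    rw [div_lt_one hs]
    linarith
  have hρ0 : 0 ≤ β / (γ + β) := by positivity
  have h4 := hO a b (fun n => a + m n + b n) _ ha hρ1 hb
    (fun n => (ha.add_odd (hm n)).add_odd (hb n)) (fun n => by have := (hm n).pos; omega) hN' hr'
  have h5 : Tendsto (fun n => (δ n * ((a + m n + b n : ℕ) : ℝ))^(-(2:ℝ)/3)) atTop
      (𝓝 ((γ + β)^(-(2:ℝ)/3))) := hN.rpow_const (Or.inl hs.ne')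
  have h6 := h4.mul h5
  have h7 : (((sv a).coeff 0 : ℚ) : ℝ) * cR * (1 - (β / (γ + β))^2)^(-(1:ℝ)/3) *
      (γ + β)^(-(2:ℝ)/3) = (((sv a).coeff 0 : ℚ) : ℝ) * cR * (γ * (γ + 2*β))^(-(1:ℝ)/3) := by
    have h8 : (γ + β)^(-(2:ℝ)/3) = ((γ + β)^2)^(-(1:ℝ)/3) := by
      rw [← Real.rpow_natCast (γ + β) 2, ← Real.rpow_mul hs.le]
      norm_num
    have h9 : 0 ≤ 1 - (β / (γ + β))^2 := by nlinarith
    rw [h8, mul_assoc, ← Real.mul_rpow h9 (sq_nonneg _)]
    congr 2
    field_simp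
    ring
  rw [h7] at h6
  refine h6.congr fun n => ?_
  obtain ⟨k, hk⟩ := hm n
  have hδn := hδ n
  rw [hk, cross_eq ha, hE a k (b n) ha (hb n),
    show a + (2 * k + 1) + b n = a + b n + 1 + 2 * k by ring]
  have hNp : (0:ℝ) < ((a + b n + 1 + 2 * k : ℕ) : ℝ) := by
    have : 0 < a + b n + 1 + 2 * k := by omega
    exact_mod_cast this
  rw [Real.mul_rpow hδn.le hNp.le, neg_div, Real.rpow_neg hδn.le, Real.rpow_neg hNp.le]
  have g1 : ((a + b n + 1 + 2 * k : ℕ) : ℝ)^((2:ℝ)/3) ≠ 0 := (Real.rpow_pos_of_pos hNp _).ne'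
  have g2 : (δ n)^((2:ℝ)/3) ≠ 0 := (Real.rpow_pos_of_pos hδn _).ne'
  field_simp

end Pool.Agent.NH38.Fork.R6h

namespace Pool.Agent.NH38.Fork

open Polynomial Filter Topology Finset NG5 R6h

theorem t_OneG (hMJ : S_MJ) (hpos : S_pos) (hvv : S_vvA) (hME : S_ME) (hsv : S_svA)
    (hFG : S_FGle) : S_OneG := by
  intro a b N σ ha hσ1 hb hN habN hNt hlb
  have hσ0 : 0 ≤ σ := ge_of_tendsto' hlb (fun i => by positivity)
  -- `N = 2n+1`
  choose n hn using hN
  have hN2 : ∀ i, N i = 2 * n i + 1 := hn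
  have hab : ∀ i, a + b i = 2 * ((a + b i) / 2) := fun i => by
    obtain ⟨x, hx⟩ := ha
    obtain ⟨y, hy⟩ := hb i
    omega
  set n0 : ℕ → ℕ := fun i => (a + b i) / 2 with hn0
  have hab' : ∀ i, a + b i = 2 * n0 i := hab
  have hnn : ∀ i, n0 i ≤ n i := fun i => by
    have := habN i; have := hN2 i; have := hab' i; omega
  have hnt : Tendsto n atTop atTop := by
    rw [tendsto_atTop] at hNt ⊢
    intro b
    filter_upwards [hNt (2 * b + 1)] with i hi
    have := hN2 i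
    omega
  have hnt' : Tendsto (fun i => ((n i : ℕ) : ℝ)) atTop atTop :=
    tendsto_natCast_atTop_atTop.comp hnt
  have hc : ∀ c : ℝ, Tendsto (fun i => c / (n i : ℝ)) atTop (𝓝 0) := fun c =>
    Tendsto.div_atTop tendsto_const_nhds hnt'
  have hlb' : Tendsto (fun i => (b i : ℝ) / n i) atTop (𝓝 (2 * σ)) := by
    have h1 : Tendsto (fun i => (b i : ℝ) / N i * (2 * (1 + (1/2) / n i))) atTop
        (𝓝 (σ * (2 * (1 + 0)))) := hlb.mul ((tendsto_const_nhds.add (hc (1/2))).const_mul 2)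
    rw [show σ * (2 * (1 + 0)) = 2 * σ by ring] at h1
    refine h1.congr' ?_
    filter_upwards [hnt'.eventually_gt_atTop 0] with i hi
    rw [hN2 i]
    push_cast
    have h2 : (2 * (n i : ℝ) + 1) ≠ 0 := by positivity
    field_simp
  -- the comparison width
  set ε : ℝ := (1 - σ) / 2 with hε
  have hε0 : 0 < ε := by rw [hε]; linarith
  let a' : ℕ → ℕ := fun i => 2 * ⌊ε * (n i : ℝ)⌋₊ + 1
  have ha' : ∀ i, Odd (a' i) := fun i => ⟨_, rfl⟩
  have hfl : Tendsto (fun i => ((⌊ε * (n i : ℝ)⌋₊ : ℕ) : ℝ) / (n i : ℝ)) atTop (𝓝 ε) :=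
    (tendsto_nat_floor_mul_div_atTop hε0.le).comp hnt'
  have hla' : Tendsto (fun i => (a' i : ℝ) / n i) atTop (𝓝 (2 * ε)) := by
    have h1 := (hfl.const_mul 2).add (hc 1)
    rw [add_zero] at h1
    refine h1.congr fun i => ?_
    simp only [a']
    push_cast
    ring
  have hat : Tendsto a' atTop atTop := by
    have h1 : Tendsto (fun i => (n i : ℝ) * ((a' i : ℝ) / n i)) atTop atTop :=
      hnt'.atTop_mul_pos (by positivity : 0 < 2 * ε) hla'
    have h2 : Tendsto (fun i => (a' i : ℝ)) atTop atTop := by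
      refine h1.congr' ?_
      filter_upwards [hnt'.eventually_gt_atTop 0] with i hi
      field_simp
    exact tendsto_natCast_atTop_iff.mp h2
  set m0 : ℕ → ℕ := fun i => (a' i + b i) / 2 with hm0
  have hab2 : ∀ i, a' i + b i = 2 * m0 i := fun i => by
    obtain ⟨x, hx⟩ := ha' i
    obtain ⟨y, hy⟩ := hb i
    simp only [m0]
    omega
  obtain ⟨D, hD0, hD⟩ := dom hpos hsv hME a (by positivity : 0 < 2 * ε) ha' hat hnt hla'
  -- the bound `r`
  set r : ℝ := (1 + (ε + σ)) / 2 with hr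
  have hr1 : r < 1 := by rw [hr, hε]; linarith
  have hr0 : 0 < r := by rw [hr]; linarith
  have hlim2 : Tendsto (fun i => (a' i : ℝ) / n i + (b i : ℝ) / n i) atTop (𝓝 (2*ε+2*σ)) :=
    hla'.add hlb'
  have hrb : ∀ᶠ i in atTop, 2 * (m0 i : ℝ) - 1 ≤ r * (2 * n i - 1) ∧ m0 i ≤ n i := by
    have h2 : 2*ε+2*σ < 2 * r := by rw [hr, hε]; linarith
    filter_upwards [hlim2.eventually (gt_mem_nhds h2), hnt'.eventually_gt_atTop 0] with i hi hi0
    rw [← add_div, div_lt_iff₀ hi0] at hi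
    have h3 : (a' i : ℝ) + b i = 2 * m0 i := by exact_mod_cast hab2 i
    rw [h3] at hi
    constructor
    · nlinarith
    · have h4 : (m0 i : ℝ) ≤ n i := by nlinarith
      exact_mod_cast h4
  -- the constants
  have hM := NM_lim hME hnt
  set K1 : ℝ := (2:ℝ)^((2:ℝ)/3) * cM with hK1
  set s0 : ℝ := (((sv a).coeff 0 : ℚ) : ℝ) with hs0
  -- the terms
  let t : ℕ → ℕ → ℝ := fun i j => if j < n0 i then
    (N i : ℝ)^((2:ℝ)/3) * ((cg a (b i) j * mj (N i) j : ℚ) : ℝ) else 0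
  have ht : ∀ i j, t i j = (N i : ℝ)^((2:ℝ)/3) * ((cg a (b i) j * mj (N i) j : ℚ) : ℝ) := by
    intro i j
    simp only [t]
    split_ifs with h
    · rfl
    · rw [cg_zero ha (hb i) (not_lt.mp h), zero_mul, Rat.cast_zero, mul_zero]
  have hsum : ∀ i, ∑' j, t i j =
      2 * ((N i : ℝ)^((2:ℝ)/3) * ((FG a (b i) (N i) : ℚ) : ℝ)) := by
    intro i
    rw [tsum_eq_sum (s := range (n0 i)) (fun j hj => by
      simp only [t]; rw [if_neg (by rwa [mem_range] at hj)])]
    unfold FG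
    push_cast
    rw [show (2:ℝ) * ((N i : ℝ)^((2:ℝ)/3) * ((∑ j ∈ range ((a + b i) / 2),
      ((cg a (b i) j : ℚ) : ℝ) * ((mj (N i) j : ℚ) : ℝ)) / 2)) =
      (N i : ℝ)^((2:ℝ)/3) * ∑ j ∈ range ((a + b i) / 2),
      ((cg a (b i) j : ℚ) : ℝ) * ((mj (N i) j : ℚ) : ℝ) by ring, Finset.mul_sum]
    refine Finset.sum_congr rfl fun j hj => ?_
    simp only [t]
    rw [if_pos (mem_range.mp hj)]
    push_cast
    rfl
  have hbd0 : ∀ i j, j < m0 i → ((cg (a' i) (b i) j * mj (2 * m0 i + 1) j : ℚ) : ℝ) ≤ 2 := by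
    intro i j hj
    have h1 := hFG (a' i) (b i) (ha' i) (hb i)
    unfold FG at h1
    rw [hab2 i, Nat.mul_div_cancel_left _ (by norm_num : 0 < 2)] at h1
    have h2 := Finset.single_le_sum (f := fun j => cg (a' i) (b i) j * mj (2 * m0 i + 1) j)
      (s := range (m0 i)) (fun l hl => mul_nonneg (cg_nonneg hpos _ _ _) (mj_nonneg hMJ
        (by rw [mem_range] at hl; omega))) (mem_range.mpr hj)
    have h3 : cg (a' i) (b i) j * mj (2 * m0 i + 1) j ≤ 2 := by
      linarith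
    exact_mod_cast h3
  -- dominated convergence
  have hB : HasSum (fun j : ℕ => K1 * s0 * (rf (1/3) j / (Nat.factorial j : ℝ) * (σ^2) ^ j))
      (K1 * s0 * (1 - σ^2) ^ (-((1:ℝ)/3))) :=
    (binom (1/3) (sq_nonneg σ) (by nlinarith)).mul_left _
  have hdc : Tendsto (fun i => ∑' j, t i j) atTop (𝓝 (∑' j : ℕ,
      K1 * s0 * (rf (1/3) j / (Nat.factorial j : ℝ) * (σ^2) ^ j))) := by
    refine tendsto_tsum_of_dominated_convergence (bound := fun j => (2 * D) * r^j) ?_ ?_ ?_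
    · exact (summable_geometric_of_lt_one hr0.le hr1).mul_left (2 * D)
    · intro j
      have hm := mj_lim hMJ hnt j
      have hterm : Tendsto (fun i => ∑ p ∈ antidiagonal j,
          (((((vv (b i)).coeff p.1 : ℚ) : ℝ) / (n i : ℝ)^(2*p.1)) *
          ((((sv a).coeff p.2 : ℚ) : ℝ) / (n i : ℝ)^(2*p.2))) *
          ((((2 * n i + 1 : ℕ) : ℝ)^((2:ℝ)/3) * ((M0 (n i) : ℚ) : ℝ)) *
            ((n i : ℝ)^(2*j) * ((mj (2 * n i + 1) j / M0 (n i) : ℚ) : ℝ)))) atTop
          (𝓝 (∑ p ∈ antidiagonal j,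
            ((σ^(2*p.1) / (rf (2/3) p.1 * (Nat.factorial p.1 : ℝ))) *
            (if p.2 = 0 then s0 else 0)) *
            (K1 * (rf (1/3) j * rf (2/3) j)))) := by
        refine tendsto_finsetSum _ fun p _ => ?_
        exact ((vv_lim hpos hvv hσ0 hb hnt hlb' p.1).mul (sv_fix a hnt p.2)).mul (hM.mul hm)
      have hval : (∑ p ∈ antidiagonal j,
            ((σ^(2*p.1) / (rf (2/3) p.1 * (Nat.factorial p.1 : ℝ))) *
            (if p.2 = 0 then s0 else 0)) *
            (K1 * (rf (1/3) j * rf (2/3) j))) =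
          K1 * s0 * (rf (1/3) j / (Nat.factorial j : ℝ) * (σ^2) ^ j) := by
        rw [Finset.sum_eq_single (j, 0)]
        · rw [if_pos rfl]
          have h8 := (rf_pos (show (0:ℝ) < 2/3 by norm_num) j).ne'
          rw [pow_mul]
          field_simp
        · rintro ⟨x, y⟩ hxy hne
          rw [Finset.HasAntidiagonal.mem_antidiagonal] at hxy
          simp only at hxy ⊢
          rw [if_neg, mul_zero, zero_mul]
          rintro rfl
          apply hne
          rw [← hxy, add_zero]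
        · intro h
          exact absurd (Finset.HasAntidiagonal.mem_antidiagonal.mpr (add_zero j)) h
      rw [hval] at hterm
      simp only [ht]
      refine hterm.congr' ?_
      filter_upwards [hnt'.eventually_gt_atTop 0] with i hin
      unfold cg
      rw [Polynomial.coeff_mul, Finset.sum_mul, Rat.cast_sum, Finset.mul_sum]
      refine Finset.sum_congr rfl fun p hp => ?_
      have hp' : p.1 + p.2 = j := by simpa using hp
      rw [← hp', hN2 i]
      have h3 : (n i : ℝ) ≠ 0 := hin.ne'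
      have h5 : ((M0 (n i) : ℚ) : ℝ) ≠ 0 := by exact_mod_cast (M0_pos (n i)).ne'
      push_cast
      rw [mul_add, pow_add]
      field_simp
    · filter_upwards [hrb, hD, hat.eventually_ge_atTop a] with i hi hDi hai j
      by_cases hj : j < n0 i
      · have hjm : j < m0 i := by
          have := hab' i
          have := hab2 i
          omega
        simp only [t]
        rw [if_pos hj, hN2 i]
        have h1 := mj_le hMJ hjm.le hi.2 hi.1 hr0.le hr1.le
        have h2 := hbd0 i j hjm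
        have h3 : (0:ℝ) ≤ ((cg a (b i) j : ℚ) : ℝ) := by exact_mod_cast cg_nonneg hpos _ _ _
        have h3' : (0:ℝ) ≤ ((cg (a' i) (b i) j : ℚ) : ℝ) := by
          exact_mod_cast cg_nonneg hpos _ _ _
        have h4 : (0:ℝ) ≤ ((mj (2 * n i + 1) j : ℚ) : ℝ) := by
          exact_mod_cast mj_nonneg hMJ (hj.le.trans (hnn i))
        have h5 : (0:ℝ) ≤ ((2 * n i + 1 : ℕ) : ℝ)^((2:ℝ)/3) := by positivity
        have h6 : ((2 * n i + 1 : ℕ) : ℝ)^((2:ℝ)/3) * ((cg a (b i) j : ℚ) : ℝ) ≤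
            D * ((cg (a' i) (b i) j : ℚ) : ℝ) := by
          unfold cg
          rw [Polynomial.coeff_mul, Polynomial.coeff_mul, Rat.cast_sum, Rat.cast_sum,
            Finset.mul_sum, Finset.mul_sum]
          refine Finset.sum_le_sum fun p _ => ?_
          have h7 : (0:ℝ) ≤ (((vv (b i)).coeff p.1 : ℚ) : ℝ) := by
            exact_mod_cast (hpos (b i) p.1).1
          rw [Rat.cast_mul, Rat.cast_mul]
          calc _ = (((vv (b i)).coeff p.1 : ℚ) : ℝ) * (((2 * n i + 1 : ℕ) : ℝ)^((2:ℝ)/3) *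
                (((sv a).coeff p.2 : ℚ) : ℝ)) := by ring
            _ ≤ (((vv (b i)).coeff p.1 : ℚ) : ℝ) * (D * (((sv (a' i)).coeff p.2 : ℚ) : ℝ)) :=
                mul_le_mul_of_nonneg_left (hDi p.2) h7
            _ = _ := by ring
        rw [Rat.cast_mul] at h2 ⊢
        rw [Real.norm_eq_abs, abs_of_nonneg (mul_nonneg h5 (mul_nonneg h3 h4)), ← mul_assoc]
        calc _ ≤ (D * ((cg (a' i) (b i) j : ℚ) : ℝ)) * ((mj (2 * n i + 1) j : ℚ) : ℝ) :=
              mul_le_mul_of_nonneg_right h6 h4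
          _ ≤ (D * ((cg (a' i) (b i) j : ℚ) : ℝ)) * (r^j * ((mj (2 * m0 i + 1) j : ℚ) : ℝ)) :=
              mul_le_mul_of_nonneg_left h1 (mul_nonneg hD0 h3')
          _ = (D * r^j) * (((cg (a' i) (b i) j : ℚ) : ℝ) * ((mj (2 * m0 i + 1) j : ℚ) : ℝ)) := by
              ring
          _ ≤ (D * r^j) * 2 := mul_le_mul_of_nonneg_left h2 (by positivity)
          _ = _ := by ring
      · simp only [t]
        rw [if_neg hj, norm_zero]
        positivity
  rw [hB.tsum_eq] at hdc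
  simp only [hsum] at hdc
  have h5 := hdc.const_mul (1/2 : ℝ)
  have h6 : (1/2 : ℝ) * (K1 * s0 * (1 - σ^2) ^ (-((1:ℝ)/3))) =
      s0 * cR * (1 - σ^2)^(-(1:ℝ)/3) := by
    have h7 : (2:ℝ)^((2:ℝ)/3) = 2 * (2:ℝ)^(-(1:ℝ)/3) := by
      have h8 := Real.rpow_add (show (0:ℝ) < 2 by norm_num) 1 (-(1:ℝ)/3)
      rw [Real.rpow_one] at h8
      rw [← h8]
      norm_num
    rw [hK1, h7, show (-((1:ℝ)/3)) = (-(1:ℝ)/3) by ring]
    unfold cR
    ring
  rw [h6] at h5
  exact h5.congr fun i => by ring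

end Pool.Agent.NH38.Fork

namespace Pool.Agent.NH38.Fork

open Pool.Agent.H988R2.Perc hiding X
open Filter Topology MeasureTheory GF R6h
open Pool.Agent.H863R4

theorem t_OneP (hE : S_ExactG) (hO : S_OneG) : S_OneP := by
  intro a γ β ha hγ hβ δ m b hδ hδ0 hm hb
  have m1 : Tendsto (fun n => δ n * ou (m n)) atTop (𝓝 γ) := lim_close hδ hδ0 hm fun n => ou_dist _
  have m2 : Tendsto (fun n => δ n * ((m n - 1 : ℕ) : ℝ)) atTop (𝓝 γ) :=
    lim_close hδ hδ0 hm fun n => by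
      rcases Nat.eq_zero_or_pos (m n) with h | h
      · rw [h]
        norm_num
      · rw [Nat.cast_sub h, Nat.cast_one, show (m n : ℝ) - 1 - m n = -1 by ring, abs_neg, abs_one]
  have m3 : Tendsto (fun n => δ n * od (m n - 1)) atTop (𝓝 γ) :=
    lim_close hδ hδ0 m2 fun n => od_dist _
  have b1 : Tendsto (fun n => δ n * ou (b n)) atTop (𝓝 β) := lim_close hδ hδ0 hb fun n => ou_dist _
  have e1 := (lim_top hδ hδ0 hγ hm).eventually_ge_atTop 2
  have L1 := odd_one hE hO ha hγ hβ hδ hδ0 (fun n => od_odd (m n - 1)) (fun n => ou_odd (b n))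
    m3 b1
  have L2 := odd_one hE hO ha hγ hβ hδ hδ0 (fun n => ou_odd (m n)) (fun n => ou_odd (b n))
    m1 b1
  refine tendsto_of_tendsto_of_tendsto_of_le_of_le' L2 L1 ?_ ?_
  · refine Eventually.of_forall fun n => ?_
    have hδn : 0 < (δ n)^((2:ℝ)/3) := Real.rpow_pos_of_pos (hδ n) _
    refine div_le_div_of_nonneg_right ?_ hδn.le
    exact measureReal_mono (sub le_rfl (le_ou _) (add_le_add (le_ou _) (le_ou _)))
  · filter_upwards [e1] with n h1
    have g1 : 2 ≤ m n := by exact_mod_cast h1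
    have hδn : 0 < (δ n)^((2:ℝ)/3) := Real.rpow_pos_of_pos (hδ n) _
    refine div_le_div_of_nonneg_right ?_ hδn.le
    have g2 : od (m n - 1) ≤ m n - 1 := od_le (by omega)
    have g3 : ou (b n) ≤ b n + 1 := by unfold ou; split_ifs <;> omega
    exact measureReal_mono (sub le_rfl (by omega) (by omega))

end Pool.Agent.NH38.Fork
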