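import Pool.Agent.NH38.Fork.UG2

set_option autoImplicit false

/-!
Task FG-F (helper26): the map is a bijection of the upper half-plane onto the reflected channel.
-/

namespace Pool.Agent.NH38.Fork.UGC

open Filter Topology Set Real
open Pool.Agent.NH38.Step.Conf (sq_re_nonneg sq_im_nonneg sq_re_pos sq_im_pos)

section
variable {α γ β x y : ℝ} (H : Hp α γ β x y)
include H

/-! ### The derivative has positive real part in the upper half-plane -/

theorem key_neg {z : ℂ} (h : 0 < z.im) :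
    (PP x z * PP y z / (z * (z - ((1 : ℝ) : ℂ)))).im < 0 := by
  have hx0 := H.hx
  have hxy := H.hxy
  have hy1 := H.hy
  have ip : ∀ t : ℝ, 0 < (z - (t : ℂ)).im := fun t => by simpa using h
  have hz : z ≠ 0 := by rintro rfl; simp at h
  have hz1 : z - ((1 : ℝ) : ℂ) ≠ 0 := by
    intro h0
    have := ip 1
    rw [h0] at this
    simp at this
  have p1 : 0 < (PP x z).re := sq_re_pos (ip x)
  have p2 : 0 < (PP x z).im := sq_im_pos (ip x)
  have q1 : 0 < (PP y z).re := sq_re_pos (ip y)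
  have q2 : 0 < (PP y z).im := sq_im_pos (ip y)
  have eP := PP_sq (x := x) h.le
  have eQ := PP_sq (x := y) h.le
  have a1 := congrArg Complex.re eP
  have a2 := congrArg Complex.im eP
  have b1 := congrArg Complex.re eQ
  have b2 := congrArg Complex.im eQ
  rw [pow_two, Complex.mul_re, Complex.sub_re, Complex.ofReal_re] at a1 b1
  rw [pow_two, Complex.mul_im, Complex.sub_im, Complex.ofReal_im, sub_zero] at a2 b2
  have hn : 0 < Complex.normSq (z * (z - ((1 : ℝ) : ℂ))) :=
    Complex.normSq_pos.2 (mul_ne_zero hz hz1)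
  rw [Complex.div_im, ← sub_div, div_neg_iff]
  right
  refine ⟨?_, hn⟩
  rw [Complex.mul_re, Complex.mul_im, Complex.mul_re, Complex.mul_im, Complex.sub_re,
    Complex.sub_im, Complex.ofReal_re, Complex.ofReal_im, sub_zero]
  set u1 := (PP x z).re
  set u2 := (PP x z).im
  set v1 := (PP y z).re
  set v2 := (PP y z).im
  -- `u1 v2 > u2 v1`
  have hd : 0 < u1 * v2 - u2 * v1 := by
    have e : (u1 * v2 - u2 * v1) * (u1 * v1 + u2 * v2) = (v1 * v2) * (y - x) := by
      have e1 : u1 * u2 = v1 * v2 := by linarith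
      have e2 : u1 * u1 - u2 * u2 - (v1 * v1 - v2 * v2) = y - x := by linarith
      rw [← e2]
      linear_combination (v2 ^ 2 - v1 ^ 2) * e1
    have h1 : 0 < (u1 * v2 - u2 * v1) * (u1 * v1 + u2 * v2) := by
      rw [e]
      exact mul_pos (mul_pos q1 q2) (by linarith)
    have h2 : 0 < u1 * v1 + u2 * v2 := by positivity
    exact (pos_iff_pos_of_mul_pos h1).2 h2
  set X := z.re with hX
  set Y := z.im with hY
  have hS2 : 0 < u1 * v2 + u2 * v1 := by positivity
  have hμ : 0 < X * (u1 * v2 + u2 * v1) - Y * (u1 * v1 - u2 * v2) := by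
    have e : X * (u1 * v2 + u2 * v1) - Y * (u1 * v1 - u2 * v2) =
        x * (u1 * v2 + u2 * v1) + (u1 ^ 2 + u2 ^ 2) * (u1 * v2 - u2 * v1) := by
      linear_combination (-(u1 * v2 + u2 * v1)) * a1 + (u1 * v1 - u2 * v2) * a2
    rw [e]
    positivity
  have hl : 0 < (u1 * v1 - u2 * v2) * Y - (u1 * v2 + u2 * v1) * (X - 1) := by
    have e : (u1 * v1 - u2 * v2) * Y - (u1 * v2 + u2 * v1) * (X - 1) =
        (1 - y) * (u1 * v2 + u2 * v1) + (v1 ^ 2 + v2 ^ 2) * (u1 * v2 - u2 * v1) := by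
      linear_combination (u1 * v2 + u2 * v1) * b1 - (u1 * v1 - u2 * v2) * b2
    rw [e]
    have : 0 < 1 - y := by linarith
    positivity
  have e : (u1 * v2 + u2 * v1) * (X * (X - 1) - Y * Y) -
      (u1 * v1 - u2 * v2) * (X * Y + Y * (X - 1)) =
      -(((u1 * v1 - u2 * v2) * Y - (u1 * v2 + u2 * v1) * (X - 1)) * (X ^ 2 + Y ^ 2) +
        (X * (u1 * v2 + u2 * v1) - Y * (u1 * v1 - u2 * v2)) * ((X - 1) ^ 2 + Y ^ 2)) := by
    ring
  rw [e]
  have h3 : 0 < X ^ 2 + Y ^ 2 := by positivity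
  have h4 : 0 < (X - 1) ^ 2 + Y ^ 2 := by positivity
  have h5 := mul_pos hl h3
  have h6 := mul_pos hμ h4
  linarith

/-- Noshiro-Warschawski -/
theorem noshiro {z b : ℂ} (hz : 0 < z.im) (hb : 0 ≤ b.im) (hb0 : b ≠ 0) (hb1 : b ≠ 1)
    (hzb : z ≠ b) :
    0 < ((starRingEnd ℂ) (z - b) * (gg α γ β x y z - gg α γ β x y b)).re := by
  set φ : ℝ → ℝ := fun s =>
    ((starRingEnd ℂ) (z - b) * gg α γ β x y (b + (s : ℂ) * (z - b))).re with hφ
  have him : ∀ s : ℝ, (b + (s : ℂ) * (z - b)).im = (1 - s) * b.im + s * z.im := by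
    intro s
    rw [Complex.add_im, Complex.im_ofReal_mul, Complex.sub_im]
    ring
  have hpos : ∀ s : ℝ, 0 < s → s ≤ 1 → 0 < (b + (s : ℂ) * (z - b)).im := by
    intro s h0 h1
    rw [him]
    have := mul_nonneg (sub_nonneg.2 h1) hb
    have := mul_pos h0 hz
    linarith
  have hcont : ContinuousOn φ (Icc 0 1) := by
    have h1 : ContinuousOn (fun s : ℝ => gg α γ β x y (b + (s : ℂ) * (z - b))) (Icc 0 1) := by
      refine (gg_cont H).comp (by fun_prop) ?_
      intro s hs
      rcases lt_or_eq_of_le hs.1 with h | h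
      · have h2 := hpos s h hs.2
        refine ⟨h2.le, ?_, ?_⟩
        · intro h3
          have h4 : b + (s : ℂ) * (z - b) = 0 := h3
          rw [h4] at h2
          simp at h2
        · intro h3
          have h4 : b + (s : ℂ) * (z - b) = 1 := h3
          rw [h4] at h2
          simp at h2
      · rw [← h]
        simpa using ⟨hb, hb0, hb1⟩
    exact Complex.continuous_re.comp_continuousOn (continuousOn_const.mul h1)
  have hderiv : ∀ s ∈ interior (Icc (0 : ℝ) 1), 0 < deriv φ s := by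
    intro s hs
    rw [interior_Icc] at hs
    have h1 := hpos s hs.1 hs.2.le
    have D := gg_deriv H h1
    have L : HasDerivAt (fun w : ℂ => b + w * (z - b)) (z - b) (s : ℂ) := by
      have := ((hasDerivAt_id (s : ℂ)).mul_const (z - b)).const_add b
      simpa using this
    have h2 := key_neg H h1
    set k : ℂ := PP x (b + (s : ℂ) * (z - b)) * PP y (b + (s : ℂ) * (z - b)) /
      ((b + (s : ℂ) * (z - b)) * ((b + (s : ℂ) * (z - b)) - ((1 : ℝ) : ℂ))) with hk
    have D2 : HasDerivAt (fun w : ℂ => (starRingEnd ℂ) (z - b) * gg α γ β x y (b + w * (z - b)))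
        ((starRingEnd ℂ) (z - b) * ((((1 / π : ℝ) : ℂ) * (Complex.I *
          (((α + γ + β : ℝ) : ℂ) * k))) * (z - b))) (s : ℂ) :=
      (HasDerivAt.comp (s : ℂ) D L).const_mul _
    have D3 := D2.real_of_complex
    rw [D3.deriv]
    have e : ∀ c w : ℂ, (starRingEnd ℂ) w * (c * w) = ((Complex.normSq w : ℝ) : ℂ) * c := by
      intro c w
      rw [← Complex.mul_conj]
      ring
    rw [e, Complex.re_ofReal_mul, Complex.re_ofReal_mul, Complex.I_mul_re, Complex.im_ofReal_mul]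
    have h3 : 0 < Complex.normSq (z - b) := Complex.normSq_pos.2 (sub_ne_zero.2 hzb)
    have h4 : 0 < -((α + γ + β) * k.im) := by
      have := mul_neg_of_pos_of_neg (hN H) h2
      linarith
    have h5 : 0 < 1 / π := by positivity
    exact mul_pos h3 (mul_pos h5 h4)
  have hmono := strictMonoOn_of_deriv_pos (convex_Icc 0 1) hcont hderiv
  have h01 := hmono (left_mem_Icc.2 zero_le_one) (right_mem_Icc.2 zero_le_one) zero_lt_one
  have f0 : φ 0 = ((starRingEnd ℂ) (z - b) * gg α γ β x y b).re := by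
    rw [hφ]; simp
  have f1 : φ 1 = ((starRingEnd ℂ) (z - b) * gg α γ β x y z).re := by
    rw [hφ]; simp
  rw [f0, f1] at h01
  rw [mul_sub, Complex.sub_re]
  linarith

theorem gg_inj : InjOn (gg α γ β x y) {z : ℂ | 0 < z.im} := by
  intro z hz w hw h
  by_contra hne
  have hw' : (0 : ℝ) < w.im := hw
  have h1 := noshiro H hz hw'.le (by rintro rfl; simp at hw') (by rintro rfl; simp at hw') hne
  rw [h, sub_self, mul_zero] at h1
  simp at h1

/-- comparison with a boundary point with the same real part -/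
theorem above {z : ℂ} {t : ℝ} (hz : 0 < z.im) (ht : t ≠ 0) (ht1 : t ≠ 1)
    (h : (gg α γ β x y z).re = (gg α γ β x y (t : ℂ)).re) :
    (gg α γ β x y (t : ℂ)).im < (gg α γ β x y z).im := by
  have hne : z ≠ (t : ℂ) := by
    rintro rfl
    simp at hz
  have h1 := noshiro H hz (b := (t : ℂ)) (by simp) (by exact_mod_cast ht)
    (by exact_mod_cast ht1) hne
  have h2 : ((starRingEnd ℂ) (z - (t : ℂ)) * (gg α γ β x y z - gg α γ β x y (t : ℂ))).re =
      z.im * ((gg α γ β x y z).im - (gg α γ β x y (t : ℂ)).im) := by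
    rw [Complex.mul_re, Complex.conj_re, Complex.conj_im, Complex.sub_re, Complex.sub_im,
      Complex.sub_re, Complex.sub_im, h, Complex.ofReal_im]
    ring
  rw [h2] at h1
  have := (pos_iff_pos_of_mul_pos h1).1 hz
  linarith

/-! ### Bijections on the real axis -/

theorem bij_left : BijOn (fun t : ℝ => gg α γ β x y (t : ℂ)) (Iio 0) {w | w.re = -α} := by
  refine ⟨fun t ht => re_left H ht, ?_, ?_⟩
  · intro s hs t ht h
    exact (anti_left H).injOn hs ht (congrArg Complex.im h)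
  · intro w hw
    obtain ⟨R, hR1, hR⟩ := big H w.im
    obtain ⟨r, hr0, hr1, hr⟩ := small0 H w.im
    have h1 : w.im ≤ (gg α γ β x y ((-R : ℝ) : ℂ)).im := by
      refine hR _ (by simp) ?_
      rw [Complex.norm_real, norm_eq_abs, abs_neg, abs_of_pos (by linarith)]
    have h2 : (gg α γ β x y ((-r : ℝ) : ℂ)).im ≤ w.im := by
      refine hr _ (by simp) ?_ ?_
      · have : (-r : ℝ) ≠ 0 := by linarith
        exact_mod_cast this
      · rw [Complex.norm_real, norm_eq_abs, abs_neg, abs_of_pos hr0]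
    have hm1 : -R ∈ Iio (0 : ℝ) := by simp only [mem_Iio]; linarith
    have hm2 : -r ∈ Iio (0 : ℝ) := by simp only [mem_Iio]; linarith
    obtain ⟨t, ht, he⟩ := isPreconnected_Iio.intermediate_value hm2 hm1
      (cont_im H fun t ht => by
        have ht' : t < 0 := ht
        exact ⟨by linarith, by linarith⟩) ⟨h2, h1⟩
    exact ⟨t, ht, Complex.ext ((re_left H ht).trans hw.symm) he⟩

theorem bij_inner : BijOn (fun t : ℝ => gg α γ β x y (t : ℂ)) (Ioo 0 x)
    {w | w.re = 0 ∧ w.im < 0} := by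
  have hx0 := H.hx
  have hxy := H.hxy
  have hy1 := H.hy
  have ex : (gg α γ β x y ((x : ℝ) : ℂ)).im = 0 := by rw [gg_x H]; rfl
  refine ⟨?_, ?_, ?_⟩
  · intro t ht
    refine ⟨re_inner H ht.1 ht.2.le, ?_⟩
    have := mono_inner H ⟨ht.1, ht.2.le⟩ ⟨hx0, le_rfl⟩ ht.2
    simp only [ex] at this
    exact this
  · intro s hs t ht h
    exact (mono_inner H).injOn ⟨hs.1, hs.2.le⟩ ⟨ht.1, ht.2.le⟩ (congrArg Complex.im h)
  · rintro w ⟨hw, hw'⟩
    obtain ⟨r, hr0, hr1, hr⟩ := small0 H w.im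
    set r' := min r x with hr'
    have hr'0 : 0 < r' := lt_min hr0 hx0
    have h2 : (gg α γ β x y ((r' : ℝ) : ℂ)).im ≤ w.im := by
      refine hr _ (by simp) ?_ ?_
      · exact_mod_cast hr'0.ne'
      · rw [Complex.norm_real, norm_eq_abs, abs_of_pos hr'0]
        exact min_le_left _ _
    obtain ⟨t, ht, he⟩ := isPreconnected_Ioc.intermediate_value (a := r') (b := x)
      (⟨hr'0, min_le_right _ _⟩ : r' ∈ Ioc 0 x) ⟨hx0, le_rfl⟩
      (cont_im H fun t ht => ⟨ht.1.ne', by linarith [ht.2]⟩) ⟨h2, by rw [ex]; exact hw'.le⟩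
    have hne : t ≠ x := by
      rintro rfl
      have he' : (gg α γ β t y ((t : ℝ) : ℂ)).im = w.im := he
      rw [ex] at he'
      exact hw'.ne he'.symm
    have hlt : t < x := lt_of_le_of_ne ht.2 hne
    exact ⟨t, ⟨ht.1, hlt⟩, Complex.ext ((re_inner H ht.1 ht.2).trans hw.symm) he⟩

theorem bij_ledge : BijOn (fun t : ℝ => gg α γ β x y (t : ℂ)) (Ioo x y)
    {w | w.im = 0 ∧ 0 < w.re ∧ w.re < γ} := by
  have hx0 := H.hx
  have hxy := H.hxy
  have hy1 := H.hy
  have ex : (gg α γ β x y ((x : ℝ) : ℂ)).re = 0 := by rw [gg_x H]; rfl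
  have e1 : (gg α γ β x y ((y : ℝ) : ℂ)).re = γ := by rw [gg_y H]; rfl
  refine ⟨?_, ?_, ?_⟩
  · intro t ht
    refine ⟨im_ledge H ht.1.le ht.2.le, ?_, ?_⟩
    · have := mono_ledge H ⟨le_rfl, hxy.le⟩ ⟨ht.1.le, ht.2.le⟩ ht.1
      simp only [ex] at this
      exact this
    · have := mono_ledge H ⟨ht.1.le, ht.2.le⟩ ⟨hxy.le, le_rfl⟩ ht.2
      simp only [e1] at this
      exact this
  · intro s hs t ht h
    exact (mono_ledge H).injOn ⟨hs.1.le, hs.2.le⟩ ⟨ht.1.le, ht.2.le⟩ (congrArg Complex.re h)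
  · rintro w ⟨hw, hw1, hw2⟩
    have hc : ContinuousOn (fun t : ℝ => (gg α γ β x y (t : ℂ)).re) (Icc x y) :=
      cont_re H fun t ht => ⟨by linarith [ht.1], by linarith [ht.2]⟩
    have h3 := intermediate_value_Ioo hxy.le hc
    simp only [ex, e1] at h3
    obtain ⟨t, ht, he⟩ := h3 ⟨hw1, hw2⟩
    exact ⟨t, ht, Complex.ext he ((im_ledge H ht.1.le ht.2.le).trans hw.symm)⟩

theorem bij_inner' : BijOn (fun t : ℝ => gg α γ β x y (t : ℂ)) (Ioo y 1)
    {w | w.re = γ ∧ w.im < 0} := by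
  have hx0 := H.hx
  have hxy := H.hxy
  have hy1 := H.hy
  have ex : (gg α γ β x y ((y : ℝ) : ℂ)).im = 0 := by rw [gg_y H]; rfl
  refine ⟨?_, ?_, ?_⟩
  · intro t ht
    refine ⟨re_inner' H ht.1.le ht.2, ?_⟩
    have := anti_inner' H ⟨le_rfl, hy1⟩ ⟨ht.1.le, ht.2⟩ ht.1
    simp only [ex] at this
    exact this
  · intro s hs t ht h
    exact (anti_inner' H).injOn ⟨hs.1.le, hs.2⟩ ⟨ht.1.le, ht.2⟩ (congrArg Complex.im h)
  · rintro w ⟨hw, hw'⟩
    obtain ⟨r, hr0, hr1, hr⟩ := small1 H w.im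
    set r' := max (1 - r) y with hr'
    have hr'1 : r' < 1 := max_lt (by linarith) hy1
    have hr'y : y ≤ r' := le_max_right _ _
    have h2 : (gg α γ β x y ((r' : ℝ) : ℂ)).im ≤ w.im := by
      refine hr _ (by simp) ?_ ?_
      · exact_mod_cast hr'1.ne
      · rw [sub_one_cast, Complex.norm_real, norm_eq_abs, abs_of_neg (by linarith)]
        have : 1 - r ≤ r' := le_max_left _ _
        linarith
    obtain ⟨t, ht, he⟩ := isPreconnected_Ico.intermediate_value (a := r') (b := y)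
      (⟨hr'y, hr'1⟩ : r' ∈ Ico y 1) ⟨le_rfl, hy1⟩
      (cont_im H fun t ht => ⟨by linarith [ht.1], ht.2.ne⟩) ⟨h2, by rw [ex]; exact hw'.le⟩
    have hne : t ≠ y := by
      rintro rfl
      have he' : (gg α γ β x t ((t : ℝ) : ℂ)).im = w.im := he
      rw [ex] at he'
      exact hw'.ne he'.symm
    have hlt : y < t := lt_of_le_of_ne ht.1 hne.symm
    exact ⟨t, ⟨hlt, ht.2⟩, Complex.ext ((re_inner' H ht.1 ht.2).trans hw.symm) he⟩

theorem bij_right : BijOn (fun t : ℝ => gg α γ β x y (t : ℂ)) (Ioi 1) {w | w.re = γ + β} := by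
  refine ⟨fun t ht => re_right H ht, ?_, ?_⟩
  · intro s hs t ht h
    exact (mono_right H).injOn hs ht (congrArg Complex.im h)
  · intro w hw
    obtain ⟨R, hR1, hR⟩ := big H w.im
    obtain ⟨r, hr0, hr1, hr⟩ := small1 H w.im
    have h1 : w.im ≤ (gg α γ β x y ((R : ℝ) : ℂ)).im := by
      refine hR _ (by simp) ?_
      rw [Complex.norm_real, norm_eq_abs, abs_of_pos (by linarith)]
    have h2 : (gg α γ β x y ((1 + r : ℝ) : ℂ)).im ≤ w.im := by
      refine hr _ (by simp) ?_ ?_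
      · have : (1 + r : ℝ) ≠ 1 := by linarith
        exact_mod_cast this
      · rw [sub_one_cast, Complex.norm_real, norm_eq_abs, abs_of_pos (by linarith)]
        linarith
    have hm1 : R ∈ Ioi (1 : ℝ) := hR1
    have hm2 : 1 + r ∈ Ioi (1 : ℝ) := by simp only [mem_Ioi]; linarith
    obtain ⟨t, ht, he⟩ := isPreconnected_Ioi.intermediate_value hm2 hm1
      (cont_im H fun t ht => by
        have ht' : 1 < t := ht
        exact ⟨by linarith, by linarith⟩) ⟨h2, h1⟩
    exact ⟨t, ht, Complex.ext ((re_right H ht).trans hw.symm) he⟩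

/-! ### The image -/

omit H in
/-- the reflected channel -/
def EDg (α γ β : ℝ) : Set ℂ :=
  {w | -α < w.re ∧ w.re < γ + β ∧ (0 ≤ w.re → w.re ≤ γ → 0 < w.im)}

theorem re_ne_left {z : ℂ} (hz : 0 < z.im) : (gg α γ β x y z).re ≠ -α := by
  intro h
  obtain ⟨t, ht, he⟩ := (bij_left H).surjOn
    (show (⟨-α, (gg α γ β x y z).im⟩ : ℂ) ∈ _ from rfl)
  have he' : gg α γ β x y (t : ℂ) = ⟨-α, (gg α γ β x y z).im⟩ := he
  have ht' : t < 0 := ht
  have h1 := above H hz (by linarith) (by linarith) (by rw [he', h])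
  rw [he'] at h1
  exact lt_irrefl _ h1

theorem re_ne_right {z : ℂ} (hz : 0 < z.im) : (gg α γ β x y z).re ≠ γ + β := by
  intro h
  obtain ⟨t, ht, he⟩ := (bij_right H).surjOn
    (show (⟨γ + β, (gg α γ β x y z).im⟩ : ℂ) ∈ _ from rfl)
  have he' : gg α γ β x y (t : ℂ) = ⟨γ + β, (gg α γ β x y z).im⟩ := he
  have ht' : 1 < t := ht
  have h1 := above H hz (by linarith) (by linarith) (by rw [he', h])
  rw [he'] at h1
  exact lt_irrefl _ h1

theorem cont_H : ContinuousOn (gg α γ β x y) {z : ℂ | 0 < z.im} :=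
  (gg_cont H).mono fun z hz => by
    have hz' : 0 < z.im := hz
    exact ⟨hz'.le, by rintro rfl; simp at hz', by rintro rfl; simp at hz'⟩

omit H in
theorem H_convex : Convex ℝ {z : ℂ | 0 < z.im} := convex_halfSpace_im_gt 0

/-- an interior point with real part in the right range -/
theorem exists_mid : ∃ z : ℂ, 0 < z.im ∧ -α < (gg α γ β x y z).re ∧
    (gg α γ β x y z).re < γ + β := by
  have hx0 := H.hx
  have hxy := H.hxy
  have hy1 := H.hy
  have hα := H.hα
  have hβ := H.hβ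
  set b : ℝ := (x + y) / 2 with hb
  have hb1 : x < b := by rw [hb]; linarith
  have hb2 : b < y := by rw [hb]; linarith
  obtain ⟨-, g1, g2⟩ := (bij_ledge H).mapsTo (⟨hb1, hb2⟩ : b ∈ Ioo x y)
  have hc : ContinuousOn (fun s : ℝ => (gg α γ β x y ((b : ℂ) + (s : ℂ) * Complex.I)).re)
      (Ici 0) := by
    refine Complex.continuous_re.comp_continuousOn ((gg_cont H).comp (by fun_prop) ?_)
    intro s hs
    have hs' : (0 : ℝ) ≤ s := hs
    refine ⟨by simpa using hs', ?_, ?_⟩
    · intro h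
      have := congrArg Complex.re h
      simp at this
      linarith
    · intro h
      have := congrArg Complex.re h
      simp at this
      linarith
  have hc0 := hc 0 (mem_Ici.2 le_rfl)
  have hval : (gg α γ β x y ((b : ℂ) + ((0 : ℝ) : ℂ) * Complex.I)).re =
      (gg α γ β x y (b : ℂ)).re := by simp
  have hev : ∀ᶠ s : ℝ in 𝓝[Ici 0] 0,
      (gg α γ β x y ((b : ℂ) + (s : ℂ) * Complex.I)).re ∈ Ioo (-α) (γ + β) := by
    refine hc0.eventually (Ioo_mem_nhds ?_ ?_)
    · show -α < (gg α γ β x y ((b : ℂ) + ((0 : ℝ) : ℂ) * Complex.I)).re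
      rw [hval]
      have : 0 < (gg α γ β x y (b : ℂ)).re := g1
      linarith
    · show (gg α γ β x y ((b : ℂ) + ((0 : ℝ) : ℂ) * Complex.I)).re < γ + β
      rw [hval]
      have : (gg α γ β x y (b : ℂ)).re < γ := g2
      linarith
  have hev2 : ∀ᶠ s : ℝ in 𝓝[>] 0,
      (gg α γ β x y ((b : ℂ) + (s : ℂ) * Complex.I)).re ∈ Ioo (-α) (γ + β) :=
    hev.filter_mono (nhdsWithin_mono _ Ioi_subset_Ici_self)
  have hev3 : ∀ᶠ s : ℝ in 𝓝[>] 0, s ∈ Ioi (0 : ℝ) := self_mem_nhdsWithin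
  obtain ⟨s, hs1, hs2⟩ := (hev2.and hev3).exists
  refine ⟨(b : ℂ) + (s : ℂ) * Complex.I, ?_, hs1.1, hs1.2⟩
  have : (0 : ℝ) < s := hs2
  simpa using this

theorem re_range {z : ℂ} (hz : 0 < z.im) :
    -α < (gg α γ β x y z).re ∧ (gg α γ β x y z).re < γ + β := by
  obtain ⟨z0, h0, h1, h2⟩ := exists_mid H
  have hpre : IsPreconnected {z : ℂ | 0 < z.im} := H_convex.isPreconnected
  have hc : ContinuousOn (fun z => (gg α γ β x y z).re) {z : ℂ | 0 < z.im} :=
    Complex.continuous_re.comp_continuousOn (cont_H H)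
  constructor
  · by_contra hn
    obtain ⟨w, hw, he⟩ := hpre.intermediate_value hz h0 hc ⟨not_lt.1 hn, h1.le⟩
    exact re_ne_left H hw he
  · by_contra hn
    obtain ⟨w, hw, he⟩ := hpre.intermediate_value h0 hz hc ⟨h2.le, not_lt.1 hn⟩
    exact re_ne_right H hw he

theorem gg_mapsTo : MapsTo (gg α γ β x y) {z : ℂ | 0 < z.im} (EDg α γ β) := by
  intro z hz
  have hx0 := H.hx
  have hxy := H.hxy
  have hy1 := H.hy
  obtain ⟨h1, h2⟩ := re_range H hz
  refine ⟨h1, h2, fun h3 h3' => ?_⟩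
  rcases lt_or_eq_of_le h3 with h4 | h4
  · rcases lt_or_eq_of_le h3' with h4' | h4'
    · obtain ⟨t, ht, he⟩ := (bij_ledge H).surjOn
        (show (((gg α γ β x y z).re : ℝ) : ℂ) ∈ _ from ⟨Complex.ofReal_im _, by simpa using h4,
          by simpa using h4'⟩)
      have he' : gg α γ β x y (t : ℂ) = (((gg α γ β x y z).re : ℝ) : ℂ) := he
      have h5 := above H hz (hx0.trans ht.1).ne' (ht.2.trans hy1).ne
        (by rw [he', Complex.ofReal_re])
      rw [he', Complex.ofReal_im] at h5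
      exact h5
    · have h5 := above H hz (hx0.trans hxy).ne' hy1.ne (by rw [gg_y H, h4']; rfl)
      rw [gg_y H] at h5
      exact h5
  · have h5 := above H hz hx0.ne' (hxy.trans hy1).ne (by rw [gg_x H, ← h4]; rfl)
    rw [gg_x H] at h5
    exact h5

theorem gg_boundary_not {t : ℝ} (ht : t ≠ 0) (ht1 : t ≠ 1) :
    gg α γ β x y (t : ℂ) ∉ EDg α γ β := by
  have hγ := H.hγ
  have hx0 := H.hx
  have hxy := H.hxy
  have hy1 := H.hy
  rintro ⟨h1, h2, h3⟩
  rcases lt_or_gt_of_ne ht with h | h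
  · rw [re_left H h] at h1
    exact lt_irrefl _ h1
  · rcases le_or_gt t x with h4 | h4
    · have e0 := re_inner H h h4
      have h5 := h3 e0.ge (by rw [e0]; exact hγ.le)
      have h6 : (gg α γ β x y (t : ℂ)).im ≤ 0 := by
        rcases lt_or_eq_of_le h4 with h7 | h7
        · exact ((bij_inner H).mapsTo (⟨h, h7⟩ : t ∈ Ioo 0 x)).2.le
        · rw [h7, gg_x H]; exact le_rfl
      linarith
    · rcases lt_or_ge t y with h5 | h5
      · obtain ⟨g1, g2, g3⟩ := (bij_ledge H).mapsTo (⟨h4, h5⟩ : t ∈ Ioo x y)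
        have g1' : (gg α γ β x y (t : ℂ)).im = 0 := g1
        have g2' : 0 < (gg α γ β x y (t : ℂ)).re := g2
        have g3' : (gg α γ β x y (t : ℂ)).re < γ := g3
        have := h3 g2'.le g3'.le
        linarith
      · rcases lt_or_gt_of_ne ht1 with h6 | h6
        · have e0 := re_inner' H h5 h6
          have h7 := h3 (by rw [e0]; exact hγ.le) e0.le
          have h8 : (gg α γ β x y (t : ℂ)).im ≤ 0 := by
            rcases lt_or_eq_of_le h5 with h9 | h9
            · exact ((bij_inner' H).mapsTo (⟨h9, h6⟩ : t ∈ Ioo y 1)).2.le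
            · rw [← h9, gg_y H]; exact le_rfl
          linarith
        · rw [re_right H h6] at h2
          exact lt_irrefl _ h2

omit H in
theorem EDg_preconnected (hα : 0 < α) (hγ : 0 < γ) (hβ : 0 < β) :
    IsPreconnected (EDg α γ β) := by
  have e : EDg α γ β = ({w : ℂ | -α < w.re ∧ w.re < 0} ∪
      {w : ℂ | (-α < w.re ∧ w.re < γ + β) ∧ 0 < w.im}) ∪ {w : ℂ | γ < w.re ∧ w.re < γ + β} := by
    ext w
    constructor
    · rintro ⟨h1, h2, h3⟩
      rcases lt_or_ge w.re 0 with h | h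
      · exact Or.inl (Or.inl ⟨h1, h⟩)
      · rcases lt_or_ge γ w.re with h' | h'
        · exact Or.inr ⟨h', h2⟩
        · exact Or.inl (Or.inr ⟨⟨h1, h2⟩, h3 h h'⟩)
    · rintro ((⟨h1, h2⟩ | ⟨⟨h1, h2⟩, h3⟩) | ⟨h1, h2⟩)
      · exact ⟨h1, by linarith, fun h => absurd h2 (not_lt.2 h)⟩
      · exact ⟨h1, h2, fun _ _ => h3⟩
      · exact ⟨by linarith, h2, fun _ h => absurd h1 (not_lt.2 h)⟩
  rw [e]
  have c1 : Convex ℝ {w : ℂ | -α < w.re ∧ w.re < 0} :=
    (convex_halfSpace_re_gt (-α)).inter (convex_halfSpace_re_lt 0)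
  have c2 : Convex ℝ {w : ℂ | (-α < w.re ∧ w.re < γ + β) ∧ 0 < w.im} :=
    ((convex_halfSpace_re_gt (-α)).inter (convex_halfSpace_re_lt (γ + β))).inter
      (convex_halfSpace_im_gt 0)
  have c3 : Convex ℝ {w : ℂ | γ < w.re ∧ w.re < γ + β} :=
    (convex_halfSpace_re_gt γ).inter (convex_halfSpace_re_lt (γ + β))
  have p12 : IsPreconnected ({w : ℂ | -α < w.re ∧ w.re < 0} ∪
      {w : ℂ | (-α < w.re ∧ w.re < γ + β) ∧ 0 < w.im}) := by
    refine IsPreconnected.union (⟨-α / 2, 1⟩ : ℂ) ?_ ?_ c1.isPreconnected c2.isPreconnected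
    · refine ⟨?_, ?_⟩
      · show -α < -α / 2
        linarith
      · show -α / 2 < 0
        linarith
    · refine ⟨⟨?_, ?_⟩, ?_⟩
      · show -α < -α / 2
        linarith
      · show -α / 2 < γ + β
        linarith
      · exact one_pos
  refine IsPreconnected.union (⟨γ + β / 2, 1⟩ : ℂ) (Or.inr ?_) ?_ p12 c3.isPreconnected
  · refine ⟨⟨?_, ?_⟩, ?_⟩
    · show -α < γ + β / 2
      linarith
    · show γ + β / 2 < γ + β
      linarith
    · exact one_pos
  · refine ⟨?_, ?_⟩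
    · show γ < γ + β / 2
      linarith
    · show γ + β / 2 < γ + β
      linarith

theorem gg_diff : DifferentiableOn ℂ (gg α γ β x y) {z : ℂ | 0 < z.im} := fun _ hz =>
  (gg_deriv H hz).differentiableAt.differentiableWithinAt

theorem image_open : IsOpen (gg α γ β x y '' {z : ℂ | 0 < z.im}) := by
  have hopen : IsOpen {z : ℂ | 0 < z.im} := isOpen_lt continuous_const Complex.continuous_im
  have han : AnalyticOnNhd ℂ (gg α γ β x y) {z : ℂ | 0 < z.im} :=
    (gg_diff H).analyticOnNhd hopen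
  rcases han.is_constant_or_isOpen H_convex.isPreconnected with h | h
  · obtain ⟨w, hw⟩ := h
    exfalso
    have h1 : Complex.I = 2 * Complex.I := gg_inj H (by simp) (by simp)
      ((hw _ (by simp)).trans (hw _ (by simp)).symm)
    have h2 := congrArg Complex.im h1
    simp at h2
  · exact h _ Subset.rfl hopen

theorem image_closed : closure (gg α γ β x y '' {z : ℂ | 0 < z.im}) ∩ EDg α γ β ⊆
    gg α γ β x y '' {z : ℂ | 0 < z.im} := by
  rintro ζ ⟨hc, hD⟩
  obtain ⟨R, hR1, hR⟩ := big H (ζ.im + 1)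
  obtain ⟨r, hr0, hr1, hr⟩ := small0 H (ζ.im - 1)
  obtain ⟨s, hs0, hs1, hs⟩ := small1 H (ζ.im - 1)
  set K : Set ℂ := {z | 0 ≤ z.im ∧ r ≤ ‖z‖ ∧ s ≤ ‖z - ((1 : ℝ) : ℂ)‖ ∧ ‖z‖ ≤ R} with hK
  have hKc : IsCompact K := by
    have h1 : IsClosed K := by
      refine IsClosed.inter (isClosed_le continuous_const Complex.continuous_im) ?_
      refine IsClosed.inter (isClosed_le continuous_const continuous_norm) ?_
      exact IsClosed.inter (isClosed_le continuous_const
        (continuous_norm.comp (continuous_id.sub continuous_const)))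
        (isClosed_le continuous_norm continuous_const)
    refine (isCompact_closedBall (0 : ℂ) R).of_isClosed_subset h1 ?_
    rintro z ⟨_, _, _, h2⟩
    simpa using h2
  have hKne : ∀ z ∈ K, z ≠ 0 := by
    rintro z ⟨_, h2, _, _⟩ rfl
    simp at h2
    linarith
  have hKne1 : ∀ z ∈ K, z ≠ 1 := by
    rintro z ⟨_, _, h2, _⟩ rfl
    simp at h2
    linarith
  have himg : IsCompact (gg α γ β x y '' K) :=
    hKc.image_of_continuousOn ((gg_cont H).mono fun z hz => ⟨hz.1, hKne z hz, hKne1 z hz⟩)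
  have hmem : ζ ∈ gg α γ β x y '' K := by
    rw [← himg.isClosed.closure_eq]
    rw [mem_closure_iff_nhds] at hc ⊢
    intro t ht
    have hU : {w : ℂ | ζ.im - 1 < w.im ∧ w.im < ζ.im + 1} ∈ 𝓝 ζ := by
      have ho : IsOpen {w : ℂ | ζ.im - 1 < w.im ∧ w.im < ζ.im + 1} :=
        (isOpen_lt continuous_const Complex.continuous_im).inter
          (isOpen_lt Complex.continuous_im continuous_const)
      exact ho.mem_nhds ⟨by linarith, by linarith⟩
    obtain ⟨w, ⟨hw1, hw2⟩, z, hz, rfl⟩ := hc _ (inter_mem ht hU)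
    have hz' : 0 < z.im := hz
    have hz0 : z ≠ 0 := by rintro rfl; simp at hz'
    have hz1 : z ≠ 1 := by rintro rfl; simp at hz'
    refine ⟨gg α γ β x y z, hw1, z, ⟨hz'.le, ?_, ?_, ?_⟩, rfl⟩
    · by_contra hn
      have := hr z hz'.le hz0 (not_le.1 hn).le
      linarith [hw2.1]
    · by_contra hn
      have := hs z hz'.le hz1 (not_le.1 hn).le
      linarith [hw2.1]
    · by_contra hn
      have := hR z hz'.le (not_le.1 hn).le
      linarith [hw2.2]
  obtain ⟨z, hz, rfl⟩ := hmem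
  rcases lt_or_eq_of_le hz.1 with h | h
  · exact ⟨z, h, rfl⟩
  · exfalso
    have e : z = ((z.re : ℝ) : ℂ) := by
      apply Complex.ext
      · simp
      · simp [← h]
    have hne : z.re ≠ 0 := by
      intro h0
      apply hKne z hz
      rw [e, h0]
      simp
    have hne1 : z.re ≠ 1 := by
      intro h0
      apply hKne1 z hz
      rw [e, h0]
      simp
    rw [e] at hD
    exact gg_boundary_not H hne hne1 hD

theorem gg_bijOn : BijOn (gg α γ β x y) {z : ℂ | 0 < z.im} (EDg α γ β) := by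
  refine ⟨gg_mapsTo H, gg_inj H, ?_⟩
  refine (EDg_preconnected H.hα H.hγ H.hβ).subset_of_closure_inter_subset (image_open H) ?_
    (image_closed H)
  refine ⟨gg α γ β x y Complex.I, gg_mapsTo H (by simp), ?_⟩
  exact ⟨Complex.I, by simp, rfl⟩

end

end Pool.Agent.NH38.Fork.UGC
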