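import Pool.Agent.NH38.Fork.Stubs4
import Pool.Agent.NH38.Fork.FConf
import Pool.Agent.NH38.Fork.UG3

set_option autoImplicit false

/-!
Task FG-F (helper26): the conformal map of the upper half-plane onto the forked channel with arms
of different widths.
-/

namespace Pool.Agent.NH38.Fork

open Filter Topology Set

theorem conj_mem_GDom {α γ β : ℝ} {w : ℂ} :
    (starRingEnd ℂ) w ∈ GDom α γ β ↔ w ∈ UGC.EDg α γ β := by
  unfold GDom UGC.EDg
  simp only [Complex.conj_re, Complex.conj_im, mem_ofPred_eq, neg_lt_zero]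

namespace UGC

/-- the roots -/
theorem roots {a b : ℝ} (ha : 0 < a) (hb : 0 < b) (hab : a + b < 1) :
    0 < x1 (a ^ 2) (b ^ 2) ∧ x1 (a ^ 2) (b ^ 2) < x2 (a ^ 2) (b ^ 2) ∧
    x2 (a ^ 2) (b ^ 2) < 1 ∧ x1 (a ^ 2) (b ^ 2) * x2 (a ^ 2) (b ^ 2) = a ^ 2 ∧
    (1 - x1 (a ^ 2) (b ^ 2)) * (1 - x2 (a ^ 2) (b ^ 2)) = b ^ 2 := by
  have hD : 0 < (1 + a ^ 2 - b ^ 2) ^ 2 - 4 * a ^ 2 := by
    have e : (1 + a ^ 2 - b ^ 2) ^ 2 - 4 * a ^ 2 =
        ((1 - a - b) * (1 - a + b)) * ((1 + a - b) * (1 + a + b)) := by ring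
    rw [e]
    have h1 : 0 < 1 - a - b := by linarith
    have h2 : 0 < 1 - a + b := by linarith
    have h3 : 0 < 1 + a - b := by linarith
    have h4 : 0 < 1 + a + b := by linarith
    positivity
  have hr : 0 < rr (a ^ 2) (b ^ 2) := Real.sqrt_pos.2 hD
  have hr2 : rr (a ^ 2) (b ^ 2) ^ 2 = (1 + a ^ 2 - b ^ 2) ^ 2 - 4 * a ^ 2 := Real.sq_sqrt hD.le
  have e1 : x1 (a ^ 2) (b ^ 2) * x2 (a ^ 2) (b ^ 2) = a ^ 2 := by
    unfold x1 x2
    linear_combination (-1 / 4 : ℝ) * hr2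
  have e2 : (1 - x1 (a ^ 2) (b ^ 2)) * (1 - x2 (a ^ 2) (b ^ 2)) = b ^ 2 := by
    unfold x1 x2
    linear_combination (-1 / 4 : ℝ) * hr2
  have h12 : x1 (a ^ 2) (b ^ 2) < x2 (a ^ 2) (b ^ 2) := by
    unfold x1 x2
    linarith
  have hs : 0 < 1 + a ^ 2 - b ^ 2 := by nlinarith
  have hs' : 0 < 1 - a ^ 2 + b ^ 2 := by nlinarith
  have h2pos : 0 < x2 (a ^ 2) (b ^ 2) := by
    unfold x2
    linarith
  have h1pos : 0 < x1 (a ^ 2) (b ^ 2) := by
    have : 0 < x1 (a ^ 2) (b ^ 2) * x2 (a ^ 2) (b ^ 2) := by rw [e1]; positivity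
    exact (pos_iff_pos_of_mul_pos this).2 h2pos
  have h3pos : 0 < 1 - x1 (a ^ 2) (b ^ 2) := by
    unfold x1
    linarith
  have h4pos : 0 < 1 - x2 (a ^ 2) (b ^ 2) := by
    have : 0 < (1 - x1 (a ^ 2) (b ^ 2)) * (1 - x2 (a ^ 2) (b ^ 2)) := by rw [e2]; positivity
    exact (pos_iff_pos_of_mul_pos this).1 h3pos
  exact ⟨h1pos, h12, by linarith, e1, e2⟩

theorem hp_of {α γ β : ℝ} (hα : 0 < α) (hγ : 0 < γ) (hβ : 0 < β) :
    Hp α γ β (x1 ((α/(α+γ+β))^2) ((β/(α+γ+β))^2)) (x2 ((α/(α+γ+β))^2) ((β/(α+γ+β))^2)) := by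
  have hN : 0 < α + γ + β := by linarith
  have ha : 0 < α/(α+γ+β) := by positivity
  have hb : 0 < β/(α+γ+β) := by positivity
  have hab : α/(α+γ+β) + β/(α+γ+β) < 1 := by
    rw [← add_div, div_lt_one hN]
    linarith
  obtain ⟨h1, h2, h3, h4, h5⟩ := roots ha hb hab
  refine ⟨hα, hγ, hβ, h1, h2, h3, ?_, ?_⟩
  · rw [← Real.sqrt_mul h1.le, h4, Real.sqrt_sq ha.le]
    field_simp
  · rw [← Real.sqrt_mul (by linarith), h5, Real.sqrt_sq hb.le]
    field_simp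

end UGC

theorem t_UG : S_UG := by
  intro α γ β hα hγ hβ
  have H := UGC.hp_of hα hγ hβ
  set x := x1 ((α/(α+γ+β))^2) ((β/(α+γ+β))^2)
  set y := x2 ((α/(α+γ+β))^2) ((β/(α+γ+β))^2)
  refine ⟨fun z => (starRingEnd ℂ) (UGC.gg α γ β x y z), ?_⟩
  refine
    { holo := ?_
      bij := ?_
      cont := ?_
      leftWall := ?_
      innerWall := ?_
      corner := ?_
      ledge := ?_
      corner' := ?_
      innerWall' := ?_
      rightWall := ?_ }
  · have e : (fun z => (starRingEnd ℂ) ((starRingEnd ℂ) (UGC.gg α γ β x y z))) =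
        UGC.gg α γ β x y := by
      funext z
      rw [Complex.conj_conj]
    rw [e]
    exact UGC.gg_diff H
  · have h := UGC.gg_bijOn H
    refine ⟨fun z hz => conj_mem_GDom.2 (h.mapsTo hz), ?_, ?_⟩
    · intro s hs t ht he
      exact h.injOn hs ht ((starRingEnd ℂ).injective he)
    · intro w hw
      have h1 : (starRingEnd ℂ) w ∈ UGC.EDg α γ β := by
        rw [← conj_mem_GDom, Complex.conj_conj]
        exact hw
      obtain ⟨z, hz, he⟩ := h.surjOn h1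
      refine ⟨z, hz, ?_⟩
      show (starRingEnd ℂ) (UGC.gg α γ β x y z) = w
      rw [he, Complex.conj_conj]
  · exact Complex.continuous_conj.comp_continuousOn (UGC.gg_cont H)
  · exact FC.bij_conj (UGC.bij_left H) fun w => by simp
  · exact FC.bij_conj (UGC.bij_inner H) fun w => by simp
  · show (starRingEnd ℂ) (UGC.gg α γ β x y _) = 0
    rw [UGC.gg_x H, map_zero]
  · exact FC.bij_conj (UGC.bij_ledge H) fun w => by simp
  · show (starRingEnd ℂ) (UGC.gg α γ β x y _) = (γ : ℂ)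
    rw [UGC.gg_y H, Complex.conj_ofReal]
  · exact FC.bij_conj (UGC.bij_inner' H) fun w => by simp
  · exact FC.bij_conj (UGC.bij_right H) fun w => by simp

end Pool.Agent.NH38.Fork
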