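import Pool.Agent.NH38.Fork.Stubs5
import Pool.Agent.NH38.Fork.UG

set_option autoImplicit false

/-!
Task FR-7 (helper73): the conformal map near the left corner of the slit.
-/

namespace Pool.Agent.NH38.Fork

open Filter Topology Set

namespace UGL

/-- the uniformisation by the conjugate of `gg` -/
theorem unif {α γ β x y : ℝ} (H : UGC.Hp α γ β x y) :
    UnifG α γ β x y (fun z => (starRingEnd ℂ) (UGC.gg α γ β x y z)) := by
  refine
    { holo := ?_
      bij := ?_
      cont := ?_
      leftWall := ?_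
      innerWall := ?_
      corner := ?_
      ledge := ?_
      corner' := ?_
      innerWall' := ?_
      rightWall := ?_ }
  · have e : (fun z => (starRingEnd ℂ) ((starRingEnd ℂ) (UGC.gg α γ β x y z))) =
        UGC.gg α γ β x y := by
      funext z
      rw [Complex.conj_conj]
    rw [e]
    exact UGC.gg_diff H
  · have h := UGC.gg_bijOn H
    refine ⟨fun z hz => conj_mem_GDom.2 (h.mapsTo hz), ?_, ?_⟩
    · intro s hs t ht he
      exact h.injOn hs ht ((starRingEnd ℂ).injective he)
    · intro w hw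
      have h1 : (starRingEnd ℂ) w ∈ UGC.EDg α γ β := by
        rw [← conj_mem_GDom, Complex.conj_conj]
        exact hw
      obtain ⟨z, hz, he⟩ := h.surjOn h1
      refine ⟨z, hz, ?_⟩
      show (starRingEnd ℂ) (UGC.gg α γ β x y z) = w
      rw [he, Complex.conj_conj]
  · exact Complex.continuous_conj.comp_continuousOn (UGC.gg_cont H)
  · exact FC.bij_conj (UGC.bij_left H) fun w => by simp
  · exact FC.bij_conj (UGC.bij_inner H) fun w => by simp
  · show (starRingEnd ℂ) (UGC.gg α γ β x y _) = 0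
    rw [UGC.gg_x H, map_zero]
  · exact FC.bij_conj (UGC.bij_ledge H) fun w => by simp
  · show (starRingEnd ℂ) (UGC.gg α γ β x y _) = (γ : ℂ)
    rw [UGC.gg_y H, Complex.conj_ofReal]
  · exact FC.bij_conj (UGC.bij_inner' H) fun w => by simp
  · exact FC.bij_conj (UGC.bij_right H) fun w => by simp

/-- the behaviour at the corner -/
theorem corner_lim {α γ β x y : ℝ} (H : UGC.Hp α γ β x y) :
    Tendsto (fun t : ℝ => (UGC.gg α γ β x y (t : ℂ)).re / (t - x)^((3:ℝ)/2)) (𝓝[>] x)
      (𝓝 (2 * (α+γ+β) / (3 * Real.pi) * Real.sqrt (y - x) / (x * (1 - x)))) := by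
  have hx := H.hx
  have hxy := H.hxy
  have hy := H.hy
  refine HasDerivAt.lhopital_zero_right_on_Ioo
    (f' := fun t : ℝ => 1 / Real.pi * ((α + γ + β) * (-(√(t - x) * √(y - t)) / (t * (t - 1)))))
    (g' := fun t : ℝ => (3:ℝ)/2 * (t - x)^((3:ℝ)/2 - 1)) hxy ?_ ?_ ?_ ?_ ?_ ?_
  · intro t ht
    exact UGC.deriv_re_mid H ht.1 ht.2
  · intro t ht
    have h0 : t - x ≠ 0 := (sub_pos.2 ht.1).ne'
    have h1 : HasDerivAt (fun t : ℝ => t - x) 1 t := (hasDerivAt_id t).sub_const x
    have h2 := h1.rpow_const (p := (3:ℝ)/2) (Or.inl h0)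
    simpa using h2
  · intro t ht
    have h0 : 0 < t - x := sub_pos.2 ht.1
    positivity
  · have hc : ContinuousOn (fun t : ℝ => (UGC.gg α γ β x y (t : ℂ)).re) (Icc x y) :=
      UGC.cont_re H fun t ht => ⟨by linarith [ht.1], by linarith [ht.2]⟩
    have h1 := hc x ⟨le_rfl, hxy.le⟩
    have h2 : (UGC.gg α γ β x y (x : ℂ)).re = 0 := by rw [UGC.gg_x H]; rfl
    unfold ContinuousWithinAt at h1
    simp only [h2] at h1
    refine h1.mono_left ?_
    rw [← nhdsWithin_Ioo_eq_nhdsGT hxy]
    exact nhdsWithin_mono _ Ioo_subset_Icc_self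
  · have h1 : ContinuousAt (fun t : ℝ => (t - x)^((3:ℝ)/2)) x := by
      refine ContinuousAt.rpow_const (by fun_prop) (Or.inr (by norm_num))
    have h2 : (x - x)^((3:ℝ)/2) = 0 := by
      rw [sub_self]
      exact Real.zero_rpow (by norm_num)
    unfold ContinuousAt at h1
    simp only [h2] at h1
    exact h1.mono_left nhdsWithin_le_nhds
  · have h1 : Tendsto (fun t : ℝ => 2 * (α+γ+β) / (3 * Real.pi) * √(y - t) / (t * (1 - t)))
        (𝓝[>] x) (𝓝 (2 * (α+γ+β) / (3 * Real.pi) * √(y - x) / (x * (1 - x)))) := by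
      have hc : ContinuousAt (fun t : ℝ => 2 * (α+γ+β) / (3 * Real.pi) * √(y - t) /
          (t * (1 - t))) x := by
        refine ContinuousAt.div (by fun_prop) (by fun_prop) ?_
        have : 0 < 1 - x := by linarith
        positivity
      exact hc.tendsto.mono_left nhdsWithin_le_nhds
    refine h1.congr' ?_
    filter_upwards [Ioo_mem_nhdsGT hxy] with t ht
    have h0 : 0 < t - x := sub_pos.2 ht.1
    have h2 : √(t - x) = (t - x)^((3:ℝ)/2 - 1) := by
      rw [Real.sqrt_eq_rpow]
      norm_num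
    have h3 : (t - x)^((3:ℝ)/2 - 1) ≠ 0 := by positivity
    have h4 : t ≠ 0 := by linarith [ht.1]
    have h5 : 1 - t ≠ 0 := by
      have := ht.2
      intro h
      linarith
    have h6 : t - 1 ≠ 0 := by
      intro h
      apply h5
      linarith
    have h7 := Real.pi_ne_zero
    rw [h2]
    field_simp
    ring

end UGL

theorem t_UGL : S_UGL := by
  intro α γ β hα hγ hβ
  have H := UGC.hp_of hα hγ hβ
  refine ⟨_, UGL.unif H, ?_⟩
  rintro x x' rfl rfl
  have h := UGL.corner_lim H
  refine h.congr fun t => ?_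
  rw [Complex.conj_re]

end Pool.Agent.NH38.Fork
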