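import Pool.Agent.NH38.Fork.Defs

/-!
Thick slits (helper38): statements of the tasks (nothing is proved here).
-/

namespace Pool.Agent.NH38.Fork

open Pool.Agent.H988R2.Perc hiding X
open Pool.Agent.H492C (comb2 pairG up1)
open Pool.Agent.NH38.Step (om prs EE zs prF Gen on cardy pom bev)
open Polynomial

/-! ## TASKS Q: qKZ facts for `gh` -/

/-- Q1: width in `w` and extreme coefficients -/
def S_wid : Prop := ∀ A X B : List ℂ, Odd A.length → Odd B.length → NZ A → NZ X → NZ B →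
  Lau (A.length + B.length + 2*X.length) ((A.length + B.length)/2 + X.length) (gh A X B)
    (-q^2 * (mm A B * zs (A ++ (B ++ prs X)))) (-q * (mm A B * zs (A ++ (B ++ prs X))))

/-- Q2: permutations of `A` and of `B`, inversion of an element of `B` -/
def S_perm : Prop := ∀ A A' X B B' : List ℂ, Odd A.length → Odd B.length → NZ A → NZ X → NZ B →
  A.Perm A' → B.Perm B' → ∀ w, w ≠ 0 → gh A X B w = gh A' X B' w

def S_invB : Prop := ∀ (A X B : List ℂ) (v : ℂ), Odd A.length → Even B.length → NZ A → NZ X → NZ B →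
  v ≠ 0 → ∀ w, w ≠ 0 → gh A X (v :: B) w = gh A X (v⁻¹ :: B) w

/-- Q3: `gh` depends only on the multiset of the reflected pairs -/
def S_permX : Prop := ∀ A X X' B : List ℂ, Odd A.length → Odd B.length → NZ A → NZ X → NZ B →
  X.Perm X' → ∀ w, w ≠ 0 → gh A X B w = gh A X' B w

def S_invX : Prop := ∀ (A X B : List ℂ) (x : ℂ), Odd A.length → Odd B.length → NZ A → NZ X → NZ B →
  x ≠ 0 → ∀ w, w ≠ 0 → gh A (x :: X) B w = gh A (x⁻¹ :: X) B w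

/-- Q4: cup relation at `w = q² u^{±1}`, `u ∈ A` -/
def S_starA : Prop := ∀ (A X B : List ℂ) (u : ℂ), Even A.length → Odd B.length → NZ A → NZ X →
  NZ B → u ≠ 0 →
  gh (u :: A) X B (q^2 * u) * pom (om (q^2 * u)) (A ++ (B ++ prs X)) =
    gh (u :: A) X B (q^2 * u⁻¹) * pom (om (q * u)) (A ++ (B ++ prs X))

/-- Q5: cup relation at `w = q v^{±1}`, `v ∈ B`, thin slit -/
def S_starB : Prop := ∀ (A B : List ℂ) (v : ℂ), Odd A.length → Even B.length → NZ A → NZ B → v ≠ 0 →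
  gh A [] (v :: B) (q * v) * pom (om (q * v)) (A ++ B) =
    gh A [] (v :: B) (q * v⁻¹) * pom (om (q^2 * v)) (A ++ B)

/-- Q6: recursion at `w = q x` -/
def S_node : Prop := ∀ (A X B : List ℂ) (x : ℂ), Odd A.length → Odd B.length → NZ A → NZ X →
  NZ B → x ≠ 0 →
  gh A (x :: X) B (q * x) = pom (om (q^2 * x)) (A ++ B) * (om x - om (q^2 * x)) *
    pom (om (q^2 * x)) (prs X) * gh A X B x⁻¹

/-- Q7: fusion in `B` -/
def S_fus : Prop := ∀ (A X B : List ℂ) (v w : ℂ), Odd A.length → Odd B.length → NZ A → NZ X →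
  NZ B → v ≠ 0 → w ≠ 0 →
  gh A X (v :: (q^2 * v) :: B) w = (om (q * v) - om w) * pom (om (q * v)) (A ++ B) *
    pom (om (q * v)) (prs X) * pom (om (q * v)) B * gh A X B w

/-- Q8: the amplitude at `w = q ζ`, `ζ ∈ B` -/
def S_bnode : Prop := ∀ A X B : List ℂ, Odd A.length → Even B.length → NZ A → NZ X → NZ B →
  ∃ R : ℂ[X], R.natDegree ≤ B.length + 2 * X.length ∧ ∀ ζ : ℂ, ζ ≠ 0 →
    gh A X (ζ :: B) (q * ζ) * ζ^(B.length/2 + X.length) =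
      pom (om (q^2 * ζ)) (A ++ B) * pom (om (q^2 * ζ)) X * R.eval ζ

/-- T1: total mass -/
def S_Teq : Prop := ∀ (A X B : List ℂ) (w : ℂ), Odd A.length → Odd B.length → NZ A → NZ X → NZ B →
  w ≠ 0 → T A (w :: prs X) B = cst A B X.length w * tt A X B w * mm A B

/-- T2: width of `tt` -/
def S_ttwid : Prop := ∀ A X B : List ℂ, Odd A.length → Odd B.length → NZ A → NZ X → NZ B →
  Lau (A.length + B.length + 2*X.length) ((A.length + B.length)/2 + X.length) (tt A X B)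
    (zs (A ++ (B ++ prs X))) (zs (A ++ (B ++ prs X)))

/-! ## TASKS E: qKZ facts for `Dh` -/

/-- E1 -/
def S_Dexch : Prop := ∀ (A B : List ℂ) (w z : ℂ), Odd A.length → Odd B.length → NZ A → NZ B →
  w ≠ 0 → z ≠ 0 → (z - q*w) * Dh A w z B = (w - q*z) * Dh A z w B

/-- E2 -/
def S_Dperm : Prop := ∀ A A' B B' : List ℂ, Odd A.length → Odd B.length → NZ A → NZ B →
  A.Perm A' → B.Perm B' → ∀ w z, w ≠ 0 → z ≠ 0 → Dh A w z B = Dh A' w z B'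

def S_DinvB : Prop := ∀ (A B : List ℂ) (v : ℂ), Odd A.length → Even B.length → NZ A → NZ B →
  v ≠ 0 → ∀ w z, w ≠ 0 → z ≠ 0 → Dh A w z (v :: B) = Dh A w z (v⁻¹ :: B)

/-- E3 -/
def S_DstarA : Prop := ∀ (A B : List ℂ) (u z : ℂ), Even A.length → Odd B.length → NZ A → NZ B →
  u ≠ 0 → z ≠ 0 →
  Dh (u :: A) (q^2 * u) z B * (q^2 * u - z) * (q^2 * u⁻¹ - q * z) * pom (om (q^2 * u)) (A ++ B) =
    Dh (u :: A) (q^2 * u⁻¹) z B * (q^2 * u⁻¹ - z) * (q^2 * u - q * z) * pom (om (q * u)) (A ++ B)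

/-- E4 -/
def S_DstarB : Prop := ∀ (A B : List ℂ) (v z : ℂ), Odd A.length → Even B.length → NZ A → NZ B →
  v ≠ 0 → z ≠ 0 →
  Dh A (q * v) z (v :: B) * (q * v - z) * (q * v⁻¹ - q * z) * pom (om (q * v)) (A ++ B) =
    Dh A (q * v⁻¹) z (v :: B) * (q * v⁻¹ - z) * (q * v - q * z) * pom (om (q^2 * v)) (A ++ B)

/-- E5 -/
def S_Dfus : Prop := ∀ (A B : List ℂ) (v w z : ℂ), Odd A.length → Odd B.length → NZ A → NZ B →
  v ≠ 0 → w ≠ 0 → z ≠ 0 →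
  Dh A w z (v :: (q^2 * v) :: B) = - ((om w - om (q * v)) * (om z - om (q * v)) *
    pom (om (q * v)) (A ++ B) * pom (om (q * v)) B * Dh A w z B)

/-- E6 -/
def S_Dnode : Prop := ∀ (A B : List ℂ) (z : ℂ), Odd A.length → Even B.length → NZ A → NZ B →
  z ≠ 0 → ∃ R : ℂ[X], R.natDegree ≤ B.length ∧ ∀ ζ : ℂ, ζ ≠ 0 →
    Dh A (q * ζ) z (ζ :: B) * ζ^(B.length/2 + 1) =
      pom (om (q^2 * ζ)) (A ++ B) * (ζ - z) * (z * ζ - q) * R.eval ζ

/-- E7: width in `w` and bottom coefficient -/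
def S_Dwid : Prop := ∀ (A B : List ℂ) (z : ℂ), Odd A.length → Odd B.length → NZ A → NZ B →
  z ≠ 0 → ∃ cn : ℂ, Lau (A.length + B.length) ((A.length + B.length)/2) (fun w => Dh A w z B)
    (q * gh A [] B z + mm A B * tt A [] B z) cn

/-! ## TASKS R: regularity -/

/-- a unit -/
def UL (P : ℂ[X]) (f : ℂ → ℂ → ℂ) : Prop := LR P f ∧ LR P (fun t w => (f t w)⁻¹)

/-- R2 -/
def S_regz : Prop := ∀ (P : ℂ[X]) (l : List (ℂ → ℂ → ℂ)), (∀ f ∈ l, UL P f) →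
  (Even l.length → LR P (fun t w => zs (l.map (fun f => f t w)))) ∧
  (Odd l.length → LR P (fun t w => zo (l.map (fun f => f t w))))

/-- R3 -/
def S_regG : Prop := ∀ (P : ℂ[X]) (A X B : List (ℂ → ℂ → ℂ)) (f : ℂ → ℂ → ℂ),
  Odd A.length → Odd B.length → (∀ g ∈ A, UL P g) → (∀ g ∈ X, UL P g) → (∀ g ∈ B, UL P g) →
  UL P f → LR P (fun t w => gh (A.map (fun g => g t w)) (X.map (fun g => g t w))
    (B.map (fun g => g t w)) (f t w))

/-- R4 -/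
def S_regD : Prop := ∀ (P : ℂ[X]) (A B : List (ℂ → ℂ → ℂ)) (f h : ℂ → ℂ → ℂ),
  Odd A.length → Odd B.length → (∀ g ∈ A, UL P g) → (∀ g ∈ B, UL P g) →
  UL P f → UL P h → LR P (fun t w => Dh (A.map (fun g => g t w)) (f t w) (h t w)
    (B.map (fun g => g t w)))

/-! ## TASKS U: uniqueness lemmas -/

/-- U1: star relations for `A` and for `B` -/
def S_G1 : Prop := ∀ (a b n m : ℕ) (_ : Odd a) (_ : Odd b) (e : ℂ[X]) (_ : e.eval 0 ≠ 0)
  (Y : Finset ℂ) (_ : (0:ℂ) ∉ Y) (Φ : List ℂ → List ℂ → ℂ → ℂ) (_ : n + 1 ≤ a + b + Y.card)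
  (_ : Reg a b Φ) (_ : PermInv a b Φ)
  (_ : ∀ A B, A.length = a → B.length = b → NZ A → NZ B →
    ∃ F : ℂ[X], F.natDegree ≤ n ∧ F.coeff 0 = 0 ∧ ∀ w, w ≠ 0 → Φ A B w * w^m = F.eval w)
  (_ : ∀ (A B : List ℂ) (u : ℂ), A.length + 1 = a → B.length = b → NZ A → NZ B → u ≠ 0 →
    Φ (u :: A) B (q^2 * u) * e.eval (q^2 * u⁻¹) * pom (om (q^2 * u)) (A ++ B) =
      Φ (u :: A) B (q^2 * u⁻¹) * e.eval (q^2 * u) * pom (om (q * u)) (A ++ B))
  (_ : ∀ (A B : List ℂ) (v : ℂ), A.length = a → B.length + 1 = b → NZ A → NZ B → v ≠ 0 →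
    Φ A (v :: B) (q * v) * e.eval (q * v⁻¹) * pom (om (q * v)) (A ++ B) =
      Φ A (v :: B) (q * v⁻¹) * e.eval (q * v) * pom (om (q^2 * v)) (A ++ B))
  (_ : ∀ A B, A.length = a → B.length = b → NZ A → NZ B → ∀ y ∈ Y, Φ A B y = 0),
  ∀ A B, A.length = a → B.length = b → NZ A → NZ B → ∀ w, w ≠ 0 → Φ A B w = 0

/-- U2: star relations for `A`, zeros at `w = q v`, `v ∈ B` (if `cB = b`) -/
def S_G2 : Prop := ∀ (a b n m cB : ℕ) (_ : Odd a) (_ : Odd b) (e : ℂ[X]) (_ : e.eval 0 ≠ 0)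
  (Y : Finset ℂ) (_ : (0:ℂ) ∉ Y) (E : List ℂ) (Φ : List ℂ → List ℂ → ℂ → ℂ)
  (_ : n ≤ a + cB + Y.card) (_ : cB = 0 ∨ cB = b)
  (_ : Reg a b Φ) (_ : PermInv a b Φ)
  (_ : ∀ A B, A.length = a → B.length = b → NZ A → NZ B →
    ∃ F : ℂ[X], F.natDegree ≤ n ∧ F.coeff 0 = 0 ∧ ∀ w, w ≠ 0 → Φ A B w * w^m = F.eval w)
  (_ : ∀ (A B : List ℂ) (u : ℂ), A.length + 1 = a → B.length = b → NZ A → NZ B → u ≠ 0 →
    Φ (u :: A) B (q^2 * u) * e.eval (q^2 * u⁻¹) * pom (om (q^2 * u)) (A ++ (B ++ E)) =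
      Φ (u :: A) B (q^2 * u⁻¹) * e.eval (q^2 * u) * pom (om (q * u)) (A ++ (B ++ E)))
  (_ : cB = b → ∀ (A B : List ℂ) (v : ℂ), A.length = a → B.length + 1 = b → NZ A → NZ B → v ≠ 0 →
    Φ A (v :: B) (q * v) = 0)
  (_ : ∀ A B, A.length = a → B.length = b → NZ A → NZ B → ∀ y ∈ Y, Φ A B y = 0),
  ∀ A B, A.length = a → B.length = b → NZ A → NZ B → ∀ w, w ≠ 0 → Φ A B w = 0

/-- U3: node lemma -/
def S_NL : Prop := ∀ (a β n m e1 e2 : ℕ) (E : List ℂ) (Y : Finset ℂ) (_ : (0:ℂ) ∉ Y)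
  (Φ : List ℂ → List ℂ → ℂ → ℂ) (_ : n < 2 * β + Y.card)
  (_ : Reg a β Φ) (_ : PermInv a β Φ)
  (_ : ∀ A B, A.length = a → B.length = β → NZ A → NZ B →
    ∃ R : ℂ[X], R.natDegree ≤ n ∧ ∀ ζ, ζ ≠ 0 → Φ A B ζ * ζ^m =
      (pom (om (q^2 * ζ)) (A ++ B))^e1 * (pom (om (q^2 * ζ)) E)^e2 * R.eval ζ)
  (_ : ∀ (A B : List ℂ) (b : ℂ), A.length = a → B.length + 1 = β → NZ A → NZ B → b ≠ 0 →
    Φ A (b :: B) (q^2 * b) = 0 ∧ Φ A (b :: B) (q^2 * b⁻¹) = 0)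
  (_ : ∀ y ∈ Y, pom (om (q^2 * y)) E ≠ 0 ∧
    ∀ A B, A.length = a → B.length = β → NZ A → NZ B → Φ A B y = 0),
  ∀ A B, A.length = a → B.length = β → NZ A → NZ B → ∀ ζ, ζ ≠ 0 → Φ A B ζ = 0

/-- U4: density -/
def S_DEN : Prop := ∀ (a b : ℕ) (Ψ N : List ℂ → List ℂ → ℂ → ℂ) (_ : Reg a b Ψ) (_ : Reg a b N)
  (_ : ∃ A B w, A.length = a ∧ B.length = b ∧ NZ A ∧ NZ B ∧ w ≠ 0 ∧ N A B w ≠ 0)
  (_ : ∀ A B, A.length = a → B.length = b → NZ A → NZ B → ∀ w, w ≠ 0 → N A B w * Ψ A B w = 0),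
  ∀ A B, A.length = a → B.length = b → NZ A → NZ B → ∀ w, w ≠ 0 → Ψ A B w = 0

/-! ## TASKS M: the formula -/

/-- the properties of `g s A B w` used in the proof of the formula (`|B| = b`) -/
structure MF {ι : Type} (x : ι → ℂ) (b : ℕ) (g : Finset ι → List ℂ → List ℂ → ℂ → ℂ)
    (μ : List ℂ → List ℂ → ℂ) (c0 c1 : ℂ) : Prop where
  reg : ∀ (a : ℕ) (s : Finset ι), Odd a → Reg a b (g s)
  perm : ∀ (a : ℕ) (s : Finset ι), Odd a → PermInv a b (g s)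
  wid : ∀ (A B : List ℂ) (s : Finset ι), Odd A.length → B.length = b → NZ A → NZ B →
    Lau (A.length + b + 2 * s.card) ((A.length + b)/2 + s.card) (g s A B)
      (c0 * (μ A B * zs (A ++ (B ++ prF x s)))) (c1 * (μ A B * zs (A ++ (B ++ prF x s))))
  star : ∀ (A B : List ℂ) (u : ℂ) (s : Finset ι), Even A.length → B.length = b → NZ A → NZ B →
    u ≠ 0 → g s (u :: A) B (q^2 * u) * pom (om (q^2 * u)) (A ++ (B ++ prF x s)) =
      g s (u :: A) B (q^2 * u⁻¹) * pom (om (q * u)) (A ++ (B ++ prF x s))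
  node : ∀ [DecidableEq ι] (A B : List ℂ) (s : Finset ι) (i : ι) (y : ℂ), Odd A.length →
    B.length = b → NZ A → NZ B → i ∈ s → y ≠ 0 → om (x i) = om y →
    g s A B (q * y) = pom (om (q^2 * y)) (A ++ B) * (om y - om (q^2 * y)) *
      pom (om (q^2 * y)) (prF x (s.erase i)) * g (s.erase i) A B y⁻¹

variable {ι : Type}

/-- M1: `gF` and `tF` satisfy `MF` -/
def S_MFg : Prop := ∀ {ι : Type} (x : ι → ℂ), Gen x → ∀ b, Odd b → MF x b (gF x) mm (-q^2) (-q)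

def S_MFt : Prop := ∀ {ι : Type} (x : ι → ℂ), Gen x → ∀ b, Odd b →
  MF x b (tF x) (fun _ _ => 1) 1 1

open Classical in
/-- M2: the step -/
def S_II : Prop := ∀ {ι : Type} (x : ι → ℂ), Gen x → ∀ (b : ℕ), Odd b →
  ∀ (g : Finset ι → List ℂ → List ℂ → ℂ → ℂ) (μ : List ℂ → List ℂ → ℂ) (c0 c1 : ℂ),
  MF x b g μ c0 c1 → ∀ s : Finset ι,
  (∀ i ∈ s, ∀ A B, Odd A.length → B.length = b → NZ A → NZ B → ∀ w, w ≠ 0 →
    FP x g (s.erase i) A B w = 0) →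
  (b = 1 ∨ ∀ (A B : List ℂ) (v : ℂ), Odd A.length → B.length + 1 = b → NZ A → NZ B → v ≠ 0 →
    FP x g s A (v :: B) (q * v) = 0) →
  ∀ A B, Odd A.length → B.length = b → NZ A → NZ B → ∀ w, w ≠ 0 → FP x g s A B w = 0

/-- M3: the formula for the total mass -/
def S_ZI : Prop := ∀ {ι : Type} (x : ι → ℂ), Gen x → ∀ (s : Finset ι) (A B : List ℂ),
  Odd A.length → Odd B.length → NZ A → NZ B → ∀ w, w ≠ 0 → FP x (tF x) s A B w = 0

/-- M4: the determinant formula -/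
def S_DET : Prop := ∀ (A B : List ℂ) (w z : ℂ), Odd A.length → Odd B.length → NZ A → NZ B →
  w ≠ 0 → z ≠ 0 → zs (A ++ B) * (w - z) * Dh A w z B =
    (w - q*z) * (gh A [] B z * tt A [] B w - gh A [] B w * tt A [] B z)

/-- M5: duality for the thin slit -/
def S_DUAL : Prop := ∀ (A B : List ℂ) (w : ℂ), Odd A.length → Odd B.length → NZ A → NZ B →
  w ≠ 0 → gh A [] B w + gh B [] A w⁻¹ = mm A B * tt A [] B w

/-- M6: the two forms of the formula -/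
def S_FQ : Prop := ∀ {ι : Type} (x : ι → ℂ), Gen x → ∀ (s : Finset ι) (A B : List ℂ),
  Odd A.length → Odd B.length → NZ A → NZ B → ∀ w, w ≠ 0 →
  FP x (gF x) s A B w * tF x ∅ A B w = (∏ j ∈ s, (om w - om (x j))) * zs (A ++ B) * FQ x s A B w

/-- M7: zeros at `w = q ζ`, `ζ ∈ B` -/
def S_BN : Prop := ∀ {ι : Type} (x : ι → ℂ), Gen x → ∀ (b : ℕ), Odd b → 3 ≤ b → ∀ s : Finset ι,
  (∀ A B, Odd A.length → B.length + 2 = b → NZ A → NZ B → ∀ w, w ≠ 0 → FQ x s A B w = 0) →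
  (∀ i ∈ s, ∀ y, y ≠ 0 → om (x i) = om y → ∀ A B, Odd A.length → B.length = b → NZ A → NZ B →
    FQ x s A B (q * y) = 0) →
  ∀ (A B : List ℂ) (ζ : ℂ), Odd A.length → B.length + 1 = b → NZ A → NZ B → ζ ≠ 0 →
    FQ x s A (ζ :: B) (q * ζ) = 0

/-- M8: the formula -/
def S_M : Prop := ∀ {ι : Type} (x : ι → ℂ), Gen x → ∀ (s : Finset ι) (A B : List ℂ),
  Odd A.length → Odd B.length → NZ A → NZ B → ∀ w, w ≠ 0 → FP x (gF x) s A B w = 0

end Pool.Agent.NH38.Fork
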