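import Pool.Agent.NH38.Step.Conf1

set_option autoImplicit false

/-!
Task FG-F (helper26): the conformal map of the upper half-plane onto the (reflected) forked channel
with arms of different widths.  With `N = α + γ + β`, `P = √(z-x)`, `Q = √(z-y)`:
`g' z = (i N/π) P Q / (z (z-1))`.
-/

namespace Pool.Agent.NH38.Fork.UGC

open Filter Topology Set Real
open Pool.Agent.NH38.Step.Conf (sq_re_nonneg sq_im_nonneg sq_re_pos sq_im_pos continuous_sq sq_sq
  hasDerivAt_sq sq_ofReal_nonneg sq_ofReal_nonpos norm_sq_sq hasDerivAt_sq_real)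

/-! ### Sums in the closed first quadrant -/

theorem quad_slit2 {A B : ℂ} {c d : ℝ} (hc : 0 < c) (hd : 0 < d) (a1 : 0 ≤ A.re) (a2 : 0 ≤ A.im)
    (b1 : 0 ≤ B.re) (b2 : 0 ≤ B.im) (h : A ≠ B) :
    (c : ℂ) * A + (d : ℂ) * B ∈ Complex.slitPlane := by
  rw [Complex.mem_slitPlane_iff]
  simp only [Complex.add_re, Complex.re_ofReal_mul, Complex.add_im, Complex.im_ofReal_mul]
  by_contra hn
  push Not at hn
  obtain ⟨h1, h2⟩ := hn
  have m1 := mul_nonneg hd.le b1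
  have m2 := mul_nonneg hd.le b2
  have m3 := mul_nonneg hc.le a1
  have m4 := mul_nonneg hc.le a2
  have e1 : c * A.re = 0 := by linarith
  have e2 : d * B.re = 0 := by linarith
  have e3 : c * A.im = 0 := by linarith
  have e4 : d * B.im = 0 := by linarith
  have f1 : A.re = 0 := (mul_eq_zero.1 e1).resolve_left hc.ne'
  have f2 : B.re = 0 := (mul_eq_zero.1 e2).resolve_left hd.ne'
  have f3 : A.im = 0 := (mul_eq_zero.1 e3).resolve_left hc.ne'
  have f4 : B.im = 0 := (mul_eq_zero.1 e4).resolve_left hd.ne'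
  exact h (Complex.ext (f1.trans f2.symm) (f3.trans f4.symm))

theorem quad_norm_ge2 {A B : ℂ} {c d : ℝ} (hc : 0 ≤ c) (hd : 0 ≤ d) (a1 : 0 ≤ A.re)
    (a2 : 0 ≤ A.im) (b1 : 0 ≤ B.re) (b2 : 0 ≤ B.im) :
    c ^ 2 * ‖A‖ ^ 2 + d ^ 2 * ‖B‖ ^ 2 ≤ ‖(c : ℂ) * A + (d : ℂ) * B‖ ^ 2 := by
  rw [Complex.sq_norm, Complex.sq_norm, Complex.sq_norm, Complex.normSq_apply,
    Complex.normSq_apply, Complex.normSq_apply]
  simp only [Complex.add_re, Complex.re_ofReal_mul, Complex.add_im, Complex.im_ofReal_mul]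
  have h1 := mul_nonneg (mul_nonneg hc hd) (mul_nonneg a1 b1)
  have h2 := mul_nonneg (mul_nonneg hc hd) (mul_nonneg a2 b2)
  nlinarith

theorem quad_norm_le2 {A B : ℂ} {c d : ℝ} (hc : 0 ≤ c) (hc1 : c ≤ 1) (hd : 0 ≤ d) (hd1 : d ≤ 1) :
    ‖(c : ℂ) * A + (d : ℂ) * B‖ ^ 2 ≤ 2 * (‖A‖ ^ 2 + ‖B‖ ^ 2) := by
  have h1 : ‖(c : ℂ) * A + (d : ℂ) * B‖ ≤ ‖A‖ + ‖B‖ := by
    refine (norm_add_le _ _).trans ?_
    rw [norm_mul, norm_mul, Complex.norm_real, Complex.norm_real, norm_eq_abs, norm_eq_abs,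
      abs_of_nonneg hc, abs_of_nonneg hd]
    have := mul_le_mul_of_nonneg_right hc1 (norm_nonneg A)
    have := mul_le_mul_of_nonneg_right hd1 (norm_nonneg B)
    linarith
  have h2 : ‖(c : ℂ) * A + (d : ℂ) * B‖ ^ 2 ≤ (‖A‖ + ‖B‖) ^ 2 :=
    pow_le_pow_left₀ (norm_nonneg _) h1 2
  nlinarith [sq_nonneg (‖A‖ - ‖B‖)]

/-! ### The map -/

/-- `√(z-x)` -/
noncomputable def PP (x : ℝ) (z : ℂ) : ℂ := Step.Conf.sq (z - (x : ℂ))

/-- the combination of logarithms -/
noncomputable def WW (α γ β x y : ℝ) (z : ℂ) : ℂ :=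
  ((2 * (α + γ + β) : ℝ) : ℂ) * Complex.log (((1 : ℝ) : ℂ) * PP x z + ((1 : ℝ) : ℂ) * PP y z) -
    ((2 * α : ℝ) : ℂ) * Complex.log ((√y : ℂ) * PP x z + (√x : ℂ) * PP y z) +
    (α : ℂ) * Complex.log z -
    ((2 * β : ℝ) : ℂ) * Complex.log ((√(1 - y) : ℂ) * PP x z + (√(1 - x) : ℂ) * PP y z) +
    (β : ℂ) * Complex.log (z - ((1 : ℝ) : ℂ)) - ((γ * log (y - x) : ℝ) : ℂ)

/-- the conformal map onto the reflected forked channel -/
noncomputable def gg (α γ β x y : ℝ) (z : ℂ) : ℂ :=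
  ((1 / π : ℝ) : ℂ) * (Complex.I * WW α γ β x y z) + ((γ + β : ℝ) : ℂ)

theorem gg_re (α γ β x y : ℝ) (z : ℂ) : (gg α γ β x y z).re = γ + β - 1 / π *
    (2 * (α + γ + β) * (((1 : ℝ) : ℂ) * PP x z + ((1 : ℝ) : ℂ) * PP y z).arg -
      2 * α * ((√y : ℂ) * PP x z + (√x : ℂ) * PP y z).arg + α * z.arg -
      2 * β * ((√(1 - y) : ℂ) * PP x z + (√(1 - x) : ℂ) * PP y z).arg +
      β * (z - ((1 : ℝ) : ℂ)).arg) := by
  unfold gg WW
  rw [Complex.add_re, Complex.re_ofReal_mul, Complex.I_mul_re, Complex.sub_im, Complex.add_im,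
    Complex.sub_im, Complex.add_im, Complex.sub_im, Complex.im_ofReal_mul, Complex.im_ofReal_mul,
    Complex.im_ofReal_mul, Complex.im_ofReal_mul, Complex.im_ofReal_mul,
    Complex.ofReal_re, Complex.ofReal_im, Complex.log_im, Complex.log_im, Complex.log_im,
    Complex.log_im, Complex.log_im]
  ring

theorem gg_im (α γ β x y : ℝ) (z : ℂ) : (gg α γ β x y z).im = 1 / π *
    (2 * (α + γ + β) * log ‖((1 : ℝ) : ℂ) * PP x z + ((1 : ℝ) : ℂ) * PP y z‖ -
      2 * α * log ‖(√y : ℂ) * PP x z + (√x : ℂ) * PP y z‖ + α * log ‖z‖ -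
      2 * β * log ‖(√(1 - y) : ℂ) * PP x z + (√(1 - x) : ℂ) * PP y z‖ +
      β * log ‖z - ((1 : ℝ) : ℂ)‖ - γ * log (y - x)) := by
  unfold gg WW
  rw [Complex.add_im, Complex.im_ofReal_mul, Complex.I_mul_im, Complex.sub_re, Complex.add_re,
    Complex.sub_re, Complex.add_re, Complex.sub_re, Complex.re_ofReal_mul, Complex.re_ofReal_mul,
    Complex.re_ofReal_mul, Complex.re_ofReal_mul, Complex.re_ofReal_mul,
    Complex.ofReal_re, Complex.ofReal_im, Complex.log_re, Complex.log_re, Complex.log_re,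
    Complex.log_re, Complex.log_re, add_zero]

/-- the hypotheses on the parameters -/
structure Hp (α γ β x y : ℝ) : Prop where
  hα : 0 < α
  hγ : 0 < γ
  hβ : 0 < β
  hx : 0 < x
  hxy : x < y
  hy : y < 1
  ha : (α + γ + β) * (√x * √y) = α
  hb : (α + γ + β) * (√(1 - x) * √(1 - y)) = β

theorem alg1 {p q z c d D : ℂ} (hp : p ≠ 0) (hq : q ≠ 0) (hz : z ≠ 0) (hs : c * p + d * q ≠ 0)
    (hD : D ≠ 0) (h1 : c ^ 2 * p ^ 2 - d ^ 2 * q ^ 2 = D * z) (h2 : p ^ 2 - q ^ 2 = D)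
    (h3 : c ^ 2 - d ^ 2 = D) :
    2 * ((c * (1 / (2 * p)) + d * (1 / (2 * q))) / (c * p + d * q)) = 1 / z +
      c * d / (p * q * z) := by
  have hm : c * p - d * q ≠ 0 := by
    intro h
    have : D * z = (c * p + d * q) * (c * p - d * q) := by rw [← h1]; ring
    rw [h, mul_zero] at this
    exact mul_ne_zero hD hz this
  have e1 : 2 * ((c * (1 / (2 * p)) + d * (1 / (2 * q))) / (c * p + d * q)) =
      (c * q + d * p) / (p * q * (c * p + d * q)) := by
    field_simp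
  have e2 : 1 / z + c * d / (p * q * z) = (p * q + c * d) / (p * q * z) := by
    field_simp
  rw [e1, e2, div_eq_div_iff (mul_ne_zero (mul_ne_zero hp hq) hs)
    (mul_ne_zero (mul_ne_zero hp hq) hz)]
  have e3 : (c * q + d * p) * z = (p * q + c * d) * (c * p + d * q) := by
    apply mul_right_cancel₀ hD
    have e4 : (c * q + d * p) * (c * p - d * q) = D * (p * q + c * d) := by
      linear_combination (p * q) * h3 + (c * d) * h2
    calc (c * q + d * p) * z * D = (c * q + d * p) * (D * z) := by ring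
      _ = (c * q + d * p) * ((c * p + d * q) * (c * p - d * q)) := by rw [← h1]; ring
      _ = ((c * q + d * p) * (c * p - d * q)) * (c * p + d * q) := by ring
      _ = (D * (p * q + c * d)) * (c * p + d * q) := by rw [e4]
      _ = (p * q + c * d) * (c * p + d * q) * D := by ring
  linear_combination (p * q) * e3

/-- the identity for the derivative -/
theorem alg_id {p q z x y N a b sx sy tx ty : ℂ} (hp : p ≠ 0) (hq : q ≠ 0) (hz : z ≠ 0)
    (hz1 : z - 1 ≠ 0) (hxy : y - x ≠ 0)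
    (h1 : 1 * p + 1 * q ≠ 0) (h2 : sy * p + sx * q ≠ 0) (h3 : ty * p + tx * q ≠ 0)
    (hp2 : p ^ 2 = z - x) (hq2 : q ^ 2 = z - y)
    (sx2 : sx ^ 2 = x) (sy2 : sy ^ 2 = y) (tx2 : tx ^ 2 = 1 - x) (ty2 : ty ^ 2 = 1 - y)
    (ha : N * (sx * sy) = a) (hb : N * (tx * ty) = b) :
    2 * N * ((1 * (1 / (2 * p)) + 1 * (1 / (2 * q))) / (1 * p + 1 * q)) -
      2 * a * ((sy * (1 / (2 * p)) + sx * (1 / (2 * q))) / (sy * p + sx * q)) + a * (1 / z) -
      2 * b * ((ty * (1 / (2 * p)) + tx * (1 / (2 * q))) / (ty * p + tx * q)) +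
      b * (1 / (z - 1)) = N * (p * q / (z * (z - 1))) := by
  have A0 : 2 * ((1 * (1 / (2 * p)) + 1 * (1 / (2 * q))) / (1 * p + 1 * q)) = 1 / (p * q) := by
    have h1' : p + q ≠ 0 := by simpa using h1
    simp only [one_mul]
    field_simp
    ring
  have A1 := alg1 (c := sy) (d := sx) (D := y - x) hp hq hz h2 hxy
    (by rw [sy2, sx2, hp2, hq2]; ring) (by rw [hp2, hq2]; ring) (by rw [sy2, sx2])
  have A2 : 2 * ((ty * (1 / (2 * p)) + tx * (1 / (2 * q))) / (ty * p + tx * q)) =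
      1 / (z - 1) - tx * ty / (p * q * (z - 1)) := by
    have hm : ty * p - tx * q ≠ 0 := by
      intro h
      have e : -((y - x) * (z - 1)) = (ty * p + tx * q) * (ty * p - tx * q) := by
        have : (ty * p + tx * q) * (ty * p - tx * q) = ty ^ 2 * p ^ 2 - tx ^ 2 * q ^ 2 := by ring
        rw [this, ty2, tx2, hp2, hq2]
        ring
      rw [h, mul_zero] at e
      exact (neg_ne_zero.2 (mul_ne_zero hxy hz1)) e
    have e1 : 2 * ((ty * (1 / (2 * p)) + tx * (1 / (2 * q))) / (ty * p + tx * q)) =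
        (ty * q + tx * p) / (p * q * (ty * p + tx * q)) := by
      field_simp
    have e2 : 1 / (z - 1) - tx * ty / (p * q * (z - 1)) = (p * q - tx * ty) / (p * q * (z - 1)) := by
      field_simp
    rw [e1, e2, div_eq_div_iff (mul_ne_zero (mul_ne_zero hp hq) h3)
      (mul_ne_zero (mul_ne_zero hp hq) hz1)]
    have e3 : (ty * q + tx * p) * (z - 1) = (p * q - tx * ty) * (ty * p + tx * q) := by
      apply mul_right_cancel₀ hxy
      have e4 : (ty * q + tx * p) * (ty * p - tx * q) = -((y - x) * (p * q - tx * ty)) := by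
        linear_combination (p * q) * ty2 - (p * q) * tx2 + (tx * ty) * hp2 - (tx * ty) * hq2
      have e5 : (ty * p + tx * q) * (ty * p - tx * q) = -((y - x) * (z - 1)) := by
        have : (ty * p + tx * q) * (ty * p - tx * q) = ty ^ 2 * p ^ 2 - tx ^ 2 * q ^ 2 := by ring
        rw [this, ty2, tx2, hp2, hq2]
        ring
      calc (ty * q + tx * p) * (z - 1) * (y - x) = -((ty * q + tx * p) *
            (-((y - x) * (z - 1)))) := by ring
        _ = -((ty * q + tx * p) * ((ty * p + tx * q) * (ty * p - tx * q))) := by rw [e5]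
        _ = -(((ty * q + tx * p) * (ty * p - tx * q)) * (ty * p + tx * q)) := by ring
        _ = -(-((y - x) * (p * q - tx * ty)) * (ty * p + tx * q)) := by rw [e4]
        _ = (p * q - tx * ty) * (ty * p + tx * q) * (y - x) := by ring
    linear_combination (p * q) * e3
  have e0 : 2 * N * ((1 * (1 / (2 * p)) + 1 * (1 / (2 * q))) / (1 * p + 1 * q)) -
      2 * a * ((sy * (1 / (2 * p)) + sx * (1 / (2 * q))) / (sy * p + sx * q)) + a * (1 / z) -
      2 * b * ((ty * (1 / (2 * p)) + tx * (1 / (2 * q))) / (ty * p + tx * q)) +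
      b * (1 / (z - 1)) = N * (1 / (p * q)) - a * (sy * sx / (p * q * z)) +
        b * (tx * ty / (p * q * (z - 1))) := by
    linear_combination N * A0 - a * A1 - b * A2
  rw [e0, ← ha, ← hb]
  have e1 : N * (1 / (p * q)) - N * (sx * sy) * (sy * sx / (p * q * z)) +
      N * (tx * ty) * (tx * ty / (p * q * (z - 1))) =
      N * (z * (z - 1) - sx ^ 2 * sy ^ 2 * (z - 1) + tx ^ 2 * ty ^ 2 * z) /
        (p * q * (z * (z - 1))) := by
    field_simp
  have e2 : z * (z - 1) - sx ^ 2 * sy ^ 2 * (z - 1) + tx ^ 2 * ty ^ 2 * z =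
      p ^ 2 * q ^ 2 := by
    rw [sx2, sy2, tx2, ty2, hp2, hq2]
    ring
  rw [e1, e2]
  field_simp

section
variable {α γ β x y : ℝ} (H : Hp α γ β x y)

theorem PP_sq {z : ℂ} (h : 0 ≤ z.im) : PP x z ^ 2 = z - (x : ℂ) := by
  unfold PP
  exact sq_sq (by simpa using h)

theorem PP_cont (x : ℝ) : Continuous (PP x) := continuous_sq.comp (by fun_prop)

include H

theorem ne_PQ {z : ℂ} (h : 0 ≤ z.im) : PP x z ≠ PP y z := by
  intro e
  have h1 := PP_sq (x := x) h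
  rw [e, PP_sq h] at h1
  have h2 : (y : ℂ) = (x : ℂ) := sub_right_injective h1
  have h3 : y = x := by exact_mod_cast h2
  exact H.hxy.ne' h3

theorem slit {c d : ℝ} (hc : 0 < c) (hd : 0 < d) {z : ℂ} (h : 0 ≤ z.im) :
    (c : ℂ) * PP x z + (d : ℂ) * PP y z ∈ Complex.slitPlane :=
  quad_slit2 hc hd (sq_re_nonneg _) (sq_im_nonneg _) (sq_re_nonneg _) (sq_im_nonneg _)
    (ne_PQ H h)

theorem sx : 0 < √x := sqrt_pos.2 H.hx
theorem sy : 0 < √y := sqrt_pos.2 (H.hx.trans H.hxy)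
theorem tx : 0 < √(1 - x) := sqrt_pos.2 (by linarith [H.hxy, H.hy])
theorem ty : 0 < √(1 - y) := sqrt_pos.2 (by linarith [H.hy])
theorem sx1 : √x ≤ 1 := sqrt_le_one.2 (by linarith [H.hxy, H.hy])
theorem sy1 : √y ≤ 1 := sqrt_le_one.2 (by linarith [H.hy])
theorem tx1 : √(1 - x) ≤ 1 := sqrt_le_one.2 (by linarith [H.hx])
theorem ty1 : √(1 - y) ≤ 1 := sqrt_le_one.2 (by linarith [H.hx, H.hxy])
theorem hN : 0 < α + γ + β := by linarith [H.hα, H.hβ, H.hγ]

omit H in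
theorem clog_cont {w : ℂ} (h0 : 0 ≤ w.im) (hw : w ≠ 0) :
    ContinuousWithinAt Complex.log {z | 0 ≤ z.im} w := by
  by_cases h : w ∈ Complex.slitPlane
  · exact (continuousAt_clog h).continuousWithinAt
  · have h1 : w.re ≤ 0 ∧ w.im = 0 := by
      rw [Complex.mem_slitPlane_iff] at h
      push Not at h
      exact h
    refine Complex.continuousWithinAt_log_of_re_neg_of_im_zero ?_ h1.2
    rcases lt_or_eq_of_le h1.1 with h2 | h2
    · exact h2
    · exact absurd (Complex.ext h2 h1.2) hw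

theorem gg_cont : ContinuousOn (gg α γ β x y) {z : ℂ | 0 ≤ z.im ∧ z ≠ 0 ∧ z ≠ 1} := by
  rintro z ⟨h0, h1, h2⟩
  have c1 : ContinuousAt (fun z => Complex.log (((1 : ℝ) : ℂ) * PP x z +
      ((1 : ℝ) : ℂ) * PP y z)) z :=
    (((PP_cont x).const_mul _).add ((PP_cont y).const_mul _)).continuousAt.clog
      (slit H one_pos one_pos h0)
  have c2 : ContinuousAt (fun z => Complex.log ((√y : ℂ) * PP x z + (√x : ℂ) * PP y z)) z :=
    (((PP_cont x).const_mul _).add ((PP_cont y).const_mul _)).continuousAt.clog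
      (slit H (sy H) (sx H) h0)
  have c3 : ContinuousAt (fun z => Complex.log ((√(1 - y) : ℂ) * PP x z +
      (√(1 - x) : ℂ) * PP y z)) z :=
    (((PP_cont x).const_mul _).add ((PP_cont y).const_mul _)).continuousAt.clog
      (slit H (ty H) (tx H) h0)
  have c4 : ContinuousWithinAt Complex.log {z : ℂ | 0 ≤ z.im ∧ z ≠ 0 ∧ z ≠ 1} z :=
    (clog_cont h0 h1).mono fun w hw => hw.1
  have c5 : ContinuousWithinAt (fun z => Complex.log (z - ((1 : ℝ) : ℂ)))
      {z : ℂ | 0 ≤ z.im ∧ z ≠ 0 ∧ z ≠ 1} z := by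
    have h3 : ContinuousWithinAt Complex.log {z | 0 ≤ z.im} (z - ((1 : ℝ) : ℂ)) :=
      clog_cont (by simpa using h0) (by
        intro h
        apply h2
        have := sub_eq_zero.1 h
        rw [this]
        simp)
    have h4 : ContinuousWithinAt (fun z : ℂ => z - ((1 : ℝ) : ℂ))
        {z : ℂ | 0 ≤ z.im ∧ z ≠ 0 ∧ z ≠ 1} z := by fun_prop
    refine ContinuousWithinAt.comp (t := {z | 0 ≤ z.im}) h3 h4 ?_
    intro w hw
    show 0 ≤ (w - ((1 : ℝ) : ℂ)).im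
    simpa using hw.1
  unfold gg WW
  exact ((((((((c1.continuousWithinAt.const_mul _).sub (c2.continuousWithinAt.const_mul _)).add
    (c4.const_mul _)).sub (c3.continuousWithinAt.const_mul _)).add (c5.const_mul _)).sub
    continuousWithinAt_const).const_mul _).const_mul _).add continuousWithinAt_const

/-- common part of the two derivatives -/
theorem id_at {z : ℂ} (h0 : 0 ≤ z.im) (nP : PP x z ≠ 0) (nQ : PP y z ≠ 0) (hz : z ≠ 0)
    (hz1 : z - ((1 : ℝ) : ℂ) ≠ 0) :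
    ((2 * (α + γ + β) : ℝ) : ℂ) * ((((1 : ℝ) : ℂ) * (1 / (2 * PP x z)) +
      ((1 : ℝ) : ℂ) * (1 / (2 * PP y z))) / (((1 : ℝ) : ℂ) * PP x z + ((1 : ℝ) : ℂ) * PP y z)) -
    ((2 * α : ℝ) : ℂ) * (((√y : ℂ) * (1 / (2 * PP x z)) + (√x : ℂ) * (1 / (2 * PP y z))) /
      ((√y : ℂ) * PP x z + (√x : ℂ) * PP y z)) + (α : ℂ) * (1 / z) -
    ((2 * β : ℝ) : ℂ) * (((√(1 - y) : ℂ) * (1 / (2 * PP x z)) +
      (√(1 - x) : ℂ) * (1 / (2 * PP y z))) /
      ((√(1 - y) : ℂ) * PP x z + (√(1 - x) : ℂ) * PP y z)) +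
    (β : ℂ) * (1 / (z - ((1 : ℝ) : ℂ))) =
    ((α + γ + β : ℝ) : ℂ) * (PP x z * PP y z / (z * (z - ((1 : ℝ) : ℂ)))) := by
  have s1 := Complex.slitPlane_ne_zero (slit H one_pos one_pos h0)
  have s2 := Complex.slitPlane_ne_zero (slit H (sy H) (sx H) h0)
  have s3 := Complex.slitPlane_ne_zero (slit H (ty H) (tx H) h0)
  have hxy : (y : ℂ) - (x : ℂ) ≠ 0 := by
    rw [sub_ne_zero]
    exact_mod_cast H.hxy.ne'
  have e1 : (((√x : ℝ) : ℂ)) ^ 2 = (x : ℂ) := by
    rw [← Complex.ofReal_pow, sq_sqrt H.hx.le]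
  have e2 : (((√y : ℝ) : ℂ)) ^ 2 = (y : ℂ) := by
    rw [← Complex.ofReal_pow, sq_sqrt (H.hx.trans H.hxy).le]
  have e3 : (((√(1 - x) : ℝ) : ℂ)) ^ 2 = 1 - (x : ℂ) := by
    rw [← Complex.ofReal_pow, sq_sqrt (by linarith [H.hxy, H.hy])]
    push_cast
    ring
  have e4 : (((√(1 - y) : ℝ) : ℂ)) ^ 2 = 1 - (y : ℂ) := by
    rw [← Complex.ofReal_pow, sq_sqrt (by linarith [H.hy])]
    push_cast
    ring
  have e5 : ((α + γ + β : ℝ) : ℂ) * (((√x : ℝ) : ℂ) * ((√y : ℝ) : ℂ)) = (α : ℂ) := by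
    rw [← Complex.ofReal_mul, ← Complex.ofReal_mul, H.ha]
  have e6 : ((α + γ + β : ℝ) : ℂ) * (((√(1 - x) : ℝ) : ℂ) * ((√(1 - y) : ℝ) : ℂ)) = (β : ℂ) := by
    rw [← Complex.ofReal_mul, ← Complex.ofReal_mul, H.hb]
  rw [Complex.ofReal_one] at s1 hz1 ⊢
  have := alg_id (N := ((α + γ + β : ℝ) : ℂ)) nP nQ hz hz1 hxy s1 s2 s3 (PP_sq h0) (PP_sq h0)
    e1 e2 e3 e4 e5 e6
  rw [← this]
  push_cast
  ring

/-- the derivative -/
theorem gg_deriv {z : ℂ} (h : 0 < z.im) :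
    HasDerivAt (gg α γ β x y) (((1 / π : ℝ) : ℂ) * (Complex.I * (((α + γ + β : ℝ) : ℂ) *
      (PP x z * PP y z / (z * (z - ((1 : ℝ) : ℂ))))))) z := by
  have hz : z ≠ 0 := by rintro rfl; simp at h
  have hz1 : z - ((1 : ℝ) : ℂ) ≠ 0 := by
    intro h0
    have := congrArg Complex.im h0
    simp at this
    linarith
  have ip : ∀ t : ℝ, 0 < (z - (t : ℂ)).im := fun t => by simpa using h
  have hzs : z ∈ Complex.slitPlane := Or.inr h.ne'
  have hzs1 : z - ((1 : ℝ) : ℂ) ∈ Complex.slitPlane := Or.inr (ip 1).ne'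
  have dP : ∀ t : ℝ, HasDerivAt (PP t) (1 / (2 * PP t z)) z := by
    intro t
    have h1 : HasDerivAt (fun w : ℂ => Step.Conf.sq (w - (t : ℂ)))
        (1 / (2 * Step.Conf.sq (z - (t : ℂ))) * 1) z :=
      HasDerivAt.comp z (hasDerivAt_sq (ip t)) ((hasDerivAt_id z).sub_const _)
    rw [mul_one] at h1
    exact h1
  have nP : ∀ t : ℝ, PP t z ≠ 0 := by
    intro t h0
    have := sq_re_pos (ip t)
    have e : (PP t z).re = 0 := by rw [h0]; rfl
    exact this.ne' e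
  have d1 := (((dP x).const_mul (((1 : ℝ) : ℂ))).add ((dP y).const_mul (((1 : ℝ) : ℂ)))).clog
    (slit H one_pos one_pos h.le)
  have d2 := (((dP x).const_mul ((√y : ℂ))).add ((dP y).const_mul ((√x : ℂ)))).clog
    (slit H (sy H) (sx H) h.le)
  have d3 := (((dP x).const_mul ((√(1 - y) : ℂ))).add ((dP y).const_mul ((√(1 - x) : ℂ)))).clog
    (slit H (ty H) (tx H) h.le)
  have d4 : HasDerivAt Complex.log (1 / z) z := by
    simpa using Complex.hasDerivAt_log hzs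
  have d5 : HasDerivAt (fun z : ℂ => Complex.log (z - ((1 : ℝ) : ℂ)))
      (1 / (z - ((1 : ℝ) : ℂ))) z :=
    ((hasDerivAt_id z).sub_const ((1 : ℝ) : ℂ)).clog hzs1
  have D := ((((((((d1.const_mul ((2 * (α + γ + β) : ℝ) : ℂ)).sub
    (d2.const_mul ((2 * α : ℝ) : ℂ))).add (d4.const_mul (α : ℂ))).sub
    (d3.const_mul ((2 * β : ℝ) : ℂ))).add (d5.const_mul (β : ℂ))).sub_const
      ((γ * log (y - x) : ℝ) : ℂ)).const_mul Complex.I).const_mul
      ((1 / π : ℝ) : ℂ)).add_const ((γ + β : ℝ) : ℂ)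
  have e := id_at H h.le (nP x) (nP y) hz hz1
  rw [← e]
  exact D

/-- the derivative along the real axis -/
theorem gg_deriv_real {t : ℝ} (h0 : t ≠ 0) (hx : t ≠ x) (hy : t ≠ y) (h1 : t ≠ 1) :
    HasDerivAt (fun t : ℝ => gg α γ β x y (t : ℂ)) (((1 / π : ℝ) : ℂ) * (Complex.I *
      (((α + γ + β : ℝ) : ℂ) * (PP x (t : ℂ) * PP y (t : ℂ) /
        ((t : ℂ) * ((t : ℂ) - ((1 : ℝ) : ℂ))))))) t := by
  have hz : (t : ℂ) ≠ 0 := by exact_mod_cast h0
  have hz1 : (t : ℂ) - ((1 : ℝ) : ℂ) ≠ 0 := by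
    rw [sub_ne_zero]
    exact_mod_cast h1
  have him : 0 ≤ (t : ℂ).im := by simp
  have dP : ∀ c : ℝ, t ≠ c → HasDerivAt (fun t : ℝ => PP c (t : ℂ)) (1 / (2 * PP c (t : ℂ))) t :=
    fun c hc => hasDerivAt_sq_real hc
  have nP : ∀ c : ℝ, t ≠ c → PP c (t : ℂ) ≠ 0 := by
    intro c hc h
    have h2 := PP_sq (x := c) him
    rw [h, zero_pow two_ne_zero] at h2
    have h3 : (t : ℂ) = (c : ℂ) := (sub_eq_zero.1 h2.symm)
    exact hc (by exact_mod_cast h3)
  have dl : ∀ c : ℝ, t ≠ c → HasDerivAt (fun t : ℝ => Complex.log ((t : ℂ) - (c : ℂ)))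
      (1 / ((t : ℂ) - (c : ℂ))) t := by
    intro c hc
    rcases lt_or_gt_of_ne hc with hlt | hgt
    · have e : (fun t : ℝ => Complex.log ((t : ℂ) - (c : ℂ))) =ᶠ[𝓝 t]
          fun t : ℝ => ((log (t - c) : ℝ) : ℂ) + (π : ℂ) * Complex.I := by
        filter_upwards [eventually_lt_nhds hlt] with s hs
        rw [← Complex.ofReal_sub]
        apply Complex.ext
        · rw [Complex.log_re, Complex.norm_real, norm_eq_abs, log_abs, Complex.add_re,
            Complex.ofReal_re]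
          simp
        · rw [Complex.log_im, Complex.arg_ofReal_of_neg (sub_neg.2 hs), Complex.add_im,
            Complex.ofReal_im]
          simp
      have h3 := (((Real.hasDerivAt_log (sub_ne_zero.2 hc)).comp t
        ((hasDerivAt_id t).sub_const c)).ofReal_comp.add_const
        ((π : ℂ) * Complex.I)).congr_of_eventuallyEq e
      refine h3.congr_deriv ?_
      push_cast
      simp
    · have e : (fun t : ℝ => Complex.log ((t : ℂ) - (c : ℂ))) =ᶠ[𝓝 t]
          fun t : ℝ => ((log (t - c) : ℝ) : ℂ) := by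
        filter_upwards [eventually_gt_nhds hgt] with s hs
        rw [← Complex.ofReal_sub, Complex.ofReal_log (sub_nonneg.2 hs.le)]
      have h3 := ((Real.hasDerivAt_log (sub_ne_zero.2 hc)).comp t
        ((hasDerivAt_id t).sub_const c)).ofReal_comp.congr_of_eventuallyEq e
      refine h3.congr_deriv ?_
      push_cast
      simp
  have d1 := (((dP x hx).const_mul (((1 : ℝ) : ℂ))).add
    ((dP y hy).const_mul (((1 : ℝ) : ℂ)))).clog_real (slit H one_pos one_pos him)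
  have d2 := (((dP x hx).const_mul ((√y : ℂ))).add
    ((dP y hy).const_mul ((√x : ℂ)))).clog_real (slit H (sy H) (sx H) him)
  have d3 := (((dP x hx).const_mul ((√(1 - y) : ℂ))).add
    ((dP y hy).const_mul ((√(1 - x) : ℂ)))).clog_real (slit H (ty H) (tx H) him)
  have d4 : HasDerivAt (fun t : ℝ => Complex.log (t : ℂ)) (1 / (t : ℂ)) t := by
    have := dl 0 h0
    simpa using this
  have d5 := dl 1 h1
  have D := ((((((((d1.const_mul ((2 * (α + γ + β) : ℝ) : ℂ)).sub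
    (d2.const_mul ((2 * α : ℝ) : ℂ))).add (d4.const_mul (α : ℂ))).sub
    (d3.const_mul ((2 * β : ℝ) : ℂ))).add (d5.const_mul (β : ℂ))).sub_const
      ((γ * log (y - x) : ℝ) : ℂ)).const_mul Complex.I).const_mul
      ((1 / π : ℝ) : ℂ)).add_const ((γ + β : ℝ) : ℂ)
  have e := id_at H him (nP x hx) (nP y hy) hz hz1
  rw [← e]
  exact D

end

end Pool.Agent.NH38.Fork.UGC
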