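import Pool.Agent.NH38.Fork.UG1

set_option autoImplicit false

/-!
Task FG-F (helper26): values on the real axis, behaviour at `0`, `1` and at infinity.
-/

namespace Pool.Agent.NH38.Fork.UGC

open Filter Topology Set Real
open Pool.Agent.NH38.Step.Conf (sq_re_nonneg sq_im_nonneg sq_re_pos sq_im_pos continuous_sq sq_sq
  hasDerivAt_sq sq_ofReal_nonneg sq_ofReal_nonpos norm_sq_sq hasDerivAt_sq_real)

/-! ### Values on the real axis -/

theorem arg_I_mul {r : ℝ} (hr : 0 < r) : (Complex.I * (r : ℂ)).arg = π / 2 := by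
  rw [mul_comm, Complex.arg_real_mul _ hr, Complex.arg_I]

theorem PP_le {x t : ℝ} (h : t ≤ x) : PP x (t : ℂ) = Complex.I * ((√(x - t) : ℝ) : ℂ) := by
  unfold PP
  rw [← Complex.ofReal_sub, sq_ofReal_nonpos (by linarith), neg_sub]

theorem PP_ge {x t : ℝ} (h : x ≤ t) : PP x (t : ℂ) = ((√(t - x) : ℝ) : ℂ) := by
  unfold PP
  rw [← Complex.ofReal_sub, sq_ofReal_nonneg (by linarith)]

theorem sub_one_cast (t : ℝ) : (t : ℂ) - ((1 : ℝ) : ℂ) = ((t - 1 : ℝ) : ℂ) := by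
  push_cast
  ring

section
variable {α γ β x y : ℝ} (H : Hp α γ β x y)
include H

theorem args_le {c d : ℝ} (hc : 0 < c) (hd : 0 < d) {t : ℝ} (h : t ≤ x) :
    ((c : ℂ) * PP x (t : ℂ) + (d : ℂ) * PP y (t : ℂ)).arg = π / 2 := by
  have hy : t < y := lt_of_le_of_lt h H.hxy
  have hV : 0 < √(y - t) := sqrt_pos.2 (by linarith)
  have hU : 0 ≤ √(x - t) := sqrt_nonneg _
  rw [PP_le h, PP_le hy.le]
  have e : (c : ℂ) * (Complex.I * ((√(x - t) : ℝ) : ℂ)) + (d : ℂ) *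
      (Complex.I * ((√(y - t) : ℝ) : ℂ)) =
      Complex.I * ((c * √(x - t) + d * √(y - t) : ℝ) : ℂ) := by
    push_cast
    ring
  rw [e]
  exact arg_I_mul (by have := mul_pos hd hV; have := mul_nonneg hc.le hU; linarith)

theorem args_ge {c d : ℝ} (hc : 0 < c) (hd : 0 < d) {t : ℝ} (h : y ≤ t) :
    ((c : ℂ) * PP x (t : ℂ) + (d : ℂ) * PP y (t : ℂ)).arg = 0 := by
  have hx : x ≤ t := H.hxy.le.trans h
  rw [PP_ge h, PP_ge hx, ← Complex.ofReal_mul, ← Complex.ofReal_mul, ← Complex.ofReal_add]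
  exact Complex.arg_ofReal_of_nonneg (by positivity)

theorem re_left {t : ℝ} (h : t < 0) : (gg α γ β x y (t : ℂ)).re = -α := by
  have hx := H.hx
  rw [gg_re, args_le H one_pos one_pos (by linarith), args_le H (sy H) (sx H) (by linarith),
    args_le H (ty H) (tx H) (by linarith), sub_one_cast, Complex.arg_ofReal_of_neg h,
    Complex.arg_ofReal_of_neg (by linarith)]
  have := pi_pos
  field_simp
  ring

theorem re_inner {t : ℝ} (h0 : 0 < t) (h : t ≤ x) : (gg α γ β x y (t : ℂ)).re = 0 := by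
  have h1 : t < 1 := by linarith [H.hxy, H.hy]
  rw [gg_re, args_le H one_pos one_pos h, args_le H (sy H) (sx H) h,
    args_le H (ty H) (tx H) h, sub_one_cast, Complex.arg_ofReal_of_nonneg h0.le,
    Complex.arg_ofReal_of_neg (by linarith)]
  have := pi_pos
  field_simp
  ring

theorem re_inner' {t : ℝ} (h0 : y ≤ t) (h : t < 1) : (gg α γ β x y (t : ℂ)).re = γ := by
  have h1 : 0 < t := by linarith [H.hxy, H.hx]
  rw [gg_re, args_ge H one_pos one_pos h0, args_ge H (sy H) (sx H) h0,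
    args_ge H (ty H) (tx H) h0, sub_one_cast, Complex.arg_ofReal_of_nonneg h1.le,
    Complex.arg_ofReal_of_neg (by linarith)]
  have := pi_pos
  field_simp
  ring

theorem re_right {t : ℝ} (h : 1 < t) : (gg α γ β x y (t : ℂ)).re = γ + β := by
  have h0 : y ≤ t := by linarith [H.hy]
  rw [gg_re, args_ge H one_pos one_pos h0, args_ge H (sy H) (sx H) h0,
    args_ge H (ty H) (tx H) h0, sub_one_cast, Complex.arg_ofReal_of_nonneg (by linarith),
    Complex.arg_ofReal_of_nonneg (by linarith)]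
  ring

omit H in
theorem norm_mid {c d t : ℝ} (h0 : x ≤ t) (h1 : t ≤ y) :
    ‖(c : ℂ) * PP x (t : ℂ) + (d : ℂ) * PP y (t : ℂ)‖ ^ 2 =
      c ^ 2 * (t - x) + d ^ 2 * (y - t) := by
  have hU : √(t - x) ^ 2 = t - x := sq_sqrt (by linarith)
  have hV : √(y - t) ^ 2 = y - t := sq_sqrt (by linarith)
  rw [PP_ge h0, PP_le h1, Complex.sq_norm, Complex.normSq_apply]
  simp only [Complex.add_re, Complex.re_ofReal_mul, Complex.ofReal_re, Complex.I_mul_re,
    Complex.ofReal_im, neg_zero, mul_zero, add_zero, Complex.add_im, Complex.im_ofReal_mul,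
    Complex.I_mul_im, zero_add]
  linear_combination (c ^ 2) * hU + (d ^ 2) * hV

theorem im_ledge {t : ℝ} (h0 : x ≤ t) (h1 : t ≤ y) : (gg α γ β x y (t : ℂ)).im = 0 := by
  have hx := H.hx
  have hxy := H.hxy
  have hy := H.hy
  have ht0 : 0 < t := by linarith
  have ht1 : t < 1 := by linarith
  have n1 : ‖((1 : ℝ) : ℂ) * PP x (t : ℂ) + ((1 : ℝ) : ℂ) * PP y (t : ℂ)‖ ^ 2 = y - x := by
    rw [norm_mid h0 h1]
    ring
  have n2 : ‖(√y : ℂ) * PP x (t : ℂ) + (√x : ℂ) * PP y (t : ℂ)‖ ^ 2 = t * (y - x) := by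
    rw [norm_mid h0 h1, sq_sqrt (by linarith), sq_sqrt hx.le]
    ring
  have n3 : ‖(√(1 - y) : ℂ) * PP x (t : ℂ) + (√(1 - x) : ℂ) * PP y (t : ℂ)‖ ^ 2 =
      (1 - t) * (y - x) := by
    rw [norm_mid h0 h1, sq_sqrt (by linarith), sq_sqrt (by linarith)]
    ring
  have l1 : 2 * log ‖((1 : ℝ) : ℂ) * PP x (t : ℂ) + ((1 : ℝ) : ℂ) * PP y (t : ℂ)‖ =
      log (y - x) := by
    rw [← n1, log_pow]; norm_num
  have l2 : 2 * log ‖(√y : ℂ) * PP x (t : ℂ) + (√x : ℂ) * PP y (t : ℂ)‖ =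
      log t + log (y - x) := by
    rw [← log_mul (by linarith) (by linarith), ← n2, log_pow]; norm_num
  have l3 : 2 * log ‖(√(1 - y) : ℂ) * PP x (t : ℂ) + (√(1 - x) : ℂ) * PP y (t : ℂ)‖ =
      log (1 - t) + log (y - x) := by
    rw [← log_mul (by linarith) (by linarith), ← n3, log_pow]; norm_num
  have l4 : ‖(t : ℂ) - ((1 : ℝ) : ℂ)‖ = 1 - t := by
    rw [sub_one_cast, Complex.norm_real, norm_eq_abs, abs_of_neg (by linarith)]
    ring
  rw [gg_im, l4, Complex.norm_real, norm_eq_abs, abs_of_pos ht0]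
  have e : 2 * (α + γ + β) * log ‖((1 : ℝ) : ℂ) * PP x (t : ℂ) + ((1 : ℝ) : ℂ) * PP y (t : ℂ)‖ -
      2 * α * log ‖(√y : ℂ) * PP x (t : ℂ) + (√x : ℂ) * PP y (t : ℂ)‖ + α * log t -
      2 * β * log ‖(√(1 - y) : ℂ) * PP x (t : ℂ) + (√(1 - x) : ℂ) * PP y (t : ℂ)‖ +
      β * log (1 - t) - γ * log (y - x) = 0 := by
    linear_combination (α + γ + β) * l1 - α * l2 - β * l3
  rw [e, mul_zero]

theorem gg_x : gg α γ β x y (x : ℂ) = 0 :=
  Complex.ext (re_inner H H.hx le_rfl) (im_ledge H le_rfl H.hxy.le)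

theorem gg_y : gg α γ β x y (y : ℂ) = (γ : ℂ) :=
  Complex.ext ((re_inner' H le_rfl H.hy).trans (Complex.ofReal_re γ).symm)
    ((im_ledge H H.hxy.le le_rfl).trans (Complex.ofReal_im γ).symm)

/-! ### Monotonicity on the real axis -/

theorem cont_real : ContinuousOn (fun t : ℝ => gg α γ β x y (t : ℂ)) {t | t ≠ 0 ∧ t ≠ 1} := by
  refine (gg_cont H).comp Complex.continuous_ofReal.continuousOn ?_
  rintro t ⟨ht, ht1⟩
  exact ⟨by simp, by exact_mod_cast ht, by exact_mod_cast ht1⟩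

theorem cont_im {s : Set ℝ} (h : ∀ t ∈ s, t ≠ 0 ∧ t ≠ 1) :
    ContinuousOn (fun t : ℝ => (gg α γ β x y (t : ℂ)).im) s :=
  Complex.continuous_im.comp_continuousOn ((cont_real H).mono h)

theorem cont_re {s : Set ℝ} (h : ∀ t ∈ s, t ≠ 0 ∧ t ≠ 1) :
    ContinuousOn (fun t : ℝ => (gg α γ β x y (t : ℂ)).re) s :=
  Complex.continuous_re.comp_continuousOn ((cont_real H).mono h)

/-- the derivative of the imaginary part for `t < x` -/
theorem deriv_im_lt {t : ℝ} (h0 : t ≠ 0) (h : t < x) :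
    HasDerivAt (fun t : ℝ => (gg α γ β x y (t : ℂ)).im)
      (1 / π * ((α + γ + β) * (-(√(x - t) * √(y - t)) / (t * (t - 1))))) t := by
  have hx := H.hx
  have hxy := H.hxy
  have hy := H.hy
  have D := gg_deriv_real H h0 h.ne (by linarith) (by linarith)
  have D2 := Complex.imCLM.hasFDerivAt.comp_hasDerivAt t D
  refine D2.congr_deriv ?_
  rw [PP_le h.le, PP_le (by linarith), sub_one_cast]
  have e : Complex.I * ((√(x - t) : ℝ) : ℂ) * (Complex.I * ((√(y - t) : ℝ) : ℂ)) /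
      ((t : ℂ) * ((t - 1 : ℝ) : ℂ)) =
      ((-(√(x - t) * √(y - t)) / (t * (t - 1)) : ℝ) : ℂ) := by
    have e1 : Complex.I * ((√(x - t) : ℝ) : ℂ) * (Complex.I * ((√(y - t) : ℝ) : ℂ)) =
        (Complex.I * Complex.I) * (((√(x - t) : ℝ) : ℂ) * ((√(y - t) : ℝ) : ℂ)) := by ring
    rw [e1, Complex.I_mul_I]
    push_cast
    ring
  rw [e]
  simp only [Complex.imCLM_apply, Complex.im_ofReal_mul, Complex.I_mul_im, Complex.re_ofReal_mul,
    Complex.ofReal_re]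

/-- the derivative of the imaginary part for `t > y` -/
theorem deriv_im_gt {t : ℝ} (h : y < t) (h1 : t ≠ 1) :
    HasDerivAt (fun t : ℝ => (gg α γ β x y (t : ℂ)).im)
      (1 / π * ((α + γ + β) * (√(t - x) * √(t - y) / (t * (t - 1))))) t := by
  have hx := H.hx
  have hxy := H.hxy
  have D := gg_deriv_real H (by linarith : t ≠ 0) (by linarith : t ≠ x) h.ne' h1
  have D2 := Complex.imCLM.hasFDerivAt.comp_hasDerivAt t D
  refine D2.congr_deriv ?_
  rw [PP_ge (by linarith : x ≤ t), PP_ge h.le, sub_one_cast, ← Complex.ofReal_mul,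
    ← Complex.ofReal_mul, ← Complex.ofReal_div]
  simp only [Complex.imCLM_apply, Complex.im_ofReal_mul, Complex.I_mul_im, Complex.re_ofReal_mul,
    Complex.ofReal_re]

/-- the derivative of the real part for `x < t < y` -/
theorem deriv_re_mid {t : ℝ} (h0 : x < t) (h : t < y) :
    HasDerivAt (fun t : ℝ => (gg α γ β x y (t : ℂ)).re)
      (1 / π * ((α + γ + β) * (-(√(t - x) * √(y - t)) / (t * (t - 1))))) t := by
  have hx := H.hx
  have hy := H.hy
  have D := gg_deriv_real H (by linarith : t ≠ 0) h0.ne' h.ne (by linarith : t ≠ 1)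
  have D2 := Complex.reCLM.hasFDerivAt.comp_hasDerivAt t D
  refine D2.congr_deriv ?_
  rw [PP_ge h0.le, PP_le h.le, sub_one_cast]
  have e : ((√(t - x) : ℝ) : ℂ) * (Complex.I * ((√(y - t) : ℝ) : ℂ)) /
      ((t : ℂ) * ((t - 1 : ℝ) : ℂ)) =
      Complex.I * ((√(t - x) * √(y - t) / (t * (t - 1)) : ℝ) : ℂ) := by
    push_cast
    ring
  rw [e]
  simp only [Complex.reCLM_apply, Complex.re_ofReal_mul, Complex.I_mul_re, Complex.im_ofReal_mul,
    Complex.neg_im, Complex.I_mul_im, Complex.ofReal_re]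
  ring

theorem anti_left : StrictAntiOn (fun t : ℝ => (gg α γ β x y (t : ℂ)).im) (Iio 0) := by
  have hx := H.hx
  have hxy := H.hxy
  apply strictAntiOn_of_deriv_neg (convex_Iio 0)
  · refine cont_im H fun t ht => ?_
    have ht' : t < 0 := ht
    exact ⟨by linarith, by linarith⟩
  · intro t ht
    rw [interior_Iio] at ht
    simp only [mem_Iio] at ht
    rw [(deriv_im_lt H ht.ne (by linarith)).deriv]
    have hU : 0 < √(x - t) := sqrt_pos.2 (by linarith)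
    have hV : 0 < √(y - t) := sqrt_pos.2 (by linarith)
    have h0 : 0 < t * (t - 1) := mul_pos_of_neg_of_neg ht (by linarith)
    have h1 : -(√(x - t) * √(y - t)) / (t * (t - 1)) < 0 :=
      div_neg_of_neg_of_pos (by have := mul_pos hU hV; linarith) h0
    have h2 : (α + γ + β) * (-(√(x - t) * √(y - t)) / (t * (t - 1))) < 0 :=
      mul_neg_of_pos_of_neg (hN H) h1
    exact mul_neg_of_pos_of_neg (by positivity) h2

theorem mono_inner : StrictMonoOn (fun t : ℝ => (gg α γ β x y (t : ℂ)).im) (Ioc 0 x) := by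
  have hx := H.hx
  have hxy := H.hxy
  have hy := H.hy
  apply strictMonoOn_of_deriv_pos (convex_Ioc _ _)
  · refine cont_im H fun t ht => ⟨ht.1.ne', ?_⟩
    linarith [ht.2]
  · intro t ht
    rw [interior_Ioc] at ht
    rw [(deriv_im_lt H ht.1.ne' ht.2).deriv]
    have hU : 0 < √(x - t) := sqrt_pos.2 (by linarith [ht.2])
    have hV : 0 < √(y - t) := sqrt_pos.2 (by linarith [ht.2])
    have h0 : t * (t - 1) < 0 := mul_neg_of_pos_of_neg ht.1 (by linarith [ht.2])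
    have h1 : 0 < -(√(x - t) * √(y - t)) / (t * (t - 1)) :=
      div_pos_of_neg_of_neg (by have := mul_pos hU hV; linarith) h0
    have := hN H
    positivity

theorem mono_ledge : StrictMonoOn (fun t : ℝ => (gg α γ β x y (t : ℂ)).re) (Icc x y) := by
  have hx := H.hx
  have hy := H.hy
  apply strictMonoOn_of_deriv_pos (convex_Icc _ _)
  · refine cont_re H fun t ht => ⟨?_, ?_⟩
    · linarith [ht.1]
    · linarith [ht.2]
  · intro t ht
    rw [interior_Icc] at ht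
    rw [(deriv_re_mid H ht.1 ht.2).deriv]
    have hU : 0 < √(t - x) := sqrt_pos.2 (by linarith [ht.1])
    have hV : 0 < √(y - t) := sqrt_pos.2 (by linarith [ht.2])
    have h0 : t * (t - 1) < 0 := mul_neg_of_pos_of_neg (by linarith [ht.1]) (by linarith [ht.2])
    have h1 : 0 < -(√(t - x) * √(y - t)) / (t * (t - 1)) :=
      div_pos_of_neg_of_neg (by have := mul_pos hU hV; linarith) h0
    have := hN H
    positivity

theorem anti_inner' : StrictAntiOn (fun t : ℝ => (gg α γ β x y (t : ℂ)).im) (Ico y 1) := by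
  have hx := H.hx
  have hxy := H.hxy
  apply strictAntiOn_of_deriv_neg (convex_Ico _ _)
  · refine cont_im H fun t ht => ⟨?_, ht.2.ne⟩
    linarith [ht.1]
  · intro t ht
    rw [interior_Ico] at ht
    rw [(deriv_im_gt H ht.1 ht.2.ne).deriv]
    have hU : 0 < √(t - x) := sqrt_pos.2 (by linarith [ht.1])
    have hV : 0 < √(t - y) := sqrt_pos.2 (by linarith [ht.1])
    have h0 : t * (t - 1) < 0 := mul_neg_of_pos_of_neg (by linarith [ht.1]) (by linarith [ht.2])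
    have h1 : √(t - x) * √(t - y) / (t * (t - 1)) < 0 :=
      div_neg_of_pos_of_neg (mul_pos hU hV) h0
    have h2 : (α + γ + β) * (√(t - x) * √(t - y) / (t * (t - 1))) < 0 :=
      mul_neg_of_pos_of_neg (hN H) h1
    exact mul_neg_of_pos_of_neg (by positivity) h2

theorem mono_right : StrictMonoOn (fun t : ℝ => (gg α γ β x y (t : ℂ)).im) (Ioi 1) := by
  have hx := H.hx
  have hxy := H.hxy
  have hy := H.hy
  apply strictMonoOn_of_deriv_pos (convex_Ioi 1)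
  · refine cont_im H fun t ht => ?_
    have ht' : 1 < t := ht
    exact ⟨by linarith, by linarith⟩
  · intro t ht
    rw [interior_Ioi] at ht
    simp only [mem_Ioi] at ht
    rw [(deriv_im_gt H (by linarith) ht.ne').deriv]
    have hU : 0 < √(t - x) := sqrt_pos.2 (by linarith)
    have hV : 0 < √(t - y) := sqrt_pos.2 (by linarith)
    have h0 : 0 < t * (t - 1) := mul_pos (by linarith) (by linarith)
    have := hN H
    positivity

/-! ### Behaviour at `0`, `1` and at infinity -/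

theorem norm_facts {z : ℂ} (h : 0 ≤ z.im) :
    ‖PP x z‖ ^ 2 = ‖z - (x : ℂ)‖ ∧ ‖PP y z‖ ^ 2 = ‖z - (y : ℂ)‖ ∧
    y - x ≤ ‖PP x z‖ ^ 2 + ‖PP y z‖ ^ 2 := by
  have h1 : ‖PP x z‖ ^ 2 = ‖z - (x : ℂ)‖ := norm_sq_sq (by simpa using h)
  have h2 : ‖PP y z‖ ^ 2 = ‖z - (y : ℂ)‖ := norm_sq_sq (by simpa using h)
  refine ⟨h1, h2, ?_⟩
  rw [h1, h2]
  have h3 : ‖(y : ℂ) - (x : ℂ)‖ = y - x := by
    rw [← Complex.ofReal_sub, Complex.norm_real, norm_eq_abs,
      abs_of_nonneg (by linarith [H.hxy])]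
  rw [← h3]
  have h4 : (y : ℂ) - (x : ℂ) = (z - (x : ℂ)) - (z - (y : ℂ)) := by
    ring
  rw [h4]
  exact norm_sub_le _ _

omit H in
theorem two_log {w : ℂ} (c : ℝ) : 2 * c * log ‖w‖ = c * log (‖w‖ ^ 2) := by
  rw [log_pow]; push_cast; ring

/-- a combination is at most `2 S` and at least `m S` -/
theorem comb {c d m : ℝ} (hc : 0 < c) (hc1 : c ≤ 1) (hd : 0 < d) (hd1 : d ≤ 1) (hm : 0 < m)
    (hmc : m ≤ c ^ 2) (hmd : m ≤ d ^ 2) {z : ℂ} (h : 0 ≤ z.im) :
    log m + log (‖PP x z‖ ^ 2 + ‖PP y z‖ ^ 2) ≤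
      log (‖(c : ℂ) * PP x z + (d : ℂ) * PP y z‖ ^ 2) ∧
    log (‖(c : ℂ) * PP x z + (d : ℂ) * PP y z‖ ^ 2) ≤
      log 2 + log (‖PP x z‖ ^ 2 + ‖PP y z‖ ^ 2) := by
  obtain ⟨-, -, h3⟩ := norm_facts H h
  set S := ‖PP x z‖ ^ 2 + ‖PP y z‖ ^ 2 with hS
  have hS0 : 0 < S := by linarith [H.hxy]
  have n1 : m * S ≤ ‖(c : ℂ) * PP x z + (d : ℂ) * PP y z‖ ^ 2 := by
    have := quad_norm_ge2 (A := PP x z) (B := PP y z) hc.le hd.le (sq_re_nonneg _)
      (sq_im_nonneg _) (sq_re_nonneg _) (sq_im_nonneg _)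
    have e1 := mul_le_mul_of_nonneg_right hmc (sq_nonneg ‖PP x z‖)
    have e2 := mul_le_mul_of_nonneg_right hmd (sq_nonneg ‖PP y z‖)
    rw [hS]
    linarith
  have n2 : ‖(c : ℂ) * PP x z + (d : ℂ) * PP y z‖ ^ 2 ≤ 2 * S :=
    quad_norm_le2 hc.le hc1 hd.le hd1
  have n3 : 0 < ‖(c : ℂ) * PP x z + (d : ℂ) * PP y z‖ ^ 2 := lt_of_lt_of_le (by positivity) n1
  constructor
  · rw [← log_mul hm.ne' hS0.ne']
    exact log_le_log (by positivity) n1
  · rw [← log_mul two_ne_zero hS0.ne']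
    exact log_le_log n3 n2

theorem im_lower {z : ℂ} (h : 0 ≤ z.im) : 1 / π * (α * (log ‖z‖ - log 2) +
    β * (log ‖z - ((1 : ℝ) : ℂ)‖ - log 2)) ≤ (gg α γ β x y z).im := by
  have hα := H.hα
  have hβ := H.hβ
  have hγ := H.hγ
  have hx := H.hx
  have hxy := H.hxy
  have hy := H.hy
  obtain ⟨h1, h2, h3⟩ := norm_facts H h
  obtain ⟨a1, -⟩ := comb H one_pos le_rfl one_pos le_rfl one_pos (by norm_num) (by norm_num) h
  obtain ⟨-, b2⟩ := comb H (sy H) (sy1 H) (sx H) (sx1 H) hx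
    (by rw [sq_sqrt (by linarith)]; exact hxy.le) (by rw [sq_sqrt hx.le]) h
  obtain ⟨-, c2⟩ := comb H (ty H) (ty1 H) (tx H) (tx1 H) (m := 1 - y) (by linarith)
    (by rw [sq_sqrt (by linarith)]) (by rw [sq_sqrt (by linarith)]; linarith) h
  rw [log_one, zero_add] at a1
  have l3 : log (y - x) ≤ log (‖PP x z‖ ^ 2 + ‖PP y z‖ ^ 2) := log_le_log (by linarith) h3
  rw [gg_im]
  refine mul_le_mul_of_nonneg_left ?_ (by positivity)
  rw [two_log (α + γ + β), two_log α, two_log β]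
  have m1 := mul_le_mul_of_nonneg_left a1 (hN H).le
  have m2 := mul_le_mul_of_nonneg_left b2 hα.le
  have m3 := mul_le_mul_of_nonneg_left c2 hβ.le
  have m4 := mul_le_mul_of_nonneg_left l3 hγ.le
  linarith

theorem im_upper : ∃ C : ℝ, ∀ z : ℂ, 0 ≤ z.im → ‖z‖ ≤ 2 →
    (gg α γ β x y z).im ≤ 1 / π * (α * log ‖z‖ + β * log ‖z - ((1 : ℝ) : ℂ)‖ + C) := by
  have hα := H.hα
  have hβ := H.hβ
  have hγ := H.hγ
  have hx := H.hx
  have hxy := H.hxy
  have hy := H.hy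
  refine ⟨(α + γ + β) * log 2 - α * log x - β * log (1 - y) + γ * log 6 - γ * log (y - x), ?_⟩
  intro z h hz
  obtain ⟨h1, h2, h3⟩ := norm_facts H h
  obtain ⟨-, a2⟩ := comb H one_pos le_rfl one_pos le_rfl one_pos (by norm_num) (by norm_num) h
  obtain ⟨b1, -⟩ := comb H (sy H) (sy1 H) (sx H) (sx1 H) hx
    (by rw [sq_sqrt (by linarith)]; exact hxy.le) (by rw [sq_sqrt hx.le]) h
  obtain ⟨c1, -⟩ := comb H (ty H) (ty1 H) (tx H) (tx1 H) (m := 1 - y) (by linarith)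
    (by rw [sq_sqrt (by linarith)]) (by rw [sq_sqrt (by linarith)]; linarith) h
  have hS0 : 0 < ‖PP x z‖ ^ 2 + ‖PP y z‖ ^ 2 := by linarith
  have hS6 : ‖PP x z‖ ^ 2 + ‖PP y z‖ ^ 2 ≤ 6 := by
    rw [h1, h2]
    have e1 := norm_sub_le z (x : ℂ)
    have e2 := norm_sub_le z (y : ℂ)
    rw [Complex.norm_real, norm_eq_abs, abs_of_pos hx] at e1
    rw [Complex.norm_real, norm_eq_abs, abs_of_pos (hx.trans hxy)] at e2
    linarith
  have l3 : log (‖PP x z‖ ^ 2 + ‖PP y z‖ ^ 2) ≤ log 6 := log_le_log hS0 hS6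
  rw [gg_im]
  refine mul_le_mul_of_nonneg_left ?_ (by positivity)
  rw [two_log (α + γ + β), two_log α, two_log β]
  have m1 := mul_le_mul_of_nonneg_left a2 (hN H).le
  have m2 := mul_le_mul_of_nonneg_left b1 hα.le
  have m3 := mul_le_mul_of_nonneg_left c1 hβ.le
  have m4 := mul_le_mul_of_nonneg_left l3 hγ.le
  linarith

theorem big (M : ℝ) : ∃ R : ℝ, 1 < R ∧ ∀ z : ℂ, 0 ≤ z.im → R ≤ ‖z‖ →
    M ≤ (gg α γ β x y z).im := by
  have hα := H.hα
  have hβ := H.hβ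
  refine ⟨max 3 (2 * exp (π * M / α)), lt_max_of_lt_left (by norm_num), ?_⟩
  intro z h hz
  have hz1 : 2 * exp (π * M / α) ≤ ‖z‖ := (le_max_right _ _).trans hz
  have hz3 : 3 ≤ ‖z‖ := (le_max_left _ _).trans hz
  have hz4 : 2 ≤ ‖z - ((1 : ℝ) : ℂ)‖ := by
    have := norm_sub_norm_le z ((1 : ℝ) : ℂ)
    rw [Complex.norm_real, norm_eq_abs, abs_of_pos one_pos] at this
    linarith
  refine le_trans ?_ (im_lower H h)
  have h1 : log (2 * exp (π * M / α)) ≤ log ‖z‖ := log_le_log (by positivity) hz1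
  rw [log_mul two_ne_zero (exp_pos _).ne', log_exp] at h1
  have h2 : π * M / α ≤ log ‖z‖ - log 2 := by linarith
  rw [div_le_iff₀ hα] at h2
  have h3 : log 2 ≤ log ‖z - ((1 : ℝ) : ℂ)‖ := log_le_log two_pos hz4
  have h4 : 0 ≤ β * (log ‖z - ((1 : ℝ) : ℂ)‖ - log 2) := mul_nonneg hβ.le (by linarith)
  rw [one_div, inv_mul_eq_div, le_div_iff₀ pi_pos]
  linarith

theorem small0 (M : ℝ) : ∃ r : ℝ, 0 < r ∧ r < 1 ∧ ∀ z : ℂ, 0 ≤ z.im → z ≠ 0 → ‖z‖ ≤ r →
    (gg α γ β x y z).im ≤ M := by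
  have hα := H.hα
  have hβ := H.hβ
  obtain ⟨C, hC⟩ := im_upper H
  refine ⟨min (1 / 2) (exp ((π * M - C - β * log 2) / α)), by positivity,
    lt_of_le_of_lt (min_le_left _ _) (by norm_num), ?_⟩
  intro z h hz0 hz
  have hz1 : ‖z‖ ≤ exp ((π * M - C - β * log 2) / α) := hz.trans (min_le_right _ _)
  have hz2 : ‖z‖ ≤ 1 / 2 := hz.trans (min_le_left _ _)
  have hzp : 0 < ‖z‖ := norm_pos_iff.2 hz0
  have hz3 : ‖z - ((1 : ℝ) : ℂ)‖ ≤ 2 := by
    have := norm_sub_le z ((1 : ℝ) : ℂ)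
    rw [Complex.norm_real, norm_eq_abs, abs_of_pos one_pos] at this
    linarith
  have hz4 : 0 < ‖z - ((1 : ℝ) : ℂ)‖ := by
    have := norm_sub_norm_le ((1 : ℝ) : ℂ) z
    rw [Complex.norm_real, norm_eq_abs, abs_of_pos one_pos, norm_sub_rev] at this
    linarith
  refine (hC z h (by linarith)).trans ?_
  have h1 : log ‖z‖ ≤ (π * M - C - β * log 2) / α := by
    rw [← log_exp ((π * M - C - β * log 2) / α)]
    exact log_le_log hzp hz1
  rw [le_div_iff₀ hα] at h1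
  have h2 : β * log ‖z - ((1 : ℝ) : ℂ)‖ ≤ β * log 2 :=
    mul_le_mul_of_nonneg_left (log_le_log hz4 hz3) hβ.le
  rw [one_div, inv_mul_eq_div, div_le_iff₀ pi_pos]
  linarith

theorem small1 (M : ℝ) : ∃ r : ℝ, 0 < r ∧ r < 1 ∧ ∀ z : ℂ, 0 ≤ z.im → z ≠ 1 →
    ‖z - ((1 : ℝ) : ℂ)‖ ≤ r → (gg α γ β x y z).im ≤ M := by
  have hα := H.hα
  have hβ := H.hβ
  obtain ⟨C, hC⟩ := im_upper H
  refine ⟨min (1 / 2) (exp ((π * M - C - α * log 2) / β)), by positivity,
    lt_of_le_of_lt (min_le_left _ _) (by norm_num), ?_⟩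
  intro z h hz0 hz
  have hz1 : ‖z - ((1 : ℝ) : ℂ)‖ ≤ exp ((π * M - C - α * log 2) / β) :=
    hz.trans (min_le_right _ _)
  have hz2 : ‖z - ((1 : ℝ) : ℂ)‖ ≤ 1 / 2 := hz.trans (min_le_left _ _)
  have hzp : 0 < ‖z - ((1 : ℝ) : ℂ)‖ := by
    rw [norm_pos_iff, sub_ne_zero]
    simpa using hz0
  have hz3 : ‖z‖ ≤ 2 := by
    have := norm_sub_norm_le z ((1 : ℝ) : ℂ)
    rw [Complex.norm_real, norm_eq_abs, abs_of_pos one_pos] at this
    linarith
  have hz4 : 0 < ‖z‖ := by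
    have := norm_sub_norm_le ((1 : ℝ) : ℂ) z
    rw [Complex.norm_real, norm_eq_abs, abs_of_pos one_pos, norm_sub_rev] at this
    linarith
  refine (hC z h hz3).trans ?_
  have h1 : log ‖z - ((1 : ℝ) : ℂ)‖ ≤ (π * M - C - α * log 2) / β := by
    rw [← log_exp ((π * M - C - α * log 2) / β)]
    exact log_le_log hzp hz1
  rw [le_div_iff₀ hβ] at h1
  have h2 : α * log ‖z‖ ≤ α * log 2 :=
    mul_le_mul_of_nonneg_left (log_le_log hz4 hz3) hα.le
  rw [one_div, inv_mul_eq_div, div_le_iff₀ pi_pos]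
  linarith

end

end Pool.Agent.NH38.Fork.UGC
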